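import Pool.Agent.MPF.Defs

/-!
# MPF/Andreief: the Andréief identity

PROOF. `∏_{i<j} |λ_j - λ_i|² = |det (λ_j^a)|² = ∑_{σ,τ} sgn σ sgn τ ∏_j λ_j^{σ j} conj(λ_j)^{τ j}` (`Matrix.det_vandermonde`);
multiply by `∏ F(λ_j)` and integrate (Fubini for products: `MeasureTheory.integral_fintype_prod_eq_prod` or
`integral_fin_nat_prod_eq_prod`): `∑_{σ,τ} sgn σ sgn τ ∏_j m(σ j, τ j)`, `m(a,b) = ∫ F λ^a conj(λ)^b`, `= n! det m`
(substitute `τ = ρ σ`, `Matrix.det_apply`). Each factor `F λ^a conj λ^b`, `a, b < n`, is integrable: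
`|λ|^{a+b} ≤ (1+|λ|²)^(n-1)` as `a, b ≤ n-1`; measurability from `hF` (multiply by the continuous function
`(1+|λ|²)^{-(n-1)}`).
-/

open MeasureTheory Matrix Finset Filter Topology
open scoped ENNReal ComplexConjugate

namespace MPF

/-- The factors of the Andréief identity are integrable. -/
theorem andreief_factor {n : ℕ} {μ : Measure ℂ} {F : ℂ → ℂ}
    (hF : Integrable (fun l : ℂ => (((1 + ‖l‖ ^ 2) ^ (n - 1) : ℝ) : ℂ) * F l) μ)
    (a b : Fin n) :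
    Integrable (fun l : ℂ => F l * l ^ (a : ℕ) * conj l ^ (b : ℕ)) μ := by
  have hpos : ∀ l : ℂ, (0 : ℝ) < (1 + ‖l‖ ^ 2) ^ (n - 1) := fun l => by positivity
  have hcont : Continuous (fun l : ℂ => (l ^ (a : ℕ) * conj l ^ (b : ℕ)) *
      ((((1 + ‖l‖ ^ 2) ^ (n - 1) : ℝ) : ℂ))⁻¹) := by
    refine Continuous.mul (by fun_prop) (Continuous.inv₀ (by fun_prop) ?_)
    intro l
    exact_mod_cast (hpos l).ne'
  have hbd : ∀ l : ℂ, ‖(l ^ (a : ℕ) * conj l ^ (b : ℕ)) *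
      ((((1 + ‖l‖ ^ 2) ^ (n - 1) : ℝ) : ℂ))⁻¹‖ ≤ 1 := by
    intro l
    rw [norm_mul, norm_inv, norm_mul, norm_pow, norm_pow, RCLike.norm_conj, Complex.norm_real,
      Real.norm_of_nonneg (hpos l).le, ← div_eq_mul_inv, div_le_one (hpos l), ← pow_add]
    have h1 : ‖l‖ ^ ((a : ℕ) + (b : ℕ)) ≤ (max 1 ‖l‖) ^ ((a : ℕ) + (b : ℕ)) :=
      pow_le_pow_left₀ (norm_nonneg _) (le_max_right _ _) _
    have h2 : (max 1 ‖l‖) ^ ((a : ℕ) + (b : ℕ)) ≤ (max 1 ‖l‖) ^ (2 * (n - 1)) := by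
      refine pow_le_pow_right₀ (le_max_left _ _) ?_
      have := a.isLt
      have := b.isLt
      omega
    have h3 : (max 1 ‖l‖) ^ 2 ≤ 1 + ‖l‖ ^ 2 := by
      rcases le_total 1 ‖l‖ with h | h
      · rw [max_eq_right h]; linarith
      · rw [max_eq_left h]; nlinarith [norm_nonneg l]
    calc _ ≤ _ := h1
      _ ≤ _ := h2
      _ = ((max 1 ‖l‖) ^ 2) ^ (n - 1) := by rw [pow_mul]
      _ ≤ _ := pow_le_pow_left₀ (by positivity) h3 _
  have key := hF.bdd_mul (c := 1) (f := fun l : ℂ => (l ^ (a : ℕ) * conj l ^ (b : ℕ)) *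
      ((((1 + ‖l‖ ^ 2) ^ (n - 1) : ℝ) : ℂ))⁻¹) hcont.aestronglyMeasurable
      (Eventually.of_forall hbd)
  refine key.congr (Eventually.of_forall fun l => ?_)
  have h0 : ((((1 + ‖l‖ ^ 2) ^ (n - 1) : ℝ) : ℂ)) ≠ 0 := by exact_mod_cast (hpos l).ne'
  show (l ^ (a : ℕ) * conj l ^ (b : ℕ)) * ((((1 + ‖l‖ ^ 2) ^ (n - 1) : ℝ) : ℂ))⁻¹ *
    ((((1 + ‖l‖ ^ 2) ^ (n - 1) : ℝ) : ℂ) * F l) = F l * l ^ (a : ℕ) * conj l ^ (b : ℕ)
  field_simp

/-- The squared Vandermonde product as a double sum. -/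
theorem andreief_vdm (n : ℕ) (F : ℂ → ℂ) (l : Fin n → ℂ) :
    (∏ j, F (l j)) * ((∏ i, ∏ j ∈ Ioi i, ‖l j - l i‖ ^ 2 : ℝ) : ℂ) =
      ∑ σ : Equiv.Perm (Fin n), ∑ τ : Equiv.Perm (Fin n),
        (((Equiv.Perm.sign σ : ℤ) : ℂ) * ((Equiv.Perm.sign τ : ℤ) : ℂ)) *
        ∏ j, (F (l j) * l j ^ ((σ j : Fin n) : ℕ) * conj (l j) ^ ((τ j : Fin n) : ℕ)) := by
  have hv : ∀ v : Fin n → ℂ, (∏ i, ∏ j ∈ Ioi i, (v j - v i)) =
      ∑ σ : Equiv.Perm (Fin n), ((Equiv.Perm.sign σ : ℤ) : ℂ) * ∏ j, v j ^ ((σ j : Fin n) : ℕ) := by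
    intro v
    rw [← Matrix.det_vandermonde, ← Matrix.det_transpose, Matrix.det_apply']
    rfl
  have h1 : ((∏ i, ∏ j ∈ Ioi i, ‖l j - l i‖ ^ 2 : ℝ) : ℂ) =
      (∏ i, ∏ j ∈ Ioi i, (l j - l i)) * (∏ i, ∏ j ∈ Ioi i, (conj (l j) - conj (l i))) := by
    rw [← Finset.prod_mul_distrib]
    push_cast
    refine Finset.prod_congr rfl fun i _ => ?_
    rw [← Finset.prod_mul_distrib]
    refine Finset.prod_congr rfl fun j _ => ?_
    rw [← map_sub, Complex.mul_conj, Complex.normSq_eq_norm_sq]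
    push_cast
    ring
  rw [h1, hv l, hv (fun j => conj (l j)), Finset.sum_mul_sum, Finset.mul_sum]
  refine Finset.sum_congr rfl fun σ _ => ?_
  rw [Finset.mul_sum]
  refine Finset.sum_congr rfl fun τ _ => ?_
  rw [Finset.prod_mul_distrib, Finset.prod_mul_distrib]
  ring

/-- The double sum is `n!` times the determinant. -/
theorem andreief_det (n : ℕ) (m : Fin n → Fin n → ℂ) :
    ∑ σ : Equiv.Perm (Fin n), ∑ τ : Equiv.Perm (Fin n),
        (((Equiv.Perm.sign σ : ℤ) : ℂ) * ((Equiv.Perm.sign τ : ℤ) : ℂ)) *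
        ∏ j, m (σ j) (τ j) = (n.factorial : ℂ) * (Matrix.of m).det := by
  rw [Finset.sum_comm]
  have h : ∀ τ : Equiv.Perm (Fin n), ∑ σ : Equiv.Perm (Fin n),
        (((Equiv.Perm.sign σ : ℤ) : ℂ) * ((Equiv.Perm.sign τ : ℤ) : ℂ)) *
        ∏ j, m (σ j) (τ j) = (Matrix.of m).det := by
    intro τ
    have h1 : ((Matrix.of m).submatrix id τ).det =
        ∑ σ : Equiv.Perm (Fin n), ((Equiv.Perm.sign σ : ℤ) : ℂ) * ∏ j, m (σ j) (τ j) := by
      rw [Matrix.det_apply']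
      rfl
    have h2 : ∑ σ : Equiv.Perm (Fin n),
        (((Equiv.Perm.sign σ : ℤ) : ℂ) * ((Equiv.Perm.sign τ : ℤ) : ℂ)) * ∏ j, m (σ j) (τ j) =
        ((Equiv.Perm.sign τ : ℤ) : ℂ) * ((Matrix.of m).submatrix id τ).det := by
      rw [h1, Finset.mul_sum]
      refine Finset.sum_congr rfl fun σ _ => ?_
      ring
    rw [h2, Matrix.det_permute', ← mul_assoc]
    have h3 : (((Equiv.Perm.sign τ : ℤ) : ℂ)) * ((Equiv.Perm.sign τ : ℤ) : ℂ) = 1 := by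
      rw [← Int.cast_mul, ← Units.val_mul, Int.units_mul_self]
      simp
    rw [h3, one_mul]
  rw [Finset.sum_congr rfl fun τ _ => h τ, Finset.sum_const, Finset.card_univ,
    Fintype.card_perm, Fintype.card_fin, nsmul_eq_mul]

theorem andreief (n : ℕ) (μ : Measure ℂ) [SigmaFinite μ] {F : ℂ → ℂ}
    (hF : Integrable (fun l : ℂ => (((1 + ‖l‖ ^ 2) ^ (n - 1) : ℝ) : ℂ) * F l) μ) :
    Integrable (fun l : Fin n → ℂ => (∏ j, F (l j)) *
      ((∏ i, ∏ j ∈ Ioi i, ‖l j - l i‖ ^ 2 : ℝ) : ℂ)) (Measure.pi fun _ => μ) ∧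
    ∫ l : Fin n → ℂ, (∏ j, F (l j)) * ((∏ i, ∏ j ∈ Ioi i, ‖l j - l i‖ ^ 2 : ℝ) : ℂ)
      ∂(Measure.pi fun _ => μ) =
      (n.factorial : ℂ) * (Matrix.of fun a b : Fin n =>
        ∫ l, F l * l ^ (a : ℕ) * conj l ^ (b : ℕ) ∂μ).det := by
  have hI : ∀ σ τ : Equiv.Perm (Fin n), Integrable (fun l : Fin n → ℂ =>
      ∏ j, (F (l j) * l j ^ ((σ j : Fin n) : ℕ) * conj (l j) ^ ((τ j : Fin n) : ℕ)))
      (Measure.pi fun _ => μ) := fun σ τ =>
    Integrable.fintype_prod (f := fun (j : Fin n) (z : ℂ) =>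
      F z * z ^ ((σ j : Fin n) : ℕ) * conj z ^ ((τ j : Fin n) : ℕ))
      (fun j => andreief_factor hF (σ j) (τ j))
  simp only [andreief_vdm]
  constructor
  · refine integrable_finsetSum _ fun σ _ => integrable_finsetSum _ fun τ _ => ?_
    exact (hI σ τ).const_mul _
  · rw [integral_finsetSum _ fun σ _ => integrable_finsetSum _ fun τ _ => (hI σ τ).const_mul _]
    rw [← andreief_det]
    refine Finset.sum_congr rfl fun σ _ => ?_
    rw [integral_finsetSum _ fun τ _ => (hI σ τ).const_mul _]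
    refine Finset.sum_congr rfl fun τ _ => ?_
    rw [integral_const_mul]
    congr 1
    exact integral_fintype_prod_eq_prod (fun (j : Fin n) (z : ℂ) =>
      F z * z ^ ((σ j : Fin n) : ℕ) * conj z ^ ((τ j : Fin n) : ℕ))

end MPF
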