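import Pool.Agent.MPF.GamQ

/-!
# MPF/BetaRep: `1/lam` is a superposition of exponentials `t^j`, up to `N^{-A}`

PROOF. Identity for `Re s > -1` and all `j ∈ ℕ`:
`Γ(j+1)/Γ(j+1+s) - 1/Γ(1+s) = -s/Γ(1+s) ∫_0^1 (1 - t^j) (1-t)^{s-1} dt ... ` with sign:
`Γ(j+1)/Γ(j+1+s) = 1/Γ(1+s) + (s/Γ(1+s)) ∫_0^1 (t^j - 1)(1-t)^{s-1} dt`.
(The integral converges since `|t^j - 1| ≤ j (1-t)`.) Induction on `j`: the difference of the right
sides for `j+1` and `j` is `-(s/Γ(1+s)) ∫ t^j (1-t)^s dt = -(s/Γ(1+s)) Γ(j+1)Γ(s+1)/Γ(j+s+2)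
= -s Γ(j+1)/Γ(j+2+s)`, and `Γ(j+2)/Γ(j+2+s) - Γ(j+1)/Γ(j+1+s) = Γ(j+1)/Γ(j+2+s) ((j+1) - (j+1+s))`.
Truncate: with `ε = N^{-D}` replace the integral by the one over `(0, 1-ε)`: error at most
`j ∫_{1-ε}^1 (1-t)^{Re s} dt = j ε^{1+Re s}/(1+Re s)`. After the truncation
`∫_0^{1-ε} (t^j - 1)(1-t)^{s-1} = ∫_0^{1-ε} t^j (1-t)^{s-1} dt - const`, `∫_0^{1-ε} (1-t)^{Re s - 1} dt`
is at most `ε^{-2}` (say), polynomial in `N`. Multiply by `Γ(N+2+s)/Γ(N+2)`, which is bounded by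
`C N^{|Re s|}` (`lam_inv_bound` with `j = 0`: `(lam N s 0)⁻¹ = Γ(N+2+s)/(Γ(N+2) Γ(1+s))`). Choose `D` large.
-/

open MeasureTheory Matrix Finset Filter Topology
open scoped ENNReal ComplexConjugate

namespace MPF

/-- the integrand -/
private noncomputable def BetaRep_f (s : ℂ) (j : ℕ) (t : ℝ) : ℂ :=
  ((t : ℂ) ^ j - 1) * (((1 - t : ℝ)) : ℂ) ^ (s - 1)

private lemma BetaRep_pow (j : ℕ) {t : ℝ} (h0 : 0 ≤ t) (h1 : t ≤ 1) :
    |t ^ j - 1| ≤ j * (1 - t) := by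
  have h2 : t ^ j ≤ 1 := pow_le_one₀ h0 h1
  have h3 : 1 + (j : ℝ) * (t - 1) ≤ t ^ j := by
    have := one_add_mul_le_pow (a := t - 1) (by linarith) j
    simpa using this
  rw [abs_of_nonpos (by linarith)]
  nlinarith

private lemma BetaRep_norm_f (s : ℂ) (j : ℕ) {t : ℝ} (h0 : 0 ≤ t) (h1 : t < 1) :
    ‖BetaRep_f s j t‖ ≤ j * (1 - t) ^ s.re := by
  unfold BetaRep_f
  have h2 : (0 : ℝ) < 1 - t := by linarith
  rw [norm_mul, Complex.norm_cpow_eq_rpow_re_of_pos h2]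
  have h3 : ‖(t : ℂ) ^ j - 1‖ = |t ^ j - 1| := by
    rw [← Complex.ofReal_pow, ← Complex.ofReal_one, ← Complex.ofReal_sub, Complex.norm_real,
      Real.norm_eq_abs]
  rw [h3]
  have h4 := BetaRep_pow j h0 h1.le
  have h5 : (1 - t) ^ s.re = (1 - t) * (1 - t) ^ (s - 1).re := by
    have : s.re = 1 + (s - 1).re := by simp
    nth_rewrite 1 [this]
    rw [Real.rpow_add h2, Real.rpow_one]
  rw [h5, ← mul_assoc]
  exact mul_le_mul_of_nonneg_right h4 (Real.rpow_nonneg h2.le _)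

private lemma BetaRep_meas (s : ℂ) : Measurable fun t : ℝ => (((1 - t : ℝ)) : ℂ) ^ (s - 1) := by
  have h1 : Measurable fun t : ℝ => (((1 - t : ℝ)) : ℂ) :=
    Complex.measurable_ofReal.comp (measurable_const.sub measurable_id)
  exact h1.pow_const _

private lemma BetaRep_measf (s : ℂ) (j : ℕ) : Measurable (BetaRep_f s j) := by
  unfold BetaRep_f
  exact ((Complex.measurable_ofReal.pow_const j).sub_const 1).mul (BetaRep_meas s)

private lemma BetaRep_int_rpow {a : ℝ} (ha : -1 < a) :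
    IntegrableOn (fun t : ℝ => (1 - t) ^ a) (Set.Ioo 0 1) := by
  have h1 : IntervalIntegrable (fun t : ℝ => t ^ a) volume 0 1 :=
    intervalIntegral.intervalIntegrable_rpow' ha
  have h2 := h1.comp_sub_left 1
  simp only [sub_zero, sub_self] at h2
  have h3 := h2.symm
  rw [intervalIntegrable_iff_integrableOn_Ioo_of_le zero_le_one] at h3
  exact h3

private lemma BetaRep_intf {s : ℂ} (hs : -1 < s.re) (j : ℕ) :
    IntegrableOn (BetaRep_f s j) (Set.Ioo 0 1) := by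
  have h1 := (BetaRep_int_rpow hs).const_mul (j : ℝ)
  refine Integrable.mono' h1 (BetaRep_measf s j).aestronglyMeasurable ?_
  rw [ae_restrict_iff' measurableSet_Ioo]
  exact Filter.Eventually.of_forall fun t ht => BetaRep_norm_f s j ht.1.le ht.2

private lemma BetaRep_step {s : ℂ} (hs : -1 < s.re) (j : ℕ) :
    (∫ t in Set.Ioo (0 : ℝ) 1, BetaRep_f s (j + 1) t) = (∫ t in Set.Ioo (0 : ℝ) 1, BetaRep_f s j t) -
      Complex.Gamma (j + 1) * Complex.Gamma (s + 1) / Complex.Gamma (j + 1 + (s + 1)) := by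
  have h1 : Complex.Gamma (j + 1) * Complex.Gamma (s + 1) =
      Complex.Gamma (j + 1 + (s + 1)) * Complex.betaIntegral (j + 1) (s + 1) := by
    apply Complex.Gamma_mul_Gamma_eq_betaIntegral
    · simp
      positivity
    · simp
      linarith
  have h2 : Complex.Gamma (j + 1 + (s + 1)) ≠ 0 := by
    apply Complex.Gamma_ne_zero_of_re_pos
    simp
    have : (0 : ℝ) ≤ j := Nat.cast_nonneg j
    linarith
  rw [h1, mul_div_cancel_left₀ _ h2]
  have h3 : Complex.betaIntegral (j + 1) (s + 1) =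
      ∫ t in Set.Ioo (0 : ℝ) 1, (BetaRep_f s j t - BetaRep_f s (j + 1) t) := by
    unfold Complex.betaIntegral
    rw [intervalIntegral.integral_of_le zero_le_one, integral_Ioc_eq_integral_Ioo]
    refine setIntegral_congr_fun measurableSet_Ioo fun t ht => ?_
    have h4 : (((1 - t : ℝ)) : ℂ) ≠ 0 := by
      rw [Ne, Complex.ofReal_eq_zero]
      have := ht.2
      linarith
    show (t : ℂ) ^ ((j : ℂ) + 1 - 1) * (1 - (t : ℂ)) ^ (s + 1 - 1) =
      BetaRep_f s j t - BetaRep_f s (j + 1) t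
    rw [add_sub_cancel_right, add_sub_cancel_right, Complex.cpow_natCast]
    unfold BetaRep_f
    rw [Complex.cpow_sub _ _ h4, Complex.cpow_one]
    push_cast at h4 ⊢
    field_simp
    ring
  rw [h3, integral_sub (BetaRep_intf hs j) (BetaRep_intf hs (j + 1))]
  ring

private lemma BetaRep_id {s : ℂ} (hs : -1 < s.re) (j : ℕ) :
    Complex.Gamma (j + 1) / Complex.Gamma (j + 1 + s) =
      (1 + s * ∫ t in Set.Ioo (0 : ℝ) 1, BetaRep_f s j t) / Complex.Gamma (1 + s) := by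
  have hg : ∀ j : ℕ, Complex.Gamma (j + 1 + s) ≠ 0 := by
    intro j
    apply Complex.Gamma_ne_zero_of_re_pos
    simp
    have : (0 : ℝ) ≤ j := Nat.cast_nonneg j
    linarith
  have hg0 : Complex.Gamma (1 + s) ≠ 0 := by
    have := hg 0
    simpa using this
  induction j with
  | zero =>
    have h1 : (∫ t in Set.Ioo (0 : ℝ) 1, BetaRep_f s 0 t) = 0 := by
      have : ∀ t, BetaRep_f s 0 t = 0 := by
        intro t
        unfold BetaRep_f
        simp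
      simp [this]
    rw [h1]
    simp
  | succ j ih =>
    rw [BetaRep_step hs j]
    have e0 : (j : ℂ) + 1 + (s + 1) = (j + 1 + s) + 1 := by ring
    have hne : (j : ℂ) + 1 + s ≠ 0 := by
      intro h
      have h1 := congrArg Complex.re h
      simp at h1
      have : (0 : ℝ) ≤ j := Nat.cast_nonneg j
      linarith
    have hne1 : (j : ℂ) + 1 ≠ 0 := Nat.cast_add_one_ne_zero j
    have e1 : Complex.Gamma ((j : ℂ) + 1 + (s + 1)) =
        ((j : ℂ) + 1 + s) * Complex.Gamma (j + 1 + s) := by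
      rw [e0, Complex.Gamma_add_one _ hne]
    have e2 : Complex.Gamma (((j + 1 : ℕ) : ℂ) + 1) = ((j : ℂ) + 1) * Complex.Gamma (j + 1) := by
      push_cast
      rw [Complex.Gamma_add_one _ hne1]
    have e3 : Complex.Gamma (((j + 1 : ℕ) : ℂ) + 1 + s) =
        ((j : ℂ) + 1 + s) * Complex.Gamma (j + 1 + s) := by
      rw [← e1]
      congr 1
      push_cast
      ring
    have e4 : Complex.Gamma (s + 1) = Complex.Gamma (1 + s) := by rw [add_comm]
    rw [e1, e2, e3, e4]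
    have h5 := hg j
    rw [div_eq_div_iff h5 hg0] at ih
    rw [div_eq_div_iff (mul_ne_zero hne h5) hg0]
    have e5 : Complex.Gamma (j + 1) * Complex.Gamma (1 + s) /
        (((j : ℂ) + 1 + s) * Complex.Gamma (j + 1 + s)) * (((j : ℂ) + 1 + s) *
          Complex.Gamma (j + 1 + s)) = Complex.Gamma (j + 1) * Complex.Gamma (1 + s) :=
      div_mul_cancel₀ _ (mul_ne_zero hne h5)
    linear_combination ((j : ℂ) + 1 + s) * ih + s * e5

private lemma BetaRep_lam {s : ℂ} (hs : -1 < s.re) (N j : ℕ) :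
    (lam N s j)⁻¹ = (lam N s 0)⁻¹ * (1 + s * ∫ t in Set.Ioo (0 : ℝ) 1, BetaRep_f s j t) := by
  have hg : ∀ j : ℕ, Complex.Gamma (j + 1 + s) ≠ 0 := by
    intro j
    apply Complex.Gamma_ne_zero_of_re_pos
    simp
    have : (0 : ℝ) ≤ j := Nat.cast_nonneg j
    linarith
  have hg0 : Complex.Gamma (1 + s) ≠ 0 := by
    have := hg 0
    simpa using this
  have h1 := BetaRep_id hs j
  have e1 : (lam N s j)⁻¹ = (Complex.Gamma (j + 1) / Complex.Gamma (j + 1 + s)) *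
      (Complex.Gamma (N + 2 + s) / Complex.Gamma (N + 2)) := by
    unfold lam
    rw [inv_div, mul_div_mul_comm]
  have e2 : (lam N s 0)⁻¹ = (1 / Complex.Gamma (1 + s)) *
      (Complex.Gamma (N + 2 + s) / Complex.Gamma (N + 2)) := by
    unfold lam
    rw [inv_div, mul_div_mul_comm]
    simp
  rw [e1, e2, h1]
  ring

private lemma BetaRep_tail {s : ℂ} (hs : -1 < s.re) (j : ℕ) {ε : ℝ} (h0 : 0 < ε) (h1 : ε ≤ 1) :
    ‖∫ t in Set.Ioo (1 - ε) 1, BetaRep_f s j t‖ ≤ j * (ε ^ (s.re + 1) / (s.re + 1)) := by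
  have h2 : ∫ t in Set.Ioo (1 - ε) 1, (j : ℝ) * (1 - t) ^ s.re =
      j * (ε ^ (s.re + 1) / (s.re + 1)) := by
    rw [integral_const_mul]
    congr 1
    rw [← integral_Ioc_eq_integral_Ioo, ← intervalIntegral.integral_of_le (by linarith)]
    have h3 := intervalIntegral.integral_comp_sub_left (a := 1 - ε) (b := 1)
      (fun t : ℝ => t ^ s.re) 1
    rw [h3, sub_self, sub_sub_cancel, integral_rpow (Or.inl hs), Real.zero_rpow (by linarith),
      sub_zero]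
  rw [← h2]
  refine norm_integral_le_of_norm_le ?_ ?_
  · exact IntegrableOn.mono_set ((BetaRep_int_rpow hs).const_mul (j : ℝ))
      (Set.Ioo_subset_Ioo_left (by linarith))
  · rw [ae_restrict_iff' measurableSet_Ioo]
    exact Filter.Eventually.of_forall fun t ht =>
      BetaRep_norm_f s j (by linarith [ht.1]) ht.2

private lemma BetaRep_hbd (s : ℂ) (hs : -1 < s.re) {ε : ℝ} (h0 : 0 < ε) {t : ℝ}
    (ht : t ∈ Set.Ioc 0 (1 - ε)) : ‖(((1 - t : ℝ)) : ℂ) ^ (s - 1)‖ ≤ ε ^ (-2 : ℝ) := by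
  have h2 : (0 : ℝ) < 1 - t := by linarith [ht.2]
  rw [Complex.norm_cpow_eq_rpow_re_of_pos h2]
  have h3 : (1 - t) ^ (s - 1).re ≤ (1 - t) ^ (-2 : ℝ) := by
    refine Real.rpow_le_rpow_of_exponent_ge h2 (by linarith [ht.1]) ?_
    simp
    linarith
  refine h3.trans ?_
  exact Real.rpow_le_rpow_of_nonpos h0 (by linarith [ht.2]) (by norm_num)

theorem beta_rep {s : ℂ} (hs : -1 < s.re) (A : ℝ) : ∃ C B : ℝ, 0 < C ∧ 0 < B ∧
    ∀ N : ℕ, 1 ≤ N → ∃ (c : ℂ) (h : ℝ → ℂ), IntegrableOn h (Set.Ioo 0 1) ∧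
      ‖c‖ + ∫ t in Set.Ioo (0 : ℝ) 1, ‖h t‖ ≤ C * (N : ℝ) ^ B ∧
      ∀ j : ℕ, j ≤ N → ‖(lam N s j)⁻¹ - (c + ∫ t in Set.Ioo (0 : ℝ) 1, h t * (t : ℂ) ^ j)‖ ≤
        C * (N : ℝ) ^ (-A) := by
  obtain ⟨C0, B0, hC0, hB0, hlam⟩ := lam_inv_bound hs
  have hs1 : 0 < s.re + 1 := by linarith
  obtain ⟨D, hD⟩ : ∃ D, D = (|A| + B0 + 1) / (s.re + 1) := ⟨_, rfl⟩
  have hD0 : 0 < D := by rw [hD]; positivity
  refine ⟨C0 * (1 + 2 * ‖s‖) + C0 * ‖s‖ / (s.re + 1), B0 + 2 * D, by positivity, by positivity,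
    ?_⟩
  intro N hN
  have hN1 : (1 : ℝ) ≤ N := by exact_mod_cast hN
  have hN0 : (0 : ℝ) < N := by linarith
  obtain ⟨ε, hε⟩ : ∃ ε, ε = (N : ℝ) ^ (-D) := ⟨_, rfl⟩
  have hε0 : 0 < ε := by rw [hε]; exact Real.rpow_pos_of_pos hN0 _
  have hε1 : ε ≤ 1 := by rw [hε]; exact Real.rpow_le_one_of_one_le_of_nonpos hN1 (by linarith)
  have hε2 : ε ^ (-2 : ℝ) = (N : ℝ) ^ (2 * D) := by
    rw [hε, ← Real.rpow_mul hN0.le]
    congr 1
    ring
  obtain ⟨R, hR⟩ : ∃ R, R = (lam N s 0)⁻¹ := ⟨_, rfl⟩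
  have hRb : ‖R‖ ≤ C0 * (N : ℝ) ^ B0 := by rw [hR]; exact hlam N hN 0 (Nat.zero_le N)
  obtain ⟨q, hq⟩ : ∃ q : ℝ → ℂ, q = fun t : ℝ => (((1 - t : ℝ)) : ℂ) ^ (s - 1) := ⟨_, rfl⟩
  have hqm : Measurable q := by rw [hq]; exact BetaRep_meas s
  have hqb : ∀ t ∈ Set.Ioc 0 (1 - ε), ‖q t‖ ≤ ε ^ (-2 : ℝ) := by
    intro t ht
    rw [hq]
    exact BetaRep_hbd s hs hε0 ht
  have hvol : volume (Set.Ioc (0 : ℝ) (1 - ε)) < ⊤ := by
    rw [Real.volume_Ioc]
    exact ENNReal.ofReal_lt_top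
  have hqi : IntegrableOn q (Set.Ioc 0 (1 - ε)) := by
    refine Measure.integrableOn_of_bounded (M := ε ^ (-2 : ℝ)) hvol.ne
      hqm.aestronglyMeasurable ?_
    rw [ae_restrict_iff' measurableSet_Ioc]
    exact Filter.Eventually.of_forall hqb
  have hqn : ∫ t in Set.Ioc 0 (1 - ε), ‖q t‖ ≤ ε ^ (-2 : ℝ) := by
    have h1 : ∫ t in Set.Ioc 0 (1 - ε), ‖q t‖ ≤ ∫ t in Set.Ioc 0 (1 - ε), ε ^ (-2 : ℝ) := by
      refine setIntegral_mono_on hqi.norm ?_ measurableSet_Ioc hqb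
      exact integrableOn_const hvol.ne
    refine h1.trans ?_
    rw [setIntegral_const, smul_eq_mul]
    have h2 : volume.real (Set.Ioc (0 : ℝ) (1 - ε)) ≤ 1 := by
      rw [Measure.real, Real.volume_Ioc, ENNReal.toReal_ofReal (by linarith)]
      linarith
    have h3 : 0 ≤ ε ^ (-2 : ℝ) := Real.rpow_nonneg hε0.le _
    nlinarith
  have hsub : Set.Ioc 0 (1 - ε) ⊆ Set.Ioo (0 : ℝ) 1 := fun t ht =>
    ⟨ht.1, by linarith [ht.2]⟩
  -- integrals against the indicator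
  have hind : ∀ f : ℝ → ℂ, ∫ t in Set.Ioo (0 : ℝ) 1, (Set.Ioc 0 (1 - ε)).indicator f t =
      ∫ t in Set.Ioc 0 (1 - ε), f t := by
    intro f
    rw [setIntegral_indicator measurableSet_Ioc, Set.inter_eq_right.2 hsub]
  refine ⟨R * (1 - s * ∫ t in Set.Ioc 0 (1 - ε), q t),
    (Set.Ioc 0 (1 - ε)).indicator (fun t => R * s * q t), ?_, ?_, ?_⟩
  · refine (integrable_indicator_iff measurableSet_Ioc).2 ?_ |>.integrableOn
    exact hqi.const_mul _
  · have h1 : ∫ t in Set.Ioo (0 : ℝ) 1, ‖(Set.Ioc 0 (1 - ε)).indicator (fun t => R * s * q t) t‖ =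
        ‖R‖ * ‖s‖ * ∫ t in Set.Ioc 0 (1 - ε), ‖q t‖ := by
      have h2 : (fun t => ‖(Set.Ioc 0 (1 - ε)).indicator (fun t => R * s * q t) t‖) =
          (Set.Ioc 0 (1 - ε)).indicator (fun t => ‖R‖ * ‖s‖ * ‖q t‖) := by
        funext t
        by_cases ht : t ∈ Set.Ioc 0 (1 - ε)
        · rw [Set.indicator_of_mem ht, Set.indicator_of_mem ht, norm_mul, norm_mul]
        · rw [Set.indicator_of_notMem ht, Set.indicator_of_notMem ht, norm_zero]
      rw [h2, setIntegral_indicator measurableSet_Ioc, Set.inter_eq_right.2 hsub,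
        integral_const_mul]
    rw [h1]
    have h3 : ‖R * (1 - s * ∫ t in Set.Ioc 0 (1 - ε), q t)‖ ≤
        ‖R‖ * (1 + ‖s‖ * ε ^ (-2 : ℝ)) := by
      rw [norm_mul]
      refine mul_le_mul_of_nonneg_left ?_ (norm_nonneg _)
      refine (norm_sub_le _ _).trans ?_
      rw [norm_one, norm_mul]
      refine add_le_add le_rfl (mul_le_mul_of_nonneg_left ?_ (norm_nonneg _))
      exact (norm_integral_le_integral_norm _).trans hqn
    have h4 : ‖R‖ * ‖s‖ * ∫ t in Set.Ioc 0 (1 - ε), ‖q t‖ ≤ ‖R‖ * ‖s‖ * ε ^ (-2 : ℝ) :=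
      mul_le_mul_of_nonneg_left hqn (by positivity)
    have h5 : (1 : ℝ) ≤ (N : ℝ) ^ (2 * D) := Real.one_le_rpow hN1 (by positivity)
    have h6 : ‖R * (1 - s * ∫ t in Set.Ioc 0 (1 - ε), q t)‖ +
        ‖R‖ * ‖s‖ * ∫ t in Set.Ioc 0 (1 - ε), ‖q t‖ ≤
        ‖R‖ * ((1 + 2 * ‖s‖) * (N : ℝ) ^ (2 * D)) := by
      rw [hε2] at h3 h4
      have h7 : 0 ≤ ‖R‖ := norm_nonneg _
      have h8 : 0 ≤ ‖s‖ := norm_nonneg _
      nlinarith [mul_nonneg h7 (sub_nonneg.2 h5)]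
    refine h6.trans ?_
    have h7 : ‖R‖ * ((1 + 2 * ‖s‖) * (N : ℝ) ^ (2 * D)) ≤
        C0 * (N : ℝ) ^ B0 * ((1 + 2 * ‖s‖) * (N : ℝ) ^ (2 * D)) :=
      mul_le_mul_of_nonneg_right hRb (by positivity)
    refine h7.trans ?_
    have h8 : C0 * (N : ℝ) ^ B0 * ((1 + 2 * ‖s‖) * (N : ℝ) ^ (2 * D)) =
        C0 * (1 + 2 * ‖s‖) * (N : ℝ) ^ (B0 + 2 * D) := by
      rw [Real.rpow_add hN0]
      ring
    rw [h8]
    refine mul_le_mul_of_nonneg_right ?_ (by positivity)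
    have : 0 ≤ C0 * ‖s‖ / (s.re + 1) := by positivity
    linarith
  · intro j hj
    have hjN : (j : ℝ) ≤ N := by exact_mod_cast hj
    have h1 : ∫ t in Set.Ioo (0 : ℝ) 1,
        (Set.Ioc 0 (1 - ε)).indicator (fun t => R * s * q t) t * (t : ℂ) ^ j =
        R * s * ∫ t in Set.Ioc 0 (1 - ε), q t * (t : ℂ) ^ j := by
      have h2 : (fun t : ℝ => (Set.Ioc 0 (1 - ε)).indicator (fun t => R * s * q t) t *
          (t : ℂ) ^ j) = (Set.Ioc 0 (1 - ε)).indicator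
            (fun t : ℝ => R * s * (q t * (t : ℂ) ^ j)) := by
        funext t
        by_cases ht : t ∈ Set.Ioc 0 (1 - ε)
        · rw [Set.indicator_of_mem ht, Set.indicator_of_mem ht]
          ring
        · rw [Set.indicator_of_notMem ht, Set.indicator_of_notMem ht, zero_mul]
      rw [h2, hind, integral_const_mul]
    have hfi := BetaRep_intf hs j
    have h3 : ∫ t in Set.Ioo (0 : ℝ) 1, BetaRep_f s j t =
        (∫ t in Set.Ioc 0 (1 - ε), BetaRep_f s j t) +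
          ∫ t in Set.Ioo (1 - ε) 1, BetaRep_f s j t := by
      have hun : Set.Ioo (0 : ℝ) 1 = Set.Ioc 0 (1 - ε) ∪ Set.Ioo (1 - ε) 1 := by
        rw [Set.Ioc_union_Ioo_eq_Ioo (by linarith) (by linarith)]
      rw [hun]
      refine setIntegral_union ?_ measurableSet_Ioo ?_ ?_
      · rw [Set.disjoint_left]
        intro t ht ht'
        exact absurd ht'.1 (not_lt.2 ht.2)
      · exact hfi.mono_set hsub
      · exact hfi.mono_set (Set.Ioo_subset_Ioo_left (by linarith))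
    have hji : IntegrableOn (fun t : ℝ => q t * (t : ℂ) ^ j) (Set.Ioc 0 (1 - ε)) := by
      have h5 : (fun t : ℝ => q t * (t : ℂ) ^ j) = fun t => BetaRep_f s j t + q t := by
        funext t
        unfold BetaRep_f
        rw [hq]
        ring
      rw [h5]
      exact (hfi.mono_set hsub).add hqi
    have h4 : ∫ t in Set.Ioc 0 (1 - ε), BetaRep_f s j t =
        (∫ t in Set.Ioc 0 (1 - ε), q t * (t : ℂ) ^ j) - ∫ t in Set.Ioc 0 (1 - ε), q t := by
      rw [← integral_sub hji hqi]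
      refine setIntegral_congr_fun measurableSet_Ioc fun t _ => ?_
      show BetaRep_f s j t = q t * (t : ℂ) ^ j - q t
      unfold BetaRep_f
      rw [hq]
      ring
    rw [h1, BetaRep_lam hs N j, ← hR, h3, h4]
    have e1 : R * (1 + s * ((∫ t in Set.Ioc 0 (1 - ε), q t * (t : ℂ) ^ j) -
        (∫ t in Set.Ioc 0 (1 - ε), q t) + ∫ t in Set.Ioo (1 - ε) 1, BetaRep_f s j t)) -
        (R * (1 - s * ∫ t in Set.Ioc 0 (1 - ε), q t) +
          R * s * ∫ t in Set.Ioc 0 (1 - ε), q t * (t : ℂ) ^ j) =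
        R * s * ∫ t in Set.Ioo (1 - ε) 1, BetaRep_f s j t := by ring
    rw [e1, norm_mul, norm_mul]
    have h5 := BetaRep_tail hs j hε0 hε1
    have h6 : ε ^ (s.re + 1) = (N : ℝ) ^ (-(|A| + B0 + 1)) := by
      rw [hε, ← Real.rpow_mul hN0.le, hD]
      congr 1
      field_simp
    have h7 : (j : ℝ) * (ε ^ (s.re + 1) / (s.re + 1)) ≤
        (N : ℝ) * ((N : ℝ) ^ (-(|A| + B0 + 1)) / (s.re + 1)) := by
      rw [h6]
      exact mul_le_mul_of_nonneg_right hjN (by positivity)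
    calc ‖R‖ * ‖s‖ * ‖∫ t in Set.Ioo (1 - ε) 1, BetaRep_f s j t‖
        ≤ (C0 * (N : ℝ) ^ B0) * ‖s‖ * ((N : ℝ) * ((N : ℝ) ^ (-(|A| + B0 + 1)) / (s.re + 1))) := by
          refine mul_le_mul ?_ (h5.trans h7) (norm_nonneg _) (by positivity)
          exact mul_le_mul_of_nonneg_right hRb (norm_nonneg _)
      _ = C0 * ‖s‖ / (s.re + 1) * ((N : ℝ) ^ B0 * (N : ℝ) ^ (1 : ℝ) *
            (N : ℝ) ^ (-(|A| + B0 + 1))) := by
          rw [Real.rpow_one]
          ring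
      _ = C0 * ‖s‖ / (s.re + 1) * (N : ℝ) ^ (-|A|) := by
          rw [← Real.rpow_add hN0, ← Real.rpow_add hN0]
          congr 2
          ring
      _ ≤ (C0 * (1 + 2 * ‖s‖) + C0 * ‖s‖ / (s.re + 1)) * (N : ℝ) ^ (-A) := by
          refine mul_le_mul ?_ ?_ (by positivity) (by positivity)
          · have : 0 ≤ C0 * (1 + 2 * ‖s‖) := by positivity
            linarith
          · exact Real.rpow_le_rpow_of_exponent_le hN1 (neg_le_neg (le_abs_self A))

end MPF
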