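import Pool.Agent.MPF.Vec

/-!
# MPF/Coh: coherent vectors and symmetric powers

PROOF. `sym_mulVec_coh`: the `i`-th coordinate of `coh N (A z)` is
`√C(N,i) (A₀₀ z₀ + A₀₁ z₁)^i (A₁₀ z₀ + A₁₁ z₁)^(N-i)`; the polynomial
`q = (A₀₀ X + A₀₁)^i (A₁₀ X + A₁₁)^(N-i)` has degree `≤ N`, so (homogenise; first `z₁ ≠ 0`, put
`X = z₀/z₁`, multiply by `z₁^N`; for `z₁ = 0` use continuity, or work with the homogenisation
directly) this is `√C(N,i) ∑_j q.coeff j z₀^j z₁^(N-j) = ∑_j sym_ij coh_j`.
`coh_total`: take `z = (x, 1)`: a polynomial in `x` that vanishes identically has zero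
coefficients, and `√C(N,j) ≠ 0`. Hence `matrix_ext_coh`, `sym_mul`, `sym_one`, `sym_diagonal`
(compare the values on all coherent vectors).
`hp_coh`: binomial theorem, `√C √C = C`. `sym_conjTranspose`: the numbers
`hp (coh w) ((sym A)ᴴ coh z) = hp (sym A coh w) (coh z) = hp (A w) z ^ N = hp w (Aᴴ z)^N
= hp (coh w) (sym Aᴴ coh z)` for all `w`, then `coh_total` twice.
-/

open MeasureTheory Matrix Finset Filter Topology
open scoped ENNReal ComplexConjugate

namespace MPF

open Polynomial in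
lemma Coh_hom (N i : ℕ) (hi : i ≤ N) (a b c d x y : ℂ) :
    ∑ j ∈ Finset.range (N + 1), ((Polynomial.C a * Polynomial.X + Polynomial.C b) ^ i *
      (Polynomial.C c * Polynomial.X + Polynomial.C d) ^ (N - i)).coeff j * (x ^ j * y ^ (N - j)) =
      (a * x + b * y) ^ i * (c * x + d * y) ^ (N - i) := by
  have hd : ∀ (u v : ℂ) (k : ℕ), ((Polynomial.C u * Polynomial.X + Polynomial.C v) ^ k).natDegree
      ≤ k := by
    intro u v k
    have h1 : (Polynomial.C u * Polynomial.X + Polynomial.C v).natDegree ≤ 1 :=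
      Polynomial.natDegree_linear_le
    calc _ ≤ k * (Polynomial.C u * Polynomial.X + Polynomial.C v).natDegree :=
          Polynomial.natDegree_pow_le
      _ ≤ k * 1 := Nat.mul_le_mul_left _ h1
      _ = k := mul_one k
  have hdeg : ((Polynomial.C a * Polynomial.X + Polynomial.C b) ^ i *
      (Polynomial.C c * Polynomial.X + Polynomial.C d) ^ (N - i)).natDegree ≤ N := by
    refine (Polynomial.natDegree_mul_le).trans ?_
    have h1 := hd a b i
    have h2 := hd c d (N - i)
    omega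
  by_cases hy : y = 0
  · subst hy
    rw [Finset.sum_range_succ, Finset.sum_eq_zero]
    · have h1 : ((Polynomial.C a * Polynomial.X + Polynomial.C b) ^ i *
          (Polynomial.C c * Polynomial.X + Polynomial.C d) ^ (N - i)).coeff N =
          a ^ i * c ^ (N - i) := by
        have hN : N = i + (N - i) := by omega
        conv_lhs => rw [hN]
        have e1 : i + (N - i) - i = N - i := by omega
        rw [e1]
        rw [Polynomial.coeff_mul_add_eq_of_natDegree_le (hd a b i) (hd c d (N - i))]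
        have hc : ∀ (u v : ℂ) (k : ℕ),
            ((Polynomial.C u * Polynomial.X + Polynomial.C v) ^ k).coeff k = u ^ k := by
          intro u v k
          have h2 := Polynomial.coeff_pow_of_natDegree_le
            (p := Polynomial.C u * Polynomial.X + Polynomial.C v) (n := 1)
            Polynomial.natDegree_linear_le (m := k)
          rw [mul_one] at h2
          rw [h2]
          simp
        rw [hc, hc]
      rw [h1]
      simp only [mul_zero, add_zero, Nat.sub_self, pow_zero, mul_one]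
      rw [mul_pow, mul_pow]
      have hN : x ^ N = x ^ i * x ^ (N - i) := by
        rw [← pow_add]; congr 1; omega
      rw [hN]; ring
    · intro j hj
      have hj' : j < N := Finset.mem_range.mp hj
      rw [zero_pow (by omega)]
      simp
  · have h1 := Polynomial.eval_eq_sum_range' (p := (Polynomial.C a * Polynomial.X +
      Polynomial.C b) ^ i * (Polynomial.C c * Polynomial.X + Polynomial.C d) ^ (N - i))
      (n := N + 1) (Nat.lt_succ_of_le hdeg) (x / y)
    have h2 : ∑ j ∈ Finset.range (N + 1), ((Polynomial.C a * Polynomial.X + Polynomial.C b) ^ i *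
      (Polynomial.C c * Polynomial.X + Polynomial.C d) ^ (N - i)).coeff j *
        (x ^ j * y ^ (N - j)) = y ^ N * ((Polynomial.C a * Polynomial.X +
      Polynomial.C b) ^ i * (Polynomial.C c * Polynomial.X + Polynomial.C d) ^
        (N - i)).eval (x / y) := by
      rw [h1, Finset.mul_sum]
      refine Finset.sum_congr rfl fun j hj => ?_
      have hj' : j ≤ N := Nat.lt_succ_iff.mp (Finset.mem_range.mp hj)
      have hN : y ^ N = y ^ j * y ^ (N - j) := by
        rw [← pow_add]; congr 1; omega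
      rw [hN, div_pow]
      have hyj : y ^ j ≠ 0 := pow_ne_zero _ hy
      field_simp
    rw [h2]
    simp only [Polynomial.eval_mul, Polynomial.eval_pow, Polynomial.eval_add, Polynomial.eval_C,
      Polynomial.eval_X]
    have hN : y ^ N = y ^ i * y ^ (N - i) := by
      rw [← pow_add]; congr 1; omega
    rw [hN]
    have e1 : a * x + b * y = y * (a * (x / y) + b) := by field_simp
    have e2 : c * x + d * y = y * (c * (x / y) + d) := by field_simp
    rw [e1, e2, mul_pow, mul_pow]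
    ring

lemma Coh_sqrt_ne (N : ℕ) (j : Fin (N + 1)) : ((Real.sqrt (N.choose j) : ℝ) : ℂ) ≠ 0 := by
  have h : 0 < N.choose j := Nat.choose_pos (Nat.lt_succ_iff.mp j.2)
  have h2 : (0 : ℝ) < N.choose j := by exact_mod_cast h
  exact_mod_cast (Real.sqrt_pos.mpr h2).ne'

lemma continuous_coh (N : ℕ) : Continuous (coh N) := by
  unfold coh
  fun_prop

lemma coh_smul (N : ℕ) (c : ℂ) (z : Fin 2 → ℂ) : coh N (c • z) = c ^ N • coh N z := by
  funext j
  simp only [coh, Pi.smul_apply, smul_eq_mul]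
  have hj : (j : ℕ) ≤ N := Nat.lt_succ_iff.mp j.2
  have hN : c ^ N = c ^ (j : ℕ) * c ^ (N - (j : ℕ)) := by
    rw [← pow_add]; congr 1; omega
  rw [hN, mul_pow, mul_pow]; ring

theorem sym_mulVec_coh (N : ℕ) (A : Matrix (Fin 2) (Fin 2) ℂ) (z : Fin 2 → ℂ) :
    sym N A *ᵥ coh N z = coh N (A *ᵥ z) := by
  funext i
  have hi : (i : ℕ) ≤ N := Nat.lt_succ_iff.mp i.2
  have h := Coh_hom N i hi (A 0 0) (A 0 1) (A 1 0) (A 1 1) (z 0) (z 1)
  rw [Finset.sum_range] at h
  have hA0 : (A *ᵥ z) 0 = A 0 0 * z 0 + A 0 1 * z 1 := by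
    simp [Matrix.mulVec, dotProduct, Fin.sum_univ_two]
  have hA1 : (A *ᵥ z) 1 = A 1 0 * z 0 + A 1 1 * z 1 := by
    simp [Matrix.mulVec, dotProduct, Fin.sum_univ_two]
  simp only [coh]
  rw [hA0, hA1, mul_assoc, ← h, Finset.mul_sum]
  simp only [Matrix.mulVec, dotProduct, sym, Matrix.of_apply]
  refine Finset.sum_congr rfl fun j _ => ?_
  have hj := Coh_sqrt_ne N j
  have hcj : coh N z j =
      ((Real.sqrt (N.choose j) : ℝ) : ℂ) * z 0 ^ (j : ℕ) * z 1 ^ (N - (j : ℕ)) := rfl
  rw [hcj]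
  push_cast
  field_simp

theorem coh_total (N : ℕ) (c : Fin (N + 1) → ℂ) (h : ∀ z, ∑ j, c j * coh N z j = 0) : c = 0 := by
  set p : Polynomial ℂ := ∑ j : Fin (N + 1),
    Polynomial.monomial (j : ℕ) (c j * ((Real.sqrt (N.choose j) : ℝ) : ℂ)) with hp
  have hp0 : p = 0 := by
    apply Polynomial.funext
    intro x
    have h1 := h ![x, 1]
    rw [hp, Polynomial.eval_finsetSum, Polynomial.eval_zero, ← h1]
    refine Finset.sum_congr rfl fun j _ => ?_
    simp [coh, Polynomial.eval_monomial]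
    ring
  funext j
  have h2 : p.coeff j = c j * ((Real.sqrt (N.choose j) : ℝ) : ℂ) := by
    rw [hp, Polynomial.finsetSum_coeff]
    rw [Finset.sum_eq_single j]
    · simp [Polynomial.coeff_monomial]
    · intro k _ hk
      rw [Polynomial.coeff_monomial, if_neg]
      exact fun hkj => hk (Fin.ext hkj)
    · intro hj; exact absurd (Finset.mem_univ _) hj
  rw [hp0, Polynomial.coeff_zero] at h2
  exact (mul_eq_zero.mp h2.symm).resolve_right (Coh_sqrt_ne N j)

theorem matrix_ext_coh {N : ℕ} {κ : Type*} [Fintype κ] {A B : Matrix κ (Fin (N + 1)) ℂ}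
    (h : ∀ z, A *ᵥ coh N z = B *ᵥ coh N z) : A = B := by
  ext k j
  have h1 : (fun j => A k j - B k j) = 0 := by
    apply coh_total N
    intro z
    have h2 := congrFun (h z) k
    simp only [Matrix.mulVec, dotProduct] at h2
    simp only [sub_mul, Finset.sum_sub_distrib]
    rw [h2, sub_self]
  have h3 := congrFun h1 j
  simpa [sub_eq_zero] using h3

theorem sym_one (N : ℕ) : sym N 1 = 1 := by
  apply matrix_ext_coh
  intro z
  rw [sym_mulVec_coh, Matrix.one_mulVec, Matrix.one_mulVec]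

theorem sym_mul (N : ℕ) (A B : Matrix (Fin 2) (Fin 2) ℂ) : sym N (A * B) = sym N A * sym N B := by
  apply matrix_ext_coh
  intro z
  rw [← Matrix.mulVec_mulVec, sym_mulVec_coh, sym_mulVec_coh, sym_mulVec_coh,
    Matrix.mulVec_mulVec]

theorem hp_coh (N : ℕ) (z w : Fin 2 → ℂ) : hp (coh N z) (coh N w) = hp z w ^ N := by
  simp only [hp, Fin.sum_univ_two, coh]
  rw [add_pow, Finset.sum_range]
  refine Finset.sum_congr rfl fun j _ => ?_
  have h1 : ((Real.sqrt (N.choose j) : ℝ) : ℂ) * ((Real.sqrt (N.choose j) : ℝ) : ℂ) =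
      (N.choose j : ℂ) := by
    rw [← Complex.ofReal_mul, Real.mul_self_sqrt (Nat.cast_nonneg _)]
    simp
  simp only [map_mul, map_pow, Complex.conj_ofReal]
  rw [← h1, mul_pow, mul_pow]
  ring

theorem nr_coh (N : ℕ) (z : Fin 2 → ℂ) : nr (coh N z) = nr z ^ N := by
  have h1 := hp_coh N z z
  rw [hp_self, hp_self, ← nr_sq, ← nr_sq] at h1
  have h2 : nr (coh N z) ^ 2 = (nr z ^ N) ^ 2 := by
    rw [← pow_mul, mul_comm N 2, pow_mul]
    exact_mod_cast h1
  exact (pow_left_inj₀ (nr_nonneg _) (pow_nonneg (nr_nonneg _) _) two_ne_zero).mp h2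

theorem sym_conjTranspose (N : ℕ) (A : Matrix (Fin 2) (Fin 2) ℂ) :
    (sym N A)ᴴ = sym N Aᴴ := by
  apply matrix_ext_coh
  intro z
  have key : ∀ w, hp (coh N w) ((sym N A)ᴴ *ᵥ coh N z) = hp (coh N w) (sym N Aᴴ *ᵥ coh N z) := by
    intro w
    rw [hp_mulVec, Matrix.conjTranspose_conjTranspose, sym_mulVec_coh, sym_mulVec_coh, hp_coh,
      hp_coh, hp_mulVec Aᴴ w z, Matrix.conjTranspose_conjTranspose]
  have h0 : (fun j => conj (((sym N A)ᴴ *ᵥ coh N z) j - (sym N Aᴴ *ᵥ coh N z) j)) = 0 := by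
    apply coh_total N
    intro w
    have h1 := key w
    simp only [hp] at h1
    have h2 : ∑ j, conj (coh N w j) * (((sym N A)ᴴ *ᵥ coh N z) j - (sym N Aᴴ *ᵥ coh N z) j) = 0 := by
      simp only [mul_sub, Finset.sum_sub_distrib]
      rw [h1, sub_self]
    have h3 := congrArg (starRingEnd ℂ) h2
    rw [map_sum, map_zero] at h3
    rw [← h3]
    refine Finset.sum_congr rfl fun j _ => ?_
    rw [map_mul, Complex.conj_conj, mul_comm]
  funext j
  have h4 := congrFun h0 j
  simp only [Pi.zero_apply, map_eq_zero] at h4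
  exact sub_eq_zero.mp h4

theorem sym_diagonal (N : ℕ) (a b : ℂ) : sym N (Matrix.diagonal ![a, b]) =
    Matrix.diagonal fun j : Fin (N + 1) => a ^ (j : ℕ) * b ^ (N - (j : ℕ)) := by
  apply matrix_ext_coh
  intro z
  rw [sym_mulVec_coh]
  funext j
  rw [Matrix.mulVec_diagonal]
  simp only [coh, Matrix.mulVec_diagonal, Matrix.cons_val_zero, Matrix.cons_val_one]
  rw [mul_pow, mul_pow]; ring

lemma Coh_unit {m : Fin 2 → ℂ} (hm : nr m = 1) : conj (m 0) * m 0 + conj (m 1) * m 1 = 1 := by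
  have h1 := hp_self m
  rw [← nr_sq, hm] at h1
  simpa [hp, Fin.sum_univ_two] using h1

theorem gm_conj_mul {m : Fin 2 → ℂ} (hm : nr m = 1) : (gm m)ᴴ * gm m = 1 := by
  have h := Coh_unit hm
  ext i j
  fin_cases i <;> fin_cases j
  · simp [gm, Matrix.mul_apply, Fin.sum_univ_two, Matrix.conjTranspose_apply]
    linear_combination h
  · simp [gm, Matrix.mul_apply, Fin.sum_univ_two, Matrix.conjTranspose_apply]
    ring
  · simp [gm, Matrix.mul_apply, Fin.sum_univ_two, Matrix.conjTranspose_apply]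
    ring
  · simp [gm, Matrix.mul_apply, Fin.sum_univ_two, Matrix.conjTranspose_apply]
    linear_combination h

theorem gm_mul_conj {m : Fin 2 → ℂ} (hm : nr m = 1) : gm m * (gm m)ᴴ = 1 :=
  mul_eq_one_comm.mp (gm_conj_mul hm)

theorem gm_conj_mulVec_zero (m z : Fin 2 → ℂ) : ((gm m)ᴴ *ᵥ z) 0 = hp m z := by
  simp [gm, Matrix.mulVec, dotProduct, Fin.sum_univ_two, Matrix.conjTranspose_apply, hp]

/-- `g diag(t,1) g^* = 1 + (t-1) m m^*`, applied to a vector. -/
theorem gm_diag_mulVec {m : Fin 2 → ℂ} (hm : nr m = 1) (t : ℂ) (z : Fin 2 → ℂ) :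
    (gm m * Matrix.diagonal ![t, 1] * (gm m)ᴴ) *ᵥ z = z + ((t - 1) * hp m z) • m := by
  have h := Coh_unit hm
  have e0 : ((gm m)ᴴ *ᵥ z) 0 = conj (m 0) * z 0 + conj (m 1) * z 1 := by
    simp [gm, Matrix.mulVec, dotProduct, Fin.sum_univ_two, Matrix.conjTranspose_apply]
  have e1 : ((gm m)ᴴ *ᵥ z) 1 = -(m 1) * z 0 + m 0 * z 1 := by
    simp [gm, Matrix.mulVec, dotProduct, Fin.sum_univ_two, Matrix.conjTranspose_apply]
  have d0 : (Matrix.diagonal ![t, 1] *ᵥ ((gm m)ᴴ *ᵥ z)) 0 =
      t * (conj (m 0) * z 0 + conj (m 1) * z 1) := by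
    rw [Matrix.mulVec_diagonal, e0]; simp
  have d1 : (Matrix.diagonal ![t, 1] *ᵥ ((gm m)ᴴ *ᵥ z)) 1 = -(m 1) * z 0 + m 0 * z 1 := by
    rw [Matrix.mulVec_diagonal, e1]; simp
  have hh : hp m z = conj (m 0) * z 0 + conj (m 1) * z 1 := by simp [hp, Fin.sum_univ_two]
  rw [← Matrix.mulVec_mulVec, ← Matrix.mulVec_mulVec]
  generalize Matrix.diagonal ![t, 1] *ᵥ ((gm m)ᴴ *ᵥ z) = y at d0 d1
  have g0 : (gm m *ᵥ y) 0 = m 0 * y 0 - conj (m 1) * y 1 := by
    simp [gm, Matrix.mulVec, dotProduct, Fin.sum_univ_two]; ring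
  have g1 : (gm m *ᵥ y) 1 = m 1 * y 0 + conj (m 0) * y 1 := by
    simp [gm, Matrix.mulVec, dotProduct, Fin.sum_univ_two]
  have G0 : (gm m *ᵥ y) 0 = z 0 + ((t - 1) * hp m z) * m 0 := by
    rw [g0, d0, d1, hh]; linear_combination (z 0) * h
  have G1 : (gm m *ᵥ y) 1 = z 1 + ((t - 1) * hp m z) * m 1 := by
    rw [g1, d0, d1, hh]; linear_combination (z 1) * h
  funext i
  fin_cases i
  · exact G0
  · exact G1

end MPF
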