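import Pool.Agent.MPF.Defs

/-!
# MPF/Cover: the `n`-to-one change of variables of a rational function on `ℂ`

PROOF. `R = p/q`, `p`, `q` coprime, `deg q < deg p = n` (so `R` has degree `n` and `R(∞) = ∞`).
Let `W = p' q - p q'` (not the zero polynomial: its leading coefficient is
`(deg p - deg q)` times the product of the leading coefficients), `U = {l | q l ≠ 0, W l ≠ 0}`: cofinite, `R` is holomorphic on
`U` with `R' = W/q² ≠ 0`. The real Jacobian determinant of `R` is `|R'|²`. Locally injective (inverse function theorem: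
`HasStrictDerivAt.toOpenPartialHomeomorph` or `HasStrictFDerivAt`); by Lindelöf cover `U` by countably many open sets on which `R` is
injective, make them disjoint (measurable pieces `U_k`); on each
`∫_{U_k} φ(R) |R'|² = ∫_{R(U_k)} φ` (`MeasureTheory.lintegral_image_eq_lintegral_abs_det_fderiv_mul`). Sum:
`∫ φ(R)|R'|² = ∫ φ(a) #(R^{-1}(a) ∩ U) da`. For `a` outside the finite set `R({W = 0})` the polynomial
`p - a q` has degree `n`, its roots are not roots of `q` (coprime), and they are simple: at a root `l`,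
`W(l) = (p' - a q')(l) q(l) ≠ 0`. So `#(R^{-1}(a) ∩ U) = n` for almost every `a`.
`cover_generic`: for `M` with the property `hM : ∀ l, (l•1 - M).det = 0 → (l•1 - M).adjugate ≠ 0`
and `w, b` with `w ⬝ adj(l - M) b ≠ 0` for all eigenvalues `l` of `M`: `q = charpoly M`,
`p = X q - ∑ w_i (adj (X - M))_ij b_j` has degree `n+1`, coprime to `q`. The set of bad `(w,b)` is null for such `M`
(finitely many `l`; zero set of a non-zero bilinear form: for fixed `w` with `w adj ≠ 0` a proper linear hyperplane in `b`).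
Almost every `M` has `n` distinct eigenvalues (then `adj(l-M) ≠ 0` for each eigenvalue `l`, rank `n-1`): for fixed `M` the
discriminant of `charpoly (M + t diag(0,1,..,n-1))` is a non-zero polynomial in `t`
(consider `charpoly (M/t + diag)`, `t → ∞`), so it vanishes for finitely many `t` only; Fubini and translation invariance.
-/

open MeasureTheory Matrix Finset Filter Topology
open scoped ENNReal ComplexConjugate

namespace MPF

/-- The absolute value of the real determinant of the multiplication by a complex number. -/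
theorem cover_det_smul (c : ℂ) :
    ((ContinuousLinearMap.restrictScalars ℝ
      (ContinuousLinearMap.toSpanSingleton ℂ c)).det) = ‖c‖ ^ 2 := by
  have h1 : (ContinuousLinearMap.restrictScalars ℝ
      (ContinuousLinearMap.toSpanSingleton ℂ c)).det = Algebra.norm ℝ c := by
    rw [Algebra.norm_apply, ContinuousLinearMap.det]
    congr 1
    ext z
    simp [mul_comm]
  rw [h1, Algebra.norm_complex_apply, Complex.normSq_eq_norm_sq]

theorem cover_rational_aux (p q : Polynomial ℂ) (hq : q ≠ 0) (hdeg : q.natDegree < p.natDegree) :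
    p.derivative * q - p * q.derivative ≠ 0 := by
  intro h0
  have hp : p ≠ 0 := by
    rintro rfl
    simp at hdeg
  have h1 : (p.derivative * q - p * q.derivative).coeff (p.natDegree - 1 + q.natDegree) =
      ((p.natDegree : ℂ) - q.natDegree) * (p.leadingCoeff * q.leadingCoeff) := by
    rw [Polynomial.coeff_sub]
    have h2 : (p.derivative * q).coeff (p.natDegree - 1 + q.natDegree) =
        p.natDegree * (p.leadingCoeff * q.leadingCoeff) := by
      rw [Polynomial.coeff_mul_add_eq_of_natDegree_le (Polynomial.natDegree_derivative_le p) le_rfl,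
        Polynomial.coeff_derivative, Nat.sub_add_cancel (by omega)]
      rw [← Polynomial.leadingCoeff, ← Polynomial.leadingCoeff]
      have : ((p.natDegree - 1 : ℕ) : ℂ) + 1 = p.natDegree := by
        rw [Nat.cast_sub (by omega)]
        simp
      rw [this]
      ring
    have h3 : (p * q.derivative).coeff (p.natDegree - 1 + q.natDegree) =
        q.natDegree * (p.leadingCoeff * q.leadingCoeff) := by
      rcases Nat.eq_zero_or_pos q.natDegree with h | h
      · have h4 : q.derivative = 0 := by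
          rw [Polynomial.eq_C_of_natDegree_eq_zero h, Polynomial.derivative_C]
        rw [h4, h]
        simp
      · have h5 : p.natDegree - 1 + q.natDegree = p.natDegree + (q.natDegree - 1) := by omega
        rw [h5, Polynomial.coeff_mul_add_eq_of_natDegree_le le_rfl (Polynomial.natDegree_derivative_le q),
          Polynomial.coeff_derivative, Nat.sub_add_cancel (by omega)]
        rw [← Polynomial.leadingCoeff, ← Polynomial.leadingCoeff]
        have : ((q.natDegree - 1 : ℕ) : ℂ) + 1 = q.natDegree := by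
          rw [Nat.cast_sub (by omega)]
          simp
        rw [this]
        ring
    rw [h2, h3]
    ring
  rw [h0, Polynomial.coeff_zero] at h1
  have h2 : ((p.natDegree : ℂ) - q.natDegree) ≠ 0 := by
    rw [sub_ne_zero]
    intro h
    have := Nat.cast_injective (R := ℂ) h
    omega
  exact (mul_ne_zero h2 (mul_ne_zero (Polynomial.leadingCoeff_ne_zero.2 hp)
    (Polynomial.leadingCoeff_ne_zero.2 hq))) h1.symm

/-- Number of preimages. -/
theorem cover_count (p q : Polynomial ℂ) (hdeg : q.natDegree < p.natDegree)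
    (hc : IsCoprime p q) (a : ℂ)
    (ha : ∀ l : ℂ, (p.derivative * q - p * q.derivative).eval l = 0 → q.eval l ≠ 0 →
      p.eval l / q.eval l ≠ a) :
    ∃ s : Finset ℂ, s.card = p.natDegree ∧ ∀ l, l ∈ s ↔
      (q.eval l ≠ 0 ∧ (p.derivative * q - p * q.derivative).eval l ≠ 0 ∧
        p.eval l / q.eval l = a) := by
  classical
  have hd : (p - Polynomial.C a * q).natDegree = p.natDegree := by
    apply Polynomial.natDegree_sub_eq_left_of_natDegree_lt
    exact lt_of_le_of_lt (Polynomial.natDegree_C_mul_le a q) hdeg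
  have hpq : p - Polynomial.C a * q ≠ 0 := by
    intro h0
    rw [h0, Polynomial.natDegree_zero] at hd
    omega
  have hroot : ∀ l, (p - Polynomial.C a * q).IsRoot l →
      (q.eval l ≠ 0 ∧ (p.derivative * q - p * q.derivative).eval l ≠ 0 ∧
        p.eval l / q.eval l = a) := by
    intro l hl
    have h1 : p.eval l = a * q.eval l := by
      have := hl
      simp only [Polynomial.IsRoot, Polynomial.eval_sub, Polynomial.eval_mul,
        Polynomial.eval_C] at this
      linear_combination this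
    have h2 : q.eval l ≠ 0 := by
      intro h0
      obtain ⟨u, v, huv⟩ := hc
      have := congrArg (Polynomial.eval l) huv
      simp [h1, h0] at this
    have h3 : p.eval l / q.eval l = a := by
      rw [h1, mul_div_assoc, div_self h2, mul_one]
    exact ⟨h2, fun h0 => ha l h0 h2 h3, h3⟩
  refine ⟨(p - Polynomial.C a * q).roots.toFinset, ?_, ?_⟩
  · rw [Multiset.toFinset_card_of_nodup, ← hd]
    · exact (IsAlgClosed.card_roots_eq_natDegree (p := p - Polynomial.C a * q))
    · rw [Multiset.nodup_iff_count_le_one]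
      intro l
      rw [Polynomial.count_roots]
      by_contra hlt
      rw [not_le] at hlt
      have h4 := (Polynomial.one_lt_rootMultiplicity_iff_isRoot hpq).1 hlt
      obtain ⟨h5, h6⟩ := h4
      obtain ⟨h7, h8, h9⟩ := hroot l h5
      apply h8
      rw [div_eq_iff h7] at h9
      simp only [Polynomial.IsRoot, Polynomial.derivative_sub, Polynomial.derivative_mul,
        Polynomial.derivative_C, Polynomial.eval_sub, Polynomial.eval_mul,
        Polynomial.eval_C, zero_mul, zero_add] at h6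
      simp only [Polynomial.eval_sub, Polynomial.eval_mul]
      linear_combination (q.eval l) * h6 - (q.derivative.eval l) * h9
  · intro l
    rw [Multiset.mem_toFinset, Polynomial.mem_roots hpq]
    refine ⟨hroot l, fun h => ?_⟩
    obtain ⟨h7, h8, h9⟩ := h
    rw [div_eq_iff h7] at h9
    simp [Polynomial.IsRoot, h9]

theorem cover_hasDerivAt (p q : Polynomial ℂ) (l : ℂ) (h : q.eval l ≠ 0) :
    HasStrictDerivAt (fun l => p.eval l / q.eval l)
      ((p.derivative * q - p * q.derivative).eval l / (q.eval l) ^ 2) l := by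
  have h1 := (p.hasStrictDerivAt l).fun_div (q.hasStrictDerivAt l) h
  simpa only [Polynomial.eval_sub, Polynomial.eval_mul] using h1

/-- A countable cover by open sets of injectivity. -/
theorem cover_pieces (p q : Polynomial ℂ) :
    ∃ V : ℕ → Set ℂ, (∀ k, MeasurableSet (V k)) ∧ Pairwise (Function.onFun Disjoint V) ∧
      (⋃ k, V k) = {l | q.eval l ≠ 0 ∧ (p.derivative * q - p * q.derivative).eval l ≠ 0} ∧
      ∀ k, Set.InjOn (fun l => p.eval l / q.eval l) (V k) := by
  classical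
  set U : Set ℂ := {l | q.eval l ≠ 0 ∧ (p.derivative * q - p * q.derivative).eval l ≠ 0} with hU
  have hUo : IsOpen U := by
    rw [hU, Set.ofPred_and]
    apply IsOpen.inter
    · exact isOpen_compl_singleton.preimage q.continuous
    · exact isOpen_compl_singleton.preimage (p.derivative * q - p * q.derivative).continuous
  have h1 : ∀ l ∈ U, ∃ V : Set ℂ, IsOpen V ∧ l ∈ V ∧
      Set.InjOn (fun l => p.eval l / q.eval l) V := by
    intro l hl
    have h2 := cover_hasDerivAt p q l hl.1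
    have h3 : (p.derivative * q - p * q.derivative).eval l / (q.eval l) ^ 2 ≠ 0 :=
      div_ne_zero hl.2 (pow_ne_zero 2 hl.1)
    let i : ℂ ≃L[ℂ] ℂ := .unitsEquivAut ℂ (.mk0 _ h3)
    have hfd : HasStrictFDerivAt (fun l => p.eval l / q.eval l) i.toContinuousLinearMap l := h2
    let e := hfd.toOpenPartialHomeomorph _
    exact ⟨e.source, e.open_source, hfd.mem_toOpenPartialHomeomorph_source, e.injOn⟩
  choose! W hW0 hW1 hW2 using h1
  obtain ⟨t, ht1, ht2, ht3⟩ := TopologicalSpace.countable_cover_nhdsWithin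
    (f := W) (s := U) (fun x hx => mem_nhdsWithin_of_mem_nhds ((hW0 x hx).mem_nhds (hW1 x hx)))
  obtain ⟨f, hf⟩ := Set.countable_iff_exists_subset_range.1 ht2
  let V' : ℕ → Set ℂ := fun k => if f k ∈ U then W (f k) ∩ U else ∅
  have hV'o : ∀ k, MeasurableSet (V' k) := by
    intro k
    simp only [V']
    split_ifs with h
    · exact ((hW0 _ h).inter hUo).measurableSet
    · exact MeasurableSet.empty
  refine ⟨disjointed V', fun k => MeasurableSet.disjointed hV'o k, disjoint_disjointed V', ?_, ?_⟩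
  · rw [iUnion_disjointed]
    ext l
    rw [Set.mem_iUnion]
    constructor
    · rintro ⟨k, hk⟩
      simp only [V'] at hk
      split_ifs at hk with h
      · exact hk.2
      · exact absurd hk (Set.notMem_empty _)
    · intro hl
      obtain ⟨x, hx, hlx⟩ := Set.mem_iUnion₂.1 (ht3 hl)
      obtain ⟨k, rfl⟩ := hf hx
      refine ⟨k, ?_⟩
      simp only [V']
      rw [if_pos (ht1 hx)]
      exact ⟨hlx, hl⟩
  · intro k x hx y hy hxy
    have hx' := disjointed_subset V' k hx
    have hy' := disjointed_subset V' k hy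
    simp only [V'] at hx' hy'
    split_ifs at hx' hy' with h
    · exact hW2 _ h hx'.1 hy'.1 hxy
    · exact absurd hx' (Set.notMem_empty _)

theorem cover_rational (p q : Polynomial ℂ) (hq : q ≠ 0) (hdeg : q.natDegree < p.natDegree)
    (hc : IsCoprime p q) {φ : ℂ → ℝ≥0∞} (hφ : Measurable φ) :
    (p.natDegree : ℝ≥0∞) * ∫⁻ a, φ a =
      ∫⁻ l : ℂ, φ (p.eval l / q.eval l) * ENNReal.ofReal
        (‖(p.derivative * q - p * q.derivative).eval l / (q.eval l) ^ 2‖ ^ 2) := by
  classical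
  obtain ⟨V, hVm, hVd, hVU, hVi⟩ := cover_pieces p q
  set U : Set ℂ := {l | q.eval l ≠ 0 ∧ (p.derivative * q - p * q.derivative).eval l ≠ 0} with hU
  set R : ℂ → ℂ := fun l => p.eval l / q.eval l with hR
  have hUc : (Uᶜ : Set ℂ).Finite := by
    have h1 : (Uᶜ : Set ℂ) ⊆ (q.rootSet ℂ) ∪
        ((p.derivative * q - p * q.derivative).rootSet ℂ) := by
      intro l hl
      rw [Set.mem_union, Polynomial.mem_rootSet, Polynomial.mem_rootSet]
      simp only [hU, Set.mem_compl_iff, Set.mem_ofPred_eq, not_and_or, not_not] at hl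
      simp only [Polynomial.aeval_def, Algebra.algebraMap_self, Polynomial.eval₂_id]
      rcases hl with h | h
      · exact Or.inl ⟨hq, h⟩
      · exact Or.inr ⟨cover_rational_aux p q hq hdeg, h⟩
    exact ((Polynomial.rootSet_finite _ _).union (Polynomial.rootSet_finite _ _)).subset h1
  have hUm : MeasurableSet U := by
    rw [← hVU]
    exact MeasurableSet.iUnion hVm
  have hU0 : ∀ᵐ l : ℂ, l ∈ U := by
    rw [ae_iff]
    exact hUc.measure_zero _
  have hder : ∀ k, ∀ l ∈ V k, HasFDerivWithinAt R (ContinuousLinearMap.restrictScalars ℝ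
      (ContinuousLinearMap.toSpanSingleton ℂ
        ((p.derivative * q - p * q.derivative).eval l / (q.eval l) ^ 2))) (V k) l := by
    intro k l hl
    have hlU : l ∈ U := by
      rw [← hVU]
      exact Set.mem_iUnion_of_mem k hl
    exact ((cover_hasDerivAt p q l hlU.1).hasDerivAt.hasFDerivAt.restrictScalars
      ℝ).hasFDerivWithinAt
  have himg : ∀ k, MeasurableSet (R '' V k) := fun k =>
    MeasureTheory.measurable_image_of_fderivWithin (hVm k) (hder k) (hVi k)
  -- the right-hand side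
  have h1 : ∫⁻ l : ℂ, φ (R l) * ENNReal.ofReal
      (‖(p.derivative * q - p * q.derivative).eval l / (q.eval l) ^ 2‖ ^ 2) =
      ∑' k, ∫⁻ a in R '' V k, φ a := by
    conv_lhs => rw [← Measure.restrict_eq_self_of_ae_mem hU0, ← hVU]
    rw [lintegral_iUnion hVm hVd]
    congr 1
    funext k
    rw [lintegral_image_eq_lintegral_abs_det_fderiv_mul volume (hVm k) (hder k) (hVi k)]
    refine lintegral_congr fun l => ?_
    rw [cover_det_smul, abs_of_nonneg (by positivity), mul_comm]
  rw [h1]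
  have h2 : ∀ k, ∫⁻ a in R '' V k, φ a = ∫⁻ a, (R '' V k).indicator φ a := fun k =>
    (lintegral_indicator (himg k) φ).symm
  simp_rw [h2]
  rw [← lintegral_tsum fun k => (hφ.indicator (himg k)).aemeasurable, ← lintegral_const_mul _ hφ]
  refine lintegral_congr_ae ?_
  have hbad : (R '' Uᶜ).Finite := hUc.image R
  have hb0 : ∀ᵐ a : ℂ, a ∉ R '' Uᶜ := by
    rw [ae_iff]
    simp only [not_not]
    exact hbad.measure_zero _
  filter_upwards [hb0] with a ha
  obtain ⟨s, hs1, hs2⟩ := cover_count p q hdeg hc a (fun l hl hl2 hl3 => ha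
    ⟨l, fun hlU => hlU.2 hl, hl3⟩)
  have h3 : ∀ k, (R '' V k).indicator φ a = ∑ l ∈ s, (V k).indicator (fun _ => φ a) l := by
    intro k
    by_cases hk : a ∈ R '' V k
    · rw [Set.indicator_of_mem hk]
      obtain ⟨l, hl, hla⟩ := hk
      have hlU : l ∈ U := by
        rw [← hVU]
        exact Set.mem_iUnion_of_mem k hl
      have hls : l ∈ s := (hs2 l).2 ⟨hlU.1, hlU.2, hla⟩
      rw [Finset.sum_eq_single_of_mem l hls, Set.indicator_of_mem hl]
      intro l' hl's hne
      rw [Set.indicator_of_notMem]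
      intro hl'
      exact hne (hVi k hl' hl (((hs2 l').1 hl's).2.2.trans hla.symm))
    · rw [Set.indicator_of_notMem hk]
      symm
      refine Finset.sum_eq_zero fun l hl => ?_
      rw [Set.indicator_of_notMem]
      intro hlV
      exact hk ⟨l, hlV, ((hs2 l).1 hl).2.2⟩
  simp_rw [h3]
  rw [Summable.tsum_finsetSum (fun _ _ => ENNReal.summable)]
  have h4 : ∀ l ∈ s, ∑' k, (V k).indicator (fun _ => φ a) l = φ a := by
    intro l hl
    have hlU : l ∈ ⋃ k, V k := by
      rw [hVU]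
      exact ⟨((hs2 l).1 hl).1, ((hs2 l).1 hl).2.1⟩
    obtain ⟨k, hk⟩ := Set.mem_iUnion.1 hlU
    rw [tsum_eq_single k, Set.indicator_of_mem hk]
    intro j hj
    rw [Set.indicator_of_notMem]
    intro hlj
    exact Set.disjoint_left.1 (hVd hj) hlj hk
  rw [Finset.sum_congr rfl h4, Finset.sum_const, hs1, nsmul_eq_mul]

/-- The Hankel matrix `w M^(j+k) b`. -/
noncomputable def coverHank {n : ℕ} (M : Matrix (Fin n) (Fin n) ℂ) (w b : Fin n → ℂ) :
    Matrix (Fin n) (Fin n) ℂ :=
  Matrix.of fun j k => w ⬝ᵥ (M ^ ((j : ℕ) + (k : ℕ)) *ᵥ b)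

theorem cover_hank_eq {n : ℕ} (M : Matrix (Fin n) (Fin n) ℂ) (w b : Fin n → ℂ) :
    coverHank M w b = (Matrix.of fun j : Fin n => w ᵥ* M ^ (j : ℕ)) *
      (Matrix.of fun k : Fin n => M ^ (k : ℕ) *ᵥ b)ᵀ := by
  ext j k
  simp only [coverHank, Matrix.mul_apply, Matrix.of_apply, Matrix.transpose_apply]
  rw [pow_add, ← Matrix.mulVec_mulVec, Matrix.dotProduct_mulVec]
  rfl

theorem cover_pbh {n : ℕ} (M : Matrix (Fin n) (Fin n) ℂ) (w b : Fin n → ℂ)
    (h : (coverHank M w b).det ≠ 0) (l : ℂ) (hl : (l • (1 : Matrix (Fin n) (Fin n) ℂ) - M).det = 0) :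
    (l • (1 : Matrix (Fin n) (Fin n) ℂ) - M + vecMulVec b w).det ≠ 0 := by
  intro h0
  rw [cover_hank_eq, Matrix.det_mul] at h
  have hO := left_ne_zero_of_mul h
  have hC := right_ne_zero_of_mul h
  obtain ⟨z, hz0, hz⟩ := Matrix.exists_mulVec_eq_zero_iff.2 h0
  obtain ⟨y, hy0, hy⟩ := Matrix.exists_vecMul_eq_zero_iff.2 hl
  have hyM : y ᵥ* M = l • y := by
    rw [Matrix.vecMul_sub, Matrix.vecMul_smul, Matrix.vecMul_one, sub_eq_zero] at hy
    exact hy.symm
  have hyk : ∀ k : ℕ, y ᵥ* M ^ k = l ^ k • y := by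
    intro k
    induction k with
    | zero => simp
    | succ k ih => rw [pow_succ, ← Matrix.vecMul_vecMul, ih, Matrix.smul_vecMul, hyM, smul_smul,
        pow_succ]
  have hyb : y ⬝ᵥ b ≠ 0 := by
    intro hb
    apply hC
    rw [← Matrix.exists_vecMul_eq_zero_iff]
    refine ⟨y, hy0, ?_⟩
    ext k
    rw [Matrix.vecMul, Pi.zero_apply]
    change y ⬝ᵥ (M ^ (k : ℕ) *ᵥ b) = 0
    rw [Matrix.dotProduct_mulVec, hyk, smul_dotProduct, hb, smul_zero]
  have hwz : w ⬝ᵥ z = 0 := by
    have h1 : y ⬝ᵥ ((l • (1 : Matrix (Fin n) (Fin n) ℂ) - M + vecMulVec b w) *ᵥ z) = 0 := by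
      rw [hz, dotProduct_zero]
    rw [Matrix.add_mulVec, dotProduct_add, Matrix.dotProduct_mulVec, hy, zero_dotProduct, zero_add,
      Matrix.dotProduct_mulVec, Matrix.vecMul_vecMulVec] at h1
    rw [smul_dotProduct, smul_eq_mul] at h1
    exact (mul_eq_zero.1 h1).resolve_left hyb
  have hMz : M *ᵥ z = l • z := by
    rw [Matrix.add_mulVec, Matrix.vecMulVec_mulVec, hwz] at hz
    rw [Matrix.sub_mulVec, Matrix.smul_mulVec, Matrix.one_mulVec] at hz
    simp only [MulOpposite.op_zero, zero_smul, add_zero, sub_eq_zero] at hz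
    exact hz.symm
  have hMk : ∀ k : ℕ, M ^ k *ᵥ z = l ^ k • z := by
    intro k
    induction k with
    | zero => simp
    | succ k ih => rw [pow_succ', ← Matrix.mulVec_mulVec, ih, Matrix.mulVec_smul, hMz, smul_smul,
        ← pow_succ]
  apply hO
  rw [← Matrix.exists_mulVec_eq_zero_iff]
  refine ⟨z, hz0, ?_⟩
  ext k
  rw [Matrix.mulVec, Pi.zero_apply]
  change (w ᵥ* M ^ (k : ℕ)) ⬝ᵥ z = 0
  rw [← Matrix.dotProduct_mulVec, hMk, dotProduct_smul, hwz, smul_zero]

/-- The numerator. -/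
noncomputable def coverP {n : ℕ} (M : Matrix (Fin n) (Fin n) ℂ) (w b : Fin n → ℂ) : Polynomial ℂ :=
  (Polynomial.X + Polynomial.C 1) * M.charpoly - (M - vecMulVec b w).charpoly

theorem cover_eval_charpoly {n : ℕ} (M : Matrix (Fin n) (Fin n) ℂ) (l : ℂ) :
    M.charpoly.eval l = (l • (1 : Matrix (Fin n) (Fin n) ℂ) - M).det := by
  rw [Matrix.eval_charpoly, Matrix.scalar_apply, Matrix.smul_one_eq_diagonal]

theorem coverP_natDegree {n : ℕ} (M : Matrix (Fin n) (Fin n) ℂ) (w b : Fin n → ℂ) :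
    (coverP M w b).natDegree = n + 1 := by
  have h1 : ((Polynomial.X + Polynomial.C 1) * M.charpoly).natDegree = n + 1 := by
    rw [Polynomial.natDegree_mul (Polynomial.X_add_C_ne_zero 1) (M.charpoly_monic.ne_zero),
      Polynomial.natDegree_X_add_C, Matrix.charpoly_natDegree_eq_dim, Fintype.card_fin, add_comm]
  rw [coverP, Polynomial.natDegree_sub_eq_left_of_natDegree_lt, h1]
  rw [h1, Matrix.charpoly_natDegree_eq_dim, Fintype.card_fin]
  exact Nat.lt_succ_self n

theorem coverP_coprime {n : ℕ} (M : Matrix (Fin n) (Fin n) ℂ) (w b : Fin n → ℂ)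
    (h : (coverHank M w b).det ≠ 0) : IsCoprime (coverP M w b) M.charpoly := by
  refine (Polynomial.isCoprime_iff_aeval_ne_zero_of_isAlgClosed (k := ℂ) (K := ℂ) _ _).2 ?_
  intro l
  simp only [Polynomial.aeval_def, Algebra.algebraMap_self, Polynomial.eval₂_id]
  by_cases hl : M.charpoly.eval l = 0
  · left
    rw [coverP, Polynomial.eval_sub, Polynomial.eval_mul, hl, mul_zero, zero_sub, neg_ne_zero,
      cover_eval_charpoly]
    rw [cover_eval_charpoly] at hl
    have := cover_pbh M w b h l hl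
    rwa [← sub_add]
  · exact Or.inr hl

theorem cover_det_add {n : ℕ} (A : Matrix (Fin n) (Fin n) ℂ) (hA : A.det ≠ 0) (b w : Fin n → ℂ) :
    (A + vecMulVec b w).det = A.det * (1 + w ⬝ᵥ (A⁻¹ *ᵥ b)) := by
  rw [Matrix.vecMulVec_eq Unit, Matrix.det_add_replicateCol_mul_replicateRow (isUnit_iff_ne_zero.2 hA)]
  congr 1
  rw [Matrix.det_unique, Matrix.add_apply, Matrix.one_apply_eq, Matrix.mul_assoc,
    ← Matrix.replicateCol_mulVec, Matrix.replicateRow_mul_replicateCol_apply]

theorem coverP_div {n : ℕ} (M : Matrix (Fin n) (Fin n) ℂ) (w b : Fin n → ℂ) (l : ℂ)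
    (hl : (l • (1 : Matrix (Fin n) (Fin n) ℂ) - M).det ≠ 0) :
    (coverP M w b).eval l / M.charpoly.eval l =
      l - w ⬝ᵥ ((l • (1 : Matrix (Fin n) (Fin n) ℂ) - M)⁻¹ *ᵥ b) := by
  rw [coverP, Polynomial.eval_sub, Polynomial.eval_mul, cover_eval_charpoly, cover_eval_charpoly,
    ← sub_add, cover_det_add _ hl]
  simp only [Polynomial.eval_add, Polynomial.eval_X, Polynomial.eval_C]
  field_simp
  ring

theorem cover_inv_continuousAt {n : ℕ} (M : Matrix (Fin n) (Fin n) ℂ) (l : ℂ)
    (hl : (l • (1 : Matrix (Fin n) (Fin n) ℂ) - M).det ≠ 0) :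
    ContinuousAt (fun l : ℂ => (l • (1 : Matrix (Fin n) (Fin n) ℂ) - M)⁻¹) l := by
  have h1 : Continuous fun l : ℂ => (l • (1 : Matrix (Fin n) (Fin n) ℂ) - M) := by fun_prop
  simp_rw [Matrix.inv_def, Ring.inverse_eq_inv']
  exact (ContinuousAt.inv₀ (h1.matrix_det.continuousAt) hl).smul (h1.matrix_adjugate.continuousAt)

theorem cover_hasDerivAt_inv {n : ℕ} (M : Matrix (Fin n) (Fin n) ℂ) (w b : Fin n → ℂ) (l : ℂ)
    (hl : (l • (1 : Matrix (Fin n) (Fin n) ℂ) - M).det ≠ 0) :
    HasDerivAt (fun l : ℂ => l - w ⬝ᵥ ((l • (1 : Matrix (Fin n) (Fin n) ℂ) - M)⁻¹ *ᵥ b))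
      (1 + w ⬝ᵥ ((l • (1 : Matrix (Fin n) (Fin n) ℂ) - M)⁻¹ *ᵥ
            ((l • (1 : Matrix (Fin n) (Fin n) ℂ) - M)⁻¹ *ᵥ b))) l := by
  rw [hasDerivAt_iff_tendsto_slope]
  have h1 : Continuous fun l : ℂ => (l • (1 : Matrix (Fin n) (Fin n) ℂ) - M).det :=
    Continuous.matrix_det (by fun_prop)
  have h2 : ∀ᶠ y in 𝓝[≠] l, (y • (1 : Matrix (Fin n) (Fin n) ℂ) - M).det ≠ 0 :=
    mem_nhdsWithin_of_mem_nhds (h1.continuousAt.eventually_ne hl)
  have h3 : Tendsto (fun y : ℂ => 1 + w ⬝ᵥ ((l • (1 : Matrix (Fin n) (Fin n) ℂ) - M)⁻¹ *ᵥ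
            ((y • (1 : Matrix (Fin n) (Fin n) ℂ) - M)⁻¹ *ᵥ b))) (𝓝[≠] l)
      (𝓝 (1 + w ⬝ᵥ ((l • (1 : Matrix (Fin n) (Fin n) ℂ) - M)⁻¹ *ᵥ
            ((l • (1 : Matrix (Fin n) (Fin n) ℂ) - M)⁻¹ *ᵥ b)))) := by
    refine Tendsto.mono_left ?_ nhdsWithin_le_nhds
    have h4 : Continuous fun A : Matrix (Fin n) (Fin n) ℂ =>
        1 + w ⬝ᵥ ((l • (1 : Matrix (Fin n) (Fin n) ℂ) - M)⁻¹ *ᵥ (A *ᵥ b)) := by
      fun_prop
    exact (h4.continuousAt (x := (l • (1 : Matrix (Fin n) (Fin n) ℂ) - M)⁻¹)).tendsto.comp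
      (cover_inv_continuousAt M l hl).tendsto
  refine h3.congr' ?_
  filter_upwards [h2, self_mem_nhdsWithin] with y hy hyl
  have hyl' : y - l ≠ 0 := sub_ne_zero.2 hyl
  rw [slope_def_field, eq_div_iff hyl']
  have h5 : (l • (1 : Matrix (Fin n) (Fin n) ℂ) - M)⁻¹ - (y • (1 : Matrix (Fin n) (Fin n) ℂ) - M)⁻¹
      = (y - l) • ((l • (1 : Matrix (Fin n) (Fin n) ℂ) - M)⁻¹ *
        (y • (1 : Matrix (Fin n) (Fin n) ℂ) - M)⁻¹) := by
    have h6 := Matrix.nonsing_inv_mul _ (isUnit_iff_ne_zero.2 hl)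
    have h7 := Matrix.mul_nonsing_inv _ (isUnit_iff_ne_zero.2 hy)
    have h8 : (y - l) • (1 : Matrix (Fin n) (Fin n) ℂ) =
        (y • (1 : Matrix (Fin n) (Fin n) ℂ) - M) - (l • (1 : Matrix (Fin n) (Fin n) ℂ) - M) := by
      rw [sub_smul]
      abel
    calc (l • (1 : Matrix (Fin n) (Fin n) ℂ) - M)⁻¹ - (y • (1 : Matrix (Fin n) (Fin n) ℂ) - M)⁻¹
        = (l • (1 : Matrix (Fin n) (Fin n) ℂ) - M)⁻¹ *
          ((y - l) • (1 : Matrix (Fin n) (Fin n) ℂ)) *
          (y • (1 : Matrix (Fin n) (Fin n) ℂ) - M)⁻¹ := by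
          rw [h8, Matrix.mul_sub, Matrix.sub_mul, h6, Matrix.mul_assoc, h7, Matrix.one_mul,
            Matrix.mul_one]
      _ = _ := by
          rw [Matrix.mul_smul, Matrix.mul_one, Matrix.smul_mul]
  have h9 := congrArg (fun A : Matrix (Fin n) (Fin n) ℂ => w ⬝ᵥ (A *ᵥ b)) h5
  simp only [Matrix.sub_mulVec, dotProduct_sub, Matrix.smul_mulVec, dotProduct_smul,
    smul_eq_mul] at h9
  rw [Matrix.mulVec_mulVec]
  linear_combination -h9

theorem coverP_deriv {n : ℕ} (M : Matrix (Fin n) (Fin n) ℂ) (w b : Fin n → ℂ) (l : ℂ)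
    (hl : (l • (1 : Matrix (Fin n) (Fin n) ℂ) - M).det ≠ 0) :
    ((coverP M w b).derivative * M.charpoly - coverP M w b * M.charpoly.derivative).eval l /
      (M.charpoly.eval l) ^ 2 =
      1 + w ⬝ᵥ ((l • (1 : Matrix (Fin n) (Fin n) ℂ) - M)⁻¹ *ᵥ
            ((l • (1 : Matrix (Fin n) (Fin n) ℂ) - M)⁻¹ *ᵥ b)) := by
  have hq : M.charpoly.eval l ≠ 0 := by rwa [cover_eval_charpoly]
  have h1 : HasDerivAt (fun l => (coverP M w b).eval l / M.charpoly.eval l)
      (((coverP M w b).derivative * M.charpoly - coverP M w b * M.charpoly.derivative).eval l /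
      (M.charpoly.eval l) ^ 2) l := by
    have h1 := ((coverP M w b).hasDerivAt l).fun_div (M.charpoly.hasDerivAt l) hq
    simpa only [Polynomial.eval_sub, Polynomial.eval_mul] using h1
  have h2 := cover_hasDerivAt_inv M w b l hl
  refine h1.unique (h2.congr_of_eventuallyEq ?_)
  have h3 : Continuous fun l : ℂ => (l • (1 : Matrix (Fin n) (Fin n) ℂ) - M).det :=
    Continuous.matrix_det (by fun_prop)
  filter_upwards [h3.continuousAt.eventually_ne hl] with y hy
  exact coverP_div M w b y hy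

/-- The subring of polynomial functions. -/
noncomputable def coverPF : Subring (ℂ → ℂ) :=
  (RingHom.pi fun u : ℂ => Polynomial.evalRingHom u).range

theorem coverPF_finite {f : ℂ → ℂ} (hf : f ∈ coverPF) (h : ∃ u, f u ≠ 0) : {u | f u = 0}.Finite := by
  obtain ⟨P, rfl⟩ := hf
  obtain ⟨u, hu⟩ := h
  have hP : P ≠ 0 := by
    rintro rfl
    simp at hu
  exact (Polynomial.finite_setOfPred_isRoot hP)

theorem coverPF_hank {n : ℕ} (M D : Matrix (Fin n) (Fin n) ℂ) (w b w0 b0 : Fin n → ℂ) :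
    (fun u : ℂ => (coverHank (D + u • M) (w0 + u • w) (b0 + u • b)).det) ∈ coverPF := by
  have hlin : ∀ x y : ℂ, (fun u : ℂ => x + u * y) ∈ coverPF := by
    intro x y
    refine ⟨Polynomial.C x + Polynomial.X * Polynomial.C y, ?_⟩
    ext u
    change Polynomial.eval u (Polynomial.C x + Polynomial.X * Polynomial.C y) = _
    rw [Polynomial.eval_add, Polynomial.eval_mul, Polynomial.eval_C, Polynomial.eval_C,
      Polynomial.eval_X]
  have hpow : ∀ m : ℕ, ∀ i j, (fun u : ℂ => ((D + u • M) ^ m) i j) ∈ coverPF := by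
    intro m
    induction m with
    | zero =>
      intro i j
      simp only [pow_zero]
      exact ⟨Polynomial.C ((1 : Matrix (Fin n) (Fin n) ℂ) i j), by
        ext u; exact Polynomial.eval_C⟩
    | succ m ih =>
      intro i j
      have : (fun u : ℂ => ((D + u • M) ^ (m + 1)) i j) =
          ∑ k, (fun u : ℂ => ((D + u • M) ^ m) i k) * (fun u : ℂ => D k j + u * M k j) := by
        ext u
        rw [pow_succ, Matrix.mul_apply, Finset.sum_apply]
        rfl
      rw [this]
      exact Subring.sum_mem _ fun k _ => Subring.mul_mem _ (ih i k) (hlin _ _)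
  have hent : ∀ j k, (fun u : ℂ => coverHank (D + u • M) (w0 + u • w) (b0 + u • b) j k) ∈
      coverPF := by
    intro j k
    have : (fun u : ℂ => coverHank (D + u • M) (w0 + u • w) (b0 + u • b) j k) =
        ∑ i, (fun u : ℂ => w0 i + u * w i) * ∑ i', (fun u : ℂ =>
          ((D + u • M) ^ ((j : ℕ) + (k : ℕ))) i i') * (fun u : ℂ => b0 i' + u * b i') := by
      ext u
      simp only [coverHank, Matrix.of_apply, dotProduct, Matrix.mulVec, Finset.sum_apply,
        Pi.mul_apply, Pi.add_apply, Pi.smul_apply, smul_eq_mul]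
    rw [this]
    exact Subring.sum_mem _ fun i _ => Subring.mul_mem _ (hlin _ _)
      (Subring.sum_mem _ fun i' _ => Subring.mul_mem _ (hpow _ _ _) (hlin _ _))
  have hdet : (fun u : ℂ => (coverHank (D + u • M) (w0 + u • w) (b0 + u • b)).det) =
      ∑ σ : Equiv.Perm (Fin n), (fun _ : ℂ => ((Equiv.Perm.sign σ : ℤ) : ℂ)) *
        ∏ i, (fun u : ℂ => coverHank (D + u • M) (w0 + u • w) (b0 + u • b) (σ i) i) := by
    ext u
    rw [Matrix.det_apply', Finset.sum_apply]
    refine Finset.sum_congr rfl fun σ _ => ?_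
    rw [Pi.mul_apply, Finset.prod_apply]
  rw [hdet]
  refine Subring.sum_mem _ fun σ _ => Subring.mul_mem _ ?_ (Subring.prod_mem _ fun i _ => hent _ _)
  exact ⟨Polynomial.C ((Equiv.Perm.sign σ : ℤ) : ℂ), by ext u; exact Polynomial.eval_C⟩

theorem coverHank_base (n : ℕ) :
    (coverHank (Matrix.diagonal fun i : Fin n => ((i : ℕ) : ℂ)) 1 1).det ≠ 0 := by
  have h1 : coverHank (Matrix.diagonal fun i : Fin n => ((i : ℕ) : ℂ)) 1 1 =
      (Matrix.vandermonde fun i : Fin n => ((i : ℕ) : ℂ))ᵀ *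
        Matrix.vandermonde fun i : Fin n => ((i : ℕ) : ℂ) := by
    ext j k
    simp only [coverHank, Matrix.of_apply, Matrix.diagonal_pow,
      dotProduct, Matrix.mul_apply, Matrix.transpose_apply, Matrix.vandermonde_apply,
      Pi.one_apply, one_mul]
    refine Finset.sum_congr rfl fun i _ => ?_
    rw [Matrix.mulVec_diagonal, Pi.one_apply, mul_one, Pi.pow_apply, pow_add]
  rw [h1, Matrix.det_mul, Matrix.det_transpose]
  have h2 : (Matrix.vandermonde fun i : Fin n => ((i : ℕ) : ℂ)).det ≠ 0 := by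
    rw [Matrix.det_vandermonde_ne_zero_iff]
    intro i j hij
    exact Fin.ext (Nat.cast_injective hij)
  exact mul_ne_zero h2 h2

theorem coverHank_smul {n : ℕ} (M : Matrix (Fin n) (Fin n) ℂ) (w b : Fin n → ℂ) (t : ℂ) :
    coverHank (t • M) (t • w) (t • b) = Matrix.diagonal (fun j : Fin n => t ^ ((j : ℕ) + 1)) *
      coverHank M w b * Matrix.diagonal (fun j : Fin n => t ^ ((j : ℕ) + 1)) := by
  ext j k
  rw [Matrix.mul_diagonal, Matrix.diagonal_mul]
  simp only [coverHank, Matrix.of_apply, smul_pow, Matrix.smul_mulVec, Matrix.mulVec_smul,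
    dotProduct_smul, smul_dotProduct, smul_eq_mul]
  ring

theorem coverHank_smul_ne {n : ℕ} (M : Matrix (Fin n) (Fin n) ℂ) (w b : Fin n → ℂ) {t : ℂ}
    (ht : t ≠ 0) (h : (coverHank M w b).det ≠ 0) : (coverHank (t • M) (t • w) (t • b)).det ≠ 0 := by
  rw [coverHank_smul, Matrix.det_mul, Matrix.det_mul, Matrix.det_diagonal]
  exact mul_ne_zero (mul_ne_zero (Finset.prod_ne_zero_iff.2 fun _ _ => pow_ne_zero _ ht) h)
    (Finset.prod_ne_zero_iff.2 fun _ _ => pow_ne_zero _ ht)

theorem cover_haar_pi (n : ℕ) :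
    Measure.IsAddHaarMeasure (volume : Measure (Fin n → Fin n → ℂ)) := by
  have h : Measure.IsAddHaarMeasure (volume : Measure (Fin n → ℂ)) := inferInstance
  have h' : ∀ i : Fin n, SigmaFinite ((fun _ : Fin n => (volume : Measure (Fin n → ℂ))) i) :=
    inferInstance
  have h'' : ∀ i : Fin n, MeasurableAdd ((fun _ : Fin n => ((Fin n → ℂ))) i) := inferInstance
  exact Measure.pi.isAddHaarMeasure _

theorem cover_haar (n : ℕ) : Measure.IsAddHaarMeasure
      (volume : Measure ((Fin n → Fin n → ℂ) × ((Fin n → ℂ) × (Fin n → ℂ)))) := by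
  have h1 : Measure.IsAddHaarMeasure ((volume : Measure (Fin n → ℂ)).prod
      (volume : Measure (Fin n → ℂ))) := Measure.prod.instIsAddHaarMeasure _ _
  have h0 := cover_haar_pi n
  exact Measure.prod.instIsAddHaarMeasure _ _

theorem cover_ae_cont (n : ℕ) :
    Continuous fun p : (Fin n → Fin n → ℂ) × ((Fin n → ℂ) × (Fin n → ℂ)) =>
      (coverHank (Matrix.of p.1) p.2.1 p.2.2).det := by
  refine Continuous.matrix_det ?_
  refine continuous_matrix fun j k => ?_
  have h1 : Continuous fun p : (Fin n → Fin n → ℂ) × ((Fin n → ℂ) × (Fin n → ℂ)) =>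
      (Matrix.of p.1 : Matrix (Fin n) (Fin n) ℂ) := continuous_fst
  have h2 := h1.pow ((j : ℕ) + (k : ℕ))
  exact (continuous_fst.comp continuous_snd).dotProduct
    (h2.matrix_mulVec (continuous_snd.comp continuous_snd))

theorem cover_ae_line {n : ℕ} (M : Matrix (Fin n) (Fin n) ℂ) (w b : Fin n → ℂ) :
    ∀ᵐ t : ℝ, (coverHank (M + (t : ℂ) • Matrix.diagonal fun i : Fin n => ((i : ℕ) : ℂ))
      (w + (t : ℂ) • 1) (b + (t : ℂ) • 1)).det ≠ 0 := by
  set D : Matrix (Fin n) (Fin n) ℂ := Matrix.diagonal fun i : Fin n => ((i : ℕ) : ℂ) with hD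
  have hfin : {u : ℂ | (coverHank (D + u • M) (1 + u • w) (1 + u • b)).det = 0}.Finite := by
    refine coverPF_finite (coverPF_hank M D w b 1 1) ⟨0, ?_⟩
    simp only [zero_smul, add_zero]
    exact coverHank_base n
  have hinj : Function.Injective fun t : ℝ => ((t : ℂ))⁻¹ := fun a b hab => by
    exact Complex.ofReal_injective (inv_injective hab)
  have hfin2 : {t : ℝ | (coverHank (D + ((t : ℂ))⁻¹ • M) (1 + ((t : ℂ))⁻¹ • w)
      (1 + ((t : ℂ))⁻¹ • b)).det = 0}.Finite := hfin.preimage hinj.injOn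
  have h1 : ∀ᵐ t : ℝ, t ∉ {t : ℝ | (coverHank (D + ((t : ℂ))⁻¹ • M)
      (1 + ((t : ℂ))⁻¹ • w) (1 + ((t : ℂ))⁻¹ • b)).det = 0} :=
    hfin2.countable.ae_notMem volume
  have h2 : ∀ᵐ t : ℝ, t ∉ ({0} : Set ℝ) := (Set.countable_singleton 0).ae_notMem volume
  filter_upwards [h1, h2] with t ht ht0
  have ht1 : (t : ℂ) ≠ 0 := by
    simpa using ht0
  have h3 := coverHank_smul_ne _ _ _ ht1 ht
  rw [smul_add, smul_add, smul_add, smul_smul, smul_smul, smul_smul, mul_inv_cancel₀ ht1, one_smul,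
    one_smul, one_smul] at h3
  rw [add_comm w, add_comm b, add_comm M]
  exact h3

theorem cover_ae (n : ℕ) : ∀ᵐ p : (Fin n → Fin n → ℂ) × ((Fin n → ℂ) × (Fin n → ℂ)),
    (coverHank (Matrix.of p.1) p.2.1 p.2.2).det ≠ 0 := by
  have hmeas : MeasurableSet {p : (Fin n → Fin n → ℂ) × ((Fin n → ℂ) × (Fin n → ℂ)) |
      (coverHank (Matrix.of p.1) p.2.1 p.2.2).det ≠ 0} :=
    ((cover_ae_cont n).measurable (measurableSet_singleton 0)).compl
  have := cover_haar n
  let D : Fin n → Fin n → ℂ := fun i j => Matrix.diagonal (fun i : Fin n => ((i : ℕ) : ℂ)) i j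
  let v : (Fin n → Fin n → ℂ) × ((Fin n → ℂ) × (Fin n → ℂ)) := (D, (1, 1))
  refine ae_mem_of_ae_add_linearMap_mem (LinearMap.toSpanSingleton ℝ _ v) (volume : Measure ℝ)
    volume hmeas fun s => ?_
  filter_upwards [cover_ae_line (Matrix.of s.1) s.2.1 s.2.2] with t ht
  change (coverHank (Matrix.of (s + (LinearMap.toSpanSingleton ℝ _ v) t).1)
    (s + (LinearMap.toSpanSingleton ℝ _ v) t).2.1
    (s + (LinearMap.toSpanSingleton ℝ _ v) t).2.2).det ≠ 0
  have h4 : (Matrix.of (s + (LinearMap.toSpanSingleton ℝ _ v) t).1 : Matrix (Fin n) (Fin n) ℂ) =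
      Matrix.of s.1 + (t : ℂ) • Matrix.diagonal fun i : Fin n => ((i : ℕ) : ℂ) := by
    ext i j
    simp [v, D]
  have h5 : (s + (LinearMap.toSpanSingleton ℝ _ v) t).2.1 = s.2.1 + (t : ℂ) • 1 := by
    ext i
    simp [v]
  have h6 : (s + (LinearMap.toSpanSingleton ℝ _ v) t).2.2 = s.2.2 + (t : ℂ) • 1 := by
    ext i
    simp [v]
  rw [h4, h5, h6]
  exact ht

/-- The matrix form, for almost all parameters. -/
theorem cover_generic (n : ℕ) :
    ∀ᵐ p : (Fin n → Fin n → ℂ) × ((Fin n → ℂ) × (Fin n → ℂ)), ∀ φ : ℂ → ℝ≥0∞, Measurable φ →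
      ((n + 1 : ℕ) : ℝ≥0∞) * ∫⁻ a, φ a =
        ∫⁻ l : ℂ, φ (l - p.2.1 ⬝ᵥ ((l • (1 : Matrix (Fin n) (Fin n) ℂ) - Matrix.of p.1)⁻¹ *ᵥ p.2.2)) *
          ENNReal.ofReal (‖1 + p.2.1 ⬝ᵥ ((l • (1 : Matrix (Fin n) (Fin n) ℂ) - Matrix.of p.1)⁻¹ *ᵥ
            ((l • (1 : Matrix (Fin n) (Fin n) ℂ) - Matrix.of p.1)⁻¹ *ᵥ p.2.2))‖ ^ 2) := by
  filter_upwards [cover_ae n] with p hp φ hφ
  set M : Matrix (Fin n) (Fin n) ℂ := Matrix.of p.1
  have h1 := cover_rational (coverP M p.2.1 p.2.2) M.charpoly M.charpoly_monic.ne_zero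
    (by rw [coverP_natDegree, Matrix.charpoly_natDegree_eq_dim, Fintype.card_fin]
        exact Nat.lt_succ_self n) (coverP_coprime M p.2.1 p.2.2 hp) hφ
  rw [coverP_natDegree] at h1
  rw [h1]
  refine lintegral_congr_ae ?_
  have h2 : ∀ᵐ l : ℂ, l ∉ {l : ℂ | M.charpoly.IsRoot l} :=
    (Polynomial.finite_setOfPred_isRoot M.charpoly_monic.ne_zero).countable.ae_notMem volume
  filter_upwards [h2] with l hl
  have hl' : (l • (1 : Matrix (Fin n) (Fin n) ℂ) - M).det ≠ 0 := by
    rw [← cover_eval_charpoly]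
    exact hl
  rw [coverP_div M _ _ l hl', coverP_deriv M _ _ l hl']

end MPF
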