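import Mathlib
import Pool.Agent.Hhelper97.Sph.Assemble
import Pool.Agent.SphFH.Barnes

/-!
# Multi-point Fisher-Hartwig asymptotics for the spherical ensemble: definitions

`V = Fin 2 → ℂ`. `coh N z` is the (unnormalised) coherent vector `z^{⊗N}` in the symmetric
power, written in the orthonormal basis; `sph` is the uniform probability measure on the unit
sphere of `ℂ²`; `opM N g` is the operator `(N+1) ∫ g(z) ⊗ coh(z)^* d sph`;
`sym N A` is the `N`-th symmetric power of the `2 × 2` matrix `A`;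
`fN N m φ` is `φ(N_m)`, where `N_m` is the number operator in the direction of the unit vector `m`.
-/

open MeasureTheory Matrix Finset Filter Topology
open scoped ENNReal ComplexConjugate

namespace MPF

/-- The Euclidean norm. -/
noncomputable def nr {ι : Type*} [Fintype ι] (v : ι → ℂ) : ℝ := Real.sqrt (Sph.nsq v)

/-- The hermitian product, conjugate linear in the first variable. -/
noncomputable def hp {ι : Type*} [Fintype ι] (v w : ι → ℂ) : ℂ := ∑ i, conj (v i) * w i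

/-- The Frobenius norm. -/
noncomputable def fro {ι κ : Type*} [Fintype ι] [Fintype κ] (A : Matrix ι κ ℂ) : ℝ :=
  Real.sqrt (∑ i, ∑ j, ‖A i j‖ ^ 2)

/-- The coherent vector `z^{⊗N}`. -/
noncomputable def coh (N : ℕ) (z : Fin 2 → ℂ) : Fin (N + 1) → ℂ := fun j =>
  ((Real.sqrt (N.choose j) : ℝ) : ℂ) * z 0 ^ (j : ℕ) * z 1 ^ (N - (j : ℕ))

/-- The symmetric power of a `2 × 2` matrix. -/
noncomputable def sym (N : ℕ) (A : Matrix (Fin 2) (Fin 2) ℂ) :
    Matrix (Fin (N + 1)) (Fin (N + 1)) ℂ :=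
  Matrix.of fun i j => ((Real.sqrt (N.choose i) / Real.sqrt (N.choose j) : ℝ) : ℂ) *
    (((Polynomial.C (A 0 0) * Polynomial.X + Polynomial.C (A 0 1)) ^ (i : ℕ) *
      (Polynomial.C (A 1 0) * Polynomial.X + Polynomial.C (A 1 1)) ^ (N - (i : ℕ))).coeff j)

/-- A unitary matrix with first column `m` (if `m` is a unit vector). -/
noncomputable def gm (m : Fin 2 → ℂ) : Matrix (Fin 2) (Fin 2) ℂ :=
  !![m 0, -conj (m 1); m 1, conj (m 0)]

/-- `φ(N_m)`: the function `φ` of the number operator in direction `m`. -/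
noncomputable def fN (N : ℕ) (m : Fin 2 → ℂ) (φ : ℕ → ℂ) :
    Matrix (Fin (N + 1)) (Fin (N + 1)) ℂ :=
  sym N (gm m) * Matrix.diagonal (fun j : Fin (N + 1) => φ j) * (sym N (gm m))ᴴ

/-- The uniform probability measure on the unit sphere of `ℂ²`. -/
noncomputable def sph : Measure (Fin 2 → ℂ) :=
  (Sph.G (Fin 2)).map fun z => (((nr z)⁻¹ : ℝ) : ℂ) • z

/-- `|⟨m, z⟩|²`. -/
noncomputable def xx (m z : Fin 2 → ℂ) : ℝ := ‖hp m z‖ ^ 2

/-- The operator `(N+1) ∫ g(z) ⊗ coh(z)^* d sph(z)`. -/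
noncomputable def opM (N : ℕ) (g : (Fin 2 → ℂ) → Fin (N + 1) → ℂ) :
    Matrix (Fin (N + 1)) (Fin (N + 1)) ℂ :=
  Matrix.of fun a b => ((N : ℂ) + 1) * ∫ z, g z a * conj (coh N z b) ∂sph

/-- The Toeplitz operator with symbol `F`. -/
noncomputable def toep (N : ℕ) (F : (Fin 2 → ℂ) → ℂ) : Matrix (Fin (N + 1)) (Fin (N + 1)) ℂ :=
  opM N fun z => F z • coh N z

/-- The eigenvalues of the Toeplitz operator with symbol `|⟨m, z⟩|^(2s)`. -/
noncomputable def lam (N : ℕ) (s : ℂ) (j : ℕ) : ℂ :=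
  Complex.Gamma (j + 1 + s) * Complex.Gamma (N + 2) /
    (Complex.Gamma (j + 1) * Complex.Gamma (N + 2 + s))

/-- `x^s / lam`. -/
noncomputable def pp (N : ℕ) (s : ℂ) (x : ℝ) (j : ℕ) : ℂ := (x : ℂ) ^ s * (lam N s j)⁻¹

/-- The Fisher-Hartwig symbol `∏ |⟨m_i, z⟩|^(2 s_i)`. -/
noncomputable def FF {K : ℕ} (m : Fin K → Fin 2 → ℂ) (s : Fin K → ℂ) (z : Fin 2 → ℂ) : ℂ :=
  ∏ i, (xx (m i) z : ℂ) ^ s i

/-- The operator `Q_i(z) = x_i^{s_i} D_i^{-1} - 1`. -/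
noncomputable def Qop {K : ℕ} (N : ℕ) (m : Fin K → Fin 2 → ℂ) (s : Fin K → ℂ)
    (z : Fin 2 → ℂ) (i : Fin K) : Matrix (Fin (N + 1)) (Fin (N + 1)) ℂ :=
  fN N (m i) (fun j => pp N (s i) (xx (m i) z) j - 1)

/-- The majorant `(1 + M^{-a}) (1 + M)^{-1/2}`. -/
noncomputable def Gf (a M : ℝ) : ℝ := (1 + M ^ (-a)) * (1 + M) ^ (-(1 / 2) : ℝ)

/-- `max (-Re s) 0`. -/
noncomputable def aa (s : ℂ) : ℝ := max (-s.re) 0

/-- The window `|j - M| ≤ N^η (√M + N^η)`. -/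
def win (N : ℕ) (η M : ℝ) (j : ℕ) : Prop :=
  |(j : ℝ) - M| ≤ (N : ℝ) ^ η * (Real.sqrt M + (N : ℝ) ^ η)

/-- The weight `det(1 + M^* M)^{-κ}`. -/
noncomputable def wt {n : ℕ} (κ : ℝ) (M : Fin n → Fin n → ℂ) : ℝ≥0∞ :=
  ENNReal.ofReal ((1 + (Matrix.of M)ᴴ * Matrix.of M).det.re ^ (-κ))

/-- The direction of the point `z` of the plane: `|⟨zdir z, (λ,1)⟩| = |z - λ|/√(1+|z|²)`. -/
noncomputable def zdir (z : ℂ) : Fin 2 → ℂ :=
  ((((Real.sqrt (1 + ‖z‖ ^ 2))⁻¹ : ℝ)) : ℂ) • ![-1, conj z]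

/-- The direction of the point at infinity. -/
def minf : Fin 2 → ℂ := ![0, 1]

end MPF
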