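import Pool.Agent.MPF.Vec

/-!
# MPF/DetExp: `det (1 + K) → e^t` when `‖K‖_HS → 0` and `tr K → t`

PROOF. For a complex square matrix `K` with `fro K ≤ 1/2` put
`φ(t) = det(1 + t K) exp(- t tr K)`, `0 ≤ t ≤ 1`. `1 + tK` is invertible with
`‖(1+tK)^{-1}‖ ≤ 2` (operator norm, Neumann series or the lower bound
`nr ((1+tK) v) ≥ nr v / 2`), and by Jacobi's formula
`φ'(t) = φ(t) (tr((1+tK)^{-1} K) - tr K) = - t φ(t) tr((1+tK)^{-1} K K)`,
`|tr((1+tK)^{-1} K K)| ≤ fro((1+tK)^{-1} K) fro K ≤ 2 (fro K)²`. So `|φ'| ≤ 2 (fro K)² |φ|` and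
Gronwall (`φ(0) = 1`) gives `|φ(1) - 1| ≤ exp(2 (fro K)²) - 1`. Then `det(1+K) = φ(1) e^{tr K}`.
(ALTERNATIVE without derivatives of `det`: `det(1 + zK) = ∏ (1 + z μ_j)` over the roots `μ_j` of the
characteristic polynomial; Schur's inequality `∑ |μ_j|² ≤ (fro K)²`.) Jacobi's formula: the entries of
`1 + tK` are affine in `t`; `Matrix.det` is a polynomial in `t`, and
`derivative at t` of `det(1+tK)` = `det(1+tK)` times the derivative at `0` of
`det(1 + h (1+tK)^{-1}K)`, which is the trace (`Matrix.derivative_det_one_add_X_smul`,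
`Matrix.det_one_add_smul`).
-/

open MeasureTheory Matrix Finset Filter Topology
open scoped ENNReal ComplexConjugate

namespace MPF

private lemma DetExp_eval {ι : Type*} [Fintype ι] [DecidableEq ι] (K : Matrix ι ι ℂ) (h : ℂ) :
    Polynomial.eval h (1 + (Polynomial.X : Polynomial ℂ) • K.map Polynomial.C).det =
      (1 + h • K).det := by
  have h1 := RingHom.map_det (Polynomial.evalRingHom h)
    (1 + (Polynomial.X : Polynomial ℂ) • K.map Polynomial.C)
  rw [Polynomial.coe_evalRingHom] at h1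
  rw [h1]
  congr 1
  ext i j
  by_cases hij : i = j
  · subst hij
    simp [RingHom.mapMatrix_apply]
    ring
  · simp [RingHom.mapMatrix_apply, Matrix.one_apply_ne hij]
    ring

private lemma DetExp_deriv {ι : Type*} [Fintype ι] [DecidableEq ι] (K M : Matrix ι ι ℂ) (t : ℂ)
    (hM : (1 + t • K) * M = K) :
    HasDerivAt (fun s : ℂ => (1 + s • K).det) ((1 + t • K).det * M.trace) t := by
  set P : Polynomial ℂ := (1 + (Polynomial.X : Polynomial ℂ) • K.map Polynomial.C).det with hP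
  set Q : Polynomial ℂ := (1 + (Polynomial.X : Polynomial ℂ) • M.map Polynomial.C).det with hQ
  have h1 : P.comp (Polynomial.X + Polynomial.C t) = Polynomial.C (1 + t • K).det * Q := by
    apply Polynomial.funext
    intro h
    rw [Polynomial.eval_comp, Polynomial.eval_add, Polynomial.eval_X, Polynomial.eval_C,
      Polynomial.eval_mul, Polynomial.eval_C, hP, hQ, DetExp_eval, DetExp_eval, ← Matrix.det_mul]
    congr 1
    rw [Matrix.mul_add, Matrix.mul_one, Matrix.mul_smul, hM, add_smul]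
    abel
  have h2 : Polynomial.eval 0 (Polynomial.derivative (P.comp (Polynomial.X + Polynomial.C t))) =
      Polynomial.eval 0 (Polynomial.derivative (Polynomial.C (1 + t • K).det * Q)) := by
    rw [h1]
  rw [Polynomial.derivative_comp, Polynomial.derivative_C_mul, Polynomial.eval_mul,
    Polynomial.eval_comp, Polynomial.eval_mul, Polynomial.eval_C, hQ,
    Matrix.derivative_det_one_add_X_smul] at h2
  simp only [Polynomial.derivative_add, Polynomial.derivative_X, Polynomial.derivative_C, add_zero,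
    Polynomial.eval_one, one_mul, Polynomial.eval_add, Polynomial.eval_X, Polynomial.eval_C,
    zero_add] at h2
  have h3 := P.hasDerivAt t
  rw [h2] at h3
  have h4 : (fun s : ℂ => (1 + s • K).det) = fun s => Polynomial.eval s P := by
    funext s
    rw [hP, DetExp_eval]
  rw [h4]
  exact h3

/-- the resolvent -/
private lemma DetExp_res {ι : Type*} [Fintype ι] [DecidableEq ι] (K : Matrix ι ι ℂ)
    (hK : fro K ≤ 1 / 2) {t : ℝ} (ht0 : 0 ≤ t) (ht1 : t ≤ 1) :
    ∃ M : Matrix ι ι ℂ, (1 + (t : ℂ) • K) * M = K ∧ ‖M.trace - K.trace‖ ≤ 2 * fro K ^ 2 := by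
  have htK : fro ((t : ℂ) • K) ≤ 1 / 2 := by
    rw [fro_smul, Complex.norm_real, Real.norm_eq_abs, abs_of_nonneg ht0]
    have := fro_nonneg K
    nlinarith
  have hdet : (1 + (t : ℂ) • K).det ≠ 0 := by
    intro h0
    obtain ⟨v, hv0, hv⟩ := Matrix.exists_mulVec_eq_zero_iff.2 h0
    rw [Matrix.add_mulVec, Matrix.one_mulVec] at hv
    have h1 : v = -(((t : ℂ) • K) *ᵥ v) := eq_neg_of_add_eq_zero_left hv
    have h2 : nr v ≤ 1 / 2 * nr v := by
      calc nr v = nr (-(((t : ℂ) • K) *ᵥ v)) := by rw [← h1]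
        _ = nr (((t : ℂ) • K) *ᵥ v) := nr_neg _
        _ ≤ fro ((t : ℂ) • K) * nr v := nr_mulVec_le_fro _ _
        _ ≤ 1 / 2 * nr v := mul_le_mul_of_nonneg_right htK (nr_nonneg v)
    have h3 : nr v = 0 := le_antisymm (by linarith) (nr_nonneg v)
    exact hv0 (nr_eq_zero h3)
  have hunit : IsUnit (1 + (t : ℂ) • K).det := isUnit_iff_ne_zero.2 hdet
  refine ⟨(1 + (t : ℂ) • K)⁻¹ * K, ?_, ?_⟩
  · rw [← Matrix.mul_assoc, Matrix.mul_nonsing_inv _ hunit, Matrix.one_mul]
  · set M := (1 + (t : ℂ) • K)⁻¹ * K with hM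
    have e1 : (1 + (t : ℂ) • K) * M = K := by
      rw [hM, ← Matrix.mul_assoc, Matrix.mul_nonsing_inv _ hunit, Matrix.one_mul]
    have e2 : M * (1 + (t : ℂ) • K) = K := by
      have hcomm : K * (1 + (t : ℂ) • K) = (1 + (t : ℂ) • K) * K := by
        rw [Matrix.mul_add, Matrix.add_mul, Matrix.mul_one, Matrix.one_mul, Matrix.mul_smul,
          Matrix.smul_mul]
      rw [hM, Matrix.mul_assoc, hcomm, ← Matrix.mul_assoc, Matrix.nonsing_inv_mul _ hunit,
        Matrix.one_mul]
    have e3 : M = K + -((t : ℂ) • (M * K)) := by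
      rw [Matrix.mul_add, Matrix.mul_one, Matrix.mul_smul] at e2
      rw [← sub_eq_add_neg, eq_sub_iff_add_eq]
      exact e2
    have hfM0 := fro_nonneg M
    have hfK0 := fro_nonneg K
    have hfM : fro M ≤ 2 * fro K := by
      have h1 : fro M ≤ fro K + t * (fro M * fro K) := by
        calc fro M = fro (K + -((t : ℂ) • (M * K))) := by rw [← e3]
          _ ≤ fro K + fro (-((t : ℂ) • (M * K))) := fro_add_le _ _
          _ = fro K + t * fro (M * K) := by
            rw [fro_neg, fro_smul, Complex.norm_real, Real.norm_eq_abs, abs_of_nonneg ht0]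
          _ ≤ fro K + t * (fro M * fro K) := by
            have := mul_le_mul_of_nonneg_left (fro_mul_le M K) ht0
            linarith
      have h2 : t * (fro M * fro K) ≤ 1 * (fro M * (1 / 2)) :=
        mul_le_mul ht1 (mul_le_mul_of_nonneg_left hK hfM0) (mul_nonneg hfM0 hfK0) zero_le_one
      linarith
    have e4 : M.trace - K.trace = -((t : ℂ) * (M * K).trace) := by
      have h3 := congrArg Matrix.trace e3
      rw [Matrix.trace_add, Matrix.trace_neg, Matrix.trace_smul, smul_eq_mul] at h3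
      rw [h3]
      ring
    rw [e4, norm_neg, norm_mul, Complex.norm_real, Real.norm_eq_abs, abs_of_nonneg ht0]
    calc t * ‖(M * K).trace‖ ≤ 1 * (fro M * fro K) :=
          mul_le_mul ht1 (norm_trace_mul_le M K) (norm_nonneg _) zero_le_one
      _ ≤ 1 * (2 * fro K * fro K) := by
          apply mul_le_mul_of_nonneg_left _ zero_le_one
          exact mul_le_mul_of_nonneg_right hfM hfK0
      _ = 2 * fro K ^ 2 := by ring

theorem norm_det_one_add_sub_le {ι : Type*} [Fintype ι] [DecidableEq ι] (K : Matrix ι ι ℂ)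
    (hK : fro K ≤ 1 / 2) :
    ‖(1 + K).det * Complex.exp (-K.trace) - 1‖ ≤ Real.exp (2 * fro K ^ 2) - 1 := by
  obtain ⟨c, hc⟩ : ∃ c, c = 2 * fro K ^ 2 := ⟨_, rfl⟩
  have hc0 : 0 ≤ c := by rw [hc]; positivity
  -- the function
  set f : ℝ → ℂ := fun s => (1 + (s : ℂ) • K).det * Complex.exp (-((s : ℂ) * K.trace)) - 1 with hf
  have hder : ∀ s : ℝ, 0 ≤ s → s ≤ 1 → ∃ f' : ℂ, HasDerivAt f f' s ∧ ‖f'‖ ≤ c * ‖f s‖ + c := by
    intro s hs0 hs1
    obtain ⟨M, hM1, hM2⟩ := DetExp_res K hK hs0 hs1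
    have h1 := DetExp_deriv K M (s : ℂ) hM1
    have h2 : HasDerivAt (fun z : ℂ => Complex.exp (-(z * K.trace)))
        (Complex.exp (-((s : ℂ) * K.trace)) * (-(1 * K.trace))) (s : ℂ) :=
      (((hasDerivAt_id (s : ℂ)).mul_const K.trace).neg).cexp
    have h3 := ((h1.mul h2).sub_const 1).comp_ofReal
    refine ⟨_, h3, ?_⟩
    have e : (1 + (s : ℂ) • K).det * M.trace * Complex.exp (-((s : ℂ) * K.trace)) +
        (1 + (s : ℂ) • K).det * (Complex.exp (-((s : ℂ) * K.trace)) * (-(1 * K.trace))) =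
        (f s + 1) * (M.trace - K.trace) := by
      rw [hf]
      ring
    rw [e, norm_mul, hc]
    calc ‖f s + 1‖ * ‖M.trace - K.trace‖ ≤ (‖f s‖ + 1) * (2 * fro K ^ 2) := by
          apply mul_le_mul _ hM2 (norm_nonneg _) (by positivity)
          calc ‖f s + 1‖ ≤ ‖f s‖ + ‖(1 : ℂ)‖ := norm_add_le _ _
            _ = ‖f s‖ + 1 := by rw [norm_one]
      _ = 2 * fro K ^ 2 * ‖f s‖ + 2 * fro K ^ 2 := by ring
  choose! f' hf1 hf2 using hder
  have hgron := norm_le_gronwallBound_of_norm_deriv_right_le (f := f) (f' := f') (δ := 0) (K := c)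
    (ε := c) (a := 0) (b := 1)
    (fun s hs => (hf1 s hs.1 hs.2).continuousAt.continuousWithinAt)
    (fun s hs => (hf1 s hs.1 hs.2.le).hasDerivWithinAt)
    (by simp [hf]) (fun s hs => hf2 s hs.1 hs.2.le) 1 (Set.right_mem_Icc.2 zero_le_one)
  have hf1' : f 1 = (1 + K).det * Complex.exp (-K.trace) - 1 := by
    rw [hf]
    simp
  rw [hf1', sub_zero] at hgron
  rw [← hc]
  refine hgron.trans ?_
  by_cases h0 : c = 0
  · rw [h0, gronwallBound_K0]
    simp
  · rw [gronwallBound_of_K_ne_0 h0, div_self h0]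
    simp

theorem det_one_add_tendsto (K : (N : ℕ) → Matrix (Fin (N + 1)) (Fin (N + 1)) ℂ) {t : ℂ}
    (h1 : Tendsto (fun N => fro (K N)) atTop (𝓝 0))
    (h2 : Tendsto (fun N => (K N).trace) atTop (𝓝 t)) :
    Tendsto (fun N => (1 + K N).det) atTop (𝓝 (Complex.exp t)) := by
  have hev : ∀ᶠ N in atTop, fro (K N) ≤ 1 / 2 :=
    (h1.eventually_lt_const (by norm_num : (0 : ℝ) < 1 / 2)).mono (fun N hN => hN.le)
  have hlim : Tendsto (fun N => Real.exp (2 * fro (K N) ^ 2) - 1) atTop (𝓝 0) := by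
    have h3 : Tendsto (fun N => 2 * fro (K N) ^ 2) atTop (𝓝 0) := by
      have := (h1.pow 2).const_mul 2
      simpa using this
    have h4 := ((Real.continuous_exp.tendsto 0).comp h3).sub_const 1
    simpa using h4
  have h5 : Tendsto (fun N => (1 + K N).det * Complex.exp (-(K N).trace)) atTop (𝓝 1) := by
    rw [tendsto_iff_norm_sub_tendsto_zero]
    refine squeeze_zero' (Eventually.of_forall (fun N => norm_nonneg _)) ?_ hlim
    filter_upwards [hev] with N hN
    exact norm_det_one_add_sub_le (K N) hN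
  have h6 : Tendsto (fun N => Complex.exp (K N).trace) atTop (𝓝 (Complex.exp t)) :=
    (Complex.continuous_exp.tendsto t).comp h2
  have h7 := h5.mul h6
  rw [one_mul] at h7
  refine h7.congr (fun N => ?_)
  rw [mul_assoc, ← Complex.exp_add, neg_add_cancel, Complex.exp_zero, mul_one]

end MPF
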