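import Pool.Agent.MPF.GamQ

/-!
# MPF/DetProd: asymptotics of the product of the determinants of the pure Toeplitz operators

PROOF. `∏_{j=0}^{N} lam N s j = ∏_{k=1}^{N+1} (1 + s/k)^{-k}`: `lam N s j = ∏_{k=j+1}^{N+1} k/(k+s)`
(Gamma recursion), exchange the products. With `Sph.bFac s k = (1 + s/(k+1))^{k+1} exp(s²/(2(k+1)) - s)`
this is `exp(s² H_n/2 - n s) / ∏_{k<n} bFac s k`, `n = N+1`, `H_n` the harmonic number. Take the
product over `i`, `∑ s_i = 0`: `exp(½ ∑ s_i² H_n) / ∏_i ∏_{k<n} bFac (s_i) k`. By definition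
`barnesG (1+s) = (2π)^{s/2} exp(-(s + (1+c)s²)/2) ∏'_k bFac s k`, `c` Euler's constant, so (again
`∑ s_i = 0`) `∏_i barnesG (1+s_i) = exp(-(1+c)/2 ∑ s_i²) ∏_i ∏'_k bFac (s_i) k`. The quotient in the
statement is `exp(½ ∑ s_i² (H_n - c - log n)) ∏_i (∏'_k bFac/∏_{k<n} bFac) → 1`
(`Sph.hasProd_bFac`, the limit `exp (∑' bLog)` is not 0; `Real.tendsto_harmonic_sub_log`). Note `(2π)^{s/2}`:
`Complex.cpow` with a positive real base, `∏_i (2π)^{s_i/2} = (2π)^{∑ s_i/2} = 1`.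
-/

open MeasureTheory Matrix Finset Filter Topology
open scoped ENNReal ComplexConjugate

namespace MPF

theorem DetProd_two_pi : (2 * Real.pi : ℂ) ≠ 0 := by
  have : (Real.pi : ℂ) ≠ 0 := by exact_mod_cast Real.pi_ne_zero
  simp [this]

theorem barnesG_ne_zero {s : ℂ} (hs : -1 < s.re) : Sph.barnesG (1 + s) ≠ 0 := by
  rw [Sph.barnesG, add_sub_cancel_left, (Sph.hasProd_bFac hs).tprod_eq]
  refine mul_ne_zero (mul_ne_zero ?_ (Complex.exp_ne_zero _)) (Complex.exp_ne_zero _)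
  rw [Complex.cpow_def_of_ne_zero DetProd_two_pi]
  exact Complex.exp_ne_zero _

/-- The product of the eigenvalues, in terms of `n = N + 1`. -/
noncomputable def DetProd_d (s : ℂ) (n : ℕ) : ℂ :=
  (∏ j ∈ range n, (Complex.Gamma (j + 1 + s) / Complex.Gamma (j + 1))) *
    (Complex.Gamma (n + 1) / Complex.Gamma (n + 1 + s)) ^ n

theorem DetProd_eq_d (s : ℂ) (N : ℕ) :
    ∏ j ∈ range (N + 1), lam N s j = DetProd_d s (N + 1) := by
  have h : ∀ j ∈ range (N + 1), lam N s j =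
      (Complex.Gamma (j + 1 + s) / Complex.Gamma (j + 1)) *
        (Complex.Gamma ((N + 1 : ℕ) + 1) / Complex.Gamma ((N + 1 : ℕ) + 1 + s)) := by
    intro j _
    have e : (((N + 1 : ℕ) : ℂ) + 1) = (N : ℂ) + 2 := by push_cast; ring
    rw [lam, e, div_mul_div_comm]
  rw [Finset.prod_congr rfl h, Finset.prod_mul_distrib, Finset.prod_const, card_range, DetProd_d]

theorem DetProd_d_succ {s : ℂ} (hs : -1 < s.re) (n : ℕ) :
    DetProd_d s (n + 1) * (1 + s / ((n : ℂ) + 1)) ^ (n + 1) = DetProd_d s n := by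
  have g1 := GamQ_Gamma_ne hs n
  have g2 := GamQ_Gamma_ne' n
  have hn : ((n : ℂ) + 1) ≠ 0 := by exact_mod_cast Nat.succ_ne_zero n
  have hns : ((n : ℂ) + 1 + s) ≠ 0 := by
    have := Sph.one_add_div_ne hs n
    intro h
    apply this
    have e : 1 + s / ((n : ℂ) + 1) = ((n : ℂ) + 1 + s) / ((n : ℂ) + 1) := by
      field_simp
    rw [e, h, zero_div]
  have e1 : Complex.Gamma (((n + 1 : ℕ) : ℂ) + 1 + s) =
      ((n : ℂ) + 1 + s) * Complex.Gamma ((n : ℂ) + 1 + s) := by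
    rw [← Complex.Gamma_add_one _ hns]; push_cast; ring_nf
  have e2 : Complex.Gamma (((n + 1 : ℕ) : ℂ) + 1) =
      ((n : ℂ) + 1) * Complex.Gamma ((n : ℂ) + 1) := by
    rw [← Complex.Gamma_add_one _ hn]; push_cast; ring_nf
  have e3 : (1 + s / ((n : ℂ) + 1)) = ((n : ℂ) + 1 + s) / ((n : ℂ) + 1) := by
    field_simp
  rw [DetProd_d, DetProd_d, e1, e2, e3, Finset.prod_range_succ]
  have h4 : (((n : ℂ) + 1) * Complex.Gamma ((n : ℂ) + 1) /
      (((n : ℂ) + 1 + s) * Complex.Gamma ((n : ℂ) + 1 + s))) ^ (n + 1) *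
      (((n : ℂ) + 1 + s) / ((n : ℂ) + 1)) ^ (n + 1) =
      (Complex.Gamma ((n : ℂ) + 1) / Complex.Gamma ((n : ℂ) + 1 + s)) ^ (n + 1) := by
    rw [← mul_pow]
    congr 1
    field_simp
  rw [mul_assoc, h4, pow_succ]
  have h5 : Complex.Gamma ((n : ℂ) + 1 + s) / Complex.Gamma ((n : ℂ) + 1) *
      (Complex.Gamma ((n : ℂ) + 1) / Complex.Gamma ((n : ℂ) + 1 + s)) = 1 := by
    field_simp
  linear_combination (∏ j ∈ range n, (Complex.Gamma (j + 1 + s) / Complex.Gamma (j + 1))) *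
    (Complex.Gamma ((n : ℂ) + 1) / Complex.Gamma ((n : ℂ) + 1 + s)) ^ n * h5

theorem DetProd_bFac_ne {s : ℂ} (hs : -1 < s.re) (k : ℕ) : Sph.bFac s k ≠ 0 := by
  rw [← Sph.exp_bLog (Sph.one_add_div_ne hs k)]
  exact Complex.exp_ne_zero _

theorem DetProd_d_eq {s : ℂ} (hs : -1 < s.re) (n : ℕ) :
    DetProd_d s n * ∏ k ∈ range n, Sph.bFac s k =
      Complex.exp (s ^ 2 * ((harmonic n : ℚ) : ℂ) / 2 - n * s) := by
  induction n with
  | zero => simp [DetProd_d]
  | succ n ih =>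
    have h1 := DetProd_d_succ hs n
    have hn : ((n : ℂ) + 1) ≠ 0 := by exact_mod_cast Nat.succ_ne_zero n
    rw [Finset.prod_range_succ, Sph.bFac]
    have h2 : Complex.exp (s ^ 2 * ((harmonic (n + 1) : ℚ) : ℂ) / 2 - ((n + 1 : ℕ) : ℂ) * s) =
        Complex.exp (s ^ 2 * ((harmonic n : ℚ) : ℂ) / 2 - n * s) *
          Complex.exp (s ^ 2 / (2 * ((n : ℂ) + 1)) - s) := by
      rw [← Complex.exp_add]
      congr 1
      rw [harmonic_succ]
      push_cast
      field_simp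
      ring
    rw [h2, ← ih]
    linear_combination (∏ k ∈ range n, Sph.bFac s k) *
      Complex.exp (s ^ 2 / (2 * ((n : ℂ) + 1)) - s) * h1

theorem det_prod_asymp {K : ℕ} (s : Fin K → ℂ) (hs : ∀ i, -1 < (s i).re) (h0 : ∑ i, s i = 0) :
    Tendsto (fun N : ℕ => (∏ i, ∏ j ∈ range (N + 1), lam N (s i) j) *
      (∏ i, Sph.barnesG (1 + s i)) /
        (((N + 1 : ℕ) : ℂ) ^ ((∑ i, s i ^ 2) / 2) * Complex.exp (-(∑ i, s i ^ 2) / 2)))
      atTop (𝓝 1) := by
  set S : ℂ := ∑ i, s i ^ 2 with hS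
  -- the model
  have hmain : ∀ N : ℕ, (∏ i, ∏ j ∈ range (N + 1), lam N (s i) j) *
      (∏ i, Sph.barnesG (1 + s i)) /
        (((N + 1 : ℕ) : ℂ) ^ (S / 2) * Complex.exp (-S / 2)) =
      Complex.exp (S / 2 * ((((harmonic (N + 1) : ℚ) : ℝ) - Real.log ((N + 1 : ℕ) : ℝ) -
        Real.eulerMascheroniConstant : ℝ) : ℂ)) *
      ∏ i, ((∏' k, Sph.bFac (s i) k) / ∏ k ∈ range (N + 1), Sph.bFac (s i) k) := by
    intro N
    have hprod : ∀ i, (∏ k ∈ range (N + 1), Sph.bFac (s i) k) ≠ 0 := fun i =>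
      Finset.prod_ne_zero_iff.2 fun k _ => DetProd_bFac_ne (hs i) k
    have h1 : ∀ i, (∏ j ∈ range (N + 1), lam N (s i) j) * Sph.barnesG (1 + s i) =
        Complex.exp (s i ^ 2 * (((harmonic (N + 1) : ℚ) : ℂ) - 1 -
            Real.eulerMascheroniConstant) / 2 +
          s i * (Complex.log (2 * Real.pi) / 2 - 1 / 2 - ((N + 1 : ℕ) : ℂ))) *
        ((∏' k, Sph.bFac (s i) k) / ∏ k ∈ range (N + 1), Sph.bFac (s i) k) := by
      intro i
      have h2 := DetProd_d_eq (hs i) (N + 1)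
      rw [DetProd_eq_d, Sph.barnesG, add_sub_cancel_left,
        Complex.cpow_def_of_ne_zero DetProd_two_pi, ← Complex.exp_add]
      have h3 : Complex.exp (s i ^ 2 * (((harmonic (N + 1) : ℚ) : ℂ) - 1 -
            Real.eulerMascheroniConstant) / 2 +
          s i * (Complex.log (2 * Real.pi) / 2 - 1 / 2 - ((N + 1 : ℕ) : ℂ))) =
          Complex.exp (s i ^ 2 * ((harmonic (N + 1) : ℚ) : ℂ) / 2 - ((N + 1 : ℕ) : ℂ) * s i) *
          Complex.exp (Complex.log (2 * Real.pi) * (s i / 2) +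
            -(s i + (1 + Real.eulerMascheroniConstant) * s i ^ 2) / 2) := by
        rw [← Complex.exp_add]
        congr 1
        ring
      have hpi := hprod i
      rw [h3, ← h2]
      field_simp
    rw [← Finset.prod_mul_distrib, Finset.prod_congr rfl fun i _ => h1 i,
      Finset.prod_mul_distrib, ← Complex.exp_sum, Finset.sum_add_distrib, ← Finset.sum_mul, h0,
      zero_mul, add_zero, ← Finset.sum_div, ← Finset.sum_mul, ← hS]
    have hN : (((N + 1 : ℕ) : ℝ)) > 0 := by positivity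
    have h5 : (((N + 1 : ℕ) : ℂ)) ^ (S / 2) =
        Complex.exp (S / 2 * (Real.log ((N + 1 : ℕ) : ℝ) : ℝ)) := by
      have := GamQ_cpow ((N + 1 : ℕ) : ℝ) hN (S / 2)
      rwa [Complex.ofReal_natCast] at this
    rw [h5, ← Complex.exp_add, mul_div_right_comm, ← Complex.exp_sub]
    congr 2
    push_cast
    ring
  refine Tendsto.congr (fun N => (hmain N).symm) ?_
  have hA : Tendsto (fun N : ℕ => (((harmonic (N + 1) : ℚ) : ℝ) - Real.log ((N + 1 : ℕ) : ℝ) -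
        Real.eulerMascheroniConstant : ℝ)) atTop (𝓝 0) := by
    have h1 := (Real.tendsto_harmonic_sub_log.comp (tendsto_add_atTop_nat 1)).sub_const
      Real.eulerMascheroniConstant
    simpa using h1
  have hB : Tendsto (fun N : ℕ => Complex.exp (S / 2 * ((((harmonic (N + 1) : ℚ) : ℝ) -
      Real.log ((N + 1 : ℕ) : ℝ) - Real.eulerMascheroniConstant : ℝ) : ℂ))) atTop (𝓝 1) := by
    have h1 : Tendsto (fun N : ℕ => S / 2 * ((((harmonic (N + 1) : ℚ) : ℝ) -
      Real.log ((N + 1 : ℕ) : ℝ) - Real.eulerMascheroniConstant : ℝ) : ℂ)) atTop (𝓝 (S / 2 * 0)) :=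
      ((Complex.continuous_ofReal.tendsto 0).comp hA).const_mul _
    rw [mul_zero] at h1
    have h2 := (Complex.continuous_exp.tendsto 0).comp h1
    rwa [Complex.exp_zero] at h2
  have hC : Tendsto (fun N : ℕ => ∏ i, ((∏' k, Sph.bFac (s i) k) /
      ∏ k ∈ range (N + 1), Sph.bFac (s i) k)) atTop (𝓝 (∏ i : Fin K, (1 : ℂ))) := by
    refine tendsto_finsetProd _ fun i _ => ?_
    have h1 := Sph.hasProd_bFac (hs i)
    have h2 : Tendsto (fun N : ℕ => ∏ k ∈ range (N + 1), Sph.bFac (s i) k) atTop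
        (𝓝 (∏' k, Sph.bFac (s i) k)) := by
      rw [h1.tprod_eq]
      exact h1.tendsto_prod_nat.comp (tendsto_add_atTop_nat 1)
    have h3 : (∏' k, Sph.bFac (s i) k) ≠ 0 := by
      rw [h1.tprod_eq]
      exact Complex.exp_ne_zero _
    have h4 := h2.inv₀ h3
    have h5 := h4.const_mul (∏' k, Sph.bFac (s i) k)
    rw [mul_inv_cancel₀ h3] at h5
    exact h5
  rw [Finset.prod_const_one] at hC
  simpa using hB.mul hC

end MPF
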