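import Pool.Agent.MPF.Defs

/-!
# MPF/Ratio: the law of `A B^{-1}`

PROOF. `Sph.G_eq`: density `exp(-tr A^*A - tr B^*B)/π^{2n²}`. For fixed `B` with `det B ≠ 0` substitute `A = M B`: the map `M ↦ M B` on
`Fin n → Fin n → ℂ` is ℂ-linear with determinant `(det B)^n`, real Jacobian `|det B|^{2n}`. Exchange the integrals; for fixed `M` the
exponent is `-tr B^*(1 + M^*M)B`; substitute `B = S^{-1} B'`, `S^*S = 1 + M^*M` (`S` invertible, e.g. from positive definiteness:
`Matrix.PosDef` square root or Cholesky type lemma): `dB = |det S|^{-2n} dB'`, `|det B|^{2n} = |det S|^{-2n}|det B'|^{2n}`,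
total factor `|det S|^{-4n} = det(1+M^*M)^{-2n}`, and `C = π^{-2n²} ∫ |det B'|^{2n} exp(-tr B'^*B') dB'`, non-zero and finite (finite: apply the
identity with `φ = 1` on a small set or bound `|det|` by a polynomial; `Sph.integrable_W` with `a = n` gives it at once;
non-zero: the integrand is positive a.e., `Sph.ae_det_ne_zero`).
-/

open MeasureTheory Matrix Finset Filter Topology
open scoped ENNReal ComplexConjugate

namespace MPF

private theorem Ratio_haar (n : ℕ) :
    (volume : Measure (Fin n → Fin n → ℂ)).IsAddHaarMeasure := by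
  have h1 : (volume : Measure (Fin n → ℂ)).IsAddHaarMeasure := inferInstance
  have h2 : SigmaFinite (volume : Measure (Fin n → ℂ)) := inferInstance
  exact Measure.pi.isAddHaarMeasure (fun _ : Fin n => (volume : Measure (Fin n → ℂ)))

/-- right multiplication by a matrix -/
private noncomputable def Ratio_R {n : ℕ} (B : Matrix (Fin n) (Fin n) ℂ) :
    (Fin n → Fin n → ℂ) →ₗ[ℂ] (Fin n → Fin n → ℂ) :=
  LinearMap.pi fun i => (Matrix.toLin' Bᵀ).comp (LinearMap.proj i)

private theorem Ratio_R_apply {n : ℕ} (B : Matrix (Fin n) (Fin n) ℂ) (A : Fin n → Fin n → ℂ) :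
    Ratio_R B A = fun i j => (Matrix.of A * B) i j := by
  funext i j
  show (Matrix.toLin' Bᵀ (A i)) j = _
  rw [Matrix.toLin'_apply, Matrix.mulVec_transpose]
  rfl

private theorem Ratio_R_det {n : ℕ} (B : Matrix (Fin n) (Fin n) ℂ) :
    LinearMap.det (Ratio_R B) = B.det ^ n := by
  unfold Ratio_R
  rw [LinearMap.det_pi]
  simp only [LinearMap.det_toLin', Matrix.det_transpose, Finset.prod_const, Finset.card_univ,
    Fintype.card_fin]

/-- transposition -/
private def Ratio_T (n : ℕ) : (Fin n → Fin n → ℂ) ≃ₗ[ℂ] (Fin n → Fin n → ℂ) where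
  toFun A := fun i j => A j i
  invFun A := fun i j => A j i
  map_add' _ _ := rfl
  map_smul' _ _ := rfl
  left_inv _ := rfl
  right_inv _ := rfl

/-- left multiplication by a matrix -/
private noncomputable def Ratio_L {n : ℕ} (S : Matrix (Fin n) (Fin n) ℂ) :
    (Fin n → Fin n → ℂ) →ₗ[ℂ] (Fin n → Fin n → ℂ) :=
  (Ratio_T n : (Fin n → Fin n → ℂ) →ₗ[ℂ] (Fin n → Fin n → ℂ)) ∘ₗ Ratio_R Sᵀ ∘ₗ
    ((Ratio_T n).symm : (Fin n → Fin n → ℂ) →ₗ[ℂ] (Fin n → Fin n → ℂ))

private theorem Ratio_L_apply {n : ℕ} (S : Matrix (Fin n) (Fin n) ℂ) (A : Fin n → Fin n → ℂ) :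
    Ratio_L S A = fun i j => (S * Matrix.of A) i j := by
  funext i j
  show Ratio_R Sᵀ (fun i j => A j i) j i = _
  rw [Ratio_R_apply]
  show ((Matrix.of A)ᵀ * Sᵀ) j i = _
  rw [← Matrix.transpose_mul]
  rfl

private theorem Ratio_L_det {n : ℕ} (S : Matrix (Fin n) (Fin n) ℂ) :
    LinearMap.det (Ratio_L S) = S.det ^ n := by
  unfold Ratio_L
  rw [LinearMap.det_conj, Ratio_R_det, Matrix.det_transpose]

private theorem Ratio_change {n : ℕ} (L : (Fin n → Fin n → ℂ) →ₗ[ℂ] (Fin n → Fin n → ℂ))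
    (hL : LinearMap.det L ≠ 0) (F : (Fin n → Fin n → ℂ) → ℝ≥0∞) (hF : Measurable F) :
    ENNReal.ofReal (‖LinearMap.det L‖ ^ 2) * ∫⁻ x, F (L x) = ∫⁻ x, F x := by
  have h1 : LinearMap.det (L.restrictScalars ℝ) = ‖LinearMap.det L‖ ^ 2 := by
    rw [LinearMap.det_restrictScalars, Algebra.norm_complex_apply, Complex.normSq_eq_norm_sq]
  have h2 : 0 < ‖LinearMap.det L‖ ^ 2 := by
    have := norm_pos_iff.2 hL
    positivity
  have hm : Measurable (L.restrictScalars ℝ) :=
    (L.restrictScalars ℝ).continuous_of_finiteDimensional.measurable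
  have hh := Ratio_haar n
  have h3 : ∫⁻ x, F (L x) = ENNReal.ofReal |(‖LinearMap.det L‖ ^ 2)⁻¹| * ∫⁻ x, F x := by
    have h4 := lintegral_map (μ := (volume : Measure (Fin n → Fin n → ℂ))) hF hm
    rw [Measure.map_linearMap_addHaar_eq_smul_addHaar _ (by rw [h1]; exact h2.ne'), h1,
      lintegral_smul_measure, smul_eq_mul] at h4
    exact h4.symm
  rw [h3, ← mul_assoc, ← ENNReal.ofReal_mul h2.le, abs_of_pos (inv_pos.2 h2),
    mul_inv_cancel₀ h2.ne', ENNReal.ofReal_one, one_mul]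

/-- the squared Frobenius norm -/
private noncomputable def Ratio_q {n : ℕ} (A : Fin n → Fin n → ℂ) : ℝ := ∑ i, ∑ j, ‖A i j‖ ^ 2

private theorem Ratio_q_trace {n : ℕ} (A : Matrix (Fin n) (Fin n) ℂ) :
    ((Ratio_q (fun i j => A i j) : ℝ) : ℂ) = (Aᴴ * A).trace := by
  unfold Ratio_q
  rw [Finset.sum_comm]
  simp only [Matrix.trace, Matrix.diag_apply, Matrix.mul_apply, Matrix.conjTranspose_apply]
  push_cast
  refine Finset.sum_congr rfl fun i _ => Finset.sum_congr rfl fun j _ => ?_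
  rw [Complex.star_def, ← Complex.ofReal_pow, ← Complex.normSq_eq_norm_sq,
    Complex.normSq_eq_conj_mul_self]

@[fun_prop]
private theorem Ratio_q_cont {n : ℕ} : Continuous (Ratio_q : (Fin n → Fin n → ℂ) → ℝ) := by
  unfold Ratio_q
  fun_prop

private theorem Ratio_curry (n : ℕ) : ∃ c : ℝ≥0∞, c ≠ 0 ∧ c ≠ ∞ ∧
    ∀ F : (Fin n → Fin n → ℂ) → ℝ≥0∞, Measurable F →
      ∫⁻ A, F (fun i j => A (i, j)) ∂(Sph.G (Fin n × Fin n)) =
        c * ∫⁻ A : Fin n → Fin n → ℂ, F A * ENNReal.ofReal (Real.exp (-Ratio_q A)) := by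
  let e : (Fin n × Fin n → ℂ) ≃L[ℝ] (Fin n → Fin n → ℂ) :=
    (LinearEquiv.curry ℝ ℂ (Fin n) (Fin n)).toContinuousLinearEquiv
  have he : ∀ A : Fin n × Fin n → ℂ, e A = fun i j => A (i, j) := fun A => rfl
  have hh := Ratio_haar n
  have hν : ((volume : Measure (Fin n × Fin n → ℂ)).map e).IsAddHaarMeasure :=
    e.isAddHaarMeasure_map volume
  obtain ⟨c, hc0, hc⟩ : ∃ c : NNReal, 0 < c ∧
      (volume : Measure (Fin n × Fin n → ℂ)).map e =
        c • (volume : Measure (Fin n → Fin n → ℂ)) :=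
    ⟨_, Measure.addHaarScalarFactor_pos_of_isAddHaarMeasure _ _,
      Measure.isAddLeftInvariant_eq_smul _ _⟩
  refine ⟨(c : ℝ≥0∞) * ENNReal.ofReal ((Real.pi ^ (Fintype.card (Fin n × Fin n)))⁻¹), ?_, ?_, ?_⟩
  · refine mul_ne_zero (by exact_mod_cast hc0.ne') ?_
    rw [Ne, ENNReal.ofReal_eq_zero, not_le]
    positivity
  · exact ENNReal.mul_ne_top ENNReal.coe_ne_top ENNReal.ofReal_ne_top
  · intro F hF
    have hFm : Measurable fun A : Fin n → Fin n → ℂ =>
        F A * ENNReal.ofReal (Real.exp (-Ratio_q A)) := by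
      refine hF.mul (ENNReal.measurable_ofReal.comp ?_)
      exact (Real.continuous_exp.comp Ratio_q_cont.neg).measurable
    have hem : Measurable e := e.continuous.measurable
    rw [Sph.G_eq, lintegral_withDensity_eq_lintegral_mul _ (by fun_prop)
      (g := fun A : Fin n × Fin n → ℂ => F (fun i j => A (i, j))) (hF.comp hem)]
    refine Eq.trans (lintegral_congr (g := fun A : Fin n × Fin n → ℂ =>
        ENNReal.ofReal ((Real.pi ^ (Fintype.card (Fin n × Fin n)))⁻¹) *
        (F (e A) * ENNReal.ofReal (Real.exp (-Ratio_q (e A))))) fun A => ?_) ?_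
    · have h2 : Sph.nsq A = Ratio_q (e A) := by
        unfold Sph.nsq Ratio_q
        rw [Fintype.sum_prod_type]
        rfl
      show ENNReal.ofReal (Sph.gd A) * F (e A) = _
      unfold Sph.gd
      rw [h2, div_eq_inv_mul, ENNReal.ofReal_mul (by positivity)]
      ring
    · have hFe : Measurable fun A : Fin n × Fin n → ℂ =>
          F (e A) * ENNReal.ofReal (Real.exp (-Ratio_q (e A))) := hFm.comp hem
      rw [lintegral_const_mul _ hFe]
      have h3 := lintegral_map (μ := (volume : Measure (Fin n × Fin n → ℂ))) hFm hem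
      rw [hc, lintegral_smul_measure] at h3
      rw [← h3]
      show _ * ((c : ℝ≥0∞) * _) = _
      ring

open scoped ComplexOrder MatrixOrder in
private theorem Ratio_sqrt {n : ℕ} (M : Matrix (Fin n) (Fin n) ℂ) :
    ∃ S : Matrix (Fin n) (Fin n) ℂ, 1 + Mᴴ * M = Sᴴ * S ∧ S.det ≠ 0 := by
  have h1 : (1 + Mᴴ * M).PosDef :=
    Matrix.PosDef.one.add_posSemidef (Matrix.posSemidef_conjTranspose_mul_self M)
  obtain ⟨S, hS⟩ := CStarAlgebra.nonneg_iff_eq_star_mul_self.mp h1.posSemidef.nonneg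
  refine ⟨S, hS, ?_⟩
  have h2 := h1.det_pos.ne'
  rw [hS, Matrix.star_eq_conjTranspose, Matrix.det_mul] at h2
  exact right_ne_zero_of_mul h2

private theorem Ratio_inner {n : ℕ} (M : Fin n → Fin n → ℂ) :
    ∫⁻ B : Fin n → Fin n → ℂ, ENNReal.ofReal (‖(Matrix.of B).det‖ ^ (2 * n)) *
      ENNReal.ofReal (Real.exp (-Ratio_q (fun i j => (Matrix.of M * Matrix.of B) i j))) *
      ENNReal.ofReal (Real.exp (-Ratio_q B)) =
    wt (2 * n) M * ∫⁻ B : Fin n → Fin n → ℂ, ENNReal.ofReal (‖(Matrix.of B).det‖ ^ (2 * n)) *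
      ENNReal.ofReal (Real.exp (-Ratio_q B)) := by
  obtain ⟨S, hS, hS0⟩ := Ratio_sqrt (Matrix.of M)
  obtain ⟨H, hH⟩ : ∃ H : (Fin n → Fin n → ℂ) → ℝ≥0∞, H = fun B =>
    ENNReal.ofReal (‖(Matrix.of B).det‖ ^ (2 * n)) * ENNReal.ofReal (Real.exp (-Ratio_q B)) :=
    ⟨_, rfl⟩
  have hHm : Measurable H := by
    rw [hH]
    refine Measurable.mul (ENNReal.measurable_ofReal.comp ?_) (ENNReal.measurable_ofReal.comp ?_)
    · refine Continuous.measurable ?_
      refine Continuous.pow (Continuous.norm ?_) _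
      exact Continuous.matrix_det continuous_id
    · exact (Real.continuous_exp.comp Ratio_q_cont.neg).measurable
  have hs : 0 < ‖S.det‖ := norm_pos_iff.2 hS0
  have hchg := Ratio_change (Ratio_L S) (by rw [Ratio_L_det]; exact pow_ne_zero _ hS0) H hHm
  have hdetP : (1 + (Matrix.of M)ᴴ * Matrix.of M).det.re = ‖S.det‖ ^ 2 := by
    rw [hS, Matrix.det_mul, Matrix.det_conjTranspose, Complex.star_def,
      ← Complex.normSq_eq_conj_mul_self, Complex.ofReal_re, Complex.normSq_eq_norm_sq]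
  have hpt : ∀ B : Fin n → Fin n → ℂ, ENNReal.ofReal (‖(Matrix.of B).det‖ ^ (2 * n)) *
      ENNReal.ofReal (Real.exp (-Ratio_q (fun i j => (Matrix.of M * Matrix.of B) i j))) *
      ENNReal.ofReal (Real.exp (-Ratio_q B)) =
      ENNReal.ofReal ((‖S.det‖ ^ (2 * n))⁻¹) * H (Ratio_L S B) := by
    intro B
    have h1 : Ratio_q (fun i j => (Matrix.of M * Matrix.of B) i j) + Ratio_q B =
        Ratio_q (Ratio_L S B) := by
      have h2 : ((Ratio_q (fun i j => (Matrix.of M * Matrix.of B) i j) + Ratio_q B : ℝ) : ℂ) =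
          ((Ratio_q (Ratio_L S B) : ℝ) : ℂ) := by
        have h3 : ((Ratio_q B : ℝ) : ℂ) = ((Matrix.of B)ᴴ * Matrix.of B).trace :=
          Ratio_q_trace (Matrix.of B)
        rw [Ratio_L_apply, Complex.ofReal_add, h3, Ratio_q_trace, Ratio_q_trace,
          ← Matrix.trace_add]
        congr 1
        rw [Matrix.conjTranspose_mul, Matrix.conjTranspose_mul]
        calc (Matrix.of B)ᴴ * (Matrix.of M)ᴴ * (Matrix.of M * Matrix.of B) +
              (Matrix.of B)ᴴ * Matrix.of B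
            = (Matrix.of B)ᴴ * (1 + (Matrix.of M)ᴴ * Matrix.of M) * Matrix.of B := by
              noncomm_ring
          _ = _ := by
              rw [hS]
              simp only [Matrix.mul_assoc]
      exact_mod_cast h2
    rw [hH]
    simp only
    rw [← h1]
    have h4 : (Matrix.of (Ratio_L S B)).det = S.det * (Matrix.of B).det := by
      rw [Ratio_L_apply, ← Matrix.det_mul]
      rfl
    rw [h4, norm_mul, mul_pow, neg_add, Real.exp_add, mul_assoc,
      ← ENNReal.ofReal_mul (by positivity), ← ENNReal.ofReal_mul (by positivity),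
      ← ENNReal.ofReal_mul (by positivity), ← ENNReal.ofReal_mul (by positivity)]
    congr 1
    have h5 : ‖S.det‖ ^ (2 * n) ≠ 0 := by positivity
    field_simp
  simp only [hpt]
  have hLm : Measurable (Ratio_L S) :=
    (Ratio_L S).continuous_of_finiteDimensional.measurable
  have hHL : Measurable fun B => H (Ratio_L S B) := hHm.comp hLm
  rw [lintegral_const_mul _ hHL]
  have h6 : ∫⁻ x, H (Ratio_L S x) = ENNReal.ofReal ((‖S.det‖ ^ (2 * n))⁻¹) * ∫⁻ x, H x := by
    rw [← hchg, ← mul_assoc, Ratio_L_det, norm_pow, ← pow_mul, mul_comm n 2,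
      ← ENNReal.ofReal_mul (by positivity), inv_mul_cancel₀ (by positivity), ENNReal.ofReal_one,
      one_mul]
  rw [h6, ← mul_assoc, ← ENNReal.ofReal_mul (by positivity)]
  have h7 : (‖S.det‖ ^ (2 * n))⁻¹ * (‖S.det‖ ^ (2 * n))⁻¹ =
      (1 + (Matrix.of M)ᴴ * Matrix.of M).det.re ^ (-(2 * n : ℝ)) := by
    rw [hdetP, Real.rpow_neg (by positivity), ← mul_inv]
    congr 1
    have h8 : (2 * n : ℝ) = ((2 * n : ℕ) : ℝ) := by push_cast; ring
    rw [h8, Real.rpow_natCast, ← pow_add, ← pow_mul]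
    congr 1
    ring
  rw [h7, hH]
  rfl

theorem ratio_law (n : ℕ) : ∃ C : ℝ≥0∞, C ≠ 0 ∧ C ≠ ∞ ∧
    ∀ φ : (Fin n → Fin n → ℂ) → ℝ≥0∞, Measurable φ →
      ∫⁻ p, φ (fun i j => (Sph.mat p.1 * (Sph.mat p.2)⁻¹) i j)
        ∂((Sph.G (Fin n × Fin n)).prod (Sph.G (Fin n × Fin n))) =
      C * ∫⁻ M : Fin n → Fin n → ℂ, φ M * wt (2 * n) M := by
  obtain ⟨c, hc0, hct, hc⟩ := Ratio_curry n
  obtain ⟨D, hD⟩ : ∃ D : ℝ≥0∞, D = ∫⁻ B : Fin n → Fin n → ℂ,
    ENNReal.ofReal (‖(Matrix.of B).det‖ ^ (2 * n)) * ENNReal.ofReal (Real.exp (-Ratio_q B)) :=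
    ⟨_, rfl⟩
  have hdm : Measurable fun B : Fin n → Fin n → ℂ =>
      ENNReal.ofReal (‖(Matrix.of B).det‖ ^ (2 * n)) := by
    refine ENNReal.measurable_ofReal.comp (Continuous.measurable ?_)
    refine Continuous.pow (Continuous.norm ?_) _
    exact Continuous.matrix_det continuous_id
  have hem : Measurable fun B : Fin n → Fin n → ℂ => ENNReal.ofReal (Real.exp (-Ratio_q B)) :=
    ENNReal.measurable_ofReal.comp (Real.continuous_exp.comp Ratio_q_cont.neg).measurable
  have hcD : ∫⁻ A, ENNReal.ofReal (‖(Sph.mat A).det‖ ^ (2 * n)) ∂(Sph.G (Fin n × Fin n)) =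
      c * D := by
    rw [hD, ← hc _ hdm]
    rfl
  have hD0 : D ≠ 0 := by
    intro h0
    rw [h0, mul_zero] at hcD
    have hm : Measurable fun A : Fin n × Fin n → ℂ =>
        ENNReal.ofReal (‖(Sph.mat A).det‖ ^ (2 * n)) := by
      refine ENNReal.measurable_ofReal.comp (Continuous.measurable ?_)
      refine Continuous.pow (Continuous.norm ?_) _
      exact Continuous.matrix_det (continuous_matrix fun i j => continuous_apply _)
    rw [lintegral_eq_zero_iff hm] at hcD
    have h1 := Sph.ae_det_ne_zero n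
    have h2 : ∀ᵐ A ∂(Sph.G (Fin n × Fin n)), False := by
      filter_upwards [h1, hcD] with A hA hA2
      simp only [Pi.zero_apply, ENNReal.ofReal_eq_zero] at hA2
      have h3 : 0 < ‖(Sph.mat A).det‖ ^ (2 * n) := by
        have := norm_pos_iff.2 hA
        positivity
      linarith
    rw [Filter.eventually_false_iff_eq_bot, ae_eq_bot] at h2
    exact IsProbabilityMeasure.ne_zero _ h2
  have hDt : D ≠ ∞ := by
    intro h0
    rw [h0, ENNReal.mul_top hc0] at hcD
    have h1 := (Sph.integrable_W n (n : ℂ) (by simp; linarith [n.cast_nonneg (α := ℝ)])).2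
    rw [HasFiniteIntegral] at h1
    have h2 : ∀ A : Fin n × Fin n → ℂ, ‖Sph.W (n : ℂ) A‖ₑ =
        ENNReal.ofReal (‖(Sph.mat A).det‖ ^ (2 * n)) := by
      intro A
      unfold Sph.W
      have h3 : (2 * (n : ℂ)) = ((2 * n : ℕ) : ℂ) := by push_cast; ring
      rw [h3, Complex.cpow_natCast, ← ofReal_norm, norm_pow, Complex.norm_real, norm_norm]
    simp only [h2] at h1
    rw [hcD] at h1
    exact lt_irrefl _ h1
  refine ⟨c * c * D, mul_ne_zero (mul_ne_zero hc0 hc0) hD0,
    ENNReal.mul_ne_top (ENNReal.mul_ne_top hct hct) hDt, ?_⟩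
  intro φ hφ
  -- measurability
  have hinv : ∀ i j, Measurable fun B : Fin n → Fin n → ℂ => (Matrix.of B)⁻¹ i j := by
    intro i j
    have h1 : (fun B : Fin n → Fin n → ℂ => (Matrix.of B)⁻¹ i j) =
        fun B => ((Matrix.of B).det)⁻¹ * (Matrix.of B).adjugate i j := by
      funext B
      rw [Matrix.inv_def, Ring.inverse_eq_inv']
      rfl
    rw [h1]
    refine Measurable.mul ?_ ?_
    · have h2 : Continuous fun B : Fin n → Fin n → ℂ => (Matrix.of B).det :=
        Continuous.matrix_det continuous_id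
      exact h2.measurable.inv
    · have h2 : Continuous fun B : Fin n → Fin n → ℂ => (Matrix.of B).adjugate i j :=
        (Continuous.matrix_adjugate continuous_id).matrix_elem i j
      exact h2.measurable
  have hΦ : Measurable fun p : (Fin n → Fin n → ℂ) × (Fin n → Fin n → ℂ) =>
      φ (fun i j => (Matrix.of p.1 * (Matrix.of p.2)⁻¹) i j) := by
    refine hφ.comp ?_
    refine measurable_pi_iff.2 fun i => measurable_pi_iff.2 fun j => ?_
    simp only [Matrix.mul_apply]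
    refine Finset.measurable_sum _ fun k _ => Measurable.mul ?_ ?_
    · show Measurable fun p : (Fin n → Fin n → ℂ) × (Fin n → Fin n → ℂ) => p.1 i k
      fun_prop
    · exact (hinv k j).comp measurable_snd
  have hcur : Measurable fun A : Fin n × Fin n → ℂ => fun i j => A (i, j) := by
    refine measurable_pi_iff.2 fun i => measurable_pi_iff.2 fun j => ?_
    fun_prop
  have hMB : Measurable fun p : (Fin n → Fin n → ℂ) × (Fin n → Fin n → ℂ) =>
      ENNReal.ofReal (Real.exp (-Ratio_q (fun i j => (Matrix.of p.2 * Matrix.of p.1) i j))) := by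
    refine hem.comp ?_
    refine measurable_pi_iff.2 fun i => measurable_pi_iff.2 fun j => ?_
    simp only [Matrix.mul_apply]
    refine Finset.measurable_sum _ fun k _ => Measurable.mul ?_ ?_
    · show Measurable fun p : (Fin n → Fin n → ℂ) × (Fin n → Fin n → ℂ) => p.2 i k
      fun_prop
    · show Measurable fun p : (Fin n → Fin n → ℂ) × (Fin n → Fin n → ℂ) => p.1 k j
      fun_prop
  -- step 1
  have hΦ' : Measurable fun p : (Fin n × Fin n → ℂ) × (Fin n × Fin n → ℂ) =>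
      φ (fun i j => (Sph.mat p.1 * (Sph.mat p.2)⁻¹) i j) :=
    hΦ.comp ((hcur.comp measurable_fst).prodMk (hcur.comp measurable_snd))
  rw [lintegral_prod_symm _ hΦ'.aemeasurable]
  have hstep : ∀ᵐ B ∂(Sph.G (Fin n × Fin n)),
      ∫⁻ A, φ (fun i j => (Sph.mat A * (Sph.mat B)⁻¹) i j) ∂(Sph.G (Fin n × Fin n)) =
      c * (ENNReal.ofReal (‖(Sph.mat B).det‖ ^ (2 * n)) * ∫⁻ M : Fin n → Fin n → ℂ, φ M *
        ENNReal.ofReal (Real.exp (-Ratio_q (fun i j => (Matrix.of M * Sph.mat B) i j)))) := by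
    filter_upwards [Sph.ae_det_ne_zero n] with B hB
    have hΦB : Measurable fun A : Fin n → Fin n → ℂ =>
        φ (fun i j => (Matrix.of A * (Sph.mat B)⁻¹) i j) := by
      have h0 : Measurable fun A : Fin n → Fin n → ℂ =>
          (A, (fun i j => B (i, j) : Fin n → Fin n → ℂ)) :=
        measurable_id.prodMk measurable_const
      exact hΦ.comp h0
    have h1 := hc (fun A => φ (fun i j => (Matrix.of A * (Sph.mat B)⁻¹) i j)) hΦB
    have h2 : ∫⁻ A, φ (fun i j => (Sph.mat A * (Sph.mat B)⁻¹) i j) ∂(Sph.G (Fin n × Fin n)) =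
        c * ∫⁻ A : Fin n → Fin n → ℂ, φ (fun i j => (Matrix.of A * (Sph.mat B)⁻¹) i j) *
          ENNReal.ofReal (Real.exp (-Ratio_q A)) := h1
    rw [h2]
    congr 1
    have h3 := Ratio_change (Ratio_R (Sph.mat B)) (by rw [Ratio_R_det]; exact pow_ne_zero _ hB)
      (fun A => φ (fun i j => (Matrix.of A * (Sph.mat B)⁻¹) i j) *
          ENNReal.ofReal (Real.exp (-Ratio_q A)))
      (hΦB.mul hem)
    rw [← h3, Ratio_R_det, norm_pow, ← pow_mul, mul_comm n 2]
    congr 1
    refine lintegral_congr fun M => ?_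
    rw [Ratio_R_apply]
    congr 2
    funext i j
    show (Matrix.of M * Sph.mat B * (Sph.mat B)⁻¹) i j = M i j
    rw [Matrix.mul_assoc, Matrix.mul_nonsing_inv _ (isUnit_iff_ne_zero.2 hB), Matrix.mul_one]
    rfl
  rw [lintegral_congr_ae hstep, lintegral_const_mul' _ _ hct]
  have hin := Ratio_inner (n := n)
  rw [← hD] at hin
  obtain ⟨dd, hdd⟩ : ∃ dd : (Fin n → Fin n → ℂ) → ℝ≥0∞, dd = fun B =>
    ENNReal.ofReal (‖(Matrix.of B).det‖ ^ (2 * n)) := ⟨_, rfl⟩
  obtain ⟨gg, hgg⟩ : ∃ gg : (Fin n → Fin n → ℂ) → ℝ≥0∞, gg = fun B =>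
    ENNReal.ofReal (Real.exp (-Ratio_q B)) := ⟨_, rfl⟩
  obtain ⟨kk, hkk⟩ : ∃ kk : (Fin n → Fin n → ℂ) → (Fin n → Fin n → ℂ) → ℝ≥0∞, kk = fun M B =>
    ENNReal.ofReal (Real.exp (-Ratio_q (fun i j => (Matrix.of M * Matrix.of B) i j))) := ⟨_, rfl⟩
  have hin' : ∀ M, ∫⁻ B, dd B * kk M B * gg B = wt (2 * n) M * D := by
    intro M
    rw [hdd, hkk, hgg]
    exact hin M
  have hc' : ∀ F : (Fin n → Fin n → ℂ) → ℝ≥0∞, Measurable F →
      ∫⁻ A, F (fun i j => A (i, j)) ∂(Sph.G (Fin n × Fin n)) = c * ∫⁻ A, F A * gg A := by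
    intro F hF
    rw [hgg]
    exact hc F hF
  have hddm : Measurable dd := by rw [hdd]; exact hdm
  have hggm : Measurable gg := by rw [hgg]; exact hem
  have hkkm : Measurable fun p : (Fin n → Fin n → ℂ) × (Fin n → Fin n → ℂ) => kk p.2 p.1 := by
    rw [hkk]
    exact hMB
  have h5 : ∫⁻ B, (ENNReal.ofReal (‖(Sph.mat B).det‖ ^ (2 * n)) * ∫⁻ M : Fin n → Fin n → ℂ, φ M *
        ENNReal.ofReal (Real.exp (-Ratio_q (fun i j => (Matrix.of M * Sph.mat B) i j))))
        ∂(Sph.G (Fin n × Fin n)) =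
      ∫⁻ B, (fun B' => dd B' * ∫⁻ M, φ M * kk M B') (fun i j => B (i, j))
        ∂(Sph.G (Fin n × Fin n)) := by
    rw [hdd, hkk]
    rfl
  rw [h5]
  clear h5 hstep hΦ' hΦ hinv hin hc hD hdm hem hMB
  have hJm : Measurable fun B => ∫⁻ M, φ M * kk M B :=
    Measurable.lintegral_prod_right' (f := fun p : (Fin n → Fin n → ℂ) × (Fin n → Fin n → ℂ) =>
      φ p.2 * kk p.2 p.1) ((hφ.comp measurable_snd).mul hkkm)
  rw [hc' (fun B' => dd B' * ∫⁻ M, φ M * kk M B') (hddm.mul hJm)]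
  have hjoint : Measurable fun p : (Fin n → Fin n → ℂ) × (Fin n → Fin n → ℂ) =>
      φ p.2 * (dd p.1 * kk p.2 p.1 * gg p.1) :=
    (hφ.comp measurable_snd).mul (((hddm.comp measurable_fst).mul hkkm).mul
      (hggm.comp measurable_fst))
  have hkM : ∀ B, Measurable fun M => φ M * kk M B := by
    intro B
    have h0 : Measurable fun M : Fin n → Fin n → ℂ => (B, M) := measurable_const.prodMk measurable_id
    exact hφ.mul (hkkm.comp h0)
  have hkB : ∀ M, Measurable fun B => dd B * kk M B * gg B := by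
    intro M
    have h0 : Measurable fun B : Fin n → Fin n → ℂ => (B, M) := measurable_id.prodMk measurable_const
    exact (hddm.mul (hkkm.comp h0)).mul hggm
  have h6 : ∫⁻ B, (fun B' => dd B' * ∫⁻ M, φ M * kk M B') B * gg B =
      ∫⁻ B, ∫⁻ M, φ M * (dd B * kk M B * gg B) := by
    refine lintegral_congr fun B => ?_
    show dd B * (∫⁻ M, φ M * kk M B) * gg B = _
    rw [← lintegral_const_mul _ (hkM B), ← lintegral_mul_const _ ((hkM B).const_mul _)]
    refine lintegral_congr fun M => ?_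
    ring
  rw [h6, lintegral_lintegral_swap (f := fun B M => φ M * (dd B * kk M B * gg B))
    hjoint.aemeasurable]
  have h7 : ∫⁻ M, ∫⁻ B, φ M * (dd B * kk M B * gg B) = ∫⁻ M, D * (φ M * wt (2 * n) M) := by
    refine lintegral_congr fun M => ?_
    rw [lintegral_const_mul _ (hkB M), hin' M]
    ring
  rw [h7, lintegral_const_mul' _ _ hDt]
  ring

end MPF
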