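import Pool.Agent.MPF.Vec

/-!
# MPF/SphM: the uniform measure on the unit sphere of `ℂ²`

PROOF.
(1) `sph` is the law of `z / |z|` for a standard complex Gaussian `z` in `ℂ²` (`z ≠ 0` a.s.), so it
is a probability measure carried by `nr z = 1`. A unitary `U` preserves `Sph.G (Fin 2)`
(`Sph.G_measurePreserving`) and commutes with `z ↦ z/|z|`.
(2) Plane formula: `f` homogeneous of degree 0. `∫ f(z/|z|) dG = ∫ f(z) dG`
`= ∫_{z₁} ∫_{z₀} f(z₀, z₁) e^{-|z₀|²-|z₁|²}/π²`; put `z₀ = l z₁` (real Jacobian `|z₁|²`), use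
`f(l z₁, z₁) = f(l,1)` and `∫_ℂ |y|² e^{-|y|²(1+|l|²)} dy = π/(1+|l|²)²`. (`Sph.G_eq`,
`Sph.lintegral_fintype_prod` or `measurePreserving` of `Fin 2 → ℂ ≃ ℂ × ℂ`; polar coordinates
on `ℂ`: `Complex.lintegral_comp_polarCoord_symm`.)
(3) Law of `xx m`: by (1) with `U = (gm m)ᴴ`-like unitary we may take `m = e₀` (for unit `m`,
`![![conj m₀, conj m₁], ![-m₁, m₀]]` is unitary and maps `z` to a vector with first coordinate
`hp m z`); `f(z) = φ(|z₀|²/(|z₀|²+|z₁|²))` is homogeneous, so by (2) and polar coordinates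
`∫ φ(xx) dsph = ∫_ℂ φ(|l|²/(1+|l|²)) dl/(π(1+|l|²)²) = ∫_0^∞ φ(r/(1+r)) dr/(1+r)² = ∫_0^1 φ`.
-/

open MeasureTheory Matrix Finset Filter Topology
open scoped ENNReal ComplexConjugate

namespace MPF

/-- the normalisation map -/
private noncomputable def SphM_T (z : Fin 2 → ℂ) : Fin 2 → ℂ := (((nr z)⁻¹ : ℝ) : ℂ) • z

private lemma SphM_measurable_T : Measurable SphM_T := by
  unfold SphM_T
  have h : Measurable fun z : Fin 2 → ℂ => (((nr z)⁻¹ : ℝ) : ℂ) :=
    Complex.measurable_ofReal.comp measurable_nr.inv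
  exact h.smul measurable_id

private lemma SphM_sph : sph = (Sph.G (Fin 2)).map SphM_T := rfl

private lemma SphM_ae_apply_ne (i : Fin 2) : ∀ᵐ z ∂(Sph.G (Fin 2)), z i ≠ 0 := by
  have h1 : ∀ᵐ x ∂Sph.gC, x ≠ 0 := by
    have h2 : Sph.gC ≪ (volume : Measure ℂ) := withDensity_absolutelyContinuous _ _
    exact h2.ae_le (Measure.ae_ne volume 0)
  have h3 : MeasurePreserving (fun z : Fin 2 → ℂ => z i) (Sph.G (Fin 2)) Sph.gC := by
    unfold Sph.G
    exact measurePreserving_eval (fun _ : Fin 2 => Sph.gC) i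
  exact h3.quasiMeasurePreserving.ae h1

private lemma SphM_ae_ne : ∀ᵐ z ∂(Sph.G (Fin 2)), z ≠ 0 := by
  filter_upwards [SphM_ae_apply_ne 0] with z hz h
  exact hz (by rw [h]; rfl)

private lemma SphM_nr_pos {z : Fin 2 → ℂ} (hz : z ≠ 0) : 0 < nr z := by
  rcases (nr_nonneg z).lt_or_eq with h | h
  · exact h
  · exact absurd (nr_eq_zero h.symm) hz

instance instProbSph : IsProbabilityMeasure sph := by
  rw [SphM_sph]
  exact Measure.isProbabilityMeasure_map SphM_measurable_T.aemeasurable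

theorem ae_nr_sph : ∀ᵐ z ∂sph, nr z = 1 := by
  rw [SphM_sph, ae_map_iff SphM_measurable_T.aemeasurable
    (measurableSet_eq_fun measurable_nr measurable_const)]
  filter_upwards [SphM_ae_ne] with z hz
  have h := SphM_nr_pos hz
  unfold SphM_T
  rw [nr_smul, Complex.norm_real, Real.norm_eq_abs, abs_of_pos (inv_pos.2 h), inv_mul_cancel₀ h.ne']

theorem measurePreserving_sph (U : Matrix (Fin 2) (Fin 2) ℂ) (hU : Uᴴ * U = 1) :
    MeasurePreserving (fun z => U *ᵥ z) sph sph := by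
  have hUm : Measurable fun z : Fin 2 → ℂ => U *ᵥ z := by
    have : Continuous fun z : Fin 2 → ℂ => U *ᵥ z :=
      LinearMap.continuous_of_finiteDimensional (Matrix.mulVecLin U)
    exact this.measurable
  have hG : MeasurePreserving (fun z : Fin 2 → ℂ => U *ᵥ z) (Sph.G (Fin 2)) (Sph.G (Fin 2)) := by
    refine Sph.G_measurePreserving ((Matrix.mulVecLin U).restrictScalars ℝ) fun z => ?_
    have h := nr_mulVec_unitary U hU z
    have h1 : Sph.nsq (U *ᵥ z) = Sph.nsq z := by rw [← nr_sq, ← nr_sq, h]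
    exact h1
  refine ⟨hUm, ?_⟩
  rw [SphM_sph, Measure.map_map hUm SphM_measurable_T]
  have h1 : (fun z : Fin 2 → ℂ => U *ᵥ z) ∘ SphM_T = SphM_T ∘ fun z : Fin 2 → ℂ => U *ᵥ z := by
    funext z
    simp only [Function.comp_apply, SphM_T]
    rw [nr_mulVec_unitary U hU z, Matrix.mulVec_smul]
  rw [h1, ← Measure.map_map SphM_measurable_T hUm, hG.map_eq]

/-- scaling of Lebesgue measure on `ℂ` -/
private lemma SphM_scale {c : ℂ} (hc : c ≠ 0) {g : ℂ → ℝ≥0∞} (hg : Measurable g) :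
    ∫⁻ y, g y = ENNReal.ofReal (‖c‖ ^ 2) * ∫⁻ l, g (l * c) := by
  have hc0 : 0 < ‖c‖ ^ 2 := by positivity
  have hdet : LinearMap.det (LinearMap.mul ℝ ℂ c) = ‖c‖ ^ 2 := by
    have h1 := Algebra.norm_complex_apply c
    rw [Algebra.norm_apply] at h1
    rw [← Complex.normSq_eq_norm_sq, ← h1]
    rfl
  have h2 : Measure.map (LinearMap.mul ℝ ℂ c) (volume : Measure ℂ) =
      ENNReal.ofReal |(LinearMap.det (LinearMap.mul ℝ ℂ c))⁻¹| • volume :=
    Measure.map_linearMap_addHaar_eq_smul_addHaar volume (by rw [hdet]; exact hc0.ne')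
  have h3 : ∫⁻ l, g (l * c) = ENNReal.ofReal ((‖c‖ ^ 2)⁻¹) * ∫⁻ y, g y := by
    have h4 : ∫⁻ l, g (l * c) = ∫⁻ l, g (LinearMap.mul ℝ ℂ c l) := by
      refine lintegral_congr fun l => ?_
      rw [LinearMap.mul_apply', mul_comm]
    rw [h4, ← lintegral_map hg
      (LinearMap.continuous_of_finiteDimensional (LinearMap.mul ℝ ℂ c)).measurable, h2,
      lintegral_smul_measure, hdet, abs_of_pos (inv_pos.2 hc0), smul_eq_mul]
  rw [h3, ← mul_assoc, ← ENNReal.ofReal_mul hc0.le, mul_inv_cancel₀ hc0.ne', ENNReal.ofReal_one,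
    one_mul]

private lemma SphM_gauss (b : ℝ) (hb : 0 < b) :
    ∫⁻ y : ℂ, ENNReal.ofReal (‖y‖ ^ 2 * Real.exp (-b * ‖y‖ ^ 2)) =
      ENNReal.ofReal (Real.pi / b ^ 2) := by
  have h1 := Complex.integral_rpow_mul_exp_neg_mul_rpow (p := 2) (q := 2) (b := b)
    one_le_two (by norm_num) hb
  have h2 : ∫ y : ℂ, ‖y‖ ^ 2 * Real.exp (-b * ‖y‖ ^ 2) = Real.pi / b ^ 2 := by
    have h3 : ∀ y : ℂ, ‖y‖ ^ 2 * Real.exp (-b * ‖y‖ ^ 2) =
        ‖y‖ ^ (2 : ℝ) * Real.exp (-b * ‖y‖ ^ (2 : ℝ)) := by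
      intro y
      rw [Real.rpow_two]
    simp_rw [h3]
    rw [h1]
    have h4 : Real.Gamma ((2 + 2) / 2) = 1 := by
      have : ((2 : ℝ) + 2) / 2 = (1 : ℕ) + 1 := by norm_num
      rw [this, Real.Gamma_nat_eq_factorial]
      simp
    have h5 : b ^ (-((2 : ℝ) + 2) / 2) = (b ^ 2)⁻¹ := by
      have : -((2 : ℝ) + 2) / 2 = -2 := by norm_num
      rw [this, Real.rpow_neg hb.le, Real.rpow_two]
    rw [h4, h5]
    field_simp
  have h6 : Integrable fun y : ℂ => ‖y‖ ^ 2 * Real.exp (-b * ‖y‖ ^ 2) := by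
    by_contra h
    have h7 := integral_undef h
    rw [h2] at h7
    have : 0 < Real.pi / b ^ 2 := by positivity
    exact this.ne' h7
  rw [← ofReal_integral_eq_lintegral_ofReal h6 (Filter.Eventually.of_forall fun y => by positivity),
    h2]

/-- the Gaussian density -/
private noncomputable def SphM_rho (z : ℂ) : ℝ≥0∞ :=
  ENNReal.ofReal (Real.exp (-‖z‖ ^ 2) / Real.pi)

private lemma SphM_measurable_rho : Measurable SphM_rho := by
  unfold SphM_rho
  fun_prop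

private lemma SphM_lintegral_gC {g : ℂ → ℝ≥0∞} (hg : Measurable g) :
    ∫⁻ y, g y ∂Sph.gC = ∫⁻ y, SphM_rho y * g y := by
  have h : Sph.gC = (volume : Measure ℂ).withDensity SphM_rho := rfl
  rw [h, lintegral_withDensity_eq_lintegral_mul _ SphM_measurable_rho hg]
  rfl

private lemma SphM_K (l : ℂ) :
    ∫⁻ y : ℂ, SphM_rho y * (ENNReal.ofReal (‖y‖ ^ 2) * SphM_rho (l * y)) =
      ENNReal.ofReal (1 / (Real.pi * (1 + ‖l‖ ^ 2) ^ 2)) := by
  have hpi := Real.pi_pos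
  have h1 : ∀ y : ℂ, SphM_rho y * (ENNReal.ofReal (‖y‖ ^ 2) * SphM_rho (l * y)) =
      ENNReal.ofReal (1 / Real.pi ^ 2) *
        ENNReal.ofReal (‖y‖ ^ 2 * Real.exp (-(1 + ‖l‖ ^ 2) * ‖y‖ ^ 2)) := by
    intro y
    unfold SphM_rho
    rw [← ENNReal.ofReal_mul (by positivity), ← ENNReal.ofReal_mul (by positivity),
      ← ENNReal.ofReal_mul (by positivity)]
    congr 1
    have h2 : Real.exp (-(1 + ‖l‖ ^ 2) * ‖y‖ ^ 2) =
        Real.exp (-‖y‖ ^ 2) * Real.exp (-‖l * y‖ ^ 2) := by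
      rw [← Real.exp_add, norm_mul]
      congr 1
      ring
    rw [h2]
    field_simp
  simp_rw [h1]
  rw [lintegral_const_mul _ (by fun_prop), SphM_gauss _ (by positivity),
    ← ENNReal.ofReal_mul (by positivity)]
  congr 1
  field_simp

theorem lintegral_sph_plane {f : (Fin 2 → ℂ) → ℝ≥0∞} (hf : Measurable f)
    (hom : ∀ (c : ℂ) (z : Fin 2 → ℂ), c ≠ 0 → f (c • z) = f z) :
    ∫⁻ z, f z ∂sph =
      ∫⁻ l : ℂ, ENNReal.ofReal (1 / (Real.pi * (1 + ‖l‖ ^ 2) ^ 2)) * f ![l, 1] := by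
  -- step A
  have hA : ∫⁻ z, f z ∂sph = ∫⁻ z, f z ∂(Sph.G (Fin 2)) := by
    rw [SphM_sph, lintegral_map hf SphM_measurable_T]
    refine lintegral_congr_ae ?_
    filter_upwards [SphM_ae_ne] with z hz
    refine hom _ _ ?_
    have := SphM_nr_pos hz
    exact_mod_cast (inv_pos.2 this).ne'
  -- step B
  have hvec : Measurable fun p : ℂ × ℂ => ![p.1, p.2] := by
    refine measurable_pi_lambda _ fun i => ?_
    fin_cases i
    · exact measurable_fst
    · exact measurable_snd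
  have hf2 : Measurable fun p : ℂ × ℂ => f ![p.1, p.2] := hf.comp hvec
  have hB : ∫⁻ z, f z ∂(Sph.G (Fin 2)) =
      ∫⁻ z1, ∫⁻ z0, f ![z0, z1] ∂Sph.gC ∂Sph.gC := by
    have hm := measurePreserving_finTwoArrow Sph.gC
    have h1 : ∫⁻ z, f z ∂(Sph.G (Fin 2)) =
        ∫⁻ p, f ![p.1, p.2] ∂(Sph.gC.prod Sph.gC) := by
      rw [← hm.lintegral_comp hf2]
      unfold Sph.G
      refine lintegral_congr fun z => ?_
      congr 1
      ext i
      fin_cases i <;> rfl
    rw [h1, lintegral_prod_symm _ hf2.aemeasurable]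
  have hl1 : Measurable fun l : ℂ => f ![l, 1] := by
    refine hf.comp (measurable_pi_lambda _ fun i => ?_)
    fin_cases i
    · exact measurable_id
    · exact measurable_const
  -- step C
  have hC : ∀ z1 : ℂ, z1 ≠ 0 → ∫⁻ z0, f ![z0, z1] ∂Sph.gC =
      ∫⁻ l : ℂ, (ENNReal.ofReal (‖z1‖ ^ 2) * SphM_rho (l * z1)) * f ![l, 1] := by
    intro z1 hz1
    have hg : Measurable fun z0 : ℂ => f ![z0, z1] := by
      refine hf.comp (measurable_pi_lambda _ fun i => ?_)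
      fin_cases i
      · exact measurable_id
      · exact measurable_const
    have hrg : Measurable fun z0 : ℂ => SphM_rho z0 * f ![z0, z1] := SphM_measurable_rho.mul hg
    have hrg' : Measurable fun l : ℂ => SphM_rho (l * z1) * f ![l * z1, z1] :=
      hrg.comp (measurable_id.mul_const z1)
    rw [SphM_lintegral_gC hg, SphM_scale hz1 hrg, ← lintegral_const_mul _ hrg']
    refine lintegral_congr fun l => ?_
    have h1 : f ![l * z1, z1] = f ![l, 1] := by
      rw [← hom z1 ![l, 1] hz1]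
      congr 1
      ext i
      fin_cases i
      · simp [mul_comm]
      · simp
    rw [h1, mul_assoc]
  have hae : ∀ᵐ z1 ∂Sph.gC, z1 ≠ 0 := by
    have h2 : Sph.gC ≪ (volume : Measure ℂ) := withDensity_absolutelyContinuous _ _
    exact h2.ae_le (Measure.ae_ne volume 0)
  have hm2 : Measurable fun p : ℂ × ℂ =>
      (ENNReal.ofReal (‖p.1‖ ^ 2) * SphM_rho (p.2 * p.1)) * f ![p.2, 1] := by
    have a1 : Measurable fun p : ℂ × ℂ => ENNReal.ofReal (‖p.1‖ ^ 2) := by fun_prop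
    have a2 : Measurable fun p : ℂ × ℂ => SphM_rho (p.2 * p.1) :=
      SphM_measurable_rho.comp (measurable_snd.mul measurable_fst)
    exact (a1.mul a2).mul (hl1.comp measurable_snd)
  rw [hA, hB, lintegral_congr_ae (g := fun z1 : ℂ => ∫⁻ l : ℂ,
    (ENNReal.ofReal (‖z1‖ ^ 2) * SphM_rho (l * z1)) * f ![l, 1])
    (by filter_upwards [hae] with z1 hz1; exact hC z1 hz1),
    SphM_lintegral_gC hm2.lintegral_prod_right']
  -- step D
  have hD : ∀ z1 : ℂ, SphM_rho z1 * ∫⁻ l : ℂ,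
      (ENNReal.ofReal (‖z1‖ ^ 2) * SphM_rho (l * z1)) * f ![l, 1] =
      ∫⁻ l : ℂ, SphM_rho z1 *
        ((ENNReal.ofReal (‖z1‖ ^ 2) * SphM_rho (l * z1)) * f ![l, 1]) := by
    intro z1
    have h0 : Measurable fun l : ℂ => SphM_rho (l * z1) :=
      SphM_measurable_rho.comp (measurable_id.mul_const z1)
    have h1 : Measurable fun l : ℂ => (ENNReal.ofReal (‖z1‖ ^ 2) * SphM_rho (l * z1)) * f ![l, 1] :=
      (h0.const_mul _).mul hl1
    exact (lintegral_const_mul _ h1).symm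
  have hr1 : Measurable fun p : ℂ × ℂ => SphM_rho p.1 := SphM_measurable_rho.comp measurable_fst
  have hm3 : Measurable fun p : ℂ × ℂ => SphM_rho p.1 *
      ((ENNReal.ofReal (‖p.1‖ ^ 2) * SphM_rho (p.2 * p.1)) * f ![p.2, 1]) := hr1.mul hm2
  have hS : ∫⁻ z1 : ℂ, ∫⁻ l : ℂ, SphM_rho z1 *
        ((ENNReal.ofReal (‖z1‖ ^ 2) * SphM_rho (l * z1)) * f ![l, 1]) =
      ∫⁻ l : ℂ, ∫⁻ z1 : ℂ, SphM_rho z1 *
        ((ENNReal.ofReal (‖z1‖ ^ 2) * SphM_rho (l * z1)) * f ![l, 1]) :=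
    lintegral_lintegral_swap hm3.aemeasurable
  rw [lintegral_congr hD, hS]
  refine lintegral_congr fun l => ?_
  have a1 : Measurable fun y : ℂ => ENNReal.ofReal (‖y‖ ^ 2) := by fun_prop
  have a2 : Measurable fun y : ℂ => SphM_rho (l * y) :=
    SphM_measurable_rho.comp (measurable_const.mul measurable_id)
  have a3 : Measurable fun y : ℂ => SphM_rho y * (ENNReal.ofReal (‖y‖ ^ 2) * SphM_rho (l * y)) :=
    SphM_measurable_rho.mul (a1.mul a2)
  rw [← SphM_K l, ← lintegral_mul_const _ a3]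
  exact lintegral_congr fun y => (mul_assoc _ _ _).symm

private lemma SphM_ae_one : ∀ᵐ z ∂sph, z 1 ≠ 0 := by
  have hs : MeasurableSet {z : Fin 2 → ℂ | z 1 ≠ 0} :=
    (measurableSet_eq_fun (measurable_pi_apply 1) measurable_const).compl
  rw [SphM_sph, ae_map_iff SphM_measurable_T.aemeasurable hs]
  filter_upwards [SphM_ae_apply_ne 1, SphM_ae_ne] with z hz hz'
  have h := SphM_nr_pos hz'
  unfold SphM_T
  rw [Pi.smul_apply, smul_eq_mul]
  refine mul_ne_zero ?_ hz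
  exact_mod_cast (inv_pos.2 h).ne'

/-- the density of the plane measure -/
private noncomputable def SphM_d (l : ℂ) : ℝ≥0∞ :=
  ENNReal.ofReal (1 / (Real.pi * (1 + ‖l‖ ^ 2) ^ 2))

private lemma SphM_measurable_d : Measurable SphM_d := by
  unfold SphM_d
  fun_prop

private lemma SphM_measurable_q : Measurable fun z : Fin 2 → ℂ => z 0 / z 1 :=
  (measurable_pi_apply 0).div (measurable_pi_apply 1)

private lemma SphM_map_q :
    sph.map (fun z : Fin 2 → ℂ => z 0 / z 1) = (volume : Measure ℂ).withDensity SphM_d := by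
  refine Measure.ext fun s hs => ?_
  rw [Measure.map_apply SphM_measurable_q hs, withDensity_apply _ hs]
  have h1 : sph ((fun z : Fin 2 → ℂ => z 0 / z 1) ⁻¹' s) =
      ∫⁻ z, s.indicator (fun _ => (1 : ℝ≥0∞)) (z 0 / z 1) ∂sph := by
    rw [← lintegral_indicator_one (SphM_measurable_q hs)]
    rfl
  have h2 : Measurable fun z : Fin 2 → ℂ => s.indicator (fun _ => (1 : ℝ≥0∞)) (z 0 / z 1) :=
    (measurable_const.indicator hs).comp SphM_measurable_q
  rw [h1, lintegral_sph_plane h2, ← lintegral_indicator hs]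
  · refine lintegral_congr fun l => ?_
    have h3 : (![l, 1] : Fin 2 → ℂ) 0 / (![l, 1] : Fin 2 → ℂ) 1 = l := by simp
    rw [h3]
    by_cases hl : l ∈ s
    · rw [Set.indicator_of_mem hl, Set.indicator_of_mem hl, mul_one]
      rfl
    · rw [Set.indicator_of_notMem hl, Set.indicator_of_notMem hl, mul_zero]
  · intro c z hc
    have : (c • z) 0 / (c • z) 1 = z 0 / z 1 := by
      rw [Pi.smul_apply, Pi.smul_apply, smul_eq_mul, smul_eq_mul, mul_div_mul_left _ _ hc]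
    rw [this]

private lemma SphM_ae_q {f : (Fin 2 → ℂ) → ℂ}
    (hom : ∀ (c : ℂ) (z : Fin 2 → ℂ), c ≠ 0 → f (c • z) = f z) :
    f =ᵐ[sph] fun z => f ![z 0 / z 1, 1] := by
  filter_upwards [SphM_ae_one] with z hz
  rw [← hom (z 1) ![z 0 / z 1, 1] hz]
  congr 1
  ext i
  fin_cases i
  · simp [mul_div_cancel₀ _ hz]
  · simp

private lemma SphM_measurable_l {f : (Fin 2 → ℂ) → ℂ} (hf : Measurable f) :
    Measurable fun l : ℂ => f ![l, 1] := by
  refine hf.comp (measurable_pi_lambda _ fun i => ?_)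
  fin_cases i
  · exact measurable_id
  · exact measurable_const

private lemma SphM_toReal (l : ℂ) : (SphM_d l).toReal = 1 / (Real.pi * (1 + ‖l‖ ^ 2) ^ 2) := by
  have := Real.pi_pos
  unfold SphM_d
  rw [ENNReal.toReal_ofReal (by positivity)]

theorem integrable_sph_plane {f : (Fin 2 → ℂ) → ℂ} (hf : Measurable f)
    (hom : ∀ (c : ℂ) (z : Fin 2 → ℂ), c ≠ 0 → f (c • z) = f z) :
    Integrable f sph ↔
      Integrable (fun l : ℂ => ((1 / (Real.pi * (1 + ‖l‖ ^ 2) ^ 2) : ℝ) : ℂ) * f ![l, 1]) := by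
  have hl := SphM_measurable_l hf
  rw [integrable_congr (SphM_ae_q hom)]
  have h1 : Integrable (fun z : Fin 2 → ℂ => f ![z 0 / z 1, 1]) sph ↔
      Integrable (fun l : ℂ => f ![l, 1]) (sph.map fun z : Fin 2 → ℂ => z 0 / z 1) :=
    (integrable_map_measure hl.aestronglyMeasurable SphM_measurable_q.aemeasurable).symm
  rw [h1, SphM_map_q, integrable_withDensity_iff_integrable_smul' SphM_measurable_d
    (Filter.Eventually.of_forall fun l => by unfold SphM_d; exact ENNReal.ofReal_lt_top)]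
  refine integrable_congr (Filter.Eventually.of_forall fun l => ?_)
  simp only [SphM_toReal, Complex.real_smul]

theorem integral_sph_plane {f : (Fin 2 → ℂ) → ℂ} (hf : Measurable f)
    (hom : ∀ (c : ℂ) (z : Fin 2 → ℂ), c ≠ 0 → f (c • z) = f z) :
    ∫ z, f z ∂sph = ∫ l : ℂ, ((1 / (Real.pi * (1 + ‖l‖ ^ 2) ^ 2) : ℝ) : ℂ) * f ![l, 1] := by
  have hl := SphM_measurable_l hf
  rw [integral_congr_ae (SphM_ae_q hom)]
  have h1 : ∫ z : Fin 2 → ℂ, f ![z 0 / z 1, 1] ∂sph =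
      ∫ l : ℂ, f ![l, 1] ∂(sph.map fun z : Fin 2 → ℂ => z 0 / z 1) :=
    (integral_map SphM_measurable_q.aemeasurable hl.aestronglyMeasurable).symm
  rw [h1, SphM_map_q, integral_withDensity_eq_integral_toReal_smul SphM_measurable_d
    (Filter.Eventually.of_forall fun l => by unfold SphM_d; exact ENNReal.ofReal_lt_top)]
  refine integral_congr_ae (Filter.Eventually.of_forall fun l => ?_)
  simp only [SphM_toReal, Complex.real_smul]

lemma measurable_xx (m : Fin 2 → ℂ) : Measurable (xx m) := by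
  unfold xx hp
  have h : Continuous fun z : Fin 2 → ℂ => ‖∑ i, conj (m i) * z i‖ ^ 2 := by fun_prop
  exact h.measurable

lemma xx_nonneg (m z : Fin 2 → ℂ) : 0 ≤ xx m z := by
  unfold xx; positivity

lemma xx_le_one {m z : Fin 2 → ℂ} (hm : nr m = 1) (hz : nr z = 1) : xx m z ≤ 1 := by
  unfold xx
  have h := norm_hp_le m z
  rw [hm, hz, mul_one] at h
  exact pow_le_one₀ (norm_nonneg _) h

private lemma SphM_xx_e0 (z : Fin 2 → ℂ) : xx ![1, 0] z = ‖z 0‖ ^ 2 := by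
  unfold xx hp
  simp [Fin.sum_univ_two]

/-- the radial change of variables -/
private lemma SphM_radial (g : ℝ → ℝ≥0∞) :
    ∫⁻ r in Set.Ioi (0 : ℝ), ENNReal.ofReal (2 * r / (r ^ 2 + 1) ^ 2) * g (r ^ 2 / (r ^ 2 + 1)) =
      ∫⁻ x in Set.Ioc (0 : ℝ) 1, g x := by
  have himg : (fun r : ℝ => r ^ 2 / (r ^ 2 + 1)) '' Set.Ioi (0 : ℝ) = Set.Ioo (0 : ℝ) 1 := by
    ext x
    constructor
    · rintro ⟨r, hr, rfl⟩
      have hr' : (0 : ℝ) < r := hr
      refine ⟨by positivity, ?_⟩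
      rw [div_lt_one (by positivity)]
      linarith
    · rintro ⟨h0, h1⟩
      have h2 : 0 < 1 - x := by linarith
      refine ⟨Real.sqrt (x / (1 - x)), Real.sqrt_pos.2 (by positivity), ?_⟩
      simp only
      rw [Real.sq_sqrt (by positivity)]
      field_simp
      ring
  have hder : ∀ r ∈ Set.Ioi (0 : ℝ), HasDerivWithinAt (fun r : ℝ => r ^ 2 / (r ^ 2 + 1))
      (2 * r / (r ^ 2 + 1) ^ 2) (Set.Ioi 0) r := by
    intro r _
    have h1 : HasDerivAt (fun r : ℝ => r ^ 2) (2 * r) r := by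
      simpa using hasDerivAt_pow 2 r
    have h2 : HasDerivAt (fun r : ℝ => r ^ 2 + 1) (2 * r) r := h1.add_const 1
    have h3 := h1.div h2 (by positivity)
    have h4 : (2 * r * (r ^ 2 + 1) - r ^ 2 * (2 * r)) / (r ^ 2 + 1) ^ 2 =
        2 * r / (r ^ 2 + 1) ^ 2 := by
      congr 1
      ring
    rw [h4] at h3
    exact h3.hasDerivWithinAt
  have hinj : Set.InjOn (fun r : ℝ => r ^ 2 / (r ^ 2 + 1)) (Set.Ioi 0) := by
    intro r hr r' hr' h
    have hr0 : (0 : ℝ) < r := hr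
    have hr0' : (0 : ℝ) < r' := hr'
    simp only at h
    rw [div_eq_div_iff (by positivity) (by positivity)] at h
    have h1 : r ^ 2 = r' ^ 2 := by nlinarith
    exact (pow_left_inj₀ hr0.le hr0'.le two_ne_zero).1 h1
  have h := lintegral_image_eq_lintegral_abs_deriv_mul measurableSet_Ioi hder hinj g
  rw [himg] at h
  rw [← setLIntegral_congr (Ioo_ae_eq_Ioc (μ := (volume : Measure ℝ)) (a := 0) (b := 1)), h]
  refine setLIntegral_congr_fun measurableSet_Ioi fun r hr => ?_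
  have hr0 : (0 : ℝ) < r := hr
  rw [abs_of_pos (by positivity)]

private lemma SphM_polar {H : ℝ → ℝ≥0∞} (hH : Measurable H) :
    ∫⁻ l : ℂ, H ‖l‖ = ∫⁻ r in Set.Ioi (0 : ℝ), ENNReal.ofReal (2 * Real.pi * r) * H r := by
  rw [← Complex.lintegral_comp_polarCoord_symm, polarCoord_target]
  have h1 : ∀ p : ℝ × ℝ, ENNReal.ofReal p.1 • H ‖Complex.polarCoord.symm p‖ =
      ENNReal.ofReal p.1 * H |p.1| := by
    intro p
    rw [Complex.norm_polarCoord_symm, smul_eq_mul]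
  rw [lintegral_congr h1]
  have hm : Measurable fun p : ℝ × ℝ => ENNReal.ofReal p.1 * H |p.1| := by
    have a1 : Measurable fun p : ℝ × ℝ => ENNReal.ofReal p.1 := by fun_prop
    have a2 : Measurable fun p : ℝ × ℝ => H |p.1| := by
      have a3 : Measurable fun p : ℝ × ℝ => |p.1| := by fun_prop
      exact hH.comp a3
    exact a1.mul a2
  rw [Measure.volume_eq_prod, ← Measure.prod_restrict, lintegral_prod _ hm.aemeasurable]
  refine setLIntegral_congr_fun measurableSet_Ioi fun r hr => ?_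
  have hr0 : (0 : ℝ) < r := hr
  simp only
  rw [lintegral_const, Measure.restrict_apply_univ, Real.volume_Ioo, abs_of_pos hr0,
    mul_comm, ← mul_assoc, ← ENNReal.ofReal_mul (by have := Real.pi_pos; linarith)]
  congr 2
  ring

private lemma SphM_map_e0 : sph.map (xx ![1, 0]) = volume.restrict (Set.Ioc (0 : ℝ) 1) := by
  refine Measure.ext fun s hs => ?_
  have hpi := Real.pi_pos
  have hind : Measurable fun x : ℝ => s.indicator (fun _ => (1 : ℝ≥0∞)) x :=
    measurable_const.indicator hs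
  rw [Measure.map_apply (measurable_xx _) hs]
  have hq : Measurable fun z : Fin 2 → ℂ => ‖z 0‖ ^ 2 / (‖z 0‖ ^ 2 + ‖z 1‖ ^ 2) := by fun_prop
  have h1 : sph ((xx ![1, 0]) ⁻¹' s) = ∫⁻ z : Fin 2 → ℂ,
      s.indicator (fun _ => (1 : ℝ≥0∞)) (‖z 0‖ ^ 2 / (‖z 0‖ ^ 2 + ‖z 1‖ ^ 2)) ∂sph := by
    rw [← lintegral_indicator_one (measurable_xx _ hs)]
    refine lintegral_congr_ae ?_
    filter_upwards [ae_nr_sph] with z hz
    have h2 : ‖z 0‖ ^ 2 + ‖z 1‖ ^ 2 = 1 := by
      have h3 := nr_sq z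
      rw [hz, Sph.nsq, Fin.sum_univ_two] at h3
      linarith
    rw [h2, div_one, ← SphM_xx_e0]
    rfl
  have hf3 : Measurable fun z : Fin 2 → ℂ =>
      s.indicator (fun _ => (1 : ℝ≥0∞)) (‖z 0‖ ^ 2 / (‖z 0‖ ^ 2 + ‖z 1‖ ^ 2)) := hind.comp hq
  rw [h1, lintegral_sph_plane hf3]
  · have h2 : ∀ l : ℂ, ENNReal.ofReal (1 / (Real.pi * (1 + ‖l‖ ^ 2) ^ 2)) *
        s.indicator (fun _ => (1 : ℝ≥0∞)) (‖(![l, 1] : Fin 2 → ℂ) 0‖ ^ 2 /
          (‖(![l, 1] : Fin 2 → ℂ) 0‖ ^ 2 + ‖(![l, 1] : Fin 2 → ℂ) 1‖ ^ 2)) =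
        (fun r : ℝ => ENNReal.ofReal (1 / (Real.pi * (1 + r ^ 2) ^ 2)) *
          s.indicator (fun _ => (1 : ℝ≥0∞)) (r ^ 2 / (r ^ 2 + 1))) ‖l‖ := by
      intro l
      simp
    have hq2 : Measurable fun r : ℝ => r ^ 2 / (r ^ 2 + 1) := by fun_prop
    have hH : Measurable fun r : ℝ => ENNReal.ofReal (1 / (Real.pi * (1 + r ^ 2) ^ 2)) *
          s.indicator (fun _ => (1 : ℝ≥0∞)) (r ^ 2 / (r ^ 2 + 1)) := by
      have a1 : Measurable fun r : ℝ => ENNReal.ofReal (1 / (Real.pi * (1 + r ^ 2) ^ 2)) := by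
        fun_prop
      exact a1.mul (hind.comp hq2)
    rw [lintegral_congr h2, SphM_polar hH]
    have h3 := SphM_radial fun x : ℝ => s.indicator (fun _ => (1 : ℝ≥0∞)) x
    have h4 : ∫⁻ x in Set.Ioc (0 : ℝ) 1, s.indicator (fun _ => (1 : ℝ≥0∞)) x =
        volume.restrict (Set.Ioc (0 : ℝ) 1) s := by
      rw [lintegral_indicator hs]
      simp
    rw [← h4, ← h3]
    refine setLIntegral_congr_fun measurableSet_Ioi fun r hr => ?_
    have hr0 : (0 : ℝ) < r := hr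
    rw [← mul_assoc, ← ENNReal.ofReal_mul (by positivity)]
    congr 2
    rw [add_comm (1 : ℝ)]
    field_simp
  · intro c z hc
    have hc0 : ‖c‖ ^ 2 ≠ 0 := by positivity
    have : ‖(c • z) 0‖ ^ 2 / (‖(c • z) 0‖ ^ 2 + ‖(c • z) 1‖ ^ 2) =
        ‖z 0‖ ^ 2 / (‖z 0‖ ^ 2 + ‖z 1‖ ^ 2) := by
      rw [Pi.smul_apply, Pi.smul_apply, smul_eq_mul, smul_eq_mul, norm_mul, norm_mul, mul_pow,
        mul_pow, ← mul_add, mul_div_mul_left _ _ hc0]
    rw [this]

private lemma SphM_unit {m : Fin 2 → ℂ} (hm : nr m = 1) :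
    conj (m 0) * m 0 + conj (m 1) * m 1 = 1 := by
  have h := hp_self m
  rw [← nr_sq, hm] at h
  unfold hp at h
  rw [Fin.sum_univ_two] at h
  rw [h]
  norm_num

theorem map_xx {m : Fin 2 → ℂ} (hm : nr m = 1) :
    sph.map (xx m) = volume.restrict (Set.Ioc (0 : ℝ) 1) := by
  have h0 := SphM_unit hm
  set U : Matrix (Fin 2) (Fin 2) ℂ := !![conj (m 0), conj (m 1); -m 1, m 0] with hU
  have hUU : Uᴴ * U = 1 := by
    ext i j
    fin_cases i <;> fin_cases j <;>
      simp [hU, Matrix.mul_apply, Fin.sum_univ_two, Matrix.conjTranspose_apply] <;>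
      first
        | (rw [← h0]; ring)
        | ring
  have h1 : xx m = (xx ![1, 0]) ∘ fun z => U *ᵥ z := by
    funext z
    simp only [Function.comp_apply]
    rw [SphM_xx_e0]
    unfold xx hp
    congr 2
  have h2 := measurePreserving_sph U hUU
  rw [h1, ← Measure.map_map (measurable_xx _) h2.measurable, h2.map_eq, SphM_map_e0]

theorem lintegral_xx {m : Fin 2 → ℂ} (hm : nr m = 1) {f : ℝ → ℝ≥0∞} (hf : Measurable f) :
    ∫⁻ z, f (xx m z) ∂sph = ∫⁻ x in Set.Ioc (0 : ℝ) 1, f x := by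
  rw [← map_xx hm, lintegral_map hf (measurable_xx m)]

theorem ae_xx_pos {m : Fin 2 → ℂ} (hm : nr m = 1) : ∀ᵐ z ∂sph, 0 < xx m z := by
  have h : ∀ᵐ x ∂(sph.map (xx m)), 0 < x := by
    rw [map_xx hm]
    filter_upwards [ae_restrict_mem (μ := (volume : Measure ℝ)) (measurableSet_Ioc (a := (0 : ℝ))
      (b := 1))] with x hx
    exact hx.1
  exact ae_of_ae_map (measurable_xx m).aemeasurable h

/-- Two different directions are never both almost orthogonal to `z`: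
`x_i + x_l = ⟨z, (m_i m_i^* + m_l m_l^*) z⟩ ≥ 1 - |⟨m_i, m_l⟩|`. -/
theorem xx_add_ge {m m' z : Fin 2 → ℂ} (hm : nr m = 1) (hm' : nr m' = 1) (hz : nr z = 1) :
    1 - ‖hp m m'‖ ≤ xx m z + xx m' z := by
  have h1 := SphM_unit hm
  have h2 := SphM_unit hm'
  have h3 := SphM_unit hz
  -- the Gram determinant vanishes
  have hgram : (1 : ℂ) + (hp m m' * hp m' z * hp z m + conj (hp m m' * hp m' z * hp z m)) =
      hp m m' * conj (hp m m') + hp m' z * conj (hp m' z) + hp m z * conj (hp m z) := by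
    have e : (conj (m 0) * m 0 + conj (m 1) * m 1) * (conj (m' 0) * m' 0 + conj (m' 1) * m' 1) *
        (conj (z 0) * z 0 + conj (z 1) * z 1) +
        (hp m m' * hp m' z * hp z m + conj (hp m m' * hp m' z * hp z m)) =
      (conj (z 0) * z 0 + conj (z 1) * z 1) * (hp m m' * conj (hp m m')) +
      (conj (m 0) * m 0 + conj (m 1) * m 1) * (hp m' z * conj (hp m' z)) +
      (conj (m' 0) * m' 0 + conj (m' 1) * m' 1) * (hp m z * conj (hp m z)) := by
      unfold hp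
      simp only [Fin.sum_univ_two, map_add, map_mul, Complex.conj_conj]
      ring
    rw [h1, h2, h3] at e
    linear_combination e
  set w := hp m m' * hp m' z * hp z m with hw
  have h4 : 1 + 2 * w.re = ‖hp m m'‖ ^ 2 + xx m' z + xx m z := by
    have h5 := congrArg Complex.re hgram
    rw [Complex.add_conj, Complex.mul_conj, Complex.mul_conj, Complex.mul_conj,
      Complex.normSq_eq_norm_sq, Complex.normSq_eq_norm_sq, Complex.normSq_eq_norm_sq] at h5
    unfold xx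
    have h6 : ((1 : ℂ) + ((2 * w.re : ℝ) : ℂ)).re = 1 + 2 * w.re := by
      rw [Complex.add_re, Complex.one_re, Complex.ofReal_re]
    have h7 : (((‖hp m m'‖ ^ 2 : ℝ) : ℂ) + ((‖hp m' z‖ ^ 2 : ℝ) : ℂ) +
        ((‖hp m z‖ ^ 2 : ℝ) : ℂ)).re = ‖hp m m'‖ ^ 2 + ‖hp m' z‖ ^ 2 + ‖hp m z‖ ^ 2 := by
      rw [Complex.add_re, Complex.add_re, Complex.ofReal_re, Complex.ofReal_re, Complex.ofReal_re]
    rw [h6, h7] at h5
    exact h5
  have h8 : -(‖hp m m'‖ * ‖hp m' z‖ * ‖hp m z‖) ≤ w.re := by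
    have h9 := Complex.abs_re_le_norm w
    have h10 : ‖w‖ = ‖hp m m'‖ * ‖hp m' z‖ * ‖hp m z‖ := by
      rw [hw, norm_mul, norm_mul, ← conj_hp m z, RCLike.norm_conj]
    rw [← h10]
    exact (abs_le.1 h9).1
  have hc : 0 ≤ ‖hp m m'‖ := norm_nonneg _
  have hx : xx m z = ‖hp m z‖ ^ 2 := rfl
  have hy : xx m' z = ‖hp m' z‖ ^ 2 := rfl
  rw [hx, hy] at h4 ⊢
  have h11 : 2 * (‖hp m' z‖ * ‖hp m z‖) ≤ ‖hp m' z‖ ^ 2 + ‖hp m z‖ ^ 2 := by
    nlinarith [sq_nonneg (‖hp m' z‖ - ‖hp m z‖)]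
  have h12 : 0 < 1 + ‖hp m m'‖ := by linarith
  have h13 : (1 + ‖hp m m'‖) * (1 - ‖hp m m'‖) ≤
      (1 + ‖hp m m'‖) * (‖hp m z‖ ^ 2 + ‖hp m' z‖ ^ 2) := by
    nlinarith [mul_le_mul_of_nonneg_left h11 hc]
  exact le_of_mul_le_mul_left h13 h12

end MPF
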