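import Pool.Agent.MPF.NumOp
import Pool.Agent.MPF.SphM

/-!
# MPF/ToepDiag: the Toeplitz operator with one singularity is diagonal

PROOF. `toep_unitary`: change of variables `z = U y` in `∫ F(Uᴴ z) coh(z)_a conj(coh(z)_b)`
(`measurePreserving_sph`), `coh (U y) = sym U coh y`. (All integrals: `coh` is bounded on the sphere;
if the integral of the scalar function does not converge both sides need care, therefore we
assume `Integrable F sph`.)
`toep_xx`: first `m = e₀ = ![1,0]`: the entry `(a,b)` is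
`(N+1) ∫ |z₀|^{2s} √C(N,a) √C(N,b) z₀^a z₁^{N-a} conj(z₀^b z₁^{N-b})`. Invariance under
`z ↦ (e^{iφ} z₀, z₁)` shows that it is multiplied by `e^{i(a-b)φ}`, so it is 0 for `a ≠ b`
(choose φ with `e^{i(a-b)φ} ≠ 1`). For `a = b`, on the sphere `|z₁|² = 1 - |z₀|²`, so by `map_xx`
it is `(N+1) C(N,a) ∫_0^1 x^{s+a} (1-x)^{N-a} dx = (N+1) C(N,a) B(s+a+1, N-a+1) = lam N s a`
(`Complex.betaIntegral`, `Complex.Gamma_mul_Gamma_eq_betaIntegral`).
General unit `m`: `U = gm m`, `xx m z = xx e₀ (Uᴴ z)` (`gm_conj_mulVec_zero`), then `toep_unitary`.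
-/

set_option linter.all false

open MeasureTheory Matrix Finset Filter Topology
open scoped ENNReal ComplexConjugate

namespace MPF

private theorem ToepDiag_entry (N : ℕ) (F : (Fin 2 → ℂ) → ℂ) (a b : Fin (N + 1)) :
    toep N F a b = ((N : ℂ) + 1) * ∫ z, F z * (coh N z a * conj (coh N z b)) ∂sph := by
  unfold toep opM
  rw [Matrix.of_apply]
  congr 2
  funext z
  show (F z • coh N z) a * conj (coh N z b) = _
  rw [Pi.smul_apply, smul_eq_mul, mul_assoc]

private theorem ToepDiag_coh_le (N : ℕ) {z : Fin 2 → ℂ} (hz : nr z = 1) (i : Fin (N + 1)) :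
    ‖coh N z i‖ ≤ 1 := by
  have h := norm_apply_le_nr (coh N z) i
  rw [nr_coh, hz, one_pow] at h
  exact h

private theorem ToepDiag_int (N : ℕ) {F : (Fin 2 → ℂ) → ℂ} (hF : Integrable F sph)
    (i j : Fin (N + 1)) : Integrable (fun z => F z * (coh N z i * conj (coh N z j))) sph := by
  refine Integrable.mul_bdd (c := 1) hF ?_ ?_
  · have h1 : Continuous fun z : Fin 2 → ℂ => coh N z i := (continuous_apply i).comp (continuous_coh N)
    have h2 : Continuous fun z : Fin 2 → ℂ => coh N z j := (continuous_apply j).comp (continuous_coh N)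
    exact (h1.mul (Complex.continuous_conj.comp h2)).aestronglyMeasurable
  · filter_upwards [ae_nr_sph] with z hz
    rw [norm_mul, Complex.norm_conj]
    exact mul_le_one₀ (ToepDiag_coh_le N hz i) (norm_nonneg _) (ToepDiag_coh_le N hz j)

theorem toep_unitary (N : ℕ) (U : Matrix (Fin 2) (Fin 2) ℂ) (hU : Uᴴ * U = 1)
    (F : (Fin 2 → ℂ) → ℂ) (hF : Integrable F sph) :
    toep N (fun z => F (Uᴴ *ᵥ z)) = sym N U * toep N F * (sym N U)ᴴ := by
  have hU' : (Uᴴ)ᴴ * Uᴴ = 1 := by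
    rw [Matrix.conjTranspose_conjTranspose]
    exact mul_eq_one_comm.1 hU
  have hmp := measurePreserving_sph U hU
  have hmp' := measurePreserving_sph Uᴴ hU'
  ext a b
  rw [ToepDiag_entry]
  have hFm : AEStronglyMeasurable (fun z => F (Uᴴ *ᵥ z)) sph :=
    hF.aestronglyMeasurable.comp_measurePreserving hmp'
  have hc : ∀ i : Fin (N + 1), Continuous fun z : Fin 2 → ℂ => coh N z i := fun i =>
    (continuous_apply i).comp (continuous_coh N)
  have hGm : AEStronglyMeasurable (fun z => F (Uᴴ *ᵥ z) * (coh N z a * conj (coh N z b))) sph :=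
    hFm.mul ((hc a).mul (Complex.continuous_conj.comp (hc b))).aestronglyMeasurable
  have h1 : ∫ z, F (Uᴴ *ᵥ z) * (coh N z a * conj (coh N z b)) ∂sph =
      ∫ z, F z * (coh N (U *ᵥ z) a * conj (coh N (U *ᵥ z) b)) ∂sph := by
    have h2 : ∫ z, F (Uᴴ *ᵥ z) * (coh N z a * conj (coh N z b)) ∂(sph.map (fun z => U *ᵥ z)) =
        ∫ z, F (Uᴴ *ᵥ (U *ᵥ z)) * (coh N (U *ᵥ z) a * conj (coh N (U *ᵥ z) b)) ∂sph :=
      integral_map hmp.measurable.aemeasurable (by rw [hmp.map_eq]; exact hGm)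
    rw [hmp.map_eq] at h2
    rw [h2]
    simp only [Matrix.mulVec_mulVec, hU, Matrix.one_mulVec]
  rw [h1]
  have h3 : ∀ z : Fin 2 → ℂ, F z * (coh N (U *ᵥ z) a * conj (coh N (U *ᵥ z) b)) =
      ∑ j, ∑ i, (sym N U a i * conj (sym N U b j)) * (F z * (coh N z i * conj (coh N z j))) := by
    intro z
    rw [← sym_mulVec_coh]
    simp only [Matrix.mulVec, dotProduct, map_sum, map_mul]
    rw [Finset.sum_mul_sum, Finset.mul_sum, Finset.sum_comm]
    refine Finset.sum_congr rfl fun j _ => ?_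
    rw [Finset.mul_sum]
    refine Finset.sum_congr rfl fun i _ => ?_
    ring
  simp only [h3]
  rw [integral_finset_sum _ fun j _ => integrable_finset_sum _ fun i _ =>
    (ToepDiag_int N hF i j).const_mul _]
  simp only [Matrix.mul_apply, Matrix.conjTranspose_apply]
  rw [Finset.mul_sum]
  refine Finset.sum_congr rfl fun j _ => ?_
  rw [integral_finset_sum _ fun i _ => (ToepDiag_int N hF i j).const_mul _, Finset.mul_sum,
    Finset.sum_mul]
  refine Finset.sum_congr rfl fun i _ => ?_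
  rw [integral_const_mul, ToepDiag_entry]
  simp only [RCLike.star_def]
  ring

/-- `x^s` is integrable for `Re s > -1`. -/
theorem integrable_xx_cpow {m : Fin 2 → ℂ} (hm : nr m = 1) {s : ℂ} (hs : -1 < s.re) :
    Integrable (fun z => (xx m z : ℂ) ^ s) sph := by
  have h1 : Integrable (fun x : ℝ => (x : ℂ) ^ s) (sph.map (xx m)) := by
    rw [map_xx hm]
    exact (intervalIntegrable_iff_integrableOn_Ioc_of_le zero_le_one).1
      (intervalIntegral.intervalIntegrable_cpow' hs)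
  exact h1.comp_measurable (measurable_xx m)

private theorem ToepDiag_hp (z : Fin 2 → ℂ) : hp ![1, 0] z = z 0 := by
  unfold hp
  simp

private theorem ToepDiag_xx (z : Fin 2 → ℂ) : xx ![1, 0] z = ‖z 0‖ ^ 2 := by
  unfold xx
  rw [ToepDiag_hp]

private theorem ToepDiag_nr : nr (![1, 0] : Fin 2 → ℂ) = 1 := by
  unfold nr Sph.nsq
  simp

private theorem ToepDiag_off (N : ℕ) {s : ℂ} (hs : -1 < s.re) (a b : Fin (N + 1)) (hab : a ≠ b) :
    toep N (fun z => (xx ![1, 0] z : ℂ) ^ s) a b = 0 := by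
  obtain ⟨φ, hφ⟩ : ∃ φ : ℂ, φ = ((Real.pi / ((a : ℕ) - (b : ℕ) : ℝ) : ℝ) : ℂ) * Complex.I := ⟨_, rfl⟩
  have hab' : (((a : ℕ) : ℝ) - ((b : ℕ) : ℝ)) ≠ 0 := by
    intro h
    apply hab
    apply Fin.ext
    have : ((a : ℕ) : ℝ) = ((b : ℕ) : ℝ) := by linarith
    exact_mod_cast this
  obtain ⟨c, hc⟩ : ∃ c : ℂ, c = Complex.exp φ := ⟨_, rfl⟩
  have hcc : conj c = Complex.exp (-φ) := by
    rw [hc, ← Complex.exp_conj, hφ, map_mul, Complex.conj_ofReal, Complex.conj_I, mul_neg]
  have hc1 : conj c * c = 1 := by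
    rw [hcc, hc, ← Complex.exp_add, neg_add_cancel, Complex.exp_zero]
  have hU : (Matrix.diagonal ![c, 1] : Matrix (Fin 2) (Fin 2) ℂ)ᴴ * Matrix.diagonal ![c, 1] = 1 := by
    rw [Matrix.diagonal_conjTranspose, Matrix.diagonal_mul_diagonal, ← Matrix.diagonal_one]
    congr 1
    funext i
    fin_cases i
    · simpa using hc1
    · simp
  have h1 := toep_unitary N (Matrix.diagonal ![c, 1]) hU (fun z => (xx ![1, 0] z : ℂ) ^ s)
    (integrable_xx_cpow ToepDiag_nr hs)
  have h2 : (fun z : Fin 2 → ℂ => ((xx ![1, 0] ((Matrix.diagonal ![c, 1] :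
      Matrix (Fin 2) (Fin 2) ℂ)ᴴ *ᵥ z) : ℝ) : ℂ) ^ s) = fun z => (xx ![1, 0] z : ℂ) ^ s := by
    funext z
    rw [ToepDiag_xx, ToepDiag_xx, Matrix.diagonal_conjTranspose, Matrix.mulVec_diagonal]
    have h3 : ‖(star ![c, 1]) 0 * z 0‖ = ‖z 0‖ := by
      have h4 : ‖c‖ = 1 := by
        rw [hc, hφ, Complex.norm_exp_ofReal_mul_I]
      simp [h4]
    rw [h3]
  rw [h2, sym_diagonal] at h1
  have h5 := congrFun (congrFun h1 a) b
  rw [Matrix.diagonal_conjTranspose, Matrix.mul_diagonal, Matrix.diagonal_mul] at h5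
  simp only [one_pow, mul_one, Pi.star_apply, RCLike.star_def, map_pow] at h5
  have h6 : c ^ (a : ℕ) * conj c ^ (b : ℕ) = -1 := by
    rw [hcc, hc, ← Complex.exp_nat_mul, ← Complex.exp_nat_mul, ← Complex.exp_add]
    have h7 : ((a : ℕ) : ℂ) * φ + ((b : ℕ) : ℂ) * -φ = Real.pi * Complex.I := by
      rw [hφ]
      push_cast
      have h8 : (((a : ℕ) : ℂ) - ((b : ℕ) : ℂ)) ≠ 0 := by
        intro h
        apply hab'
        exact_mod_cast h
      field_simp
      ring
    rw [h7, Complex.exp_pi_mul_I]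
  have h9 : toep N (fun z => (xx ![1, 0] z : ℂ) ^ s) a b =
      (c ^ (a : ℕ) * conj c ^ (b : ℕ)) * toep N (fun z => (xx ![1, 0] z : ℂ) ^ s) a b := by
    calc _ = _ := h5
      _ = _ := by ring
  rw [h6] at h9
  have h10 : (2 : ℂ) * toep N (fun z => (xx ![1, 0] z : ℂ) ^ s) a b = 0 := by
    linear_combination h9
  rcases mul_eq_zero.1 h10 with h | h
  · norm_num at h
  · exact h

private theorem ToepDiag_diag (N : ℕ) {s : ℂ} (hs : -1 < s.re) (a : Fin (N + 1)) :
    toep N (fun z => (xx ![1, 0] z : ℂ) ^ s) a a = lam N s a := by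
  have haN : (a : ℕ) ≤ N := Nat.lt_succ_iff.1 a.2
  rw [ToepDiag_entry]
  obtain ⟨g, hg⟩ : ∃ g : ℝ → ℂ, g = fun x : ℝ => (x : ℂ) ^ s *
      ((N.choose a : ℂ) * ((x : ℂ) ^ (a : ℕ) * (1 - (x : ℂ)) ^ (N - (a : ℕ)))) := ⟨_, rfl⟩
  have h1 : ∫ z, (xx ![1, 0] z : ℂ) ^ s * (coh N z a * conj (coh N z a)) ∂sph =
      ∫ z, g (xx ![1, 0] z) ∂sph := by
    refine integral_congr_ae ?_
    filter_upwards [ae_nr_sph] with z hz
    rw [hg]
    simp only
    congr 1
    rw [Complex.mul_conj, Complex.normSq_eq_norm_sq]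
    have h2 : ‖z 1‖ ^ 2 = 1 - ‖z 0‖ ^ 2 := by
      have h3 := nr_sq z
      rw [hz] at h3
      unfold Sph.nsq at h3
      rw [Fin.sum_univ_two] at h3
      linarith
    unfold coh
    rw [norm_mul, norm_mul, norm_pow, norm_pow, Complex.norm_real,
      Real.norm_of_nonneg (Real.sqrt_nonneg _), mul_pow, mul_pow,
      Real.sq_sqrt (Nat.cast_nonneg _), ← pow_mul, ← pow_mul, mul_comm (a : ℕ) 2,
      mul_comm (N - (a : ℕ)) 2, pow_mul, pow_mul, h2, ToepDiag_xx]
    push_cast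
    ring
  rw [h1]
  have hgm : Measurable g := by
    rw [hg]
    have hx : Measurable fun x : ℝ => (x : ℂ) := Complex.measurable_ofReal
    exact (hx.pow_const s).mul (measurable_const.mul ((hx.pow_const _).mul
      ((measurable_const.sub hx).pow_const _)))
  have h4 : ∫ z, g (xx ![1, 0] z) ∂sph = ∫ x in Set.Ioc (0 : ℝ) 1, g x := by
    rw [← map_xx ToepDiag_nr, integral_map (measurable_xx _).aemeasurable
      hgm.aestronglyMeasurable]
  rw [h4]
  have h5 : ∫ x in Set.Ioc (0 : ℝ) 1, g x =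
      (N.choose a : ℂ) * Complex.betaIntegral (s + a + 1) ((N - (a : ℕ) : ℕ) + 1) := by
    unfold Complex.betaIntegral
    rw [intervalIntegral.integral_of_le zero_le_one, ← integral_const_mul]
    refine setIntegral_congr_fun measurableSet_Ioc fun x hx => ?_
    rw [hg]
    simp only
    have hx0 : (x : ℂ) ≠ 0 := by
      have := hx.1.ne'
      exact_mod_cast this
    rw [add_sub_cancel_right, add_sub_cancel_right, Complex.cpow_natCast,
      Complex.cpow_add _ _ hx0, Complex.cpow_natCast]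
    ring
  rw [h5]
  have h6 := Complex.Gamma_mul_Gamma_eq_betaIntegral (s := s + a + 1)
    (t := ((N - (a : ℕ) : ℕ) : ℂ) + 1) (by
      have : (0 : ℝ) ≤ (a : ℕ) := Nat.cast_nonneg _
      simp only [Complex.add_re, Complex.natCast_re, Complex.one_re]
      linarith) (by
      have : (0 : ℝ) ≤ ((N - (a : ℕ) : ℕ) : ℝ) := Nat.cast_nonneg _
      simp only [Complex.add_re, Complex.natCast_re, Complex.one_re]
      linarith)
  have h7 : s + a + 1 + (((N - (a : ℕ) : ℕ) : ℂ) + 1) = N + 2 + s := by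
    rw [Nat.cast_sub haN]
    ring
  rw [h7] at h6
  have h8 : Complex.Gamma (N + 2 + s) ≠ 0 := by
    apply Complex.Gamma_ne_zero_of_re_pos
    have : (0 : ℝ) ≤ N := Nat.cast_nonneg _
    simp only [Complex.add_re, Complex.natCast_re, Complex.re_ofNat]
    linarith
  have h9 : Complex.Gamma (((N - (a : ℕ) : ℕ) : ℂ) + 1) = ((N - (a : ℕ)).factorial : ℂ) :=
    Complex.Gamma_nat_eq_factorial _
  have h10 : Complex.Gamma ((N : ℂ) + 2) = ((N + 1).factorial : ℂ) := by
    rw [← Complex.Gamma_nat_eq_factorial]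
    push_cast
    ring_nf
  have h11 : Complex.Gamma (((a : ℕ) : ℂ) + 1) = ((a : ℕ).factorial : ℂ) :=
    Complex.Gamma_nat_eq_factorial _
  have h12 : ((N : ℂ) + 1) * (N.choose a : ℂ) * ((N - (a : ℕ)).factorial : ℂ) *
      ((a : ℕ).factorial : ℂ) = ((N + 1).factorial : ℂ) := by
    have h13 := Nat.choose_mul_factorial_mul_factorial haN
    rw [Nat.factorial_succ]
    rw [← h13]
    push_cast
    ring
  have h14 : (((a : ℕ).factorial : ℕ) : ℂ) ≠ 0 := by
    exact_mod_cast Nat.factorial_ne_zero _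
  unfold lam
  rw [h10, h11]
  have h15 : Complex.betaIntegral (s + a + 1) ((N - (a : ℕ) : ℕ) + 1) =
      Complex.Gamma (s + a + 1) * ((N - (a : ℕ)).factorial : ℂ) / Complex.Gamma (N + 2 + s) := by
    rw [eq_div_iff h8, ← h9, h6]
    ring
  rw [h15, ← h12]
  have h16 : ((a : ℕ) : ℂ) + 1 + s = s + a + 1 := by ring
  rw [h16]
  field_simp

theorem toep_xx (N : ℕ) {m : Fin 2 → ℂ} (hm : nr m = 1) {s : ℂ} (hs : -1 < s.re) :
    toep N (fun z => (xx m z : ℂ) ^ s) = fN N m (lam N s) := by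
  have h1 := toep_unitary N (gm m) (gm_conj_mul hm) (fun z => (xx ![1, 0] z : ℂ) ^ s)
    (integrable_xx_cpow ToepDiag_nr hs)
  have h2 : (fun z : Fin 2 → ℂ => ((xx ![1, 0] ((gm m)ᴴ *ᵥ z) : ℝ) : ℂ) ^ s) =
      fun z => (xx m z : ℂ) ^ s := by
    funext z
    rw [ToepDiag_xx, gm_conj_mulVec_zero]
    rfl
  rw [h2] at h1
  rw [h1]
  unfold fN
  congr 2
  ext a b
  by_cases hab : a = b
  · subst hab
    rw [ToepDiag_diag N hs, Matrix.diagonal_apply_eq]
  · rw [ToepDiag_off N hs a b hab, Matrix.diagonal_apply_ne _ hab]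

theorem toep_one (N : ℕ) : toep N (fun _ => 1) = 1 := by
  have h1 := toep_xx N ToepDiag_nr (s := 0) (by simp)
  simp only [Complex.cpow_zero] at h1
  rw [h1, ← fN_one (N := N) ToepDiag_nr]
  apply fN_congr
  intro j _
  unfold lam
  rw [add_zero, add_zero]
  refine div_self (mul_ne_zero ?_ ?_)
  · exact Complex.Gamma_ne_zero_of_re_pos (by
      have : (0 : ℝ) ≤ j := Nat.cast_nonneg _
      simp only [Complex.add_re, Complex.natCast_re, Complex.one_re]
      linarith)
  · exact Complex.Gamma_ne_zero_of_re_pos (by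
      have : (0 : ℝ) ≤ N := Nat.cast_nonneg _
      simp only [Complex.add_re, Complex.natCast_re, Complex.re_ofNat]
      linarith)

end MPF
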