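import Pool.Agent.MPF.RootLaw
import Pool.Agent.MPF.Ratio
import Pool.Agent.MPF.Andreief
import Pool.Agent.MPF.ToepDiag

/-!
# MPF/Exact: the exact formula

`n = N + 1`. Directions `mz z 0 = minf`, `mz z (i+1) = zdir (z i)`; exponents `sz s 0 = -∑ s_i`, `sz s (i+1) = s i`.

PROOF. `γ_i = 2 s_i`. By `ratio_law` and `root_law` (`κ = 2n`) the law of `(det(z_i - A B^{-1}))_i` is `C` times the image of the measure
`∏_{i<j}|λ_j - λ_i|² ∏ (1+|λ_j|²)^{-(n+1)} dλ` under `λ ↦ (∏_j (z_i - λ_j))_i` (equality of the two measures on `Fin K → ℂ`, from the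
equality of all lower integrals), so for measurable `g : (Fin K → ℂ) → ℂ` integrability and integrals agree. With
`g(d) = ∏ exp(2 s_i log|d_i|)`: `E = C ∫ ∏_j Φ(λ_j) |Δ|² dμ^n`, `Φ(λ) = ∏_i |z_i - λ|^{2 s_i}` (a.e.; where some `z_i = λ_j` the conventions
`log 0 = 0` do not matter, null set), `μ = (1+|λ|²)^{-(n+1)} dλ`. `andreief`: `E = C n! det(∫ Φ λ^a conj λ^b dμ)`, the same with `Φ = 1` for
`1 = C n! det(...)` (case `s = 0`). Now on the plane, `u = (λ,1)`, `|⟨zdir z, u⟩|² = |z-λ|²/(1+|z|²)`, `|⟨minf,u⟩|² = 1`: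
`FF (mz z) (sz s) (λ,1) = Φ(λ) ∏ (1+|z_i|²)^{-s_i}` and `FF` is homogeneous of degree 0 since `∑ sz = 0`. The function
`f(z) = FF(z) coh(z)_a conj(coh(z)_b)/|z|^{2N}` is homogeneous of degree 0, equals `FF coh conj coh` on the sphere, so by
`integral_sph_plane` the entry `(a,b)` of `toep N FF` is
`(N+1)/π √C(N,a) √C(N,b) ∫ FF(λ,1) λ^a conj λ^b (1+|λ|²)^{-N-2} dλ`, `N + 2 = n + 1`. The diagonal factors `√C(N,a)(N+1)/π` are the same for
`F = FF` and `F = 1`, and `det (toep N 1) = 1` (`toep_one`). So `E = ∏_i (1+|z_i|²)^{n s_i} det (toep N FF)`.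
Integrability of `(1+|λ|²)^(n-1) Φ` with respect to `μ`: `∫ |Φ| (1+|λ|²)^{n-1-(n+1)} dλ = ∫ |Φ| (1+|λ|²)^{-2} dλ < ∞` iff `FF` is
integrable on the sphere (`integrable_sph_plane`). `FF` is integrable on the sphere:
`Re s_i > -1`, `Re sz 0 > -1`, the directions are pairwise not parallel, at most one factor is singular at a time
(`integrable_xx_cpow`, `xx_add_ge`).
-/

open MeasureTheory Matrix Finset Filter Topology
open scoped ENNReal ComplexConjugate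

namespace MPF

variable {K : ℕ}

/-- The directions. -/
noncomputable def mz (z : Fin K → ℂ) : Fin (K + 1) → Fin 2 → ℂ := Fin.cons minf fun i => zdir (z i)

/-- The exponents. -/
noncomputable def sz (s : Fin K → ℂ) : Fin (K + 1) → ℂ := Fin.cons (-∑ i, s i) s

/-! ### Directions -/

private theorem Exact_sqrt_pos (z : ℂ) : 0 < Real.sqrt (1 + ‖z‖ ^ 2) := Real.sqrt_pos.2 (by positivity)

private theorem Exact_nr_minf : nr minf = 1 := by
  unfold nr Sph.nsq minf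
  simp

private theorem Exact_nr_zdir (z : ℂ) : nr (zdir z) = 1 := by
  unfold zdir
  rw [nr_smul]
  have h1 : nr ![-1, conj z] = Real.sqrt (1 + ‖z‖ ^ 2) := by
    unfold nr Sph.nsq
    simp [Fin.sum_univ_two]
  rw [h1, Complex.norm_real, Real.norm_of_nonneg (inv_nonneg.2 (Exact_sqrt_pos z).le)]
  exact inv_mul_cancel₀ (Exact_sqrt_pos z).ne'

theorem nr_mz (z : Fin K → ℂ) (i : Fin (K + 1)) : nr (mz z i) = 1 := by
  refine Fin.cases ?_ (fun i => ?_) i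
  · exact Exact_nr_minf
  · exact Exact_nr_zdir (z i)

private theorem Exact_sq_inv (z : ℂ) : ((Real.sqrt (1 + ‖z‖ ^ 2))⁻¹) ^ 2 = (1 + ‖z‖ ^ 2)⁻¹ := by
  rw [inv_pow, Real.sq_sqrt (by positivity)]

private theorem Exact_hp_minf (z : ℂ) : 1 - ‖hp minf (zdir z)‖ ^ 2 = (1 + ‖z‖ ^ 2)⁻¹ := by
  have h1 : hp minf (zdir z) = (((Real.sqrt (1 + ‖z‖ ^ 2))⁻¹ : ℝ) : ℂ) * conj z := by
    unfold hp minf zdir
    simp [Fin.sum_univ_two]
  rw [h1, norm_mul, mul_pow, Complex.norm_real, Real.norm_of_nonneg (inv_nonneg.2 (Exact_sqrt_pos z).le),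
    Exact_sq_inv, Complex.norm_conj]
  have h2 : (1 + ‖z‖ ^ 2) ≠ 0 := by positivity
  field_simp
  ring

private theorem Exact_hp_zdir (z w : ℂ) : 1 - ‖hp (zdir z) (zdir w)‖ ^ 2 =
    ‖z - w‖ ^ 2 / ((1 + ‖z‖ ^ 2) * (1 + ‖w‖ ^ 2)) := by
  have h1 : hp (zdir z) (zdir w) = (((Real.sqrt (1 + ‖z‖ ^ 2))⁻¹ : ℝ) : ℂ) *
      (((Real.sqrt (1 + ‖w‖ ^ 2))⁻¹ : ℝ) : ℂ) * (1 + z * conj w) := by
    unfold zdir
    rw [hp_smul_left, hp_smul_right, Complex.conj_ofReal]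
    have h3 : hp ![-1, conj z] ![-1, conj w] = 1 + z * conj w := by
      unfold hp
      simp [Fin.sum_univ_two]
    rw [h3]
    ring
  rw [h1, norm_mul, norm_mul, mul_pow, mul_pow, Complex.norm_real, Complex.norm_real,
    Real.norm_of_nonneg (inv_nonneg.2 (Exact_sqrt_pos z).le),
    Real.norm_of_nonneg (inv_nonneg.2 (Exact_sqrt_pos w).le), Exact_sq_inv, Exact_sq_inv]
  have h2 : (1 + ‖z‖ ^ 2) ≠ 0 := by positivity
  have h3 : (1 + ‖w‖ ^ 2) ≠ 0 := by positivity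
  have h4 : (1 + ‖z‖ ^ 2) * (1 + ‖w‖ ^ 2) - ‖1 + z * conj w‖ ^ 2 = ‖z - w‖ ^ 2 := by
    simp only [Complex.sq_norm, Complex.normSq_apply, Complex.add_re, Complex.add_im, Complex.sub_re,
      Complex.sub_im, Complex.mul_re, Complex.mul_im, Complex.conj_re, Complex.conj_im,
      Complex.one_re, Complex.one_im]
    ring
  rw [← h4]
  field_simp

theorem hp_mz_zero (z : Fin K → ℂ) (i : Fin K) :
    1 - ‖hp (mz z 0) (mz z i.succ)‖ ^ 2 = (1 + ‖z i‖ ^ 2)⁻¹ := Exact_hp_minf (z i)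

theorem hp_mz_succ (z : Fin K → ℂ) (i k : Fin K) :
    1 - ‖hp (mz z i.succ) (mz z k.succ)‖ ^ 2 =
      ‖z i - z k‖ ^ 2 / ((1 + ‖z i‖ ^ 2) * (1 + ‖z k‖ ^ 2)) := Exact_hp_zdir (z i) (z k)

theorem hp_mz_lt (z : Fin K → ℂ) (hz : Function.Injective z) (i k : Fin (K + 1)) (hik : i ≠ k) :
    ‖hp (mz z i) (mz z k)‖ < 1 := by
  have h0 : ∀ x : ℝ, 0 ≤ x → 0 < 1 - x ^ 2 → x < 1 := by
    intro x hx h
    nlinarith
  have hsymm : ∀ v w : Fin 2 → ℂ, ‖hp v w‖ = ‖hp w v‖ := fun v w => by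
    rw [← conj_hp v w, Complex.norm_conj]
  apply h0 _ (norm_nonneg _)
  revert hik
  refine Fin.cases ?_ (fun i => ?_) i
  · refine Fin.cases ?_ (fun k => ?_) k
    · intro h; exact absurd rfl h
    · intro _
      rw [hp_mz_zero]
      positivity
  · refine Fin.cases ?_ (fun k => ?_) k
    · intro _
      rw [hsymm, hp_mz_zero]
      positivity
    · intro h
      rw [hp_mz_succ]
      have h1 : z i ≠ z k := fun h2 => h (congrArg Fin.succ (hz h2))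
      have h2 : 0 < ‖z i - z k‖ := norm_pos_iff.2 (sub_ne_zero.2 h1)
      positivity

/-! ### The law of the vector of determinants -/

private theorem Exact_measD (n : ℕ) (z : Fin K → ℂ) :
    Measurable (fun p : (Fin n × Fin n → ℂ) × (Fin n × Fin n → ℂ) => fun i : Fin K =>
      (z i • (1 : Matrix (Fin n) (Fin n) ℂ) - Sph.mat p.1 * (Sph.mat p.2)⁻¹).det) := by
  refine measurable_pi_iff.2 fun i => ?_
  have hc1 : Continuous fun A : Fin n × Fin n → ℂ => Sph.mat A := by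
    unfold Sph.mat
    refine continuous_matrix fun a b => ?_
    exact continuous_apply (a, b)
  have hF : Continuous fun q : ℂ × ((Fin n × Fin n → ℂ) × (Fin n × Fin n → ℂ)) =>
      (z i • (1 : Matrix (Fin n) (Fin n) ℂ) -
        q.1 • (Sph.mat q.2.1 * (Sph.mat q.2.2).adjugate)).det := by
    apply Continuous.matrix_det
    apply Continuous.sub continuous_const
    apply Continuous.smul continuous_fst
    apply Continuous.matrix_mul
    · exact hc1.comp (continuous_fst.comp continuous_snd)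
    · exact (hc1.comp (continuous_snd.comp continuous_snd)).matrix_adjugate
  have hG : Measurable fun p : (Fin n × Fin n → ℂ) × (Fin n × Fin n → ℂ) =>
      (((Sph.mat p.2).det)⁻¹, p) := by
    apply Measurable.prodMk _ measurable_id
    apply Measurable.inv
    exact (hc1.matrix_det.comp continuous_snd).measurable
  convert hF.measurable.comp hG using 1
  funext p
  show _ = (z i • (1 : Matrix (Fin n) (Fin n) ℂ) -
        ((Sph.mat p.2).det)⁻¹ • (Sph.mat p.1 * (Sph.mat p.2).adjugate)).det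
  rw [Matrix.inv_def, Ring.inverse_eq_inv', Matrix.mul_smul]

/-- The density of the law of the eigenvalues. -/
noncomputable def Exact_V (N : ℕ) (l : Fin (N + 1) → ℂ) : ℝ :=
  (∏ i, ∏ j ∈ Ioi i, ‖l j - l i‖ ^ 2) * ∏ j, ((1 + ‖l j‖ ^ 2) ^ (N + 2))⁻¹

private theorem Exact_V_meas (N : ℕ) : Measurable (Exact_V N) := by
  unfold Exact_V
  fun_prop

private theorem Exact_V_nonneg (N : ℕ) (l : Fin (N + 1) → ℂ) : 0 ≤ Exact_V N l := by
  unfold Exact_V
  positivity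

private theorem Exact_measL (n : ℕ) (z : Fin K → ℂ) :
    Measurable (fun l : Fin n → ℂ => fun i : Fin K => ∏ j, (z i - l j)) := by
  fun_prop

private theorem Exact_law (N : ℕ) : ∃ C : ℝ≥0∞, C ≠ ∞ ∧ ∀ (K : ℕ) (z : Fin K → ℂ),
    ((Sph.G (Fin (N + 1) × Fin (N + 1))).prod (Sph.G (Fin (N + 1) × Fin (N + 1)))).map
      (fun p => fun i : Fin K =>
      (z i • (1 : Matrix (Fin (N + 1)) (Fin (N + 1)) ℂ) - Sph.mat p.1 * (Sph.mat p.2)⁻¹).det) =
    C • ((volume : Measure (Fin (N + 1) → ℂ)).withDensity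
      (fun l => ENNReal.ofReal (Exact_V N l))).map
      (fun l => fun i : Fin K => ∏ j, (z i - l j)) := by
  obtain ⟨C₁, _, h1t, h1⟩ := ratio_law (N + 1)
  obtain ⟨C₂, _, h2t, h2⟩ := root_law (N + 1) (2 * ((N + 1 : ℕ) : ℝ)) (by push_cast; linarith [(Nat.cast_nonneg N : (0 : ℝ) ≤ N)])
  refine ⟨C₁ * C₂, ENNReal.mul_ne_top h1t h2t, fun K z => ?_⟩
  refine Measure.ext_of_lintegral _ fun f hf => ?_
  have hfL : Measurable fun l : Fin (N + 1) → ℂ => f fun i => ∏ j, (z i - l j) :=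
    hf.comp (Exact_measL _ z)
  rw [lintegral_map hf (Exact_measD _ z), lintegral_smul_measure, lintegral_map hf (Exact_measL _ z),
    lintegral_withDensity_eq_lintegral_mul _ (Exact_V_meas N).ennreal_ofReal hfL]
  have hdm : ∀ c : ℂ, Measurable (fun M : Fin (N + 1) → Fin (N + 1) → ℂ =>
      (c • (1 : Matrix (Fin (N + 1)) (Fin (N + 1)) ℂ) - Matrix.of M).det) := by
    intro c
    apply Continuous.measurable
    apply Continuous.matrix_det
    apply Continuous.sub continuous_const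
    exact continuous_id
  have h3 := h1 (fun M => f fun i => (z i • (1 : Matrix (Fin (N + 1)) (Fin (N + 1)) ℂ) - Matrix.of M).det)
    (hf.comp (measurable_pi_iff.2 fun i => hdm (z i)))
  have h4 := h2 K z f hf
  have h5 : ∀ p : (Fin (N + 1) × Fin (N + 1) → ℂ) × (Fin (N + 1) × Fin (N + 1) → ℂ),
      (Matrix.of fun i j => (Sph.mat p.1 * (Sph.mat p.2)⁻¹) i j : Matrix (Fin (N + 1)) (Fin (N + 1)) ℂ) =
      Sph.mat p.1 * (Sph.mat p.2)⁻¹ := fun p => rfl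
  simp only [h5] at h3
  rw [h3, h4, smul_eq_mul, mul_assoc]
  congr 2
  refine lintegral_congr fun l => ?_
  rw [Pi.mul_apply, mul_comm]
  congr 2
  unfold Exact_V
  congr 1
  refine Finset.prod_congr rfl fun j _ => ?_
  have h6 : -(2 * ((N + 1 : ℕ) : ℝ) - ((N + 1 : ℕ) : ℝ) + 1) = -((N + 2 : ℕ) : ℝ) := by
    push_cast; ring
  rw [h6, Real.rpow_neg (by positivity), Real.rpow_natCast]

private theorem Exact_int (N : ℕ) : ∃ C : ℝ, ∀ (K : ℕ) (z : Fin K → ℂ) (g : (Fin K → ℂ) → ℂ),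
    Measurable g →
    Integrable (fun l : Fin (N + 1) → ℂ => g (fun i => ∏ j, (z i - l j)) * (Exact_V N l : ℂ)) →
    Integrable (fun p : (Fin (N + 1) × Fin (N + 1) → ℂ) × (Fin (N + 1) × Fin (N + 1) → ℂ) =>
      g (fun i => (z i • (1 : Matrix (Fin (N + 1)) (Fin (N + 1)) ℂ) -
        Sph.mat p.1 * (Sph.mat p.2)⁻¹).det))
      ((Sph.G (Fin (N + 1) × Fin (N + 1))).prod (Sph.G (Fin (N + 1) × Fin (N + 1)))) ∧
    ∫ p : (Fin (N + 1) × Fin (N + 1) → ℂ) × (Fin (N + 1) × Fin (N + 1) → ℂ),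
      g (fun i => (z i • (1 : Matrix (Fin (N + 1)) (Fin (N + 1)) ℂ) -
        Sph.mat p.1 * (Sph.mat p.2)⁻¹).det)
      ∂((Sph.G (Fin (N + 1) × Fin (N + 1))).prod (Sph.G (Fin (N + 1) × Fin (N + 1)))) =
      (C : ℂ) * ∫ l : Fin (N + 1) → ℂ, g (fun i => ∏ j, (z i - l j)) * (Exact_V N l : ℂ) := by
  obtain ⟨C, hC, h⟩ := Exact_law N
  refine ⟨C.toReal, fun K z g hg hi => ?_⟩
  have hV : Measurable fun l : Fin (N + 1) → ℂ => ENNReal.ofReal (Exact_V N l) :=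
    (Exact_V_meas N).ennreal_ofReal
  have hlt : ∀ᵐ l : Fin (N + 1) → ℂ, ENNReal.ofReal (Exact_V N l) < ∞ :=
    Filter.Eventually.of_forall fun l => ENNReal.ofReal_lt_top
  have e1 : (fun l : Fin (N + 1) → ℂ => (ENNReal.ofReal (Exact_V N l)).toReal •
      g (fun i => ∏ j, (z i - l j))) =
      fun l => g (fun i => ∏ j, (z i - l j)) * (Exact_V N l : ℂ) := by
    funext l
    rw [ENNReal.toReal_ofReal (Exact_V_nonneg N l), Complex.real_smul, mul_comm]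
  have hi2 : Integrable (fun l : Fin (N + 1) → ℂ => g (fun i => ∏ j, (z i - l j)))
      ((volume : Measure (Fin (N + 1) → ℂ)).withDensity fun l => ENNReal.ofReal (Exact_V N l)) := by
    rw [integrable_withDensity_iff_integrable_smul' hV hlt, e1]
    exact hi
  have hi3 : Integrable g (((Sph.G (Fin (N + 1) × Fin (N + 1))).prod
      (Sph.G (Fin (N + 1) × Fin (N + 1)))).map (fun p => fun i : Fin K =>
      (z i • (1 : Matrix (Fin (N + 1)) (Fin (N + 1)) ℂ) - Sph.mat p.1 * (Sph.mat p.2)⁻¹).det)) := by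
    rw [h K z]
    refine Integrable.smul_measure ?_ hC
    rw [integrable_map_measure hg.aestronglyMeasurable (Exact_measL _ z).aemeasurable]
    exact hi2
  refine ⟨?_, ?_⟩
  · exact (integrable_map_measure hg.aestronglyMeasurable (Exact_measD _ z).aemeasurable).1 hi3
  · have h2 := integral_map (μ := (Sph.G (Fin (N + 1) × Fin (N + 1))).prod
      (Sph.G (Fin (N + 1) × Fin (N + 1)))) (Exact_measD (N + 1) z).aemeasurable
      hg.aestronglyMeasurable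
    rw [← h2, h K z, integral_smul_measure, integral_map (Exact_measL _ z).aemeasurable
      hg.aestronglyMeasurable, integral_withDensity_eq_integral_toReal_smul hV hlt, e1,
      Complex.real_smul]

/-! ### Andréief -/

/-- The symbol on the plane. -/
noncomputable def Exact_Phi (z γ : Fin K → ℂ) (l : ℂ) : ℂ :=
  ∏ i, Complex.exp (γ i * ((Real.log ‖z i - l‖ : ℝ) : ℂ))

/-- The weighted symbol on the plane. -/
noncomputable def Exact_F (N : ℕ) (z γ : Fin K → ℂ) (l : ℂ) : ℂ :=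
  ((((1 + ‖l‖ ^ 2) ^ (N + 2))⁻¹ : ℝ) : ℂ) * Exact_Phi z γ l

/-- The moment matrix. -/
noncomputable def Exact_m (N : ℕ) (z γ : Fin K → ℂ) : Matrix (Fin (N + 1)) (Fin (N + 1)) ℂ :=
  Matrix.of fun a b => ∫ l : ℂ, Exact_F N z γ l * l ^ (a : ℕ) * conj l ^ (b : ℕ)

private theorem Exact_ae (N : ℕ) (z γ : Fin K → ℂ) :
    (fun l : Fin (N + 1) → ℂ => (∏ i, Complex.exp (γ i * ((Real.log ‖∏ j, (z i - l j)‖ : ℝ) : ℂ))) *
      (Exact_V N l : ℂ)) =ᵐ[volume]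
    fun l => (∏ j, Exact_F N z γ (l j)) * ((∏ i, ∏ j ∈ Ioi i, ‖l j - l i‖ ^ 2 : ℝ) : ℂ) := by
  have h1 : ∀ᵐ l : Fin (N + 1) → ℂ, ∀ i j, z i - l j ≠ 0 := by
    rw [ae_all_iff]
    intro i
    rw [ae_all_iff]
    intro j
    have h := Measure.pi_hyperplane (fun _ : Fin (N + 1) => (volume : Measure ℂ)) j (z i)
    rw [ae_iff]
    have e : {a : Fin (N + 1) → ℂ | ¬ (z i - a j ≠ 0)} = {f | f j = z i} := by
      ext a
      simp only [Set.mem_ofPred_eq, not_not, sub_eq_zero]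
      exact eq_comm
    rw [e]
    exact h
  filter_upwards [h1] with l hl
  have h2 : ∀ i, Complex.exp (γ i * ((Real.log ‖∏ j, (z i - l j)‖ : ℝ) : ℂ)) =
      ∏ j, Complex.exp (γ i * ((Real.log ‖z i - l j‖ : ℝ) : ℂ)) := by
    intro i
    rw [norm_prod, Real.log_prod (fun j _ => norm_ne_zero_iff.2 (hl i j)), Complex.ofReal_sum,
      Finset.mul_sum, Complex.exp_sum]
  simp_rw [h2]
  rw [Finset.prod_comm]
  unfold Exact_V Exact_F Exact_Phi
  rw [Finset.prod_mul_distrib]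
  push_cast
  ring

private theorem Exact_E (N : ℕ) : ∃ C : ℂ, ∀ (K : ℕ) (z γ : Fin K → ℂ),
    Integrable (fun l : ℂ => ((((1 + ‖l‖ ^ 2) ^ 2)⁻¹ : ℝ) : ℂ) * Exact_Phi z γ l) →
    Integrable (fun p : (Fin (N + 1) × Fin (N + 1) → ℂ) × (Fin (N + 1) × Fin (N + 1) → ℂ) =>
      ∏ i, Complex.exp (γ i * ((Real.log ‖(z i • (1 : Matrix (Fin (N + 1)) (Fin (N + 1)) ℂ) -
        Sph.mat p.1 * (Sph.mat p.2)⁻¹).det‖ : ℝ) : ℂ)))
      ((Sph.G (Fin (N + 1) × Fin (N + 1))).prod (Sph.G (Fin (N + 1) × Fin (N + 1)))) ∧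
    ∫ p : (Fin (N + 1) × Fin (N + 1) → ℂ) × (Fin (N + 1) × Fin (N + 1) → ℂ),
      ∏ i, Complex.exp (γ i * ((Real.log ‖(z i • (1 : Matrix (Fin (N + 1)) (Fin (N + 1)) ℂ) -
        Sph.mat p.1 * (Sph.mat p.2)⁻¹).det‖ : ℝ) : ℂ))
      ∂((Sph.G (Fin (N + 1) × Fin (N + 1))).prod (Sph.G (Fin (N + 1) × Fin (N + 1)))) =
      C * (Exact_m N z γ).det := by
  obtain ⟨C, hC⟩ := Exact_int N
  refine ⟨(C : ℂ) * ((N + 1).factorial : ℂ), fun K z γ hi => ?_⟩
  have hg : Measurable (fun d : Fin K → ℂ => ∏ i, Complex.exp (γ i * ((Real.log ‖d i‖ : ℝ) : ℂ))) := by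
    fun_prop
  have hF : Integrable (fun l : ℂ => (((1 + ‖l‖ ^ 2) ^ (N + 1 - 1) : ℝ) : ℂ) * Exact_F N z γ l)
      volume := by
    have e : (fun l : ℂ => (((1 + ‖l‖ ^ 2) ^ (N + 1 - 1) : ℝ) : ℂ) * Exact_F N z γ l) =
        fun l : ℂ => ((((1 + ‖l‖ ^ 2) ^ 2)⁻¹ : ℝ) : ℂ) * Exact_Phi z γ l := by
      funext l
      unfold Exact_F
      rw [← mul_assoc]
      congr 1
      have h1 : (1 + ‖l‖ ^ 2) ≠ 0 := by positivity
      rw [← Complex.ofReal_mul]
      congr 1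
      rw [Nat.add_sub_cancel, pow_add, mul_inv, ← mul_assoc, mul_inv_cancel₀ (pow_ne_zero _ h1), one_mul]
    rw [e]
    exact hi
  obtain ⟨h3, h4⟩ := andreief (N + 1) volume hF
  have hae := Exact_ae N z γ
  obtain ⟨h5, h6⟩ := hC K z _ hg ((integrable_congr hae).2 h3)
  refine ⟨h5, ?_⟩
  rw [h6, integral_congr_ae hae]
  have h7 : (∫ l : Fin (N + 1) → ℂ, (∏ j, Exact_F N z γ (l j)) *
      ((∏ i, ∏ j ∈ Ioi i, ‖l j - l i‖ ^ 2 : ℝ) : ℂ)) = ((N + 1).factorial : ℂ) * (Exact_m N z γ).det := h4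
  rw [h7, mul_assoc]

/-! ### The symbol -/

private theorem Exact_xx_smul (m v : Fin 2 → ℂ) (c : ℂ) : xx m (c • v) = ‖c‖ ^ 2 * xx m v := by
  unfold xx
  rw [hp_smul_right, norm_mul, mul_pow]

private theorem Exact_nsq_smul (v : Fin 2 → ℂ) (c : ℂ) : Sph.nsq (c • v) = ‖c‖ ^ 2 * Sph.nsq v := by
  unfold Sph.nsq
  rw [Finset.mul_sum]
  refine Finset.sum_congr rfl fun i _ => ?_
  rw [Pi.smul_apply, smul_eq_mul, norm_mul, mul_pow]

private theorem Exact_sum_sz (s : Fin K → ℂ) : ∑ i, sz s i = 0 := by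
  unfold sz
  rw [Fin.sum_univ_succ]
  simp

private theorem Exact_FF_smul (z s : Fin K → ℂ) (c : ℂ) (v : Fin 2 → ℂ) (hc : c ≠ 0) :
    FF (mz z) (sz s) (c • v) = FF (mz z) (sz s) v := by
  unfold FF
  have h0 : ((‖c‖ ^ 2 : ℝ) : ℂ) ≠ 0 := by
    have : 0 < ‖c‖ := norm_pos_iff.2 hc
    exact_mod_cast (by positivity : (‖c‖ ^ 2 : ℝ) ≠ 0)
  have h1 : ∀ i, (xx (mz z i) (c • v) : ℂ) ^ sz s i =
      ((‖c‖ ^ 2 : ℝ) : ℂ) ^ sz s i * (xx (mz z i) v : ℂ) ^ sz s i := by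
    intro i
    rw [Exact_xx_smul, Complex.ofReal_mul, Complex.mul_cpow_ofReal_nonneg (by positivity) (xx_nonneg _ _)]
  simp_rw [h1]
  rw [Finset.prod_mul_distrib]
  have h2 : ∏ i, ((‖c‖ ^ 2 : ℝ) : ℂ) ^ sz s i = 1 := by
    simp_rw [Complex.cpow_def_of_ne_zero h0]
    rw [← Complex.exp_sum, ← Finset.mul_sum, Exact_sum_sz, mul_zero, Complex.exp_zero]
  rw [h2, one_mul]

private theorem Exact_FF_meas {L : ℕ} (m : Fin L → Fin 2 → ℂ) (s : Fin L → ℂ) : Measurable (FF m s) := by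
  unfold FF
  refine Finset.measurable_prod _ fun i _ => ?_
  have h1 : Measurable fun v : Fin 2 → ℂ => (xx (m i) v : ℂ) :=
    Complex.measurable_ofReal.comp (measurable_xx (m i))
  exact h1.pow_const _

/-- The normalising factor. -/
noncomputable def Exact_P (z γ : Fin K → ℂ) : ℂ :=
  ∏ i, Complex.exp (-(γ i / 2) * ((Real.log (1 + ‖z i‖ ^ 2) : ℝ) : ℂ))

private theorem Exact_P_ne (z γ : Fin K → ℂ) : Exact_P z γ ≠ 0 :=
  Finset.prod_ne_zero_iff.2 fun _ _ => Complex.exp_ne_zero _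

private theorem Exact_xx_minf (l : ℂ) : xx minf ![l, 1] = 1 := by
  unfold xx hp minf
  simp [Fin.sum_univ_two]

private theorem Exact_xx_zdir (z l : ℂ) : xx (zdir z) ![l, 1] = ‖z - l‖ ^ 2 * (1 + ‖z‖ ^ 2)⁻¹ := by
  unfold xx zdir
  rw [hp_smul_left, Complex.conj_ofReal, norm_mul, mul_pow, Complex.norm_real,
    Real.norm_of_nonneg (inv_nonneg.2 (Exact_sqrt_pos z).le), Exact_sq_inv, mul_comm]
  congr 3
  unfold hp
  simp [Fin.sum_univ_two]
  ring

private theorem Exact_FF_plane (z γ : Fin K → ℂ) (l : ℂ) (hl : ∀ i, z i - l ≠ 0) :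
    FF (mz z) (sz fun i => γ i / 2) ![l, 1] = Exact_P z γ * Exact_Phi z γ l := by
  unfold FF Exact_P Exact_Phi
  rw [Fin.prod_univ_succ, ← Finset.prod_mul_distrib]
  have h1 : (xx (mz z 0) ![l, 1] : ℂ) ^ (sz (fun i => γ i / 2) 0) = 1 := by
    have : xx (mz z 0) ![l, 1] = 1 := Exact_xx_minf l
    rw [this, Complex.ofReal_one, Complex.one_cpow]
  rw [h1, one_mul]
  refine Finset.prod_congr rfl fun i _ => ?_
  have h2 : xx (mz z i.succ) ![l, 1] = ‖z i - l‖ ^ 2 * (1 + ‖z i‖ ^ 2)⁻¹ := Exact_xx_zdir (z i) l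
  have h3 : sz (fun i => γ i / 2) i.succ = γ i / 2 := rfl
  have h4 : 0 < ‖z i - l‖ := norm_pos_iff.2 (hl i)
  have h5 : (0 : ℝ) < 1 + ‖z i‖ ^ 2 := by positivity
  have h6 : 0 < ‖z i - l‖ ^ 2 * (1 + ‖z i‖ ^ 2)⁻¹ := by positivity
  rw [h2, h3, Complex.cpow_def_of_ne_zero (by exact_mod_cast h6.ne'), ← Complex.ofReal_log h6.le,
    Real.log_mul (by positivity) (by positivity), Real.log_pow, Real.log_inv, ← Complex.exp_add]
  congr 1
  push_cast
  ring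

/-! ### Integrability -/

private theorem Exact_FF_integrable {L : ℕ} (m : Fin (L + 1) → Fin 2 → ℂ) (s : Fin (L + 1) → ℂ)
    (hm : ∀ i, nr (m i) = 1) (hmm : ∀ i k, i ≠ k → ‖hp (m i) (m k)‖ < 1)
    (hs : ∀ i, -1 < (s i).re) : Integrable (FF m s) sph := by
  classical
  obtain ⟨p0, hp0⟩ := Finite.exists_min (fun p : Fin (L + 1) × Fin (L + 1) =>
    if p.1 = p.2 then (1 : ℝ) else 1 - ‖hp (m p.1) (m p.2)‖)
  obtain ⟨δ, hδ0, hδ1, hδ⟩ : ∃ δ : ℝ, 0 < δ ∧ δ ≤ 1 ∧ ∀ i k, i ≠ k → δ ≤ 1 - ‖hp (m i) (m k)‖ := by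
    refine ⟨if p0.1 = p0.2 then (1 : ℝ) else 1 - ‖hp (m p0.1) (m p0.2)‖, ?_, ?_, fun i k hik => ?_⟩
    · split_ifs with h
      · norm_num
      · linarith [hmm _ _ h]
    · have h := hp0 (0, 0)
      simpa using h
    · have h := hp0 (i, k)
      simp only [if_neg hik] at h
      exact h
  set B : ℝ := 2 / δ with hB
  have hB1 : 1 ≤ B := by
    rw [hB, le_div_iff₀ hδ0]
    linarith
  have hint : Integrable (fun v => B ^ (L + 1) * (1 + ∑ i, ‖(xx (m i) v : ℂ) ^ s i‖)) sph := by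
    refine Integrable.const_mul ?_ _
    refine Integrable.add (integrable_const _) ?_
    exact integrable_finsetSum _ fun i _ => (integrable_xx_cpow (hm i) (hs i)).norm
  refine Integrable.mono' hint (Exact_FF_meas m s).aestronglyMeasurable ?_
  have hpos : ∀ᵐ v ∂sph, ∀ i, 0 < xx (m i) v := by
    rw [ae_all_iff]
    exact fun i => ae_xx_pos (hm i)
  filter_upwards [ae_nr_sph, hpos] with v hv hx
  unfold FF
  rw [norm_prod]
  have hA : ∀ i, δ / 2 ≤ xx (m i) v → ‖(xx (m i) v : ℂ) ^ s i‖ ≤ B := by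
    intro i hi
    rw [Complex.norm_cpow_eq_rpow_re_of_pos (hx i)]
    calc xx (m i) v ^ (s i).re ≤ xx (m i) v ^ (-1 : ℝ) :=
          Real.rpow_le_rpow_of_exponent_ge (hx i) (xx_le_one (hm i) hv) (hs i).le
      _ = (xx (m i) v)⁻¹ := Real.rpow_neg_one _
      _ ≤ (δ / 2)⁻¹ := inv_anti₀ (by positivity) hi
      _ = B := by rw [hB, inv_div]
  have hn : ∀ i, 0 ≤ ‖(xx (m i) v : ℂ) ^ s i‖ := fun i => norm_nonneg _
  have hsum : ∀ i, ‖(xx (m i) v : ℂ) ^ s i‖ ≤ ∑ i, ‖(xx (m i) v : ℂ) ^ s i‖ := fun i =>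
    Finset.single_le_sum (f := fun i => ‖(xx (m i) v : ℂ) ^ s i‖) (fun i _ => hn i) (Finset.mem_univ i)
  have hsum0 : 0 ≤ ∑ i, ‖(xx (m i) v : ℂ) ^ s i‖ := Finset.sum_nonneg fun i _ => hn i
  by_cases hc : ∀ i, δ / 2 ≤ xx (m i) v
  · calc ∏ i, ‖(xx (m i) v : ℂ) ^ s i‖ ≤ ∏ _i : Fin (L + 1), B :=
          Finset.prod_le_prod (fun i _ => hn i) fun i _ => hA i (hc i)
      _ = B ^ (L + 1) := by rw [Finset.prod_const, Finset.card_univ, Fintype.card_fin]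
      _ ≤ B ^ (L + 1) * (1 + ∑ i, ‖(xx (m i) v : ℂ) ^ s i‖) :=
          le_mul_of_one_le_right (by positivity) (by linarith)
  · push Not at hc
    obtain ⟨i, hi⟩ := hc
    have hk : ∀ k, k ≠ i → δ / 2 ≤ xx (m k) v := by
      intro k hk
      have h1 := xx_add_ge (hm i) (hm k) hv
      have h2 := hδ i k hk.symm
      linarith
    rw [← Finset.mul_prod_erase _ _ (Finset.mem_univ i)]
    have h3 : ∏ k ∈ Finset.univ.erase i, ‖(xx (m k) v : ℂ) ^ s k‖ ≤ B ^ (L + 1) := by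
      calc ∏ k ∈ Finset.univ.erase i, ‖(xx (m k) v : ℂ) ^ s k‖ ≤ ∏ _k ∈ Finset.univ.erase i, B :=
            Finset.prod_le_prod (fun k _ => hn k) fun k hk' => hA k (hk k (Finset.ne_of_mem_erase hk'))
        _ = B ^ L := by
            rw [Finset.prod_const, Finset.card_erase_of_mem (Finset.mem_univ i), Finset.card_univ,
              Fintype.card_fin, Nat.add_sub_cancel]
        _ ≤ B ^ (L + 1) := pow_le_pow_right₀ hB1 (Nat.le_succ L)
    calc ‖(xx (m i) v : ℂ) ^ s i‖ * ∏ k ∈ Finset.univ.erase i, ‖(xx (m k) v : ℂ) ^ s k‖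
        ≤ ‖(xx (m i) v : ℂ) ^ s i‖ * B ^ (L + 1) := mul_le_mul_of_nonneg_left h3 (hn i)
      _ = B ^ (L + 1) * ‖(xx (m i) v : ℂ) ^ s i‖ := mul_comm _ _
      _ ≤ B ^ (L + 1) * (1 + ∑ i, ‖(xx (m i) v : ℂ) ^ s i‖) :=
          mul_le_mul_of_nonneg_left (by linarith [hsum i]) (by positivity)

private theorem Exact_ae_plane (z : Fin K → ℂ) : ∀ᵐ l : ℂ, ∀ i, z i - l ≠ 0 := by
  rw [ae_all_iff]
  intro i
  have h : (volume : Measure ℂ) {z i} = 0 := measure_singleton _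
  rw [ae_iff]
  have e : {a : ℂ | ¬ (z i - a ≠ 0)} = {z i} := by
    ext a
    simp only [Set.mem_ofPred_eq, not_not, sub_eq_zero, Set.mem_singleton_iff]
    exact eq_comm
  rw [e]
  exact h

private theorem Exact_Phi_integrable (z : Fin K → ℂ) (hz : Function.Injective z) (γ : Fin K → ℂ)
    (hγ : ∀ i, -2 < (γ i).re) (hσ : (∑ i, γ i).re < 2) :
    Integrable (fun l : ℂ => ((((1 + ‖l‖ ^ 2) ^ 2)⁻¹ : ℝ) : ℂ) * Exact_Phi z γ l) := by
  have h1 : Integrable (FF (mz z) (sz fun i => γ i / 2)) sph := by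
    refine Exact_FF_integrable _ _ (nr_mz z) (hp_mz_lt z hz) fun i => ?_
    refine Fin.cases ?_ (fun i => ?_) i
    · show -1 < (-∑ i, γ i / 2).re
      rw [← Finset.sum_div, Complex.neg_re]
      have : ((∑ i, γ i) / 2).re = (∑ i, γ i).re / 2 := by
        rw [show (2 : ℂ) = ((2 : ℝ) : ℂ) by norm_num, Complex.div_ofReal_re]
      rw [this]
      linarith
    · show -1 < (γ i / 2).re
      rw [show (2 : ℂ) = ((2 : ℝ) : ℂ) by norm_num, Complex.div_ofReal_re]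
      linarith [hγ i]
  have h2 := (integrable_sph_plane (Exact_FF_meas _ _) (Exact_FF_smul z _)).1 h1
  have h3 := h2.const_mul ((Real.pi : ℂ) * (Exact_P z γ)⁻¹)
  refine (integrable_congr ?_).1 h3
  filter_upwards [Exact_ae_plane z] with l hl
  rw [Exact_FF_plane z γ l hl]
  have hpi : (Real.pi : ℂ) ≠ 0 := by exact_mod_cast Real.pi_ne_zero
  have hP := Exact_P_ne z γ
  have h4 : ((1 + ‖l‖ ^ 2 : ℝ) : ℂ) ≠ 0 := by
    exact_mod_cast (by positivity : (1 + ‖l‖ ^ 2 : ℝ) ≠ 0)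
  push_cast at h4 ⊢
  field_simp

/-! ### The Toeplitz matrix -/

private theorem Exact_toep (N : ℕ) {F : (Fin 2 → ℂ) → ℂ} (hF : Measurable F)
    (hom : ∀ (c : ℂ) (v : Fin 2 → ℂ), c ≠ 0 → F (c • v) = F v) (a b : Fin (N + 1)) :
    toep N F a b = (((N : ℂ) + 1) / (Real.pi : ℂ) * ((Real.sqrt (N.choose a) : ℝ) : ℂ)) *
      (((Real.sqrt (N.choose b) : ℝ) : ℂ) * ∫ l : ℂ, ((((1 + ‖l‖ ^ 2) ^ (N + 2))⁻¹ : ℝ) : ℂ) *
        F ![l, 1] * l ^ (a : ℕ) * conj l ^ (b : ℕ)) := by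
  have h1 : toep N F a b = ((N : ℂ) + 1) * ∫ v, (F v • coh N v) a * conj (coh N v b) ∂sph := rfl
  set f : (Fin 2 → ℂ) → ℂ := fun v => F v * coh N v a * conj (coh N v b) *
    (((Sph.nsq v ^ N)⁻¹ : ℝ) : ℂ) with hf
  have hfm : Measurable f := by
    have hc : ∀ j, Measurable fun v => coh N v j := fun j =>
      ((continuous_apply j).comp (continuous_coh N)).measurable
    refine Measurable.mul (Measurable.mul (hF.mul (hc a)) ?_) ?_
    · exact Complex.continuous_conj.measurable.comp (hc b)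
    · exact Complex.measurable_ofReal.comp (Sph.continuous_nsq.measurable.pow_const N).inv
  have hfh : ∀ (c : ℂ) (v : Fin 2 → ℂ), c ≠ 0 → f (c • v) = f v := by
    intro c v hc
    simp only [hf]
    have hc0 : (‖c‖ : ℝ) ≠ 0 := norm_ne_zero_iff.2 hc
    have hcc : conj c * c = ((‖c‖ ^ 2 : ℝ) : ℂ) := by
      rw [Complex.conj_mul']
      push_cast
      rfl
    have hcN : ((‖c‖ ^ 2 : ℝ) : ℂ) ^ N ≠ 0 := pow_ne_zero _ (by exact_mod_cast pow_ne_zero 2 hc0)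
    rw [hom c v hc, coh_smul, Exact_nsq_smul, Pi.smul_apply, Pi.smul_apply, smul_eq_mul, smul_eq_mul,
      map_mul, map_pow, mul_pow, mul_inv, Complex.ofReal_mul, Complex.ofReal_inv, Complex.ofReal_pow,
      Complex.ofReal_inv]
    have e : F v * (c ^ N * coh N v a) * (conj c ^ N * conj (coh N v b)) *
        ((((‖c‖ ^ 2 : ℝ) : ℂ) ^ N)⁻¹ * (((Sph.nsq v ^ N : ℝ) : ℂ))⁻¹) =
        ((conj c * c) ^ N * (((‖c‖ ^ 2 : ℝ) : ℂ) ^ N)⁻¹) * (F v * coh N v a * conj (coh N v b) *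
          ((Sph.nsq v ^ N : ℝ) : ℂ)⁻¹) := by
      rw [mul_pow]
      ring
    rw [e, hcc, mul_inv_cancel₀ hcN, one_mul]
  have h2 : ∫ v, (F v • coh N v) a * conj (coh N v b) ∂sph = ∫ v, f v ∂sph := by
    refine integral_congr_ae ?_
    filter_upwards [ae_nr_sph] with v hv
    have h3 : Sph.nsq v = 1 := by rw [← nr_sq, hv, one_pow]
    simp only [hf, h3, Pi.smul_apply, smul_eq_mul, one_pow, inv_one, Complex.ofReal_one, mul_one]
  rw [h1, h2, integral_sph_plane hfm hfh]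
  have h4 : ∀ l : ℂ, ((1 / (Real.pi * (1 + ‖l‖ ^ 2) ^ 2) : ℝ) : ℂ) * f ![l, 1] =
      ((Real.pi : ℂ)⁻¹ * ((Real.sqrt (N.choose a) : ℝ) : ℂ) * ((Real.sqrt (N.choose b) : ℝ) : ℂ)) *
      (((((1 + ‖l‖ ^ 2) ^ (N + 2))⁻¹ : ℝ) : ℂ) * F ![l, 1] * l ^ (a : ℕ) * conj l ^ (b : ℕ)) := by
    intro l
    have h5 : Sph.nsq ![l, 1] = 1 + ‖l‖ ^ 2 := by
      unfold Sph.nsq
      simp [Fin.sum_univ_two]
      ring
    have h6 : ∀ j : Fin (N + 1), coh N ![l, 1] j = ((Real.sqrt (N.choose j) : ℝ) : ℂ) * l ^ (j : ℕ) := by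
      intro j
      unfold coh
      simp
    simp only [hf, h5, h6]
    rw [map_mul, map_pow, Complex.conj_ofReal, pow_add]
    push_cast
    rw [one_div, mul_inv, mul_inv]
    ring
  simp_rw [h4]
  rw [integral_const_mul]
  ring

private theorem Exact_det_toep (N : ℕ) : ∃ T : ℂ, ∀ (K : ℕ) (z γ : Fin K → ℂ),
    (toep N (FF (mz z) (sz fun i => γ i / 2))).det =
      T * (Exact_P z γ ^ (N + 1) * (Exact_m N z γ).det) := by
  refine ⟨(∏ a : Fin (N + 1), ((N : ℂ) + 1) / (Real.pi : ℂ) * ((Real.sqrt (N.choose a) : ℝ) : ℂ)) *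
    ∏ b : Fin (N + 1), ((Real.sqrt (N.choose b) : ℝ) : ℂ), fun K z γ => ?_⟩
  have h1 : toep N (FF (mz z) (sz fun i => γ i / 2)) = Matrix.of fun a b : Fin (N + 1) =>
      (((N : ℂ) + 1) / (Real.pi : ℂ) * ((Real.sqrt (N.choose a) : ℝ) : ℂ)) *
      (Matrix.of fun a b : Fin (N + 1) => ((Real.sqrt (N.choose b) : ℝ) : ℂ) *
        (Exact_P z γ • Exact_m N z γ) a b : Matrix (Fin (N + 1)) (Fin (N + 1)) ℂ) a b := by
    ext a b
    rw [Exact_toep N (Exact_FF_meas _ _) (Exact_FF_smul z _) a b, Matrix.of_apply, Matrix.of_apply]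
    congr 2
    rw [Matrix.smul_apply, smul_eq_mul]
    unfold Exact_m
    rw [Matrix.of_apply, ← integral_const_mul]
    refine integral_congr_ae ?_
    filter_upwards [Exact_ae_plane z] with l hl
    rw [Exact_FF_plane z γ l hl]
    unfold Exact_F
    ring
  rw [h1, Matrix.det_mul_column, Matrix.det_mul_row, Matrix.det_smul, Fintype.card_fin]
  ring

/-- The exact formula. -/
theorem exact_formula (N : ℕ) (z : Fin K → ℂ) (hz : Function.Injective z) (γ : Fin K → ℂ)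
    (hγ : ∀ i, -2 < (γ i).re) (hσ : (∑ i, γ i).re < 2) :
    Integrable (fun p : (Fin (N + 1) × Fin (N + 1) → ℂ) × (Fin (N + 1) × Fin (N + 1) → ℂ) =>
      ∏ i, Complex.exp (γ i * ((Real.log ‖(z i • (1 : Matrix (Fin (N + 1)) (Fin (N + 1)) ℂ) -
        Sph.mat p.1 * (Sph.mat p.2)⁻¹).det‖ : ℝ) : ℂ)))
      ((Sph.G (Fin (N + 1) × Fin (N + 1))).prod (Sph.G (Fin (N + 1) × Fin (N + 1)))) ∧
    ∫ p : (Fin (N + 1) × Fin (N + 1) → ℂ) × (Fin (N + 1) × Fin (N + 1) → ℂ),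
      ∏ i, Complex.exp (γ i * ((Real.log ‖(z i • (1 : Matrix (Fin (N + 1)) (Fin (N + 1)) ℂ) -
        Sph.mat p.1 * (Sph.mat p.2)⁻¹).det‖ : ℝ) : ℂ))
      ∂((Sph.G (Fin (N + 1) × Fin (N + 1))).prod (Sph.G (Fin (N + 1) × Fin (N + 1)))) =
      (∏ i, ((1 + ‖z i‖ ^ 2 : ℝ) : ℂ) ^ (((N + 1 : ℕ) : ℂ) * (γ i / 2))) *
        (toep N (FF (mz z) (sz fun i => γ i / 2))).det := by
  obtain ⟨C, hC⟩ := Exact_E N
  obtain ⟨T, hT⟩ := Exact_det_toep N
  obtain ⟨h1, h2⟩ := hC K z γ (Exact_Phi_integrable z hz γ hγ hσ)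
  refine ⟨h1, ?_⟩
  -- the case of trivial exponents
  obtain ⟨_, h3⟩ := hC K z (fun _ => 0) (Exact_Phi_integrable z hz _ (fun i => by simp) (by simp))
  have h4 := hT K z (fun _ => 0)
  have h5 : toep N (FF (mz z) (sz fun i : Fin K => (fun _ => (0 : ℂ)) i / 2)) = 1 := by
    rw [← toep_one N]
    congr 1
    funext v
    unfold FF
    refine Finset.prod_eq_one fun i _ => ?_
    have : sz (fun i : Fin K => (fun _ => (0 : ℂ)) i / 2) i = 0 := by
      refine Fin.cases ?_ (fun i => ?_) i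
      · show -∑ i : Fin K, (0 : ℂ) / 2 = 0
        simp
      · show (0 : ℂ) / 2 = 0
        simp
    rw [this, Complex.cpow_zero]
  have h6 : Exact_P z (fun _ => 0) = 1 := by
    unfold Exact_P
    refine Finset.prod_eq_one fun i _ => ?_
    simp
  rw [h5, h6, Matrix.det_one, one_pow, one_mul] at h4
  have h7 : (1 : ℂ) = C * (Exact_m N z (fun _ => 0)).det := by
    rw [← h3]
    simp
  have h8 : (Exact_m N z (fun _ => 0)).det ≠ 0 := by
    intro h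
    rw [h, mul_zero] at h7
    exact one_ne_zero h7
  have h9 : C = T := mul_right_cancel₀ h8 (h7.symm.trans h4)
  rw [h2, hT K z γ, h9]
  have h10 : (∏ i, ((1 + ‖z i‖ ^ 2 : ℝ) : ℂ) ^ (((N + 1 : ℕ) : ℂ) * (γ i / 2))) *
      Exact_P z γ ^ (N + 1) = 1 := by
    unfold Exact_P
    rw [← Finset.prod_pow, ← Finset.prod_mul_distrib]
    refine Finset.prod_eq_one fun i _ => ?_
    have h11 : (0 : ℝ) < 1 + ‖z i‖ ^ 2 := by positivity
    rw [Complex.cpow_def_of_ne_zero (by exact_mod_cast h11.ne'), ← Complex.ofReal_log h11.le,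
      ← Complex.exp_nat_mul, ← Complex.exp_add]
    rw [show ((Real.log (1 + ‖z i‖ ^ 2) : ℝ) : ℂ) * (((N + 1 : ℕ) : ℂ) * (γ i / 2)) +
      ((N + 1 : ℕ) : ℂ) * (-(γ i / 2) * ((Real.log (1 + ‖z i‖ ^ 2) : ℝ) : ℂ)) = 0 by ring,
      Complex.exp_zero]
  calc T * (Exact_m N z γ).det = T * (Exact_m N z γ).det *
        ((∏ i, ((1 + ‖z i‖ ^ 2 : ℝ) : ℂ) ^ (((N + 1 : ℕ) : ℂ) * (γ i / 2))) *
      Exact_P z γ ^ (N + 1)) := by rw [h10, mul_one]
    _ = _ := by ring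

end MPF
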