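import Pool.Agent.MPF.Kest
import Pool.Agent.MPF.DetExp
import Pool.Agent.MPF.DetProd

/-!
# MPF/ThmB: asymptotics of the Toeplitz determinants with Fisher-Hartwig symbol on the sphere

PROOF. `det R_N = ∏_i det(D_i)^{-1} det T_F` (`det_fN`: `det (fN (lam⁻¹)) = ∏_j (lam)⁻¹`), so
`det T_F = det R_N ∏_i ∏_{j ≤ N} lam N (s i) j`; `det R_N → exp(∑_{i<k} s_i s_k (-log(1-|h_ik|²) - 1))` (`det_one_add_tendsto`,
`RR_fro`, `RR_trace`), `det_prod_asymp`, and `∑_{i<k} s_i s_k = -½ ∑ s_i²` because `∑ s_i = 0`; `exp(-s_i s_k log(1-|h|²)) =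
(1-|h|²)^{-s_i s_k}` (`1 - |h|² > 0`).
-/

open MeasureTheory Matrix Finset Filter Topology
open scoped ENNReal ComplexConjugate

namespace MPF

private theorem ThmB_pairs {K : ℕ} (s : Fin K → ℂ) (h0 : ∑ i, s i = 0) :
    ∑ i, ∑ k ∈ univ.filter (fun k => i < k), s i * s k = -(∑ i, s i ^ 2) / 2 := by
  have h1 : (∑ i, s i) * (∑ k, s k) = ∑ i, ∑ k, s i * s k := by
    rw [sum_mul]
    exact sum_congr rfl fun i _ => mul_sum _ _ _
  have h2 : ∀ i k : Fin K, s i * s k = (if i < k then s i * s k else 0) +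
      (if k < i then s i * s k else 0) + (if i = k then s i * s k else 0) := by
    intro i k
    rcases lt_trichotomy i k with h | h | h
    · rw [if_pos h, if_neg (not_lt.2 h.le), if_neg h.ne]
      ring
    · subst h
      simp
    · rw [if_neg (not_lt.2 h.le), if_pos h, if_neg h.ne']
      ring
  have h3 : ∑ i, ∑ k, s i * s k = (∑ i, ∑ k, if i < k then s i * s k else 0) +
      (∑ i, ∑ k, if k < i then s i * s k else 0) + ∑ i, s i ^ 2 := by
    rw [← sum_add_distrib, ← sum_add_distrib]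
    refine sum_congr rfl fun i _ => ?_
    have h4 : s i ^ 2 = ∑ k, if i = k then s i * s k else 0 := by
      rw [Finset.sum_ite_eq univ i (fun k => s i * s k), if_pos (mem_univ _), sq]
    rw [h4, ← sum_add_distrib, ← sum_add_distrib]
    exact sum_congr rfl fun k _ => h2 i k
  have h5 : (∑ i, ∑ k, if k < i then s i * s k else 0) =
      ∑ i, ∑ k, if i < k then s i * s k else 0 := by
    rw [sum_comm]
    refine sum_congr rfl fun i _ => sum_congr rfl fun k _ => ?_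
    rw [mul_comm]
  have h6 : ∑ i, ∑ k ∈ univ.filter (fun k => i < k), s i * s k =
      ∑ i, ∑ k, if i < k then s i * s k else 0 := by
    refine sum_congr rfl fun i _ => ?_
    rw [sum_filter]
  rw [h0, h3, h5] at h1
  rw [h6]
  linear_combination (-1 / 2 : ℂ) * h1

private theorem ThmB_det {K : ℕ} (N : ℕ) (m : Fin K → Fin 2 → ℂ) (hm : ∀ i, nr (m i) = 1)
    (s : Fin K → ℂ) : (RR N m s).det =
      (∏ i, ∏ j ∈ range (N + 1), (lam N (s i) j)⁻¹) * (toep N (FF m s)).det := by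
  unfold RR
  rw [Matrix.det_mul]
  congr 1
  have h1 := map_list_prod (Matrix.detMonoidHom (n := Fin (N + 1)) (R := ℂ))
    ((List.finRange K).map fun i => fN N (m i) fun j => (lam N (s i) j)⁻¹)
  rw [Matrix.coe_detMonoidHom] at h1
  rw [h1, List.map_map, Fin.prod_univ_def]
  congr 1
  refine List.map_congr_left fun i _ => ?_
  exact det_fN (hm i) _

theorem toep_asymp {K : ℕ} (m : Fin K → Fin 2 → ℂ) (hm : ∀ i, nr (m i) = 1)
    (hne : ∀ i k, i ≠ k → ‖hp (m i) (m k)‖ < 1) (s : Fin K → ℂ) (hs : ∀ i, -1 < (s i).re)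
    (h0 : ∑ i, s i = 0) :
    Tendsto (fun N : ℕ => (toep N (FF m s)).det * (∏ i, Sph.barnesG (1 + s i)) /
      (((N + 1 : ℕ) : ℂ) ^ ((∑ i, s i ^ 2) / 2) *
        ∏ i, ∏ k ∈ univ.filter (fun k => i < k),
          ((1 - ‖hp (m i) (m k)‖ ^ 2 : ℝ) : ℂ) ^ (-(s i * s k)))) atTop (𝓝 1) := by
  have hpos : ∀ i, ∀ k ∈ univ.filter (fun k => i < k), 0 < 1 - ‖hp (m i) (m k)‖ ^ 2 := by
    intro i k hk
    have h1 := hne i k (ne_of_lt (mem_filter.1 hk).2)
    have h2 := norm_nonneg (hp (m i) (m k))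
    nlinarith
  obtain ⟨σ, hσ⟩ : ∃ σ, σ = ∑ i, s i ^ 2 := ⟨_, rfl⟩
  obtain ⟨t, ht⟩ : ∃ t, t = ∑ i, ∑ k ∈ univ.filter (fun k => i < k),
        s i * s k * ((-Real.log (1 - ‖hp (m i) (m k)‖ ^ 2) - 1 : ℝ) : ℂ) := ⟨_, rfl⟩
  obtain ⟨P, hP⟩ : ∃ P, P = ∏ i, ∏ k ∈ univ.filter (fun k => i < k),
          ((1 - ‖hp (m i) (m k)‖ ^ 2 : ℝ) : ℂ) ^ (-(s i * s k)) := ⟨_, rfl⟩
  have hP1 : P = Complex.exp (∑ i, ∑ k ∈ univ.filter (fun k => i < k),
      -(s i * s k) * ((Real.log (1 - ‖hp (m i) (m k)‖ ^ 2) : ℝ) : ℂ)) := by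
    rw [hP, Complex.exp_sum]
    refine prod_congr rfl fun i _ => ?_
    rw [Complex.exp_sum]
    refine prod_congr rfl fun k hk => ?_
    have h1 := hpos i k hk
    rw [Complex.cpow_def_of_ne_zero (by exact_mod_cast h1.ne'), Complex.ofReal_log h1.le]
    congr 1
    ring
  have hP0 : P ≠ 0 := by
    rw [hP1]
    exact Complex.exp_ne_zero _
  have hexp : Complex.exp t * Complex.exp (-σ / 2) = P := by
    rw [hP1, ← Complex.exp_add]
    congr 1
    have h1 := ThmB_pairs s h0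
    rw [← hσ] at h1
    rw [← h1, ht, ← sum_add_distrib]
    refine sum_congr rfl fun i _ => ?_
    rw [← sum_add_distrib]
    refine sum_congr rfl fun k _ => ?_
    push_cast
    ring
  have hlim1 : Tendsto (fun N : ℕ => (RR N m s).det) atTop (𝓝 (Complex.exp t)) := by
    have h1 := RR_trace m hm hne s hs
    rw [← ht] at h1
    have h2 := det_one_add_tendsto (fun N => RR N m s - 1) (RR_fro m hm hne s hs) h1
    refine h2.congr fun N => ?_
    rw [add_sub_cancel]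
  have hlim2 := det_prod_asymp s hs h0
  have hlim3 := (hlim1.mul hlim2).mul_const (Complex.exp (-σ / 2) / P)
  have h1 : Complex.exp t * 1 * (Complex.exp (-σ / 2) / P) = 1 := by
    rw [mul_one, ← mul_div_assoc, hexp, div_self hP0]
  rw [h1] at hlim3
  refine hlim3.congr fun N => ?_
  have hX : ((N + 1 : ℕ) : ℂ) ^ (σ / 2) ≠ 0 := by
    rw [Complex.cpow_def_of_ne_zero (by exact_mod_cast Nat.succ_ne_zero N)]
    exact Complex.exp_ne_zero _
  have hE : Complex.exp (-σ / 2) ≠ 0 := Complex.exp_ne_zero _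
  rw [ThmB_det N m hm s, ← hσ, ← hP]
  have hl : (∏ i, ∏ j ∈ range (N + 1), (lam N (s i) j)⁻¹) *
      (∏ i, ∏ j ∈ range (N + 1), lam N (s i) j) = 1 := by
    rw [← prod_mul_distrib]
    refine prod_eq_one fun i _ => ?_
    rw [← prod_mul_distrib]
    refine prod_eq_one fun j _ => ?_
    exact inv_mul_cancel₀ (lam_ne_zero N (hs i) j)
  calc _ = ((∏ i, ∏ j ∈ range (N + 1), (lam N (s i) j)⁻¹) *
        (∏ i, ∏ j ∈ range (N + 1), lam N (s i) j)) * ((toep N (FF m s)).det *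
        (∏ i, Sph.barnesG (1 + s i)) / (((N + 1 : ℕ) : ℂ) ^ (σ / 2) * P)) := by
        field_simp
    _ = _ := by rw [hl, one_mul]

end MPF
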