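import Pool.Agent.MPF.Exact
import Pool.Agent.MPF.ThmB

/-!
# MPF/Final: the multi-point asymptotics

PROOF. `mpMoment (N+1) = ∏ (1+|z_i|²)^{(N+1) γ_i/2} det (toep N FF)` (`exact_formula`), `toep_asymp` for `mz z`, `sz (γ/2)`
(`∑ sz = 0`, `Re sz > -1`), and the identity of the main terms: with `s_i = γ_i/2`, `s_0 = -∑ s_i`:
`½ ∑_{i ≥ 0} s_i² = ∑ s_i² + ∑_{i<j} s_i s_j = ∑ γ_i²/4 + ∑_{i<j} γ_i γ_j/4`; the factor `(1 - |h_{0,i}|²)^{-s_0 s_i} = (1+|z_i|²)^{s_0 s_i}`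
and `(1 - |h_ij|²)^{-s_i s_j} = |z_i-z_j|^{-2 s_i s_j} ((1+|z_i|²)(1+|z_j|²))^{s_i s_j}`, the total exponent of `1+|z_i|²` is
`s_i (s_0 + ∑_{j ≠ i} s_j) = -s_i²`. Shift `n = N + 1` (`tendsto_add_atTop_iff_nat`).
-/

open MeasureTheory Matrix Finset Filter Topology
open scoped ENNReal ComplexConjugate

namespace MPF

/-- `E ∏ |P_n(z_i)|^{γ_i}`, `P_n(z) = det(z - A B^{-1})`. -/
noncomputable def mpMoment (n : ℕ) {k : ℕ} (z γ : Fin k → ℂ) : ℂ :=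
  ∫ p : (Fin n × Fin n → ℂ) × (Fin n × Fin n → ℂ),
    ∏ i, Complex.exp (γ i * ((Real.log ‖(z i • (1 : Matrix (Fin n) (Fin n) ℂ) -
      Sph.mat p.1 * (Sph.mat p.2)⁻¹).det‖ : ℝ) : ℂ))
    ∂((Sph.G (Fin n × Fin n)).prod (Sph.G (Fin n × Fin n)))

/-- The predicted main term. -/
noncomputable def mpMain (Gf : ℂ → ℂ) (n : ℕ) {k : ℕ} (z γ : Fin k → ℂ) : ℂ :=
  (∏ i, (n : ℂ) ^ (γ i ^ 2 / 4) * ((1 + ‖z i‖ ^ 2 : ℝ) : ℂ) ^ (γ i * n / 2 - γ i ^ 2 / 4)) *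
    (∏ i, ∏ j ∈ Ioi i, (n : ℂ) ^ (γ i * γ j / 4) *
      ((‖z i - z j‖ : ℝ) : ℂ) ^ (-(γ i * γ j) / 2)) /
    (Gf (1 - (∑ i, γ i) / 2) * ∏ i, Gf (1 + γ i / 2))

private theorem Final_cpow {x : ℝ} (hx : 0 < x) (c : ℂ) :
    ((x : ℝ) : ℂ) ^ c = Complex.exp (c * (Real.log x : ℂ)) := by
  rw [Complex.cpow_def_of_ne_zero (by exact_mod_cast hx.ne'), ← Complex.ofReal_log hx.le, mul_comm]

private theorem Final_sum_zero {k : ℕ} (f : Fin (k + 1) → ℂ) :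
    ∑ j ∈ univ.filter (fun j : Fin (k + 1) => 0 < j), f j = ∑ j : Fin k, f j.succ := by
  rw [Finset.sum_filter, Fin.sum_univ_succ]
  simp

private theorem Final_sum_succ {k : ℕ} (i : Fin k) (f : Fin (k + 1) → ℂ) :
    ∑ j ∈ univ.filter (fun j : Fin (k + 1) => i.succ < j), f j =
      ∑ j ∈ Ioi i, f j.succ := by
  have h1 : Ioi i = univ.filter (fun j : Fin k => i < j) := by
    ext j
    simp
  rw [h1, Finset.sum_filter, Finset.sum_filter, Fin.sum_univ_succ]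
  simp only [Fin.succ_lt_succ_iff, Fin.not_lt_zero, if_false, zero_add]

private theorem Final_pairs {k : ℕ} (g : Fin k → Fin k → ℂ) :
    ∑ i, ∑ j, g i j = ∑ i, g i i + ∑ i, ∑ j ∈ Ioi i, (g i j + g j i) := by
  have h1 := Finset.sum_sum_Ioi_add_eq_sum_sum_off_diag (fun i j => g j i)
  rw [h1, ← Finset.sum_add_distrib]
  refine Finset.sum_congr rfl fun i _ => ?_
  rw [← Finset.sum_compl_add_sum {i} (g i), Finset.sum_singleton, add_comm]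

theorem multi_point {k : ℕ} (z γ : Fin k → ℂ) (hz : Function.Injective z)
    (hγ : ∀ i, -2 < (γ i).re) (hσ : (∑ i, γ i).re < 2) :
    Tendsto (fun n : ℕ => mpMoment n z γ / mpMain Sph.barnesG n z γ) atTop (𝓝 1) := by
  rw [← tendsto_add_atTop_iff_nat 1]
  have hsum : ∑ i, γ i / 2 = (∑ i, γ i) / 2 := (Finset.sum_div _ _ _).symm
  have hs : ∀ i, -1 < (sz (fun i => γ i / 2) i).re := by
    intro i
    refine Fin.cases ?_ (fun j => ?_) i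
    · show -1 < (-∑ i, γ i / 2).re
      rw [hsum, Complex.neg_re]
      have : ((∑ i, γ i) / 2).re = (∑ i, γ i).re / 2 := by simp
      rw [this]
      linarith
    · show -1 < (γ j / 2).re
      have : (γ j / 2).re = (γ j).re / 2 := by simp
      rw [this]
      linarith [hγ j]
  have h0 : ∑ i, sz (fun i => γ i / 2) i = 0 := by
    rw [Fin.sum_univ_succ]
    show (-∑ i, γ i / 2) + ∑ i, γ i / 2 = 0
    exact neg_add_cancel _
  refine (toep_asymp (mz z) (nr_mz z) (fun i k h => hp_mz_lt z hz i k h)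
    (sz fun i => γ i / 2) hs h0).congr fun N => ?_
  -- the logarithms
  obtain ⟨L, hL⟩ : ∃ L : Fin k → ℝ, ∀ i, L i = Real.log (1 + ‖z i‖ ^ 2) := ⟨_, fun _ => rfl⟩
  obtain ⟨M, hM⟩ : ∃ M : Fin k → Fin k → ℝ, ∀ i j, M i j = Real.log ‖z i - z j‖ :=
    ⟨_, fun _ _ => rfl⟩
  obtain ⟨T, hT⟩ : ∃ T : ℝ, T = Real.log ((N + 1 : ℕ) : ℝ) := ⟨_, rfl⟩
  have hzp : ∀ i, 0 < 1 + ‖z i‖ ^ 2 := fun i => by positivity
  have hdp : ∀ i j, i ≠ j → 0 < ‖z i - z j‖ := fun i j hij =>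
    norm_pos_iff.2 (sub_ne_zero.2 fun h => hij (hz h))
  have hNp : (0 : ℝ) < ((N + 1 : ℕ) : ℝ) := by positivity
  have eN : ∀ c : ℂ, (((N + 1 : ℕ) : ℂ)) ^ c = Complex.exp (c * (T : ℂ)) := by
    intro c
    rw [hT, ← Final_cpow hNp]
    norm_cast
  have e1 : (∏ i, (((N + 1 : ℕ) : ℂ)) ^ (γ i ^ 2 / 4) *
      ((1 + ‖z i‖ ^ 2 : ℝ) : ℂ) ^ (γ i * ((N + 1 : ℕ) : ℂ) / 2 - γ i ^ 2 / 4)) =
      Complex.exp (∑ i, (γ i ^ 2 / 4 * T +
        (γ i * ((N + 1 : ℕ) : ℂ) / 2 - γ i ^ 2 / 4) * L i)) := by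
    rw [Complex.exp_sum]
    refine Finset.prod_congr rfl fun i _ => ?_
    rw [eN, Final_cpow (hzp i), ← hL, ← Complex.exp_add]
  have e2 : (∏ i, ∏ j ∈ Ioi i, (((N + 1 : ℕ) : ℂ)) ^ (γ i * γ j / 4) *
      ((‖z i - z j‖ : ℝ) : ℂ) ^ (-(γ i * γ j) / 2)) =
      Complex.exp (∑ i, ∑ j ∈ Ioi i, (γ i * γ j / 4 * T + (-(γ i * γ j) / 2) * M i j)) := by
    rw [Complex.exp_sum]
    refine Finset.prod_congr rfl fun i _ => ?_
    rw [Complex.exp_sum]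
    refine Finset.prod_congr rfl fun j hj => ?_
    rw [eN, Final_cpow (hdp i j (Finset.mem_Ioi.1 hj).ne), ← hM, ← Complex.exp_add]
  have e3 : (∏ i, ((1 + ‖z i‖ ^ 2 : ℝ) : ℂ) ^ (((N + 1 : ℕ) : ℂ) * (γ i / 2))) =
      Complex.exp (∑ i, ((N + 1 : ℕ) : ℂ) * (γ i / 2) * L i) := by
    rw [Complex.exp_sum]
    refine Finset.prod_congr rfl fun i _ => ?_
    rw [Final_cpow (hzp i), ← hL]
  have e4 : (∏ i, ∏ k_1 ∈ univ.filter (fun k_1 => i < k_1),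
      ((1 - ‖hp (mz z i) (mz z k_1)‖ ^ 2 : ℝ) : ℂ) ^
        (-(sz (fun i => γ i / 2) i * sz (fun i => γ i / 2) k_1))) =
      Complex.exp (∑ i, ∑ k_1 ∈ univ.filter (fun k_1 => i < k_1),
        (-(sz (fun i => γ i / 2) i * sz (fun i => γ i / 2) k_1)) *
          (Real.log (1 - ‖hp (mz z i) (mz z k_1)‖ ^ 2) : ℂ)) := by
    rw [Complex.exp_sum]
    refine Finset.prod_congr rfl fun i _ => ?_
    rw [Complex.exp_sum]
    refine Finset.prod_congr rfl fun j hj => ?_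
    rw [Finset.mem_filter] at hj
    refine Final_cpow ?_ _
    have h1 := hp_mz_lt z hz i j hj.2.ne
    have h2 := norm_nonneg (hp (mz z i) (mz z j))
    nlinarith
  have hl0 : ∀ i : Fin k, Real.log (1 - ‖hp (mz z 0) (mz z i.succ)‖ ^ 2) = -L i := by
    intro i
    rw [hp_mz_zero, Real.log_inv, hL]
  have hl1 : ∀ i j : Fin k, i ≠ j → Real.log (1 - ‖hp (mz z i.succ) (mz z j.succ)‖ ^ 2) =
      2 * M i j - L i - L j := by
    intro i j hij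
    rw [hp_mz_succ, Real.log_div (pow_pos (hdp i j hij) 2).ne'
      (mul_pos (hzp i) (hzp j)).ne', Real.log_mul (hzp i).ne' (hzp j).ne', Real.log_pow, hL, hL,
      hM]
    push_cast
    ring
  have e5 : ∑ i, ∑ k_1 ∈ univ.filter (fun k_1 => i < k_1),
        (-(sz (fun i => γ i / 2) i * sz (fun i => γ i / 2) k_1)) *
          (Real.log (1 - ‖hp (mz z i) (mz z k_1)‖ ^ 2) : ℂ) =
      (∑ i, -((∑ j, γ j / 2) * (γ i / 2)) * L i) +
        ∑ i, ∑ j ∈ Ioi i, -(γ i / 2 * (γ j / 2)) * (2 * M i j - L i - L j) := by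
    rw [Fin.sum_univ_succ, Final_sum_zero]
    congr 1
    · refine Finset.sum_congr rfl fun i _ => ?_
      rw [hl0 i]
      show -((-∑ j, γ j / 2) * (γ i / 2)) * ((-L i : ℝ) : ℂ) = _
      push_cast
      ring
    · refine Finset.sum_congr rfl fun i _ => ?_
      rw [Final_sum_succ]
      refine Finset.sum_congr rfl fun j hj => ?_
      rw [hl1 i j (Finset.mem_Ioi.1 hj).ne]
      show -(γ i / 2 * (γ j / 2)) * ((2 * M i j - L i - L j : ℝ) : ℂ) = _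
      push_cast
      ring
  have e6 : ∑ i, sz (fun i => γ i / 2) i ^ 2 = (∑ j, γ j / 2) ^ 2 + ∑ i, (γ i / 2) ^ 2 := by
    rw [Fin.sum_univ_succ]
    show (-∑ j, γ j / 2) ^ 2 + ∑ i, (γ i / 2) ^ 2 = _
    rw [neg_sq]
  have e7 : (∏ i, Sph.barnesG (1 + sz (fun i => γ i / 2) i)) =
      Sph.barnesG (1 - (∑ i, γ i) / 2) * ∏ i, Sph.barnesG (1 + γ i / 2) := by
    rw [Fin.prod_univ_succ]
    show Sph.barnesG (1 + -∑ j, γ j / 2) * ∏ i, Sph.barnesG (1 + γ i / 2) = _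
    rw [hsum, sub_eq_add_neg]
  -- the two quadratic identities
  have q1 : (∑ j, γ j / 2) ^ 2 = ∑ i, (γ i / 2) ^ 2 +
      ∑ i, ∑ j ∈ Ioi i, (γ i / 2 * (γ j / 2) + γ j / 2 * (γ i / 2)) := by
    rw [sq, Finset.sum_mul_sum, Final_pairs (fun i j => γ i / 2 * (γ j / 2))]
    congr 1
    exact Finset.sum_congr rfl fun i _ => (sq _).symm
  have q2 : ∑ i, ((∑ j, γ j / 2) * (γ i / 2)) * (L i : ℂ) = ∑ i, (γ i / 2) ^ 2 * L i +
      ∑ i, ∑ j ∈ Ioi i, (γ i / 2 * (γ j / 2) * L i + γ j / 2 * (γ i / 2) * L j) := by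
    have h1 : ∀ i, ((∑ j, γ j / 2) * (γ i / 2)) * (L i : ℂ) =
        ∑ j, γ i / 2 * (γ j / 2) * (L i : ℂ) := by
      intro i
      rw [Finset.sum_mul, Finset.sum_mul]
      refine Finset.sum_congr rfl fun j _ => ?_
      ring
    rw [Finset.sum_congr rfl fun i _ => h1 i,
      Final_pairs (fun i j => γ i / 2 * (γ j / 2) * (L i : ℂ))]
    congr 1
    refine Finset.sum_congr rfl fun i _ => ?_
    ring
  have key : (∑ i, (γ i ^ 2 / 4 * T + (γ i * ((N + 1 : ℕ) : ℂ) / 2 - γ i ^ 2 / 4) * L i)) +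
      (∑ i, ∑ j ∈ Ioi i, (γ i * γ j / 4 * T + (-(γ i * γ j) / 2) * M i j)) =
      (∑ i, ((N + 1 : ℕ) : ℂ) * (γ i / 2) * L i) +
      ((∑ i, sz (fun i => γ i / 2) i ^ 2) / 2 * T +
        ∑ i, ∑ k_1 ∈ univ.filter (fun k_1 => i < k_1),
        (-(sz (fun i => γ i / 2) i * sz (fun i => γ i / 2) k_1)) *
          (Real.log (1 - ‖hp (mz z i) (mz z k_1)‖ ^ 2) : ℂ)) := by
    rw [e5, e6, q1]
    have h2 : ∑ i, -((∑ j, γ j / 2) * (γ i / 2)) * (L i : ℂ) =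
        -∑ i, ((∑ j, γ j / 2) * (γ i / 2)) * (L i : ℂ) := by
      rw [← Finset.sum_neg_distrib]
      refine Finset.sum_congr rfl fun i _ => ?_
      ring
    rw [h2, q2]
    have h3 : ∑ i, (γ i ^ 2 / 4 * (T : ℂ) +
        (γ i * ((N + 1 : ℕ) : ℂ) / 2 - γ i ^ 2 / 4) * L i) =
        (∑ i, (γ i / 2) ^ 2) * T + ∑ i, ((N + 1 : ℕ) : ℂ) * (γ i / 2) * L i -
          ∑ i, (γ i / 2) ^ 2 * L i := by
      rw [Finset.sum_mul, ← Finset.sum_add_distrib, ← Finset.sum_sub_distrib]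
      refine Finset.sum_congr rfl fun i _ => ?_
      ring
    have h4 : ∑ i, ∑ j ∈ Ioi i, (γ i * γ j / 4 * (T : ℂ) + (-(γ i * γ j) / 2) * M i j) =
        (∑ i, ∑ j ∈ Ioi i, (γ i / 2 * (γ j / 2) + γ j / 2 * (γ i / 2))) / 2 * T +
        (-∑ i, ∑ j ∈ Ioi i, (γ i / 2 * (γ j / 2) * L i + γ j / 2 * (γ i / 2) * L j)) +
        ∑ i, ∑ j ∈ Ioi i, -(γ i / 2 * (γ j / 2)) * (2 * M i j - L i - L j) := by
      rw [Finset.sum_div, Finset.sum_mul, ← Finset.sum_neg_distrib, ← Finset.sum_add_distrib,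
        ← Finset.sum_add_distrib]
      refine Finset.sum_congr rfl fun i _ => ?_
      rw [Finset.sum_div, Finset.sum_mul, ← Finset.sum_neg_distrib, ← Finset.sum_add_distrib,
        ← Finset.sum_add_distrib]
      refine Finset.sum_congr rfl fun j _ => ?_
      ring
    rw [h3, h4]
    ring
  show _ = mpMoment (N + 1) z γ / mpMain Sph.barnesG (N + 1) z γ
  have hmom : mpMoment (N + 1) z γ =
      (∏ i, ((1 + ‖z i‖ ^ 2 : ℝ) : ℂ) ^ (((N + 1 : ℕ) : ℂ) * (γ i / 2))) *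
        (toep N (FF (mz z) (sz fun i => γ i / 2))).det :=
    (exact_formula N z hz γ hγ hσ).2
  have hfin : Complex.exp (∑ i, (γ i ^ 2 / 4 * T +
        (γ i * ((N + 1 : ℕ) : ℂ) / 2 - γ i ^ 2 / 4) * L i)) *
      Complex.exp (∑ i, ∑ j ∈ Ioi i, (γ i * γ j / 4 * T + (-(γ i * γ j) / 2) * M i j)) =
      Complex.exp (∑ i, ((N + 1 : ℕ) : ℂ) * (γ i / 2) * L i) *
        (Complex.exp ((∑ i, sz (fun i => γ i / 2) i ^ 2) / 2 * T) *
        Complex.exp (∑ i, ∑ k_1 ∈ univ.filter (fun k_1 => i < k_1),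
        (-(sz (fun i => γ i / 2) i * sz (fun i => γ i / 2) k_1)) *
          (Real.log (1 - ‖hp (mz z i) (mz z k_1)‖ ^ 2) : ℂ))) := by
    rw [← Complex.exp_add, key, Complex.exp_add, Complex.exp_add]
  have hne1 := Complex.exp_ne_zero (∑ i, ((N + 1 : ℕ) : ℂ) * (γ i / 2) * L i)
  unfold mpMain
  rw [hmom, e1, e2, e3, e4, e7, eN, hfin, div_div_eq_mul_div, mul_assoc (Complex.exp _) _ _,
    mul_div_mul_left _ _ hne1]

theorem multi_integrable {k : ℕ} (n : ℕ) (z γ : Fin k → ℂ) (hz : Function.Injective z)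
    (hγ : ∀ i, -2 < (γ i).re) (hσ : (∑ i, γ i).re < 2) :
    Integrable (fun p : (Fin n × Fin n → ℂ) × (Fin n × Fin n → ℂ) =>
      ∏ i, Complex.exp (γ i * ((Real.log ‖(z i • (1 : Matrix (Fin n) (Fin n) ℂ) -
        Sph.mat p.1 * (Sph.mat p.2)⁻¹).det‖ : ℝ) : ℂ)))
      ((Sph.G (Fin n × Fin n)).prod (Sph.G (Fin n × Fin n))) := by
  cases n with
  | zero =>
    have h1 : (fun p : (Fin 0 × Fin 0 → ℂ) × (Fin 0 × Fin 0 → ℂ) =>
        ∏ i, Complex.exp (γ i * ((Real.log ‖(z i • (1 : Matrix (Fin 0) (Fin 0) ℂ) -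
        Sph.mat p.1 * (Sph.mat p.2)⁻¹).det‖ : ℝ) : ℂ))) = fun _ => (1 : ℂ) := by
      funext p
      refine Finset.prod_eq_one fun i _ => ?_
      rw [Matrix.det_isEmpty, norm_one, Real.log_one, Complex.ofReal_zero, mul_zero,
        Complex.exp_zero]
    rw [h1]
    exact integrable_const _
  | succ N => exact (exact_formula N z hz γ hγ hσ).1

end MPF
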