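import Pool.Agent.MPF.Defs

/-!
# MPF/GamQ: Gamma ratios

PROOF. Let `r(j) = Γ(j+1)/Γ(j+1+s)`, so `(lam N s j)⁻¹ = r(j) Γ(N+2+s)/Γ(N+2) = r(j) / r(N+1)`.
Basic fact: `r(j) (j+1)^s = 1 + O(1/(j+1))` and `r(j) ≠ 0`. Proof: `g(j) = r(j) (j+1)^s`,
`g(j+1)/g(j) = (j+1)/(j+1+s) ((j+2)/(j+1))^s = exp(-log(1 + s/(j+1)) + s log(1 + 1/(j+1))) = 1 + O(1/(j+1)²)`,
and `g(j) → 1` (`Sph.gamma_ratio_tendsto` for `s+1`, or `Complex.GammaSeq_tendsto_Gamma`); the tail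
product gives the error `O(1/(j+1))`.
So `pp N s x j = x^s (lam)⁻¹ = (x (N+2)/(j+1))^s (1 + O(1/(j+1)))` [all bases positive reals], with
the product of the two error factors `1 + O(1/(j+1))`, `1 + O(1/(N+1))`, `j ≤ N`.
`pp_bound`: `|x^s (N+2)^s (j+1)^{-s}| = (x(N+2)/(j+1))^{Re s} ≤ C (N x/(j+1))^{Re s}` as `N ≥ 1`.
`pp_taylor`: `M = N x ≥ 1`, `|j - M| ≤ M/2`, `u = (j - M)/M`, `|u| ≤ 1/2`: `j + 1 = M (1 + u + 1/M)`,
`x(N+2)/(j+1) = (1 + 2/N) / (1 + u + 1/M)`; its `s`-th power is `1 - s u + O(u² + 1/M)`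
(`log(1 + v) = v + O(v²)`; if `1 + u + 1/M` is near 3/2 or 1/2 it stays in a compact part of `(0,∞)`;
`1/N ≤ 1/M`). `j ≥ M/2`, so `O(1/(j+1)) = O(1/M)`.
-/

open MeasureTheory Matrix Finset Filter Topology
open scoped ENNReal ComplexConjugate

namespace MPF

theorem GamQ_Gamma_ne {s : ℂ} (hs : -1 < s.re) (j : ℕ) : Complex.Gamma ((j : ℂ) + 1 + s) ≠ 0 := by
  apply Complex.Gamma_ne_zero_of_re_pos
  simp only [Complex.add_re, Complex.natCast_re, Complex.one_re]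
  have : (0 : ℝ) ≤ j := j.cast_nonneg
  linarith

theorem GamQ_Gamma_ne' (j : ℕ) : Complex.Gamma ((j : ℂ) + 1) ≠ 0 := by
  apply Complex.Gamma_ne_zero_of_re_pos
  simp only [Complex.add_re, Complex.natCast_re, Complex.one_re]
  have : (0 : ℝ) ≤ j := j.cast_nonneg
  linarith

theorem lam_ne_zero (N : ℕ) {s : ℂ} (hs : -1 < s.re) (j : ℕ) : lam N s j ≠ 0 := by
  unfold lam
  have h1 := GamQ_Gamma_ne hs j
  have h2 := GamQ_Gamma_ne' j
  have h3 : Complex.Gamma ((N : ℂ) + 2) ≠ 0 := by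
    have := GamQ_Gamma_ne' (N + 1)
    rwa [show (((N + 1 : ℕ) : ℂ) + 1) = (N : ℂ) + 2 by push_cast; ring] at this
  have h4 : Complex.Gamma ((N : ℂ) + 2 + s) ≠ 0 := by
    have := GamQ_Gamma_ne hs (N + 1)
    rwa [show (((N + 1 : ℕ) : ℂ) + 1 + s) = (N : ℂ) + 2 + s by push_cast; ring] at this
  exact div_ne_zero (mul_ne_zero h1 h3) (mul_ne_zero h2 h4)

/-- The normalised ratio. -/
noncomputable def GamQ_g (s : ℂ) (j : ℕ) : ℂ :=
  Complex.Gamma (j + 1) / Complex.Gamma (j + 1 + s) * ((j : ℂ) + 1) ^ s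

theorem GamQ_cpow (t : ℝ) (ht : 0 < t) (s : ℂ) :
    (t : ℂ) ^ s = Complex.exp (s * (Real.log t : ℝ)) := by
  rw [Complex.cpow_def_of_ne_zero (by exact_mod_cast ht.ne'), ← Complex.ofReal_log ht.le,
    mul_comm]

theorem GamQ_exp (w : ℂ) : ‖Complex.exp w - 1 - w‖ ≤ ‖w‖ ^ 2 * Real.exp ‖w‖ := by
  have h := Complex.norm_exp_sub_sum_le_norm_mul_exp w 2
  simp only [Finset.sum_range_succ, Finset.sum_range_zero, pow_zero, Nat.factorial_zero,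
    Nat.cast_one, div_one, zero_add, pow_one, Nat.factorial_one] at h
  rwa [sub_sub]

theorem GamQ_log {t : ℝ} (h1 : -(1 / 2) ≤ t) : |Real.log (1 + t) - t| ≤ 2 * t ^ 2 := by
  have h3 : Real.log (1 + t) ≤ t := by
    have := Real.log_le_sub_one_of_pos (show 0 < 1 + t by linarith)
    linarith
  have h4 : t / (1 + t) ≤ Real.log (1 + t) := by
    have := Real.one_sub_inv_le_log_of_pos (show 0 < 1 + t by linarith)
    have h5 : 1 - (1 + t)⁻¹ = t / (1 + t) := by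
      have : (1 + t) ≠ 0 := by linarith
      field_simp
      ring
    linarith
  have h6 : t - 2 * t ^ 2 ≤ t / (1 + t) := by
    rw [le_div_iff₀ (by linarith)]
    nlinarith [sq_nonneg t, mul_nonneg (sq_nonneg t) (show (0 : ℝ) ≤ 1 + 2 * t by linarith)]
  rw [abs_le]
  constructor <;> nlinarith [sq_nonneg t]

/-- `(1+t)^s = 1 + s t + O(t²)`. -/
theorem GamQ_one_add_cpow (s : ℂ) {t : ℝ} (h0 : 0 ≤ t) (h1 : t ≤ 1) :
    ‖((1 + t : ℝ) : ℂ) ^ s - 1 - s * t‖ ≤ (‖s‖ ^ 2 * Real.exp ‖s‖ + 2 * ‖s‖) * t ^ 2 := by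
  rw [GamQ_cpow (1 + t) (by linarith) s]
  set L := Real.log (1 + t) with hL
  have hL0 : 0 ≤ L := Real.log_nonneg (by linarith)
  have hL1 : L ≤ t := by
    have := Real.log_le_sub_one_of_pos (show 0 < 1 + t by linarith)
    linarith
  have h2 := GamQ_exp (s * (L : ℝ))
  have h3 : ‖s * ((L : ℝ) : ℂ)‖ = ‖s‖ * L := by
    rw [norm_mul, Complex.norm_real, Real.norm_of_nonneg hL0]
  rw [h3] at h2
  have h4 : Complex.exp (s * (L : ℝ)) - 1 - s * t =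
      (Complex.exp (s * (L : ℝ)) - 1 - s * (L : ℝ)) + s * ((L - t : ℝ) : ℂ) := by
    push_cast; ring
  rw [h4]
  refine (norm_add_le _ _).trans ?_
  have h5 : ‖s * ((L - t : ℝ) : ℂ)‖ ≤ 2 * ‖s‖ * t ^ 2 := by
    rw [norm_mul, Complex.norm_real, Real.norm_eq_abs]
    have := GamQ_log (t := t) (by linarith)
    nlinarith [norm_nonneg s]
  have h6 : (‖s‖ * L) ^ 2 * Real.exp (‖s‖ * L) ≤ ‖s‖ ^ 2 * Real.exp ‖s‖ * t ^ 2 := by
    have h7 : (‖s‖ * L) ^ 2 ≤ ‖s‖ ^ 2 * t ^ 2 := by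
      rw [mul_pow]
      exact mul_le_mul_of_nonneg_left (by nlinarith) (by positivity)
    have h8 : Real.exp (‖s‖ * L) ≤ Real.exp ‖s‖ := by
      apply Real.exp_le_exp.mpr
      have := norm_nonneg s
      nlinarith
    calc (‖s‖ * L) ^ 2 * Real.exp (‖s‖ * L) ≤ (‖s‖ ^ 2 * t ^ 2) * Real.exp ‖s‖ :=
          mul_le_mul h7 h8 (Real.exp_pos _).le (by positivity)
      _ = _ := by ring
  linarith

theorem GamQ_g_succ {s : ℂ} (hs : -1 < s.re) (j : ℕ) :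
    GamQ_g s (j + 1) = GamQ_g s j *
      (((1 + 1 / ((j : ℝ) + 1) : ℝ) : ℂ) ^ s / (1 + s / ((j : ℂ) + 1))) := by
  have hj : (0 : ℝ) < (j : ℝ) + 1 := by positivity
  have hjc : ((j : ℂ) + 1) ≠ 0 := by exact_mod_cast hj.ne'
  have hjs : ((j : ℂ) + 1 + s) ≠ 0 := by
    intro h
    have := congrArg Complex.re h
    simp only [Complex.add_re, Complex.natCast_re, Complex.one_re, Complex.zero_re] at this
    have h5 : (0 : ℝ) ≤ j := j.cast_nonneg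
    linarith
  unfold GamQ_g
  have h1 : Complex.Gamma (((j + 1 : ℕ) : ℂ) + 1) = ((j : ℂ) + 1) * Complex.Gamma ((j : ℂ) + 1) := by
    push_cast
    exact Complex.Gamma_add_one _ hjc
  have h2 : Complex.Gamma (((j + 1 : ℕ) : ℂ) + 1 + s) =
      ((j : ℂ) + 1 + s) * Complex.Gamma ((j : ℂ) + 1 + s) := by
    push_cast
    rw [← Complex.Gamma_add_one _ hjs]
    congr 1
    ring
  have h3 : (((j + 1 : ℕ) : ℂ) + 1) ^ s = ((j : ℂ) + 1) ^ s *
      ((1 + 1 / ((j : ℝ) + 1) : ℝ) : ℂ) ^ s := by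
    rw [show ((j : ℂ) + 1) = (((j : ℝ) + 1 : ℝ) : ℂ) by push_cast; ring,
      ← Complex.mul_cpow_ofReal_nonneg hj.le (by positivity)]
    congr 1
    push_cast
    field_simp
  rw [h1, h2, h3]
  have hG := GamQ_Gamma_ne hs j
  have hq : (1 : ℂ) + s / ((j : ℂ) + 1) ≠ 0 := by
    have : (1 : ℂ) + s / ((j : ℂ) + 1) = ((j : ℂ) + 1 + s) / ((j : ℂ) + 1) := by
      field_simp
    rw [this]
    exact div_ne_zero hjs hjc
  field_simp

theorem GamQ_g_ne {s : ℂ} (hs : -1 < s.re) (j : ℕ) : GamQ_g s j ≠ 0 := by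
  unfold GamQ_g
  have h1 := GamQ_Gamma_ne hs j
  have h2 := GamQ_Gamma_ne' j
  have hj : (0 : ℝ) < (j : ℝ) + 1 := by positivity
  have hjc : ((j : ℂ) + 1) ≠ 0 := by exact_mod_cast hj.ne'
  exact mul_ne_zero (div_ne_zero h2 h1) (Complex.cpow_ne_zero_iff.mpr (Or.inl hjc))

theorem GamQ_g_tendsto {s : ℂ} (hs : -1 < s.re) : Tendsto (GamQ_g s) atTop (𝓝 1) := by
  rw [← tendsto_add_atTop_iff_nat 1]
  have h1 := Sph.gamma_ratio_tendsto (s := s + 1) (by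
    simp only [Complex.add_re, Complex.one_re]; linarith)
  have h2 : Tendsto (fun n : ℕ => (((1 + 1 / (n : ℝ) : ℝ)) : ℂ)) atTop (𝓝 1) := by
    have : Tendsto (fun n : ℕ => (1 + 1 / (n : ℝ) : ℝ)) atTop (𝓝 (1 + 0)) :=
      tendsto_const_nhds.add tendsto_one_div_atTop_nhds_zero_nat
    rw [add_zero] at this
    have h := (Complex.continuous_ofReal.tendsto 1).comp this
    simpa [Function.comp_def] using h
  have h3 : Tendsto (fun n : ℕ => (((1 + 2 * (1 / (n : ℝ)) : ℝ)) : ℂ) ^ s) atTop (𝓝 1) := by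
    have : Tendsto (fun n : ℕ => (1 + 2 * (1 / (n : ℝ)) : ℝ)) atTop (𝓝 (1 + 2 * 0)) :=
      tendsto_const_nhds.add (tendsto_one_div_atTop_nhds_zero_nat.const_mul 2)
    rw [mul_zero, add_zero] at this
    have h := (Complex.continuous_ofReal.tendsto 1).comp this
    have h' : Tendsto (fun n : ℕ => (((1 + 2 * (1 / (n : ℝ)) : ℝ)) : ℂ)) atTop (𝓝 1) := by
      simpa [Function.comp_def] using h
    have h'' := h'.cpow (tendsto_const_nhds (x := s)) (by simp [Complex.slitPlane])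
    simpa using h''
  have h4 := (h1.inv₀ one_ne_zero).mul (h2.mul h3)
  simp only [inv_one, mul_one] at h4
  refine h4.congr' ?_
  filter_upwards [eventually_ge_atTop 1] with n hn
  have hn0 : (0 : ℝ) < n := by exact_mod_cast hn
  have hnc : (n : ℂ) ≠ 0 := by exact_mod_cast hn0.ne'
  unfold GamQ_g
  have e1 : Complex.Gamma (((n + 1 : ℕ) : ℂ) + 1) = ((n : ℂ) + 1) * (n.factorial : ℂ) := by
    rw [Complex.Gamma_nat_eq_factorial, Nat.factorial_succ]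
    push_cast
    ring
  have e2 : (((n + 1 : ℕ) : ℂ) + 1 + s) = s + 1 + n + 1 := by push_cast; ring
  have e3 : (((n + 1 : ℕ) : ℂ) + 1) ^ s = (n : ℂ) ^ s * (((1 + 2 * (1 / (n : ℝ)) : ℝ)) : ℂ) ^ s := by
    rw [show (n : ℂ) = ((n : ℝ) : ℂ) by push_cast; rfl,
      ← Complex.mul_cpow_ofReal_nonneg hn0.le (by positivity)]
    congr 1
    push_cast
    field_simp
    ring
  have e4 : (n : ℂ) ^ (s + 1) = (n : ℂ) ^ s * n := by
    rw [Complex.cpow_add _ _ hnc, Complex.cpow_one]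
  rw [e1, e2, e3, e4]
  have hG : Complex.Gamma (s + 1 + n + 1) ≠ 0 := by
    rw [← e2]
    exact GamQ_Gamma_ne hs (n + 1)
  have hf : (n.factorial : ℂ) ≠ 0 := by exact_mod_cast (Nat.factorial_pos _).ne'
  have hns : (n : ℂ) ^ s ≠ 0 := Complex.cpow_ne_zero_iff.mpr (Or.inl hnc)
  push_cast
  field_simp

/-- One step. -/
theorem GamQ_step {s : ℂ} (hs : -1 < s.re) : ∃ C : ℝ, 0 < C ∧ ∀ j : ℕ,
    ‖GamQ_g s (j + 1) - GamQ_g s j‖ ≤ C / ((j : ℝ) + 1) ^ 2 * ‖GamQ_g s j‖ := by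
  set c : ℝ := min 1 (1 + s.re) with hc
  have hc0 : 0 < c := lt_min one_pos (by linarith)
  refine ⟨(‖s‖ ^ 2 * Real.exp ‖s‖ + 2 * ‖s‖ + 1) / c, by positivity, fun j => ?_⟩
  have hj : (0 : ℝ) < (j : ℝ) + 1 := by positivity
  have hj1 : (1 : ℝ) ≤ (j : ℝ) + 1 := by
    have : (0 : ℝ) ≤ j := j.cast_nonneg
    linarith
  set t : ℝ := 1 / ((j : ℝ) + 1) with ht
  have ht0 : 0 < t := by positivity
  have ht1 : t ≤ 1 := by rw [ht, div_le_one hj]; exact hj1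
  have hden : s / ((j : ℂ) + 1) = s * t := by
    rw [ht]; push_cast; ring
  rw [GamQ_g_succ hs j, ← ht, hden]
  have hre : c ≤ (1 + s * (t : ℂ)).re := by
    simp only [Complex.add_re, Complex.one_re, Complex.mul_re, Complex.ofReal_re,
      Complex.ofReal_im, mul_zero, sub_zero]
    rcases le_total 0 s.re with h | h
    · have : c ≤ 1 := min_le_left _ _
      nlinarith
    · have : c ≤ 1 + s.re := min_le_right _ _
      nlinarith
  have hnorm : c ≤ ‖1 + s * (t : ℂ)‖ := hre.trans (Complex.re_le_norm _)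
  have hne : 1 + s * (t : ℂ) ≠ 0 := by
    rw [← norm_pos_iff]; linarith
  have e1 : GamQ_g s j * (((1 + t : ℝ) : ℂ) ^ s / (1 + s * t)) - GamQ_g s j =
      (((1 + t : ℝ) : ℂ) ^ s - 1 - s * t) / (1 + s * t) * GamQ_g s j := by
    field_simp
    ring
  rw [e1, norm_mul, norm_div]
  apply mul_le_mul_of_nonneg_right _ (norm_nonneg _)
  have h1 := GamQ_one_add_cpow s ht0.le ht1
  have h2 : ‖((1 + t : ℝ) : ℂ) ^ s - 1 - s * t‖ ≤
      (‖s‖ ^ 2 * Real.exp ‖s‖ + 2 * ‖s‖ + 1) * t ^ 2 := by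
    refine h1.trans (mul_le_mul_of_nonneg_right (by linarith) (by positivity))
  calc ‖((1 + t : ℝ) : ℂ) ^ s - 1 - s * t‖ / ‖1 + s * (t : ℂ)‖
      ≤ ((‖s‖ ^ 2 * Real.exp ‖s‖ + 2 * ‖s‖ + 1) * t ^ 2) / c :=
        div_le_div₀ (by positivity) h2 hc0 hnorm
    _ = (‖s‖ ^ 2 * Real.exp ‖s‖ + 2 * ‖s‖ + 1) / c / ((j : ℝ) + 1) ^ 2 := by
        rw [ht]; field_simp

theorem GamQ_g_bdd {s : ℂ} (hs : -1 < s.re) : ∃ G : ℝ, 0 < G ∧ ∀ j : ℕ, ‖GamQ_g s j‖ ≤ G := by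
  obtain ⟨G, hG⟩ := (GamQ_g_tendsto hs).norm.bddAbove_range
  refine ⟨max G 1, lt_max_of_lt_right one_pos, fun j => ?_⟩
  exact (hG ⟨j, rfl⟩).trans (le_max_left _ _)

theorem GamQ_g_lower {s : ℂ} (hs : -1 < s.re) : ∃ c : ℝ, 0 < c ∧ ∀ j : ℕ, c ≤ ‖GamQ_g s j‖ := by
  have h := ((GamQ_g_tendsto hs).inv₀ one_ne_zero).norm.bddAbove_range
  obtain ⟨G, hG⟩ := h
  refine ⟨(max G 1)⁻¹, by positivity, fun j => ?_⟩
  have h1 : ‖(GamQ_g s j)⁻¹‖ ≤ max G 1 := (hG ⟨j, rfl⟩).trans (le_max_left _ _)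
  rw [norm_inv] at h1
  have h2 : 0 < ‖GamQ_g s j‖ := norm_pos_iff.mpr (GamQ_g_ne hs j)
  rw [inv_le_comm₀ (by positivity) h2]
  exact h1

/-- The basic fact on `r(j) = Γ(j+1)/Γ(j+1+s)`. -/
theorem gamma_ratio_bound {s : ℂ} (hs : -1 < s.re) : ∃ C : ℝ, 0 < C ∧ ∀ j : ℕ,
    ‖Complex.Gamma (j + 1) / Complex.Gamma (j + 1 + s) * ((j : ℂ) + 1) ^ s - 1‖ ≤ C / (j + 1) := by
  obtain ⟨C, hC, hstep⟩ := GamQ_step hs
  obtain ⟨G, hG, hb⟩ := GamQ_g_bdd hs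
  refine ⟨2 * C * G, by positivity, fun j => ?_⟩
  change ‖GamQ_g s j - 1‖ ≤ _
  have key : ∀ m : ℕ, ‖GamQ_g s j - GamQ_g s (j + m)‖ ≤
      2 * C * G * (1 / ((j : ℝ) + 1) - 1 / (((j + m : ℕ) : ℝ) + 1)) := by
    intro m
    induction m with
    | zero => simp
    | succ m ih =>
      have h1 := hstep (j + m)
      have h2 := hb (j + m)
      have hj : (0 : ℝ) < ((j + m : ℕ) : ℝ) + 1 := by positivity
      have hj1 : (1 : ℝ) ≤ ((j + m : ℕ) : ℝ) + 1 := by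
        have : (0 : ℝ) ≤ ((j + m : ℕ) : ℝ) := (j + m).cast_nonneg
        linarith
      have h3 : C / (((j + m : ℕ) : ℝ) + 1) ^ 2 * ‖GamQ_g s (j + m)‖ ≤
          2 * C * G * (1 / (((j + m : ℕ) : ℝ) + 1) - 1 / (((j + (m + 1) : ℕ) : ℝ) + 1)) := by
        have h4 : (1 : ℝ) / (((j + m : ℕ) : ℝ) + 1) ^ 2 ≤
            2 * (1 / (((j + m : ℕ) : ℝ) + 1) - 1 / (((j + (m + 1) : ℕ) : ℝ) + 1)) := by
          have e : (((j + (m + 1) : ℕ) : ℝ) + 1) = (((j + m : ℕ) : ℝ) + 1) + 1 := by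
            push_cast; ring
          rw [e]
          set y : ℝ := ((j + m : ℕ) : ℝ) + 1
          have e2 : (1 : ℝ) / y - 1 / (y + 1) = 1 / (y * (y + 1)) := by
            field_simp
            ring
          rw [e2, mul_one_div, div_le_div_iff₀ (by positivity) (by positivity)]
          nlinarith
        calc C / (((j + m : ℕ) : ℝ) + 1) ^ 2 * ‖GamQ_g s (j + m)‖
            ≤ C / (((j + m : ℕ) : ℝ) + 1) ^ 2 * G :=
              mul_le_mul_of_nonneg_left h2 (by positivity)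
          _ = C * G * (1 / (((j + m : ℕ) : ℝ) + 1) ^ 2) := by ring
          _ ≤ C * G * (2 * (1 / (((j + m : ℕ) : ℝ) + 1) - 1 / (((j + (m + 1) : ℕ) : ℝ) + 1))) :=
              mul_le_mul_of_nonneg_left h4 (by positivity)
          _ = _ := by ring
      have h5 : GamQ_g s j - GamQ_g s (j + (m + 1)) = (GamQ_g s j - GamQ_g s (j + m)) -
          (GamQ_g s (j + m + 1) - GamQ_g s (j + m)) := by
        rw [← add_assoc]; ring
      rw [h5]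
      refine (norm_sub_le _ _).trans ?_
      linarith [h1.trans h3]
  have hlim : Tendsto (fun m : ℕ => ‖GamQ_g s j - GamQ_g s (j + m)‖) atTop
      (𝓝 ‖GamQ_g s j - 1‖) := by
    have h6 : Tendsto (fun m : ℕ => GamQ_g s (j + m)) atTop (𝓝 1) := by
      have := (tendsto_add_atTop_iff_nat j).mpr (GamQ_g_tendsto hs)
      simpa [add_comm] using this
    exact (tendsto_const_nhds.sub h6).norm
  refine le_of_tendsto hlim (Eventually.of_forall fun m => (key m).trans ?_)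
  have : (0 : ℝ) ≤ 1 / (((j + m : ℕ) : ℝ) + 1) := by positivity
  calc 2 * C * G * (1 / ((j : ℝ) + 1) - 1 / (((j + m : ℕ) : ℝ) + 1))
      ≤ 2 * C * G * (1 / ((j : ℝ) + 1)) :=
        mul_le_mul_of_nonneg_left (by linarith) (by positivity)
    _ = _ := by ring

theorem GamQ_lam_inv {s : ℂ} (hs : -1 < s.re) (N j : ℕ) :
    (lam N s j)⁻¹ = GamQ_g s j / GamQ_g s (N + 1) *
      ((((N : ℝ) + 2) / ((j : ℝ) + 1) : ℝ) : ℂ) ^ s := by
  have hj : (0 : ℝ) < (j : ℝ) + 1 := by positivity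
  have hjc : ((j : ℂ) + 1) ≠ 0 := by exact_mod_cast hj.ne'
  have hN : (0 : ℝ) < (N : ℝ) + 2 := by positivity
  have hNc : ((N : ℂ) + 2) ≠ 0 := by exact_mod_cast hN.ne'
  have h1 := GamQ_Gamma_ne hs j
  have h2 := GamQ_Gamma_ne' j
  have h3 : Complex.Gamma ((N : ℂ) + 2) ≠ 0 := by
    have := GamQ_Gamma_ne' (N + 1)
    rwa [show (((N + 1 : ℕ) : ℂ) + 1) = (N : ℂ) + 2 by push_cast; ring] at this
  have h4 : Complex.Gamma ((N : ℂ) + 2 + s) ≠ 0 := by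
    have := GamQ_Gamma_ne hs (N + 1)
    rwa [show (((N + 1 : ℕ) : ℂ) + 1 + s) = (N : ℂ) + 2 + s by push_cast; ring] at this
  have e1 : GamQ_g s (N + 1) = Complex.Gamma ((N : ℂ) + 2) / Complex.Gamma ((N : ℂ) + 2 + s) *
      ((N : ℂ) + 2) ^ s := by
    unfold GamQ_g
    rw [show (((N + 1 : ℕ) : ℂ) + 1) = (N : ℂ) + 2 by push_cast; ring]
  have e2 : ((N : ℂ) + 2) ^ s = ((j : ℂ) + 1) ^ s *
      ((((N : ℝ) + 2) / ((j : ℝ) + 1) : ℝ) : ℂ) ^ s := by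
    rw [show ((j : ℂ) + 1) = (((j : ℝ) + 1 : ℝ) : ℂ) by push_cast; ring,
      ← Complex.mul_cpow_ofReal_nonneg hj.le (by positivity)]
    congr 1
    push_cast
    field_simp
  have hjs : ((j : ℂ) + 1) ^ s ≠ 0 := Complex.cpow_ne_zero_iff.mpr (Or.inl hjc)
  have hqs : ((((N : ℝ) + 2) / ((j : ℝ) + 1) : ℝ) : ℂ) ^ s ≠ 0 :=
    Complex.cpow_ne_zero_iff.mpr (Or.inl (by
      have : (0 : ℝ) < ((N : ℝ) + 2) / ((j : ℝ) + 1) := by positivity
      exact_mod_cast this.ne'))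
  rw [e1, e2]
  unfold GamQ_g lam
  generalize ((((N : ℝ) + 2) / ((j : ℝ) + 1) : ℝ) : ℂ) ^ s = w at *
  generalize ((j : ℂ) + 1) ^ s = v at *
  field_simp

theorem GamQ_pp {s : ℂ} (hs : -1 < s.re) (N j : ℕ) {x : ℝ} (hx : 0 < x) :
    pp N s x j = GamQ_g s j / GamQ_g s (N + 1) *
      ((x * (((N : ℝ) + 2) / ((j : ℝ) + 1)) : ℝ) : ℂ) ^ s := by
  unfold pp
  rw [GamQ_lam_inv hs, Complex.ofReal_mul, Complex.mul_cpow_ofReal_nonneg hx.le (by positivity)]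
  ring

theorem GamQ_rpow_le {a b : ℝ} (ha : 1 ≤ a) (hab : a ≤ b) (r : ℝ) : a ^ r ≤ b ^ |r| :=
  (Real.rpow_le_rpow_of_exponent_le ha (le_abs_self r)).trans
    (Real.rpow_le_rpow (by linarith) hab (abs_nonneg r))

theorem pp_bound {s : ℂ} (hs : -1 < s.re) : ∃ C : ℝ, 0 < C ∧ ∀ N : ℕ, 1 ≤ N →
    ∀ x : ℝ, 0 < x → x ≤ 1 → ∀ j : ℕ, j ≤ N →
      ‖pp N s x j‖ ≤ C * ((N * x) / (j + 1)) ^ s.re := by
  obtain ⟨G, hG, hb⟩ := GamQ_g_bdd hs
  obtain ⟨c, hc, hl⟩ := GamQ_g_lower hs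
  refine ⟨G / c * 3 ^ |s.re|, by positivity, fun N hN x hx _ j _ => ?_⟩
  have hN0 : (1 : ℝ) ≤ N := by exact_mod_cast hN
  have hj : (0 : ℝ) < (j : ℝ) + 1 := by positivity
  rw [GamQ_pp hs N j hx, norm_mul, norm_div]
  have h1 : ‖GamQ_g s j‖ / ‖GamQ_g s (N + 1)‖ ≤ G / c :=
    div_le_div₀ hG.le (hb j) hc (hl _)
  have hy : (0 : ℝ) < x * (((N : ℝ) + 2) / ((j : ℝ) + 1)) := by positivity
  rw [Complex.norm_cpow_eq_rpow_re_of_pos hy]
  have h2 : x * (((N : ℝ) + 2) / ((j : ℝ) + 1)) =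
      (((N : ℝ) + 2) / N) * ((N * x) / (j + 1)) := by
    field_simp
  rw [h2, Real.mul_rpow (by positivity) (by positivity)]
  have h3 : (((N : ℝ) + 2) / N) ^ s.re ≤ 3 ^ |s.re| := by
    apply GamQ_rpow_le
    · rw [le_div_iff₀ (by linarith)]; linarith
    · rw [div_le_iff₀ (by linarith)]; linarith
  have h4 : (0 : ℝ) ≤ ((N * x) / (j + 1)) ^ s.re := by positivity
  calc ‖GamQ_g s j‖ / ‖GamQ_g s (N + 1)‖ *
        ((((N : ℝ) + 2) / N) ^ s.re * ((N * x) / (j + 1)) ^ s.re)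
      ≤ G / c * (3 ^ |s.re| * ((N * x) / (j + 1)) ^ s.re) := by
        apply mul_le_mul h1 _ (by positivity) (by positivity)
        exact mul_le_mul_of_nonneg_right h3 h4
    _ = _ := by ring

theorem lam_inv_bound {s : ℂ} (hs : -1 < s.re) : ∃ C B : ℝ, 0 < C ∧ 0 < B ∧ ∀ N : ℕ, 1 ≤ N →
    ∀ j : ℕ, j ≤ N → ‖(lam N s j)⁻¹‖ ≤ C * (N : ℝ) ^ B := by
  obtain ⟨G, hG, hb⟩ := GamQ_g_bdd hs
  obtain ⟨c, hc, hl⟩ := GamQ_g_lower hs
  refine ⟨G / c * 3 ^ (|s.re| + 1), |s.re| + 1, by positivity, by positivity,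
    fun N hN j hjN => ?_⟩
  have hN0 : (1 : ℝ) ≤ N := by exact_mod_cast hN
  have hj : (0 : ℝ) < (j : ℝ) + 1 := by positivity
  have hjN' : (j : ℝ) ≤ N := by exact_mod_cast hjN
  rw [GamQ_lam_inv hs N j, norm_mul, norm_div]
  have h1 : ‖GamQ_g s j‖ / ‖GamQ_g s (N + 1)‖ ≤ G / c :=
    div_le_div₀ hG.le (hb j) hc (hl _)
  have hy : (0 : ℝ) < ((N : ℝ) + 2) / ((j : ℝ) + 1) := by positivity
  rw [Complex.norm_cpow_eq_rpow_re_of_pos hy]
  have h3 : (((N : ℝ) + 2) / ((j : ℝ) + 1)) ^ s.re ≤ (3 * N) ^ |s.re| := by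
    apply GamQ_rpow_le
    · rw [le_div_iff₀ hj]; linarith
    · rw [div_le_iff₀ hj]
      have : (0 : ℝ) ≤ j := j.cast_nonneg
      nlinarith
  have h5 : ((3 * N : ℝ)) ^ |s.re| ≤ (3 * N) ^ (|s.re| + 1) :=
    Real.rpow_le_rpow_of_exponent_le (by linarith) (by linarith)
  calc ‖GamQ_g s j‖ / ‖GamQ_g s (N + 1)‖ * (((N : ℝ) + 2) / ((j : ℝ) + 1)) ^ s.re
      ≤ G / c * (3 * N) ^ (|s.re| + 1) :=
        mul_le_mul h1 (h3.trans h5) (by positivity) (by positivity)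
    _ = _ := by
        rw [Real.mul_rpow (by norm_num) (by linarith)]
        ring

/-- The logarithmic estimate. -/
theorem GamQ_logest {N x j M u y L : ℝ} (hN0 : 1 ≤ N) (hx1 : x ≤ 1)
    (hMdef : M = N * x) (hM : 1 ≤ M) (hju : j = M * (1 + u)) (hu1 : |u| ≤ 1 / 2)
    (hydef : y = x * ((N + 2) / (j + 1))) (hLdef : L = Real.log y) :
    |L + u| ≤ 4 * (1 / M) + 2 * u ^ 2 := by
  have hM0 : 0 < M := by linarith
  have hMN : M ≤ N := by rw [hMdef]; nlinarith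
  have hu2 := abs_le.mp hu1
  have hi : 0 < 1 / M := by positivity
  have hi1 : 1 / M ≤ 1 := by rw [div_le_one hM0]; exact hM
  have hLeq : L = Real.log (1 + 2 / N) - Real.log (1 + u + 1 / M) := by
    rw [hLdef, ← Real.log_div (by positivity) (by linarith)]
    congr 1
    have h1 : (1 + u + 1 / M) ≠ 0 := by linarith
    have h2 : j + 1 = M * (1 + u + 1 / M) := by
      rw [hju]; field_simp
    rw [hydef, h2, eq_div_iff h1]
    have hN1 : N ≠ 0 := by linarith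
    have h3 : x = M / N := by rw [hMdef]; field_simp
    rw [h3]
    generalize (1 + u + 1 / M) = v at h1
    field_simp
  have hlog1 : 0 ≤ Real.log (1 + 2 / N) := Real.log_nonneg (by
    have : (0 : ℝ) ≤ 2 / N := by positivity
    linarith)
  have hlog2 : Real.log (1 + 2 / N) ≤ 2 * (1 / M) := by
    have h1 := Real.log_le_sub_one_of_pos (show (0 : ℝ) < 1 + 2 / N by positivity)
    have h2 : (2 : ℝ) / N ≤ 2 * (1 / M) := by
      rw [mul_one_div]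
      exact div_le_div_of_nonneg_left (by norm_num) hM0 hMN
    linarith
  have hlog3 : Real.log (1 + u) ≤ Real.log (1 + u + 1 / M) :=
    Real.log_le_log (by linarith) (by linarith)
  have hlog4 : Real.log (1 + u + 1 / M) ≤ Real.log (1 + u) + 2 * (1 / M) := by
    have h1 : Real.log (1 + u + 1 / M) - Real.log (1 + u) =
        Real.log ((1 + u + 1 / M) / (1 + u)) := by
      rw [Real.log_div (by linarith) (by linarith)]
    have h2 : (0 : ℝ) < (1 + u + 1 / M) / (1 + u) := div_pos (by linarith) (by linarith)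
    have h3 := Real.log_le_sub_one_of_pos h2
    have h4 : (1 + u + 1 / M) / (1 + u) - 1 ≤ 2 * (1 / M) := by
      rw [sub_le_iff_le_add, div_le_iff₀ (by linarith)]
      nlinarith
    linarith
  have hlog5 := abs_le.mp (GamQ_log (t := u) (by linarith))
  rw [abs_le]
  constructor <;> linarith [hlog5.1, hlog5.2, sq_nonneg u]

theorem GamQ_Lsq {i u L : ℝ} (hi : 0 ≤ i) (hi1 : i ≤ 1) (hu1 : |u| ≤ 1 / 2)
    (hLu : |L + u| ≤ 4 * i + 2 * u ^ 2) : |L| ≤ 6 ∧ L ^ 2 ≤ 60 * (i + u ^ 2) := by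
  have hu2 := abs_le.mp hu1
  have husq : u ^ 2 ≤ 1 / 4 := by nlinarith
  have h0 := abs_le.mp hLu
  refine ⟨abs_le.mpr ⟨by linarith [h0.1, sq_nonneg u], by linarith [h0.2, sq_nonneg u]⟩, ?_⟩
  have h1 : L ^ 2 ≤ 2 * (L + u) ^ 2 + 2 * u ^ 2 := by nlinarith [sq_nonneg (L + 2 * u)]
  have h2 : (L + u) ^ 2 ≤ (4 * i + 2 * u ^ 2) ^ 2 := by
    rw [← sq_abs (L + u)]
    exact pow_le_pow_left₀ (abs_nonneg _) hLu 2
  have h3 : (4 * i + 2 * u ^ 2) ^ 2 ≤ 5 * (4 * i + 2 * u ^ 2) := by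
    have h4 : 4 * i + 2 * u ^ 2 ≤ 5 := by linarith
    have h5 : 0 ≤ 4 * i + 2 * u ^ 2 := by positivity
    nlinarith
  nlinarith [sq_nonneg u]

theorem GamQ_cpow_taylor (s : ℂ) {i u y : ℝ} (hi : 0 ≤ i) (hi1 : i ≤ 1) (hu1 : |u| ≤ 1 / 2)
    (hy0 : 0 < y) (hLu : |Real.log y + u| ≤ 4 * i + 2 * u ^ 2) :
    ‖(y : ℂ) ^ s‖ ≤ Real.exp (‖s‖ * 6) ∧
    ‖(y : ℂ) ^ s - 1 + s * (u : ℝ)‖ ≤
      (‖s‖ ^ 2 * 60 * Real.exp (‖s‖ * 6) + ‖s‖ * 4) * (i + u ^ 2) := by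
  obtain ⟨hLb, hLsq⟩ := GamQ_Lsq hi hi1 hu1 hLu
  rw [GamQ_cpow y hy0 s]
  set L : ℝ := Real.log y
  have hsL : ‖s * ((L : ℝ) : ℂ)‖ = ‖s‖ * |L| := by
    rw [norm_mul, Complex.norm_real, Real.norm_eq_abs]
  have hsL6 : ‖s‖ * |L| ≤ ‖s‖ * 6 := mul_le_mul_of_nonneg_left hLb (norm_nonneg _)
  refine ⟨?_, ?_⟩
  · refine (Complex.norm_exp_le_exp_norm _).trans ?_
    rw [hsL]
    exact Real.exp_le_exp.mpr hsL6
  · have e : Complex.exp (s * (L : ℝ)) - 1 + s * (u : ℝ) =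
        (Complex.exp (s * (L : ℝ)) - 1 - s * (L : ℝ)) + s * ((L + u : ℝ) : ℂ) := by
      push_cast; ring
    rw [e]
    refine (norm_add_le _ _).trans ?_
    have h1 := GamQ_exp (s * (L : ℝ))
    rw [hsL] at h1
    have h2 : (‖s‖ * |L|) ^ 2 * Real.exp (‖s‖ * |L|) ≤
        ‖s‖ ^ 2 * 60 * Real.exp (‖s‖ * 6) * (i + u ^ 2) := by
      rw [mul_pow, sq_abs]
      calc ‖s‖ ^ 2 * L ^ 2 * Real.exp (‖s‖ * |L|)
          ≤ ‖s‖ ^ 2 * (60 * (i + u ^ 2)) * Real.exp (‖s‖ * 6) := by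
            apply mul_le_mul _ (Real.exp_le_exp.mpr hsL6) (Real.exp_pos _).le (by positivity)
            exact mul_le_mul_of_nonneg_left hLsq (by positivity)
        _ = _ := by ring
    have h3 : ‖s * ((L + u : ℝ) : ℂ)‖ ≤ ‖s‖ * 4 * (i + u ^ 2) := by
      rw [norm_mul, Complex.norm_real, Real.norm_eq_abs, mul_assoc]
      apply mul_le_mul_of_nonneg_left _ (norm_nonneg _)
      linarith [sq_nonneg u]
    linarith

theorem pp_taylor {s : ℂ} (hs : -1 < s.re) : ∃ C : ℝ, 0 < C ∧ ∀ N : ℕ, 1 ≤ N →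
    ∀ x : ℝ, 0 < x → x ≤ 1 → 1 ≤ N * x → ∀ j : ℕ, j ≤ N → |(j : ℝ) - N * x| ≤ N * x / 2 →
      ‖pp N s x j - 1 + s * (((j : ℝ) - N * x) / (N * x) : ℝ)‖ ≤
        C * (1 / (N * x) + (((j : ℝ) - N * x) / (N * x)) ^ 2) := by
  obtain ⟨K, hK, hr⟩ := gamma_ratio_bound hs
  obtain ⟨c, hc, hl⟩ := GamQ_g_lower hs
  refine ⟨4 * K / c * Real.exp (‖s‖ * 6) + (‖s‖ ^ 2 * 60 * Real.exp (‖s‖ * 6) + ‖s‖ * 4),
    by positivity, fun N hN x hx hx1 hM j hjN hu => ?_⟩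
  have hN0 : (1 : ℝ) ≤ N := by exact_mod_cast hN
  have hj : (0 : ℝ) < (j : ℝ) + 1 := by positivity
  have hj0 : (0 : ℝ) ≤ j := j.cast_nonneg
  obtain ⟨M, hMdef⟩ : ∃ M : ℝ, M = N * x := ⟨_, rfl⟩
  rw [← hMdef] at hM hu ⊢
  have hM0 : 0 < M := by linarith
  have hMN : M ≤ N := by rw [hMdef]; nlinarith
  obtain ⟨u, hudef⟩ : ∃ u : ℝ, u = ((j : ℝ) - M) / M := ⟨_, rfl⟩
  rw [← hudef]
  have hu1 : |u| ≤ 1 / 2 := by
    rw [hudef, abs_div, abs_of_pos hM0, div_le_iff₀ hM0]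
    linarith
  have hu2 := abs_le.mp hu1
  have hju : (j : ℝ) = M * (1 + u) := by
    rw [hudef]; field_simp; ring
  obtain ⟨y, hydef⟩ : ∃ y : ℝ, y = x * (((N : ℝ) + 2) / ((j : ℝ) + 1)) := ⟨_, rfl⟩
  have hy0 : 0 < y := by rw [hydef]; positivity
  have hi : 0 < 1 / M := by positivity
  have hi1 : 1 / M ≤ 1 := by rw [div_le_one hM0]; exact hM
  have hLu := GamQ_logest hN0 hx1 hMdef hM hju hu1 hydef rfl
  obtain ⟨hA, hB⟩ := GamQ_cpow_taylor s hi.le hi1 hu1 hy0 hLu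
  -- the Gamma factor
  have hq : ‖GamQ_g s j / GamQ_g s (N + 1) - 1‖ ≤ 4 * K / c * (1 / M) := by
    have hne := GamQ_g_ne hs (N + 1)
    have e : GamQ_g s j / GamQ_g s (N + 1) - 1 =
        ((GamQ_g s j - 1) - (GamQ_g s (N + 1) - 1)) / GamQ_g s (N + 1) := by
      field_simp
      ring
    rw [e, norm_div]
    have h1 : ‖GamQ_g s j - 1‖ ≤ 2 * K * (1 / M) := by
      refine (hr j).trans ?_
      have : K / ((j : ℝ) + 1) ≤ K / (M / 2) :=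
        div_le_div_of_nonneg_left hK.le (by positivity) (by nlinarith)
      refine this.trans (le_of_eq ?_)
      field_simp
    have h2 : ‖GamQ_g s (N + 1) - 1‖ ≤ 2 * K * (1 / M) := by
      refine (hr (N + 1)).trans ?_
      have : K / (((N + 1 : ℕ) : ℝ) + 1) ≤ K / (M / 2) :=
        div_le_div_of_nonneg_left hK.le (by positivity) (by push_cast; linarith)
      refine this.trans (le_of_eq ?_)
      field_simp
    have h3 : ‖(GamQ_g s j - 1) - (GamQ_g s (N + 1) - 1)‖ ≤ 4 * K * (1 / M) := by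
      refine (norm_sub_le _ _).trans ?_
      linarith
    calc ‖(GamQ_g s j - 1) - (GamQ_g s (N + 1) - 1)‖ / ‖GamQ_g s (N + 1)‖
        ≤ (4 * K * (1 / M)) / c := div_le_div₀ (by positivity) h3 hc (hl _)
      _ = _ := by ring
  rw [GamQ_pp hs N j hx, ← hydef]
  have e : GamQ_g s j / GamQ_g s (N + 1) * ((y : ℝ) : ℂ) ^ s - 1 + s * (u : ℝ) =
      (GamQ_g s j / GamQ_g s (N + 1) - 1) * ((y : ℝ) : ℂ) ^ s +
        (((y : ℝ) : ℂ) ^ s - 1 + s * (u : ℝ)) := by ring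
  rw [e]
  refine (norm_add_le _ _).trans ?_
  rw [norm_mul]
  have h1 : ‖GamQ_g s j / GamQ_g s (N + 1) - 1‖ * ‖((y : ℝ) : ℂ) ^ s‖ ≤
      4 * K / c * Real.exp (‖s‖ * 6) * (1 / M + u ^ 2) := by
    calc ‖GamQ_g s j / GamQ_g s (N + 1) - 1‖ * ‖((y : ℝ) : ℂ) ^ s‖
        ≤ (4 * K / c * (1 / M)) * Real.exp (‖s‖ * 6) :=
          mul_le_mul hq hA (norm_nonneg _) (by positivity)
      _ = 4 * K / c * Real.exp (‖s‖ * 6) * (1 / M) := by ring
      _ ≤ _ := mul_le_mul_of_nonneg_left (by linarith [sq_nonneg u]) (by positivity)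
  linarith

end MPF
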