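import Pool.Agent.MPF.SphM

/-!
# MPF/IntG: integrals of products of the majorants `Gf`

`Gf a M = (1 + M^{-a})(1+M)^{-1/2}`, `0 ≤ a < 1`; `l` a list of distinct indices, length `r`.

PROOF. (0) pointwise (`prod_Gf_le`): for `nr z = 1`, all `x_i > 0`:
`∏_{i∈l} Gf(N x_i) ≤ C N^{-(r-1)/2} ∑_{i∈l} Gf(N x_i)` and `∏ Gf² ≤ C N^{-(r-1)} ∑ Gf²`. With `c = min_{i≠k} (1 - |⟨m_i,m_k⟩|)/2`
at most one `x_i` is `< c` (`xx_add_ge`); for `x ≥ c`: `Gf a (N x) ≤ C N^{-1/2}`; if all `x_i ≥ c` use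
`Gf a M ≥ (1+M)^{-1/2} ≥ (2N)^{-1/2}` for one factor.
(1) one variable: `∫_0^1 Gf a (N x) dx ≤ C N^{-1/2}`: on `(0,1/N)`: `≤ ∫ (1 + (Nx)^{-a}) dx = C/N`; on `(1/N,1)`:
`≤ 2 ∫ (N x)^{-1/2} dx ≤ C N^{-1/2}`. `∫_{1/N}^1 Gf² ≤ 4 ∫_{1/N}^1 dx/(N x) = 4 log N / N`.
`lintegral_xx` transports to `sph`.
(2) `int_bulk_sq`: on `{∀ i, 1 ≤ N x_i}` by (0),(1): `≤ C N^{-(r-1)} (1 + log N)/N ≤ C N^{-2 + 1/4}` for `r ≥ 2`
(`1 + log N ≤ C N^{1/4}`). (3) `int_off`: on `{∃ k, N x_k < 1}`: by (0) need `∫_{N x_k < 1} Gf(N x_i) ≤ C/N`: for `i = k` see (1); for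
`i ≠ k` the set has measure `≤ 1/N` and there `x_i ≥ c` if `1/N < c` (so `Gf ≤ C`); for the finitely many `N` with `1/N ≥ c` use the
bound `C N^{-1/2}` of (1) for the full integral. (4) `int_three`: `r ≥ 3`: `C N^{-1} N^{-1/2}`.
(5) integrability: the product is dominated by `C ∑ Gf`.
-/

open MeasureTheory Matrix Finset Filter Topology
open scoped ENNReal ComplexConjugate

namespace MPF

lemma Gf_nonneg {a M : ℝ} (hM : 0 ≤ M) : 0 ≤ Gf a M := by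
  unfold Gf; positivity

lemma measurable_Gf (a : ℝ) : Measurable (Gf a) := by
  unfold Gf
  fun_prop

variable {K : ℕ}

/-- The bulk: no `N x_i` is less than 1. -/
def bulk (N : ℕ) (m : Fin K → Fin 2 → ℂ) : Set (Fin 2 → ℂ) := {z | ∀ i, 1 ≤ N * xx (m i) z}

lemma measurableSet_bulk (N : ℕ) (m : Fin K → Fin 2 → ℂ) : MeasurableSet (bulk N m) := by
  have h : bulk N m = ⋂ i, {z | 1 ≤ N * xx (m i) z} := by
    ext z; simp [bulk]
  rw [h]
  exact MeasurableSet.iInter fun i => measurableSet_le measurable_const ((measurable_xx (m i)).const_mul _)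

private lemma IntG_hi {a M : ℝ} (ha0 : 0 ≤ a) (hM : 1 ≤ M) : Gf a M ≤ 2 * M ^ (-(1 / 2) : ℝ) := by
  have h0 : 0 < M := by linarith
  unfold Gf
  have h1 : M ^ (-a) ≤ 1 := Real.rpow_le_one_of_one_le_of_nonpos hM (by linarith)
  have h2 : (1 + M) ^ (-(1 / 2) : ℝ) ≤ M ^ (-(1 / 2) : ℝ) :=
    Real.rpow_le_rpow_of_nonpos h0 (by linarith) (by norm_num)
  have h3 : 0 ≤ (1 + M) ^ (-(1 / 2) : ℝ) := by positivity
  exact mul_le_mul (by linarith) h2 h3 (by norm_num)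

private lemma IntG_lo {a p M : ℝ} (ha0 : 0 ≤ a) (hap : a ≤ p) (hM0 : 0 < M) (hM : M ≤ 1) :
    Gf a M ≤ 2 * M ^ (-p) := by
  unfold Gf
  have h1 : M ^ (-a) ≤ M ^ (-p) := Real.rpow_le_rpow_of_exponent_ge hM0 hM (by linarith)
  have h2 : 1 ≤ M ^ (-p) := Real.one_le_rpow_of_pos_of_le_one_of_nonpos hM0 hM (by linarith)
  have h3 : (1 + M) ^ (-(1 / 2) : ℝ) ≤ 1 :=
    Real.rpow_le_one_of_one_le_of_nonpos (by linarith) (by norm_num)
  have h4 : 0 ≤ 1 + M ^ (-a) := by positivity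
  calc (1 + M ^ (-a)) * (1 + M) ^ (-(1 / 2) : ℝ) ≤ (1 + M ^ (-a)) * 1 :=
        mul_le_mul_of_nonneg_left h3 h4
    _ ≤ 2 * M ^ (-p) := by linarith

private lemma IntG_g1 {a p x : ℝ} {N : ℕ} (ha0 : 0 ≤ a) (hap : a ≤ p) (hp : 1 / 2 ≤ p) (hN : 1 ≤ N)
    (hx0 : 0 < x) (hx1 : x ≤ 1) : Gf a (N * x) ≤ 2 * ((N : ℝ) ^ (-(1 / 2) : ℝ) * x ^ (-p)) := by
  have hN1 : (1 : ℝ) ≤ N := by exact_mod_cast hN
  have hN0 : (0 : ℝ) < N := by linarith
  have hxp : 0 ≤ x ^ (-p) := by positivity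
  rcases le_total 1 (N * x) with h | h
  · refine (IntG_hi ha0 h).trans ?_
    rw [Real.mul_rpow hN0.le hx0.le]
    have h1 : x ^ (-(1 / 2) : ℝ) ≤ x ^ (-p) :=
      Real.rpow_le_rpow_of_exponent_ge hx0 hx1 (by linarith)
    gcongr
  · refine (IntG_lo ha0 hap (by positivity) h).trans ?_
    rw [Real.mul_rpow hN0.le hx0.le]
    have h1 : (N : ℝ) ^ (-p) ≤ (N : ℝ) ^ (-(1 / 2) : ℝ) :=
      Real.rpow_le_rpow_of_exponent_le hN1 (by linarith)
    gcongr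

private lemma IntG_g3 {a p x c : ℝ} {N : ℕ} (ha0 : 0 ≤ a) (hap : a ≤ p) (hp : 1 / 2 ≤ p) (hp1 : p < 1)
    (hN : 1 ≤ N) (hc : 0 < c) (hx0 : c ≤ x) (hx1 : x ≤ 1) :
    Gf a (N * x) ≤ (2 / c) * (N : ℝ) ^ (-(1 / 2) : ℝ) := by
  have hx : 0 < x := lt_of_lt_of_le hc hx0
  refine (IntG_g1 ha0 hap hp hN hx hx1).trans ?_
  have h1 : x ^ (-p) ≤ 1 / c := by
    have h2 : x ^ (-p) ≤ x ^ (-1 : ℝ) := Real.rpow_le_rpow_of_exponent_ge hx hx1 (by linarith)
    rw [Real.rpow_neg_one] at h2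
    refine h2.trans ?_
    rw [one_div]
    exact inv_anti₀ hc hx0
  have h3 : 0 ≤ (N : ℝ) ^ (-(1 / 2) : ℝ) := by positivity
  calc 2 * ((N : ℝ) ^ (-(1 / 2) : ℝ) * x ^ (-p)) ≤ 2 * ((N : ℝ) ^ (-(1 / 2) : ℝ) * (1 / c)) := by gcongr
    _ = (2 / c) * (N : ℝ) ^ (-(1 / 2) : ℝ) := by ring

private lemma IntG_exp (a : Fin K → ℝ) (ha1 : ∀ i, a i < 1) : ∃ p : ℝ, 1 / 2 ≤ p ∧ p < 1 ∧ ∀ i, a i ≤ p := by
  have h : ∀ᶠ p in 𝓝[<] (1 : ℝ), (1 / 2 ≤ p ∧ ∀ i, a i ≤ p) ∧ p < 1 := by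
    refine Filter.Eventually.and (Filter.Eventually.and ?_ (Filter.eventually_all.2 fun i => ?_)) ?_
    · filter_upwards [Ioo_mem_nhdsLT (show (1 / 2 : ℝ) < 1 by norm_num)] with p hp using hp.1.le
    · filter_upwards [Ioo_mem_nhdsLT (ha1 i)] with p hp using hp.1.le
    · exact self_mem_nhdsWithin
  obtain ⟨p, ⟨h1, h2⟩, h3⟩ := h.exists
  exact ⟨p, h1, h3, h2⟩

private lemma IntG_sep (m : Fin K → Fin 2 → ℂ) (hne : ∀ i k, i ≠ k → ‖hp (m i) (m k)‖ < 1) :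
    ∃ c : ℝ, 0 < c ∧ c ≤ 1 / 2 ∧ ∀ i k, i ≠ k → 2 * c ≤ 1 - ‖hp (m i) (m k)‖ := by
  have h : ∀ᶠ c in 𝓝[>] (0 : ℝ), (c ≤ 1 / 2 ∧ ∀ i k, i ≠ k → 2 * c ≤ 1 - ‖hp (m i) (m k)‖) ∧ 0 < c := by
    refine Filter.Eventually.and (Filter.Eventually.and ?_ (Filter.eventually_all.2 fun i =>
      Filter.eventually_all.2 fun k => ?_)) ?_
    · filter_upwards [Ioo_mem_nhdsGT (show (0 : ℝ) < 1 / 2 by norm_num)] with p hp using hp.2.le
    · by_cases hik : i = k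
      · exact Filter.Eventually.of_forall fun c h => absurd hik h
      · filter_upwards [Ioo_mem_nhdsGT (show (0 : ℝ) < (1 - ‖hp (m i) (m k)‖) / 2 by
          linarith [hne i k hik])] with c hc _
        linarith [hc.2]
    · exact self_mem_nhdsWithin
  obtain ⟨c, ⟨h1, h2⟩, h3⟩ := h.exists
  exact ⟨c, h3, h1, h2⟩

/-- Good points. -/
private def IntG_ok (c : ℝ) (m : Fin K → Fin 2 → ℂ) (z : Fin 2 → ℂ) : Prop :=
  (∀ i, 0 < xx (m i) z ∧ xx (m i) z ≤ 1) ∧ ∀ i k, i ≠ k → c ≤ xx (m i) z ∨ c ≤ xx (m k) z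

private lemma IntG_ok_ae (m : Fin K → Fin 2 → ℂ) (hm : ∀ i, nr (m i) = 1) {c : ℝ}
    (hc : ∀ i k, i ≠ k → 2 * c ≤ 1 - ‖hp (m i) (m k)‖) : ∀ᵐ z ∂sph, IntG_ok c m z := by
  have h1 : ∀ᵐ z ∂sph, ∀ i, 0 < xx (m i) z := ae_all_iff.2 fun i => ae_xx_pos (hm i)
  filter_upwards [ae_nr_sph, h1] with z hz hz1
  refine ⟨fun i => ⟨hz1 i, xx_le_one (hm i) hz⟩, fun i k hik => ?_⟩
  have h2 := xx_add_ge (hm i) (hm k) hz
  have h3 := hc i k hik
  by_contra hcon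
  rw [not_or, not_le, not_le] at hcon
  linarith [hcon.1, hcon.2]

private lemma IntG_prod {m : Fin K → Fin 2 → ℂ} {a : Fin K → ℝ} {p c : ℝ} (ha0 : ∀ i, 0 ≤ a i)
    (hap : ∀ i, a i ≤ p) (hp : 1 / 2 ≤ p) (hp1 : p < 1) (hc : 0 < c) {z : Fin 2 → ℂ}
    (hz : IntG_ok c m z) {l : List (Fin K)} (hl : l.Nodup) (hlen : 1 ≤ l.length) {N : ℕ} (hN : 1 ≤ N) :
    ∃ j ∈ l, (l.map fun i => Gf (a i) (N * xx (m i) z)).prod ≤
      Gf (a j) (N * xx (m j) z) * ((2 / c) * (N : ℝ) ^ (-(1 / 2) : ℝ)) ^ (l.length - 1) := by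
  rw [← List.prod_toFinset _ hl]
  have hcard : l.toFinset.card = l.length := List.toFinset_card_of_nodup hl
  have hj : ∃ j ∈ l.toFinset, ∀ i ∈ l.toFinset, i ≠ j → c ≤ xx (m i) z := by
    by_cases h : ∃ j ∈ l.toFinset, xx (m j) z < c
    · obtain ⟨j, hj, hjc⟩ := h
      refine ⟨j, hj, fun i _ hij => ?_⟩
      rcases hz.2 i j hij with h1 | h1
      · exact h1
      · exact absurd h1 (not_le.2 hjc)
    · push Not at h
      obtain ⟨j, hj⟩ : l.toFinset.Nonempty := by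
        rw [← Finset.card_pos, hcard]; omega
      exact ⟨j, hj, fun i hi _ => h i hi⟩
  obtain ⟨j, hjl, hj⟩ := hj
  refine ⟨j, List.mem_toFinset.1 hjl, ?_⟩
  rw [← Finset.mul_prod_erase _ _ hjl]
  refine mul_le_mul_of_nonneg_left ?_ (Gf_nonneg (by have := (hz.1 j).1; positivity))
  have hcard2 : (l.toFinset.erase j).card = l.length - 1 := by
    rw [Finset.card_erase_of_mem hjl, hcard]
  rw [← hcard2, ← Finset.prod_const]
  refine Finset.prod_le_prod (fun i hi => ?_) (fun i hi => ?_)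
  · exact Gf_nonneg (by have := (hz.1 i).1; positivity)
  · rw [Finset.mem_erase] at hi
    exact IntG_g3 (ha0 i) (hap i) hp hp1 hN hc (hj i hi.2 hi.1) (hz.1 i).2

private lemma IntG_pow (m : Fin 2 → ℂ) (hm : nr m = 1) {p : ℝ} (hp1 : p < 1) :
    Integrable (fun z => xx m z ^ (-p)) sph ∧ ∫ z, xx m z ^ (-p) ∂sph = 1 / (1 - p) := by
  have hme : AEMeasurable (xx m) sph := (measurable_xx m).aemeasurable
  have hms : AEStronglyMeasurable (fun x : ℝ => x ^ (-p)) (sph.map (xx m)) := by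
    have : Measurable fun x : ℝ => x ^ (-p) := by fun_prop
    exact this.aestronglyMeasurable
  have hI : IntegrableOn (fun x : ℝ => x ^ (-p)) (Set.Ioc 0 1) := by
    have := intervalIntegral.intervalIntegrable_rpow' (a := 0) (b := 1) (show -1 < -p by linarith)
    rwa [intervalIntegrable_iff_integrableOn_Ioc_of_le zero_le_one] at this
  constructor
  · have h := (integrable_map_measure hms hme)
    rw [map_xx hm] at h
    exact h.1 hI
  · have h := integral_map hme hms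
    rw [map_xx hm] at h
    rw [← h, ← intervalIntegral.integral_of_le zero_le_one, integral_rpow (Or.inl (by linarith))]
    rw [Real.one_rpow, Real.zero_rpow (by linarith)]
    congr 1 <;> ring

/-- The low part. -/
private noncomputable def IntG_psi (p C : ℝ) (N : ℕ) (x : ℝ) : ℝ :=
  Set.indicator (Set.Ioc (0 : ℝ) (1 / N)) (fun x => 2 * (N : ℝ) ^ (-p) * x ^ (-p) + C) x

private lemma IntG_psi_int (m : Fin 2 → ℂ) (hm : nr m = 1) {p C : ℝ} (hp1 : p < 1) {N : ℕ}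
    (hN : 1 ≤ N) :
    Integrable (fun z => IntG_psi p C N (xx m z)) sph ∧
      ∫ z, IntG_psi p C N (xx m z) ∂sph = (2 / (1 - p) + C) * (N : ℝ)⁻¹ := by
  have hN1 : (1 : ℝ) ≤ N := by exact_mod_cast hN
  have hN0 : (0 : ℝ) < N := by linarith
  have hme : AEMeasurable (xx m) sph := (measurable_xx m).aemeasurable
  have hms : AEStronglyMeasurable (IntG_psi p C N) (sph.map (xx m)) := by
    have : Measurable (IntG_psi p C N) := by
      unfold IntG_psi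
      refine Measurable.indicator ?_ measurableSet_Ioc
      fun_prop
    exact this.aestronglyMeasurable
  have hii : IntervalIntegrable (fun x : ℝ => 2 * (N : ℝ) ^ (-p) * x ^ (-p) + C) volume 0 (1 / N) := by
    have := intervalIntegral.intervalIntegrable_rpow' (a := 0) (b := 1 / N) (show -1 < -p by linarith)
    exact (this.const_mul _).add intervalIntegrable_const
  have h1N : (0 : ℝ) ≤ 1 / N := by positivity
  have hI : Integrable (IntG_psi p C N) := by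
    unfold IntG_psi
    rw [integrable_indicator_iff measurableSet_Ioc]
    rwa [intervalIntegrable_iff_integrableOn_Ioc_of_le h1N] at hii
  constructor
  · have h := (integrable_map_measure hms hme)
    rw [map_xx hm] at h
    exact h.1 hI.integrableOn
  · have h := integral_map hme hms
    rw [map_xx hm] at h
    rw [← h]
    unfold IntG_psi
    rw [setIntegral_indicator measurableSet_Ioc, Set.Ioc_inter_Ioc, max_self,
      min_eq_right (by rw [div_le_one hN0]; exact hN1), ← intervalIntegral.integral_of_le h1N,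
      intervalIntegral.integral_add _ intervalIntegrable_const, intervalIntegral.integral_const_mul,
      integral_rpow (Or.inl (by linarith)), intervalIntegral.integral_const]
    · rw [Real.zero_rpow (by linarith), sub_zero, sub_zero, smul_eq_mul, one_div, Real.inv_rpow hN0.le,
        Real.rpow_add hN0, Real.rpow_one]
      have : (N : ℝ) ^ (-p) ≠ 0 := by positivity
      have h2 : -p + 1 ≠ 0 := by linarith
      have h3 : 1 - p ≠ 0 := by linarith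
      field_simp
      ring
    · have := intervalIntegral.intervalIntegrable_rpow' (a := 0) (b := 1 / N) (show -1 < -p by linarith)
      exact this.const_mul _


private lemma IntG_base {a : Fin K → ℝ} {p : ℝ} (ha0 : ∀ i, 0 ≤ a i)
    (hap : ∀ i, a i ≤ p) (hp : 1 / 2 ≤ p) {c : ℝ} {m : Fin K → Fin 2 → ℂ} {z : Fin 2 → ℂ}
    (hz : IntG_ok c m z) {N : ℕ} (hN : 1 ≤ N) (j : Fin K) :
    Gf (a j) (N * xx (m j) z) ≤ 2 * (N : ℝ) ^ (-(1 / 2) : ℝ) * ∑ i, xx (m i) z ^ (-p) := by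
  refine (IntG_g1 (ha0 j) (hap j) hp hN (hz.1 j).1 (hz.1 j).2).trans ?_
  rw [← mul_assoc]
  refine mul_le_mul_of_nonneg_left ?_ (by positivity)
  exact Finset.single_le_sum (f := fun i => xx (m i) z ^ (-p))
    (fun i _ => Real.rpow_nonneg (hz.1 i).1.le _) (Finset.mem_univ j)

private lemma IntG_sumint (m : Fin K → Fin 2 → ℂ) (hm : ∀ i, nr (m i) = 1) {p : ℝ} (hp1 : p < 1) :
    Integrable (fun z => ∑ i, xx (m i) z ^ (-p)) sph ∧
      ∫ z, ∑ i, xx (m i) z ^ (-p) ∂sph = K * (1 / (1 - p)) := by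
  constructor
  · exact integrable_finsetSum _ fun i _ => (IntG_pow (m i) (hm i) hp1).1
  · rw [integral_finsetSum _ fun i _ => (IntG_pow (m i) (hm i) hp1).1]
    rw [Finset.sum_congr rfl fun i _ => (IntG_pow (m i) (hm i) hp1).2]
    simp

private lemma IntG_Bpow {c : ℝ} (hc : 0 < c) (hc2 : c ≤ 1 / 2) {N : ℕ} (hN : 1 ≤ N) {r k : ℕ}
    (hr : k ≤ r) :
    ((2 / c) * (N : ℝ) ^ (-(1 / 2) : ℝ)) ^ r ≤ (2 / c) ^ r * (N : ℝ) ^ (-(k / 2 : ℝ)) := by
  have hN1 : (1 : ℝ) ≤ N := by exact_mod_cast hN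
  have hN0 : (0 : ℝ) < N := by linarith
  rw [mul_pow]
  refine mul_le_mul_of_nonneg_left ?_ (by positivity)
  rw [← Real.rpow_natCast, ← Real.rpow_mul hN0.le]
  refine Real.rpow_le_rpow_of_exponent_le hN1 ?_
  have : (k : ℝ) ≤ r := by exact_mod_cast hr
  linarith

private lemma IntG_meas (m : Fin K → Fin 2 → ℂ) (a : Fin K → ℝ) (l : List (Fin K)) (N : ℕ) :
    Measurable (fun z => (l.map fun i => Gf (a i) (N * xx (m i) z)).prod) := by
  induction l with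
  | nil => simp
  | cons i l ih =>
    simp only [List.map_cons, List.prod_cons]
    exact (((measurable_Gf (a i)).comp ((measurable_xx (m i)).const_mul _))).mul ih

private lemma IntG_nonneg {m : Fin K → Fin 2 → ℂ} {a : Fin K → ℝ} {l : List (Fin K)} {N : ℕ}
    (z : Fin 2 → ℂ) : 0 ≤ (l.map fun i => Gf (a i) (N * xx (m i) z)).prod := by
  refine List.prod_nonneg fun b hb => ?_
  rw [List.mem_map] at hb
  obtain ⟨i, _, rfl⟩ := hb
  exact Gf_nonneg (mul_nonneg (Nat.cast_nonneg _) (xx_nonneg _ _))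

theorem int_Gf_integrable (m : Fin K → Fin 2 → ℂ) (hm : ∀ i, nr (m i) = 1)
    (hne : ∀ i k, i ≠ k → ‖hp (m i) (m k)‖ < 1) (a : Fin K → ℝ) (ha0 : ∀ i, 0 ≤ a i)
    (ha1 : ∀ i, a i < 1) (l : List (Fin K)) (hl : l.Nodup) {N : ℕ} (hN : 1 ≤ N) :
    Integrable (fun z => (l.map fun i => Gf (a i) (N * xx (m i) z)).prod) sph := by
  rcases Nat.eq_zero_or_pos l.length with h0 | h0
  · rw [List.length_eq_zero_iff] at h0
    subst h0
    simp
  obtain ⟨p, hp, hp1, hap⟩ := IntG_exp a ha1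
  obtain ⟨c, hc, hc2, hsep⟩ := IntG_sep m hne
  have hI := (IntG_sumint m hm hp1).1
  refine (hI.const_mul (2 * (N : ℝ) ^ (-(1 / 2) : ℝ) *
    ((2 / c) * (N : ℝ) ^ (-(1 / 2) : ℝ)) ^ (l.length - 1))).mono'
    (IntG_meas m a l N).aestronglyMeasurable ?_
  filter_upwards [IntG_ok_ae m hm hsep] with z hz
  rw [Real.norm_eq_abs, abs_of_nonneg (IntG_nonneg z)]
  obtain ⟨j, _, hj⟩ := IntG_prod ha0 hap hp hp1 hc hz hl h0 hN
  refine hj.trans ?_
  calc Gf (a j) (N * xx (m j) z) * ((2 / c) * (N : ℝ) ^ (-(1 / 2) : ℝ)) ^ (l.length - 1)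
      ≤ (2 * (N : ℝ) ^ (-(1 / 2) : ℝ) * ∑ i, xx (m i) z ^ (-p)) *
        ((2 / c) * (N : ℝ) ^ (-(1 / 2) : ℝ)) ^ (l.length - 1) :=
        mul_le_mul_of_nonneg_right (IntG_base ha0 hap hp hz hN j) (by positivity)
    _ = _ := by ring

theorem int_bulk_sq (m : Fin K → Fin 2 → ℂ) (hm : ∀ i, nr (m i) = 1)
    (hne : ∀ i k, i ≠ k → ‖hp (m i) (m k)‖ < 1) (a : Fin K → ℝ) (ha0 : ∀ i, 0 ≤ a i)
    (ha1 : ∀ i, a i < 1) (l : List (Fin K)) (hl : l.Nodup) (hlen : 2 ≤ l.length) :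
    ∃ C : ℝ, 0 < C ∧ ∀ N : ℕ, 1 ≤ N →
      IntegrableOn (fun z => (l.map fun i => Gf (a i) (N * xx (m i) z)).prod ^ 2) (bulk N m) sph ∧
      ∫ z in bulk N m, (l.map fun i => Gf (a i) (N * xx (m i) z)).prod ^ 2 ∂sph ≤
        C * (N : ℝ) ^ (-(7 / 4) : ℝ) := by
  obtain ⟨p, hp, hp1, hap⟩ := IntG_exp a ha1
  obtain ⟨c, hc, hc2, hsep⟩ := IntG_sep m hne
  have hI := IntG_sumint m hm (show (3 / 4 : ℝ) < 1 by norm_num)
  set R := l.length - 1 with hR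
  refine ⟨4 * ((2 / c) ^ R) ^ 2 * (K * (1 / (1 - 3 / 4))) + 1, by positivity, ?_⟩
  intro N hN
  have hN1 : (1 : ℝ) ≤ N := by exact_mod_cast hN
  have hN0 : (0 : ℝ) < N := by linarith
  have hbd : ∀ᵐ z ∂(sph.restrict (bulk N m)), (l.map fun i => Gf (a i) (N * xx (m i) z)).prod ^ 2 ≤
      (4 * ((2 / c) ^ R) ^ 2 * (N : ℝ) ^ (-(7 / 4) : ℝ)) * ∑ i, xx (m i) z ^ (-(3 / 4) : ℝ) := by
    rw [ae_restrict_iff' (measurableSet_bulk N m)]
    filter_upwards [IntG_ok_ae m hm hsep] with z hz hzb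
    obtain ⟨j, _, hj⟩ := IntG_prod ha0 hap hp hp1 hc hz hl (by omega) hN
    have hxj := hz.1 j
    have hg : Gf (a j) (N * xx (m j) z) ^ 2 ≤ 4 * ((N : ℝ) ^ (-(3 / 4) : ℝ) * xx (m j) z ^ (-(3 / 4) : ℝ)) := by
      have h1 := IntG_hi (ha0 j) (hzb j)
      have h0 : 0 ≤ Gf (a j) (N * xx (m j) z) := Gf_nonneg (by linarith [hzb j])
      have hM : 0 < N * xx (m j) z := by linarith [hzb j]
      calc Gf (a j) (N * xx (m j) z) ^ 2 ≤ (2 * (N * xx (m j) z) ^ (-(1 / 2) : ℝ)) ^ 2 := by gcongr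
        _ = 4 * (N * xx (m j) z) ^ (-1 : ℝ) := by
            rw [mul_pow, ← Real.rpow_natCast, ← Real.rpow_natCast, ← Real.rpow_mul hM.le]
            norm_num
        _ ≤ 4 * (N * xx (m j) z) ^ (-(3 / 4) : ℝ) := by
            refine mul_le_mul_of_nonneg_left ?_ (by norm_num)
            exact Real.rpow_le_rpow_of_exponent_le (hzb j) (by norm_num)
        _ = _ := by rw [Real.mul_rpow hN0.le hxj.1.le]
    have hB := IntG_Bpow hc hc2 hN (r := R) (k := 1) (by omega)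
    have hs : xx (m j) z ^ (-(3 / 4) : ℝ) ≤ ∑ i, xx (m i) z ^ (-(3 / 4) : ℝ) :=
      Finset.single_le_sum (f := fun i => xx (m i) z ^ (-(3 / 4) : ℝ))
        (fun i _ => Real.rpow_nonneg (hz.1 i).1.le _) (Finset.mem_univ j)
    have hg0 : 0 ≤ Gf (a j) (N * xx (m j) z) := Gf_nonneg (by have := hxj.1; positivity)
    calc (l.map fun i => Gf (a i) (N * xx (m i) z)).prod ^ 2
        ≤ (Gf (a j) (N * xx (m j) z) * ((2 / c) * (N : ℝ) ^ (-(1 / 2) : ℝ)) ^ R) ^ 2 :=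
          pow_le_pow_left₀ (IntG_nonneg z) hj 2
      _ = Gf (a j) (N * xx (m j) z) ^ 2 * (((2 / c) * (N : ℝ) ^ (-(1 / 2) : ℝ)) ^ R) ^ 2 := mul_pow _ _ _
      _ ≤ (4 * ((N : ℝ) ^ (-(3 / 4) : ℝ) * xx (m j) z ^ (-(3 / 4) : ℝ))) *
          ((2 / c) ^ R * (N : ℝ) ^ (-(((1 : ℕ) : ℝ) / 2))) ^ 2 := by
          have h5 := Real.rpow_nonneg hxj.1.le (-(3 / 4) : ℝ)
          exact mul_le_mul hg (pow_le_pow_left₀ (by positivity) hB 2) (by positivity) (by positivity)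
      _ = (4 * ((2 / c) ^ R) ^ 2 * ((N : ℝ) ^ (-(3 / 4) : ℝ) * ((N : ℝ) ^ (-(((1 : ℕ) : ℝ) / 2))) ^ 2)) *
          xx (m j) z ^ (-(3 / 4) : ℝ) := by ring
      _ = (4 * ((2 / c) ^ R) ^ 2 * (N : ℝ) ^ (-(7 / 4) : ℝ)) * xx (m j) z ^ (-(3 / 4) : ℝ) := by
          congr 2
          rw [← Real.rpow_natCast, ← Real.rpow_mul hN0.le, ← Real.rpow_add hN0]
          norm_num
      _ ≤ _ := by
          refine mul_le_mul_of_nonneg_left hs (by positivity)
  have hIr : IntegrableOn (fun z => (4 * ((2 / c) ^ R) ^ 2 * (N : ℝ) ^ (-(7 / 4) : ℝ)) *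
      ∑ i, xx (m i) z ^ (-(3 / 4) : ℝ)) (bulk N m) sph := (hI.1.const_mul _).integrableOn
  constructor
  · refine Integrable.mono' hIr (((IntG_meas m a l N).pow_const 2).aestronglyMeasurable) ?_
    filter_upwards [hbd] with z hz
    rw [Real.norm_eq_abs, abs_of_nonneg (sq_nonneg _)]
    exact hz
  · calc ∫ z in bulk N m, (l.map fun i => Gf (a i) (N * xx (m i) z)).prod ^ 2 ∂sph
        ≤ ∫ z in bulk N m, (4 * ((2 / c) ^ R) ^ 2 * (N : ℝ) ^ (-(7 / 4) : ℝ)) *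
          ∑ i, xx (m i) z ^ (-(3 / 4) : ℝ) ∂sph :=
          integral_mono_of_nonneg (Filter.Eventually.of_forall fun z => sq_nonneg _) hIr hbd
      _ ≤ ∫ z, (4 * ((2 / c) ^ R) ^ 2 * (N : ℝ) ^ (-(7 / 4) : ℝ)) *
          ∑ i, xx (m i) z ^ (-(3 / 4) : ℝ) ∂sph := by
          refine setIntegral_le_integral (hI.1.const_mul _) (Filter.Eventually.of_forall fun z => ?_)
          refine mul_nonneg (by positivity) (Finset.sum_nonneg fun i _ =>
            Real.rpow_nonneg (xx_nonneg _ _) _)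
      _ = (4 * ((2 / c) ^ R) ^ 2 * (N : ℝ) ^ (-(7 / 4) : ℝ)) * (K * (1 / (1 - 3 / 4))) := by
          rw [integral_const_mul, hI.2]
      _ = (4 * ((2 / c) ^ R) ^ 2 * (K * (1 / (1 - 3 / 4)))) * (N : ℝ) ^ (-(7 / 4) : ℝ) := by ring
      _ ≤ _ := by
          refine mul_le_mul_of_nonneg_right (by linarith) (by positivity)

theorem int_off (m : Fin K → Fin 2 → ℂ) (hm : ∀ i, nr (m i) = 1)
    (hne : ∀ i k, i ≠ k → ‖hp (m i) (m k)‖ < 1) (a : Fin K → ℝ) (ha0 : ∀ i, 0 ≤ a i)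
    (ha1 : ∀ i, a i < 1) (l : List (Fin K)) (hl : l.Nodup) (hlen : 2 ≤ l.length) :
    ∃ C : ℝ, 0 < C ∧ ∀ N : ℕ, 1 ≤ N →
      ∫ z in (bulk N m)ᶜ, (l.map fun i => Gf (a i) (N * xx (m i) z)).prod ∂sph ≤
        C * (N : ℝ) ^ (-(3 / 2) : ℝ) := by
  obtain ⟨p, hp, hp1, hap⟩ := IntG_exp a ha1
  obtain ⟨c, hc, hc2, hsep⟩ := IntG_sep m hne
  have hI := IntG_sumint m hm hp1
  have hp1' : 0 < 1 - p := by linarith
  set R := l.length - 1 with hR
  refine ⟨(2 / c) ^ R * (K * (2 / (1 - p) + 2 / c) + (2 / c) * (K * (1 / (1 - p)))) + 1,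
    by positivity, ?_⟩
  intro N hN
  have hN1 : (1 : ℝ) ≤ N := by exact_mod_cast hN
  have hN0 : (0 : ℝ) < N := by linarith
  set D : (Fin 2 → ℂ) → ℝ := fun z => (∑ k, IntG_psi p (2 / c) N (xx (m k) z)) +
    (2 / (c * N)) * ∑ i, xx (m i) z ^ (-p) with hD
  have hpsi0 : ∀ x : ℝ, 0 ≤ IntG_psi p (2 / c) N x := by
    intro x
    unfold IntG_psi
    refine Set.indicator_nonneg (fun x hx => ?_) x
    have := hx.1
    positivity
  have hbd : ∀ᵐ z ∂(sph.restrict (bulk N m)ᶜ), (l.map fun i => Gf (a i) (N * xx (m i) z)).prod ≤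
      ((2 / c) ^ R * (N : ℝ) ^ (-(((1 : ℕ) : ℝ) / 2))) * D z := by
    rw [ae_restrict_iff' (measurableSet_bulk N m).compl]
    filter_upwards [IntG_ok_ae m hm hsep] with z hz hzb
    obtain ⟨j, _, hj⟩ := IntG_prod ha0 hap hp hp1 hc hz hl (by omega) hN
    have hxj := hz.1 j
    have hB := IntG_Bpow hc hc2 hN (r := R) (k := 1) (by omega)
    have hg0 : 0 ≤ Gf (a j) (N * xx (m j) z) := Gf_nonneg (by have := hxj.1; positivity)
    have hsum0 : 0 ≤ ∑ i, xx (m i) z ^ (-p) := Finset.sum_nonneg fun i _ =>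
      Real.rpow_nonneg (xx_nonneg _ _) _
    have hsump0 : 0 ≤ ∑ k, IntG_psi p (2 / c) N (xx (m k) z) := Finset.sum_nonneg fun i _ => hpsi0 _
    have hpsi : ∀ k, N * xx (m k) z < 1 → IntG_psi p (2 / c) N (xx (m k) z) =
        2 * (N : ℝ) ^ (-p) * xx (m k) z ^ (-p) + 2 / c := by
      intro k hk
      unfold IntG_psi
      rw [Set.indicator_of_mem]
      refine ⟨(hz.1 k).1, ?_⟩
      rw [le_div_iff₀ hN0, mul_comm]
      exact hk.le
    have hgD : Gf (a j) (N * xx (m j) z) ≤ D z := by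
      obtain ⟨k, hk⟩ : ∃ k, N * xx (m k) z < 1 := by
        by_contra hcon
        push Not at hcon
        exact hzb hcon
      have hks : IntG_psi p (2 / c) N (xx (m k) z) ≤ ∑ k, IntG_psi p (2 / c) N (xx (m k) z) :=
        Finset.single_le_sum (f := fun k => IntG_psi p (2 / c) N (xx (m k) z))
          (fun i _ => hpsi0 _) (Finset.mem_univ k)
      have hrest : 0 ≤ (2 / (c * N)) * ∑ i, xx (m i) z ^ (-p) := mul_nonneg (by positivity) hsum0
      have hnn : 0 ≤ 2 * (N : ℝ) ^ (-p) * xx (m k) z ^ (-p) := by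
        have := (hz.1 k).1
        positivity
      simp only [hD]
      by_cases hkj : k = j
      · subst hkj
        have h1 := IntG_lo (ha0 k) (hap k) (mul_pos hN0 (hz.1 k).1) hk.le
        rw [Real.mul_rpow hN0.le (hz.1 k).1.le] at h1
        have h2 := hpsi k hk
        have h3 : 0 < 2 / c := by positivity
        linarith
      · rcases hz.2 j k (Ne.symm hkj) with h1 | h1
        · have h2 := IntG_g3 (ha0 j) (hap j) hp hp1 hN hc h1 hxj.2
          have h3 : (N : ℝ) ^ (-(1 / 2) : ℝ) ≤ 1 :=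
            Real.rpow_le_one_of_one_le_of_nonpos hN1 (by norm_num)
          have h4 : (2 / c) * (N : ℝ) ^ (-(1 / 2) : ℝ) ≤ (2 / c) * 1 := by gcongr
          have h5 := hpsi k hk
          linarith
        · have h2 := IntG_base ha0 hap hp hz hN j
          have h3 : (N : ℝ) ^ (-(1 / 2) : ℝ) ≤ 1 :=
            Real.rpow_le_one_of_one_le_of_nonpos hN1 (by norm_num)
          have h4 : 1 ≤ 1 / (c * N) := by
            rw [le_div_iff₀ (by positivity), one_mul]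
            nlinarith
          have h5 : 2 * (N : ℝ) ^ (-(1 / 2) : ℝ) ≤ 2 / (c * N) := by
            calc 2 * (N : ℝ) ^ (-(1 / 2) : ℝ) ≤ 2 * 1 := by gcongr
              _ ≤ 2 * (1 / (c * N)) := by gcongr
              _ = 2 / (c * N) := by ring
          have h6 := mul_le_mul_of_nonneg_right h5 hsum0
          linarith
    calc (l.map fun i => Gf (a i) (N * xx (m i) z)).prod
        ≤ Gf (a j) (N * xx (m j) z) * ((2 / c) * (N : ℝ) ^ (-(1 / 2) : ℝ)) ^ R := hj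
      _ ≤ D z * ((2 / c) ^ R * (N : ℝ) ^ (-(((1 : ℕ) : ℝ) / 2))) :=
          mul_le_mul hgD hB (by positivity) (hg0.trans hgD)
      _ = _ := by ring
  have hDI : Integrable D sph :=
    (integrable_finsetSum _ fun k _ => (IntG_psi_int (m k) (hm k) hp1 hN).1).add (hI.1.const_mul _)
  have hD0 : ∀ z, 0 ≤ D z := fun z => add_nonneg (Finset.sum_nonneg fun i _ => hpsi0 _)
    (mul_nonneg (by positivity) (Finset.sum_nonneg fun i _ => Real.rpow_nonneg (xx_nonneg _ _) _))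
  have hDi : ∫ z, D z ∂sph = (K * (2 / (1 - p) + 2 / c) + (2 / c) * (K * (1 / (1 - p)))) * (N : ℝ)⁻¹ := by
    simp only [hD]
    rw [integral_add (integrable_finsetSum _ fun k _ => (IntG_psi_int (m k) (hm k) hp1 hN).1)
      (hI.1.const_mul _), integral_const_mul, hI.2,
      integral_finsetSum _ fun k _ => (IntG_psi_int (m k) (hm k) hp1 hN).1,
      Finset.sum_congr rfl fun k _ => (IntG_psi_int (m k) (hm k) hp1 hN).2]
    rw [Finset.sum_const, Finset.card_univ, Fintype.card_fin, nsmul_eq_mul]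
    field_simp
  calc ∫ z in (bulk N m)ᶜ, (l.map fun i => Gf (a i) (N * xx (m i) z)).prod ∂sph
      ≤ ∫ z in (bulk N m)ᶜ, ((2 / c) ^ R * (N : ℝ) ^ (-(((1 : ℕ) : ℝ) / 2))) * D z ∂sph :=
        integral_mono_of_nonneg (Filter.Eventually.of_forall fun z => IntG_nonneg z)
          (hDI.const_mul _).integrableOn hbd
    _ ≤ ∫ z, ((2 / c) ^ R * (N : ℝ) ^ (-(((1 : ℕ) : ℝ) / 2))) * D z ∂sph :=
        setIntegral_le_integral (hDI.const_mul _) (Filter.Eventually.of_forall fun z =>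
          mul_nonneg (by positivity) (hD0 z))
    _ = ((2 / c) ^ R * (K * (2 / (1 - p) + 2 / c) + (2 / c) * (K * (1 / (1 - p))))) *
        ((N : ℝ) ^ (-(((1 : ℕ) : ℝ) / 2)) * (N : ℝ)⁻¹) := by
        rw [integral_const_mul, hDi]; ring
    _ = ((2 / c) ^ R * (K * (2 / (1 - p) + 2 / c) + (2 / c) * (K * (1 / (1 - p))))) *
        (N : ℝ) ^ (-(3 / 2) : ℝ) := by
        congr 1
        rw [← Real.rpow_neg_one, ← Real.rpow_add hN0]
        norm_num
    _ ≤ _ := mul_le_mul_of_nonneg_right (by linarith) (by positivity)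

theorem int_three (m : Fin K → Fin 2 → ℂ) (hm : ∀ i, nr (m i) = 1)
    (hne : ∀ i k, i ≠ k → ‖hp (m i) (m k)‖ < 1) (a : Fin K → ℝ) (ha0 : ∀ i, 0 ≤ a i)
    (ha1 : ∀ i, a i < 1) (l : List (Fin K)) (hl : l.Nodup) (hlen : 3 ≤ l.length) :
    ∃ C : ℝ, 0 < C ∧ ∀ N : ℕ, 1 ≤ N →
      ∫ z, (l.map fun i => Gf (a i) (N * xx (m i) z)).prod ∂sph ≤
        C * (N : ℝ) ^ (-(3 / 2) : ℝ) := by
  obtain ⟨p, hp, hp1, hap⟩ := IntG_exp a ha1
  obtain ⟨c, hc, hc2, hsep⟩ := IntG_sep m hne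
  have hI := IntG_sumint m hm hp1
  have hp1' : 0 < 1 - p := by linarith
  set R := l.length - 1 with hR
  refine ⟨2 * (2 / c) ^ R * (K * (1 / (1 - p))) + 1, by positivity, ?_⟩
  intro N hN
  have hN1 : (1 : ℝ) ≤ N := by exact_mod_cast hN
  have hN0 : (0 : ℝ) < N := by linarith
  have hbd : ∀ᵐ z ∂sph, (l.map fun i => Gf (a i) (N * xx (m i) z)).prod ≤
      (2 * (2 / c) ^ R * (N : ℝ) ^ (-(3 / 2) : ℝ)) * ∑ i, xx (m i) z ^ (-p) := by
    filter_upwards [IntG_ok_ae m hm hsep] with z hz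
    obtain ⟨j, _, hj⟩ := IntG_prod ha0 hap hp hp1 hc hz hl (by omega) hN
    have hB := IntG_Bpow hc hc2 hN (r := R) (k := 2) (by omega)
    have hsum0 : 0 ≤ ∑ i, xx (m i) z ^ (-p) := Finset.sum_nonneg fun i _ =>
      Real.rpow_nonneg (xx_nonneg _ _) _
    calc (l.map fun i => Gf (a i) (N * xx (m i) z)).prod
        ≤ Gf (a j) (N * xx (m j) z) * ((2 / c) * (N : ℝ) ^ (-(1 / 2) : ℝ)) ^ R := hj
      _ ≤ (2 * (N : ℝ) ^ (-(1 / 2) : ℝ) * ∑ i, xx (m i) z ^ (-p)) *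
          ((2 / c) ^ R * (N : ℝ) ^ (-(((2 : ℕ) : ℝ) / 2))) :=
          mul_le_mul (IntG_base ha0 hap hp hz hN j) hB (by positivity) (by positivity)
      _ = (2 * (2 / c) ^ R * ((N : ℝ) ^ (-(1 / 2) : ℝ) * (N : ℝ) ^ (-(((2 : ℕ) : ℝ) / 2)))) *
          ∑ i, xx (m i) z ^ (-p) := by ring
      _ = _ := by
          congr 2
          rw [← Real.rpow_add hN0]
          norm_num
  calc ∫ z, (l.map fun i => Gf (a i) (N * xx (m i) z)).prod ∂sph
      ≤ ∫ z, (2 * (2 / c) ^ R * (N : ℝ) ^ (-(3 / 2) : ℝ)) * ∑ i, xx (m i) z ^ (-p) ∂sph :=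
        integral_mono_of_nonneg (Filter.Eventually.of_forall fun z => IntG_nonneg z)
          (hI.1.const_mul _) hbd
    _ = (2 * (2 / c) ^ R * (K * (1 / (1 - p)))) * (N : ℝ) ^ (-(3 / 2) : ℝ) := by
        rw [integral_const_mul, hI.2]; ring
    _ ≤ _ := mul_le_mul_of_nonneg_right (by linarith) (by positivity)

/-- `∫_{bulk} 1/(x_i √x_k) ≤ C (1 + log N)`, written with the power `N^{1/8}`; used for the error
terms of the pair traces. -/
theorem int_err (m : Fin K → Fin 2 → ℂ) (hm : ∀ i, nr (m i) = 1)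
    (hne : ∀ i k, i ≠ k → ‖hp (m i) (m k)‖ < 1) {i k : Fin K} (hik : i ≠ k) :
    ∃ C : ℝ, 0 < C ∧ ∀ N : ℕ, 1 ≤ N →
      IntegrableOn (fun z => 1 / (xx (m i) z * Real.sqrt (xx (m k) z))) (bulk N m) sph ∧
      ∫ z in bulk N m, 1 / (xx (m i) z * Real.sqrt (xx (m k) z)) ∂sph ≤
        C * (N : ℝ) ^ (1 / 8 : ℝ) := by
  obtain ⟨c, hc, hc2, hsep⟩ := IntG_sep m hne
  have hI := IntG_sumint m hm (show (7 / 8 : ℝ) < 1 by norm_num)
  refine ⟨(1 / c) * (K * (1 / (1 - 7 / 8))) + 1, by positivity, ?_⟩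
  intro N hN
  have hN1 : (1 : ℝ) ≤ N := by exact_mod_cast hN
  have hN0 : (0 : ℝ) < N := by linarith
  have hN8 : 1 ≤ (N : ℝ) ^ (1 / 8 : ℝ) := Real.one_le_rpow hN1 (by norm_num)
  have hbd : ∀ᵐ z ∂(sph.restrict (bulk N m)), 1 / (xx (m i) z * Real.sqrt (xx (m k) z)) ≤
      ((1 / c) * (N : ℝ) ^ (1 / 8 : ℝ)) * ∑ i, xx (m i) z ^ (-(7 / 8) : ℝ) := by
    rw [ae_restrict_iff' (measurableSet_bulk N m)]
    filter_upwards [IntG_ok_ae m hm hsep] with z hz hzb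
    have hxi := hz.1 i
    have hxk := hz.1 k
    have hs : ∀ j, xx (m j) z ^ (-(7 / 8) : ℝ) ≤ ∑ i, xx (m i) z ^ (-(7 / 8) : ℝ) := fun j =>
      Finset.single_le_sum (f := fun i => xx (m i) z ^ (-(7 / 8) : ℝ))
        (fun i _ => Real.rpow_nonneg (hz.1 i).1.le _) (Finset.mem_univ j)
    have hrw : 1 / (xx (m i) z * Real.sqrt (xx (m k) z)) =
        xx (m i) z ^ (-1 : ℝ) * xx (m k) z ^ (-(1 / 2) : ℝ) := by
      rw [Real.rpow_neg_one, Real.rpow_neg hxk.1.le, ← Real.sqrt_eq_rpow, one_div, mul_inv]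
    rw [hrw]
    have hinv : ∀ x : ℝ, c ≤ x → x ^ (-1 : ℝ) ≤ 1 / c := fun x hx => by
      rw [Real.rpow_neg_one, one_div]
      exact inv_anti₀ hc hx
    rcases hz.2 i k hik with h1 | h1
    · calc xx (m i) z ^ (-1 : ℝ) * xx (m k) z ^ (-(1 / 2) : ℝ)
          ≤ (1 / c) * xx (m k) z ^ (-(7 / 8) : ℝ) := by
            refine mul_le_mul (hinv _ h1) (Real.rpow_le_rpow_of_exponent_ge hxk.1 hxk.2 (by norm_num))
              (Real.rpow_nonneg hxk.1.le _) (by positivity)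
        _ ≤ (1 / c) * ((N : ℝ) ^ (1 / 8 : ℝ) * ∑ i, xx (m i) z ^ (-(7 / 8) : ℝ)) := by
            refine mul_le_mul_of_nonneg_left ?_ (by positivity)
            have h0 : 0 ≤ xx (m k) z ^ (-(7 / 8) : ℝ) := Real.rpow_nonneg hxk.1.le _
            calc xx (m k) z ^ (-(7 / 8) : ℝ) = 1 * xx (m k) z ^ (-(7 / 8) : ℝ) := (one_mul _).symm
              _ ≤ (N : ℝ) ^ (1 / 8 : ℝ) * ∑ i, xx (m i) z ^ (-(7 / 8) : ℝ) :=
                mul_le_mul hN8 (hs k) h0 (by positivity)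
        _ = _ := by ring
    · have h2 : xx (m i) z ^ (-1 : ℝ) ≤ (N : ℝ) ^ (1 / 8 : ℝ) * xx (m i) z ^ (-(7 / 8) : ℝ) := by
        have h3 : xx (m i) z ^ (-1 : ℝ) = xx (m i) z ^ (-(1 / 8) : ℝ) * xx (m i) z ^ (-(7 / 8) : ℝ) := by
          rw [← Real.rpow_add hxi.1]; norm_num
        rw [h3]
        refine mul_le_mul_of_nonneg_right ?_ (Real.rpow_nonneg hxi.1.le _)
        have h4 : (N : ℝ)⁻¹ ≤ xx (m i) z := by
          rw [inv_le_iff_one_le_mul₀ hN0]; linarith [hzb i]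
        calc xx (m i) z ^ (-(1 / 8) : ℝ) ≤ ((N : ℝ)⁻¹) ^ (-(1 / 8) : ℝ) :=
              Real.rpow_le_rpow_of_nonpos (by positivity) h4 (by norm_num)
          _ = (N : ℝ) ^ (1 / 8 : ℝ) := by
              rw [Real.inv_rpow hN0.le, ← Real.rpow_neg hN0.le]; norm_num
      have h5 : xx (m k) z ^ (-(1 / 2) : ℝ) ≤ 1 / c :=
        (Real.rpow_le_rpow_of_exponent_ge hxk.1 hxk.2 (by norm_num)).trans (hinv _ h1)
      have h6 : 0 ≤ xx (m i) z ^ (-(7 / 8) : ℝ) := Real.rpow_nonneg hxi.1.le _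
      calc xx (m i) z ^ (-1 : ℝ) * xx (m k) z ^ (-(1 / 2) : ℝ)
          ≤ ((N : ℝ) ^ (1 / 8 : ℝ) * xx (m i) z ^ (-(7 / 8) : ℝ)) * (1 / c) :=
            mul_le_mul h2 h5 (Real.rpow_nonneg hxk.1.le _) (by positivity)
        _ = ((1 / c) * (N : ℝ) ^ (1 / 8 : ℝ)) * xx (m i) z ^ (-(7 / 8) : ℝ) := by ring
        _ ≤ _ := mul_le_mul_of_nonneg_left (hs i) (by positivity)
  have hIr : IntegrableOn (fun z => ((1 / c) * (N : ℝ) ^ (1 / 8 : ℝ)) *
      ∑ i, xx (m i) z ^ (-(7 / 8) : ℝ)) (bulk N m) sph := (hI.1.const_mul _).integrableOn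
  have hnn : ∀ z, 0 ≤ 1 / (xx (m i) z * Real.sqrt (xx (m k) z)) := fun z =>
    div_nonneg zero_le_one (mul_nonneg (xx_nonneg _ _) (Real.sqrt_nonneg _))
  constructor
  · have hmeas : Measurable fun z => 1 / (xx (m i) z * Real.sqrt (xx (m k) z)) :=
      measurable_const.div ((measurable_xx (m i)).mul (measurable_xx (m k)).sqrt)
    refine Integrable.mono' hIr hmeas.aestronglyMeasurable ?_
    filter_upwards [hbd] with z hz
    rw [Real.norm_eq_abs, abs_of_nonneg (hnn z)]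
    exact hz
  · calc ∫ z in bulk N m, 1 / (xx (m i) z * Real.sqrt (xx (m k) z)) ∂sph
        ≤ ∫ z in bulk N m, ((1 / c) * (N : ℝ) ^ (1 / 8 : ℝ)) *
          ∑ i, xx (m i) z ^ (-(7 / 8) : ℝ) ∂sph :=
          integral_mono_of_nonneg (Filter.Eventually.of_forall hnn) hIr hbd
      _ ≤ ∫ z, ((1 / c) * (N : ℝ) ^ (1 / 8 : ℝ)) * ∑ i, xx (m i) z ^ (-(7 / 8) : ℝ) ∂sph := by
          refine setIntegral_le_integral (hI.1.const_mul _) (Filter.Eventually.of_forall fun z => ?_)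
          refine mul_nonneg (by positivity) (Finset.sum_nonneg fun i _ =>
            Real.rpow_nonneg (xx_nonneg _ _) _)
      _ = ((1 / c) * (K * (1 / (1 - 7 / 8)))) * (N : ℝ) ^ (1 / 8 : ℝ) := by
          rw [integral_const_mul, hI.2]; ring
      _ ≤ _ := mul_le_mul_of_nonneg_right (by linarith) (by positivity)

end MPF
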