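import Pool.Agent.MPF.ToepDiag

/-!
# MPF/OpInt: operators `opM N g = (N+1) ∫ g(z) ⊗ coh(z)^* d sph(z)`

PROOF. On the sphere `nr (coh N z) = 1` (`nr_coh`), so everything is integrable when `g` is.
`trace_opM`: `∑_a g_a conj(coh_a) = hp coh g`. `fro_opM_le_one`: `opM = (N+1) ∫ vecMulVec (g z) (conj coh z)`,
triangle inequality for the Euclidean norm of integrals (apply `nr_integral_le` to the function with
values in `(Fin (N+1) × Fin (N+1)) → ℂ`), and `nr (coh) = 1`.
`fro_opM_le_two` (Bessel): for fixed `a` put `f(z) = g(z)_a`, `e_b(z) = √(N+1) coh(z)_b`; by `toep_one`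
the functions `conj e_b`... are orthonormal in `L²(sph)`: `∫ e_b conj e_c = δ_bc`. Hence
`∑_b |∫ f conj e_b|² ≤ ∫ |f|²` (expand `0 ≤ ∫ |f - ∑_b (∫ f conj e_b) e_b|²`, everything is in `L²`),
and `fro² = (N+1) ∑_a ∑_b |∫ g_a conj e_b|²`. `fro_opM_le`: split `g = 1_E g + 1_{Eᶜ} g`.
-/

open MeasureTheory Matrix Finset Filter Topology
open scoped ENNReal ComplexConjugate

namespace MPF

variable {N : ℕ}

/-! ### Auxiliary lemmas -/

lemma opInt_norm_coh : ∀ᵐ z ∂sph, ∀ b, ‖coh N z b‖ ≤ 1 := by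
  filter_upwards [ae_nr_sph] with z hz b
  calc ‖coh N z b‖ ≤ nr (coh N z) := norm_apply_le_nr _ _
    _ = nr z ^ N := nr_coh N z
    _ ≤ 1 := by rw [hz, one_pow]

lemma opInt_nr_coh : ∀ᵐ z ∂sph, nr (coh N z) = 1 := by
  filter_upwards [ae_nr_sph] with z hz
  rw [nr_coh, hz, one_pow]

lemma opInt_cont_coh (b : Fin (N + 1)) : Continuous fun z => coh N z b :=
  (continuous_apply b).comp (continuous_coh N)

lemma opInt_mul_coh {f : (Fin 2 → ℂ) → ℂ} (hf : Integrable f sph) (b : Fin (N + 1)) :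
    Integrable (fun z => f z * conj (coh N z b)) sph := by
  refine hf.mul_bdd (c := 1) ?_ ?_
  · exact (Complex.continuous_conj.comp (opInt_cont_coh b)).aestronglyMeasurable
  · filter_upwards [opInt_norm_coh (N := N)] with z hz
    rw [RCLike.norm_conj]
    exact hz b

lemma opInt_entry {g : (Fin 2 → ℂ) → Fin (N + 1) → ℂ} (hg : Integrable g sph)
    (a b : Fin (N + 1)) : Integrable (fun z => g z a * conj (coh N z b)) sph :=
  opInt_mul_coh (hg.eval a) b

lemma opInt_coh_int (a : Fin (N + 1)) : Integrable (fun z => coh N z a) sph := by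
  refine Integrable.of_bound (opInt_cont_coh a).aestronglyMeasurable 1 ?_
  filter_upwards [opInt_norm_coh (N := N)] with z hz
  exact hz a

lemma opInt_orth (a b : Fin (N + 1)) :
    ((N : ℂ) + 1) * ∫ z, coh N z a * conj (coh N z b) ∂sph = if a = b then 1 else 0 := by
  have h := congrFun (congrFun (toep_one N) a) b
  rw [Matrix.one_apply] at h
  rw [← h]
  simp [toep, opM]

lemma opInt_comb {f : (Fin 2 → ℂ) → ℂ} (hf : Integrable f sph) (w : Fin (N + 1) → ℂ) :
    Integrable (fun z => f z * conj (((N : ℂ) + 1) * ∑ b, w b * coh N z b)) sph ∧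
    ∫ z, f z * conj (((N : ℂ) + 1) * ∑ b, w b * coh N z b) ∂sph =
      ((N : ℂ) + 1) * ∑ b, conj (w b) * ∫ z, f z * conj (coh N z b) ∂sph := by
  have e : (fun z => f z * conj (((N : ℂ) + 1) * ∑ b, w b * coh N z b)) =
      fun z => ((N : ℂ) + 1) * ∑ b, conj (w b) * (f z * conj (coh N z b)) := by
    funext z
    rw [map_mul, map_sum, map_add, map_one, Complex.conj_natCast, mul_left_comm, Finset.mul_sum]
    congr 1
    refine Finset.sum_congr rfl fun b _ => ?_
    rw [map_mul]
    ring
  have hi : ∀ b ∈ (Finset.univ : Finset (Fin (N + 1))),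
      Integrable (fun z => conj (w b) * (f z * conj (coh N z b))) sph :=
    fun b _ => (opInt_mul_coh hf b).const_mul _
  rw [e]
  refine ⟨(integrable_finsetSum _ hi).const_mul _, ?_⟩
  rw [integral_const_mul, integral_finsetSum _ hi]
  congr 1
  refine Finset.sum_congr rfl fun b _ => ?_
  rw [integral_const_mul]

lemma opInt_bessel {f : (Fin 2 → ℂ) → ℂ} (hf : Integrable f sph)
    (hf2 : Integrable (fun z => ‖f z‖ ^ 2) sph) :
    ((N : ℝ) + 1) * ∑ b : Fin (N + 1), ‖∫ z, f z * conj (coh N z b) ∂sph‖ ^ 2 ≤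
      ∫ z, ‖f z‖ ^ 2 ∂sph := by
  set u : Fin (N + 1) → ℂ := fun b => ∫ z, f z * conj (coh N z b) ∂sph with hu
  set P : (Fin 2 → ℂ) → ℂ := fun z => ((N : ℂ) + 1) * ∑ b, u b * coh N z b with hP
  have hPi : Integrable P sph :=
    (integrable_finsetSum _ fun b _ => (opInt_coh_int b).const_mul (u b)).const_mul _
  obtain ⟨i1, e1⟩ := opInt_comb hf u
  obtain ⟨i2, e2⟩ := opInt_comb hPi u
  have hPu : ∀ b, ∫ z, P z * conj (coh N z b) ∂sph = u b := by
    intro b
    have e3 : (fun z => P z * conj (coh N z b)) =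
        fun z => ((N : ℂ) + 1) * ∑ c, u c * (coh N z c * conj (coh N z b)) := by
      funext z
      rw [hP]
      simp only
      rw [mul_assoc, Finset.sum_mul]
      congr 1
      refine Finset.sum_congr rfl fun c _ => ?_
      ring
    rw [e3, integral_const_mul, integral_finsetSum _
      fun c _ => (opInt_mul_coh (opInt_coh_int c) b).const_mul (u c)]
    simp only [integral_const_mul]
    rw [Finset.mul_sum]
    have : ∀ c, ((N : ℂ) + 1) * (u c * ∫ z, coh N z c * conj (coh N z b) ∂sph) =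
        u c * if c = b then 1 else 0 := by
      intro c
      rw [← opInt_orth c b]
      ring
    simp only [this]
    simp
  have hS : ((N : ℂ) + 1) * ∑ b, conj (u b) * u b =
      ((((N : ℝ) + 1) * ∑ b, ‖u b‖ ^ 2 : ℝ) : ℂ) := by
    push_cast
    congr 1
    refine Finset.sum_congr rfl fun b _ => ?_
    rw [← Complex.normSq_eq_conj_mul_self, Complex.normSq_eq_norm_sq]
    push_cast
    rfl
  have E1 : ∫ z, f z * conj (P z) ∂sph = ((((N : ℝ) + 1) * ∑ b, ‖u b‖ ^ 2 : ℝ) : ℂ) := by
    rw [← hS]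
    exact e1
  have E2 : ∫ z, P z * conj (P z) ∂sph = ((((N : ℝ) + 1) * ∑ b, ‖u b‖ ^ 2 : ℝ) : ℂ) := by
    rw [← hS]
    refine e2.trans ?_
    congr 1
    refine Finset.sum_congr rfl fun b _ => ?_
    rw [hPu b]
  have hpt : ∀ z, ‖f z - P z‖ ^ 2 =
      ‖f z‖ ^ 2 - 2 * (f z * conj (P z)).re + (P z * conj (P z)).re := by
    intro z
    have h1 : ∀ w : ℂ, ‖w‖ ^ 2 = (w * conj w).re := by
      intro w
      rw [Complex.mul_conj, Complex.ofReal_re, Complex.normSq_eq_norm_sq]
    rw [h1 (f z - P z), h1 (f z), map_sub]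
    simp only [Complex.mul_re, Complex.sub_re, Complex.sub_im, Complex.conj_re, Complex.conj_im]
    ring
  have h0 : 0 ≤ ∫ z, ‖f z - P z‖ ^ 2 ∂sph := integral_nonneg fun z => by positivity
  simp only [hpt] at h0
  have j1 : Integrable (fun z => 2 * (f z * conj (P z)).re) sph := (i1.re).const_mul 2
  have j2 : Integrable (fun z => (P z * conj (P z)).re) sph := i2.re
  have j3 : Integrable (fun z => ‖f z‖ ^ 2 - 2 * (f z * conj (P z)).re) sph := hf2.sub j1
  rw [integral_add j3 j2, integral_sub hf2 j1, integral_const_mul] at h0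
  have r1 : ∫ z, (f z * conj (P z)).re ∂sph = ((N : ℝ) + 1) * ∑ b, ‖u b‖ ^ 2 := by
    have := integral_re i1
    simp only [RCLike.re_eq_complex_re] at this
    refine this.trans ?_
    rw [show (∫ z, f z * conj (((N : ℂ) + 1) * ∑ b, u b * coh N z b) ∂sph) = _ from E1]
    exact Complex.ofReal_re _
  have r2 : ∫ z, (P z * conj (P z)).re ∂sph = ((N : ℝ) + 1) * ∑ b, ‖u b‖ ^ 2 := by
    have := integral_re i2
    simp only [RCLike.re_eq_complex_re] at this
    refine this.trans ?_
    rw [show (∫ z, P z * conj (((N : ℂ) + 1) * ∑ b, u b * coh N z b) ∂sph) = _ from E2]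
    exact Complex.ofReal_re _
  rw [r1, r2] at h0
  linarith

/-! ### The statements -/

theorem opM_congr_ae {g h : (Fin 2 → ℂ) → Fin (N + 1) → ℂ} (hgh : g =ᵐ[sph] h) :
    opM N g = opM N h := by
  ext a b
  simp only [opM, Matrix.of_apply]
  congr 1
  refine integral_congr_ae ?_
  filter_upwards [hgh] with z hz
  rw [hz]

theorem opM_zero : opM N (fun _ => 0) = 0 := by
  ext a b
  simp [opM]

theorem opM_add {g h : (Fin 2 → ℂ) → Fin (N + 1) → ℂ} (hg : Integrable g sph)
    (hh : Integrable h sph) : opM N (fun z => g z + h z) = opM N g + opM N h := by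
  ext a b
  simp only [opM, Matrix.of_apply, Matrix.add_apply, Pi.add_apply, add_mul]
  rw [integral_add (opInt_entry hg a b) (opInt_entry hh a b)]
  ring

theorem opM_sub {g h : (Fin 2 → ℂ) → Fin (N + 1) → ℂ} (hg : Integrable g sph)
    (hh : Integrable h sph) : opM N (fun z => g z - h z) = opM N g - opM N h := by
  ext a b
  simp only [opM, Matrix.of_apply, Matrix.sub_apply, Pi.sub_apply, sub_mul]
  rw [integral_sub (opInt_entry hg a b) (opInt_entry hh a b)]
  ring

theorem opM_list_sum {α : Type*} (L : List α) (g : α → (Fin 2 → ℂ) → Fin (N + 1) → ℂ)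
    (hg : ∀ a ∈ L, Integrable (g a) sph) :
    opM N (fun z => (L.map fun a => g a z).sum) = (L.map fun a => opM N (g a)).sum := by
  have key : Integrable (fun z => (L.map fun a => g a z).sum) sph ∧
      opM N (fun z => (L.map fun a => g a z).sum) = (L.map fun a => opM N (g a)).sum := by
    induction L with
    | nil =>
      refine ⟨by simp, ?_⟩
      simp only [List.map_nil, List.sum_nil]
      exact opM_zero
    | cons x L ih =>
      obtain ⟨h1, h2⟩ := ih fun a ha => hg a (List.mem_cons_of_mem _ ha)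
      have hx := hg x List.mem_cons_self
      simp only [List.map_cons, List.sum_cons]
      exact ⟨hx.add h1, by rw [opM_add hx h1, h2]⟩
  exact key.2

theorem mul_opM (A : Matrix (Fin (N + 1)) (Fin (N + 1)) ℂ) {g : (Fin 2 → ℂ) → Fin (N + 1) → ℂ}
    (hg : Integrable g sph) : A * opM N g = opM N (fun z => A *ᵥ g z) := by
  ext a b
  simp only [opM, Matrix.of_apply, Matrix.mul_apply]
  have e : (fun z => (A *ᵥ g z) a * conj (coh N z b)) =
      fun z => ∑ c, A a c * (g z c * conj (coh N z b)) := by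
    funext z
    simp only [Matrix.mulVec, dotProduct, Finset.sum_mul]
    refine Finset.sum_congr rfl fun c _ => ?_
    ring
  rw [e, integral_finsetSum _ fun c _ => (opInt_entry hg c b).const_mul (A a c), Finset.mul_sum]
  refine Finset.sum_congr rfl fun c _ => ?_
  rw [integral_const_mul]
  ring

theorem trace_opM {g : (Fin 2 → ℂ) → Fin (N + 1) → ℂ} (hg : Integrable g sph) :
    (opM N g).trace = ((N : ℂ) + 1) * ∫ z, hp (coh N z) (g z) ∂sph := by
  simp only [Matrix.trace, Matrix.diag_apply, opM, Matrix.of_apply, hp]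
  rw [← Finset.mul_sum]
  congr 1
  have e : (fun z => ∑ i, conj (coh N z i) * g z i) =
      fun z => ∑ i, g z i * conj (coh N z i) := by
    funext z
    exact Finset.sum_congr rfl fun i _ => mul_comm _ _
  rw [e, integral_finsetSum _ fun c _ => opInt_entry hg c c]

theorem fro_opM_le_one {g : (Fin 2 → ℂ) → Fin (N + 1) → ℂ} (hg : Integrable g sph) :
    fro (opM N g) ≤ ((N : ℝ) + 1) * ∫ z, nr (g z) ∂sph := by
  set F : (Fin 2 → ℂ) → (Fin (N + 1) × Fin (N + 1)) → ℂ :=
    fun z p => g z p.1 * conj (coh N z p.2) with hF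
  have hFi : Integrable F sph := by
    exact Integrable.of_eval fun p => opInt_entry hg p.1 p.2
  have hnF : ∀ z, nr (F z) = nr (g z) * nr (coh N z) := by
    intro z
    have h1 : Sph.nsq (F z) = Sph.nsq (g z) * Sph.nsq (coh N z) := by
      simp only [Sph.nsq, hF]
      rw [Fintype.sum_prod_type, Finset.sum_mul_sum]
      refine Finset.sum_congr rfl fun i _ => Finset.sum_congr rfl fun j _ => ?_
      rw [norm_mul, RCLike.norm_conj]
      ring
    unfold nr
    rw [h1, Real.sqrt_mul (Sph.nsq_nonneg _)]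
  have h2 : fro (opM N g) = ((N : ℝ) + 1) * nr (∫ z, F z ∂sph) := by
    have h3 : ∀ p : Fin (N + 1) × Fin (N + 1), opM N g p.1 p.2 =
        ((((N : ℂ) + 1)) • ∫ z, F z ∂sph) p := by
      intro p
      rw [Pi.smul_apply, smul_eq_mul, eval_integral fun q => hFi.eval q]
      rfl
    have h4 : fro (opM N g) = nr ((((N : ℂ) + 1)) • ∫ z, F z ∂sph) := by
      unfold fro nr
      congr 1
      rw [Sph.nsq, Fintype.sum_prod_type]
      refine Finset.sum_congr rfl fun i _ => Finset.sum_congr rfl fun j _ => ?_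
      rw [h3 (i, j)]
    rw [h4, nr_smul]
    congr 1
    rw [show ((N : ℂ) + 1) = (((N + 1 : ℕ) : ℕ) : ℂ) by push_cast; rfl, Complex.norm_natCast]
    push_cast
    rfl
  rw [h2]
  refine mul_le_mul_of_nonneg_left ?_ (by positivity)
  refine (nr_integral_le hFi).trans (le_of_eq ?_)
  refine integral_congr_ae ?_
  filter_upwards [opInt_nr_coh (N := N)] with z hz
  rw [hnF, hz, mul_one]

theorem fro_opM_le_two {g : (Fin 2 → ℂ) → Fin (N + 1) → ℂ} (hg : Integrable g sph)
    (hg2 : Integrable (fun z => nr (g z) ^ 2) sph) :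
    fro (opM N g) ≤ Real.sqrt (((N : ℝ) + 1) * ∫ z, nr (g z) ^ 2 ∂sph) := by
  have hc : ∀ a, Integrable (fun z => ‖g z a‖ ^ 2) sph := by
    intro a
    refine hg2.mono' ((hg.eval a).aestronglyMeasurable.norm.pow 2) ?_
    refine Filter.Eventually.of_forall fun z => ?_
    rw [Real.norm_of_nonneg (by positivity)]
    exact pow_le_pow_left₀ (norm_nonneg _) (norm_apply_le_nr _ _) 2
  unfold fro
  refine Real.sqrt_le_sqrt ?_
  have h1 : ∀ a : Fin (N + 1), ∑ b, ‖opM N g a b‖ ^ 2 ≤ ((N : ℝ) + 1) * ∫ z, ‖g z a‖ ^ 2 ∂sph := by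
    intro a
    have h2 : ∀ b : Fin (N + 1), ‖opM N g a b‖ ^ 2 =
        ((N : ℝ) + 1) * (((N : ℝ) + 1) * ‖∫ z, g z a * conj (coh N z b) ∂sph‖ ^ 2) := by
      intro b
      simp only [opM, Matrix.of_apply]
      rw [norm_mul, show ((N : ℂ) + 1) = (((N + 1 : ℕ) : ℕ) : ℂ) by push_cast; rfl,
        Complex.norm_natCast]
      push_cast
      ring
    simp only [h2]
    rw [← Finset.mul_sum, ← Finset.mul_sum]
    refine mul_le_mul_of_nonneg_left ?_ (by positivity)
    exact opInt_bessel (hg.eval a) (hc a)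
  refine (Finset.sum_le_sum fun a _ => h1 a).trans (le_of_eq ?_)
  rw [← Finset.mul_sum, ← integral_finsetSum _ fun a _ => hc a]
  congr 1
  refine integral_congr_ae (Filter.Eventually.of_forall fun z => ?_)
  simp only
  rw [nr_sq, Sph.nsq]

theorem fro_opM_le {g : (Fin 2 → ℂ) → Fin (N + 1) → ℂ} (hg : Integrable g sph)
    {E : Set (Fin 2 → ℂ)} (hE : MeasurableSet E)
    (hg2 : IntegrableOn (fun z => nr (g z) ^ 2) E sph) :
    fro (opM N g) ≤ Real.sqrt (((N : ℝ) + 1) * ∫ z in E, nr (g z) ^ 2 ∂sph) +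
      ((N : ℝ) + 1) * ∫ z in Eᶜ, nr (g z) ∂sph := by
  classical
  have i1 : Integrable (E.indicator g) sph := hg.indicator hE
  have i2 : Integrable (Eᶜ.indicator g) sph := hg.indicator hE.compl
  have e0 : g = fun z => E.indicator g z + Eᶜ.indicator g z := by
    funext z
    exact (congrFun (Set.indicator_self_add_compl E g) z).symm
  have n1 : (fun z => nr (E.indicator g z) ^ 2) = E.indicator fun z => nr (g z) ^ 2 := by
    funext z
    by_cases hz : z ∈ E
    · rw [Set.indicator_of_mem hz, Set.indicator_of_mem hz]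
    · rw [Set.indicator_of_notMem hz, Set.indicator_of_notMem hz, nr_zero]
      norm_num
  have n2 : (fun z => nr (Eᶜ.indicator g z)) = Eᶜ.indicator fun z => nr (g z) := by
    funext z
    by_cases hz : z ∈ Eᶜ
    · rw [Set.indicator_of_mem hz, Set.indicator_of_mem hz]
    · rw [Set.indicator_of_notMem hz, Set.indicator_of_notMem hz, nr_zero]
  have hsq : Integrable (fun z => nr (E.indicator g z) ^ 2) sph := by
    rw [n1]
    exact (integrable_indicator_iff hE).2 hg2
  have a1 := fro_opM_le_two i1 hsq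
  have a2 := fro_opM_le_one i2
  rw [n1, integral_indicator hE] at a1
  rw [n2, integral_indicator hE.compl] at a2
  have e1 : opM N g = opM N (E.indicator g) + opM N (Eᶜ.indicator g) := by
    conv_lhs => rw [e0]
    exact opM_add i1 i2
  rw [e1]
  exact (fro_add_le _ _).trans (add_le_add a1 a2)

end MPF
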