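import Pool.Agent.MPF.PairTr
import Pool.Agent.MPF.OpInt

/-!
# MPF/Kest: `R = D_0^{-1} ⋯ D_{K-1}^{-1} T_F = 1 + (small in Hilbert-Schmidt norm, known trace)`

PROOF. `mul_opM`: `R_N = opM (∏_i P_i(z) coh z)`, `P_i(z) = x_i^{s_i} D_i^{-1} = 1 + Q_i(z)` (`fN_sub`, `fN_one`, `fN_smul`);
`∏_{i} (1 + Q_i) = ∑_{l sublist of finRange K} ∏_{i∈l} Q_i` (induction over the list, `List.sublists'`), so
`R_N = ∑_{l ∈ sublists'} opM ((l.map Q).prod coh)`. `l = []`: `opM coh = toep 1 = 1` (`toep_one`). `l = [i]`: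
`opM (Q_i coh) = D_i^{-1} toep(x_i^{s_i}) - 1 = 0` (`toep_xx`, `fN_mul`, `lam_ne_zero`). All the functions are integrable: measurable and
dominated by `C N Gf`-products (`Q_bound`, `int_Gf_integrable`).
So `R_N - 1 = ∑_{|l| ≥ 2} opM ((l.map Q).prod coh)`. For such `l`, `fro_opM_le` with `E = bulk`, `Q_bound` (`ε = 1/16`), `int_bulk_sq`,
`int_off`: `fro ≤ √(2N · C N^{1/8} N^{-7/4}) + 2N C N^{1/16} N^{-3/2} → 0`.
Trace: `|l| = 2`: `pair_trace`. `|l| ≥ 3`, `l = b :: l'`: `|hp coh (Q_b v)| = |hp (Q_bᴴ coh) v| ≤ nr (Q_bᴴ coh) nr v`, `v = (l'.map Q).prod coh`: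
`≤ C N^{2ε} ∏_{i∈l} Gf`, `int_three`: `O(N · N^{2ε} N^{-3/2}) → 0`. The sublists of length 2 of `finRange K` are the `[i,k]`, `i < k`.
-/

open MeasureTheory Matrix Finset Filter Topology
open scoped ENNReal ComplexConjugate

namespace MPF

variable {K : ℕ}

/-- The operator `R_N`. -/
noncomputable def RR (N : ℕ) (m : Fin K → Fin 2 → ℂ) (s : Fin K → ℂ) :
    Matrix (Fin (N + 1)) (Fin (N + 1)) ℂ :=
  ((List.finRange K).map fun i => fN N (m i) fun j => (lam N (s i) j)⁻¹).prod *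
    toep N (FF m s)

/-! ### lists -/

private theorem Kest_prod_one_add {R α : Type*} [Semiring R] (Q : α → R) (t : List α) :
    (t.map fun i => 1 + Q i).prod = (t.sublists'.map fun l => (l.map Q).prod).sum := by
  induction t with
  | nil => simp
  | cons a t ih =>
    rw [List.map_cons, List.prod_cons, ih, List.sublists'_cons, List.map_append, List.sum_append,
      List.map_map, add_mul, one_mul]
    congr 1
    have h : ((fun l => (l.map Q).prod) ∘ List.cons a) = fun l => Q a * (l.map Q).prod := by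
      funext l
      simp
    rw [h, List.sum_map_mul_left]

private theorem Kest_sum_nil {M α : Type*} [AddCommMonoid M] (f : List α → M)
    (hf : ∀ l, l ≠ [] → f l = 0) (t : List α) : (t.sublists'.map f).sum = f [] := by
  induction t with
  | nil => simp
  | cons a t ih =>
    rw [List.sublists'_cons, List.map_append, List.sum_append, ih, List.map_map]
    have h : (f ∘ List.cons a) = fun _ => 0 := by
      funext l
      exact hf _ (by simp)
    rw [h, List.sum_map_zero, add_zero]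

private theorem Kest_smul_prod {N : ℕ} {α : Type*} (c : α → ℂ)
    (D : α → Matrix (Fin (N + 1)) (Fin (N + 1)) ℂ) (t : List α) :
    (t.map fun i => c i • D i).prod = (t.map c).prod • (t.map D).prod := by
  induction t with
  | nil => simp
  | cons a t ih =>
    rw [List.map_cons, List.prod_cons, ih, List.map_cons, List.prod_cons, List.map_cons,
      List.prod_cons, smul_mul_smul_comm]

private theorem Kest_sum_mulVec {N : ℕ} {α : Type*}
    (D : α → Matrix (Fin (N + 1)) (Fin (N + 1)) ℂ) (t : List α) (v : Fin (N + 1) → ℂ) :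
    (t.map D).sum *ᵥ v = (t.map fun i => D i *ᵥ v).sum := by
  induction t with
  | nil => simp
  | cons a t ih => rw [List.map_cons, List.sum_cons, Matrix.add_mulVec, ih, List.map_cons, List.sum_cons]

private theorem Kest_sum_sub {M α : Type*} [AddCommGroup M] (f g : α → M) (t : List α) :
    (t.map f).sum - (t.map g).sum = (t.map fun i => f i - g i).sum := by
  induction t with
  | nil => simp
  | cons a t ih =>
    rw [List.map_cons, List.sum_cons, List.map_cons, List.sum_cons, List.map_cons, List.sum_cons, ← ih]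
    abel

/-! ### the operators -/

/-- `D_i^{-1}` -/
private noncomputable def Kest_D (N : ℕ) (m : Fin K → Fin 2 → ℂ) (s : Fin K → ℂ) (i : Fin K) :
    Matrix (Fin (N + 1)) (Fin (N + 1)) ℂ := fN N (m i) fun j => (lam N (s i) j)⁻¹

private theorem Kest_Qop {m : Fin K → Fin 2 → ℂ} (hm : ∀ i, nr (m i) = 1) (s : Fin K → ℂ) (N : ℕ)
    (z : Fin 2 → ℂ) (i : Fin K) :
    Qop N m s z i = (xx (m i) z : ℂ) ^ s i • Kest_D N m s i - 1 := by
  unfold Qop Kest_D
  rw [fN_sub (N := N) (m := m i) (pp N (s i) (xx (m i) z)) (fun _ => 1), fN_one (hm i), ← fN_smul]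
  rfl

/-- the integrand -/
private noncomputable def Kest_G (N : ℕ) (m : Fin K → Fin 2 → ℂ) (s : Fin K → ℂ) (l : List (Fin K))
    (z : Fin 2 → ℂ) : Fin (N + 1) → ℂ := (l.map (Qop N m s z)).prod *ᵥ coh N z

private theorem Kest_expand {m : Fin K → Fin 2 → ℂ} (hm : ∀ i, nr (m i) = 1) (s : Fin K → ℂ) (N : ℕ)
    (z : Fin 2 → ℂ) :
    ((List.finRange K).map (Kest_D N m s)).prod *ᵥ (FF m s z • coh N z) =
      ((List.finRange K).sublists'.map fun l => Kest_G N m s l z).sum := by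
  rw [Matrix.mulVec_smul, ← Matrix.smul_mulVec]
  have h1 : FF m s z = ((List.finRange K).map fun i => (xx (m i) z : ℂ) ^ s i).prod := by
    unfold FF
    rw [Fin.prod_univ_def]
  rw [h1, ← Kest_smul_prod]
  have h2 : (fun i => (xx (m i) z : ℂ) ^ s i • Kest_D N m s i) = fun i => 1 + Qop N m s z i := by
    funext i
    rw [Kest_Qop hm]
    abel
  rw [h2, Kest_prod_one_add, Kest_sum_mulVec]
  rfl

private theorem Kest_meas (m : Fin K → Fin 2 → ℂ) (s : Fin K → ℂ) (N : ℕ) (l : List (Fin K)) :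
    Measurable (Kest_G N m s l) := by
  induction l with
  | nil =>
    unfold Kest_G
    simp only [List.map_nil, List.prod_nil, Matrix.one_mulVec]
    exact (continuous_coh N).measurable
  | cons a l ih =>
    have h1 : Kest_G N m s (a :: l) = fun z => fN N (m a)
        (fun j => pp N (s a) (xx (m a) z) j - 1) *ᵥ Kest_G N m s l z := by
      funext z
      unfold Kest_G Qop
      rw [List.map_cons, List.prod_cons, Matrix.mulVec_mulVec]
    rw [h1]
    refine measurable_fN_mulVec (fun j => ?_) ih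
    unfold pp
    have h2 : Measurable fun z : Fin 2 → ℂ => ((xx (m a) z : ℝ) : ℂ) :=
      Complex.measurable_ofReal.comp (measurable_xx (m a))
    exact ((h2.pow_const (s a)).mul_const _).sub_const _

private theorem Kest_ae {m : Fin K → Fin 2 → ℂ} (hm : ∀ i, nr (m i) = 1) :
    ∀ᵐ z ∂sph, nr z = 1 ∧ ∀ i, 0 < xx (m i) z := by
  filter_upwards [ae_nr_sph, ae_all_iff.2 fun i => ae_xx_pos (hm i)] with z h1 h2
  exact ⟨h1, h2⟩

private theorem Kest_aa {s : ℂ} (hs : -1 < s.re) : 0 ≤ aa s ∧ aa s < 1 := by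
  unfold aa
  exact ⟨le_max_right _ _, max_lt (by linarith) (by norm_num)⟩

/-- product of the majorants -/
private noncomputable def Kest_P (N : ℕ) (m : Fin K → Fin 2 → ℂ) (s : Fin K → ℂ) (l : List (Fin K))
    (z : Fin 2 → ℂ) : ℝ := (l.map fun i => Gf (aa (s i)) (N * xx (m i) z)).prod

private theorem Kest_P_nonneg (N : ℕ) (m : Fin K → Fin 2 → ℂ) (s : Fin K → ℂ) (l : List (Fin K))
    (z : Fin 2 → ℂ) : 0 ≤ Kest_P N m s l z := by
  unfold Kest_P
  refine List.prod_nonneg fun x hx => ?_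
  rw [List.mem_map] at hx
  obtain ⟨i, _, rfl⟩ := hx
  exact Gf_nonneg (mul_nonneg (Nat.cast_nonneg N) (xx_nonneg _ _))

private theorem Kest_P_int {m : Fin K → Fin 2 → ℂ} (hm : ∀ i, nr (m i) = 1)
    (hne : ∀ i k, i ≠ k → ‖hp (m i) (m k)‖ < 1) {s : Fin K → ℂ} (hs : ∀ i, -1 < (s i).re)
    {l : List (Fin K)} (hl : l.Nodup) {N : ℕ} (hN : 1 ≤ N) : Integrable (Kest_P N m s l) sph :=
  int_Gf_integrable m hm hne (fun i => aa (s i)) (fun i => (Kest_aa (hs i)).1)
    (fun i => (Kest_aa (hs i)).2) l hl hN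

private theorem Kest_bound (m : Fin K → Fin 2 → ℂ) (hm : ∀ i, nr (m i) = 1) (s : Fin K → ℂ)
    (hs : ∀ i, -1 < (s i).re) (l : List (Fin K)) : ∃ C : ℝ, 0 < C ∧ ∀ N : ℕ, 1 ≤ N →
      ∀ᵐ z ∂sph, nr (Kest_G N m s l z) ≤ C * (N : ℝ) ^ (1 / 16 : ℝ) * Kest_P N m s l z := by
  obtain ⟨C, hC, h⟩ := Q_bound m hm s hs l (ε := 1 / 16) (by norm_num)
  refine ⟨C, hC, fun N hN => ?_⟩
  filter_upwards [Kest_ae hm] with z hz
  exact h N hN z hz.1 hz.2

private theorem Kest_int {m : Fin K → Fin 2 → ℂ} (hm : ∀ i, nr (m i) = 1)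
    (hne : ∀ i k, i ≠ k → ‖hp (m i) (m k)‖ < 1) {s : Fin K → ℂ} (hs : ∀ i, -1 < (s i).re)
    {l : List (Fin K)} (hl : l.Nodup) {N : ℕ} (hN : 1 ≤ N) : Integrable (Kest_G N m s l) sph := by
  obtain ⟨C, hC, h⟩ := Kest_bound m hm s hs l
  refine Integrable.mono' ((Kest_P_int hm hne hs hl hN).const_mul (C * (N : ℝ) ^ (1 / 16 : ℝ)))
    (Kest_meas m s N l).aestronglyMeasurable ?_
  filter_upwards [h N hN] with z hz
  exact le_trans (norm_le_nr _) hz

private theorem Kest_smul_coh {F : (Fin 2 → ℂ) → ℂ} (hF : Integrable F sph) (N : ℕ) :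
    Integrable (fun z => F z • coh N z) sph := by
  refine Integrable.mono' hF.norm
    (hF.aestronglyMeasurable.smul (continuous_coh N).aestronglyMeasurable) ?_
  filter_upwards [ae_nr_sph] with z hz
  rw [norm_smul]
  have h1 : ‖coh N z‖ ≤ 1 := by
    refine le_trans (norm_le_nr _) ?_
    rw [nr_coh, hz, one_pow]
  exact mul_le_of_le_one_right (norm_nonneg _) h1

theorem FF_integrable (m : Fin K → Fin 2 → ℂ) (hm : ∀ i, nr (m i) = 1)
    (hne : ∀ i k, i ≠ k → ‖hp (m i) (m k)‖ < 1) (s : Fin K → ℂ) (hs : ∀ i, -1 < (s i).re) :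
    Integrable (FF m s) sph := by
  have h1 := (Kest_P_int hm hne hs (List.nodup_finRange K) (le_refl 1)).const_mul
    ((2 : ℝ) ^ (K : ℝ))
  have hmeas : Measurable (FF m s) := by
    unfold FF
    refine Finset.measurable_prod _ fun i _ => ?_
    exact (Complex.measurable_ofReal.comp (measurable_xx (m i))).pow_const (s i)
  refine Integrable.mono' h1 hmeas.aestronglyMeasurable ?_
  filter_upwards [Kest_ae hm] with z hz
  unfold FF Kest_P
  rw [norm_prod, ← Fin.prod_univ_def]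
  have h2 : (2 : ℝ) ^ (K : ℝ) = ∏ _i : Fin K, (2 : ℝ) := by
    rw [Finset.prod_const, Finset.card_univ, Fintype.card_fin, Real.rpow_natCast]
  rw [h2, ← Finset.prod_mul_distrib]
  refine Finset.prod_le_prod (fun i _ => norm_nonneg _) fun i _ => ?_
  have hx := hz.2 i
  have hx1 := xx_le_one (hm i) hz.1
  rw [Complex.norm_cpow_eq_rpow_re_of_pos hx, Nat.cast_one, one_mul]
  unfold Gf
  have h3 : xx (m i) z ^ (s i).re ≤ 1 + xx (m i) z ^ (-aa (s i)) := by
    have h4 : 0 ≤ xx (m i) z ^ (-aa (s i)) := (Real.rpow_pos_of_pos hx _).le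
    unfold aa at h4 ⊢
    rcases le_or_gt 0 (s i).re with h5 | h5
    · have := Real.rpow_le_one hx.le hx1 h5
      linarith
    · rw [max_eq_left (by linarith), neg_neg] at h4 ⊢
      linarith
  have h5 : (1 : ℝ) ≤ 2 * (1 + xx (m i) z) ^ (-(1 / 2) : ℝ) := by
    have h6 : (2 : ℝ) ^ (-(1 / 2) : ℝ) ≤ (1 + xx (m i) z) ^ (-(1 / 2) : ℝ) :=
      Real.rpow_le_rpow_of_nonpos (by linarith) (by linarith) (by norm_num)
    have h7 : (2 : ℝ) ^ (-1 : ℝ) ≤ (2 : ℝ) ^ (-(1 / 2) : ℝ) :=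
      Real.rpow_le_rpow_of_exponent_le (by norm_num) (by norm_num)
    rw [Real.rpow_neg_one] at h7
    linarith
  have h8 : 0 ≤ 1 + xx (m i) z ^ (-aa (s i)) := by
    have : 0 ≤ xx (m i) z ^ (-aa (s i)) := (Real.rpow_pos_of_pos hx _).le
    linarith
  calc xx (m i) z ^ (s i).re ≤ (1 + xx (m i) z ^ (-aa (s i))) * 1 := by linarith
    _ ≤ (1 + xx (m i) z ^ (-aa (s i))) * (2 * (1 + xx (m i) z) ^ (-(1 / 2) : ℝ)) :=
        mul_le_mul_of_nonneg_left h5 h8
    _ = _ := by ring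


/-- the terms -/
private noncomputable def Kest_T (N : ℕ) (m : Fin K → Fin 2 → ℂ) (s : Fin K → ℂ) (l : List (Fin K)) :
    Matrix (Fin (N + 1)) (Fin (N + 1)) ℂ := opM N (Kest_G N m s l)

private theorem Kest_T_nil (m : Fin K → Fin 2 → ℂ) (s : Fin K → ℂ) (N : ℕ) :
    Kest_T N m s [] = 1 := by
  rw [← toep_one N]
  unfold Kest_T toep
  congr 1
  funext z
  unfold Kest_G
  rw [List.map_nil, List.prod_nil, Matrix.one_mulVec, one_smul]

private theorem Kest_T_one {m : Fin K → Fin 2 → ℂ} (hm : ∀ i, nr (m i) = 1) {s : Fin K → ℂ}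
    (hs : ∀ i, -1 < (s i).re) (N : ℕ) (i : Fin K) : Kest_T N m s [i] = 0 := by
  have h1 : Kest_G N m s [i] = fun z =>
      Kest_D N m s i *ᵥ ((xx (m i) z : ℂ) ^ s i • coh N z) - (1 : ℂ) • coh N z := by
    funext z
    unfold Kest_G
    rw [List.map_cons, List.map_nil, List.prod_cons, List.prod_nil, mul_one, Kest_Qop hm,
      Matrix.sub_mulVec, Matrix.one_mulVec, one_smul, Matrix.mulVec_smul, Matrix.smul_mulVec]
  have h2 : Integrable (fun z => (xx (m i) z : ℂ) ^ s i • coh N z) sph :=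
    Kest_smul_coh (integrable_xx_cpow (hm i) (hs i)) N
  have h3 : Integrable (fun z => (1 : ℂ) • coh N z) sph :=
    Kest_smul_coh (integrable_const 1) N
  unfold Kest_T
  rw [h1, opM_sub (integrable_mulVec _ h2) h3, ← mul_opM _ h2]
  have h4 : opM N (fun z => (xx (m i) z : ℂ) ^ s i • coh N z) = fN N (m i) (lam N (s i)) :=
    toep_xx N (hm i) (hs i)
  have h5 : opM N (fun z => (1 : ℂ) • coh N z) = 1 := toep_one N
  rw [h4, h5]
  unfold Kest_D
  rw [fN_mul (hm i)]
  have h6 : (fun j => (lam N (s i) j)⁻¹ * lam N (s i) j) = fun _ => (1 : ℂ) := by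
    funext j
    exact inv_mul_cancel₀ (lam_ne_zero N (hs i) j)
  rw [h6, fN_one (hm i), sub_self]

private theorem Kest_nodup {l : List (Fin K)} (hl : l ∈ (List.finRange K).sublists') : l.Nodup :=
  (List.mem_sublists'.1 hl).nodup (List.nodup_finRange K)

/-- the expansion of `R - 1` -/
private theorem Kest_RR {m : Fin K → Fin 2 → ℂ} (hm : ∀ i, nr (m i) = 1)
    (hne : ∀ i k, i ≠ k → ‖hp (m i) (m k)‖ < 1) {s : Fin K → ℂ} (hs : ∀ i, -1 < (s i).re)
    {N : ℕ} (hN : 1 ≤ N) :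
    RR N m s - 1 = ((List.finRange K).sublists'.map fun l =>
      if 2 ≤ l.length then Kest_T N m s l else 0).sum := by
  have h1 : RR N m s = ((List.finRange K).sublists'.map fun l => Kest_T N m s l).sum := by
    unfold RR toep
    rw [mul_opM _ (Kest_smul_coh (FF_integrable m hm hne s hs) N)]
    have h2 : (fun z => ((List.finRange K).map fun i => fN N (m i) fun j => (lam N (s i) j)⁻¹).prod *ᵥ
        (FF m s z • coh N z)) = fun z =>
        ((List.finRange K).sublists'.map fun l => Kest_G N m s l z).sum := by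
      funext z
      exact Kest_expand hm s N z
    rw [h2, opM_list_sum _ (fun l z => Kest_G N m s l z)
      (fun l hl => Kest_int hm hne hs (Kest_nodup hl) hN)]
    rfl
  have h3 : (1 : Matrix (Fin (N + 1)) (Fin (N + 1)) ℂ) =
      ((List.finRange K).sublists'.map fun l : List (Fin K) =>
        if l = [] then (1 : Matrix (Fin (N + 1)) (Fin (N + 1)) ℂ) else 0).sum := by
    rw [Kest_sum_nil (fun l : List (Fin K) =>
      if l = [] then (1 : Matrix (Fin (N + 1)) (Fin (N + 1)) ℂ) else 0)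
      (fun l hl => if_neg hl), if_pos rfl]
  rw [h1]
  conv_lhs => rw [h3]
  rw [Kest_sum_sub]
  congr 1
  refine List.map_congr_left fun l _ => ?_
  rcases l with _ | ⟨i, _ | ⟨k, l⟩⟩
  · rw [Kest_T_nil, if_pos rfl, sub_self, if_neg (by simp)]
  · rw [Kest_T_one hm hs, if_neg (by simp), sub_zero, if_neg (by simp)]
  · rw [if_neg (by simp), sub_zero, if_pos (by simp)]

private theorem Kest_pow_tendsto (c : ℝ) {δ : ℝ} (hδ : 0 < δ) :
    Tendsto (fun N : ℕ => c * (N : ℝ) ^ (-δ)) atTop (𝓝 0) := by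
  have h := ((tendsto_rpow_neg_atTop hδ).comp tendsto_natCast_atTop_atTop).const_mul c
  rw [mul_zero] at h
  exact h

private theorem Kest_off {m : Fin K → Fin 2 → ℂ} (hm : ∀ i, nr (m i) = 1)
    (hne : ∀ i k, i ≠ k → ‖hp (m i) (m k)‖ < 1) {s : Fin K → ℂ} (hs : ∀ i, -1 < (s i).re)
    {l : List (Fin K)} (hl : l.Nodup) (hlen : 2 ≤ l.length) :
    ∃ C : ℝ, ∀ N : ℕ, 1 ≤ N → ((N : ℝ) + 1) * ∫ z in (bulk N m)ᶜ, nr (Kest_G N m s l z) ∂sph ≤
      C * (N : ℝ) ^ (-(7 / 16) : ℝ) := by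
  obtain ⟨C, hC, h⟩ := Kest_bound m hm s hs l
  obtain ⟨C', hC', h'⟩ := int_off m hm hne (fun i => aa (s i)) (fun i => (Kest_aa (hs i)).1)
    (fun i => (Kest_aa (hs i)).2) l hl hlen
  refine ⟨2 * C * C', fun N hN => ?_⟩
  have hN0 : (0 : ℝ) < N := by exact_mod_cast hN
  have hN1 : (1 : ℝ) ≤ N := by exact_mod_cast hN
  have h1 : ∫ z in (bulk N m)ᶜ, nr (Kest_G N m s l z) ∂sph ≤
      C * (N : ℝ) ^ (1 / 16 : ℝ) * (C' * (N : ℝ) ^ (-(3 / 2) : ℝ)) := by
    calc ∫ z in (bulk N m)ᶜ, nr (Kest_G N m s l z) ∂sph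
        ≤ ∫ z in (bulk N m)ᶜ, C * (N : ℝ) ^ (1 / 16 : ℝ) * Kest_P N m s l z ∂sph := by
          refine integral_mono_ae (integrable_nr (Kest_int hm hne hs hl hN)).integrableOn
            ((Kest_P_int hm hne hs hl hN).const_mul _).integrableOn ?_
          exact ae_restrict_of_ae (h N hN)
      _ = C * (N : ℝ) ^ (1 / 16 : ℝ) * ∫ z in (bulk N m)ᶜ, Kest_P N m s l z ∂sph :=
          integral_const_mul _ _
      _ ≤ _ := by
          refine mul_le_mul_of_nonneg_left (h' N hN) ?_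
          positivity
  have h2 : (N : ℝ) + 1 ≤ 2 * N := by linarith
  have h3 : (N : ℝ) * ((N : ℝ) ^ (1 / 16 : ℝ) * (N : ℝ) ^ (-(3 / 2) : ℝ)) =
      (N : ℝ) ^ (-(7 / 16) : ℝ) := by
    rw [← Real.rpow_add hN0]
    nth_rewrite 1 [← Real.rpow_one (N : ℝ)]
    rw [← Real.rpow_add hN0]
    norm_num
  calc ((N : ℝ) + 1) * ∫ z in (bulk N m)ᶜ, nr (Kest_G N m s l z) ∂sph
      ≤ (2 * N) * (C * (N : ℝ) ^ (1 / 16 : ℝ) * (C' * (N : ℝ) ^ (-(3 / 2) : ℝ))) := by
        refine mul_le_mul h2 h1 ?_ (by positivity)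
        exact integral_nonneg fun z => nr_nonneg _
    _ = 2 * C * C' * ((N : ℝ) * ((N : ℝ) ^ (1 / 16 : ℝ) * (N : ℝ) ^ (-(3 / 2) : ℝ))) := by ring
    _ = 2 * C * C' * (N : ℝ) ^ (-(7 / 16) : ℝ) := by rw [h3]

private theorem Kest_bulk {m : Fin K → Fin 2 → ℂ} (hm : ∀ i, nr (m i) = 1)
    (hne : ∀ i k, i ≠ k → ‖hp (m i) (m k)‖ < 1) {s : Fin K → ℂ} (hs : ∀ i, -1 < (s i).re)
    {l : List (Fin K)} (hl : l.Nodup) (hlen : 2 ≤ l.length) :
    ∃ C : ℝ, ∀ N : ℕ, 1 ≤ N →
      IntegrableOn (fun z => nr (Kest_G N m s l z) ^ 2) (bulk N m) sph ∧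
      ((N : ℝ) + 1) * ∫ z in bulk N m, nr (Kest_G N m s l z) ^ 2 ∂sph ≤
      C * (N : ℝ) ^ (-(5 / 8) : ℝ) := by
  obtain ⟨C, hC, h⟩ := Kest_bound m hm s hs l
  obtain ⟨C', hC', h'⟩ := int_bulk_sq m hm hne (fun i => aa (s i)) (fun i => (Kest_aa (hs i)).1)
    (fun i => (Kest_aa (hs i)).2) l hl hlen
  refine ⟨2 * C ^ 2 * C', fun N hN => ?_⟩
  have hN0 : (0 : ℝ) < N := by exact_mod_cast hN
  have hN1 : (1 : ℝ) ≤ N := by exact_mod_cast hN
  obtain ⟨h1, h2⟩ := h' N hN
  have h3 : ∀ᵐ z ∂(sph.restrict (bulk N m)), nr (Kest_G N m s l z) ^ 2 ≤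
      (C * (N : ℝ) ^ (1 / 16 : ℝ)) ^ 2 * Kest_P N m s l z ^ 2 := by
    refine ae_restrict_of_ae ?_
    filter_upwards [h N hN] with z hz
    rw [← mul_pow]
    exact pow_le_pow_left₀ (nr_nonneg _) hz 2
  have h4 : IntegrableOn (fun z => (C * (N : ℝ) ^ (1 / 16 : ℝ)) ^ 2 * Kest_P N m s l z ^ 2)
      (bulk N m) sph := Integrable.const_mul h1 _
  have h5 : IntegrableOn (fun z => nr (Kest_G N m s l z) ^ 2) (bulk N m) sph := by
    refine Integrable.mono' h4
      ((measurable_nr.comp (Kest_meas m s N l)).pow_const 2).aestronglyMeasurable ?_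
    filter_upwards [h3] with z hz
    rw [Real.norm_of_nonneg (by positivity)]
    exact hz
  refine ⟨h5, ?_⟩
  have h6 : ∫ z in bulk N m, nr (Kest_G N m s l z) ^ 2 ∂sph ≤
      (C * (N : ℝ) ^ (1 / 16 : ℝ)) ^ 2 * (C' * (N : ℝ) ^ (-(7 / 4) : ℝ)) := by
    calc ∫ z in bulk N m, nr (Kest_G N m s l z) ^ 2 ∂sph
        ≤ ∫ z in bulk N m, (C * (N : ℝ) ^ (1 / 16 : ℝ)) ^ 2 * Kest_P N m s l z ^ 2 ∂sph :=
          integral_mono_ae h5 h4 h3
      _ = (C * (N : ℝ) ^ (1 / 16 : ℝ)) ^ 2 * ∫ z in bulk N m, Kest_P N m s l z ^ 2 ∂sph :=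
          integral_const_mul _ _
      _ ≤ _ := mul_le_mul_of_nonneg_left h2 (by positivity)
  have h7 : (N : ℝ) + 1 ≤ 2 * N := by linarith
  have h8 : (N : ℝ) * (((N : ℝ) ^ (1 / 16 : ℝ)) ^ 2 * (N : ℝ) ^ (-(7 / 4) : ℝ)) =
      (N : ℝ) ^ (-(5 / 8) : ℝ) := by
    rw [← Real.rpow_natCast ((N : ℝ) ^ (1 / 16 : ℝ)) 2, ← Real.rpow_mul hN0.le,
      ← Real.rpow_add hN0]
    nth_rewrite 1 [← Real.rpow_one (N : ℝ)]
    rw [← Real.rpow_add hN0]
    norm_num
  calc ((N : ℝ) + 1) * ∫ z in bulk N m, nr (Kest_G N m s l z) ^ 2 ∂sph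
      ≤ (2 * N) * ((C * (N : ℝ) ^ (1 / 16 : ℝ)) ^ 2 * (C' * (N : ℝ) ^ (-(7 / 4) : ℝ))) := by
        refine mul_le_mul h7 h6 ?_ (by positivity)
        exact integral_nonneg fun z => by positivity
    _ = 2 * C ^ 2 * C' * ((N : ℝ) * (((N : ℝ) ^ (1 / 16 : ℝ)) ^ 2 * (N : ℝ) ^ (-(7 / 4) : ℝ))) := by
        ring
    _ = 2 * C ^ 2 * C' * (N : ℝ) ^ (-(5 / 8) : ℝ) := by rw [h8]

private theorem Kest_T_fro {m : Fin K → Fin 2 → ℂ} (hm : ∀ i, nr (m i) = 1)
    (hne : ∀ i k, i ≠ k → ‖hp (m i) (m k)‖ < 1) {s : Fin K → ℂ} (hs : ∀ i, -1 < (s i).re)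
    {l : List (Fin K)} (hl : l.Nodup) (hlen : 2 ≤ l.length) :
    Tendsto (fun N : ℕ => fro (Kest_T N m s l)) atTop (𝓝 0) := by
  obtain ⟨C1, h1⟩ := Kest_off hm hne hs hl hlen
  obtain ⟨C2, h2⟩ := Kest_bulk hm hne hs hl hlen
  have h3 : Tendsto (fun N : ℕ => Real.sqrt (C2 * (N : ℝ) ^ (-(5 / 8) : ℝ)) +
      C1 * (N : ℝ) ^ (-(7 / 16) : ℝ)) atTop (𝓝 0) := by
    have h4 := (Real.continuous_sqrt.tendsto 0).comp
      (Kest_pow_tendsto C2 (by norm_num : (0 : ℝ) < 5 / 8))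
    have h5 := h4.add (Kest_pow_tendsto C1 (by norm_num : (0 : ℝ) < 7 / 16))
    rw [Real.sqrt_zero, add_zero] at h5
    exact h5
  refine squeeze_zero' (Eventually.of_forall fun N => fro_nonneg _) ?_ h3
  filter_upwards [eventually_ge_atTop 1] with N hN
  obtain ⟨h6, h7⟩ := h2 N hN
  refine le_trans (fro_opM_le (Kest_int hm hne hs hl hN) (measurableSet_bulk N m) h6) ?_
  exact add_le_add (Real.sqrt_le_sqrt h7) (h1 N hN)

theorem RR_fro (m : Fin K → Fin 2 → ℂ) (hm : ∀ i, nr (m i) = 1)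
    (hne : ∀ i k, i ≠ k → ‖hp (m i) (m k)‖ < 1) (s : Fin K → ℂ) (hs : ∀ i, -1 < (s i).re) :
    Tendsto (fun N : ℕ => fro (RR N m s - 1)) atTop (𝓝 0) := by
  have h1 : Tendsto (fun N : ℕ => ((List.finRange K).sublists'.map fun l =>
      fro (if 2 ≤ l.length then Kest_T N m s l else 0)).sum) atTop
      (𝓝 (((List.finRange K).sublists'.map fun _ : List (Fin K) => (0 : ℝ)).sum)) := by
    refine tendsto_list_sum _ fun l hl => ?_
    by_cases h2 : 2 ≤ l.length
    · simp only [if_pos h2]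
      exact Kest_T_fro hm hne hs (Kest_nodup hl) h2
    · simp only [if_neg h2, fro_zero]
      exact tendsto_const_nhds
  rw [List.sum_map_zero] at h1
  refine squeeze_zero' (Eventually.of_forall fun N => fro_nonneg _) ?_ h1
  filter_upwards [eventually_ge_atTop 1] with N hN
  rw [Kest_RR hm hne hs hN]
  refine le_trans (fro_list_sum_le _) ?_
  rw [List.map_map]
  exact le_of_eq rfl

/-! ### the trace -/

/-- the limits of the traces -/
private noncomputable def Kest_lim (m : Fin K → Fin 2 → ℂ) (s : Fin K → ℂ) : List (Fin K) → ℂ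
  | [i, k] => s i * s k * ((-Real.log (1 - ‖hp (m i) (m k)‖ ^ 2) - 1 : ℝ) : ℂ)
  | _ => 0

private theorem Kest_T_trace {m : Fin K → Fin 2 → ℂ} (hm : ∀ i, nr (m i) = 1)
    (hne : ∀ i k, i ≠ k → ‖hp (m i) (m k)‖ < 1) {s : Fin K → ℂ} (hs : ∀ i, -1 < (s i).re)
    {l : List (Fin K)} (hl : l.Nodup) (hlen : 2 ≤ l.length) :
    Tendsto (fun N : ℕ => (Kest_T N m s l).trace) atTop (𝓝 (Kest_lim m s l)) := by
  have htr : ∀ᶠ N : ℕ in atTop, ((N : ℂ) + 1) * ∫ z, hp (coh N z) (Kest_G N m s l z) ∂sph =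
      (Kest_T N m s l).trace := by
    filter_upwards [eventually_ge_atTop 1] with N hN
    exact (trace_opM (Kest_int hm hne hs hl hN)).symm
  refine Tendsto.congr' htr ?_
  rcases l with _ | ⟨i, _ | ⟨k, _ | ⟨j, l⟩⟩⟩
  · simp at hlen
  · simp at hlen
  · have hik : i ≠ k := by
      intro h
      rw [h] at hl
      simp at hl
    exact pair_trace m hm hne s hs hik
  · have hlen3 : 3 ≤ (i :: k :: j :: l).length := by simp
    obtain ⟨C, hC, h⟩ := Kest_bound m hm s hs (i :: k :: j :: l)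
    obtain ⟨C', hC', h'⟩ := int_three m hm hne (fun i => aa (s i)) (fun i => (Kest_aa (hs i)).1)
      (fun i => (Kest_aa (hs i)).2) (i :: k :: j :: l) hl hlen3
    have hz : Kest_lim m s (i :: k :: j :: l) = 0 := rfl
    rw [hz]
    refine squeeze_zero_norm' ?_ (Kest_pow_tendsto (2 * C * C') (by norm_num : (0 : ℝ) < 7 / 16))
    filter_upwards [eventually_ge_atTop 1] with N hN
    have hN0 : (0 : ℝ) < N := by exact_mod_cast hN
    have hN1 : (1 : ℝ) ≤ N := by exact_mod_cast hN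
    have h1 : ‖∫ z, hp (coh N z) (Kest_G N m s (i :: k :: j :: l) z) ∂sph‖ ≤
        C * (N : ℝ) ^ (1 / 16 : ℝ) * (C' * (N : ℝ) ^ (-(3 / 2) : ℝ)) := by
      calc ‖∫ z, hp (coh N z) (Kest_G N m s (i :: k :: j :: l) z) ∂sph‖
          ≤ ∫ z, C * (N : ℝ) ^ (1 / 16 : ℝ) * Kest_P N m s (i :: k :: j :: l) z ∂sph := by
            refine norm_integral_le_of_norm_le ((Kest_P_int hm hne hs hl hN).const_mul _) ?_
            filter_upwards [h N hN, Kest_ae hm] with z hz1 hz2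
            refine le_trans (norm_hp_le _ _) ?_
            rw [nr_coh, hz2.1, one_pow, one_mul]
            exact hz1
        _ = C * (N : ℝ) ^ (1 / 16 : ℝ) * ∫ z, Kest_P N m s (i :: k :: j :: l) z ∂sph :=
            integral_const_mul _ _
        _ ≤ _ := mul_le_mul_of_nonneg_left (h' N hN) (by positivity)
    have h2 : ‖(N : ℂ) + 1‖ ≤ 2 * N := by
      have h3 : (N : ℂ) + 1 = (((N : ℝ) + 1 : ℝ) : ℂ) := by push_cast; ring
      rw [h3, Complex.norm_real, Real.norm_of_nonneg (by positivity)]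
      linarith
    have h3 : (N : ℝ) * ((N : ℝ) ^ (1 / 16 : ℝ) * (N : ℝ) ^ (-(3 / 2) : ℝ)) =
        (N : ℝ) ^ (-(7 / 16) : ℝ) := by
      rw [← Real.rpow_add hN0]
      nth_rewrite 1 [← Real.rpow_one (N : ℝ)]
      rw [← Real.rpow_add hN0]
      norm_num
    rw [norm_mul]
    calc ‖(N : ℂ) + 1‖ * ‖∫ z, hp (coh N z) (Kest_G N m s (i :: k :: j :: l) z) ∂sph‖
        ≤ (2 * N) * (C * (N : ℝ) ^ (1 / 16 : ℝ) * (C' * (N : ℝ) ^ (-(3 / 2) : ℝ))) :=
          mul_le_mul h2 h1 (norm_nonneg _) (by positivity)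
      _ = 2 * C * C' * ((N : ℝ) * ((N : ℝ) ^ (1 / 16 : ℝ) * (N : ℝ) ^ (-(3 / 2) : ℝ))) := by ring
      _ = 2 * C * C' * (N : ℝ) ^ (-(7 / 16) : ℝ) := by rw [h3]

/-- the sum over the sublists of length two -/
private theorem Kest_pairs (m : Fin K → Fin 2 → ℂ) (s : Fin K → ℂ) (t : List (Fin K))
    (ht : t.Pairwise (· < ·)) :
    (t.sublists'.map (Kest_lim m s)).sum = ∑ i ∈ t.toFinset, ∑ k ∈ t.toFinset.filter (fun k => i < k),
      s i * s k * ((-Real.log (1 - ‖hp (m i) (m k)‖ ^ 2) - 1 : ℝ) : ℂ) := by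
  induction t with
  | nil => simp [Kest_lim]
  | cons a t ih =>
    rw [List.pairwise_cons] at ht
    have hat : a ∉ t := fun h => lt_irrefl a (ht.1 a h)
    have h1 : ∀ t' : List (Fin K), (t'.sublists'.map fun l => Kest_lim m s (a :: l)).sum =
        (t'.map fun k => s a * s k * ((-Real.log (1 - ‖hp (m a) (m k)‖ ^ 2) - 1 : ℝ) : ℂ)).sum := by
      intro t'
      induction t' with
      | nil => simp [Kest_lim]
      | cons b t' ih' =>
        rw [List.sublists'_cons, List.map_append, List.sum_append, ih', List.map_map,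
          Kest_sum_nil _ _ t', List.map_cons, List.sum_cons]
        · simp only [Function.comp_apply, Kest_lim]
          rw [add_comm]
        · intro l hl
          rcases l with _ | ⟨c, l⟩
          · exact absurd rfl hl
          · rfl
    have h2 : (List.map (Kest_lim m s ∘ List.cons a) t.sublists').sum =
        (t.map fun k => s a * s k * ((-Real.log (1 - ‖hp (m a) (m k)‖ ^ 2) - 1 : ℝ) : ℂ)).sum :=
      h1 t
    have htn : t.Nodup := ht.2.imp (fun h => h.ne)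
    rw [List.sublists'_cons, List.map_append, List.sum_append, List.map_map, h2, ih ht.2,
      List.toFinset_cons, Finset.sum_insert (by simpa using hat), add_comm]
    congr 1
    · rw [← List.sum_toFinset _ htn]
      refine Finset.sum_congr ?_ fun _ _ => rfl
      ext k
      simp only [mem_filter, mem_insert, List.mem_toFinset]
      constructor
      · intro h
        exact ⟨Or.inr h, ht.1 k h⟩
      · rintro ⟨h | h, h3⟩
        · rw [h] at h3
          exact absurd h3 (lt_irrefl a)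
        · exact h
    · refine Finset.sum_congr rfl fun i hi => ?_
      refine Finset.sum_congr ?_ fun _ _ => rfl
      ext k
      simp only [mem_filter, mem_insert, List.mem_toFinset]
      constructor
      · rintro ⟨h, h3⟩
        exact ⟨Or.inr h, h3⟩
      · rintro ⟨h | h, h3⟩
        · rw [h] at h3
          rw [List.mem_toFinset] at hi
          exact absurd (lt_trans h3 (ht.1 i hi)) (lt_irrefl i)
        · exact ⟨h, h3⟩

theorem RR_trace (m : Fin K → Fin 2 → ℂ) (hm : ∀ i, nr (m i) = 1)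
    (hne : ∀ i k, i ≠ k → ‖hp (m i) (m k)‖ < 1) (s : Fin K → ℂ) (hs : ∀ i, -1 < (s i).re) :
    Tendsto (fun N : ℕ => (RR N m s - 1).trace) atTop
      (𝓝 (∑ i, ∑ k ∈ univ.filter (fun k => i < k),
        s i * s k * ((-Real.log (1 - ‖hp (m i) (m k)‖ ^ 2) - 1 : ℝ) : ℂ))) := by
  have h0 := Kest_pairs m s (List.finRange K) (List.pairwise_lt_finRange K)
  rw [List.toFinset_finRange] at h0
  rw [← h0]
  have h1 : Tendsto (fun N : ℕ => ((List.finRange K).sublists'.map fun l =>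
      (if 2 ≤ l.length then Kest_T N m s l else 0).trace).sum) atTop
      (𝓝 (((List.finRange K).sublists'.map (Kest_lim m s)).sum)) := by
    refine tendsto_list_sum _ fun l hl => ?_
    by_cases h2 : 2 ≤ l.length
    · simp only [if_pos h2]
      exact Kest_T_trace hm hne hs (Kest_nodup hl) h2
    · simp only [if_neg h2, Matrix.trace_zero]
      have h3 : Kest_lim m s l = 0 := by
        rcases l with _ | ⟨i, _ | ⟨k, l⟩⟩
        · rfl
        · rfl
        · simp at h2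
      rw [h3]
      exact tendsto_const_nhds
  refine Tendsto.congr' ?_ h1
  filter_upwards [eventually_ge_atTop 1] with N hN
  rw [Kest_RR hm hne hs hN]
  have h4 : ∀ t : List (Matrix (Fin (N + 1)) (Fin (N + 1)) ℂ), t.sum.trace = (t.map Matrix.trace).sum := by
    intro t
    induction t with
    | nil => simp
    | cons a t ih => rw [List.sum_cons, Matrix.trace_add, ih, List.map_cons, List.sum_cons]
  rw [h4, List.map_map]
  rfl

end MPF
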