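import Pool.Agent.MPF.Vec

/-!
# MPF/Loc1: the geometric localisation estimate

`cw [(m₁,t₁), ..., (m_r,t_r)] z = A₁ ⋯ A_r z`, `A_i = 1 - (1-t_i) m_i m_i^*`.

PROOF. Let `w = cw l z`, `δ² = 1 - |w|²`. For one step `v ↦ A v`, `y = |⟨m,v⟩|²`:
`|v - A v|² = (1-t)² y`, `|v|² - |A v|² = (1-t²) y ≥ (1-t)² y`. Summing and Cauchy-Schwarz:
`|z - w|² ≤ r δ²`, `0 ≤ δ² ≤ 1`. Let `x = xx b z`, `Y = |⟨b,w⟩|²`; `|√Y - √x| ≤ |⟨b, w - z⟩| ≤ √r δ`, so
`x - 2√(r x) δ ≤ Y ≤ x + 2 √(r x) δ + r δ²`. The vector `w + (e^θ-1)⟨b,w⟩ b` has squared norm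
`|w|² + (e^{2θ} - 1) Y = 1 - δ² + (e^{2θ}-1) Y`.
Case `θ ≥ 0` (`θ ≤ c`, put `E = e^{2θ} - 1 ≤ 2θ + 4θ²`, `E ≤ 4θ`): it is
`≤ 1 + E x - δ² (1 - r E) + 2 E √(r x) δ ≤ 1 + E x - δ²/2 + 2 E √(r x) δ ≤ 1 + E x + 2 E² r x`
if `r E ≤ 1/2`; so `≤ 1 + 2θx + (4 + 32 r) θ² x ≤ exp(2θx + (4+32r)θ²x)`.
Case `θ < 0`: `E = e^{2θ}-1 ∈ [-2|θ|, 0]`, `E ≤ 2θ + 2θ²`: it is
`≤ 1 - δ² + E x + 2|E| √(r x) δ ≤ 1 + E x + E² r x ≤ 1 + 2θ x + (2 + 4r) θ² x`.
So `C = 4 + 32 r`, `c = 1/(8(r+1))` work.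
-/

open MeasureTheory Matrix Finset Filter Topology
open scoped ENNReal ComplexConjugate

namespace MPF

/-- Successive contractions `A₁ ⋯ A_r z`. -/
noncomputable def cw : List ((Fin 2 → ℂ) × ℝ) → (Fin 2 → ℂ) → (Fin 2 → ℂ)
  | [], z => z
  | p :: l, z => cw l z + (((p.2 : ℂ) - 1) * hp p.1 (cw l z)) • p.1

/-- Squared norm after one step. -/
private lemma Loc1_nsq {b : Fin 2 → ℂ} (hb : nr b = 1) (e : ℝ) (v : Fin 2 → ℂ) :
    Sph.nsq (v + (((e : ℂ) - 1) * hp b v) • b) = Sph.nsq v + (e ^ 2 - 1) * ‖hp b v‖ ^ 2 := by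
  have h1 : hp v ((((e : ℂ) - 1) * hp b v) • b) = (((e - 1) * ‖hp b v‖ ^ 2 : ℝ) : ℂ) := by
    rw [hp_smul_right, ← conj_hp b v, mul_assoc, Complex.mul_conj, Complex.normSq_eq_norm_sq]
    push_cast
    ring
  have h2 : Sph.nsq ((((e : ℂ) - 1) * hp b v) • b) = (e - 1) ^ 2 * ‖hp b v‖ ^ 2 := by
    rw [← nr_sq, nr_smul, hb, mul_one, norm_mul, mul_pow]
    congr 1
    have : ((e : ℂ) - 1) = ((e - 1 : ℝ) : ℂ) := by push_cast; ring
    rw [this, Complex.norm_real, Real.norm_eq_abs, sq_abs]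
  rw [nsq_add, h1, h2, Complex.ofReal_re]
  ring

private lemma Loc1_sub {b : Fin 2 → ℂ} (hb : nr b = 1) (e : ℝ) (v : Fin 2 → ℂ) :
    nr (v - (v + (((e : ℂ) - 1) * hp b v) • b)) ^ 2 = (e - 1) ^ 2 * ‖hp b v‖ ^ 2 := by
  have h0 : v - (v + (((e : ℂ) - 1) * hp b v) • b) = -((((e : ℂ) - 1) * hp b v) • b) := by
    abel
  rw [h0, nr_neg, nr_smul, hb, mul_one, norm_mul, mul_pow]
  congr 1
  have : ((e : ℂ) - 1) = ((e - 1 : ℝ) : ℂ) := by push_cast; ring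
  rw [this, Complex.norm_real, Real.norm_eq_abs, sq_abs]

private lemma Loc1_arith {a e k δ ε : ℝ} (hk : 0 ≤ k) (hδ : 0 ≤ δ) (h1 : a ^ 2 ≤ k * δ)
    (h2 : e ^ 2 ≤ ε) : (a + e) ^ 2 ≤ (k + 1) * (δ + ε) := by
  rcases hk.eq_or_lt with h0 | h0
  · rw [← h0] at h1 ⊢
    have ha : a = 0 := by
      have : a ^ 2 ≤ 0 := by linarith
      exact pow_eq_zero_iff (n := 2) (by norm_num) |>.1 (le_antisymm this (sq_nonneg a))
    rw [ha]
    nlinarith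
  · have h3 : k * (a + e) ^ 2 ≤ k * ((k + 1) * (δ + ε)) := by
      have h4 : k * (a + e) ^ 2 ≤ (k + 1) * (a ^ 2 + k * e ^ 2) := by
        nlinarith [sq_nonneg (a - k * e)]
      have h5 : (k + 1) * (a ^ 2 + k * e ^ 2) ≤ (k + 1) * (k * δ + k * ε) := by
        apply mul_le_mul_of_nonneg_left _ (by linarith)
        have := mul_le_mul_of_nonneg_left h2 hk
        linarith
      calc k * (a + e) ^ 2 ≤ (k + 1) * (k * δ + k * ε) := h4.trans h5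
        _ = k * ((k + 1) * (δ + ε)) := by ring
    exact le_of_mul_le_mul_left h3 h0

private lemma Loc1_cw (l : List ((Fin 2 → ℂ) × ℝ))
    (hl : ∀ p ∈ l, nr p.1 = 1 ∧ 0 ≤ p.2 ∧ p.2 ≤ 1) (z : Fin 2 → ℂ) :
    Sph.nsq (cw l z) ≤ Sph.nsq z ∧
      nr (z - cw l z) ^ 2 ≤ l.length * (Sph.nsq z - Sph.nsq (cw l z)) := by
  induction l with
  | nil =>
    refine ⟨le_rfl, ?_⟩
    have h0 : z - cw [] z = 0 := sub_self z
    rw [h0, nr_zero]
    simp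
  | cons p l ih =>
    obtain ⟨ih1, ih2⟩ := ih fun q hq => hl q (List.mem_cons_of_mem _ hq)
    obtain ⟨hp1, hp2, hp3⟩ := hl p List.mem_cons_self
    have hc : cw (p :: l) z = cw l z + (((p.2 : ℂ) - 1) * hp p.1 (cw l z)) • p.1 := rfl
    have h1 := Loc1_nsq hp1 p.2 (cw l z)
    have h2 := Loc1_sub hp1 p.2 (cw l z)
    rw [← hc] at h1 h2
    have hy := sq_nonneg ‖hp p.1 (cw l z)‖
    have h3 : nr (cw l z - cw (p :: l) z) ^ 2 ≤ Sph.nsq (cw l z) - Sph.nsq (cw (p :: l) z) := by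
      rw [h2, h1]
      nlinarith [mul_nonneg (sub_nonneg.2 hp3) (mul_nonneg hp2 hy)]
    refine ⟨?_, ?_⟩
    · nlinarith [sq_nonneg (nr (cw l z - cw (p :: l) z))]
    · have h4 : nr (z - cw (p :: l) z) ≤ nr (z - cw l z) + nr (cw l z - cw (p :: l) z) := by
        have : z - cw (p :: l) z = (z - cw l z) + (cw l z - cw (p :: l) z) := by abel
        rw [this]
        exact nr_add_le _ _
      have h5 := Loc1_arith (Nat.cast_nonneg l.length) (sub_nonneg.2 ih1) ih2 h3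
      calc nr (z - cw (p :: l) z) ^ 2 ≤ (nr (z - cw l z) + nr (cw l z - cw (p :: l) z)) ^ 2 :=
            pow_le_pow_left₀ (nr_nonneg _) h4 2
        _ ≤ _ := h5
        _ = ((p :: l).length : ℝ) * (Sph.nsq z - Sph.nsq (cw (p :: l) z)) := by
          rw [List.length_cons]
          push_cast
          ring

/-- The real inequality. -/
private lemma Loc1_real {R p q d δ θ : ℝ} (hR : 1 ≤ R) (hp : 0 ≤ p) (hq : 0 ≤ q) (hd : 0 ≤ d)
    (h1 : d ^ 2 ≤ R * δ) (h2 : |q - p| ≤ d) (hθ : |θ| ≤ 1 / (8 * R)) :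
    1 - δ + (Real.exp θ ^ 2 - 1) * q ^ 2 ≤
      Real.exp (2 * θ * p ^ 2 + (4 + 32 * R) * θ ^ 2 * p ^ 2) := by
  have hR0 : 0 < R := by linarith
  have hc : 1 / (8 * R) ≤ 1 / 8 := by
    apply one_div_le_one_div_of_le (by norm_num)
    linarith
  have hθ8 : |θ| ≤ 1 / 8 := hθ.trans hc
  have hE : Real.exp θ ^ 2 = Real.exp (2 * θ) := by
    rw [← Real.exp_nat_mul]
    norm_num
  set E := Real.exp θ ^ 2 - 1 with hEdef
  have hab := Real.abs_exp_sub_one_sub_id_le (x := 2 * θ) (by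
    rw [abs_mul, abs_two]
    linarith)
  have hE1 : E ≤ 2 * θ + 4 * θ ^ 2 := by
    have := (abs_le.1 hab).2
    rw [hEdef, hE]
    nlinarith
  have hE2 : 2 * θ ≤ E := by
    have := Real.add_one_le_exp (2 * θ)
    rw [hEdef, hE]
    linarith
  have hδ : d ^ 2 / R ≤ δ := by
    rw [div_le_iff₀ hR0]
    linarith
  obtain ⟨h3, h4⟩ := abs_le.1 h2
  obtain ⟨h5, h6⟩ := abs_le.1 hθ8
  have hfin : 1 - δ + E * q ^ 2 ≤ 1 + (2 * θ * p ^ 2 + (4 + 32 * R) * θ ^ 2 * p ^ 2) := by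
    have hp2 := sq_nonneg p
    rcases le_or_gt 0 θ with h0 | h0
    · have hE0 : 0 ≤ E := by linarith
      have hE4 : E ≤ 4 * θ := by nlinarith
      have hRE : R * E ≤ 1 / 2 := by
        have h7 : θ ≤ 1 / (8 * R) := (le_abs_self θ).trans hθ
        have h8 : R * θ ≤ 1 / 8 := by
          rw [le_div_iff₀ (by positivity)] at h7
          linarith
        nlinarith
      have hq2 : q ^ 2 ≤ (p + d) ^ 2 := pow_le_pow_left₀ hq (by linarith) 2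
      have h9 : E * q ^ 2 ≤ E * (p + d) ^ 2 := mul_le_mul_of_nonneg_left hq2 hE0
      have h10 : E * d ^ 2 ≤ d ^ 2 / (2 * R) := by
        rw [le_div_iff₀ (by positivity)]
        nlinarith [sq_nonneg d]
      have h11 : 2 * E * p * d ≤ d ^ 2 / (2 * R) + 2 * R * E ^ 2 * p ^ 2 := by
        have h12 : d ^ 2 / (2 * R) + 2 * R * E ^ 2 * p ^ 2 - 2 * E * p * d =
            (d - 2 * R * E * p) ^ 2 / (2 * R) := by
          field_simp
          ring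
        have h13 : 0 ≤ (d - 2 * R * E * p) ^ 2 / (2 * R) := by positivity
        linarith
      have h14 : d ^ 2 / R = d ^ 2 / (2 * R) + d ^ 2 / (2 * R) := by
        field_simp
        ring
      have h15 : E ^ 2 ≤ 16 * θ ^ 2 := by nlinarith
      have h16 : 2 * R * E ^ 2 * p ^ 2 ≤ 32 * R * θ ^ 2 * p ^ 2 := by
        have : 2 * R * E ^ 2 ≤ 32 * R * θ ^ 2 := by nlinarith
        exact mul_le_mul_of_nonneg_right this hp2
      have h17 : E * p ^ 2 ≤ (2 * θ + 4 * θ ^ 2) * p ^ 2 := mul_le_mul_of_nonneg_right hE1 hp2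
      nlinarith
    · have hE0 : E ≤ 0 := by nlinarith
      have hq2 : p ^ 2 - 2 * p * d ≤ q ^ 2 := by
        rcases le_or_gt d p with h7 | h7
        · have : (p - d) ^ 2 ≤ q ^ 2 := pow_le_pow_left₀ (by linarith) (by linarith) 2
          nlinarith [sq_nonneg d]
        · nlinarith [sq_nonneg q]
      have h9 : E * q ^ 2 ≤ E * (p ^ 2 - 2 * p * d) := mul_le_mul_of_nonpos_left hq2 hE0
      have h11 : -(2 * E * p * d) ≤ d ^ 2 / R + R * E ^ 2 * p ^ 2 := by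
        have h12 : d ^ 2 / R + R * E ^ 2 * p ^ 2 + 2 * E * p * d =
            (d + R * E * p) ^ 2 / R := by
          field_simp
          ring
        have h13 : 0 ≤ (d + R * E * p) ^ 2 / R := by positivity
        linarith
      have h15 : E ^ 2 ≤ 4 * θ ^ 2 := by nlinarith
      have h16 : R * E ^ 2 * p ^ 2 ≤ 32 * R * θ ^ 2 * p ^ 2 := by
        have : R * E ^ 2 ≤ 32 * R * θ ^ 2 := by nlinarith [sq_nonneg θ]
        exact mul_le_mul_of_nonneg_right this hp2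
      have h17 : E * p ^ 2 ≤ (2 * θ + 4 * θ ^ 2) * p ^ 2 := mul_le_mul_of_nonneg_right hE1 hp2
      nlinarith
  refine hfin.trans ?_
  have := Real.add_one_le_exp (2 * θ * p ^ 2 + (4 + 32 * R) * θ ^ 2 * p ^ 2)
  linarith

theorem loc1 (r : ℕ) : ∃ C c : ℝ, 0 < C ∧ 0 < c ∧ ∀ l : List ((Fin 2 → ℂ) × ℝ), l.length ≤ r →
    (∀ p ∈ l, nr p.1 = 1 ∧ 0 ≤ p.2 ∧ p.2 ≤ 1) → ∀ z b : Fin 2 → ℂ, nr z = 1 → nr b = 1 →
    ∀ θ : ℝ, |θ| ≤ c →
      nr (cw l z + ((((Real.exp θ : ℝ) : ℂ) - 1) * hp b (cw l z)) • b) ^ 2 ≤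
        Real.exp (2 * θ * xx b z + C * θ ^ 2 * xx b z) := by
  have hR : (1 : ℝ) ≤ (r : ℝ) + 1 := by
    have : (0 : ℝ) ≤ r := Nat.cast_nonneg r
    linarith
  refine ⟨4 + 32 * ((r : ℝ) + 1), 1 / (8 * ((r : ℝ) + 1)), by positivity, by positivity, ?_⟩
  intro l hlr hl z b hz hb θ hθ
  obtain ⟨h1, h2⟩ := Loc1_cw l hl z
  have hz1 : Sph.nsq z = 1 := by rw [← nr_sq, hz, one_pow]
  rw [hz1] at h1 h2
  rw [nr_sq, Loc1_nsq hb]
  have h3 : nr (z - cw l z) ^ 2 ≤ ((r : ℝ) + 1) * (1 - Sph.nsq (cw l z)) := by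
    refine h2.trans (mul_le_mul_of_nonneg_right ?_ (by linarith))
    have : (l.length : ℝ) ≤ r := by exact_mod_cast hlr
    linarith
  have h4 : |‖hp b (cw l z)‖ - ‖hp b z‖| ≤ nr (z - cw l z) := by
    have h5 := abs_norm_sub_norm_le (hp b (cw l z)) (hp b z)
    have h6 : ‖hp b (cw l z) - hp b z‖ = ‖hp b (z - cw l z)‖ := by
      rw [hp_sub_right, norm_sub_rev]
    rw [h6] at h5
    refine h5.trans ((norm_hp_le _ _).trans ?_)
    rw [hb, one_mul]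
  have h7 := Loc1_real hR (norm_nonneg (hp b z)) (norm_nonneg (hp b (cw l z))) (nr_nonneg _) h3 h4 hθ
  unfold xx
  have h8 : Sph.nsq (cw l z) = 1 - (1 - Sph.nsq (cw l z)) := by ring
  rw [h8]
  exact h7

end MPF
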