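import Pool.Agent.MPF.Coh

/-!
# MPF/NumOp: functions of the number operators

PROOF. `fN N m φ = S diag(φ) Sᴴ` with `S = sym N (gm m)` unitary (`sym_mul`, `sym_conjTranspose`,
`gm_conj_mul`, `gm_mul_conj`, `sym_one`). All algebraic rules follow from those of diagonal
matrices. `fN_pow_mulVec_coh`: `fN N m (t^j) = sym N (gm m * diag(t,1) * (gm m)ᴴ)` by
`sym_diagonal`, then `sym_mulVec_coh` and `gm_diag_mulVec`. `nr_fN_mono`: with `u = Sᴴ v`,
`nr (fN φ v)^2 = nr (diag(φ) u)^2 = ∑ |φ j|² |u j|²` (`nr_mulVec_unitary`). `fN_integral`: the `j`-th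
coordinate of `u`, Bochner integral over `(0,1)` of `h(t) t^j`.
-/

open MeasureTheory Matrix Finset Filter Topology
open scoped ENNReal ComplexConjugate

namespace MPF

variable {N : ℕ} {m : Fin 2 → ℂ}

private theorem NumOp_l (hm : nr m = 1) : (sym N (gm m))ᴴ * sym N (gm m) = 1 := by
  rw [sym_conjTranspose, ← sym_mul, gm_conj_mul hm, sym_one]

private theorem NumOp_r (hm : nr m = 1) : sym N (gm m) * (sym N (gm m))ᴴ = 1 := by
  rw [sym_conjTranspose, ← sym_mul, gm_mul_conj hm, sym_one]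

private theorem NumOp_mulVec (φ : ℕ → ℂ) (v : Fin (N + 1) → ℂ) :
    fN N m φ *ᵥ v = sym N (gm m) *ᵥ (fun j => φ j * ((sym N (gm m))ᴴ *ᵥ v) j) := by
  unfold fN
  rw [← Matrix.mulVec_mulVec, ← Matrix.mulVec_mulVec]
  congr 1
  funext j
  rw [Matrix.mulVec_diagonal]

theorem fN_congr {φ ψ : ℕ → ℂ} (h : ∀ j ≤ N, φ j = ψ j) : fN N m φ = fN N m ψ := by
  unfold fN
  congr 3
  funext j
  exact h j (by omega)

theorem fN_one (hm : nr m = 1) : fN N m (fun _ => 1) = 1 := by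
  unfold fN
  rw [Matrix.diagonal_one, mul_one, NumOp_r hm]

theorem fN_mul (hm : nr m = 1) (φ ψ : ℕ → ℂ) :
    fN N m φ * fN N m ψ = fN N m (fun j => φ j * ψ j) := by
  unfold fN
  set S := sym N (gm m) with hS
  calc S * diagonal (fun j : Fin (N + 1) => φ j) * Sᴴ * (S * diagonal (fun j : Fin (N + 1) => ψ j) * Sᴴ)
      = S * diagonal (fun j : Fin (N + 1) => φ j) * (Sᴴ * S) *
        diagonal (fun j : Fin (N + 1) => ψ j) * Sᴴ := by simp only [Matrix.mul_assoc]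
    _ = _ := by
      rw [NumOp_l hm, Matrix.mul_one, Matrix.mul_assoc S, Matrix.diagonal_mul_diagonal]

theorem fN_add (φ ψ : ℕ → ℂ) : fN N m (fun j => φ j + ψ j) = fN N m φ + fN N m ψ := by
  unfold fN
  rw [← Matrix.diagonal_add, Matrix.mul_add, Matrix.add_mul]

theorem fN_sub (φ ψ : ℕ → ℂ) : fN N m (fun j => φ j - ψ j) = fN N m φ - fN N m ψ := by
  unfold fN
  rw [← Matrix.diagonal_sub, Matrix.mul_sub, Matrix.sub_mul]

theorem fN_smul (c : ℂ) (φ : ℕ → ℂ) : fN N m (fun j => c * φ j) = c • fN N m φ := by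
  unfold fN
  have h : diagonal (fun j : Fin (N + 1) => c * φ j) = c • diagonal (fun j : Fin (N + 1) => φ j) := by
    rw [← Matrix.diagonal_smul]
    rfl
  rw [h, Matrix.mul_smul, Matrix.smul_mul]

theorem fN_conjTranspose (φ : ℕ → ℂ) : (fN N m φ)ᴴ = fN N m (fun j => conj (φ j)) := by
  unfold fN
  rw [Matrix.conjTranspose_mul, Matrix.conjTranspose_mul, Matrix.conjTranspose_conjTranspose,
    Matrix.diagonal_conjTranspose, ← Matrix.mul_assoc]
  rfl

theorem det_fN (hm : nr m = 1) (φ : ℕ → ℂ) : (fN N m φ).det = ∏ j ∈ range (N + 1), φ j := by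
  unfold fN
  rw [Matrix.det_mul, Matrix.det_mul, mul_comm (sym N (gm m)).det, mul_assoc, ← Matrix.det_mul,
    NumOp_r hm, Matrix.det_one, mul_one, Matrix.det_diagonal, Finset.prod_range]

theorem fN_pow_mulVec_coh (hm : nr m = 1) (t : ℂ) (z : Fin 2 → ℂ) :
    fN N m (fun j => t ^ j) *ᵥ coh N z = coh N (z + ((t - 1) * hp m z) • m) := by
  have h : fN N m (fun j => t ^ j) = sym N (gm m * Matrix.diagonal ![t, 1] * (gm m)ᴴ) := by
    unfold fN
    rw [sym_mul, sym_mul, sym_diagonal, sym_conjTranspose]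
    simp only [one_pow, mul_one]
  rw [h, sym_mulVec_coh, gm_diag_mulVec hm]

private theorem NumOp_nr (hm : nr m = 1) (φ : ℕ → ℂ) (v : Fin (N + 1) → ℂ) :
    nr (fN N m φ *ᵥ v) = Real.sqrt (∑ j : Fin (N + 1), ‖φ j‖ ^ 2 * ‖((sym N (gm m))ᴴ *ᵥ v) j‖ ^ 2) := by
  rw [NumOp_mulVec, nr_mulVec_unitary _ (NumOp_l hm)]
  unfold nr Sph.nsq
  congr 1
  refine Finset.sum_congr rfl fun j _ => ?_
  rw [norm_mul, mul_pow]

theorem nr_fN_mono (hm : nr m = 1) {φ ψ : ℕ → ℂ} (h : ∀ j ≤ N, ‖φ j‖ ≤ ‖ψ j‖)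
    (v : Fin (N + 1) → ℂ) : nr (fN N m φ *ᵥ v) ≤ nr (fN N m ψ *ᵥ v) := by
  rw [NumOp_nr hm, NumOp_nr hm]
  refine Real.sqrt_le_sqrt (Finset.sum_le_sum fun j _ => ?_)
  exact mul_le_mul_of_nonneg_right (pow_le_pow_left₀ (norm_nonneg _) (h j (by omega)) 2)
    (by positivity)

theorem nr_fN_le (hm : nr m = 1) {φ : ℕ → ℂ} {C : ℝ} (h : ∀ j ≤ N, ‖φ j‖ ≤ C)
    (v : Fin (N + 1) → ℂ) : nr (fN N m φ *ᵥ v) ≤ C * nr v := by
  have hC : 0 ≤ C := (norm_nonneg _).trans (h 0 (Nat.zero_le _))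
  have h1 : nr (fN N m φ *ᵥ v) ≤ nr (fN N m (fun _ => (C : ℂ)) *ᵥ v) := by
    refine nr_fN_mono hm (fun j hj => ?_) v
    rw [Complex.norm_real, Real.norm_of_nonneg hC]
    exact h j hj
  have h2 : fN N m (fun _ => (C : ℂ)) = (C : ℂ) • (1 : Matrix (Fin (N + 1)) (Fin (N + 1)) ℂ) := by
    have h3 := fN_smul (N := N) (m := m) (C : ℂ) (fun _ => 1)
    rw [fN_one hm] at h3
    rw [← h3]
    simp only [mul_one]
  rw [h2, Matrix.smul_mulVec, Matrix.one_mulVec, nr_smul, Complex.norm_real,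
    Real.norm_of_nonneg hC] at h1
  exact h1

/-- Joint continuity in the function (used for measurability). -/
theorem measurable_fN_mulVec {Ω : Type*} [MeasurableSpace Ω] {φ : Ω → ℕ → ℂ}
    (hφ : ∀ j, Measurable fun x => φ x j) {v : Ω → Fin (N + 1) → ℂ} (hv : Measurable v) :
    Measurable fun x => fN N m (φ x) *ᵥ v x := by
  have hmv : ∀ (A : Matrix (Fin (N + 1)) (Fin (N + 1)) ℂ) {w : Ω → Fin (N + 1) → ℂ},
      Measurable w → Measurable fun x => A *ᵥ w x := by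
    intro A w hw
    refine measurable_pi_iff.2 fun i => ?_
    simp only [Matrix.mulVec, dotProduct]
    refine Finset.measurable_sum _ fun j _ => ?_
    exact (measurable_pi_iff.1 hw j).const_mul _
  simp only [NumOp_mulVec]
  refine hmv _ (measurable_pi_iff.2 fun j => ?_)
  exact (hφ j).mul (measurable_pi_iff.1 (hmv _ hv) j)

private theorem NumOp_int {h : ℝ → ℂ} (hh : IntegrableOn h (Set.Ioo 0 1)) (j : ℕ) (c : ℂ) :
    Integrable (fun t : ℝ => h t * ((t : ℂ) ^ j * c)) (volume.restrict (Set.Ioo 0 1)) := by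
  refine Integrable.mul_bdd (c := ‖c‖) hh ?_ ?_
  · exact ((Complex.continuous_ofReal.pow j).mul continuous_const).aestronglyMeasurable
  · rw [ae_restrict_iff' measurableSet_Ioo]
    refine Eventually.of_forall fun t ht => ?_
    rw [norm_mul, norm_pow, Complex.norm_real, Real.norm_of_nonneg ht.1.le]
    exact mul_le_of_le_one_left (norm_nonneg _) (pow_le_one₀ ht.1.le ht.2.le)

private theorem NumOp_eq {h : ℝ → ℂ} (v : Fin (N + 1) → ℂ) (t : ℝ) :
    h t • (fN N m (fun j => (t : ℂ) ^ j) *ᵥ v) = sym N (gm m) *ᵥ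
      (fun j : Fin (N + 1) => h t * ((t : ℂ) ^ (j : ℕ) * ((sym N (gm m))ᴴ *ᵥ v) j)) := by
  rw [NumOp_mulVec, ← Matrix.mulVec_smul]
  rfl

theorem fN_integral (hm : nr m = 1) (c : ℂ) {h : ℝ → ℂ} (hh : IntegrableOn h (Set.Ioo 0 1))
    (v : Fin (N + 1) → ℂ) :
    fN N m (fun j => c + ∫ t in Set.Ioo (0 : ℝ) 1, h t * (t : ℂ) ^ j) *ᵥ v =
      c • v + ∫ t in Set.Ioo (0 : ℝ) 1, h t • (fN N m (fun j => (t : ℂ) ^ j) *ᵥ v) := by
  simp only [NumOp_eq]
  have hint : ∀ j : Fin (N + 1), Integrable (fun t : ℝ => h t * ((t : ℂ) ^ (j : ℕ) *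
      ((sym N (gm m))ᴴ *ᵥ v) j)) (volume.restrict (Set.Ioo 0 1)) := fun j => NumOp_int hh _ _
  rw [← mulVec_integral (sym N (gm m)) (Integrable.of_eval hint)]
  have h1 : c • v = sym N (gm m) *ᵥ (c • ((sym N (gm m))ᴴ *ᵥ v)) := by
    rw [Matrix.mulVec_smul, Matrix.mulVec_mulVec, NumOp_r hm, Matrix.one_mulVec]
  rw [h1, ← Matrix.mulVec_add, NumOp_mulVec]
  congr 1
  funext j
  rw [Pi.add_apply, eval_integral hint j, Pi.smul_apply, smul_eq_mul, add_mul]
  congr 1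
  rw [← integral_mul_const]
  simp only [mul_assoc]

theorem integrable_fN_pow (hm : nr m = 1) {h : ℝ → ℂ} (hh : IntegrableOn h (Set.Ioo 0 1))
    (v : Fin (N + 1) → ℂ) : IntegrableOn (fun t : ℝ => h t • (fN N m (fun j => (t : ℂ) ^ j) *ᵥ v))
      (Set.Ioo 0 1) := by
  simp only [NumOp_eq]
  exact integrable_mulVec (sym N (gm m)) (Integrable.of_eval fun j => NumOp_int hh _ _)

end MPF
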