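import Pool.Agent.MPF.Loc1
import Pool.Agent.MPF.NumOp
import Pool.Agent.MPF.BetaRep

/-!
# MPF/Loc2: products of the operators `D_i^{-1}` keep coherent vectors localised

PROOF. Fix the list `l` (length `p`), `b`, `η`, `A`. Let `w ∈ W_r(z)` mean `w = cw l' z` for a list `l'` of
length `≤ r` as in `loc1`.
(1) For real `θ`, `|θ| ≤ c`, put `Φ_θ(v) = e^{-θ N x} nr (fN N m_b (e^{θ j}) v)`, `x = xx m_b z`. For `w ∈ W_r(z)`, by
`fN_pow_mulVec_coh` (with `t = e^θ`), `nr_coh`, `loc1`: `Φ_θ(coh N w) ≤ exp(½ C N θ² x)`.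
(2) Let `X` be a product of operators `D̃_a = fN N m_a ψ̃_a`, `ψ̃_a(j) = c_a + ∫_0^1 h_a(t) t^j dt` from `beta_rep`
(with exponent `A'` instead of `A`). Claim: for all `w ∈ W_r(z)`,
`Φ_θ(X coh N w) ≤ ∏ (‖c_a‖ + ∫‖h_a‖) · sup_{w' ∈ W_{r + #X}(z)} Φ_θ(coh N w')`. Induction on the number of factors,
splitting off the LAST (rightmost) factor: `X D̃_a coh w = c_a X coh w + ∫ h_a(t) X coh(A_t w) dt`
(`fN_integral`, `fN_pow_mulVec_coh`, `mulVec_integral`, `nr_integral_le`), `A_t w ∈ W_{r+1}(z)`.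
(For lists: write `l = l' ++ [a]`, `List.reverseRecOn`.) So
`Φ_θ(X coh z) ≤ C N^{B'} exp(½ C N θ² x)`.
(3) Chernoff: let `W = N^η (√(N x) + N^η)`, `M = N x`. Off the window `|j - M| > W`. For `θ > 0`:
`1[j - M > W] ≤ e^{-θW} e^{θ(j-M)}`, similarly with `-θ`; `nr (fN 1_off v) ≤ e^{-θW}(Φ_θ(v) + Φ_{-θ}(v))`
(`nr_fN_mono`, split the indicator). Take `θ = κ N^{η} /(√M + N^{η})` with a small constant `κ ≤ min(c, 1/C)`: then
`θ ≤ c`, `θ W = κ N^{2η}`, `½ C N θ² x = ½ C θ² M ≤ ½ C κ² N^{2η} ≤ ½ κ N^{2η}`: total `≤ exp(-½ κ N^{2η})`.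
So the tail of `X coh z` is `≤ C N^{B'} exp(-½ κ N^{2η}) ≤ C_A N^{-A}`.
(4) Replace `X` by the true product: `D_a^{-1} = D̃_a + E_a`, operator norms `‖E_a‖ ≤ C N^{-A'}` (`nr_fN_le`),
`‖D_a^{-1}‖, ‖D̃_a‖ ≤ C N^{B}` with `B` independent of `A'` (`‖D̃_a‖ ≤ ‖D_a^{-1}‖ + 1`, `lam_inv_bound`); telescoping:
`nr ((∏ D^{-1} - ∏ D̃) coh z) ≤ p C^p N^{(p-1) B - A'}`; take `A'` large. `‖fN 1_off‖ ≤ 1`.
-/

open MeasureTheory Matrix Finset Filter Topology
open scoped ENNReal ComplexConjugate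

namespace MPF

/-- The indicator of the complement of the window `|j - M| ≤ N^η (√M + N^η)`. -/
noncomputable def offw (N : ℕ) (η M : ℝ) (j : ℕ) : ℂ :=
  if |(j : ℝ) - M| ≤ (N : ℝ) ^ η * (Real.sqrt M + (N : ℝ) ^ η) then 0 else 1

/-- Valid lists. -/
private def LV (l : List ((Fin 2 → ℂ) × ℝ)) : Prop :=
  ∀ p ∈ l, nr p.1 = 1 ∧ 0 ≤ p.2 ∧ p.2 ≤ 1

private lemma Loc2_step {K N : ℕ} {m : Fin K → Fin 2 → ℂ} (hm : ∀ i, nr (m i) = 1)
    {c : Fin K → ℂ} {h : Fin K → ℝ → ℂ} (hh : ∀ i, IntegrableOn (h i) (Set.Ioo 0 1)) {g : ℝ}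
    (hcg : ∀ i, ‖c i‖ + ∫ t in Set.Ioo (0 : ℝ) 1, ‖h i t‖ ≤ g) (z : Fin 2 → ℂ)
    (T : Matrix (Fin (N + 1)) (Fin (N + 1)) ℂ) {β : ℝ} (hβ : 0 ≤ β) (r : ℕ) (a : Fin K)
    (hT : ∀ l' : List ((Fin 2 → ℂ) × ℝ), LV l' → l'.length ≤ r + 1 →
      nr (T *ᵥ coh N (cw l' z)) ≤ β) (l' : List ((Fin 2 → ℂ) × ℝ)) (hl' : LV l')
    (hr : l'.length ≤ r) :
    nr ((T * fN N (m a) fun j => c a + ∫ t in Set.Ioo (0 : ℝ) 1, h a t * (t : ℂ) ^ j) *ᵥ
      coh N (cw l' z)) ≤ g * β := by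
  have hI := integrable_fN_pow (N := N) (hm a) (hh a) (coh N (cw l' z))
  rw [← Matrix.mulVec_mulVec, fN_integral (hm a) _ (hh a), Matrix.mulVec_add, Matrix.mulVec_smul,
    mulVec_integral T hI]
  refine (nr_add_le _ _).trans ?_
  have h1 : nr (c a • T *ᵥ coh N (cw l' z)) ≤ ‖c a‖ * β := by
    rw [nr_smul]
    exact mul_le_mul_of_nonneg_left (hT l' hl' (by omega)) (norm_nonneg _)
  have h2 : nr (∫ t in Set.Ioo (0 : ℝ) 1,
      T *ᵥ (h a t • (fN N (m a) (fun j => (t : ℂ) ^ j) *ᵥ coh N (cw l' z)))) ≤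
      (∫ t in Set.Ioo (0 : ℝ) 1, ‖h a t‖) * β := by
    refine (nr_integral_le (integrable_mulVec T hI)).trans ?_
    rw [← integral_mul_const]
    refine setIntegral_mono_on (integrable_nr (integrable_mulVec T hI)) ((hh a).norm.mul_const β)
      measurableSet_Ioo fun t ht => ?_
    rw [Matrix.mulVec_smul, nr_smul, fN_pow_mulVec_coh (hm a)]
    refine mul_le_mul_of_nonneg_left ?_ (norm_nonneg _)
    have h3 := hT ((m a, t) :: l') (by
      intro p hp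
      rcases List.mem_cons.1 hp with h4 | h4
      · rw [h4]
        exact ⟨hm a, ht.1.le, ht.2.le⟩
      · exact hl' p h4) (by
      rw [List.length_cons]
      omega)
    exact h3
  calc nr (c a • T *ᵥ coh N (cw l' z)) + nr (∫ t in Set.Ioo (0 : ℝ) 1,
      T *ᵥ (h a t • (fN N (m a) (fun j => (t : ℂ) ^ j) *ᵥ coh N (cw l' z))))
      ≤ ‖c a‖ * β + (∫ t in Set.Ioo (0 : ℝ) 1, ‖h a t‖) * β := add_le_add h1 h2
    _ = (‖c a‖ + ∫ t in Set.Ioo (0 : ℝ) 1, ‖h a t‖) * β := by ring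
    _ ≤ g * β := mul_le_mul_of_nonneg_right (hcg a) hβ

private lemma Loc2_ind {K N : ℕ} {m : Fin K → Fin 2 → ℂ} (hm : ∀ i, nr (m i) = 1)
    {c : Fin K → ℂ} {h : Fin K → ℝ → ℂ} (hh : ∀ i, IntegrableOn (h i) (Set.Ioo 0 1)) {g : ℝ}
    (hg : 0 ≤ g) (hcg : ∀ i, ‖c i‖ + ∫ t in Set.Ioo (0 : ℝ) 1, ‖h i t‖ ≤ g) (z : Fin 2 → ℂ)
    (l : List (Fin K)) : ∀ (T : Matrix (Fin (N + 1)) (Fin (N + 1)) ℂ) (β : ℝ), 0 ≤ β → ∀ r : ℕ,
      (∀ l' : List ((Fin 2 → ℂ) × ℝ), LV l' → l'.length ≤ r + l.length →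
        nr (T *ᵥ coh N (cw l' z)) ≤ β) → ∀ l' : List ((Fin 2 → ℂ) × ℝ), LV l' → l'.length ≤ r →
        nr (T *ᵥ ((l.map fun i => fN N (m i) fun j =>
          c i + ∫ t in Set.Ioo (0 : ℝ) 1, h i t * (t : ℂ) ^ j).prod *ᵥ coh N (cw l' z))) ≤
          g ^ l.length * β := by
  induction l with
  | nil =>
    intro T β hβ r hT l' hl' hr
    rw [List.map_nil, List.prod_nil, Matrix.one_mulVec, List.length_nil, pow_zero, one_mul]
    exact hT l' hl' (by omega)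
  | cons a l ih =>
    intro T β hβ r hT l' hl' hr
    rw [List.map_cons, List.prod_cons, ← Matrix.mulVec_mulVec, Matrix.mulVec_mulVec (M := T)]
    have h1 := ih (T * fN N (m a) fun j => c a + ∫ t in Set.Ioo (0 : ℝ) 1, h a t * (t : ℂ) ^ j)
      (g * β) (mul_nonneg hg hβ) r (fun l'' hl'' hr'' =>
        Loc2_step hm hh hcg z T hβ (r + l.length) a (fun l3 hl3 hr3 => hT l3 hl3 (by
          rw [List.length_cons]
          omega)) l'' hl'' hr'') l' hl' hr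
    refine h1.trans (le_of_eq ?_)
    rw [List.length_cons]
    ring

private lemma Loc2_diff {K N : ℕ} {D D' : Fin K → Matrix (Fin (N + 1)) (Fin (N + 1)) ℂ}
    {d ε : ℝ} (hd : 1 ≤ d) (hε : 0 ≤ ε) (hD : ∀ i v, nr (D i *ᵥ v) ≤ d * nr v)
    (hD' : ∀ i v, nr (D' i *ᵥ v) ≤ d * nr v) (hDD : ∀ i v, nr ((D i - D' i) *ᵥ v) ≤ ε * nr v)
    (l : List (Fin K)) (v : Fin (N + 1) → ℂ) :
    nr ((l.map D').prod *ᵥ v) ≤ d ^ l.length * nr v ∧
      nr (((l.map D).prod - (l.map D').prod) *ᵥ v) ≤ l.length * d ^ l.length * ε * nr v := by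
  have hd0 : 0 ≤ d := by linarith
  induction l with
  | nil =>
    simp only [List.map_nil, List.prod_nil, Matrix.one_mulVec, List.length_nil, pow_zero, one_mul,
      sub_self, Matrix.zero_mulVec, nr_zero, Nat.cast_zero, zero_mul, le_refl, and_self]
  | cons a l ih =>
    obtain ⟨ih1, ih2⟩ := ih
    have hv := nr_nonneg v
    refine ⟨?_, ?_⟩
    · rw [List.map_cons, List.prod_cons, ← Matrix.mulVec_mulVec, List.length_cons, pow_succ']
      calc nr (D' a *ᵥ ((l.map D').prod *ᵥ v)) ≤ d * nr ((l.map D').prod *ᵥ v) := hD' _ _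
        _ ≤ d * (d ^ l.length * nr v) := mul_le_mul_of_nonneg_left ih1 hd0
        _ = d * d ^ l.length * nr v := by ring
    · have h1 : ((a :: l).map D).prod - ((a :: l).map D').prod =
          D a * ((l.map D).prod - (l.map D').prod) + (D a - D' a) * (l.map D').prod := by
        rw [List.map_cons, List.map_cons, List.prod_cons, List.prod_cons]
        noncomm_ring
      rw [h1, Matrix.add_mulVec, ← Matrix.mulVec_mulVec, ← Matrix.mulVec_mulVec]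
      refine (nr_add_le _ _).trans ?_
      have h2 : nr (D a *ᵥ (((l.map D).prod - (l.map D').prod) *ᵥ v)) ≤
          d * (l.length * d ^ l.length * ε * nr v) :=
        (hD _ _).trans (mul_le_mul_of_nonneg_left ih2 hd0)
      have h3 : nr ((D a - D' a) *ᵥ ((l.map D').prod *ᵥ v)) ≤ ε * (d ^ l.length * nr v) :=
        (hDD _ _).trans (mul_le_mul_of_nonneg_left ih1 hε)
      have h4 : d ^ l.length ≤ d ^ (l.length + 1) := pow_le_pow_right₀ hd (Nat.le_succ _)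
      have h5 : ε * (d ^ l.length * nr v) ≤ ε * (d ^ (l.length + 1) * nr v) :=
        mul_le_mul_of_nonneg_left (mul_le_mul_of_nonneg_right h4 hv) hε
      rw [List.length_cons]
      push_cast
      calc nr (D a *ᵥ (((l.map D).prod - (l.map D').prod) *ᵥ v)) +
          nr ((D a - D' a) *ᵥ ((l.map D').prod *ᵥ v))
          ≤ d * (l.length * d ^ l.length * ε * nr v) + ε * (d ^ (l.length + 1) * nr v) :=
            add_le_add h2 (h3.trans h5)
        _ = ((l.length : ℝ) + 1) * d ^ (l.length + 1) * ε * nr v := by ring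

private lemma Loc2_cher {N : ℕ} {b : Fin 2 → ℂ} (hb : nr b = 1) {η x C θ : ℝ} (hθ : 0 ≤ θ)
    (w : Fin 2 → ℂ)
    (h1 : nr (w + ((((Real.exp θ : ℝ) : ℂ) - 1) * hp b w) • b) ^ 2 ≤
      Real.exp (2 * θ * x + C * θ ^ 2 * x))
    (h2 : nr (w + ((((Real.exp (-θ) : ℝ) : ℂ) - 1) * hp b w) • b) ^ 2 ≤
      Real.exp (2 * (-θ) * x + C * (-θ) ^ 2 * x)) :
    nr (fN N b (offw N η (N * x)) *ᵥ coh N w) ≤
      2 * Real.exp (-(θ * ((N : ℝ) ^ η * (Real.sqrt (N * x) + (N : ℝ) ^ η))) +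
        C / 2 * θ ^ 2 * (N * x)) := by
  set M : ℝ := N * x with hM
  set W : ℝ := (N : ℝ) ^ η * (Real.sqrt M + (N : ℝ) ^ η) with hW
  have key : ∀ τ : ℝ, nr (w + ((((Real.exp τ : ℝ) : ℂ) - 1) * hp b w) • b) ^ 2 ≤
      Real.exp (2 * τ * x + C * τ ^ 2 * x) →
      nr (fN N b (fun j => ((Real.exp τ : ℝ) : ℂ) ^ j) *ᵥ coh N w) ≤
        Real.exp (τ * M + C / 2 * τ ^ 2 * M) := by
    intro τ hτ
    rw [fN_pow_mulVec_coh hb, nr_coh]
    have h3 : nr (w + ((((Real.exp τ : ℝ) : ℂ) - 1) * hp b w) • b) ≤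
        Real.exp (τ * x + C / 2 * τ ^ 2 * x) := by
      refine le_of_sq_le_sq ?_ (Real.exp_pos _).le
      refine hτ.trans (le_of_eq ?_)
      rw [← Real.exp_nat_mul]
      congr 1
      push_cast
      ring
    refine (pow_le_pow_left₀ (nr_nonneg _) h3 N).trans (le_of_eq ?_)
    rw [← Real.exp_nat_mul]
    congr 1
    rw [hM]
    ring
  have k1 := key θ h1
  have k2 := key (-θ) h2
  set a1 : ℝ := Real.exp (-(θ * W) - θ * M) with ha1
  set a2 : ℝ := Real.exp (-(θ * W) + θ * M) with ha2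
  have hmono : nr (fN N b (offw N η M) *ᵥ coh N w) ≤
      nr (fN N b (fun j => ((a1 : ℝ) : ℂ) * ((Real.exp θ : ℝ) : ℂ) ^ j +
        ((a2 : ℝ) : ℂ) * ((Real.exp (-θ) : ℝ) : ℂ) ^ j) *ᵥ coh N w) := by
    refine nr_fN_mono hb (fun j _ => ?_) _
    have h4 : ((a1 : ℝ) : ℂ) * ((Real.exp θ : ℝ) : ℂ) ^ j +
        ((a2 : ℝ) : ℂ) * ((Real.exp (-θ) : ℝ) : ℂ) ^ j =
        ((a1 * Real.exp θ ^ j + a2 * Real.exp (-θ) ^ j : ℝ) : ℂ) := by
      push_cast
      ring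
    have h5 : 0 ≤ a1 * Real.exp θ ^ j := by positivity
    have h6 : 0 ≤ a2 * Real.exp (-θ) ^ j := by positivity
    rw [h4, Complex.norm_real, Real.norm_of_nonneg (add_nonneg h5 h6)]
    unfold offw
    split_ifs with h7
    · rw [norm_zero]
      exact add_nonneg h5 h6
    · rw [norm_one]
      rw [not_le] at h7
      rcases lt_abs.1 h7 with h8 | h8
      · have h9 : 1 ≤ a1 * Real.exp θ ^ j := by
          rw [ha1, ← Real.exp_nat_mul, ← Real.exp_add]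
          refine Real.one_le_exp ?_
          nlinarith [mul_le_mul_of_nonneg_left h8.le hθ]
        linarith
      · have h9 : 1 ≤ a2 * Real.exp (-θ) ^ j := by
          rw [ha2, ← Real.exp_nat_mul, ← Real.exp_add]
          refine Real.one_le_exp ?_
          nlinarith [mul_le_mul_of_nonneg_left h8.le hθ]
        linarith
  refine hmono.trans ?_
  rw [fN_add, fN_smul, fN_smul, Matrix.add_mulVec, Matrix.smul_mulVec, Matrix.smul_mulVec]
  refine (nr_add_le _ _).trans ?_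
  rw [nr_smul, nr_smul, Complex.norm_real, Complex.norm_real,
    Real.norm_of_nonneg (Real.exp_pos _).le, Real.norm_of_nonneg (Real.exp_pos _).le]
  have e1 : a1 * nr (fN N b (fun j => ((Real.exp θ : ℝ) : ℂ) ^ j) *ᵥ coh N w) ≤
      Real.exp (-(θ * W) + C / 2 * θ ^ 2 * M) := by
    refine (mul_le_mul_of_nonneg_left k1 (Real.exp_pos _).le).trans (le_of_eq ?_)
    rw [← Real.exp_add]
    congr 1
    ring
  have e2 : a2 * nr (fN N b (fun j => ((Real.exp (-θ) : ℝ) : ℂ) ^ j) *ᵥ coh N w) ≤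
      Real.exp (-(θ * W) + C / 2 * θ ^ 2 * M) := by
    refine (mul_le_mul_of_nonneg_left k2 (Real.exp_pos _).le).trans (le_of_eq ?_)
    rw [← Real.exp_add]
    congr 1
    ring
  linarith

private lemma Loc2_calc {κ η : ℝ} (hκ : 0 < κ) (hη : 0 < η) (A : ℝ) : ∃ C : ℝ, 0 < C ∧
    ∀ N : ℕ, 1 ≤ N → Real.exp (-(κ / 2 * ((N : ℝ) ^ η * (N : ℝ) ^ η))) ≤ C * (N : ℝ) ^ (-A) := by
  obtain ⟨n, hn⟩ := exists_nat_ge (A / (2 * η))
  refine ⟨(n.factorial : ℝ) / (κ / 2) ^ n, by positivity, fun N hN => ?_⟩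
  have hN1 : (1 : ℝ) ≤ N := by exact_mod_cast hN
  have hN0 : (0 : ℝ) < N := by linarith
  have hy : 0 < κ / 2 * ((N : ℝ) ^ η * (N : ℝ) ^ η) := by positivity
  have h1 := Real.pow_div_factorial_le_exp _ hy.le n
  have h2 : (κ / 2 * ((N : ℝ) ^ η * (N : ℝ) ^ η)) ^ n = (κ / 2) ^ n * (N : ℝ) ^ (2 * η * n) := by
    rw [mul_pow, ← Real.rpow_add hN0, ← Real.rpow_natCast ((N : ℝ) ^ (η + η)), ← Real.rpow_mul hN0.le]
    congr 2
    ring
  have hA : A ≤ 2 * η * n := by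
    rw [div_le_iff₀ (by positivity)] at hn
    linarith
  have h3 : (N : ℝ) ^ (-(2 * η * n)) ≤ (N : ℝ) ^ (-A) :=
    Real.rpow_le_rpow_of_exponent_le hN1 (by linarith)
  rw [h2] at h1
  have hp : 0 < (κ / 2) ^ n * (N : ℝ) ^ (2 * η * n) := by positivity
  have hf : (0 : ℝ) < n.factorial := by positivity
  calc Real.exp (-(κ / 2 * ((N : ℝ) ^ η * (N : ℝ) ^ η)))
      = (Real.exp (κ / 2 * ((N : ℝ) ^ η * (N : ℝ) ^ η)))⁻¹ := Real.exp_neg _
    _ ≤ ((κ / 2) ^ n * (N : ℝ) ^ (2 * η * n) / n.factorial)⁻¹ :=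
        inv_anti₀ (by positivity) h1
    _ = n.factorial / (κ / 2) ^ n * (N : ℝ) ^ (-(2 * η * n)) := by
        rw [Real.rpow_neg hN0.le]
        field_simp
    _ ≤ n.factorial / (κ / 2) ^ n * (N : ℝ) ^ (-A) :=
        mul_le_mul_of_nonneg_left h3 (by positivity)

private lemma Loc2_coh (p : ℕ) {η : ℝ} (hη : 0 < η) (A : ℝ) : ∃ C : ℝ, 0 < C ∧
    ∀ N : ℕ, 1 ≤ N → ∀ z b : Fin 2 → ℂ, nr z = 1 → nr b = 1 →
    ∀ l' : List ((Fin 2 → ℂ) × ℝ), LV l' → l'.length ≤ p →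
      nr (fN N b (offw N η (N * xx b z)) *ᵥ coh N (cw l' z)) ≤ C * (N : ℝ) ^ (-A) := by
  obtain ⟨C, c, hC, hc, hl1⟩ := loc1 p
  set κ : ℝ := min c (1 / C) with hκ
  have hκ0 : 0 < κ := lt_min hc (by positivity)
  have hκc : κ ≤ c := min_le_left _ _
  have hκC : C * κ ≤ 1 := by
    have : κ ≤ 1 / C := min_le_right _ _
    rw [le_div_iff₀ hC] at this
    linarith
  obtain ⟨C2, hC2, h2⟩ := Loc2_calc hκ0 hη A
  refine ⟨2 * C2, by positivity, fun N hN z b hz hb l' hl' hlp => ?_⟩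
  have hN1 : (1 : ℝ) ≤ N := by exact_mod_cast hN
  have hN0 : (0 : ℝ) < N := by linarith
  set q : ℝ := (N : ℝ) ^ η with hq
  have hq0 : 0 < q := by positivity
  set M : ℝ := N * xx b z with hM
  have hM0 : 0 ≤ M := by
    rw [hM]
    unfold xx
    positivity
  set S : ℝ := Real.sqrt M with hS
  have hS0 : 0 ≤ S := Real.sqrt_nonneg _
  have hSM : S ^ 2 = M := Real.sq_sqrt hM0
  have hSq : 0 < S + q := by linarith
  set θ : ℝ := κ * q / (S + q) with hθ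
  have hθ0 : 0 ≤ θ := by positivity
  have hθκ : θ ≤ κ := by
    rw [hθ, div_le_iff₀ hSq]
    nlinarith
  have hθW : θ * (q * (S + q)) = κ * (q * q) := by
    rw [hθ]
    field_simp
  have hθS : θ * S ≤ κ * q := by
    rw [hθ, div_mul_eq_mul_div, div_le_iff₀ hSq]
    nlinarith [mul_pos hκ0 hq0, mul_nonneg (mul_pos hκ0 hq0).le hq0.le]
  have hθM : C / 2 * θ ^ 2 * M ≤ κ / 2 * (q * q) := by
    have h3 : θ ^ 2 * M ≤ (κ * q) ^ 2 := by
      rw [← hSM, ← mul_pow]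
      exact pow_le_pow_left₀ (mul_nonneg hθ0 hS0) hθS 2
    have h4 : C / 2 * (θ ^ 2 * M) ≤ C / 2 * (κ * q) ^ 2 :=
      mul_le_mul_of_nonneg_left h3 (by positivity)
    have h5 : C / 2 * (κ * q) ^ 2 = C * κ * (κ / 2 * (q * q)) := by ring
    have h6 : C * κ * (κ / 2 * (q * q)) ≤ 1 * (κ / 2 * (q * q)) :=
      mul_le_mul_of_nonneg_right hκC (by positivity)
    linarith
  have h7 := Loc2_cher (N := N) (η := η) (x := xx b z) (C := C) hb hθ0 (cw l' z)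
    (hl1 l' hlp hl' z b hz hb θ (by rw [abs_of_nonneg hθ0]; linarith))
    (hl1 l' hlp hl' z b hz hb (-θ) (by rw [abs_neg, abs_of_nonneg hθ0]; linarith))
  rw [← hM, ← hq, ← hS, hθW] at h7
  refine h7.trans ?_
  have h8 : Real.exp (-(κ * (q * q)) + C / 2 * θ ^ 2 * M) ≤ Real.exp (-(κ / 2 * (q * q))) := by
    refine Real.exp_le_exp.2 ?_
    linarith
  have h9 := h2 N hN
  rw [← hq] at h9
  linarith

theorem loc2 {K : ℕ} (m : Fin K → Fin 2 → ℂ) (hm : ∀ i, nr (m i) = 1) (s : Fin K → ℂ)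
    (hs : ∀ i, -1 < (s i).re) (l : List (Fin K)) (b : Fin K) {η : ℝ} (hη : 0 < η) (A : ℝ) :
    ∃ C : ℝ, 0 < C ∧ ∀ N : ℕ, 1 ≤ N → ∀ z : Fin 2 → ℂ, nr z = 1 →
      nr (fN N (m b) (offw N η (N * xx (m b) z)) *ᵥ
        ((l.map fun i => fN N (m i) fun j => (lam N (s i) j)⁻¹).prod *ᵥ coh N z)) ≤
        C * (N : ℝ) ^ (-A) := by
  set p := l.length with hp
  choose Cf Bf hCf hBf hf using fun i => lam_inv_bound (hs i)
  set C0 : ℝ := ∑ i, Cf i with hC0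
  set B0 : ℝ := ∑ i, Bf i with hB0
  have hCle : ∀ i, Cf i ≤ C0 := fun i =>
    Finset.single_le_sum (fun j _ => (hCf j).le) (Finset.mem_univ i)
  have hBle : ∀ i, Bf i ≤ B0 := fun i =>
    Finset.single_le_sum (fun j _ => (hBf j).le) (Finset.mem_univ i)
  have hC0' : 0 < C0 := lt_of_lt_of_le (hCf b) (hCle b)
  have hB0' : 0 < B0 := lt_of_lt_of_le (hBf b) (hBle b)
  set A' : ℝ := |A| + p * B0 with hA'
  have hA'0 : 0 ≤ A' := by positivity
  choose Cg Bg hCg hBg hg using fun i => beta_rep (hs i) A'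
  set C1 : ℝ := ∑ i, Cg i with hC1
  set B1 : ℝ := ∑ i, Bg i with hB1
  have hCgle : ∀ i, Cg i ≤ C1 := fun i =>
    Finset.single_le_sum (fun j _ => (hCg j).le) (Finset.mem_univ i)
  have hBgle : ∀ i, Bg i ≤ B1 := fun i =>
    Finset.single_le_sum (fun j _ => (hBg j).le) (Finset.mem_univ i)
  have hC1' : 0 < C1 := lt_of_lt_of_le (hCg b) (hCgle b)
  have hB1' : 0 < B1 := lt_of_lt_of_le (hBg b) (hBgle b)
  obtain ⟨C2, hC2, h2⟩ := Loc2_coh p hη (|A| + p * B1)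
  refine ⟨C1 ^ p * C2 + p * (C0 + C1 + 1) ^ p * C1 + 1, by positivity, fun N hN z hz => ?_⟩
  have hN1 : (1 : ℝ) ≤ N := by exact_mod_cast hN
  have hN0 : (0 : ℝ) < N := by linarith
  choose c h hh hcg hcerr using fun i => hg i N hN
  set T := fN N (m b) (offw N η (N * xx (m b) z)) with hT
  set D : Fin K → Matrix (Fin (N + 1)) (Fin (N + 1)) ℂ :=
    fun i => fN N (m i) fun j => (lam N (s i) j)⁻¹ with hD
  set D' : Fin K → Matrix (Fin (N + 1)) (Fin (N + 1)) ℂ :=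
    fun i => fN N (m i) fun j => c i + ∫ t in Set.Ioo (0 : ℝ) 1, h i t * (t : ℂ) ^ j with hD'
  set ε : ℝ := C1 * (N : ℝ) ^ (-A') with hε
  have hε0 : 0 ≤ ε := by positivity
  set d : ℝ := (C0 + C1 + 1) * (N : ℝ) ^ B0 with hd
  have hNB : 1 ≤ (N : ℝ) ^ B0 := Real.one_le_rpow hN1 hB0'.le
  have hd1 : 1 ≤ d := by
    rw [hd]
    nlinarith
  have hεC : ε ≤ C1 := by
    have : (N : ℝ) ^ (-A') ≤ 1 := Real.rpow_le_one_of_one_le_of_nonpos hN1 (by linarith)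
    rw [hε]
    nlinarith
  have hlam : ∀ i j, j ≤ N → ‖(lam N (s i) j)⁻¹‖ ≤ C0 * (N : ℝ) ^ B0 := by
    intro i j hj
    refine (hf i N hN j hj).trans ?_
    exact mul_le_mul (hCle i) (Real.rpow_le_rpow_of_exponent_le hN1 (hBle i)) (by positivity)
      hC0'.le
  have herr : ∀ i j, j ≤ N → ‖(lam N (s i) j)⁻¹ -
      (c i + ∫ t in Set.Ioo (0 : ℝ) 1, h i t * (t : ℂ) ^ j)‖ ≤ ε := by
    intro i j hj
    refine (hcerr i j hj).trans ?_
    exact mul_le_mul_of_nonneg_right (hCgle i) (by positivity)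
  have hDn : ∀ i v, nr (D i *ᵥ v) ≤ d * nr v := by
    intro i v
    refine nr_fN_le (hm i) (fun j hj => (hlam i j hj).trans ?_) v
    rw [hd]
    nlinarith
  have hD'n : ∀ i v, nr (D' i *ᵥ v) ≤ d * nr v := by
    intro i v
    refine nr_fN_le (hm i) (fun j hj => ?_) v
    have h3 : c i + ∫ t in Set.Ioo (0 : ℝ) 1, h i t * (t : ℂ) ^ j =
        (lam N (s i) j)⁻¹ - ((lam N (s i) j)⁻¹ -
          (c i + ∫ t in Set.Ioo (0 : ℝ) 1, h i t * (t : ℂ) ^ j)) := by ring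
    rw [h3]
    refine (norm_sub_le _ _).trans ?_
    have h4 := hlam i j hj
    have h5 := herr i j hj
    rw [hd]
    nlinarith
  have hDD : ∀ i v, nr ((D i - D' i) *ᵥ v) ≤ ε * nr v := by
    intro i v
    rw [hD, hD']
    change nr ((fN N (m i) (fun j => (lam N (s i) j)⁻¹) -
      fN N (m i) (fun j => c i + ∫ t in Set.Ioo (0 : ℝ) 1, h i t * (t : ℂ) ^ j)) *ᵥ v) ≤ ε * nr v
    rw [← fN_sub]
    exact nr_fN_le (hm i) (fun j hj => herr i j hj) v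
  have hcoh : nr (coh N z) = 1 := by rw [nr_coh, hz, one_pow]
  obtain ⟨_, hdiff⟩ := Loc2_diff hd1 hε0 hDn hD'n hDD l (coh N z)
  rw [hcoh, mul_one, ← hp] at hdiff
  have hTn : ∀ v, nr (T *ᵥ v) ≤ nr v := by
    intro v
    have h3 := nr_fN_le (N := N) (φ := offw N η (N * xx (m b) z)) (C := 1) (hm b) (fun j _ => by
      unfold offw
      split_ifs <;> simp) v
    rwa [one_mul] at h3
  have hind := Loc2_ind hm hh (g := C1 * (N : ℝ) ^ B1) (by positivity) (fun i => by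
      refine (hcg i).trans ?_
      exact mul_le_mul (hCgle i) (Real.rpow_le_rpow_of_exponent_le hN1 (hBgle i)) (by positivity)
        hC1'.le) z l T (C2 * (N : ℝ) ^ (-(|A| + p * B1))) (by positivity) 0
    (fun l' hl' hr => h2 N hN z (m b) hz (hm b) l' hl' (by omega)) [] (by
      intro q hq
      exact absurd hq List.not_mem_nil) (Nat.le_refl 0)
  have hcw : cw [] z = z := rfl
  rw [hcw, ← hp] at hind
  have hsplit : T *ᵥ ((l.map D).prod *ᵥ coh N z) =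
      T *ᵥ ((l.map D').prod *ᵥ coh N z) +
        T *ᵥ (((l.map D).prod - (l.map D').prod) *ᵥ coh N z) := by
    rw [← Matrix.mulVec_add, Matrix.sub_mulVec]
    congr 1
    abel
  rw [hsplit]
  refine (nr_add_le _ _).trans ((add_le_add hind ((hTn _).trans hdiff)).trans ?_)
  have hNA : (N : ℝ) ^ (-|A|) ≤ (N : ℝ) ^ (-A) :=
    Real.rpow_le_rpow_of_exponent_le hN1 (neg_le_neg (le_abs_self A))
  have e1 : (C1 * (N : ℝ) ^ B1) ^ p * (C2 * (N : ℝ) ^ (-(|A| + p * B1))) =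
      C1 ^ p * C2 * (N : ℝ) ^ (-|A|) := by
    have h3 : ((N : ℝ) ^ B1) ^ p * (N : ℝ) ^ (-(|A| + p * B1)) = (N : ℝ) ^ (-|A|) := by
      rw [← Real.rpow_natCast ((N : ℝ) ^ B1), ← Real.rpow_mul hN0.le, ← Real.rpow_add hN0]
      congr 1
      ring
    calc (C1 * (N : ℝ) ^ B1) ^ p * (C2 * (N : ℝ) ^ (-(|A| + p * B1)))
        = C1 ^ p * C2 * (((N : ℝ) ^ B1) ^ p * (N : ℝ) ^ (-(|A| + p * B1))) := by
          rw [mul_pow]
          ring
      _ = _ := by rw [h3]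
  have e2 : (p : ℝ) * d ^ p * ε = p * (C0 + C1 + 1) ^ p * C1 * (N : ℝ) ^ (-|A|) := by
    have h3 : ((N : ℝ) ^ B0) ^ p * (N : ℝ) ^ (-A') = (N : ℝ) ^ (-|A|) := by
      rw [← Real.rpow_natCast ((N : ℝ) ^ B0), ← Real.rpow_mul hN0.le, ← Real.rpow_add hN0]
      congr 1
      rw [hA']
      ring
    calc (p : ℝ) * d ^ p * ε
        = p * (C0 + C1 + 1) ^ p * C1 * (((N : ℝ) ^ B0) ^ p * (N : ℝ) ^ (-A')) := by
          rw [hd, hε, mul_pow]
          ring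
      _ = _ := by rw [h3]
  rw [e1, e2]
  have e3 : 0 ≤ (N : ℝ) ^ (-A) := by positivity
  have e4 : 0 ≤ C1 ^ p * C2 + p * (C0 + C1 + 1) ^ p * C1 := by positivity
  nlinarith [mul_le_mul_of_nonneg_left hNA e4]

end MPF
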