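import Pool.Agent.MPF.NumOp
import Pool.Agent.MPF.SphM

/-!
# MPF/PairE: exact second moments of number operators on coherent vectors

PROOF. For `t, τ ∈ ℝ` (or ℂ): `hp (coh z) (fN m (t^j) (fN m' (τ^j) coh z)) = g(t,τ)^N`,
`g(t,τ) = hp z (A_t A'_τ z)`, `A_t v = v + ((t-1) hp m v) • m` (`fN_pow_mulVec_coh` twice, `hp_coh`), so
`g = 1 + (t-1) x + (τ-1) x' + (t-1)(τ-1) p`, `x = xx m z`, `x' = xx m' z`, `p = hp z m * hp m m' * hp m' z`.
Both sides are polynomials in `t`, `τ`. Applying `∂_t ∂_τ` at `(1,1)`: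
`⟨N_m N_{m'}⟩ = N(N-1) x x' + N p`, and `⟨N_m⟩ = N x`, `⟨N_{m'}⟩ = N x'`; subtract the means.
(`fN` is linear in the function: `fN N m (t^j)` is differentiable in `t` entrywise with derivative
`fN N m (j t^{j-1})`.) `var_exact`: the same with `m' = m`: `p = x`: variance `N x (1 - x)`; note
`nr (fN φ v)^2 = hp (fN φ v) (fN φ v) = hp v (fN (|φ|²) v)` for real `φ`.
-/

open MeasureTheory Matrix Finset Filter Topology
open scoped ENNReal ComplexConjugate

namespace MPF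

private theorem PairE_zero (N : ℕ) (m : Fin 2 → ℂ) : fN N m (fun _ => 0) = 0 := by
  unfold fN
  have h : diagonal (fun _ : Fin (N + 1) => (0 : ℂ)) = 0 := Matrix.diagonal_zero
  rw [h, Matrix.mul_zero, Matrix.zero_mul]

private theorem PairE_sum (N : ℕ) (m : Fin 2 → ℂ) (s : Finset ℕ) (f : ℕ → ℕ → ℂ) :
    fN N m (fun i => ∑ j ∈ s, f j i) = ∑ j ∈ s, fN N m (f j) := by
  classical
  induction s using Finset.induction_on with
  | empty => simpa using PairE_zero N m
  | insert a s ha ih =>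
    rw [Finset.sum_insert ha, ← ih, ← fN_add]
    congr 1
    funext i
    rw [Finset.sum_insert ha]

private theorem PairE_lin (N : ℕ) (m : Fin 2 → ℂ) (φ : ℕ → ℂ) :
    fN N m φ = ∑ j ∈ range (N + 1), φ j • fN N m (fun i => if i = j then 1 else 0) := by
  have h1 : fN N m φ = fN N m (fun i => ∑ j ∈ range (N + 1), φ j * (if i = j then 1 else 0)) := by
    refine fN_congr fun i hi => ?_
    rw [Finset.sum_eq_single i]
    · simp
    · intro j _ hj
      rw [if_neg (Ne.symm hj), mul_zero]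
    · intro h
      exact absurd (Finset.mem_range.2 (by omega)) h
  rw [h1, PairE_sum N m (range (N + 1)) (fun j i => φ j * (if i = j then 1 else 0))]
  refine Finset.sum_congr rfl fun j _ => ?_
  exact fN_smul (φ j) _

private theorem PairE_hp_sum {ι : Type*} [Fintype ι] (v : ι → ℂ) (s : Finset ℕ) (f : ℕ → ι → ℂ) :
    hp v (∑ j ∈ s, f j) = ∑ j ∈ s, hp v (f j) := by
  classical
  induction s using Finset.induction_on with
  | empty => simp [hp]
  | insert a s ha ih => rw [Finset.sum_insert ha, Finset.sum_insert ha, hp_add_right, ih]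

private theorem PairE_bil (N : ℕ) (m m' : Fin 2 → ℂ) (v w : Fin (N + 1) → ℂ) (φ ψ : ℕ → ℂ) :
    hp v (fN N m φ *ᵥ (fN N m' ψ *ᵥ w)) = ∑ j ∈ range (N + 1), φ j * ∑ k ∈ range (N + 1), ψ k *
      hp v (fN N m (fun i => if i = j then 1 else 0) *ᵥ
        (fN N m' (fun i => if i = k then 1 else 0) *ᵥ w)) := by
  have h1 : ∀ u : Fin (N + 1) → ℂ, hp v (fN N m φ *ᵥ u) = ∑ j ∈ range (N + 1), φ j *
      hp v (fN N m (fun i => if i = j then 1 else 0) *ᵥ u) := by
    intro u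
    rw [PairE_lin N m φ, Matrix.sum_mulVec, PairE_hp_sum]
    refine Finset.sum_congr rfl fun j _ => ?_
    rw [Matrix.smul_mulVec, hp_smul_right]
  rw [h1]
  refine Finset.sum_congr rfl fun j _ => ?_
  congr 1
  rw [PairE_lin N m' ψ, Matrix.sum_mulVec, Matrix.mulVec_sum, PairE_hp_sum]
  refine Finset.sum_congr rfl fun k _ => ?_
  rw [Matrix.smul_mulVec, Matrix.mulVec_smul, hp_smul_right]

private theorem PairE_D (N : ℕ) (c : ℕ → ℂ) (G : ℂ → ℂ) (G' : ℂ)
    (h : ∀ t, ∑ j ∈ range (N + 1), t ^ j * c j = G t) (hG : HasDerivAt G G' 1) :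
    ∑ j ∈ range (N + 1), (j : ℂ) * c j = G' := by
  have h1 : HasDerivAt (fun t : ℂ => ∑ j ∈ range (N + 1), t ^ j * c j)
      (∑ j ∈ range (N + 1), (j : ℂ) * c j) 1 := by
    refine HasDerivAt.fun_sum fun j _ => ?_
    have h2 := (hasDerivAt_pow j (1 : ℂ)).mul_const (c j)
    simpa using h2
  have h2 : (fun t : ℂ => ∑ j ∈ range (N + 1), t ^ j * c j) = G := funext h
  rw [h2] at h1
  exact h1.unique hG

private theorem PairE_dpow (N : ℕ) (b c : ℂ) : HasDerivAt (fun t : ℂ => (b + (t - 1) * c) ^ N)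
    ((N : ℂ) * b ^ (N - 1) * c) 1 := by
  have h1 : HasDerivAt (fun t : ℂ => b + (t - 1) * c) c 1 := by
    have h2 := (((hasDerivAt_id (1 : ℂ)).sub_const 1).mul_const c).const_add b
    simpa using h2
  have h3 := h1.fun_pow N
  simpa using h3

private theorem PairE_x (m z : Fin 2 → ℂ) : hp m z * hp z m = (xx m z : ℂ) := by
  unfold xx
  rw [← conj_hp m z, Complex.mul_conj, Complex.normSq_eq_norm_sq]

private theorem PairE_g (N : ℕ) {m m' z : Fin 2 → ℂ} (hm : nr m = 1) (hm' : nr m' = 1)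
    (hz : nr z = 1) (t τ : ℂ) :
    hp (coh N z) (fN N m (fun j => t ^ j) *ᵥ (fN N m' (fun j => τ ^ j) *ᵥ coh N z)) =
      (1 + (τ - 1) * (xx m' z : ℂ) + (t - 1) * ((xx m z : ℂ) + (τ - 1) *
        (hp z m * hp m m' * hp m' z))) ^ N := by
  rw [fN_pow_mulVec_coh hm', fN_pow_mulVec_coh hm, hp_coh]
  congr 1
  have h1 : hp z z = 1 := by
    rw [hp_self, ← nr_sq, hz]
    norm_num
  rw [hp_add_right, hp_smul_right, hp_add_right, hp_smul_right, hp_add_right, hp_smul_right, h1,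
    ← PairE_x m z, ← PairE_x m' z]
  ring

private theorem PairE_alg (N : ℕ) (C : ℕ → ℕ → ℂ) (x y p : ℂ)
    (h : ∀ t τ : ℂ, ∑ j ∈ range (N + 1), t ^ j * ∑ k ∈ range (N + 1), τ ^ k * C j k =
      (1 + (τ - 1) * y + (t - 1) * (x + (τ - 1) * p)) ^ N) :
    ∑ j ∈ range (N + 1), ((j : ℂ) - N * x) * ∑ k ∈ range (N + 1), ((k : ℂ) - N * y) * C j k =
      (N : ℂ) * (p - x * y) := by
  have a0 : ∑ j ∈ range (N + 1), ∑ k ∈ range (N + 1), C j k = 1 := by
    have := h 1 1
    simpa using this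
  have a1 : ∑ j ∈ range (N + 1), (j : ℂ) * ∑ k ∈ range (N + 1), C j k = N * x := by
    have h1 := PairE_D N (fun j => ∑ k ∈ range (N + 1), C j k)
      (fun t => (1 + (t - 1) * x) ^ N) _ (fun t => ?_) (PairE_dpow N 1 x)
    · simpa using h1
    · have := h t 1
      simpa using this
  have a2 : ∑ k ∈ range (N + 1), (k : ℂ) * ∑ j ∈ range (N + 1), C j k = N * y := by
    have h1 := PairE_D N (fun k => ∑ j ∈ range (N + 1), C j k)
      (fun t => (1 + (t - 1) * y) ^ N) _ (fun t => ?_) (PairE_dpow N 1 y)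
    · simpa using h1
    · have h2 := h 1 t
      simp only [one_pow, one_mul, sub_self, zero_mul, add_zero] at h2
      rw [← h2]
      simp only [Finset.mul_sum]
      exact Finset.sum_comm
  have a3 : ∀ τ : ℂ, ∑ j ∈ range (N + 1), (j : ℂ) * ∑ k ∈ range (N + 1), τ ^ k * C j k =
      (N : ℂ) * (1 + (τ - 1) * y) ^ (N - 1) * (x + (τ - 1) * p) := by
    intro τ
    exact PairE_D N (fun j => ∑ k ∈ range (N + 1), τ ^ k * C j k)
      (fun t => (1 + (τ - 1) * y + (t - 1) * (x + (τ - 1) * p)) ^ N) _ (fun t => h t τ)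
      (PairE_dpow N _ _)
  have a4 : ∑ k ∈ range (N + 1), (k : ℂ) * ∑ j ∈ range (N + 1), (j : ℂ) * C j k =
      (N : ℂ) * (N - 1) * x * y + N * p := by
    have h1 : HasDerivAt (fun τ : ℂ => (N : ℂ) * (1 + (τ - 1) * y) ^ (N - 1) * (x + (τ - 1) * p))
        ((N : ℂ) * (((N - 1 : ℕ) : ℂ) * y) * x + N * p) 1 := by
      have h2 := (PairE_dpow (N - 1) 1 y).const_mul (N : ℂ)
      have h3 := PairE_dpow 1 x p
      have h4 := h2.mul h3
      simp only [pow_one, one_pow, mul_one, Nat.cast_one, one_mul, Nat.sub_self, pow_zero,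
        sub_self, zero_mul, add_zero] at h4
      exact h4
    have h5 := PairE_D N (fun k => ∑ j ∈ range (N + 1), (j : ℂ) * C j k) _ _ (fun t => ?_) h1
    · rw [h5]
      rcases Nat.eq_zero_or_pos N with h0 | h0
      · subst h0; simp
      · rw [Nat.cast_sub h0]
        push_cast
        ring
    · rw [← a3 t]
      simp only [Finset.mul_sum]
      rw [Finset.sum_comm]
      refine Finset.sum_congr rfl fun j _ => Finset.sum_congr rfl fun k _ => ?_
      ring
  have b4 : ∑ j ∈ range (N + 1), ∑ k ∈ range (N + 1), (j : ℂ) * (k : ℂ) * C j k =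
      (N : ℂ) * (N - 1) * x * y + N * p := by
    rw [← a4]
    simp only [Finset.mul_sum]
    rw [Finset.sum_comm]
    refine Finset.sum_congr rfl fun j _ => Finset.sum_congr rfl fun k _ => ?_
    ring
  have b2 : ∑ j ∈ range (N + 1), ∑ k ∈ range (N + 1), (k : ℂ) * C j k = N * y := by
    rw [← a2]
    simp only [Finset.mul_sum]
    rw [Finset.sum_comm]
  have b1 : ∑ j ∈ range (N + 1), ∑ k ∈ range (N + 1), (j : ℂ) * C j k = N * x := by
    rw [← a1]
    simp only [Finset.mul_sum]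
  have e : ∑ j ∈ range (N + 1), ((j : ℂ) - N * x) * ∑ k ∈ range (N + 1), ((k : ℂ) - N * y) * C j k =
      ∑ j ∈ range (N + 1), ∑ k ∈ range (N + 1), (j : ℂ) * (k : ℂ) * C j k -
      (N * x) * ∑ j ∈ range (N + 1), ∑ k ∈ range (N + 1), (k : ℂ) * C j k -
      (N * y) * ∑ j ∈ range (N + 1), ∑ k ∈ range (N + 1), (j : ℂ) * C j k +
      (N * x) * (N * y) * ∑ j ∈ range (N + 1), ∑ k ∈ range (N + 1), C j k := by
    simp only [Finset.mul_sum, ← Finset.sum_sub_distrib, ← Finset.sum_add_distrib]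
    refine Finset.sum_congr rfl fun j _ => Finset.sum_congr rfl fun k _ => ?_
    ring
  rw [e, a0, b1, b2, b4]
  ring

theorem pair_exact (N : ℕ) {m m' z : Fin 2 → ℂ} (hm : nr m = 1) (hm' : nr m' = 1)
    (hz : nr z = 1) :
    hp (coh N z) (fN N m (fun j => (j : ℂ) - ((N * xx m z : ℝ) : ℂ)) *ᵥ
      (fN N m' (fun j => (j : ℂ) - ((N * xx m' z : ℝ) : ℂ)) *ᵥ coh N z)) =
      (N : ℂ) * (hp z m * hp m m' * hp m' z - (xx m z : ℂ) * (xx m' z : ℂ)) := by
  rw [PairE_bil]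
  have h := PairE_alg N (fun j k => hp (coh N z) (fN N m (fun i => if i = j then 1 else 0) *ᵥ
        (fN N m' (fun i => if i = k then 1 else 0) *ᵥ coh N z))) (xx m z : ℂ) (xx m' z : ℂ)
        (hp z m * hp m m' * hp m' z) (fun t τ => ?_)
  · rw [← h]
    push_cast
    rfl
  · rw [← PairE_g N hm hm' hz t τ, PairE_bil]

theorem var_exact (N : ℕ) {m z : Fin 2 → ℂ} (hm : nr m = 1) (hz : nr z = 1) :
    nr (fN N m (fun j => (j : ℂ) - ((N * xx m z : ℝ) : ℂ)) *ᵥ coh N z) ^ 2 =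
      N * xx m z * (1 - xx m z) := by
  have h1 : ((nr (fN N m (fun j => (j : ℂ) - ((N * xx m z : ℝ) : ℂ)) *ᵥ coh N z) ^ 2 : ℝ) : ℂ) =
      hp (coh N z) (fN N m (fun j => (j : ℂ) - ((N * xx m z : ℝ) : ℂ)) *ᵥ
      (fN N m (fun j => (j : ℂ) - ((N * xx m z : ℝ) : ℂ)) *ᵥ coh N z)) := by
    rw [hp_mulVec, fN_conjTranspose, nr_sq, ← hp_self]
    congr 3
    funext j
    rw [map_sub, Complex.conj_natCast, Complex.conj_ofReal]
  have hmm : hp m m = 1 := by
    rw [hp_self, ← nr_sq, hm]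
    norm_num
  rw [pair_exact N hm hm hz, hmm, mul_one, mul_comm (hp z m), PairE_x] at h1
  have h2 : (((N : ℝ) * xx m z * (1 - xx m z) : ℝ) : ℂ) =
      (N : ℂ) * ((xx m z : ℂ) - (xx m z : ℂ) * (xx m z : ℂ)) := by
    push_cast
    ring
  rw [← h2] at h1
  exact_mod_cast h1

end MPF
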