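import Pool.Agent.MPF.Coh
import Pool.Agent.MPF.SphM

/-!
# MPF/TraceInt: the integral of `⟨m,m'⟩ / (⟨m,z⟩ ⟨z,m'⟩)` over the sphere

PROOF. Integrability: `|⟨m,z⟩|^{-1} |⟨m',z⟩|^{-1} ≤ C (|⟨m,z⟩|^{-1} + |⟨m',z⟩|^{-1})` by `xx_add_ge`
(`|⟨m,m'⟩| < 1`), and `∫ xx^{-1/2} = ∫_0^1 x^{-1/2} dx < ∞` (`lintegral_xx`).
Value: by unitary invariance (`measurePreserving_sph`, `U = gm m'`) we may take `m' = e₀`,
`m = (a, b)`, `|a|² + |b|² = 1`, `a = ⟨e₀, m⟩`: the integrand is
`conj a / ((conj a z₀ + conj b z₁) conj z₀)`. Invariance under `z ↦ (z₀, e^{iφ} z₁)` and averaging over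
`φ ∈ [0,2π]` (Fubini; integrable on the product): the average over `φ` of `1/(u + v e^{iφ})` is `1/u` if `|u| > |v|` and
`0` if `|u| < |v|` (circle integral, `|u| = |v|` only on a null set, as `{|a|²x = |b|²(1-x)}` is a single
value of `x = |z₀|²`). So the integral is `∫_{|a|² x > |b|² (1-x)} x^{-1} dx = ∫_{x > |b|²} dx/x = -log |b|²
= -log (1 - |a|²)` (`map_xx`), also for `a = 0`. (If `b = 0` is excluded by the hypothesis.)
-/

open MeasureTheory Matrix Finset Filter Topology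
open scoped ENNReal ComplexConjugate

namespace MPF

private lemma TraceInt_measurable_hp_right (m : Fin 2 → ℂ) : Measurable fun z => hp m z :=
  (continuous_hp.comp (continuous_const.prodMk continuous_id)).measurable

private lemma TraceInt_measurable_hp_left (m : Fin 2 → ℂ) : Measurable fun z => hp z m :=
  (continuous_hp.comp (continuous_id.prodMk continuous_const)).measurable

private lemma TraceInt_integrable_rpow {m : Fin 2 → ℂ} (hm : nr m = 1) :
    Integrable (fun z => (xx m z) ^ (-(1 / 2) : ℝ)) sph := by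
  have h1 : IntegrableOn (fun x : ℝ => x ^ (-(1 / 2) : ℝ)) (Set.Ioc 0 1) volume := by
    rw [← intervalIntegrable_iff_integrableOn_Ioc_of_le zero_le_one]
    exact intervalIntegral.intervalIntegrable_rpow' (by norm_num)
  have h2 : Integrable (fun x : ℝ => x ^ (-(1 / 2) : ℝ)) (sph.map (xx m)) := by
    rw [map_xx hm]
    exact h1
  exact h2.comp_measurable (measurable_xx m)

theorem integrable_cross {m m' : Fin 2 → ℂ} (hm : nr m = 1) (hm' : nr m' = 1)
    (hne : ‖hp m m'‖ < 1) : Integrable (fun z => hp m m' / (hp m z * hp z m')) sph := by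
  obtain ⟨δ, hδ⟩ : ∃ δ : ℝ, δ = (1 - ‖hp m m'‖) / 2 := ⟨_, rfl⟩
  have hδ0 : 0 < δ := by rw [hδ]; linarith
  have hB : Integrable (fun z => δ ^ (-(1 / 2) : ℝ) *
      ((xx m z) ^ (-(1 / 2) : ℝ) + (xx m' z) ^ (-(1 / 2) : ℝ))) sph :=
    ((TraceInt_integrable_rpow hm).add (TraceInt_integrable_rpow hm')).const_mul _
  refine hB.mono' ?_ ?_
  · exact (measurable_const.div ((TraceInt_measurable_hp_right m).mul
      (TraceInt_measurable_hp_left m'))).aestronglyMeasurable
  · filter_upwards [ae_nr_sph, ae_xx_pos hm, ae_xx_pos hm'] with z hz h1 h2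
    have h3 := xx_add_ge hm hm' hz
    have key : ∀ w : Fin 2 → ℂ, (xx w z) ^ (-(1 / 2) : ℝ) = ‖hp w z‖⁻¹ := by
      intro w
      unfold xx
      rw [← Real.rpow_natCast, ← Real.rpow_mul (norm_nonneg _), ← Real.rpow_neg_one]
      norm_num
    have e1 : ‖hp z m'‖ = ‖hp m' z‖ := by rw [← conj_hp m' z, Complex.norm_conj]
    have hn1 : ‖hp m m' / (hp m z * hp z m')‖ ≤
        (xx m z) ^ (-(1 / 2) : ℝ) * (xx m' z) ^ (-(1 / 2) : ℝ) := by
      rw [key, key, norm_div, norm_mul, e1, ← mul_inv, ← one_div]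
      gcongr
    refine hn1.trans ?_
    have hpos1 : 0 < (xx m z) ^ (-(1 / 2) : ℝ) := Real.rpow_pos_of_pos h1 _
    have hpos2 : 0 < (xx m' z) ^ (-(1 / 2) : ℝ) := Real.rpow_pos_of_pos h2 _
    have hδp : 0 < δ ^ (-(1 / 2) : ℝ) := Real.rpow_pos_of_pos hδ0 _
    rcases le_or_gt δ (xx m z) with h4 | h4
    · have h5 : (xx m z) ^ (-(1 / 2) : ℝ) ≤ δ ^ (-(1 / 2) : ℝ) :=
        Real.rpow_le_rpow_of_nonpos hδ0 h4 (by norm_num)
      nlinarith [mul_pos hδp hpos1, mul_le_mul_of_nonneg_right h5 hpos2.le]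
    · have h4' : δ ≤ xx m' z := by rw [hδ] at h4 ⊢; linarith
      have h5 : (xx m' z) ^ (-(1 / 2) : ℝ) ≤ δ ^ (-(1 / 2) : ℝ) :=
        Real.rpow_le_rpow_of_nonpos hδ0 h4' (by norm_num)
      nlinarith [mul_pos hδp hpos2, mul_le_mul_of_nonneg_left h5 hpos1.le]

/-- average of `1/(u + v e^{iθ})`, `|v| < |u|` -/
private lemma TraceInt_avg_lt {u v : ℂ} (h : ‖v‖ < ‖u‖) :
    ∫ θ in (0 : ℝ)..2 * Real.pi, (u + v * Complex.exp (θ * Complex.I))⁻¹ =
      2 * Real.pi * u⁻¹ := by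
  have hd : DifferentiableOn ℂ (fun z : ℂ => (u + v * z)⁻¹) (Metric.closedBall 0 1) := by
    intro z hz
    apply DifferentiableAt.differentiableWithinAt
    refine DifferentiableAt.inv (by fun_prop) ?_
    intro h0
    have h1 : ‖z‖ ≤ 1 := by simpa using hz
    have h2 : u = -(v * z) := eq_neg_of_add_eq_zero_left h0
    have : ‖u‖ ≤ ‖v‖ := by
      rw [h2, norm_neg, norm_mul]
      nlinarith [norm_nonneg v, norm_nonneg z]
    linarith
  have h1 := hd.circleIntegral_sub_inv_smul (w := 0) (by simp)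
  unfold circleIntegral at h1
  have h2 : ∀ θ : ℝ, deriv (circleMap 0 1) θ • ((circleMap 0 1 θ - 0)⁻¹ •
      (u + v * circleMap 0 1 θ)⁻¹) = Complex.I * (u + v * Complex.exp (θ * Complex.I))⁻¹ := by
    intro θ
    rw [deriv_circleMap]
    have h3 : circleMap 0 1 θ = Complex.exp (θ * Complex.I) := by simp [circleMap]
    rw [h3, sub_zero, smul_eq_mul, smul_eq_mul]
    have h4 := Complex.exp_ne_zero (θ * Complex.I)
    field_simp
  simp only [h2] at h1
  simp only [mul_zero, add_zero, smul_eq_mul] at h1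
  rw [intervalIntegral.integral_const_mul] at h1
  have h3 : Complex.I * (∫ θ in (0 : ℝ)..2 * Real.pi, (u + v * Complex.exp (θ * Complex.I))⁻¹) =
      Complex.I * (2 * Real.pi * u⁻¹) := by
    rw [h1]; ring
  exact mul_left_cancel₀ Complex.I_ne_zero h3

/-- average of `1/(u + v e^{iθ})`, `|u| < |v|` -/
private lemma TraceInt_avg_gt {u v : ℂ} (h : ‖u‖ < ‖v‖) :
    ∫ θ in (0 : ℝ)..2 * Real.pi, (u + v * Complex.exp (θ * Complex.I))⁻¹ = 0 := by
  have hne : ∀ z : ℂ, ‖z‖ ≤ 1 → u * z + v ≠ 0 := by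
    intro z h1 h0
    have h2 : v = -(u * z) := eq_neg_of_add_eq_zero_right h0
    have : ‖v‖ ≤ ‖u‖ := by
      rw [h2, norm_neg, norm_mul]
      nlinarith [norm_nonneg u, norm_nonneg z]
    linarith
  have hd : DifferentiableOn ℂ (fun z : ℂ => (u * z + v)⁻¹) (Metric.closedBall 0 1) := by
    intro z hz
    apply DifferentiableAt.differentiableWithinAt
    exact DifferentiableAt.inv (by fun_prop) (hne z (by simpa using hz))
  have h1 : ∮ z in C((0 : ℂ), 1), (u * z + v)⁻¹ = 0 :=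
    DiffContOnCl.circleIntegral_eq_zero zero_le_one
      (hd.mono Metric.closure_ball_subset_closedBall).diffContOnCl
  unfold circleIntegral at h1
  have h2 : ∀ θ : ℝ, deriv (circleMap 0 1) θ • (u * circleMap 0 1 θ + v)⁻¹ =
      Complex.I * (u + v * Complex.exp (((2 * Real.pi - θ : ℝ) : ℂ) * Complex.I))⁻¹ := by
    intro θ
    rw [deriv_circleMap]
    have h3 : circleMap 0 1 θ = Complex.exp (θ * Complex.I) := by simp [circleMap]
    have h5 : Complex.exp (((2 * Real.pi - θ : ℝ) : ℂ) * Complex.I) =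
        (Complex.exp (θ * Complex.I))⁻¹ := by
      push_cast
      rw [sub_mul, Complex.exp_sub, Complex.exp_two_pi_mul_I, one_div]
    rw [h3, h5, smul_eq_mul]
    have h4 := Complex.exp_ne_zero (θ * Complex.I)
    have h6 : u + v * (Complex.exp (θ * Complex.I))⁻¹ =
        (u * Complex.exp (θ * Complex.I) + v) * (Complex.exp (θ * Complex.I))⁻¹ := by
      field_simp
    rw [h6, mul_inv, inv_inv]
    ring
  simp only [h2] at h1
  rw [intervalIntegral.integral_const_mul] at h1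
  have h3 := (mul_eq_zero.1 h1).resolve_left Complex.I_ne_zero
  have h4 := intervalIntegral.integral_comp_sub_left (a := 0) (b := 2 * Real.pi)
    (fun θ : ℝ => (u + v * Complex.exp (θ * Complex.I))⁻¹) (2 * Real.pi)
  rw [h3, sub_self, sub_zero] at h4
  exact h4.symm

private lemma TraceInt_rot (θ : ℝ) :
    MeasurePreserving (fun z : Fin 2 → ℂ =>
      (Matrix.diagonal ![1, Complex.exp (θ * Complex.I)] : Matrix (Fin 2) (Fin 2) ℂ) *ᵥ z)
      sph sph := by
  apply measurePreserving_sph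
  rw [Matrix.diagonal_conjTranspose, Matrix.diagonal_mul_diagonal]
  have : (fun i => star ![1, Complex.exp (θ * Complex.I)] i * ![1, Complex.exp (θ * Complex.I)] i) =
      (fun _ => (1 : ℂ)) := by
    funext i
    fin_cases i
    · simp
    · simp only [Fin.mk_one, Pi.star_apply, Matrix.cons_val_one, Matrix.cons_val_zero]
      change conj (Complex.exp (θ * Complex.I)) * Complex.exp (θ * Complex.I) = 1
      rw [← Complex.exp_conj, ← Complex.exp_add]
      simp
  rw [this, Matrix.diagonal_one]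

private lemma TraceInt_core {a b : ℂ} (hab : ‖a‖ ^ 2 + ‖b‖ ^ 2 = 1) (hb : b ≠ 0)
    (hint : Integrable (fun z : Fin 2 → ℂ =>
      conj a / ((conj a * z 0 + conj b * z 1) * conj (z 0))) sph) :
    ∫ z : Fin 2 → ℂ, conj a / ((conj a * z 0 + conj b * z 1) * conj (z 0)) ∂sph =
      ((-Real.log (‖b‖ ^ 2) : ℝ) : ℂ) := by
  obtain ⟨g0, hg0⟩ : ∃ g0 : (Fin 2 → ℂ) → ℂ, g0 = fun z : Fin 2 → ℂ =>
      conj a / ((conj a * z 0 + conj b * z 1) * conj (z 0)) := ⟨_, rfl⟩
  obtain ⟨g, hg⟩ : ∃ g : ℝ → (Fin 2 → ℂ) → ℂ, g = fun (θ : ℝ) (z : Fin 2 → ℂ) =>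
      conj a / ((conj a * z 0 + conj b * (Complex.exp (θ * Complex.I) * z 1)) * conj (z 0)) :=
    ⟨_, rfl⟩
  rw [← hg0] at hint ⊢
  have hg0m : Measurable g0 := by
    rw [hg0]
    have h0 : Measurable fun z : Fin 2 → ℂ => z 0 := measurable_pi_apply 0
    have h1 : Measurable fun z : Fin 2 → ℂ => z 1 := measurable_pi_apply 1
    exact measurable_const.div (((h0.const_mul _).add (h1.const_mul _)).mul
      (Complex.continuous_conj.measurable.comp h0))
  have hgg : ∀ θ : ℝ, g θ = g0 ∘ (fun z : Fin 2 → ℂ =>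
      (Matrix.diagonal ![1, Complex.exp (θ * Complex.I)] : Matrix (Fin 2) (Fin 2) ℂ) *ᵥ z) := by
    intro θ
    funext z
    rw [hg, hg0]
    simp [Matrix.mulVec_diagonal]
  have hgint : ∀ θ : ℝ, Integrable (g θ) sph := by
    intro θ
    rw [hgg]
    exact (TraceInt_rot θ).integrable_comp_of_integrable hint
  have hgval : ∀ θ : ℝ, ∫ z, g θ z ∂sph = ∫ z, g0 z ∂sph := by
    intro θ
    rw [hgg]
    have h1 := integral_map (μ := sph) (TraceInt_rot θ).measurable.aemeasurable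
      (f := g0) hg0m.aestronglyMeasurable
    rw [(TraceInt_rot θ).map_eq] at h1
    exact h1.symm
  have hgnorm : ∀ θ : ℝ, ∫ z, ‖g θ z‖ ∂sph = ∫ z, ‖g0 z‖ ∂sph := by
    intro θ
    rw [hgg]
    have h1 := integral_map (μ := sph) (TraceInt_rot θ).measurable.aemeasurable
      (f := fun z => ‖g0 z‖) hg0m.norm.aestronglyMeasurable
    rw [(TraceInt_rot θ).map_eq] at h1
    exact h1.symm
  have hgm : Measurable (Function.uncurry g) := by
    rw [hg]
    have h0 : Measurable fun p : ℝ × (Fin 2 → ℂ) => p.2 0 :=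
      (measurable_pi_apply 0).comp measurable_snd
    have h1 : Measurable fun p : ℝ × (Fin 2 → ℂ) => p.2 1 :=
      (measurable_pi_apply 1).comp measurable_snd
    have h2 : Measurable fun p : ℝ × (Fin 2 → ℂ) => Complex.exp (p.1 * Complex.I) := by
      have : Continuous fun t : ℝ => Complex.exp (t * Complex.I) := by fun_prop
      exact this.measurable.comp measurable_fst
    exact measurable_const.div (((h0.const_mul _).add ((h2.mul h1).const_mul _)).mul
      (Complex.continuous_conj.measurable.comp h0))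
  have hgi : Integrable (Function.uncurry g)
      ((volume.restrict (Set.Ioc 0 (2 * Real.pi))).prod sph) := by
    rw [integrable_prod_iff hgm.aestronglyMeasurable]
    refine ⟨Filter.Eventually.of_forall fun θ => hgint θ, ?_⟩
    have : (fun θ : ℝ => ∫ z, ‖Function.uncurry g (θ, z)‖ ∂sph) =
        fun _ => ∫ z, ‖g0 z‖ ∂sph := by
      funext θ
      exact hgnorm θ
    rw [this]
    exact integrable_const _
  have hswap := integral_integral_swap hgi
  have hl : ∫ θ in Set.Ioc 0 (2 * Real.pi), ∫ z, g θ z ∂sph =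
      ((2 * Real.pi : ℝ) : ℂ) * ∫ z, g0 z ∂sph := by
    rw [setIntegral_congr_fun measurableSet_Ioc (fun θ _ => hgval θ)]
    rw [setIntegral_const, Real.volume_real_Ioc_of_le (by positivity), sub_zero,
      Complex.real_smul]
  have he0 : nr (![1, 0] : Fin 2 → ℂ) = 1 := by
    unfold nr Sph.nsq
    simp
  have hxx : ∀ z : Fin 2 → ℂ, xx ![1, 0] z = ‖z 0‖ ^ 2 := by
    intro z
    unfold xx hp
    simp
  have hb0 : 0 < ‖b‖ ^ 2 := by positivity
  have hb1 : ‖b‖ ^ 2 ≤ 1 := by nlinarith [sq_nonneg ‖a‖]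
  have hnull : ∀ᵐ z ∂sph, xx ![1, 0] z ≠ ‖b‖ ^ 2 := by
    have h1 : ∀ᵐ x ∂(sph.map (xx ![1, 0])), x ≠ ‖b‖ ^ 2 := by
      rw [map_xx he0]
      exact ae_restrict_of_ae (Measure.ae_ne volume _)
    exact ae_of_ae_map (measurable_xx _).aemeasurable h1
  obtain ⟨φ, hφ⟩ : ∃ φ : ℝ → ℝ, φ = Set.indicator (Set.Ioi (‖b‖ ^ 2)) (fun x => x⁻¹) := ⟨_, rfl⟩
  have hinner : ∀ᵐ z ∂sph, ∫ θ in Set.Ioc 0 (2 * Real.pi), g θ z =
      ((2 * Real.pi : ℝ) : ℂ) * ((φ (xx ![1, 0] z) : ℝ) : ℂ) := by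
    filter_upwards [ae_nr_sph, ae_xx_pos he0, hnull] with z hz hpos hne
    rw [hxx] at hpos hne ⊢
    have hz2 : ‖z 0‖ ^ 2 + ‖z 1‖ ^ 2 = 1 := by
      have h1 := nr_sq z
      rw [hz] at h1
      unfold Sph.nsq at h1
      simpa using h1.symm
    have hz0 : z 0 ≠ 0 := by
      intro h0
      rw [h0] at hpos
      simp at hpos
    have e1 : ∀ θ : ℝ, g θ z = (conj a * (conj (z 0))⁻¹) *
        (conj a * z 0 + (conj b * z 1) * Complex.exp (θ * Complex.I))⁻¹ := by
      intro θ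
      rw [hg]
      change conj a / ((conj a * z 0 + conj b * (Complex.exp (θ * Complex.I) * z 1)) *
        conj (z 0)) = _
      have e2 : conj b * (Complex.exp (θ * Complex.I) * z 1) =
        (conj b * z 1) * Complex.exp (θ * Complex.I) := by ring
      rw [e2, div_eq_mul_inv, mul_inv]
      ring
    rw [setIntegral_congr_fun measurableSet_Ioc (fun θ _ => e1 θ)]
    rw [← intervalIntegral.integral_of_le (by positivity), intervalIntegral.integral_const_mul]
    have hu : ‖conj a * z 0‖ ^ 2 = ‖a‖ ^ 2 * ‖z 0‖ ^ 2 := by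
      rw [norm_mul, Complex.norm_conj, mul_pow]
    have hv : ‖conj b * z 1‖ ^ 2 = ‖b‖ ^ 2 * ‖z 1‖ ^ 2 := by
      rw [norm_mul, Complex.norm_conj, mul_pow]
    have hd : ‖conj a * z 0‖ ^ 2 - ‖conj b * z 1‖ ^ 2 = ‖z 0‖ ^ 2 - ‖b‖ ^ 2 := by
      rw [hu, hv]
      have h1 : ‖a‖ ^ 2 = 1 - ‖b‖ ^ 2 := by linarith
      have h2 : ‖z 1‖ ^ 2 = 1 - ‖z 0‖ ^ 2 := by linarith
      rw [h1, h2]
      ring
    rcases lt_or_gt_of_ne hne with h | h
    · have h1 : ‖conj a * z 0‖ < ‖conj b * z 1‖ :=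
        lt_of_pow_lt_pow_left₀ 2 (norm_nonneg _) (by linarith)
      rw [TraceInt_avg_gt h1, mul_zero, hφ, Set.indicator_of_notMem (by simpa using h.le)]
      simp
    · have h1 : ‖conj b * z 1‖ < ‖conj a * z 0‖ :=
        lt_of_pow_lt_pow_left₀ 2 (norm_nonneg _) (by linarith)
      have ha : conj a ≠ 0 := by
        intro h0
        rw [h0, zero_mul, norm_zero] at h1
        exact absurd h1 (not_lt.2 (norm_nonneg _))
      rw [TraceInt_avg_lt h1, hφ, Set.indicator_of_mem (by simpa using h)]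
      have hcz : conj (z 0) ≠ 0 := by
        intro h0
        exact hz0 (by simpa using h0)
      have h2 : (((‖z 0‖ ^ 2)⁻¹ : ℝ) : ℂ) = (z 0)⁻¹ * (conj (z 0))⁻¹ := by
        rw [← mul_inv, Complex.mul_conj, Complex.normSq_eq_norm_sq]
        push_cast
        rfl
      rw [h2, mul_inv]
      push_cast
      field_simp
  have hr : ∫ z, (∫ θ in Set.Ioc 0 (2 * Real.pi), g θ z) ∂sph =
      ((2 * Real.pi : ℝ) : ℂ) * ((-Real.log (‖b‖ ^ 2) : ℝ) : ℂ) := by
    rw [integral_congr_ae hinner, integral_const_mul, integral_complex_ofReal]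
    congr 2
    have hφm : Measurable φ := by
      rw [hφ]
      exact measurable_inv.indicator measurableSet_Ioi
    have h1 := integral_map (μ := sph) (measurable_xx ![1, 0]).aemeasurable
      (f := φ) hφm.aestronglyMeasurable
    rw [map_xx he0] at h1
    rw [← h1, hφ, setIntegral_indicator measurableSet_Ioi]
    have h2 : Set.Ioc (0 : ℝ) 1 ∩ Set.Ioi (‖b‖ ^ 2) = Set.Ioc (‖b‖ ^ 2) 1 := by
      ext x
      simp only [Set.mem_inter_iff, Set.mem_Ioc, Set.mem_Ioi]
      constructor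
      · rintro ⟨⟨_, h1⟩, h2⟩
        exact ⟨h2, h1⟩
      · rintro ⟨h1, h2⟩
        exact ⟨⟨hb0.trans h1, h2⟩, h1⟩
    rw [h2, ← intervalIntegral.integral_of_le hb1, integral_inv_of_pos hb0 one_pos,
      Real.log_div one_ne_zero hb0.ne', Real.log_one, zero_sub]
  have hfin : ((2 * Real.pi : ℝ) : ℂ) * ∫ z, g0 z ∂sph =
      ((2 * Real.pi : ℝ) : ℂ) * ((-Real.log (‖b‖ ^ 2) : ℝ) : ℂ) := by
    rw [← hl, ← hr]
    exact hswap
  have hpi : ((2 * Real.pi : ℝ) : ℂ) ≠ 0 := by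
    rw [Complex.ofReal_ne_zero]
    positivity
  exact mul_left_cancel₀ hpi hfin

theorem integral_cross {m m' : Fin 2 → ℂ} (hm : nr m = 1) (hm' : nr m' = 1)
    (hne : ‖hp m m'‖ < 1) :
    ∫ z, hp m m' / (hp m z * hp z m') ∂sph = ((-Real.log (1 - ‖hp m m'‖ ^ 2) : ℝ) : ℂ) := by
  have hU : ((gm m')ᴴ)ᴴ * (gm m')ᴴ = 1 := by
    rw [Matrix.conjTranspose_conjTranspose]
    exact gm_mul_conj hm'
  have hmp := measurePreserving_sph ((gm m')ᴴ) hU
  obtain ⟨w, hw⟩ : ∃ w : Fin 2 → ℂ, w = (gm m')ᴴ *ᵥ m := ⟨_, rfl⟩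
  have hhp : ∀ x y : Fin 2 → ℂ, hp ((gm m')ᴴ *ᵥ x) ((gm m')ᴴ *ᵥ y) = hp x y := by
    intro x y
    rw [hp_mulVec, Matrix.mulVec_mulVec, hU, Matrix.one_mulVec]
  have hw0 : w 0 = hp m' m := by rw [hw]; exact gm_conj_mulVec_zero m' m
  have hw1 : ‖w 0‖ ^ 2 + ‖w 1‖ ^ 2 = 1 := by
    have h1 := nr_sq w
    rw [hw, nr_mulVec_unitary _ hU, hm] at h1
    unfold Sph.nsq at h1
    rw [← hw] at h1
    simpa using h1.symm
  have hn0 : ‖w 0‖ = ‖hp m m'‖ := by rw [hw0, ← conj_hp m m', Complex.norm_conj]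
  have hwb : w 1 ≠ 0 := by
    intro h0
    rw [h0, norm_zero, hn0] at hw1
    have : ‖hp m m'‖ ^ 2 < 1 := by nlinarith [norm_nonneg (hp m m')]
    linarith
  have hcw : conj (w 0) = hp m m' := by rw [hw0, conj_hp]
  have hm1 : ∀ z : Fin 2 → ℂ, ((gm m')ᴴ *ᵥ z) 0 = hp m' z := fun z => gm_conj_mulVec_zero m' z
  have hfun : (fun z => hp m m' / (hp m z * hp z m')) = (fun z : Fin 2 → ℂ =>
      conj (w 0) / ((conj (w 0) * z 0 + conj (w 1) * z 1) * conj (z 0))) ∘
        (fun z : Fin 2 → ℂ => (gm m')ᴴ *ᵥ z) := by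
    funext z
    have e1 : hp m z = conj (w 0) * ((gm m')ᴴ *ᵥ z) 0 + conj (w 1) * ((gm m')ᴴ *ᵥ z) 1 := by
      rw [← hhp m z, ← hw]
      unfold hp
      rw [Fin.sum_univ_two]
    have e2 : hp z m' = conj (((gm m')ᴴ *ᵥ z) 0) := by rw [hm1, conj_hp]
    rw [Function.comp_apply, ← e1, ← e2, hcw]
  have hmeas : Measurable (fun z : Fin 2 → ℂ =>
      conj (w 0) / ((conj (w 0) * z 0 + conj (w 1) * z 1) * conj (z 0))) := by
    have h0 : Measurable fun z : Fin 2 → ℂ => z 0 := measurable_pi_apply 0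
    have h1 : Measurable fun z : Fin 2 → ℂ => z 1 := measurable_pi_apply 1
    exact measurable_const.div (((h0.const_mul _).add (h1.const_mul _)).mul
      (Complex.continuous_conj.measurable.comp h0))
  have hi := integrable_cross hm hm' hne
  rw [hfun] at hi
  have hi2 : Integrable (fun z : Fin 2 → ℂ =>
      conj (w 0) / ((conj (w 0) * z 0 + conj (w 1) * z 1) * conj (z 0))) sph :=
    (hmp.integrable_comp hmeas.aestronglyMeasurable).1 hi
  have hc := TraceInt_core hw1 hwb hi2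
  have h1 := integral_map (μ := sph) hmp.measurable.aemeasurable
    (f := (fun z : Fin 2 → ℂ =>
      conj (w 0) / ((conj (w 0) * z 0 + conj (w 1) * z 1) * conj (z 0))))
    hmeas.aestronglyMeasurable
  rw [hmp.map_eq, hc] at h1
  rw [hfun]
  have h2 : 1 - ‖hp m m'‖ ^ 2 = ‖w 1‖ ^ 2 := by rw [← hn0]; linarith
  rw [h2]
  exact h1.symm

end MPF
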