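import Pool.Agent.MPF.QB2
import Pool.Agent.MPF.IntG
import Pool.Agent.MPF.TraceInt

/-!
# MPF/PairTr: the limit of the trace of a pair

PROOF. `hp (coh z) (Q_i Q_k coh z) = hp (Q_iᴴ coh z) (Q_k coh z)` (`hp_mulVec`). Write `x = x_i`, `x' = x_k`,
`n_i = fN N m_i (j - N x) coh z`, `n_k` similarly; `nr n_i ≤ √(N x)`, `nr n_k ≤ √(N x')` (`var_exact`).
On `bulk N m`: `Q_iᴴ coh = -(conj s_i/(N x)) n_i + E_i`, `Q_k coh = -(s_k/(N x')) n_k + E_k`, `nr E_i ≤ C N^ε/(N x)` etc.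
(`Qstar_first`, `Q_first`). So, since `fN` of a real function is self-adjoint (`fN_conjTranspose`),
`hp (Q_iᴴ coh) (Q_k coh) = s_i s_k/(N² x x') hp (coh) (fN(j-Nx) fN(j-Nx') coh) + O(N^{2ε} N^{-3/2} (x^{-1} x'^{-1/2} + x^{-1/2} x'^{-1}))`
[the product of the two errors: `1/(N² x x') ≤ N^{-3/2} x^{-1} x'^{-1/2}` as `N x' ≥ 1`]; by `pair_exact` the main term is
`(s_i s_k/N) (hp m_i m_k/(hp m_i z hp z m_k) - 1)`. `(N+1) ∫_bulk` of the error is `O(N^{1+2ε-3/2+1/8}) → 0` (`int_err` twice, `ε = 1/16`).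
Main term: `(N+1)/N s_i s_k ∫_bulk (hp m_i m_k/(hp m_i z hp z m_k) - 1) → s_i s_k (-log(1-|hp m_i m_k|²) - 1)` (dominated convergence,
`integrable_cross`, `integral_cross`; the indicator of `bulk N m` tends to 1 a.e. by `ae_xx_pos`).
Off the bulk: `|hp| ≤ nr (Q_iᴴ coh) nr (Q_k coh) ≤ C N^{2ε} Gf(N x) Gf(N x')`, `int_off` with the list `[i,k]`: `O(N^{1 + 2ε - 3/2}) → 0`.
Integrability of `z ↦ hp (coh z) (Q_i Q_k coh z)`: measurable (`measurable_fN_mulVec`) and dominated by `C N^{2ε} Gf Gf` (`int_Gf_integrable`).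
-/

open MeasureTheory Matrix Finset Filter Topology
open scoped ENNReal ComplexConjugate

namespace MPF

variable {K : ℕ}

private theorem PairTr_nle (N : ℕ) {m z : Fin 2 → ℂ} (hm : nr m = 1) (hz : nr z = 1) :
    nr (fN N m (fun j => (j : ℂ) - ((N * xx m z : ℝ) : ℂ)) *ᵥ coh N z) ≤
      Real.sqrt (N * xx m z) := by
  refine Real.le_sqrt_of_sq_le ?_
  rw [var_exact N hm hz]
  have h1 := xx_nonneg m z
  have h0 : 0 ≤ N * xx m z := by positivity
  nlinarith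

private theorem PairTr_sa (N : ℕ) (m : Fin 2 → ℂ) (M : ℝ) (v w : Fin (N + 1) → ℂ) :
    hp (fN N m (fun j => (j : ℂ) - ((M : ℝ) : ℂ)) *ᵥ v) w =
      hp v (fN N m (fun j => (j : ℂ) - ((M : ℝ) : ℂ)) *ᵥ w) := by
  rw [hp_mulVec, fN_conjTranspose]
  congr 3
  funext j
  simp

private theorem PairTr_xx (m z : Fin 2 → ℂ) : ((xx m z : ℝ) : ℂ) = hp m z * hp z m := by
  rw [← conj_hp m z, Complex.mul_conj, Complex.normSq_eq_norm_sq]
  rfl

private theorem PairTr_form (N : ℕ) (m : Fin K → Fin 2 → ℂ) (s : Fin K → ℂ) (z : Fin 2 → ℂ)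
    (i k : Fin K) :
    hp (coh N z) (([i, k].map (Qop N m s z)).prod *ᵥ coh N z) =
      hp ((Qop N m s z i)ᴴ *ᵥ coh N z) (Qop N m s z k *ᵥ coh N z) := by
  rw [List.map_cons, List.map_cons, List.map_nil, List.prod_cons, List.prod_cons, List.prod_nil,
    mul_one, ← Matrix.mulVec_mulVec, hp_mulVec]

/-- the bilinear estimate -/
private theorem PairTr_bil {n : ℕ} (u v p q : Fin n → ℂ) {a b c d : ℝ}
    (ha : nr (u + p) ≤ a) (hb : nr (v + q) ≤ b) (hc : nr p ≤ c) (hd : nr q ≤ d) :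
    ‖hp u v - hp p q‖ ≤ a * b + a * d + c * b := by
  have h1 : hp u v - hp p q = hp (u + p) (v + q) - hp (u + p) q - hp p (v + q) := by
    rw [hp_add_left, hp_add_right, hp_add_right, hp_add_left]
    ring
  rw [h1]
  have e1 := nr_nonneg (u + p)
  have e2 := nr_nonneg (v + q)
  have e3 := nr_nonneg p
  have e4 := nr_nonneg q
  have h2 : ‖hp (u + p) (v + q)‖ ≤ a * b :=
    (norm_hp_le _ _).trans (mul_le_mul ha hb e2 (e1.trans ha))
  have h3 : ‖hp (u + p) q‖ ≤ a * d :=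
    (norm_hp_le _ _).trans (mul_le_mul ha hd e4 (e1.trans ha))
  have h4 : ‖hp p (v + q)‖ ≤ c * b :=
    (norm_hp_le _ _).trans (mul_le_mul hc hb e2 (e3.trans hc))
  calc ‖hp (u + p) (v + q) - hp (u + p) q - hp p (v + q)‖
      ≤ ‖hp (u + p) (v + q)‖ + ‖hp (u + p) q‖ + ‖hp p (v + q)‖ :=
        (norm_sub_le _ _).trans (add_le_add_left (norm_sub_le _ _) _)
    _ ≤ _ := by linarith

private theorem PairTr_main (N : ℕ) (hN : 1 ≤ N) (m : Fin K → Fin 2 → ℂ)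
    (hm : ∀ i, nr (m i) = 1) (s : Fin K → ℂ) (i k : Fin K) (z : Fin 2 → ℂ) (hz : nr z = 1)
    (hi : 1 ≤ N * xx (m i) z) (hk : 1 ≤ N * xx (m k) z) :
    hp ((conj (s i) / ((N * xx (m i) z : ℝ) : ℂ)) •
        (fN N (m i) (fun j => (j : ℂ) - ((N * xx (m i) z : ℝ) : ℂ)) *ᵥ coh N z))
      ((s k / ((N * xx (m k) z : ℝ) : ℂ)) •
        (fN N (m k) (fun j => (j : ℂ) - ((N * xx (m k) z : ℝ) : ℂ)) *ᵥ coh N z)) =
      s i * s k / N * (hp (m i) (m k) / (hp (m i) z * hp z (m k)) - 1) := by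
  have hN0 : (N : ℂ) ≠ 0 := by
    have : N ≠ 0 := by omega
    exact_mod_cast this
  have hNR : (0 : ℝ) < N := by exact_mod_cast hN
  have hx : 0 < xx (m i) z := by
    by_contra h
    have := xx_nonneg (m i) z
    have h2 : xx (m i) z = 0 := le_antisymm (not_lt.1 h) this
    rw [h2, mul_zero] at hi
    linarith
  have hx' : 0 < xx (m k) z := by
    by_contra h
    have := xx_nonneg (m k) z
    have h2 : xx (m k) z = 0 := le_antisymm (not_lt.1 h) this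
    rw [h2, mul_zero] at hk
    linarith
  have e1 : ((xx (m i) z : ℝ) : ℂ) ≠ 0 := by exact_mod_cast hx.ne'
  have e2 : ((xx (m k) z : ℝ) : ℂ) ≠ 0 := by exact_mod_cast hx'.ne'
  rw [PairTr_xx] at e1 e2
  have f1 := left_ne_zero_of_mul e1
  have f2 := right_ne_zero_of_mul e1
  have f3 := left_ne_zero_of_mul e2
  have f4 := right_ne_zero_of_mul e2
  rw [hp_smul_left, hp_smul_right, PairTr_sa, pair_exact N (hm i) (hm k) hz, map_div₀,
    Complex.conj_conj, Complex.conj_ofReal]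
  push_cast
  rw [PairTr_xx, PairTr_xx]
  field_simp


private theorem PairTr_pnr (N : ℕ) {m z : Fin 2 → ℂ} (hm : nr m = 1) (hz : nr z = 1) (c : ℂ)
    (hM : 1 ≤ N * xx m z) :
    nr ((c / ((N * xx m z : ℝ) : ℂ)) •
      (fN N m (fun j => (j : ℂ) - ((N * xx m z : ℝ) : ℂ)) *ᵥ coh N z)) ≤
      ‖c‖ / Real.sqrt (N * xx m z) := by
  have hM0 : 0 < N * xx m z := by linarith
  rw [nr_smul, norm_div, Complex.norm_real, Real.norm_of_nonneg hM0.le, div_mul_eq_mul_div,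
    div_le_div_iff₀ hM0 (Real.sqrt_pos.2 hM0)]
  have h1 := PairTr_nle N hm hz
  have h2 : Real.sqrt (N * xx m z) * Real.sqrt (N * xx m z) = N * xx m z :=
    Real.mul_self_sqrt hM0.le
  calc ‖c‖ * nr (fN N m (fun j => (j : ℂ) - ((N * xx m z : ℝ) : ℂ)) *ᵥ coh N z) *
        Real.sqrt (N * xx m z) ≤ ‖c‖ * Real.sqrt (N * xx m z) * Real.sqrt (N * xx m z) := by
        gcongr
    _ = ‖c‖ * (N * xx m z) := by rw [mul_assoc, h2]

/-- the pointwise estimate in the bulk -/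
private theorem PairTr_bulk (m : Fin K → Fin 2 → ℂ) (hm : ∀ i, nr (m i) = 1) (s : Fin K → ℂ)
    (hs : ∀ i, -1 < (s i).re) (i k : Fin K) :
    ∃ C : ℝ, 0 < C ∧ ∀ N : ℕ, 1 ≤ N → ∀ z : Fin 2 → ℂ, nr z = 1 → z ∈ bulk N m →
      ‖hp (coh N z) (([i, k].map (Qop N m s z)).prod *ᵥ coh N z) -
        s i * s k / N * (hp (m i) (m k) / (hp (m i) z * hp z (m k)) - 1)‖ ≤
        C * (N : ℝ) ^ (1 / 8 - 3 / 2 : ℝ) *
          (1 / (xx (m i) z * Real.sqrt (xx (m k) z)) +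
            1 / (xx (m k) z * Real.sqrt (xx (m i) z))) := by
  obtain ⟨C1, hC1, H1⟩ := Qstar_first m hm s hs i (ε := 1 / 16) (by norm_num)
  obtain ⟨C2, hC2, H2⟩ := Q_first m hm s hs k (ε := 1 / 16) (by norm_num)
  refine ⟨C1 * C2 + C1 * ‖s k‖ + C2 * ‖s i‖, by positivity, fun N hN z hz hb => ?_⟩
  have hi : 1 ≤ N * xx (m i) z := hb i
  have hk : 1 ≤ N * xx (m k) z := hb k
  have hNR : (1 : ℝ) ≤ N := by exact_mod_cast hN
  have hN0 : (0 : ℝ) < N := by linarith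
  have hE1 := H1 N hN z hz hi
  have hE2 := H2 N hN z hz hk
  have hp1 := PairTr_pnr N (hm i) hz (conj (s i)) hi
  have hp2 := PairTr_pnr N (hm k) hz (s k) hk
  rw [RCLike.norm_conj] at hp1
  have h3 := PairTr_bil _ _ _ _ hE1 hE2 hp1 hp2
  rw [PairTr_main N hN m hm s i k z hz hi hk] at h3
  rw [PairTr_form]
  refine h3.trans ?_
  set x := xx (m i) z with hxdef
  set y := xx (m k) z with hydef
  have hx : 0 < x := by
    by_contra h
    have h0 := xx_nonneg (m i) z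
    have h2 : x = 0 := le_antisymm (not_lt.1 h) h0
    rw [h2, mul_zero] at hi
    linarith
  have hy : 0 < y := by
    by_contra h
    have h0 := xx_nonneg (m k) z
    have h2 : y = 0 := le_antisymm (not_lt.1 h) h0
    rw [h2, mul_zero] at hk
    linarith
  have hsx : 0 < Real.sqrt x := Real.sqrt_pos.2 hx
  have hsy : 0 < Real.sqrt y := Real.sqrt_pos.2 hy
  have hsN : 0 < Real.sqrt N := Real.sqrt_pos.2 hN0
  have hP : (N : ℝ) ^ (1 / 8 - 3 / 2 : ℝ) = (N : ℝ) ^ (1 / 8 : ℝ) / (N * Real.sqrt N) := by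
    rw [Real.rpow_sub hN0]
    congr 1
    rw [show (3 / 2 : ℝ) = 1 + 1 / 2 by norm_num, Real.rpow_add hN0, Real.rpow_one,
      Real.sqrt_eq_rpow]
  have hQ : (N : ℝ) ^ (1 / 16 : ℝ) * (N : ℝ) ^ (1 / 16 : ℝ) = (N : ℝ) ^ (1 / 8 : ℝ) := by
    rw [← Real.rpow_add hN0]
    norm_num
  have hQ1 : (N : ℝ) ^ (1 / 16 : ℝ) ≤ (N : ℝ) ^ (1 / 8 : ℝ) :=
    Real.rpow_le_rpow_of_exponent_le hNR (by norm_num)
  have hq0 : 0 < (N : ℝ) ^ (1 / 16 : ℝ) := Real.rpow_pos_of_pos hN0 _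
  have hp0 : 0 < (N : ℝ) ^ (1 / 8 : ℝ) := Real.rpow_pos_of_pos hN0 _
  have hsx2 : Real.sqrt (N * x) = Real.sqrt N * Real.sqrt x := Real.sqrt_mul hN0.le x
  have hsy2 : Real.sqrt (N * y) = Real.sqrt N * Real.sqrt y := Real.sqrt_mul hN0.le y
  -- the three terms
  have t2 : C1 * (N : ℝ) ^ (1 / 16 : ℝ) / (N * x) * (‖s k‖ / Real.sqrt (N * y)) ≤
      C1 * ‖s k‖ * (N : ℝ) ^ (1 / 8 - 3 / 2 : ℝ) * (1 / (x * Real.sqrt y)) := by
    rw [hP, hsy2]
    have : C1 * (N : ℝ) ^ (1 / 16 : ℝ) / (N * x) * (‖s k‖ / (Real.sqrt N * Real.sqrt y)) =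
        C1 * ‖s k‖ * ((N : ℝ) ^ (1 / 16 : ℝ) / (N * Real.sqrt N)) * (1 / (x * Real.sqrt y)) := by
      field_simp
    rw [this]
    gcongr
  have t3 : ‖s i‖ / Real.sqrt (N * x) * (C2 * (N : ℝ) ^ (1 / 16 : ℝ) / (N * y)) ≤
      C2 * ‖s i‖ * (N : ℝ) ^ (1 / 8 - 3 / 2 : ℝ) * (1 / (y * Real.sqrt x)) := by
    rw [hP, hsx2]
    have : ‖s i‖ / (Real.sqrt N * Real.sqrt x) * (C2 * (N : ℝ) ^ (1 / 16 : ℝ) / (N * y)) =
        C2 * ‖s i‖ * ((N : ℝ) ^ (1 / 16 : ℝ) / (N * Real.sqrt N)) * (1 / (y * Real.sqrt x)) := by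
      field_simp
    rw [this]
    gcongr
  have t1 : C1 * (N : ℝ) ^ (1 / 16 : ℝ) / (N * x) * (C2 * (N : ℝ) ^ (1 / 16 : ℝ) / (N * y)) ≤
      C1 * C2 * (N : ℝ) ^ (1 / 8 - 3 / 2 : ℝ) * (1 / (x * Real.sqrt y)) := by
    have h5 : Real.sqrt (N * y) ≤ N * y := by
      rw [Real.sqrt_le_left (by positivity)]
      nlinarith
    have h6 : C2 * (N : ℝ) ^ (1 / 16 : ℝ) / (N * y) ≤
        C2 * (N : ℝ) ^ (1 / 16 : ℝ) / (Real.sqrt N * Real.sqrt y) := by
      rw [← hsy2]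
      exact div_le_div_of_nonneg_left (by positivity) (by rw [hsy2]; positivity) h5
    refine (mul_le_mul_of_nonneg_left h6 (by positivity)).trans (le_of_eq ?_)
    rw [hP, ← hQ]
    field_simp
  have g1 : 0 ≤ (N : ℝ) ^ (1 / 8 - 3 / 2 : ℝ) := (Real.rpow_pos_of_pos hN0 _).le
  have g2 : 0 ≤ 1 / (x * Real.sqrt y) := by positivity
  have g3 : 0 ≤ 1 / (y * Real.sqrt x) := by positivity
  have g4 : 0 ≤ C1 * C2 * (N : ℝ) ^ (1 / 8 - 3 / 2 : ℝ) * (1 / (y * Real.sqrt x)) := by positivity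
  have g5 : 0 ≤ C1 * ‖s k‖ * (N : ℝ) ^ (1 / 8 - 3 / 2 : ℝ) * (1 / (y * Real.sqrt x)) := by
    positivity
  have g6 : 0 ≤ C2 * ‖s i‖ * (N : ℝ) ^ (1 / 8 - 3 / 2 : ℝ) * (1 / (x * Real.sqrt y)) := by
    positivity
  have e : (C1 * C2 + C1 * ‖s k‖ + C2 * ‖s i‖) * (N : ℝ) ^ (1 / 8 - 3 / 2 : ℝ) *
      (1 / (x * Real.sqrt y) + 1 / (y * Real.sqrt x)) =
      C1 * C2 * (N : ℝ) ^ (1 / 8 - 3 / 2 : ℝ) * (1 / (x * Real.sqrt y)) +
      C1 * ‖s k‖ * (N : ℝ) ^ (1 / 8 - 3 / 2 : ℝ) * (1 / (x * Real.sqrt y)) +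
      C2 * ‖s i‖ * (N : ℝ) ^ (1 / 8 - 3 / 2 : ℝ) * (1 / (x * Real.sqrt y)) +
      (C1 * C2 * (N : ℝ) ^ (1 / 8 - 3 / 2 : ℝ) * (1 / (y * Real.sqrt x)) +
      C1 * ‖s k‖ * (N : ℝ) ^ (1 / 8 - 3 / 2 : ℝ) * (1 / (y * Real.sqrt x)) +
      C2 * ‖s i‖ * (N : ℝ) ^ (1 / 8 - 3 / 2 : ℝ) * (1 / (y * Real.sqrt x))) := by ring
  rw [e]
  linarith

/-- the pointwise estimate everywhere -/
private theorem PairTr_all (m : Fin K → Fin 2 → ℂ) (hm : ∀ i, nr (m i) = 1) (s : Fin K → ℂ)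
    (hs : ∀ i, -1 < (s i).re) (i k : Fin K) :
    ∃ C : ℝ, 0 < C ∧ ∀ N : ℕ, 1 ≤ N → ∀ z : Fin 2 → ℂ, nr z = 1 → (∀ i, 0 < xx (m i) z) →
      ‖hp (coh N z) (([i, k].map (Qop N m s z)).prod *ᵥ coh N z)‖ ≤
        C * (N : ℝ) ^ (1 / 8 : ℝ) *
          ([i, k].map fun i => Gf (aa (s i)) (N * xx (m i) z)).prod := by
  obtain ⟨C1, hC1, H1⟩ := Qstar_bound m hm s hs i (ε := 1 / 16) (by norm_num)
  obtain ⟨C2, hC2, H2⟩ := Q_bound m hm s hs [k] (ε := 1 / 16) (by norm_num)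
  refine ⟨C1 * C2, by positivity, fun N hN z hz hp' => ?_⟩
  have hNR : (1 : ℝ) ≤ N := by exact_mod_cast hN
  have hN0 : (0 : ℝ) < N := by linarith
  have hQ : (N : ℝ) ^ (1 / 16 : ℝ) * (N : ℝ) ^ (1 / 16 : ℝ) = (N : ℝ) ^ (1 / 8 : ℝ) := by
    rw [← Real.rpow_add hN0]
    norm_num
  rw [PairTr_form]
  have h1 := H1 N hN z hz hp'
  have h2 := H2 N hN z hz hp'
  rw [List.map_cons, List.map_nil, List.prod_cons, List.prod_nil, mul_one, List.map_cons,
    List.map_nil, List.prod_cons, List.prod_nil, mul_one] at h2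
  refine ((norm_hp_le _ _).trans (mul_le_mul h1 h2 (nr_nonneg _)
    ((nr_nonneg _).trans h1))).trans (le_of_eq ?_)
  rw [List.map_cons, List.map_cons, List.map_nil, List.prod_cons, List.prod_cons, List.prod_nil,
    mul_one, ← hQ]
  ring


private theorem PairTr_meas (N : ℕ) (m : Fin K → Fin 2 → ℂ) (s : Fin K → ℂ) (i k : Fin K) :
    Measurable fun z => hp (coh N z) (([i, k].map (Qop N m s z)).prod *ᵥ coh N z) := by
  have hφ : ∀ (i : Fin K) (j : ℕ), Measurable fun z => pp N (s i) (xx (m i) z) j - 1 := by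
    intro i j
    unfold pp
    exact (((Complex.measurable_ofReal.comp (measurable_xx (m i))).pow_const _).mul_const
      _).sub_const _
  have h1 : Measurable fun z => Qop N m s z k *ᵥ coh N z :=
    measurable_fN_mulVec (hφ k) (continuous_coh N).measurable
  have h2 : Measurable fun z => Qop N m s z i *ᵥ (Qop N m s z k *ᵥ coh N z) :=
    measurable_fN_mulVec (hφ i) h1
  have h3 : Measurable fun z => hp (coh N z) (Qop N m s z i *ᵥ (Qop N m s z k *ᵥ coh N z)) :=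
    continuous_hp.measurable.comp ((continuous_coh N).measurable.prodMk h2)
  have h4 : (fun z => hp (coh N z) (([i, k].map (Qop N m s z)).prod *ᵥ coh N z)) =
      fun z => hp (coh N z) (Qop N m s z i *ᵥ (Qop N m s z k *ᵥ coh N z)) := by
    funext z
    simp only [List.map_cons, List.map_nil, List.prod_cons, List.prod_nil, mul_one,
      Matrix.mulVec_mulVec]
  rw [h4]
  exact h3

private theorem PairTr_aa (s : Fin K → ℂ) (hs : ∀ i, -1 < (s i).re) :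
    (∀ i, 0 ≤ aa (s i)) ∧ ∀ i, aa (s i) < 1 := by
  refine ⟨fun i => le_max_right _ _, fun i => max_lt ?_ one_pos⟩
  have := hs i
  linarith

theorem pair_trace (m : Fin K → Fin 2 → ℂ) (hm : ∀ i, nr (m i) = 1)
    (hne : ∀ i k, i ≠ k → ‖hp (m i) (m k)‖ < 1) (s : Fin K → ℂ) (hs : ∀ i, -1 < (s i).re)
    {i k : Fin K} (hik : i ≠ k) :
    Tendsto (fun N : ℕ => ((N : ℂ) + 1) *
      ∫ z, hp (coh N z) (([i, k].map (Qop N m s z)).prod *ᵥ coh N z) ∂sph) atTop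
      (𝓝 (s i * s k * ((-Real.log (1 - ‖hp (m i) (m k)‖ ^ 2) - 1 : ℝ) : ℂ))) := by
  obtain ⟨C, hC, HC⟩ := PairTr_bulk m hm s hs i k
  obtain ⟨D, hD, HD⟩ := PairTr_all m hm s hs i k
  obtain ⟨ha0, ha1⟩ := PairTr_aa s hs
  have hl : [i, k].Nodup := by simp [hik]
  obtain ⟨E, hE, HE⟩ := int_off m hm hne (fun i => aa (s i)) ha0 ha1 [i, k] hl (by simp)
  obtain ⟨A, hA, HA⟩ := int_err m hm hne hik
  obtain ⟨B, hB, HB⟩ := int_err m hm hne hik.symm
  have haez : ∀ᵐ z ∂sph, nr z = 1 ∧ ∀ i, 0 < xx (m i) z := by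
    have h2 : ∀ᵐ z ∂sph, ∀ i, 0 < xx (m i) z := by
      rw [ae_all_iff]
      exact fun i => ae_xx_pos (hm i)
    filter_upwards [ae_nr_sph, h2] with z h3 h4
    exact ⟨h3, h4⟩
  set F : ℕ → (Fin 2 → ℂ) → ℂ := fun N z =>
    hp (coh N z) (([i, k].map (Qop N m s z)).prod *ᵥ coh N z) with hF
  set cr : (Fin 2 → ℂ) → ℂ := fun z => hp (m i) (m k) / (hp (m i) z * hp z (m k)) with hcr
  have hcrI : Integrable (fun z => cr z - 1) sph :=
    (integrable_cross (hm i) (hm k) (hne i k hik)).sub (integrable_const 1)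
  have hdom : ∀ N : ℕ, 1 ≤ N → Integrable (fun z => D * (N : ℝ) ^ (1 / 8 : ℝ) *
      ([i, k].map fun i => Gf (aa (s i)) (N * xx (m i) z)).prod) sph := fun N hN =>
    (int_Gf_integrable m hm hne (fun i => aa (s i)) ha0 ha1 [i, k] hl hN).const_mul _
  have hFI : ∀ N : ℕ, 1 ≤ N → Integrable (F N) sph := by
    intro N hN
    refine Integrable.mono' (hdom N hN) (PairTr_meas N m s i k).aestronglyMeasurable ?_
    filter_upwards [haez] with z hz
    exact HD N hN z hz.1 hz.2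
  have hnorm : ∀ N : ℕ, ‖((N : ℂ) + 1)‖ = (N : ℝ) + 1 := by
    intro N
    have : ((N : ℂ) + 1) = ((N + 1 : ℕ) : ℂ) := by push_cast; ring
    rw [this, Complex.norm_natCast]
    push_cast
    ring
  -- off the bulk
  have T1 : Tendsto (fun N : ℕ => ((N : ℂ) + 1) * ∫ z in (bulk N m)ᶜ, F N z ∂sph) atTop (𝓝 0) := by
    have h1 : Tendsto (fun N : ℕ => 2 * (D * E) * (N : ℝ) ^ (-(3 / 8 : ℝ))) atTop (𝓝 0) := by
      have := ((tendsto_rpow_neg_atTop (show (0 : ℝ) < 3 / 8 by norm_num)).comp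
        tendsto_natCast_atTop_atTop).const_mul (2 * (D * E))
      rw [mul_zero] at this
      exact this
    refine squeeze_zero_norm' ?_ h1
    filter_upwards [eventually_ge_atTop 1] with N hN
    have hNR : (1 : ℝ) ≤ N := by exact_mod_cast hN
    have hN0 : (0 : ℝ) < N := by linarith
    rw [norm_mul, hnorm]
    have h2 : ‖∫ z in (bulk N m)ᶜ, F N z ∂sph‖ ≤ ∫ z in (bulk N m)ᶜ, D * (N : ℝ) ^ (1 / 8 : ℝ) *
        ([i, k].map fun i => Gf (aa (s i)) (N * xx (m i) z)).prod ∂sph := by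
      refine norm_integral_le_of_norm_le (hdom N hN).integrableOn ?_
      filter_upwards [ae_restrict_of_ae haez] with z hz
      exact HD N hN z hz.1 hz.2
    rw [integral_const_mul] at h2
    have h3 := HE N hN
    have h4 : 0 ≤ D * (N : ℝ) ^ (1 / 8 : ℝ) := by positivity
    have h5 : ‖∫ z in (bulk N m)ᶜ, F N z ∂sph‖ ≤
        D * (N : ℝ) ^ (1 / 8 : ℝ) * (E * (N : ℝ) ^ (-(3 / 2) : ℝ)) :=
      h2.trans (mul_le_mul_of_nonneg_left h3 h4)
    have h6 : (N : ℝ) * ((N : ℝ) ^ (1 / 8 : ℝ) * (N : ℝ) ^ (-(3 / 2) : ℝ)) =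
        (N : ℝ) ^ (-(3 / 8 : ℝ)) := by
      rw [← Real.rpow_add hN0, ← Real.rpow_one_add' hN0.le (by norm_num)]
      norm_num
    calc ((N : ℝ) + 1) * ‖∫ z in (bulk N m)ᶜ, F N z ∂sph‖
        ≤ (2 * N) * (D * (N : ℝ) ^ (1 / 8 : ℝ) * (E * (N : ℝ) ^ (-(3 / 2) : ℝ))) := by
          refine mul_le_mul (by linarith) h5 (norm_nonneg _) (by positivity)
      _ = 2 * (D * E) * ((N : ℝ) * ((N : ℝ) ^ (1 / 8 : ℝ) * (N : ℝ) ^ (-(3 / 2) : ℝ))) := by ring
      _ = 2 * (D * E) * (N : ℝ) ^ (-(3 / 8 : ℝ)) := by rw [h6]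
  -- the error in the bulk
  have T2 : Tendsto (fun N : ℕ => ((N : ℂ) + 1) * ∫ z in bulk N m,
      (F N z - s i * s k / N * (cr z - 1)) ∂sph) atTop (𝓝 0) := by
    have h1 : Tendsto (fun N : ℕ => 2 * (C * (A + B)) * (N : ℝ) ^ (-(1 / 4 : ℝ))) atTop (𝓝 0) := by
      have := ((tendsto_rpow_neg_atTop (show (0 : ℝ) < 1 / 4 by norm_num)).comp
        tendsto_natCast_atTop_atTop).const_mul (2 * (C * (A + B)))
      rw [mul_zero] at this
      exact this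
    refine squeeze_zero_norm' ?_ h1
    filter_upwards [eventually_ge_atTop 1] with N hN
    have hNR : (1 : ℝ) ≤ N := by exact_mod_cast hN
    have hN0 : (0 : ℝ) < N := by linarith
    obtain ⟨a1, a2⟩ := HA N hN
    obtain ⟨b1, b2⟩ := HB N hN
    rw [norm_mul, hnorm]
    have h2 : ‖∫ z in bulk N m, (F N z - s i * s k / N * (cr z - 1)) ∂sph‖ ≤
        ∫ z in bulk N m, C * (N : ℝ) ^ (1 / 8 - 3 / 2 : ℝ) *
          (1 / (xx (m i) z * Real.sqrt (xx (m k) z)) +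
            1 / (xx (m k) z * Real.sqrt (xx (m i) z))) ∂sph := by
      refine norm_integral_le_of_norm_le ((a1.add b1).const_mul _) ?_
      filter_upwards [ae_restrict_of_ae haez, ae_restrict_mem (measurableSet_bulk N m)] with z hz hb
      exact HC N hN z hz.1 hb
    rw [integral_const_mul, integral_add a1 b1] at h2
    have h4 : 0 ≤ C * (N : ℝ) ^ (1 / 8 - 3 / 2 : ℝ) := by positivity
    have h5 := h2.trans (mul_le_mul_of_nonneg_left (add_le_add a2 b2) h4)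
    have h6 : (N : ℝ) * ((N : ℝ) ^ (1 / 8 - 3 / 2 : ℝ) * (N : ℝ) ^ (1 / 8 : ℝ)) =
        (N : ℝ) ^ (-(1 / 4 : ℝ)) := by
      rw [← Real.rpow_add hN0, ← Real.rpow_one_add' hN0.le (by norm_num)]
      norm_num
    calc ((N : ℝ) + 1) * ‖∫ z in bulk N m, (F N z - s i * s k / N * (cr z - 1)) ∂sph‖
        ≤ (2 * N) * (C * (N : ℝ) ^ (1 / 8 - 3 / 2 : ℝ) *
          (A * (N : ℝ) ^ (1 / 8 : ℝ) + B * (N : ℝ) ^ (1 / 8 : ℝ))) := by
          refine mul_le_mul (by linarith) h5 (norm_nonneg _) (by positivity)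
      _ = 2 * (C * (A + B)) *
          ((N : ℝ) * ((N : ℝ) ^ (1 / 8 - 3 / 2 : ℝ) * (N : ℝ) ^ (1 / 8 : ℝ))) := by ring
      _ = 2 * (C * (A + B)) * (N : ℝ) ^ (-(1 / 4 : ℝ)) := by rw [h6]
  -- the main term
  have T3 : Tendsto (fun N : ℕ => ∫ z in bulk N m, (cr z - 1) ∂sph) atTop
      (𝓝 ((-Real.log (1 - ‖hp (m i) (m k)‖ ^ 2) - 1 : ℝ) : ℂ)) := by
    have h1 : ∫ z, (cr z - 1) ∂sph = ((-Real.log (1 - ‖hp (m i) (m k)‖ ^ 2) - 1 : ℝ) : ℂ) := by
      rw [integral_sub (integrable_cross (hm i) (hm k) (hne i k hik)) (integrable_const 1),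
        integral_cross (hm i) (hm k) (hne i k hik)]
      simp
    rw [← h1]
    have h2 : ∀ N : ℕ, ∫ z in bulk N m, (cr z - 1) ∂sph =
        ∫ z, (bulk N m).indicator (fun z => cr z - 1) z ∂sph := fun N =>
      (integral_indicator (measurableSet_bulk N m)).symm
    rw [tendsto_congr h2]
    refine tendsto_integral_of_dominated_convergence (fun z => ‖cr z - 1‖)
      (fun N => hcrI.aestronglyMeasurable.indicator (measurableSet_bulk N m)) hcrI.norm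
      (fun N => Eventually.of_forall fun z => norm_indicator_le_norm_self _ _) ?_
    filter_upwards [haez] with z hz
    refine tendsto_const_nhds.congr' ?_
    have h3 : ∀ᶠ N : ℕ in atTop, ∀ i, 1 ≤ N * xx (m i) z := by
      rw [eventually_all]
      intro i
      have h4 := tendsto_natCast_atTop_atTop.eventually_ge_atTop (1 / xx (m i) z)
      filter_upwards [h4] with N hN
      rwa [div_le_iff₀ (hz.2 i)] at hN
    filter_upwards [h3] with N hN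
    exact (Set.indicator_of_mem (show z ∈ bulk N m from hN) (fun z => cr z - 1)).symm
  have T4 : Tendsto (fun N : ℕ => ((N : ℂ) + 1) / N) atTop (𝓝 1) := by
    have h1 : Tendsto (fun N : ℕ => 1 + (1 : ℂ) / N) atTop (𝓝 1) := by
      have := (tendsto_one_div_atTop_nhds_zero_nat (𝕜 := ℂ)).const_add 1
      rwa [add_zero] at this
    refine h1.congr' ?_
    filter_upwards [eventually_ge_atTop 1] with N hN
    have : (N : ℂ) ≠ 0 := by
      have : N ≠ 0 := by omega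
      exact_mod_cast this
    field_simp
  have T5 := (T1.add T2).add ((T4.mul_const (s i * s k)).mul T3)
  rw [zero_add, zero_add, one_mul] at T5
  refine T5.congr' ?_
  filter_upwards [eventually_ge_atTop 1] with N hN
  have hN0 : (N : ℂ) ≠ 0 := by
    have : N ≠ 0 := by omega
    exact_mod_cast this
  have e1 : ∫ z, F N z ∂sph = ∫ z in bulk N m, F N z ∂sph + ∫ z in (bulk N m)ᶜ, F N z ∂sph :=
    (integral_add_compl (measurableSet_bulk N m) (hFI N hN)).symm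
  have e2 : ∫ z in bulk N m, (F N z - s i * s k / N * (cr z - 1)) ∂sph =
      ∫ z in bulk N m, F N z ∂sph - s i * s k / N * ∫ z in bulk N m, (cr z - 1) ∂sph := by
    rw [integral_sub (hFI N hN).integrableOn (hcrI.integrableOn.const_mul _),
      integral_const_mul]
  rw [e1, e2]
  field_simp
  ring

end MPF
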