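import Pool.Agent.MPF.Cover

/-!
# MPF/Peel: peeling off one eigenvalue

`Psi l x w M' = [[l - w·x, w], [l x - (M' + x wᵀ) x, M' + x wᵀ]]` has the eigenvector `(1, x)` with eigenvalue `l`.

PROOF. `det_Psi`: `Psi = L T L^{-1}`, `L = [[1,0],[x,1]]`, `T = [[l, w],[0, M']]`.
`peel`: write `M = [[a, w],[b, M₂]]` (volume preserving `Fin (n+1) → E ≃ E × (Fin n → E)`:
`MeasureTheory.volume_preserving_piFinSuccAbove` or `MeasurableEquiv.piFinSuccAbove`). For almost all `(M₂, w, b)`
(`cover_generic`): `(n+1) ∫ φ(a,...) da = ∫ φ(l - w·(l-M₂)^{-1} b, ...) |1 + w·(l-M₂)^{-2} b|² dl`. Exchange the integrals (Tonelli),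
for fixed `l`, `w`, `M₂` with `det(l - M₂) ≠ 0` (for fixed `M₂` true for almost all `l`) substitute `b = (l - M₂) x`: `db = |det(l-M₂)|² dx`
(real Jacobian of a complex linear map; `Measure.map_linearMap_addHaar_eq_smul_addHaar` with `LinearMap.det` over ℝ of a
ℂ-linear map `= |det|²`), then `a = l - w·x` and the weight is
`|det(l - M₂)(1 + w·(l-M₂)^{-1} x)|² = |det(l - M₂ + x wᵀ)|²` (matrix determinant lemma, `Matrix.det_one_add_replicateCol_mul_replicateRow`
or similar). Finally for fixed `l, x, w` substitute `M₂ = M' + x wᵀ` (translation).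
All functions are measurable (`Psi` is continuous).
-/

open MeasureTheory Matrix Finset Filter Topology
open scoped ENNReal ComplexConjugate

namespace MPF

/-- The matrix with eigenvalue `l` and eigenvector `(1,x)`. -/
def Psi {n : ℕ} (l : ℂ) (x w : Fin n → ℂ) (M : Fin n → Fin n → ℂ) :
    Fin (n + 1) → Fin (n + 1) → ℂ :=
  Fin.cons (Fin.cons (l - ∑ j, w j * x j) w)
    (fun i => Fin.cons (l * x i - ∑ j, (M i j + x i * w j) * x j) (fun j => M i j + x i * w j))

theorem det_Psi {n : ℕ} (c l : ℂ) (x w : Fin n → ℂ) (M : Fin n → Fin n → ℂ) :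
    (c • (1 : Matrix (Fin (n + 1)) (Fin (n + 1)) ℂ) - Matrix.of (Psi l x w M)).det =
      (c - l) * (c • (1 : Matrix (Fin n) (Fin n) ℂ) - Matrix.of M).det := by
  set A : Matrix (Fin (n + 1)) (Fin (n + 1)) ℂ :=
    c • (1 : Matrix (Fin (n + 1)) (Fin (n + 1)) ℂ) - Matrix.of (Psi l x w M) with hA
  set v : Fin (n + 1) → ℂ := Fin.cons 1 x with hv
  have h1 : A *ᵥ v = (c - l) • v := by
    funext i
    refine Fin.cases ?_ (fun i => ?_) i
    · simp only [hA, hv, Matrix.mulVec, dotProduct, Matrix.sub_apply, Matrix.smul_apply,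
        Matrix.of_apply, Fin.sum_univ_succ, Psi, Fin.cons_zero, Fin.cons_succ, Pi.smul_apply,
        smul_eq_mul, Matrix.one_apply, if_true, (Fin.succ_ne_zero _).symm, if_false]
      simp only [mul_zero, zero_sub, neg_mul, Finset.sum_neg_distrib]
      ring
    · simp only [hA, hv, Matrix.mulVec, dotProduct, Matrix.sub_apply, Matrix.smul_apply,
        Matrix.of_apply, Fin.sum_univ_succ, Psi, Fin.cons_zero, Fin.cons_succ, Pi.smul_apply,
        smul_eq_mul, Matrix.one_apply, (Fin.succ_ne_zero _), if_false, Fin.succ_inj]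
      have h2 : ∑ j, (c * (if i = j then (1 : ℂ) else 0) - (M i j + x i * w j)) * x j =
          c * x i - ∑ j, (M i j + x i * w j) * x j := by
        simp only [sub_mul, Finset.sum_sub_distrib, mul_ite, mul_one, mul_zero, ite_mul, zero_mul,
          Finset.sum_ite_eq, Finset.mem_univ, if_true]
      rw [h2]
      ring
  have h3 : (A.updateCol 0 (A *ᵥ v)).det = A.det := by
    have h4 := congrFun (Matrix.cramer_eq_adjugate_mulVec A (A *ᵥ v)) 0
    rw [Matrix.cramer_apply, Matrix.mulVec_mulVec, Matrix.adjugate_mul, Matrix.smul_mulVec,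
      Matrix.one_mulVec] at h4
    rw [h4]
    simp [hv]
  rw [← h3, h1]
  set B : Matrix (Fin (n + 1)) (Fin (n + 1)) ℂ := A.updateCol 0 ((c - l) • v) with hB
  set T : Matrix (Fin (n + 1)) (Fin (n + 1)) ℂ :=
    Matrix.of (Fin.cons (Fin.cons (c - l) (fun j => - w j))
      (fun i => Fin.cons 0 (fun j => c * (if i = j then (1 : ℂ) else 0) - M i j))) with hT
  have h5 : B.det = T.det := by
    refine Matrix.det_eq_of_forall_row_eq_smul_add_const (Fin.cons 0 x) 0 (by simp) ?_
    intro i j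
    refine Fin.cases ?_ (fun i => ?_) i
    · refine Fin.cases ?_ (fun j => ?_) j
      · simp [hB, hT, hv]
      · simp [hB, hT, hA, Psi, Matrix.updateCol_ne, Fin.succ_ne_zero,
          (Fin.succ_ne_zero _).symm]
    · refine Fin.cases ?_ (fun j => ?_) j
      · simp [hB, hT, hv]
        ring
      · simp [hB, hT, hA, Psi, Matrix.updateCol_ne, Fin.succ_ne_zero, Matrix.one_apply]
        ring
  rw [h5, Matrix.det_succ_column_zero, Fin.sum_univ_succ]
  have h6 : ∀ i : Fin n, T i.succ 0 = 0 := fun i => by simp [hT]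
  simp only [h6, mul_zero, zero_mul, Finset.sum_const_zero, add_zero]
  have h7 : T.submatrix (Fin.succAbove 0) Fin.succ =
      c • (1 : Matrix (Fin n) (Fin n) ℂ) - Matrix.of M := by
    ext i j
    simp [hT, Matrix.one_apply]
  rw [h7]
  simp [hT]

/-- The substitution `b = A x`. -/
private lemma Peel_subst {n : ℕ} (A : Matrix (Fin n) (Fin n) ℂ) (hA : A.det ≠ 0)
    (G : (Fin n → ℂ) → ℝ≥0∞) (hG : Measurable G) :
    ∫⁻ b, G b = ENNReal.ofReal (‖A.det‖ ^ 2) * ∫⁻ x, G (A *ᵥ x) := by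
  set f : (Fin n → ℂ) →ₗ[ℝ] (Fin n → ℂ) := (Matrix.toLin' A).restrictScalars ℝ with hf
  have hdet : LinearMap.det f = ‖A.det‖ ^ 2 := by
    rw [hf, LinearMap.det_restrictScalars, LinearMap.det_toLin', Algebra.norm_complex_apply,
      Complex.normSq_eq_norm_sq]
  have hne : LinearMap.det f ≠ 0 := by
    rw [hdet]
    exact pow_ne_zero _ (norm_ne_zero_iff.2 hA)
  have hmap := Measure.map_linearMap_addHaar_eq_smul_addHaar (volume : Measure (Fin n → ℂ)) hne
  have hfm : Measurable f := (LinearMap.continuous_of_finiteDimensional f).measurable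
  have h1 : ∫⁻ x, G (A *ᵥ x) = ∫⁻ b, G b ∂(Measure.map f volume) := by
    rw [lintegral_map hG hfm]
    rfl
  rw [h1, hmap, lintegral_smul_measure, smul_eq_mul, ← mul_assoc, ← ENNReal.ofReal_mul (by positivity),
    hdet, abs_inv, abs_of_nonneg (by positivity : (0 : ℝ) ≤ ‖A.det‖ ^ 2), mul_inv_cancel₀,
    ENNReal.ofReal_one, one_mul]
  exact pow_ne_zero _ (norm_ne_zero_iff.2 hA)

/-- The block matrix `[[a, w], [b, M]]`. -/
private def PeelTh {n : ℕ} (a : ℂ) (w b : Fin n → ℂ) (M : Fin n → Fin n → ℂ) :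
    Fin (n + 1) → Fin (n + 1) → ℂ :=
  Fin.cons (Fin.cons a w) (fun i => Fin.cons (b i) (M i))

private lemma Peel_continuous_Th {n : ℕ} :
    Continuous fun p : ℂ × ((Fin n → ℂ) × ((Fin n → ℂ) × (Fin n → Fin n → ℂ))) =>
      PeelTh p.1 p.2.1 p.2.2.1 p.2.2.2 := by
  refine continuous_pi fun i => continuous_pi fun j => ?_
  refine Fin.cases ?_ (fun i => ?_) i
  · refine Fin.cases ?_ (fun j => ?_) j
    · simp only [PeelTh, Fin.cons_zero]
      fun_prop
    · simp only [PeelTh, Fin.cons_zero, Fin.cons_succ]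
      fun_prop
  · refine Fin.cases ?_ (fun j => ?_) j
    · simp only [PeelTh, Fin.cons_zero, Fin.cons_succ]
      fun_prop
    · simp only [PeelTh, Fin.cons_succ]
      fun_prop

private lemma Peel_measurable_Th {n : ℕ} {α : Type*} [MeasurableSpace α] {a : α → ℂ}
    {w b : α → Fin n → ℂ} {M : α → Fin n → Fin n → ℂ} (ha : Measurable a) (hw : Measurable w)
    (hb : Measurable b) (hM : Measurable M) :
    Measurable fun p => PeelTh (a p) (w p) (b p) (M p) :=
  Peel_continuous_Th.measurable.comp (ha.prodMk (hw.prodMk (hb.prodMk hM)))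

/-- Cutting a square array into blocks. -/
private lemma Peel_mp (n : ℕ) :
    MeasurePreserving (fun M : Fin (n + 1) → Fin (n + 1) → ℂ =>
      (((fun i j => M (Fin.succ i) (Fin.succ j) : Fin n → Fin n → ℂ),
        ((fun j => M 0 (Fin.succ j) : Fin n → ℂ), (fun i => M (Fin.succ i) 0 : Fin n → ℂ))),
        M 0 0)) := by
  have e1 := volume_preserving_piFinSuccAbove (fun _ : Fin (n + 1) => (Fin (n + 1) → ℂ)) 0
  have e2 := volume_preserving_piFinSuccAbove (fun _ : Fin (n + 1) => ℂ) 0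
  have e3 := volume_measurePreserving_arrowProdEquivProdArrow ℂ (Fin n → ℂ) (Fin n)
  have e4 : MeasurePreserving (fun (M : Fin n → (Fin (n + 1) → ℂ)) (i : Fin n) =>
      (MeasurableEquiv.piFinSuccAbove (fun _ : Fin (n + 1) => ℂ) 0) (M i)) :=
    volume_preserving_pi (fun _ => e2)
  have e5 := (e2.prod (e3.comp e4)).comp e1
  have e6 := (measurePreserving_prodAssoc (volume : Measure ℂ) (volume : Measure (Fin n → ℂ))
    (volume : Measure ((Fin n → ℂ) × (Fin n → Fin n → ℂ)))).comp e5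
  have i1 : SigmaFinite (volume : Measure ((Fin n → ℂ) × (Fin n → ℂ))) :=
    inferInstanceAs (SigmaFinite ((volume : Measure (Fin n → ℂ)).prod
      (volume : Measure (Fin n → ℂ))))
  have i2 : SigmaFinite (volume : Measure ((Fin n → ℂ) × (Fin n → Fin n → ℂ))) :=
    inferInstanceAs (SigmaFinite ((volume : Measure (Fin n → ℂ)).prod
      (volume : Measure (Fin n → Fin n → ℂ))))
  have i3 : SigmaFinite
      (volume : Measure ((Fin n → ℂ) × ((Fin n → ℂ) × (Fin n → Fin n → ℂ)))) :=
    inferInstanceAs (SigmaFinite ((volume : Measure (Fin n → ℂ)).prod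
      (volume : Measure ((Fin n → ℂ) × (Fin n → Fin n → ℂ)))))
  have e7 := (Measure.measurePreserving_swap (μ := (volume : Measure ℂ))
    (ν := (volume : Measure ((Fin n → ℂ) × ((Fin n → ℂ) × (Fin n → Fin n → ℂ)))))).comp e6
  have e8 := ((measurePreserving_prodAssoc (volume : Measure (Fin n → ℂ))
    (volume : Measure (Fin n → ℂ)) (volume : Measure (Fin n → Fin n → ℂ))).symm).prod
      (MeasurePreserving.id (volume : Measure ℂ))
  have e9 := (Measure.measurePreserving_swap
    (μ := (volume : Measure ((Fin n → ℂ) × (Fin n → ℂ))))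
    (ν := (volume : Measure (Fin n → Fin n → ℂ)))).prod
      (MeasurePreserving.id (volume : Measure ℂ))
  exact (e9.comp e8).comp e7

private lemma Peel_split (n : ℕ) {φ : (Fin (n + 1) → Fin (n + 1) → ℂ) → ℝ≥0∞} (hφ : Measurable φ) :
    ∫⁻ M : Fin (n + 1) → Fin (n + 1) → ℂ, φ M =
      ∫⁻ p : (Fin n → Fin n → ℂ) × ((Fin n → ℂ) × (Fin n → ℂ)), ∫⁻ a : ℂ,
        φ (PeelTh a p.2.1 p.2.2 p.1) := by
  have hg : Measurable fun q : ((Fin n → Fin n → ℂ) × ((Fin n → ℂ) × (Fin n → ℂ))) × ℂ =>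
      φ (PeelTh q.2 q.1.2.1 q.1.2.2 q.1.1) :=
    hφ.comp (Peel_measurable_Th measurable_snd measurable_fst.snd.fst measurable_fst.snd.snd
      measurable_fst.fst)
  have h1 := (Peel_mp n).lintegral_comp hg
  rw [Measure.volume_eq_prod, lintegral_prod _ hg.aemeasurable] at h1
  rw [← h1]
  refine lintegral_congr fun M => ?_
  congr 1
  funext i j
  refine Fin.cases ?_ (fun i => ?_) i
  · refine Fin.cases ?_ (fun j => ?_) j
    · simp [PeelTh]
    · simp [PeelTh]
  · refine Fin.cases ?_ (fun j => ?_) j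
    · simp [PeelTh]
    · simp [PeelTh]

/-- The matrix `l - M`. -/
private def PeelD {n : ℕ} (l : ℂ) (M : Fin n → Fin n → ℂ) : Matrix (Fin n) (Fin n) ℂ :=
  l • (1 : Matrix (Fin n) (Fin n) ℂ) - Matrix.of M

private lemma Peel_continuous_D {n : ℕ} :
    Continuous fun p : ℂ × (Fin n → Fin n → ℂ) => PeelD p.1 p.2 := by
  refine continuous_pi fun i => continuous_pi fun j => ?_
  simp only [PeelD, Matrix.sub_apply, Matrix.smul_apply, Matrix.of_apply]
  fun_prop

private lemma Peel_measurable_D {n : ℕ} (i j : Fin n) :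
    Measurable fun p : ℂ × (Fin n → Fin n → ℂ) => PeelD p.1 p.2 i j :=
  (Peel_continuous_D.matrix_elem i j).measurable

private lemma Peel_measurable_det {n : ℕ} :
    Measurable fun p : ℂ × (Fin n → Fin n → ℂ) => (PeelD p.1 p.2).det :=
  (Peel_continuous_D.matrix_det).measurable

private lemma Peel_measurable_inv {n : ℕ} (i j : Fin n) :
    Measurable fun p : ℂ × (Fin n → Fin n → ℂ) => (PeelD p.1 p.2)⁻¹ i j := by
  have h1 : Measurable fun p : ℂ × (Fin n → Fin n → ℂ) => (PeelD p.1 p.2).det :=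
    (Peel_continuous_D.matrix_det).measurable
  have h2 : Measurable fun p : ℂ × (Fin n → Fin n → ℂ) => (PeelD p.1 p.2).adjugate i j :=
    (Peel_continuous_D.matrix_adjugate.matrix_elem i j).measurable
  have h3 : (fun p : ℂ × (Fin n → Fin n → ℂ) => (PeelD p.1 p.2)⁻¹ i j) =
      fun p => ((PeelD p.1 p.2).det)⁻¹ * (PeelD p.1 p.2).adjugate i j := by
    funext p
    rw [Matrix.inv_def, Ring.inverse_eq_inv', Matrix.smul_apply, smul_eq_mul]
  rw [h3]
  exact h1.inv.mul h2

private lemma Peel_measurable_mv {n : ℕ} {α : Type*} [MeasurableSpace α] {l : α → ℂ}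
    {M : α → Fin n → Fin n → ℂ} {b : α → Fin n → ℂ} (hl : Measurable l) (hM : Measurable M)
    (hb : Measurable b) : Measurable fun t => (PeelD (l t) (M t))⁻¹ *ᵥ (b t) := by
  refine measurable_pi_iff.2 fun i => ?_
  simp only [Matrix.mulVec, dotProduct]
  refine Finset.measurable_sum _ fun j _ => ?_
  exact ((Peel_measurable_inv i j).comp (hl.prodMk hM)).mul ((measurable_pi_apply j).comp hb)

private lemma Peel_measurable_dot {n : ℕ} {α : Type*} [MeasurableSpace α]
    {a b : α → Fin n → ℂ} (ha : Measurable a) (hb : Measurable b) :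
    Measurable fun t => (a t) ⬝ᵥ (b t) := by
  simp only [dotProduct]
  exact Finset.measurable_sum _ fun j _ =>
    ((measurable_pi_apply j).comp ha).mul ((measurable_pi_apply j).comp hb)

private lemma Peel_det_ne {n : ℕ} (M : Fin n → Fin n → ℂ) : ∀ᵐ l : ℂ, (PeelD l M).det ≠ 0 := by
  have h1 : {l : ℂ | ¬ (PeelD l M).det ≠ 0} ⊆ {l : ℂ | (Matrix.of M).charpoly.IsRoot l} := by
    intro l hl
    simp only [ne_eq, not_not, Set.mem_ofPred_eq] at hl
    show (Matrix.of M).charpoly.eval l = 0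
    rw [Matrix.eval_charpoly, ← hl, PeelD, Matrix.scalar_apply, Matrix.smul_one_eq_diagonal]
  have h2 : Set.Finite {l : ℂ | (Matrix.of M).charpoly.IsRoot l} :=
    Polynomial.finite_setOfPred_isRoot (Matrix.charpoly_monic _).ne_zero
  exact (h2.subset h1).measure_zero _

/-- The integrand before the substitution. -/
private noncomputable def PeelF {n : ℕ} (φ : (Fin (n + 1) → Fin (n + 1) → ℂ) → ℝ≥0∞) (l : ℂ)
    (M : Fin n → Fin n → ℂ) (w b : Fin n → ℂ) : ℝ≥0∞ :=
  φ (PeelTh (l - w ⬝ᵥ ((PeelD l M)⁻¹ *ᵥ b)) w b M) *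
    ENNReal.ofReal (‖1 + w ⬝ᵥ ((PeelD l M)⁻¹ *ᵥ ((PeelD l M)⁻¹ *ᵥ b))‖ ^ 2)

/-- The integrand after the substitution. -/
private noncomputable def PeelK {n : ℕ} (φ : (Fin (n + 1) → Fin (n + 1) → ℂ) → ℝ≥0∞) (l : ℂ)
    (x w : Fin n → ℂ) (M : Fin n → Fin n → ℂ) : ℝ≥0∞ :=
  φ (PeelTh (l - w ⬝ᵥ x) w (PeelD l M *ᵥ x) M) *
    ENNReal.ofReal (‖(PeelD l (fun i j => M i j - x i * w j)).det‖ ^ 2)

private lemma Peel_measurable_F {n : ℕ} {φ : (Fin (n + 1) → Fin (n + 1) → ℂ) → ℝ≥0∞}
    (hφ : Measurable φ) {α : Type*} [MeasurableSpace α] {l : α → ℂ}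
    {M : α → Fin n → Fin n → ℂ} {w b : α → Fin n → ℂ} (hl : Measurable l) (hM : Measurable M)
    (hw : Measurable w) (hb : Measurable b) :
    Measurable fun t => PeelF φ (l t) (M t) (w t) (b t) := by
  have h1 := Peel_measurable_mv hl hM hb
  have h2 := Peel_measurable_mv hl hM h1
  unfold PeelF
  refine (hφ.comp (Peel_measurable_Th (hl.sub (Peel_measurable_dot hw h1)) hw hb hM)).mul ?_
  exact ((((Peel_measurable_dot hw h2).const_add 1).norm).pow_const 2).ennreal_ofReal

private lemma Peel_measurable_K {n : ℕ} {φ : (Fin (n + 1) → Fin (n + 1) → ℂ) → ℝ≥0∞}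
    (hφ : Measurable φ) {α : Type*} [MeasurableSpace α] {l : α → ℂ}
    {M : α → Fin n → Fin n → ℂ} {x w : α → Fin n → ℂ} (hl : Measurable l) (hM : Measurable M)
    (hx : Measurable x) (hw : Measurable w) :
    Measurable fun t => PeelK φ (l t) (x t) (w t) (M t) := by
  unfold PeelK
  have h1 : Measurable fun t => (PeelD (l t) (M t)) *ᵥ (x t) := by
    refine measurable_pi_iff.2 fun i => ?_
    simp only [Matrix.mulVec, dotProduct]
    refine Finset.measurable_sum _ fun j _ => ?_
    exact ((Peel_measurable_D i j).comp (hl.prodMk hM)).mul ((measurable_pi_apply j).comp hx)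
  have h3 : Measurable fun t => (PeelD (l t) (fun i j => M t i j - x t i * w t j)).det := by
    have h4 : Measurable fun t => (fun i j => M t i j - x t i * w t j : Fin n → Fin n → ℂ) := by
      refine measurable_pi_iff.2 fun i => measurable_pi_iff.2 fun j => ?_
      exact ((measurable_pi_apply j).comp ((measurable_pi_apply i).comp hM)).sub
        (((measurable_pi_apply i).comp hx).mul ((measurable_pi_apply j).comp hw))
    exact Peel_measurable_det.comp (hl.prodMk h4)
  refine (hφ.comp (Peel_measurable_Th (hl.sub (Peel_measurable_dot hw hx)) hw h1 hM)).mul ?_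
  exact ((h3.norm).pow_const 2).ennreal_ofReal

private lemma Peel_FK {n : ℕ} {φ : (Fin (n + 1) → Fin (n + 1) → ℂ) → ℝ≥0∞} (hφ : Measurable φ)
    (l : ℂ) (M : Fin n → Fin n → ℂ) (hD : (PeelD l M).det ≠ 0) (w : Fin n → ℂ) :
    ∫⁻ b, PeelF φ l M w b = ∫⁻ x, PeelK φ l x w M := by
  have hG : Measurable fun b => PeelF φ l M w b :=
    Peel_measurable_F hφ measurable_const measurable_const measurable_const measurable_id
  have hu : IsUnit (PeelD l M).det := isUnit_iff_ne_zero.2 hD
  rw [Peel_subst (PeelD l M) hD _ hG, ← lintegral_const_mul' _ _ ENNReal.ofReal_ne_top]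
  refine lintegral_congr fun x => ?_
  have h1 : (PeelD l M)⁻¹ *ᵥ (PeelD l M *ᵥ x) = x := by
    rw [Matrix.mulVec_mulVec, Matrix.nonsing_inv_mul _ hu, Matrix.one_mulVec]
  have h3 : (PeelD l (fun i j => M i j - x i * w j)).det =
      (PeelD l M).det * (1 + w ⬝ᵥ ((PeelD l M)⁻¹ *ᵥ x)) := by
    refine Eq.trans (congrArg Matrix.det ?_)
      ((Matrix.det_add_replicateCol_mul_replicateRow (ι := Unit) hu x w).trans ?_)
    · ext i j
      simp [PeelD, Matrix.mul_apply]
      ring
    · congr 1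
      rw [Matrix.det_unique, Matrix.add_apply, Matrix.one_apply_eq, Matrix.mul_assoc,
        Matrix.mul_apply]
      congr 1
  unfold PeelF PeelK
  rw [h1, h3, norm_mul, mul_pow, ENNReal.ofReal_mul (by positivity)]
  ring

theorem peel (n : ℕ) {φ : (Fin (n + 1) → Fin (n + 1) → ℂ) → ℝ≥0∞} (hφ : Measurable φ) :
    ((n + 1 : ℕ) : ℝ≥0∞) * ∫⁻ M : Fin (n + 1) → Fin (n + 1) → ℂ, φ M =
      ∫⁻ l : ℂ, ∫⁻ x : Fin n → ℂ, ∫⁻ w : Fin n → ℂ, ∫⁻ M : Fin n → Fin n → ℂ,
        φ (Psi l x w M) * ENNReal.ofReal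
          (‖(l • (1 : Matrix (Fin n) (Fin n) ℂ) - Matrix.of M).det‖ ^ 2) := by
  rw [Peel_split n hφ, ← lintegral_const_mul' _ _ (ENNReal.natCast_ne_top _)]
  have hA : ∀ᵐ p : (Fin n → Fin n → ℂ) × ((Fin n → ℂ) × (Fin n → ℂ)),
      ((n + 1 : ℕ) : ℝ≥0∞) * ∫⁻ a : ℂ, φ (PeelTh a p.2.1 p.2.2 p.1) =
        ∫⁻ l : ℂ, PeelF φ l p.1 p.2.1 p.2.2 := by
    filter_upwards [cover_generic n] with p hp
    have h1 := hp (fun a => φ (PeelTh a p.2.1 p.2.2 p.1)) (hφ.comp (Peel_measurable_Th
      measurable_id measurable_const measurable_const measurable_const))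
    rw [h1]
    rfl
  rw [lintegral_congr_ae hA]
  have m1 : Measurable fun t : ((Fin n → Fin n → ℂ) × ((Fin n → ℂ) × (Fin n → ℂ))) × ℂ =>
      PeelF φ t.2 t.1.1 t.1.2.1 t.1.2.2 :=
    Peel_measurable_F hφ measurable_snd measurable_fst.fst measurable_fst.snd.fst
      measurable_fst.snd.snd
  have m2 := m1.lintegral_prod_right' (ν := (volume : Measure ℂ))
  rw [Measure.volume_eq_prod, lintegral_prod _ m2.aemeasurable]
  -- exchange `l` and `(w, b)`
  have h2 : ∀ M : Fin n → Fin n → ℂ,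
      ∫⁻ q : (Fin n → ℂ) × (Fin n → ℂ), ∫⁻ l : ℂ, PeelF φ l M q.1 q.2 =
        ∫⁻ l : ℂ, ∫⁻ w : Fin n → ℂ, ∫⁻ x : Fin n → ℂ, PeelK φ l x w M := by
    intro M
    rw [lintegral_lintegral_swap (Measurable.aemeasurable (Peel_measurable_F hφ measurable_snd
      measurable_const measurable_fst.fst measurable_fst.snd))]
    refine lintegral_congr_ae ?_
    filter_upwards [Peel_det_ne M] with l hl
    rw [Measure.volume_eq_prod, lintegral_prod _ (Measurable.aemeasurable (Peel_measurable_F hφ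
      measurable_const measurable_const measurable_fst measurable_snd))]
    exact lintegral_congr fun w => Peel_FK hφ l M hl w
  rw [lintegral_congr h2]
  have m3 : Measurable fun t : (((Fin n → Fin n → ℂ) × ℂ) × (Fin n → ℂ)) × (Fin n → ℂ) =>
      PeelK φ t.1.1.2 t.2 t.1.2 t.1.1.1 :=
    Peel_measurable_K hφ measurable_fst.fst.snd measurable_fst.fst.fst measurable_snd
      measurable_fst.snd
  have m4 := (m3.lintegral_prod_right' (ν := (volume : Measure (Fin n → ℂ)))).lintegral_prod_right'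
    (ν := (volume : Measure (Fin n → ℂ)))
  rw [lintegral_lintegral_swap m4.aemeasurable]
  refine lintegral_congr fun l => ?_
  -- exchange `x` and `w`, then `M` and `(x, w)`
  have h3 : ∀ M : Fin n → Fin n → ℂ,
      ∫⁻ w : Fin n → ℂ, ∫⁻ x : Fin n → ℂ, PeelK φ l x w M =
        ∫⁻ x : Fin n → ℂ, ∫⁻ w : Fin n → ℂ, PeelK φ l x w M := by
    intro M
    exact lintegral_lintegral_swap (Measurable.aemeasurable (Peel_measurable_K hφ measurable_const
      measurable_const measurable_snd measurable_fst))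
  rw [lintegral_congr h3]
  have m5 : Measurable fun t : ((Fin n → Fin n → ℂ) × (Fin n → ℂ)) × (Fin n → ℂ) =>
      PeelK φ l t.1.2 t.2 t.1.1 :=
    Peel_measurable_K hφ measurable_const measurable_fst.fst measurable_fst.snd
      measurable_snd
  have m6 := m5.lintegral_prod_right' (ν := (volume : Measure (Fin n → ℂ)))
  rw [lintegral_lintegral_swap m6.aemeasurable]
  refine lintegral_congr fun x => ?_
  rw [lintegral_lintegral_swap (Measurable.aemeasurable (Peel_measurable_K hφ measurable_const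
    measurable_fst measurable_const measurable_snd))]
  refine lintegral_congr fun w => ?_
  rw [← lintegral_add_right_eq_self (fun M => PeelK φ l x w M)
    (fun i j => x i * w j : Fin n → Fin n → ℂ)]
  refine lintegral_congr fun M => ?_
  unfold PeelK
  have h4 : PeelTh (l - w ⬝ᵥ x) w
      (PeelD l (M + fun i j => x i * w j) *ᵥ x) (M + fun i j => x i * w j) = Psi l x w M := by
    funext i j
    refine Fin.cases ?_ (fun i => ?_) i
    · refine Fin.cases ?_ (fun j => ?_) j
      · simp [PeelTh, Psi, dotProduct]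
      · simp [PeelTh, Psi]
    · refine Fin.cases ?_ (fun j => ?_) j
      · simp only [PeelTh, Psi, Fin.cons_zero, Fin.cons_succ, PeelD, Matrix.sub_mulVec,
          Matrix.smul_mulVec, Matrix.one_mulVec, Pi.sub_apply, Pi.smul_apply, smul_eq_mul]
        congr 1
      · simp [PeelTh, Psi]
  have h5 : (fun i j => (M + fun i j => x i * w j : Fin n → Fin n → ℂ) i j - x i * w j) = M := by
    funext i j
    simp
  rw [h4, h5]
  rfl

end MPF
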