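import Pool.Agent.MPF.Loc2

/-!
# MPF/QB: the bound for products of the operators `Q_i(z)` on `coh z`

`Q_i(z) = x_i^{s_i} D_i^{-1} - 1 = fN N (m i) (pp N (s i) x_i j - 1)`, `x_i = xx (m i) z`,
`M = N x_i`, `a = aa (s i) = max (-Re s_i) 0 ∈ [0,1)`, `Gf a M = (1 + M^{-a}) (1+M)^{-1/2}`.

PROOF. (1) `q_bound_win`: if `0 < x ≤ 1`, `j ≤ N` and `j` is in the window (`offw N η (N x) j = 0`), then
`‖pp N s x j - 1‖ ≤ C N^{c η} Gf a (N x)`, `c = 4|Re s| + 4`. Case `M = N x ≥ 16 N^{4η}`: the window gives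
`|j - M| ≤ N^η(√M + N^η) ≤ 2 N^η √M ≤ M/2`, `pp_taylor`: `≤ C(|u| + 1/M + u²)`, `|u| = |j-M|/M ≤ 2N^η/√M ≤ 1/2`: total
`≤ C N^{η} M^{-1/2} ≤ C' N^η Gf a M` (`M ≥ 1`). Case `M < 16 N^{4η}`: `j + 1 ≤ M + N^η(√M + N^η) + 1 ≤ C N^{4η}`, by `pp_bound`
`‖pp‖ ≤ C (M/(j+1))^{Re s}`, `≤ C M^{Re s} ≤ C N^{4η Re s}` if `Re s ≥ 0`, `≤ C M^{-a} N^{4ηa}` if `Re s = -a < 0`;
and `(1+M)^{-1/2} ≥ c N^{-2η}`.
(2) `q_bound_all`: `‖pp N s x j - 1‖ ≤ C N^{B} (1 + x^{-a})` for all `j ≤ N` (`pp_bound`: `Re s ≥ 0`: `(Nx/(j+1))^{Re s} ≤ N^{Re s}`;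
`Re s < 0`: `((j+1)/(N x))^{a} ≤ 2 x^{-a}`).
(3) tails: for a list `l` and `b`: `nr (fN N (m b) (offw ..) *ᵥ ((l.map Q).prod *ᵥ coh z)) ≤ C N^{-A} ∏_{i ∈ l} (1 + x_i^{-a_i})`.
Expand `∏ (P_i - 1)`, `P_i = x_i^{s_i} D_i^{-1}`, as a sum over sublists (or do the induction over lists of the form
`(l₁.map D^{-1}).prod * (l₂.map Q).prod` for all pairs `l₁, l₂`: `Q_i = x_i^{s_i} D_i^{-1} - 1`); `|x^{s}| ≤ 1 + x^{-a}`, `loc2`.
(4) `Q_bound` by induction on the list: `v = (l.map Q).prod *ᵥ coh z`, new factor `Q_b`: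
`q = q 1_window + q 1_off`, `nr (Q_b v) ≤ C N^{cη} Gf(M_b) nr v + C N^B (1 + x_b^{-a_b}) nr (fN offw v)`, the last term is
`≤ C_A N^{B-A} ∏_{i ∈ b::l} (1 + x_i^{-a_i})`, and `1 + x^{-a} ≤ N^{a}(1 + (N x)^{-a})`, `(1 + N x)^{-1/2} ≥ (2N)^{-1/2}` for `x ≤ 1`, so
`1 + x_i^{-a_i} ≤ C N^{2} Gf(a_i)(N x_i)`: take `A` large. `η` small depending on `ε` and the length.
`Qstar_bound`: `fN_conjTranspose`, norms of the function are the same (`nr_fN_mono` twice).
-/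

open MeasureTheory Matrix Finset Filter Topology
open scoped ENNReal ComplexConjugate

namespace MPF

private lemma QB_aa_nonneg (s : ℂ) : 0 ≤ aa s := le_max_right _ _

private lemma QB_aa_lt {s : ℂ} (hs : -1 < s.re) : aa s < 1 := by
  unfold aa
  exact max_lt (by linarith) one_pos

private lemma QB_aa_le_abs (s : ℂ) : aa s ≤ |s.re| := by
  unfold aa
  exact max_le (neg_le_abs _) (abs_nonneg _)

private lemma QB_aa_pos {s : ℂ} (h : 0 ≤ s.re) : aa s = 0 := by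
  unfold aa
  exact max_eq_right (by linarith)

private lemma QB_aa_neg {s : ℂ} (h : s.re < 0) : aa s = -s.re := by
  unfold aa
  exact max_eq_left (by linarith)

private lemma QB_Gf_pos (a : ℝ) {M : ℝ} (hM : 0 < M) : 0 < Gf a M := by
  unfold Gf
  have h1 : 0 < M ^ (-a) := Real.rpow_pos_of_pos hM _
  have h2 : 0 < (1 + M) ^ (-(1 / 2) : ℝ) := Real.rpow_pos_of_pos (by linarith) _
  positivity

/-- Crude bound for all `j ≤ N`. -/
theorem q_bound_all {s : ℂ} (hs : -1 < s.re) : ∃ C B : ℝ, 0 < C ∧ 0 < B ∧ ∀ N : ℕ, 1 ≤ N →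
    ∀ x : ℝ, 0 < x → x ≤ 1 → ∀ j : ℕ, j ≤ N →
      ‖pp N s x j - 1‖ ≤ C * (N : ℝ) ^ B * (1 + x ^ (-aa s)) := by
  obtain ⟨C0, hC0, h0⟩ := pp_bound hs
  refine ⟨2 * C0 + 1, |s.re| + 1, by positivity, by positivity, ?_⟩
  intro N hN x hx hx1 j hj
  have hN1 : (1 : ℝ) ≤ N := by exact_mod_cast hN
  have hjN : (j : ℝ) ≤ N := by exact_mod_cast hj
  have hj0 : (0 : ℝ) ≤ j := Nat.cast_nonneg j
  have hxa : 0 < x ^ (-aa s) := Real.rpow_pos_of_pos hx _
  have hNB : (1 : ℝ) ≤ (N : ℝ) ^ (|s.re| + 1) := Real.one_le_rpow hN1 (by positivity)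
  have h1 : ‖pp N s x j - 1‖ ≤ C0 * ((N * x) / (j + 1)) ^ s.re + 1 := by
    refine (norm_sub_le _ _).trans ?_
    rw [norm_one]
    linarith [h0 N hN x hx hx1 j hj]
  have h2 : ((N * x) / (j + 1)) ^ s.re ≤ 2 * (N : ℝ) ^ (|s.re| + 1) * (1 + x ^ (-aa s)) := by
    rcases le_or_gt 0 s.re with h | h
    · have e1 : ((N * x) / ((j : ℝ) + 1)) ^ s.re ≤ (N : ℝ) ^ s.re := by
        apply Real.rpow_le_rpow (by positivity) _ h
        rw [div_le_iff₀ (by positivity)]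
        nlinarith
      have e2 : (N : ℝ) ^ s.re ≤ (N : ℝ) ^ (|s.re| + 1) :=
        Real.rpow_le_rpow_of_exponent_le hN1 (by linarith [le_abs_self s.re])
      nlinarith
    · have e1 : ((N * x) / ((j : ℝ) + 1)) ^ s.re = (((j : ℝ) + 1) / (N * x)) ^ (aa s) := by
        rw [QB_aa_neg h, Real.rpow_neg (by positivity), ← Real.inv_rpow (by positivity), inv_div]
      have e2 : (((j : ℝ) + 1) / (N * x)) ^ (aa s) ≤ (2 / x) ^ (aa s) := by
        apply Real.rpow_le_rpow (by positivity) _ (QB_aa_nonneg s)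
        rw [div_le_div_iff₀ (by positivity) hx]
        nlinarith
      have e3 : ((2 : ℝ) / x) ^ (aa s) = 2 ^ (aa s) * x ^ (-aa s) := by
        rw [Real.div_rpow (by norm_num) hx.le, Real.rpow_neg hx.le]
        rfl
      have e4 : (2 : ℝ) ^ (aa s) ≤ 2 := by
        calc (2 : ℝ) ^ (aa s) ≤ 2 ^ (1 : ℝ) :=
              Real.rpow_le_rpow_of_exponent_le (by norm_num) (QB_aa_lt hs).le
          _ = 2 := Real.rpow_one 2
      rw [e1]
      refine e2.trans ?_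
      rw [e3]
      nlinarith [mul_le_mul_of_nonneg_right e4 hxa.le]
  have h3 : (1 : ℝ) ≤ (N : ℝ) ^ (|s.re| + 1) * (1 + x ^ (-aa s)) := by nlinarith
  refine h1.trans ?_
  have h4 := mul_le_mul_of_nonneg_left h2 hC0.le
  nlinarith

/-- Bound on the window. -/
theorem q_bound_win {s : ℂ} (hs : -1 < s.re) {η : ℝ} (hη : 0 < η) : ∃ C : ℝ, 0 < C ∧
    ∀ N : ℕ, 1 ≤ N → ∀ x : ℝ, 0 < x → x ≤ 1 → ∀ j : ℕ, j ≤ N → offw N η (N * x) j = 0 →
      ‖pp N s x j - 1‖ ≤ C * (N : ℝ) ^ ((4 * |s.re| + 4) * η) * Gf (aa s) (N * x) := by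
  obtain ⟨C0, hC0, h0⟩ := pp_bound hs
  obtain ⟨C1, hC1, h1⟩ := pp_taylor hs
  refine ⟨2 * (2 * ‖s‖ + 3 * C1) + 5 * (22 * 16 ^ |s.re| * C0 + 1), by positivity, ?_⟩
  intro N hN x hx hx1 j hj hoff
  have hN1 : (1 : ℝ) ≤ N := by exact_mod_cast hN
  have hj0 : (0 : ℝ) ≤ j := Nat.cast_nonneg j
  have hw : |(j : ℝ) - N * x| ≤ (N : ℝ) ^ η * (Real.sqrt (N * x) + (N : ℝ) ^ η) := by
    unfold offw at hoff
    by_contra hc
    rw [if_neg hc] at hoff
    exact one_ne_zero hoff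
  have hT : ∀ hM1 : 1 ≤ N * x, |(j : ℝ) - N * x| ≤ N * x / 2 →
      ‖pp N s x j - 1 + s * (((j : ℝ) - N * x) / (N * x) : ℝ)‖ ≤
        C1 * (1 / (N * x) + (((j : ℝ) - N * x) / (N * x)) ^ 2) :=
    fun hM1 hM2 => h1 N hN x hx hx1 hM1 j hj hM2
  have hP : ‖pp N s x j‖ ≤ C0 * ((N * x) / (j + 1)) ^ s.re := h0 N hN x hx hx1 j hj
  have hMpos : 0 < N * x := by positivity
  rw [mul_comm (4 * |s.re| + 4) η, Real.rpow_mul (by positivity)]
  set L : ℝ := (N : ℝ) ^ η with hL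
  have hL1 : 1 ≤ L := Real.one_le_rpow hN1 hη.le
  have hL0 : 0 < L := by linarith
  generalize hM : (N : ℝ) * x = M at *
  have hsq : Real.sqrt M ^ 2 = M := Real.sq_sqrt hMpos.le
  have hs0 : 0 < Real.sqrt M := Real.sqrt_pos.mpr hMpos
  have hGpos : 0 < Gf (aa s) M := QB_Gf_pos _ hMpos
  have hMa : 0 < M ^ (-aa s) := Real.rpow_pos_of_pos hMpos _
  have hhalf : (1 + M) ^ (-(1 / 2) : ℝ) = (Real.sqrt (1 + M))⁻¹ := by
    rw [Real.rpow_neg (by positivity), ← Real.sqrt_eq_rpow]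
  have hs1 : 0 < Real.sqrt (1 + M) := Real.sqrt_pos.mpr (by positivity)
  have hbig : (1 : ℝ) ≤ 16 ^ |s.re| := Real.one_le_rpow (by norm_num) (abs_nonneg _)
  rcases le_or_gt (16 * L ^ 4) M with hc | hc
  · -- large M
    have hL4 : 1 ≤ L ^ 4 := one_le_pow₀ hL1
    have hM1 : 1 ≤ M := by linarith
    have h4 : 4 * L ^ 2 ≤ Real.sqrt M := by
      apply Real.le_sqrt_of_sq_le
      calc (4 * L ^ 2) ^ 2 = 16 * L ^ 4 := by ring
        _ ≤ M := hc
    have hLL : L ≤ L ^ 2 := by nlinarith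
    have hLs : L ≤ Real.sqrt M / 4 := by linarith
    have hs1' : 1 ≤ Real.sqrt M := by linarith
    have hjM : |(j : ℝ) - M| ≤ 2 * L * Real.sqrt M := by
      refine hw.trans ?_
      nlinarith
    have hjM2 : |(j : ℝ) - M| ≤ M / 2 := by
      refine hjM.trans ?_
      nlinarith
    have ht := hT hM1 hjM2
    set u : ℝ := ((j : ℝ) - M) / M with hu
    have hu1 : |u| ≤ 2 * L / Real.sqrt M := by
      rw [hu, abs_div, abs_of_pos hMpos, div_le_div_iff₀ hMpos hs0]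
      calc |(j : ℝ) - M| * Real.sqrt M ≤ 2 * L * Real.sqrt M * Real.sqrt M := by gcongr
        _ = 2 * L * M := by rw [mul_assoc, ← pow_two, hsq]
    have hu2 : |u| ≤ 1 / 2 := by
      rw [hu, abs_div, abs_of_pos hMpos, div_le_iff₀ hMpos]
      linarith
    have hu3 : u ^ 2 ≤ |u| := by
      rw [← sq_abs]
      nlinarith [abs_nonneg u]
    have hM3 : 1 / M ≤ L / Real.sqrt M := by
      rw [div_le_div_iff₀ hMpos hs0]
      nlinarith
    have hn : ‖pp N s x j - 1‖ ≤ ‖s‖ * |u| + C1 * (1 / M + u ^ 2) := by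
      have e : pp N s x j - 1 = (pp N s x j - 1 + s * (u : ℝ)) - s * (u : ℝ) := by ring
      rw [e]
      refine (norm_sub_le _ _).trans ?_
      have e2 : ‖s * (u : ℝ)‖ = ‖s‖ * |u| := by
        rw [norm_mul, Complex.norm_real, Real.norm_eq_abs]
      rw [e2]
      linarith
    have hb : ‖pp N s x j - 1‖ ≤ (2 * ‖s‖ + 3 * C1) * (L / Real.sqrt M) := by
      refine hn.trans ?_
      have e1 : ‖s‖ * |u| ≤ ‖s‖ * (2 * L / Real.sqrt M) :=
        mul_le_mul_of_nonneg_left hu1 (norm_nonneg _)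
      have e2 : C1 * (1 / M + u ^ 2) ≤ C1 * (L / Real.sqrt M + 2 * L / Real.sqrt M) := by
        apply mul_le_mul_of_nonneg_left _ hC1.le
        linarith
      have e3 : 2 * L / Real.sqrt M = 2 * (L / Real.sqrt M) := by ring
      rw [e3] at e1 e2
      linarith
    have hG : 1 / Real.sqrt M ≤ 2 * Gf (aa s) M := by
      have e1 : Real.sqrt (1 + M) ≤ 2 * Real.sqrt M := by
        rw [Real.sqrt_le_left (by positivity)]
        nlinarith
      have e2 : 1 / Real.sqrt M ≤ 2 * (Real.sqrt (1 + M))⁻¹ := by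
        rw [← div_eq_mul_inv, div_le_div_iff₀ hs0 hs1]
        linarith
      refine e2.trans ?_
      unfold Gf
      rw [hhalf]
      have e3 : 0 < (Real.sqrt (1 + M))⁻¹ := by positivity
      nlinarith
    have hLp : L ≤ L ^ (4 * |s.re| + 4) := by
      calc L = L ^ (1 : ℝ) := (Real.rpow_one L).symm
        _ ≤ L ^ (4 * |s.re| + 4) :=
            Real.rpow_le_rpow_of_exponent_le hL1 (by linarith [abs_nonneg s.re])
    have hK : 0 ≤ 2 * ‖s‖ + 3 * C1 := by positivity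
    calc ‖pp N s x j - 1‖ ≤ (2 * ‖s‖ + 3 * C1) * (L / Real.sqrt M) := hb
      _ = (2 * ‖s‖ + 3 * C1) * L * (1 / Real.sqrt M) := by ring
      _ ≤ (2 * ‖s‖ + 3 * C1) * L * (2 * Gf (aa s) M) := by gcongr
      _ = (2 * (2 * ‖s‖ + 3 * C1)) * L * Gf (aa s) M := by ring
      _ ≤ (2 * (2 * ‖s‖ + 3 * C1)) * L ^ (4 * |s.re| + 4) * Gf (aa s) M := by gcongr
      _ ≤ (2 * (2 * ‖s‖ + 3 * C1) + 5 * (22 * 16 ^ |s.re| * C0 + 1)) *
          L ^ (4 * |s.re| + 4) * Gf (aa s) M := by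
          gcongr
          have : 0 ≤ 5 * (22 * 16 ^ |s.re| * C0 + 1) := by positivity
          linarith
  · -- small M
    have hL2 : 1 ≤ L ^ 2 := one_le_pow₀ hL1
    have hL3 : L ^ 3 ≤ L ^ 4 := pow_le_pow_right₀ hL1 (by norm_num)
    have hL24 : L ^ 2 ≤ L ^ 4 := pow_le_pow_right₀ hL1 (by norm_num)
    have hL4 : 1 ≤ L ^ 4 := one_le_pow₀ hL1
    have h4 : Real.sqrt M ≤ 4 * L ^ 2 := by
      rw [Real.sqrt_le_left (by positivity)]
      nlinarith
    have hj1 : (j : ℝ) + 1 ≤ 22 * L ^ 4 := by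
      have e1 : (j : ℝ) - M ≤ L * (Real.sqrt M + L) := (le_abs_self _).trans hw
      have e2 : L * (Real.sqrt M + L) ≤ L * (4 * L ^ 2 + L) := by gcongr
      have e3 : L * (4 * L ^ 2 + L) = 4 * L ^ 3 + L ^ 2 := by ring
      linarith
    have hr : (M / (j + 1)) ^ s.re ≤ 22 * 16 ^ |s.re| * L ^ (4 * |s.re|) * (1 + M ^ (-aa s)) := by
      have hLp : 0 < L ^ (4 * |s.re|) := Real.rpow_pos_of_pos hL0 _
      rcases le_or_gt 0 s.re with h | h
      · have e1 : (M / ((j : ℝ) + 1)) ^ s.re ≤ (16 * L ^ 4) ^ s.re := by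
          apply Real.rpow_le_rpow (by positivity) _ h
          rw [div_le_iff₀ (by positivity)]
          nlinarith
        have e2 : (16 * L ^ 4) ^ s.re = 16 ^ |s.re| * L ^ (4 * |s.re|) := by
          rw [Real.mul_rpow (by norm_num) (by positivity), abs_of_nonneg h,
            Real.rpow_mul hL0.le]
          congr 2
          exact_mod_cast rfl
        rw [e2] at e1
        have e3 : 0 < (16 : ℝ) ^ |s.re| * L ^ (4 * |s.re|) := by positivity
        nlinarith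
      · have e1 : (M / ((j : ℝ) + 1)) ^ s.re = (((j : ℝ) + 1) / M) ^ (aa s) := by
          rw [QB_aa_neg h, Real.rpow_neg (by positivity), ← Real.inv_rpow (by positivity), inv_div]
        have e2 : (((j : ℝ) + 1) / M) ^ (aa s) ≤ (22 * L ^ 4 / M) ^ (aa s) := by
          apply Real.rpow_le_rpow (by positivity) _ (QB_aa_nonneg s)
          gcongr
        have e3 : (22 * L ^ 4 / M) ^ (aa s) = 22 ^ (aa s) * L ^ (4 * aa s) * M ^ (-aa s) := by
          rw [Real.div_rpow (by positivity) hMpos.le, Real.rpow_neg hMpos.le,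
            Real.mul_rpow (by norm_num) (by positivity), Real.rpow_mul hL0.le, div_eq_mul_inv]
          congr 3
          exact_mod_cast rfl
        have e4 : (22 : ℝ) ^ (aa s) ≤ 22 := by
          calc (22 : ℝ) ^ (aa s) ≤ 22 ^ (1 : ℝ) :=
                Real.rpow_le_rpow_of_exponent_le (by norm_num) (QB_aa_lt hs).le
            _ = 22 := Real.rpow_one 22
        have e5 : L ^ (4 * aa s) ≤ L ^ (4 * |s.re|) :=
          Real.rpow_le_rpow_of_exponent_le hL1 (by linarith [QB_aa_le_abs s])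
        rw [e1]
        refine e2.trans ?_
        rw [e3]
        have e6 : 0 < L ^ (4 * aa s) := Real.rpow_pos_of_pos hL0 _
        calc (22 : ℝ) ^ (aa s) * L ^ (4 * aa s) * M ^ (-aa s)
            ≤ 22 * L ^ (4 * |s.re|) * M ^ (-aa s) := by gcongr
          _ = 22 * 1 * L ^ (4 * |s.re|) * M ^ (-aa s) := by ring
          _ ≤ 22 * 16 ^ |s.re| * L ^ (4 * |s.re|) * (1 + M ^ (-aa s)) := by
              gcongr
              linarith
    have hLp1 : (1 : ℝ) ≤ L ^ (4 * |s.re|) := Real.one_le_rpow hL1 (by positivity)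
    have hnb : ‖pp N s x j - 1‖ ≤
        (22 * 16 ^ |s.re| * C0 + 1) * L ^ (4 * |s.re|) * (1 + M ^ (-aa s)) := by
      refine (norm_sub_le _ _).trans ?_
      rw [norm_one]
      have e1 := mul_le_mul_of_nonneg_left hr hC0.le
      have e2 : (1 : ℝ) ≤ L ^ (4 * |s.re|) * (1 + M ^ (-aa s)) := by nlinarith
      nlinarith
    have hG : 1 ≤ 5 * L ^ 2 * (Real.sqrt (1 + M))⁻¹ := by
      rw [← div_eq_mul_inv, le_div_iff₀ hs1, one_mul, Real.sqrt_le_left (by positivity)]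
      nlinarith
    have hLL : L ^ (4 * |s.re|) * L ^ 2 ≤ L ^ (4 * |s.re| + 4) := by
      rw [Real.rpow_add hL0]
      have e1 : L ^ (4 : ℝ) = L ^ 4 := by exact_mod_cast rfl
      rw [e1]
      gcongr
    have hK : 0 ≤ 22 * 16 ^ |s.re| * C0 + 1 := by positivity
    have hGG : Gf (aa s) M = (1 + M ^ (-aa s)) * (Real.sqrt (1 + M))⁻¹ := by
      unfold Gf
      rw [hhalf]
    calc ‖pp N s x j - 1‖
        ≤ (22 * 16 ^ |s.re| * C0 + 1) * L ^ (4 * |s.re|) * (1 + M ^ (-aa s)) * 1 := by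
          rw [mul_one]
          exact hnb
      _ ≤ (22 * 16 ^ |s.re| * C0 + 1) * L ^ (4 * |s.re|) * (1 + M ^ (-aa s)) *
          (5 * L ^ 2 * (Real.sqrt (1 + M))⁻¹) := by gcongr
      _ = (5 * (22 * 16 ^ |s.re| * C0 + 1)) * (L ^ (4 * |s.re|) * L ^ 2) * Gf (aa s) M := by
          rw [hGG]
          ring
      _ ≤ (5 * (22 * 16 ^ |s.re| * C0 + 1)) * L ^ (4 * |s.re| + 4) * Gf (aa s) M := by gcongr
      _ ≤ (2 * (2 * ‖s‖ + 3 * C1) + 5 * (22 * 16 ^ |s.re| * C0 + 1)) *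
          L ^ (4 * |s.re| + 4) * Gf (aa s) M := by
          gcongr
          have : 0 ≤ 2 * (2 * ‖s‖ + 3 * C1) := by positivity
          linarith

variable {K : ℕ}

private lemma QB_xx_le {m z : Fin 2 → ℂ} (hm : nr m = 1) (hz : nr z = 1) : xx m z ≤ 1 := by
  have h := norm_hp_le m z
  rw [hm, hz, mul_one] at h
  unfold xx
  exact pow_le_one₀ (norm_nonneg _) h

private lemma QB_norm_cpow {s : ℂ} {x : ℝ} (hx : 0 < x) (hx1 : x ≤ 1) :
    ‖(x : ℂ) ^ s‖ ≤ 1 + x ^ (-aa s) := by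
  rw [Complex.norm_cpow_eq_rpow_re_of_pos hx]
  have hp : 0 < x ^ (-aa s) := Real.rpow_pos_of_pos hx _
  rcases le_or_gt 0 s.re with h | h
  · have := Real.rpow_le_one hx.le hx1 h
    linarith
  · rw [QB_aa_neg h, neg_neg]
    linarith

private lemma QB_Qop_eq (m : Fin K → Fin 2 → ℂ) (hm : ∀ i, nr (m i) = 1) (s : Fin K → ℂ)
    (N : ℕ) (z : Fin 2 → ℂ) (i : Fin K) :
    Qop N m s z i = (xx (m i) z : ℂ) ^ s i • fN N (m i) (fun j => (lam N (s i) j)⁻¹) - 1 := by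
  unfold Qop pp
  rw [fN_sub, fN_one (hm i), fN_smul]

private lemma QB_prod_pos {l : List (Fin K)} {f : Fin K → ℝ} (h : ∀ i, 0 < f i) :
    0 < (l.map f).prod := by
  induction l with
  | nil => simp
  | cons a l ih =>
    rw [List.map_cons, List.prod_cons]
    exact mul_pos (h a) ih

private lemma QB_tail (m : Fin K → Fin 2 → ℂ) (hm : ∀ i, nr (m i) = 1) (s : Fin K → ℂ)
    (hs : ∀ i, -1 < (s i).re) (b : Fin K) {η : ℝ} (hη : 0 < η) (A : ℝ) (l : List (Fin K)) :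
    ∀ l1 : List (Fin K),
    ∃ C : ℝ, 0 < C ∧ ∀ N : ℕ, 1 ≤ N → ∀ z : Fin 2 → ℂ, nr z = 1 → (∀ i, 0 < xx (m i) z) →
      nr (fN N (m b) (offw N η (N * xx (m b) z)) *ᵥ
        ((l1.map fun i => fN N (m i) fun j => (lam N (s i) j)⁻¹).prod *ᵥ
          ((l.map (Qop N m s z)).prod *ᵥ coh N z))) ≤
        C * (N : ℝ) ^ (-A) * (l.map fun i => 1 + xx (m i) z ^ (-aa (s i))).prod := by
  induction l with
  | nil =>
    intro l1
    obtain ⟨C, hC, h⟩ := loc2 m hm s hs l1 b hη A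
    refine ⟨C, hC, ?_⟩
    intro N hN z hz hx
    simpa using h N hN z hz
  | cons i l ih =>
    intro l1
    obtain ⟨C1, hC1, h1⟩ := ih (l1 ++ [i])
    obtain ⟨C2, hC2, h2⟩ := ih l1
    refine ⟨C1 + C2, by positivity, ?_⟩
    intro N hN z hz hx
    have g1 := h1 N hN z hz hx
    have g2 := h2 N hN z hz hx
    have hN0 : (0 : ℝ) < N := by exact_mod_cast hN
    have hx1 : xx (m i) z ≤ 1 := QB_xx_le (hm i) hz
    have hcp := QB_norm_cpow (s := s i) (hx i) hx1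
    have hP : 0 < (l.map fun i => 1 + xx (m i) z ^ (-aa (s i))).prod :=
      QB_prod_pos fun i => by
        have := Real.rpow_pos_of_pos (hx i) (-aa (s i))
        linarith
    have hxa : 0 < xx (m i) z ^ (-aa (s i)) := Real.rpow_pos_of_pos (hx i) _
    rw [List.map_cons, List.prod_cons, List.map_cons, List.prod_cons]
    set P := (l.map fun i => 1 + xx (m i) z ^ (-aa (s i))).prod with hPdef
    set W := (l.map (Qop N m s z)).prod with hW
    set D := (l1.map fun i => fN N (m i) fun j => (lam N (s i) j)⁻¹).prod with hD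
    rw [List.map_append, List.prod_append, List.map_singleton, List.prod_singleton, ← hD] at g1
    have e : D *ᵥ ((Qop N m s z i * W) *ᵥ coh N z) =
        (xx (m i) z : ℂ) ^ s i • ((D * fN N (m i) fun j => (lam N (s i) j)⁻¹) *ᵥ
          (W *ᵥ coh N z)) - D *ᵥ (W *ᵥ coh N z) := by
      rw [QB_Qop_eq m hm s N z i, ← Matrix.mulVec_mulVec, Matrix.sub_mulVec, Matrix.mulVec_sub,
        Matrix.one_mulVec, Matrix.smul_mulVec, Matrix.mulVec_smul, Matrix.mulVec_mulVec]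
    rw [e, Matrix.mulVec_sub, Matrix.mulVec_smul]
    refine (nr_sub_le _ _).trans ?_
    rw [nr_smul]
    have k1 : ‖(xx (m i) z : ℂ) ^ s i‖ * nr (fN N (m b) (offw N η (N * xx (m b) z)) *ᵥ
        ((D * fN N (m i) fun j => (lam N (s i) j)⁻¹) *ᵥ (W *ᵥ coh N z))) ≤
        (1 + xx (m i) z ^ (-aa (s i))) * (C1 * (N : ℝ) ^ (-A) * P) :=
      mul_le_mul hcp g1 (nr_nonneg _) (by positivity)
    have hNA : 0 < (N : ℝ) ^ (-A) := Real.rpow_pos_of_pos hN0 _
    have k2 : C2 * (N : ℝ) ^ (-A) * P ≤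
        (1 + xx (m i) z ^ (-aa (s i))) * (C2 * (N : ℝ) ^ (-A) * P) := by
      have : 0 < C2 * (N : ℝ) ^ (-A) * P := by positivity
      nlinarith
    calc _ ≤ (1 + xx (m i) z ^ (-aa (s i))) * (C1 * (N : ℝ) ^ (-A) * P) +
          (1 + xx (m i) z ^ (-aa (s i))) * (C2 * (N : ℝ) ^ (-A) * P) :=
          add_le_add k1 (g2.trans k2)
      _ = (C1 + C2) * (N : ℝ) ^ (-A) * ((1 + xx (m i) z ^ (-aa (s i))) * P) := by ring

/-- Tails of products of `Q`. -/
theorem Q_tail (m : Fin K → Fin 2 → ℂ) (hm : ∀ i, nr (m i) = 1) (s : Fin K → ℂ)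
    (hs : ∀ i, -1 < (s i).re) (l : List (Fin K)) (b : Fin K) {η : ℝ} (hη : 0 < η) (A : ℝ) :
    ∃ C : ℝ, 0 < C ∧ ∀ N : ℕ, 1 ≤ N → ∀ z : Fin 2 → ℂ, nr z = 1 → (∀ i, 0 < xx (m i) z) →
      nr (fN N (m b) (offw N η (N * xx (m b) z)) *ᵥ ((l.map (Qop N m s z)).prod *ᵥ coh N z)) ≤
        C * (N : ℝ) ^ (-A) * (l.map fun i => 1 + xx (m i) z ^ (-aa (s i))).prod := by
  obtain ⟨C, hC, h⟩ := QB_tail m hm s hs b hη A l []
  refine ⟨C, hC, ?_⟩
  intro N hN z hz hx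
  simpa using h N hN z hz hx

private lemma QB_one_add_le {a x : ℝ} (ha1 : a ≤ 1) (hx : 0 < x) (hx1 : x ≤ 1)
    {N : ℕ} (hN : 1 ≤ N) : 1 + x ^ (-a) ≤ 2 * (N : ℝ) ^ 2 * Gf a (N * x) := by
  have hN1 : (1 : ℝ) ≤ N := by exact_mod_cast hN
  have hN0 : (0 : ℝ) < N := by linarith
  have hM : 0 < N * x := by positivity
  have hMN : N * x ≤ N := by nlinarith
  have hp : 0 < (N * x) ^ (-a) := Real.rpow_pos_of_pos hM _
  have e1 : x ^ (-a) ≤ N * (N * x) ^ (-a) := by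
    rw [Real.mul_rpow hN0.le hx.le, ← mul_assoc]
    have e2 : 1 ≤ N * (N : ℝ) ^ (-a) := by
      have : (N : ℝ) * (N : ℝ) ^ (-a) = (N : ℝ) ^ (1 + -a) := by
        rw [Real.rpow_add hN0, Real.rpow_one]
      rw [this]
      exact Real.one_le_rpow hN1 (by linarith)
    have e3 : 0 < x ^ (-a) := Real.rpow_pos_of_pos hx _
    nlinarith
  have e4 : 1 ≤ 2 * (N : ℝ) * (1 + N * x) ^ (-(1 / 2) : ℝ) := by
    rw [Real.rpow_neg (by positivity), ← Real.sqrt_eq_rpow, ← div_eq_mul_inv,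
      le_div_iff₀ (Real.sqrt_pos.mpr (by positivity)), one_mul, Real.sqrt_le_left (by positivity)]
    nlinarith
  have e5 : 1 + x ^ (-a) ≤ N * (1 + (N * x) ^ (-a)) := by nlinarith
  unfold Gf
  calc 1 + x ^ (-a) ≤ N * (1 + (N * x) ^ (-a)) * 1 := by
        rw [mul_one]
        exact e5
    _ ≤ N * (1 + (N * x) ^ (-a)) * (2 * (N : ℝ) * (1 + N * x) ^ (-(1 / 2) : ℝ)) := by gcongr
    _ = 2 * (N : ℝ) ^ 2 * ((1 + (N * x) ^ (-a)) * (1 + N * x) ^ (-(1 / 2) : ℝ)) := by ring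

private lemma QB_prod_le {f g : Fin K → ℝ} {c : ℝ} (hc : 0 ≤ c) (hf : ∀ i, 0 < f i)
    (h : ∀ i, f i ≤ c * g i) (hg : ∀ i, 0 < g i) (l : List (Fin K)) :
    (l.map f).prod ≤ c ^ l.length * (l.map g).prod := by
  induction l with
  | nil => simp
  | cons a l ih =>
    rw [List.map_cons, List.prod_cons, List.map_cons, List.prod_cons, List.length_cons]
    have h1 : 0 < (l.map f).prod := QB_prod_pos hf
    have h2 : 0 < (l.map g).prod := QB_prod_pos hg
    calc f a * (l.map f).prod ≤ (c * g a) * (c ^ l.length * (l.map g).prod) :=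
          mul_le_mul (h a) ih h1.le (mul_nonneg hc (hg a).le)
      _ = c ^ (l.length + 1) * (g a * (l.map g).prod) := by ring

theorem Q_bound (m : Fin K → Fin 2 → ℂ) (hm : ∀ i, nr (m i) = 1) (s : Fin K → ℂ)
    (hs : ∀ i, -1 < (s i).re) (l : List (Fin K)) {ε : ℝ} (hε : 0 < ε) :
    ∃ C : ℝ, 0 < C ∧ ∀ N : ℕ, 1 ≤ N → ∀ z : Fin 2 → ℂ, nr z = 1 → (∀ i, 0 < xx (m i) z) →
      nr ((l.map (Qop N m s z)).prod *ᵥ coh N z) ≤
        C * (N : ℝ) ^ ε * (l.map fun i => Gf (aa (s i)) (N * xx (m i) z)).prod := by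
  induction l generalizing ε with
  | nil =>
    refine ⟨1, one_pos, ?_⟩
    intro N hN z hz hx
    have hN1 : (1 : ℝ) ≤ N := by exact_mod_cast hN
    have := Real.one_le_rpow hN1 hε.le
    simp only [List.map_nil, List.prod_nil, Matrix.one_mulVec, nr_coh, hz, one_pow, one_mul,
      mul_one]
    exact this
  | cons b l ih =>
    obtain ⟨Cl, hCl, hl⟩ := ih (ε := ε / 2) (by positivity)
    set c : ℝ := 4 * |(s b).re| + 4 with hc
    have hc0 : 0 < c := by positivity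
    set η : ℝ := ε / (2 * c) with hη
    have hη0 : 0 < η := by positivity
    have hcη : c * η = ε / 2 := by
      rw [hη]
      field_simp
    obtain ⟨Cw, hCw, hw⟩ := q_bound_win (hs b) hη0
    obtain ⟨Ca, B, hCa, hB, ha⟩ := q_bound_all (hs b)
    set A : ℝ := B + 2 * (l.length + 1) with hA
    obtain ⟨Ct, hCt, ht⟩ := Q_tail m hm s hs l b hη0 A
    refine ⟨Cw * Cl + Ca * Ct * 2 ^ (l.length + 1), by positivity, ?_⟩
    intro N hN z hz hx
    have hN1 : (1 : ℝ) ≤ N := by exact_mod_cast hN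
    have hN0 : (0 : ℝ) < N := by linarith
    have hx1 : xx (m b) z ≤ 1 := QB_xx_le (hm b) hz
    have gl := hl N hN z hz hx
    have gt := ht N hN z hz hx
    rw [List.map_cons, List.prod_cons, List.map_cons, List.prod_cons]
    rw [← Matrix.mulVec_mulVec]
    set v := (l.map (Qop N m s z)).prod *ᵥ coh N z with hv
    set o : ℕ → ℂ := offw N η (N * xx (m b) z) with ho
    set q : ℕ → ℂ := fun j => pp N (s b) (xx (m b) z) j - 1 with hq
    have ho01 : ∀ j, o j = 0 ∨ o j = 1 := by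
      intro j
      rw [ho]
      unfold offw
      split_ifs
      · exact Or.inl rfl
      · exact Or.inr rfl
    have hQ : Qop N m s z b = fN N (m b) (fun j => q j * (1 - o j)) + fN N (m b) q * fN N (m b) o := by
      rw [fN_mul (hm b), ← fN_add]
      unfold Qop
      apply fN_congr
      intro j hj
      simp only [hq]
      ring
    rw [hQ, Matrix.add_mulVec, ← Matrix.mulVec_mulVec]
    refine (nr_add_le _ _).trans ?_
    have hGb : 0 < Gf (aa (s b)) (N * xx (m b) z) := QB_Gf_pos _ (mul_pos hN0 (hx b))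
    have hGi : ∀ i, 0 < Gf (aa (s i)) (N * xx (m i) z) :=
      fun i => QB_Gf_pos _ (mul_pos hN0 (hx i))
    have hPG : 0 < (l.map fun i => Gf (aa (s i)) (N * xx (m i) z)).prod := QB_prod_pos hGi
    have k1 : nr (fN N (m b) (fun j => q j * (1 - o j)) *ᵥ v) ≤
        Cw * (N : ℝ) ^ (c * η) * Gf (aa (s b)) (N * xx (m b) z) * nr v := by
      apply nr_fN_le (hm b)
      intro j hj
      rcases ho01 j with h | h
      · rw [h, sub_zero, mul_one]
        exact hw N hN _ (hx b) hx1 j hj (by rw [← ho]; exact h)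
      · rw [h, sub_self, mul_zero, norm_zero]
        have := Real.rpow_pos_of_pos hN0 (c * η)
        positivity
    have k2 : nr (fN N (m b) q *ᵥ (fN N (m b) o *ᵥ v)) ≤
        Ca * (N : ℝ) ^ B * (1 + xx (m b) z ^ (-aa (s b))) * nr (fN N (m b) o *ᵥ v) := by
      apply nr_fN_le (hm b)
      intro j hj
      exact ha N hN _ (hx b) hx1 j hj
    have hxb : 0 < xx (m b) z ^ (-aa (s b)) := Real.rpow_pos_of_pos (hx b) _
    have hNB : 0 < (N : ℝ) ^ B := Real.rpow_pos_of_pos hN0 _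
    have hNA : 0 < (N : ℝ) ^ (-A) := Real.rpow_pos_of_pos hN0 _
    have k3 : nr (fN N (m b) q *ᵥ (fN N (m b) o *ᵥ v)) ≤
        Ca * (N : ℝ) ^ B * (1 + xx (m b) z ^ (-aa (s b))) *
          (Ct * (N : ℝ) ^ (-A) * (l.map fun i => 1 + xx (m i) z ^ (-aa (s i))).prod) := by
      refine k2.trans ?_
      apply mul_le_mul_of_nonneg_left gt
      positivity
    have k4 : (1 + xx (m b) z ^ (-aa (s b))) * (l.map fun i => 1 + xx (m i) z ^ (-aa (s i))).prod ≤
        (2 * (N : ℝ) ^ 2) ^ (l.length + 1) * (Gf (aa (s b)) (N * xx (m b) z) *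
          (l.map fun i => Gf (aa (s i)) (N * xx (m i) z)).prod) := by
      have := QB_prod_le (f := fun i => 1 + xx (m i) z ^ (-aa (s i)))
        (g := fun i => Gf (aa (s i)) (N * xx (m i) z)) (c := 2 * (N : ℝ) ^ 2) (by positivity)
        (fun i => by
          have := Real.rpow_pos_of_pos (hx i) (-aa (s i))
          show 0 < 1 + xx (m i) z ^ (-aa (s i))
          linarith)
        (fun i => QB_one_add_le (QB_aa_lt (hs i)).le (hx i)
          (QB_xx_le (hm i) hz) hN) hGi (b :: l)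
      rw [List.map_cons, List.prod_cons, List.map_cons, List.prod_cons, List.length_cons] at this
      exact this
    have k5 : (N : ℝ) ^ B * (N : ℝ) ^ (-A) * (2 * (N : ℝ) ^ 2) ^ (l.length + 1) =
        2 ^ (l.length + 1) := by
      rw [mul_pow, ← pow_mul]
      have e1 : (N : ℝ) ^ (2 * (l.length + 1)) = (N : ℝ) ^ (2 * ((l.length : ℝ) + 1)) := by
        rw [← Real.rpow_natCast]
        congr 1
        push_cast
        ring
      have e2 : (N : ℝ) ^ B * (N : ℝ) ^ (-A) * (N : ℝ) ^ (2 * ((l.length : ℝ) + 1)) = 1 := by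
        rw [← Real.rpow_add hN0, ← Real.rpow_add hN0]
        have : B + -A + 2 * ((l.length : ℝ) + 1) = 0 := by
          rw [hA]
          ring
        rw [this, Real.rpow_zero]
      rw [e1]
      calc (N : ℝ) ^ B * (N : ℝ) ^ (-A) * (2 ^ (l.length + 1) *
            (N : ℝ) ^ (2 * ((l.length : ℝ) + 1)))
          = 2 ^ (l.length + 1) * ((N : ℝ) ^ B * (N : ℝ) ^ (-A) *
            (N : ℝ) ^ (2 * ((l.length : ℝ) + 1))) := by ring
        _ = 2 ^ (l.length + 1) := by rw [e2, mul_one]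
    set G := Gf (aa (s b)) (N * xx (m b) z) with hG
    set PG := (l.map fun i => Gf (aa (s i)) (N * xx (m i) z)).prod with hPGd
    set X := xx (m b) z ^ (-aa (s b)) with hX
    set PX := (l.map fun i => 1 + xx (m i) z ^ (-aa (s i))).prod with hPX
    have hNe : 1 ≤ (N : ℝ) ^ ε := Real.one_le_rpow hN1 hε.le
    have k6 : nr (fN N (m b) q *ᵥ (fN N (m b) o *ᵥ v)) ≤
        Ca * Ct * 2 ^ (l.length + 1) * (N : ℝ) ^ ε * (G * PG) := by
      refine k3.trans ?_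
      calc Ca * (N : ℝ) ^ B * (1 + X) * (Ct * (N : ℝ) ^ (-A) * PX)
          = Ca * Ct * ((N : ℝ) ^ B * (N : ℝ) ^ (-A)) * ((1 + X) * PX) := by ring
        _ ≤ Ca * Ct * ((N : ℝ) ^ B * (N : ℝ) ^ (-A)) *
            ((2 * (N : ℝ) ^ 2) ^ (l.length + 1) * (G * PG)) := by gcongr
        _ = Ca * Ct * ((N : ℝ) ^ B * (N : ℝ) ^ (-A) * (2 * (N : ℝ) ^ 2) ^ (l.length + 1)) *
            (G * PG) := by ring
        _ = Ca * Ct * 2 ^ (l.length + 1) * 1 * (G * PG) := by rw [k5, mul_one]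
        _ ≤ Ca * Ct * 2 ^ (l.length + 1) * (N : ℝ) ^ ε * (G * PG) := by gcongr
    have k7 : nr (fN N (m b) (fun j => q j * (1 - o j)) *ᵥ v) ≤
        Cw * Cl * (N : ℝ) ^ ε * (G * PG) := by
      refine k1.trans ?_
      have e1 : (N : ℝ) ^ (c * η) * (N : ℝ) ^ (ε / 2) = (N : ℝ) ^ ε := by
        rw [hcη, ← Real.rpow_add hN0, add_halves]
      have e2 : 0 < (N : ℝ) ^ (c * η) := Real.rpow_pos_of_pos hN0 _
      calc Cw * (N : ℝ) ^ (c * η) * G * nr v
          ≤ Cw * (N : ℝ) ^ (c * η) * G * (Cl * (N : ℝ) ^ (ε / 2) * PG) := by gcongr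
        _ = Cw * Cl * ((N : ℝ) ^ (c * η) * (N : ℝ) ^ (ε / 2)) * (G * PG) := by ring
        _ = Cw * Cl * (N : ℝ) ^ ε * (G * PG) := by rw [e1]
    calc _ ≤ Cw * Cl * (N : ℝ) ^ ε * (G * PG) +
          Ca * Ct * 2 ^ (l.length + 1) * (N : ℝ) ^ ε * (G * PG) := add_le_add k7 k6
      _ = (Cw * Cl + Ca * Ct * 2 ^ (l.length + 1)) * (N : ℝ) ^ ε * (G * PG) := by ring

theorem Qstar_bound (m : Fin K → Fin 2 → ℂ) (hm : ∀ i, nr (m i) = 1) (s : Fin K → ℂ)
    (hs : ∀ i, -1 < (s i).re) (i : Fin K) {ε : ℝ} (hε : 0 < ε) :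
    ∃ C : ℝ, 0 < C ∧ ∀ N : ℕ, 1 ≤ N → ∀ z : Fin 2 → ℂ, nr z = 1 → (∀ i, 0 < xx (m i) z) →
      nr ((Qop N m s z i)ᴴ *ᵥ coh N z) ≤ C * (N : ℝ) ^ ε * Gf (aa (s i)) (N * xx (m i) z) := by
  obtain ⟨C, hC, h⟩ := Q_bound m hm s hs [i] hε
  refine ⟨C, hC, ?_⟩
  intro N hN z hz hx
  have g := h N hN z hz hx
  simp only [List.map_cons, List.map_nil, List.prod_cons, List.prod_nil, mul_one] at g
  refine le_trans ?_ g
  unfold Qop
  rw [fN_conjTranspose]
  apply nr_fN_mono (hm i)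
  intro j hj
  rw [RCLike.norm_conj]

end MPF
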