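import Pool.Agent.MPF.QB
import Pool.Agent.MPF.PairE

/-!
# MPF/QB2: first order term of `Q_i(z) coh z` for `N x_i ≥ 1`

PROOF. `M = N x_i`, function `e(j) = pp N s x j - 1 + s (j - M)/M`, `Q_i coh + s_i fN((j-M)/M) coh = fN e coh`.
Choose `η` with `10 η ≤ ε`, window `offw N η M`.
If `M ≥ 16 N^{4η}`: on the window `|j-M| ≤ 2 N^η √M ≤ M/2`, `pp_taylor`: `‖e(j)‖ ≤ C(1/M + 4N^{2η}/M) ≤ C N^{2η}/M`.
Off the window: `‖e(j)‖ ≤ C N^{B}` (`q_bound_all` with `x ≥ 1/N`; `|j-M|/M ≤ N`), and the mass of `coh z` off the window is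
`≤ C N^{-A}` (`loc2` with the empty list); `1/M ≥ 1/N`, so this part is `≤ C/M` for `A` large.
If `1 ≤ M < 16 N^{4η}`: `nr (Q coh) ≤ C N^{η} Gf(a)(M) ≤ C N^η M^{-1/2}` (`Q_bound` with the list `[i]` and `η`), and
`nr (fN ((j-M)/M) coh) ≤ M^{-1/2}` (`var_exact`); `M^{-1/2} = M^{1/2}/M ≤ 4 N^{2η}/M`.
(Here only `xx (m i) z > 0` is needed: apply `Q_bound` to the one element family, or prove the case
`K = 1` first, i.e. use `m' : Fin 1 → _`.) The adjoint: `fN_conjTranspose`; `conj` of the function.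
-/

open MeasureTheory Matrix Finset Filter Topology
open scoped ENNReal ComplexConjugate

namespace MPF

/-- The remainder function. -/
private noncomputable def QB2e (N : ℕ) (s : ℂ) (x : ℝ) (j : ℕ) : ℂ :=
  (pp N s x j - 1) + s / ((N * x : ℝ) : ℂ) * ((j : ℂ) - ((N * x : ℝ) : ℂ))

private lemma QB2_crude {s : ℂ} (hs : -1 < s.re) : ∃ C B : ℝ, 0 < C ∧ 0 < B ∧ ∀ N : ℕ, 1 ≤ N →
    ∀ x : ℝ, 0 < x → x ≤ 1 → 1 ≤ N * x → ∀ j : ℕ, j ≤ N → ‖QB2e N s x j‖ ≤ C * (N : ℝ) ^ B := by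
  obtain ⟨C, B, hC, hB, h⟩ := q_bound_all hs
  refine ⟨2 * C + ‖s‖, B + 1, by positivity, by positivity, fun N hN x hx hx1 hM j hj => ?_⟩
  have hN1 : (1 : ℝ) ≤ N := by exact_mod_cast hN
  have hN0 : (0 : ℝ) < N := by linarith
  have hM0 : 0 < (N : ℝ) * x := by linarith
  have hjN : (j : ℝ) ≤ N := by exact_mod_cast hj
  have hj0 : (0 : ℝ) ≤ j := Nat.cast_nonneg j
  have hMN : (N : ℝ) * x ≤ N := by nlinarith
  have h1 := h N hN x hx hx1 j hj
  have ha0 : 0 ≤ aa s := le_max_right _ _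
  have ha1 : aa s ≤ 1 := by
    unfold aa
    exact max_le (by linarith) (by norm_num)
  have h2 : x ^ (-aa s) ≤ N := by
    have h3 : x ^ (-aa s) = (x⁻¹) ^ aa s := by
      rw [Real.rpow_neg hx.le, Real.inv_rpow hx.le]
    have h4 : x⁻¹ ≤ N := by
      rw [inv_le_iff_one_le_mul₀ hx]
      exact hM
    rw [h3]
    calc (x⁻¹) ^ aa s ≤ (N : ℝ) ^ aa s := Real.rpow_le_rpow (by positivity) h4 ha0
      _ ≤ (N : ℝ) ^ (1 : ℝ) := Real.rpow_le_rpow_of_exponent_le hN1 ha1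
      _ = N := Real.rpow_one _
  have hNB : 1 ≤ (N : ℝ) ^ B := Real.one_le_rpow hN1 hB.le
  have hNB1 : (N : ℝ) ^ (B + 1) = (N : ℝ) ^ B * N := by
    rw [Real.rpow_add hN0, Real.rpow_one]
  have h5 : ‖pp N s x j - 1‖ ≤ 2 * C * (N : ℝ) ^ (B + 1) := by
    refine h1.trans ?_
    rw [hNB1]
    have : C * (N : ℝ) ^ B * (1 + x ^ (-aa s)) ≤ C * (N : ℝ) ^ B * (2 * N) :=
      mul_le_mul_of_nonneg_left (by linarith) (by positivity)
    linarith
  have h6 : ‖s / ((N * x : ℝ) : ℂ) * ((j : ℂ) - ((N * x : ℝ) : ℂ))‖ ≤ ‖s‖ * (N : ℝ) ^ (B + 1) := by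
    rw [norm_mul, norm_div, Complex.norm_real, Real.norm_of_nonneg hM0.le]
    have h7 : ‖(j : ℂ) - ((N * x : ℝ) : ℂ)‖ ≤ N := by
      have : (j : ℂ) - ((N * x : ℝ) : ℂ) = (((j : ℝ) - N * x : ℝ) : ℂ) := by push_cast; ring
      rw [this, Complex.norm_real, Real.norm_eq_abs, abs_le]
      constructor <;> linarith
    have h8 : ‖s‖ / (N * x) ≤ ‖s‖ := div_le_self (norm_nonneg _) hM
    calc ‖s‖ / (N * x) * ‖(j : ℂ) - ((N * x : ℝ) : ℂ)‖ ≤ ‖s‖ * N :=
          mul_le_mul h8 h7 (norm_nonneg _) (norm_nonneg _)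
      _ ≤ ‖s‖ * (N : ℝ) ^ (B + 1) := by
          refine mul_le_mul_of_nonneg_left ?_ (norm_nonneg _)
          rw [hNB1]
          nlinarith
  unfold QB2e
  refine (norm_add_le _ _).trans ?_
  linarith

private lemma QB2_large (m : Fin 2 → ℂ) (hm : nr m = 1) {s : ℂ} (hs : -1 < s.re) {η : ℝ}
    (hη : 0 < η) : ∃ C : ℝ, 0 < C ∧ ∀ N : ℕ, 1 ≤ N → ∀ z : Fin 2 → ℂ, nr z = 1 →
      16 * (N : ℝ) ^ (4 * η) ≤ N * xx m z →
      nr (fN N m (QB2e N s (xx m z)) *ᵥ coh N z) ≤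
        C * (N : ℝ) ^ (2 * η) / (N * xx m z) := by
  obtain ⟨C1, B1, hC1, hB1, h1⟩ := QB2_crude hs
  obtain ⟨C2, hC2, h2⟩ := pp_taylor hs
  obtain ⟨C3, hC3, h3⟩ := loc2 (K := 1) (fun _ => m) (fun _ => hm) (fun _ => s) (fun _ => hs) []
    (0 : Fin 1) hη (B1 + 1)
  refine ⟨5 * C2 + C1 * C3, by positivity, fun N hN z hz hbig => ?_⟩
  have h4 := h3 N hN z hz
  rw [List.map_nil, List.prod_nil, Matrix.one_mulVec] at h4
  have hN1 : (1 : ℝ) ≤ N := by exact_mod_cast hN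
  have hN0 : (0 : ℝ) < N := by linarith
  set x := xx m z with hx
  set M : ℝ := N * x with hM
  set q : ℝ := (N : ℝ) ^ η with hq
  have hq1 : 1 ≤ q := Real.one_le_rpow hN1 hη.le
  have hq4 : (N : ℝ) ^ (4 * η) = q ^ 4 := by
    rw [hq, ← Real.rpow_natCast, ← Real.rpow_mul hN0.le]
    congr 1
    push_cast
    ring
  have hq2 : (N : ℝ) ^ (2 * η) = q ^ 2 := by
    rw [hq, ← Real.rpow_natCast, ← Real.rpow_mul hN0.le]
    congr 1
    push_cast
    ring
  rw [hq4] at hbig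
  have hM16 : 16 ≤ M := by
    have : 1 ≤ q ^ 4 := one_le_pow₀ hq1
    linarith
  have hM0 : 0 < M := by linarith
  have hx0 : 0 < x := by
    rcases le_or_gt x 0 with h | h
    · have : M ≤ 0 := by rw [hM]; exact mul_nonpos_of_nonneg_of_nonpos hN0.le h
      linarith
    · exact h
  have hx1 : x ≤ 1 := xx_le_one hm hz
  have hMN : M ≤ N := by
    rw [hM]
    nlinarith
  set S := Real.sqrt M with hS
  have hS0 : 0 ≤ S := Real.sqrt_nonneg _
  have hSM : S ^ 2 = M := Real.sq_sqrt hM0.le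
  have hS4 : 4 * q ^ 2 ≤ S := by
    refine Real.le_sqrt_of_sq_le ?_
    nlinarith
  have hcoh : nr (coh N z) = 1 := by rw [nr_coh, hz, one_pow]
  -- the splitting
  have hsp : nr (fN N m (QB2e N s x) *ᵥ coh N z) ≤
      nr (fN N m (fun j => (1 - offw N η M j) * QB2e N s x j) *ᵥ coh N z) +
        nr (fN N m (fun j => offw N η M j * QB2e N s x j) *ᵥ coh N z) := by
    have : fN N m (QB2e N s x) = fN N m (fun j => (1 - offw N η M j) * QB2e N s x j) +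
        fN N m (fun j => offw N η M j * QB2e N s x j) := by
      rw [← fN_add]
      exact fN_congr fun j _ => by ring
    rw [this, Matrix.add_mulVec]
    exact nr_add_le _ _
  have hin : nr (fN N m (fun j => (1 - offw N η M j) * QB2e N s x j) *ᵥ coh N z) ≤
      5 * C2 * q ^ 2 / M := by
    have h5 := nr_fN_le (N := N) (φ := fun j => (1 - offw N η M j) * QB2e N s x j)
      (C := 5 * C2 * q ^ 2 / M) hm (fun j hj => ?_) (coh N z)
    · rwa [hcoh, mul_one] at h5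
    · unfold offw
      split_ifs with h6
      · rw [sub_zero, one_mul]
        have h7 : |(j : ℝ) - M| ≤ 2 * q * S := by
          refine h6.trans ?_
          nlinarith
        have h8 : |(j : ℝ) - M| ≤ M / 2 := by
          refine h7.trans ?_
          nlinarith
        have h9 := h2 N hN x hx0 hx1 (by linarith) j hj h8
        have h10 : QB2e N s x j = pp N s x j - 1 + s * (((j : ℝ) - N * x) / (N * x) : ℝ) := by
          unfold QB2e
          push_cast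
          ring
        rw [h10]
        refine h9.trans ?_
        have h11 : (((j : ℝ) - M) / M) ^ 2 ≤ 4 * q ^ 2 / M := by
          rw [div_pow, div_le_div_iff₀ (by positivity) hM0]
          have h12 : ((j : ℝ) - M) ^ 2 ≤ (2 * q * S) ^ 2 := by
            rw [← sq_abs]
            exact pow_le_pow_left₀ (abs_nonneg _) h7 2
          have h13 : (2 * q * S) ^ 2 = 4 * q ^ 2 * M := by
            rw [← hSM]
            ring
          rw [h13] at h12
          nlinarith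
        have h14 : 1 / M ≤ q ^ 2 / M := by
          apply div_le_div_of_nonneg_right _ hM0.le
          exact one_le_pow₀ hq1
        calc C2 * (1 / M + (((j : ℝ) - M) / M) ^ 2) ≤ C2 * (q ^ 2 / M + 4 * q ^ 2 / M) :=
              mul_le_mul_of_nonneg_left (add_le_add h14 h11) hC2.le
          _ = 5 * C2 * q ^ 2 / M := by ring
      · rw [sub_self, zero_mul, norm_zero]
        positivity
  have hout : nr (fN N m (fun j => offw N η M j * QB2e N s x j) *ᵥ coh N z) ≤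
      C1 * C3 / M := by
    have h5 : nr (fN N m (fun j => offw N η M j * QB2e N s x j) *ᵥ coh N z) ≤
        nr (fN N m (fun j => ((C1 * (N : ℝ) ^ B1 : ℝ) : ℂ) * offw N η M j) *ᵥ coh N z) := by
      refine nr_fN_mono hm (fun j hj => ?_) _
      rw [norm_mul, norm_mul, mul_comm, Complex.norm_real, Real.norm_of_nonneg (by positivity)]
      exact mul_le_mul_of_nonneg_right (h1 N hN x hx0 hx1 (by linarith) j hj) (norm_nonneg _)
    rw [fN_smul, Matrix.smul_mulVec, nr_smul, Complex.norm_real,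
      Real.norm_of_nonneg (by positivity)] at h5
    refine h5.trans ((mul_le_mul_of_nonneg_left h4 (by positivity)).trans ?_)
    have h6 : C1 * (N : ℝ) ^ B1 * (C3 * (N : ℝ) ^ (-(B1 + 1))) = C1 * C3 / N := by
      have : (N : ℝ) ^ B1 * (N : ℝ) ^ (-(B1 + 1)) = (N : ℝ)⁻¹ := by
        rw [← Real.rpow_add hN0, ← Real.rpow_neg_one]
        congr 1
        ring
      calc C1 * (N : ℝ) ^ B1 * (C3 * (N : ℝ) ^ (-(B1 + 1)))
          = C1 * C3 * ((N : ℝ) ^ B1 * (N : ℝ) ^ (-(B1 + 1))) := by ring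
        _ = C1 * C3 / N := by rw [this]; ring
    rw [h6]
    exact div_le_div_of_nonneg_left (by positivity) hM0 hMN
  rw [hq2]
  refine hsp.trans ((add_le_add hin hout).trans ?_)
  have h15 : C1 * C3 / M ≤ C1 * C3 * q ^ 2 / M := by
    apply div_le_div_of_nonneg_right _ hM0.le
    have : 1 ≤ q ^ 2 := one_le_pow₀ hq1
    nlinarith [mul_pos hC1 hC3]
  calc 5 * C2 * q ^ 2 / M + C1 * C3 / M ≤ 5 * C2 * q ^ 2 / M + C1 * C3 * q ^ 2 / M := by linarith
    _ = (5 * C2 + C1 * C3) * q ^ 2 / M := by ring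

private lemma QB2_small (m : Fin 2 → ℂ) (hm : nr m = 1) {s : ℂ} (hs : -1 < s.re) {η : ℝ}
    (hη : 0 < η) : ∃ C : ℝ, 0 < C ∧ ∀ N : ℕ, 1 ≤ N → ∀ z : Fin 2 → ℂ, nr z = 1 →
      1 ≤ N * xx m z → N * xx m z < 16 * (N : ℝ) ^ (4 * η) →
      nr (fN N m (QB2e N s (xx m z)) *ᵥ coh N z) ≤
        C * (N : ℝ) ^ (3 * η) / (N * xx m z) := by
  obtain ⟨C, hC, h⟩ := Q_bound (K := 1) (fun _ => m) (fun _ => hm) (fun _ => s) (fun _ => hs)
    [(0 : Fin 1)] hη
  refine ⟨8 * C + 4 * ‖s‖, by positivity, fun N hN z hz h1 hsm => ?_⟩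
  have hN1 : (1 : ℝ) ≤ N := by exact_mod_cast hN
  have hN0 : (0 : ℝ) < N := by linarith
  have hx0 : 0 < xx m z := by
    rcases le_or_gt (xx m z) 0 with h | h
    · have : (N : ℝ) * xx m z ≤ 0 := mul_nonpos_of_nonneg_of_nonpos hN0.le h
      linarith
    · exact h
  have hx1 : xx m z ≤ 1 := xx_le_one hm hz
  have h2 := h N hN z hz fun _ => hx0
  rw [List.map_cons, List.map_nil, List.prod_cons, List.prod_nil, mul_one, List.map_cons,
    List.map_nil, List.prod_cons, List.prod_nil, mul_one] at h2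
  set x := xx m z with hx
  set M : ℝ := N * x with hM
  have hM0 : 0 < M := by linarith
  set q : ℝ := (N : ℝ) ^ η with hq
  have hq1 : 1 ≤ q := Real.one_le_rpow hN1 hη.le
  have hq4 : (N : ℝ) ^ (4 * η) = q ^ 4 := by
    rw [hq, ← Real.rpow_natCast, ← Real.rpow_mul hN0.le]
    congr 1
    push_cast
    ring
  have hq3 : (N : ℝ) ^ (3 * η) = q ^ 3 := by
    rw [hq, ← Real.rpow_natCast, ← Real.rpow_mul hN0.le]
    congr 1
    push_cast
    ring
  rw [hq4] at hsm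
  set S := Real.sqrt M with hS
  have hS0 : 0 < S := Real.sqrt_pos.2 hM0
  have hSM : S ^ 2 = M := Real.sq_sqrt hM0.le
  have hS4 : S ≤ 4 * q ^ 2 := by
    rw [hS]
    refine Real.sqrt_le_iff.2 ⟨by positivity, ?_⟩
    nlinarith
  have hSi : S⁻¹ ≤ 4 * q ^ 2 / M := by
    rw [inv_le_iff_one_le_mul₀ hS0, div_mul_eq_mul_div, le_div_iff₀ hM0, one_mul, ← hSM]
    nlinarith
  have hG : Gf (aa s) M ≤ 2 * S⁻¹ := by
    unfold Gf
    have ha0 : 0 ≤ aa s := le_max_right _ _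
    have h3 : M ^ (-aa s) ≤ 1 := Real.rpow_le_one_of_one_le_of_nonpos h1 (by linarith)
    have h4 : (1 + M) ^ (-(1 / 2) : ℝ) ≤ S⁻¹ := by
      rw [Real.rpow_neg (by positivity), ← Real.sqrt_eq_rpow]
      exact inv_anti₀ hS0 (Real.sqrt_le_sqrt (by linarith))
    have h5 : 0 ≤ M ^ (-aa s) := by positivity
    exact mul_le_mul (by linarith) h4 (by positivity) (by norm_num)
  have hQ : nr (fN N m (fun j => pp N s x j - 1) *ᵥ coh N z) ≤ 8 * C * q ^ 3 / M := by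
    have h3 : Qop N (fun _ : Fin 1 => m) (fun _ => s) z 0 = fN N m (fun j => pp N s x j - 1) := rfl
    rw [h3] at h2
    refine h2.trans ?_
    calc C * q * Gf (aa s) M ≤ C * q * (2 * (4 * q ^ 2 / M)) := by
          refine mul_le_mul_of_nonneg_left (hG.trans ?_) (by positivity)
          linarith
      _ = 8 * C * q ^ 3 / M := by ring
  have hV : nr (fN N m (fun j => (j : ℂ) - ((M : ℝ) : ℂ)) *ᵥ coh N z) ≤ S := by
    have h3 := var_exact N hm hz
    rw [← hx, ← hM] at h3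
    refine Real.le_sqrt_of_sq_le ?_
    rw [h3]
    nlinarith
  have hdec : fN N m (QB2e N s x) = fN N m (fun j => pp N s x j - 1) +
      (s / ((M : ℝ) : ℂ)) • fN N m (fun j => (j : ℂ) - ((M : ℝ) : ℂ)) := by
    rw [← fN_smul, ← fN_add]
    rfl
  rw [hdec, Matrix.add_mulVec, Matrix.smul_mulVec]
  refine (nr_add_le _ _).trans ?_
  rw [nr_smul, norm_div, Complex.norm_real, Real.norm_of_nonneg hM0.le, hq3]
  have hV2 : ‖s‖ / M * nr (fN N m (fun j => (j : ℂ) - ((M : ℝ) : ℂ)) *ᵥ coh N z) ≤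
      4 * ‖s‖ * q ^ 3 / M := by
    calc ‖s‖ / M * nr (fN N m (fun j => (j : ℂ) - ((M : ℝ) : ℂ)) *ᵥ coh N z)
        ≤ ‖s‖ / M * (4 * q ^ 3) := by
          refine mul_le_mul_of_nonneg_left (hV.trans (hS4.trans ?_)) (by positivity)
          have : q ^ 2 ≤ q ^ 3 := pow_le_pow_right₀ hq1 (by norm_num)
          linarith
      _ = 4 * ‖s‖ * q ^ 3 / M := by ring
  calc nr (fN N m (fun j => pp N s x j - 1) *ᵥ coh N z) +
      ‖s‖ / M * nr (fN N m (fun j => (j : ℂ) - ((M : ℝ) : ℂ)) *ᵥ coh N z)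
      ≤ 8 * C * q ^ 3 / M + 4 * ‖s‖ * q ^ 3 / M := add_le_add hQ hV2
    _ = (8 * C + 4 * ‖s‖) * q ^ 3 / M := by ring

private lemma QB2_main (m : Fin 2 → ℂ) (hm : nr m = 1) {s : ℂ} (hs : -1 < s.re) {ε : ℝ}
    (hε : 0 < ε) : ∃ C : ℝ, 0 < C ∧ ∀ N : ℕ, 1 ≤ N → ∀ z : Fin 2 → ℂ, nr z = 1 →
      1 ≤ N * xx m z →
      nr (fN N m (QB2e N s (xx m z)) *ᵥ coh N z) ≤ C * (N : ℝ) ^ ε / (N * xx m z) := by
  have hη : 0 < ε / 3 := by positivity
  obtain ⟨C1, hC1, h1⟩ := QB2_large m hm hs hη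
  obtain ⟨C2, hC2, h2⟩ := QB2_small m hm hs hη
  refine ⟨C1 + C2, by positivity, fun N hN z hz hM => ?_⟩
  have hN1 : (1 : ℝ) ≤ N := by exact_mod_cast hN
  have hM0 : 0 < (N : ℝ) * xx m z := by linarith
  have h0 : 0 < (N : ℝ) ^ ε := Real.rpow_pos_of_pos (by linarith) _
  rcases le_or_gt (16 * (N : ℝ) ^ (4 * (ε / 3))) (N * xx m z) with h3 | h3
  · refine (h1 N hN z hz h3).trans (div_le_div_of_nonneg_right ?_ hM0.le)
    have h4 : (N : ℝ) ^ (2 * (ε / 3)) ≤ (N : ℝ) ^ ε :=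
      Real.rpow_le_rpow_of_exponent_le hN1 (by linarith)
    nlinarith
  · refine (h2 N hN z hz hM h3).trans (div_le_div_of_nonneg_right ?_ hM0.le)
    have h4 : (N : ℝ) ^ (3 * (ε / 3)) = (N : ℝ) ^ ε := by
      congr 1
      ring
    rw [h4]
    nlinarith

variable {K : ℕ}

theorem Q_first (m : Fin K → Fin 2 → ℂ) (hm : ∀ i, nr (m i) = 1) (s : Fin K → ℂ)
    (hs : ∀ i, -1 < (s i).re) (i : Fin K) {ε : ℝ} (hε : 0 < ε) :
    ∃ C : ℝ, 0 < C ∧ ∀ N : ℕ, 1 ≤ N → ∀ z : Fin 2 → ℂ, nr z = 1 → 1 ≤ N * xx (m i) z →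
      nr (Qop N m s z i *ᵥ coh N z + (s i / ((N * xx (m i) z : ℝ) : ℂ)) •
        (fN N (m i) (fun j => (j : ℂ) - ((N * xx (m i) z : ℝ) : ℂ)) *ᵥ coh N z)) ≤
        C * (N : ℝ) ^ ε / (N * xx (m i) z) := by
  obtain ⟨C, hC, h⟩ := QB2_main (m i) (hm i) (hs i) hε
  refine ⟨C, hC, fun N hN z hz hM => ?_⟩
  have h1 := h N hN z hz hM
  have h2 : Qop N m s z i *ᵥ coh N z + (s i / ((N * xx (m i) z : ℝ) : ℂ)) •
        (fN N (m i) (fun j => (j : ℂ) - ((N * xx (m i) z : ℝ) : ℂ)) *ᵥ coh N z) =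
      fN N (m i) (QB2e N (s i) (xx (m i) z)) *ᵥ coh N z := by
    rw [← Matrix.smul_mulVec, ← Matrix.add_mulVec]
    congr 1
    unfold Qop
    rw [← fN_smul, ← fN_add]
    rfl
  rw [h2]
  exact h1

theorem Qstar_first (m : Fin K → Fin 2 → ℂ) (hm : ∀ i, nr (m i) = 1) (s : Fin K → ℂ)
    (hs : ∀ i, -1 < (s i).re) (i : Fin K) {ε : ℝ} (hε : 0 < ε) :
    ∃ C : ℝ, 0 < C ∧ ∀ N : ℕ, 1 ≤ N → ∀ z : Fin 2 → ℂ, nr z = 1 → 1 ≤ N * xx (m i) z →
      nr ((Qop N m s z i)ᴴ *ᵥ coh N z + (conj (s i) / ((N * xx (m i) z : ℝ) : ℂ)) •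
        (fN N (m i) (fun j => (j : ℂ) - ((N * xx (m i) z : ℝ) : ℂ)) *ᵥ coh N z)) ≤
        C * (N : ℝ) ^ ε / (N * xx (m i) z) := by
  obtain ⟨C, hC, h⟩ := QB2_main (m i) (hm i) (hs i) hε
  refine ⟨C, hC, fun N hN z hz hM => ?_⟩
  have h1 := h N hN z hz hM
  have h2 : (Qop N m s z i)ᴴ *ᵥ coh N z + (conj (s i) / ((N * xx (m i) z : ℝ) : ℂ)) •
        (fN N (m i) (fun j => (j : ℂ) - ((N * xx (m i) z : ℝ) : ℂ)) *ᵥ coh N z) =
      fN N (m i) (fun j => conj (QB2e N (s i) (xx (m i) z) j)) *ᵥ coh N z := by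
    rw [← Matrix.smul_mulVec, ← Matrix.add_mulVec]
    congr 1
    unfold Qop
    rw [fN_conjTranspose, ← fN_smul, ← fN_add]
    refine fN_congr fun j _ => ?_
    unfold QB2e
    rw [map_add, map_mul, map_div₀, map_sub, map_sub, Complex.conj_ofReal, Complex.conj_natCast]
  rw [h2]
  refine (nr_fN_mono (hm i) (fun j _ => ?_) _).trans h1
  rw [Complex.norm_conj]

end MPF
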