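import Pool.Agent.MPF.Weight

/-!
# MPF/RootLaw: the eigenvalue law

PROOF. Induction on `n`; `n = 0` is trivial (`wt κ M = 1`, both integrals over one point spaces; `C = 1`).
Step `n → n+1` (`κ > n`): `(n+1) ∫ φ((det(z_i - M))_i) wt κ M dM` is by `peel` and `det_Psi`
`∫ dl ∫∫∫ φ(((z_i - l) det(z_i - M))_i) |det(l - M)|² wt κ (Psi)`, by `weight_int` (for fixed `l`; `ψ` is invariant under
conjugation) `C ∫ dl (1+|l|²)^{-(κ-n)} ∫ φ(...) |det(l-M)|² wt (κ-1) M dM`; apply the induction hypothesis for `κ - 1` with the `K+1` points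
`(z_1..z_K, l)`: `∫ dl (1+|l|²)^{-(κ-n)} ∫ φ(((z_i-l) ∏ (z_i - λ_j))_i) ∏ |l - λ_j|² ∏_{i<j}|λ_j-λ_i|² ∏ (1+|λ_j|²)^{-((κ-1)-n+1)}`,
and `(κ-1)-n+1 = κ-n`, which is `κ - (n+1) + 1`. Combine `(l, λ)` to `Fin (n+1) → ℂ`
(`volume_preserving_piFinSuccAbove`, `Fin.prod_univ_succ`).
-/

open MeasureTheory Matrix Finset Filter Topology
open scoped ENNReal ComplexConjugate

namespace MPF

/-- An integral over `Fin (n+1) → ℂ` as an iterated one. -/
private theorem rootLaw_cons (n : ℕ) (f : (Fin (n + 1) → ℂ) → ℝ≥0∞) (hf : Measurable f) :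
    ∫⁻ L : Fin (n + 1) → ℂ, f L = ∫⁻ l : ℂ, ∫⁻ v : Fin n → ℂ, f (Fin.cons l v) := by
  have h := (volume_preserving_piFinSuccAbove (fun _ : Fin (n + 1) => ℂ) 0).symm
  rw [← h.lintegral_comp_emb (MeasurableEquiv.measurableEmbedding _), Measure.volume_eq_prod,
    lintegral_prod]
  · apply lintegral_congr
    intro l
    apply lintegral_congr
    intro v
    congr 1
    exact Fin.insertNth_zero' l v
  · exact (hf.comp (MeasurableEquiv.measurable _)).aemeasurable

private theorem rootLaw_detmeas (n : ℕ) (c : ℂ) :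
    Measurable (fun M : Fin n → Fin n → ℂ => (c • (1 : Matrix (Fin n) (Fin n) ℂ) - Matrix.of M).det) := by
  apply Continuous.measurable
  apply Continuous.matrix_det
  apply Continuous.sub continuous_const
  exact continuous_id

private theorem rootLaw_conj (n : ℕ) (c : ℂ) (S M : Matrix (Fin n) (Fin n) ℂ) (hS : IsUnit S.det) :
    (c • (1 : Matrix (Fin n) (Fin n) ℂ) - Matrix.of (fun i j => (S * M * S⁻¹) i j)).det =
      (c • (1 : Matrix (Fin n) (Fin n) ℂ) - Matrix.of (fun i j => M i j)).det := by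
  have h1 : (Matrix.of (fun i j => (S * M * S⁻¹) i j) : Matrix (Fin n) (Fin n) ℂ) = S * M * S⁻¹ := rfl
  have h2 : (Matrix.of (fun i j => M i j) : Matrix (Fin n) (Fin n) ℂ) = M := rfl
  rw [h1, h2]
  have h3 : c • (1 : Matrix (Fin n) (Fin n) ℂ) - S * M * S⁻¹ = S * (c • (1 : Matrix (Fin n) (Fin n) ℂ) - M) * S⁻¹ := by
    rw [Matrix.mul_sub, Matrix.sub_mul, Matrix.mul_smul, Matrix.mul_one, Matrix.smul_mul,
      Matrix.mul_nonsing_inv S hS]
  rw [h3, Matrix.det_conj ((Matrix.isUnit_iff_isUnit_det S).2 hS)]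

theorem root_law (n : ℕ) : ∀ κ : ℝ, (n : ℝ) - 1 < κ → ∃ C : ℝ≥0∞, C ≠ 0 ∧ C ≠ ∞ ∧
    ∀ (K : ℕ) (z : Fin K → ℂ) (φ : (Fin K → ℂ) → ℝ≥0∞), Measurable φ →
      ∫⁻ M : Fin n → Fin n → ℂ,
        φ (fun i => (z i • (1 : Matrix (Fin n) (Fin n) ℂ) - Matrix.of M).det) * wt κ M =
      C * ∫⁻ l : Fin n → ℂ, φ (fun i => ∏ j, (z i - l j)) *
        ENNReal.ofReal ((∏ i, ∏ j ∈ Ioi i, ‖l j - l i‖ ^ 2) *
          ∏ j, (1 + ‖l j‖ ^ 2) ^ (-(κ - n + 1))) := by
  induction n with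
  | zero =>
    intro κ _
    refine ⟨1, one_ne_zero, ENNReal.one_ne_top, ?_⟩
    intro K z φ _
    rw [lintegral_unique, lintegral_unique, one_mul]
    have e1 : (volume : Measure (Fin 0 → Fin 0 → ℂ)) Set.univ = 1 := by
      rw [volume_pi, Measure.pi_of_empty]
      simp
    have e2 : (volume : Measure (Fin 0 → ℂ)) Set.univ = 1 := by
      rw [volume_pi, Measure.pi_of_empty]
      simp
    rw [e1, e2]
    congr 1
    simp [wt]
  | succ n ih =>
    intro κ hκ
    have hκ' : (n : ℝ) < κ := by push_cast at hκ; linarith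
    obtain ⟨C₁, hC₁0, hC₁t, hC₁⟩ := weight_int n hκ'
    obtain ⟨C₂, hC₂0, hC₂t, hC₂⟩ := ih (κ - 1) (by linarith)
    have hn0 : ((n + 1 : ℕ) : ℝ≥0∞) ≠ 0 := by
      exact_mod_cast Nat.succ_ne_zero n
    have hnt : ((n + 1 : ℕ) : ℝ≥0∞) ≠ ∞ := ENNReal.natCast_ne_top _
    refine ⟨((n + 1 : ℕ) : ℝ≥0∞)⁻¹ * (C₁ * C₂), ?_, ?_, ?_⟩
    · exact mul_ne_zero (ENNReal.inv_ne_zero.2 hnt) (mul_ne_zero hC₁0 hC₂0)
    · exact ENNReal.mul_ne_top (ENNReal.inv_ne_top.2 hn0) (ENNReal.mul_ne_top hC₁t hC₂t)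
    intro K z φ hφ
    have hdm := rootLaw_detmeas (n + 1)
    have hm : Measurable (fun M : Fin (n + 1) → Fin (n + 1) → ℂ =>
        φ (fun i => (z i • (1 : Matrix (Fin (n + 1)) (Fin (n + 1)) ℂ) - Matrix.of M).det) * wt κ M) := by
      refine Measurable.mul ?_ (measurable_wt _ _)
      exact hφ.comp (measurable_pi_iff.2 fun i => hdm (z i))
    have hp := peel n hm
    -- for fixed `l`
    have hl : ∀ l : ℂ, ∫⁻ x : Fin n → ℂ, ∫⁻ w : Fin n → ℂ, ∫⁻ M : Fin n → Fin n → ℂ,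
        (φ (fun i => (z i • (1 : Matrix (Fin (n + 1)) (Fin (n + 1)) ℂ) -
          Matrix.of (Psi l x w M)).det) * wt κ (Psi l x w M)) * ENNReal.ofReal
          (‖(l • (1 : Matrix (Fin n) (Fin n) ℂ) - Matrix.of M).det‖ ^ 2) =
        (C₁ * C₂) * ∫⁻ v : Fin n → ℂ, φ (fun i => ∏ j, (z i - (Fin.cons l v : Fin (n + 1) → ℂ) j)) *
          ENNReal.ofReal ((∏ i, ∏ j ∈ Ioi i, ‖(Fin.cons l v : Fin (n + 1) → ℂ) j -
            (Fin.cons l v : Fin (n + 1) → ℂ) i‖ ^ 2) *
          ∏ j, (1 + ‖(Fin.cons l v : Fin (n + 1) → ℂ) j‖ ^ 2) ^ (-(κ - ((n + 1 : ℕ) : ℝ) + 1))) := by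
      intro l
      set ψ : (Fin n → Fin n → ℂ) → ℝ≥0∞ := fun M =>
        φ (fun i => (z i - l) * (z i • (1 : Matrix (Fin n) (Fin n) ℂ) - Matrix.of M).det) *
          ENNReal.ofReal (‖(l • (1 : Matrix (Fin n) (Fin n) ℂ) - Matrix.of M).det‖ ^ 2) with hψ
      have hdn := rootLaw_detmeas n
      have hψm : Measurable ψ := by
        refine Measurable.mul ?_ ?_
        · exact hφ.comp (measurable_pi_iff.2 fun i => (hdn (z i)).const_mul (z i - l))
        · exact ((hdn l).norm.pow_const 2).ennreal_ofReal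
      have hψc : ∀ S M : Matrix (Fin n) (Fin n) ℂ, IsUnit S.det →
          ψ (fun i j => (S * M * S⁻¹) i j) = ψ (fun i j => M i j) := by
        intro S M hS
        simp only [hψ, rootLaw_conj n _ S M hS]
      have h1 := hC₁ l ψ hψm hψc
      have h2 : ∀ x w : Fin n → ℂ, ∀ M : Fin n → Fin n → ℂ,
          (φ (fun i => (z i • (1 : Matrix (Fin (n + 1)) (Fin (n + 1)) ℂ) -
          Matrix.of (Psi l x w M)).det) * wt κ (Psi l x w M)) * ENNReal.ofReal
          (‖(l • (1 : Matrix (Fin n) (Fin n) ℂ) - Matrix.of M).det‖ ^ 2) =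
          ψ M * wt κ (Psi l x w M) := by
        intro x w M
        simp only [hψ, det_Psi]
        ring
      simp_rw [h2]
      rw [h1]
      -- induction hypothesis
      set φ' : (Fin (K + 1) → ℂ) → ℝ≥0∞ := fun v =>
        φ (fun i => (z i - l) * v i.succ) * ENNReal.ofReal (‖v 0‖ ^ 2) with hφ'
      have hφ'm : Measurable φ' := by
        refine Measurable.mul ?_ ?_
        · exact hφ.comp (measurable_pi_iff.2 fun i => (measurable_pi_apply _).const_mul _)
        · exact ((measurable_pi_apply _).norm.pow_const 2).ennreal_ofReal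
      have h3 := hC₂ (K + 1) (Fin.cons l z) φ' hφ'm
      have h4 : ∀ M : Fin n → Fin n → ℂ, φ' (fun i =>
          ((Fin.cons l z : Fin (K + 1) → ℂ) i • (1 : Matrix (Fin n) (Fin n) ℂ) - Matrix.of M).det) = ψ M := by
        intro M
        simp only [hφ', hψ, Fin.cons_succ, Fin.cons_zero]
      simp_rw [h4] at h3
      rw [h3]
      rw [← mul_assoc, mul_assoc C₁ _ C₂, mul_comm _ C₂, ← mul_assoc, mul_assoc (C₁ * C₂),
        ← lintegral_const_mul']
      · congr 1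
        apply lintegral_congr
        intro v
        simp only [hφ', Fin.cons_succ, Fin.cons_zero, Fin.prod_univ_succ]
        have e1 : ∀ s : ℝ, 0 < 1 + s ^ 2 := fun s => by positivity
        rw [mul_comm (ENNReal.ofReal _), mul_assoc, mul_assoc, mul_assoc, ← ENNReal.ofReal_mul (by positivity),
          ← ENNReal.ofReal_mul (by positivity)]
        congr 2
        have e2 : ∏ j ∈ Ioi (0 : Fin (n + 1)), ‖(Fin.cons l v : Fin (n + 1) → ℂ) j - l‖ ^ 2 =
            ‖∏ j, (l - v j)‖ ^ 2 := by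
          rw [norm_prod, ← Finset.prod_pow, Fin.Ioi_zero_eq_map, Finset.prod_map]
          apply Finset.prod_congr rfl
          intro j _
          simp [norm_sub_rev]
        have e3 : ∀ i : Fin n, ∏ j ∈ Ioi i.succ, ‖(Fin.cons l v : Fin (n + 1) → ℂ) j - v i‖ ^ 2 =
            ∏ j ∈ Ioi i, ‖v j - v i‖ ^ 2 := by
          intro i
          rw [Fin.Ioi_succ, Finset.prod_map]
          apply Finset.prod_congr rfl
          intro j _
          simp
        rw [e2]
        simp_rw [e3]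
        have e4 : -(κ - 1 - n + 1) = -(κ - ((n + 1 : ℕ) : ℝ) + 1) := by push_cast; ring
        have e5 : -(κ - n) = -(κ - ((n + 1 : ℕ) : ℝ) + 1) := by push_cast; ring
        rw [e4, e5]
        ring
      · exact ENNReal.ofReal_ne_top
    simp_rw [hl] at hp
    rw [lintegral_const_mul'] at hp
    · rw [← rootLaw_cons n (fun L => φ (fun i => ∏ j, (z i - L j)) *
          ENNReal.ofReal ((∏ i, ∏ j ∈ Ioi i, ‖L j - L i‖ ^ 2) *
          ∏ j, (1 + ‖L j‖ ^ 2) ^ (-(κ - ((n + 1 : ℕ) : ℝ) + 1))))] at hp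
      · rw [mul_assoc, ← hp, ← mul_assoc, ENNReal.inv_mul_cancel hn0 hnt, one_mul]
      · refine Measurable.mul ?_ ?_
        · refine hφ.comp (measurable_pi_iff.2 fun i => ?_)
          fun_prop
        · apply Measurable.ennreal_ofReal
          fun_prop
    · exact ENNReal.mul_ne_top hC₁t hC₂t

end MPF
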