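import Pool.Agent.MPF.Defs

/-!
# MPF/Vec: elementary facts on `nr`, `hp`, `fro`

PROOF HINTS. `nr v = ‖WithLp.toLp 2 v‖` in `EuclideanSpace ℂ ι` (`EuclideanSpace.norm_eq`), hence
the triangle inequality etc.; `hp v w = inner ℂ (toLp v) (toLp w)`. Integrals of functions with
values in `ι → ℂ` (sup norm) commute with continuous linear maps (`ContinuousLinearMap.integral_comp_comm`);
for `nr_integral_le` transport along the continuous linear equivalence with `EuclideanSpace`.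
`fro` is the Euclidean norm on `ι × κ → ℂ`.
-/

open MeasureTheory Matrix Finset Filter Topology
open scoped ENNReal ComplexConjugate

namespace MPF

variable {ι κ : Type*} [Fintype ι] [Fintype κ]

lemma nr_nonneg (v : ι → ℂ) : 0 ≤ nr v := Real.sqrt_nonneg _

lemma nr_sq (v : ι → ℂ) : nr v ^ 2 = Sph.nsq v := Real.sq_sqrt (Sph.nsq_nonneg v)

lemma nr_eq_norm (v : ι → ℂ) : nr v = ‖(WithLp.toLp 2 v : EuclideanSpace ℂ ι)‖ := by
  rw [EuclideanSpace.norm_eq]
  rfl

lemma nr_zero : nr (0 : ι → ℂ) = 0 := by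
  rw [nr_eq_norm, WithLp.toLp_zero, norm_zero]

lemma nr_smul (c : ℂ) (v : ι → ℂ) : nr (c • v) = ‖c‖ * nr v := by
  rw [nr_eq_norm, nr_eq_norm, WithLp.toLp_smul, norm_smul]

lemma nr_neg (v : ι → ℂ) : nr (-v) = nr v := by
  rw [nr_eq_norm, nr_eq_norm, WithLp.toLp_neg, norm_neg]

lemma nr_add_le (v w : ι → ℂ) : nr (v + w) ≤ nr v + nr w := by
  rw [nr_eq_norm, nr_eq_norm, nr_eq_norm, WithLp.toLp_add]
  exact norm_add_le _ _

lemma nr_sub_le (v w : ι → ℂ) : nr (v - w) ≤ nr v + nr w := by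
  rw [nr_eq_norm, nr_eq_norm, nr_eq_norm, WithLp.toLp_sub]
  exact norm_sub_le _ _

lemma nr_sum_le {α : Type*} (s : Finset α) (f : α → ι → ℂ) :
    nr (∑ a ∈ s, f a) ≤ ∑ a ∈ s, nr (f a) := by
  classical
  induction s using Finset.induction_on with
  | empty =>
    rw [Finset.sum_empty, Finset.sum_empty, nr_zero]
  | insert a s ha ih =>
    rw [Finset.sum_insert ha, Finset.sum_insert ha]
    exact (nr_add_le _ _).trans (add_le_add le_rfl ih)

lemma nr_eq_zero {v : ι → ℂ} (h : nr v = 0) : v = 0 := by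
  rw [nr_eq_norm, norm_eq_zero] at h
  exact WithLp.toLp_injective 2 (h.trans (WithLp.toLp_zero 2).symm)

lemma norm_apply_le_nr (v : ι → ℂ) (i : ι) : ‖v i‖ ≤ nr v := by
  rw [nr_eq_norm]
  exact PiLp.norm_apply_le (WithLp.toLp 2 v : EuclideanSpace ℂ ι) i

lemma norm_le_nr (v : ι → ℂ) : ‖v‖ ≤ nr v := by
  exact (pi_norm_le_iff_of_nonneg (nr_nonneg v)).2 fun i => norm_apply_le_nr v i

lemma continuous_nr : Continuous (nr : (ι → ℂ) → ℝ) := by
  unfold nr
  exact Sph.continuous_nsq.sqrt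

lemma measurable_nr : Measurable (nr : (ι → ℂ) → ℝ) := continuous_nr.measurable

lemma nr_le_card (v : ι → ℂ) : nr v ≤ (Fintype.card ι : ℝ) * ‖v‖ := by
  unfold nr
  refine Real.sqrt_le_iff.2 ⟨by positivity, ?_⟩
  unfold Sph.nsq
  have h1 : ∀ i ∈ (Finset.univ : Finset ι), ‖v i‖ ^ 2 ≤ ‖v‖ ^ 2 := fun i _ =>
    pow_le_pow_left₀ (norm_nonneg _) (norm_le_pi_norm v i) 2
  have h2 : (Fintype.card ι : ℝ) ≤ (Fintype.card ι : ℝ) ^ 2 := by
    exact_mod_cast Nat.le_self_pow (by norm_num) (Fintype.card ι)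
  calc ∑ i, ‖v i‖ ^ 2 ≤ ∑ _i : ι, ‖v‖ ^ 2 := Finset.sum_le_sum h1
    _ = (Fintype.card ι : ℝ) * ‖v‖ ^ 2 := by
        rw [Finset.sum_const, Finset.card_univ, nsmul_eq_mul]
    _ ≤ (Fintype.card ι : ℝ) ^ 2 * ‖v‖ ^ 2 := mul_le_mul_of_nonneg_right h2 (by positivity)
    _ = ((Fintype.card ι : ℝ) * ‖v‖) ^ 2 := by ring

lemma hp_self (v : ι → ℂ) : hp v v = ((Sph.nsq v : ℝ) : ℂ) := by
  unfold hp Sph.nsq
  push_cast
  exact Finset.sum_congr rfl fun i _ => Complex.conj_mul' (v i)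

lemma conj_hp (v w : ι → ℂ) : conj (hp v w) = hp w v := by
  unfold hp
  rw [map_sum]
  refine Finset.sum_congr rfl fun i _ => ?_
  rw [map_mul, Complex.conj_conj, mul_comm]

lemma hp_add_left (u v w : ι → ℂ) : hp (u + v) w = hp u w + hp v w := by
  unfold hp
  rw [← Finset.sum_add_distrib]
  refine Finset.sum_congr rfl fun i _ => ?_
  rw [Pi.add_apply, map_add, add_mul]

lemma hp_add_right (u v w : ι → ℂ) : hp u (v + w) = hp u v + hp u w := by
  unfold hp
  rw [← Finset.sum_add_distrib]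
  refine Finset.sum_congr rfl fun i _ => ?_
  rw [Pi.add_apply, mul_add]

lemma hp_sub_left (u v w : ι → ℂ) : hp (u - v) w = hp u w - hp v w := by
  unfold hp
  rw [← Finset.sum_sub_distrib]
  refine Finset.sum_congr rfl fun i _ => ?_
  rw [Pi.sub_apply, map_sub, sub_mul]

lemma hp_sub_right (u v w : ι → ℂ) : hp u (v - w) = hp u v - hp u w := by
  unfold hp
  rw [← Finset.sum_sub_distrib]
  refine Finset.sum_congr rfl fun i _ => ?_
  rw [Pi.sub_apply, mul_sub]

lemma hp_smul_left (c : ℂ) (v w : ι → ℂ) : hp (c • v) w = conj c * hp v w := by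
  unfold hp
  rw [Finset.mul_sum]
  refine Finset.sum_congr rfl fun i _ => ?_
  rw [Pi.smul_apply, smul_eq_mul, map_mul, mul_assoc]

lemma hp_smul_right (c : ℂ) (v w : ι → ℂ) : hp v (c • w) = c * hp v w := by
  unfold hp
  rw [Finset.mul_sum]
  refine Finset.sum_congr rfl fun i _ => ?_
  rw [Pi.smul_apply, smul_eq_mul]
  ring

lemma continuous_hp : Continuous fun p : (ι → ℂ) × (ι → ℂ) => hp p.1 p.2 := by
  unfold hp
  refine continuous_finsetSum _ fun i _ => ?_
  exact (Complex.continuous_conj.comp ((continuous_apply i).comp continuous_fst)).mul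
    ((continuous_apply i).comp continuous_snd)

lemma norm_hp_le (v w : ι → ℂ) : ‖hp v w‖ ≤ nr v * nr w := by
  have h1 : hp v w = inner ℂ (WithLp.toLp 2 v : EuclideanSpace ℂ ι) (WithLp.toLp 2 w) := by
    rw [EuclideanSpace.inner_toLp_toLp]
    unfold hp dotProduct
    refine Finset.sum_congr rfl fun i _ => ?_
    rw [mul_comm]
    rfl
  rw [h1, nr_eq_norm, nr_eq_norm]
  exact norm_inner_le_norm _ _

lemma nsq_add (v w : ι → ℂ) : Sph.nsq (v + w) = Sph.nsq v + 2 * (hp v w).re + Sph.nsq w := by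
  have h1 : (hp v w).re = ∑ i, (conj (v i) * w i).re := by
    unfold hp
    exact Complex.re_sum _ _
  rw [h1, Finset.mul_sum]
  unfold Sph.nsq
  rw [← Finset.sum_add_distrib, ← Finset.sum_add_distrib]
  refine Finset.sum_congr rfl fun i _ => ?_
  rw [Pi.add_apply, Complex.sq_norm, Complex.sq_norm, Complex.sq_norm, Complex.normSq_add]
  have h2 : (v i * conj (w i)).re = (conj (v i) * w i).re := by
    simp [Complex.mul_re]
  rw [h2]
  ring

lemma hp_mulVec (A : Matrix ι κ ℂ) (v : ι → ℂ) (w : κ → ℂ) : hp v (A *ᵥ w) = hp (Aᴴ *ᵥ v) w := by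
  unfold hp Matrix.mulVec dotProduct
  simp only [map_sum, map_mul, Matrix.conjTranspose_apply, Finset.mul_sum, Finset.sum_mul]
  rw [Finset.sum_comm]
  refine Finset.sum_congr rfl fun j _ => Finset.sum_congr rfl fun i _ => ?_
  have h1 : conj (star (A i j)) = A i j := Complex.conj_conj _
  rw [h1]
  ring

lemma nr_mulVec_unitary [DecidableEq κ] (A : Matrix ι κ ℂ) (hA : Aᴴ * A = 1) (v : κ → ℂ) :
    nr (A *ᵥ v) = nr v := by
  unfold nr
  congr 1
  have h1 : ((Sph.nsq (A *ᵥ v) : ℝ) : ℂ) = ((Sph.nsq v : ℝ) : ℂ) := by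
    rw [← hp_self, ← hp_self, hp_mulVec, Matrix.mulVec_mulVec, hA, Matrix.one_mulVec]
  exact_mod_cast h1

section integral

variable {Ω : Type*} [MeasurableSpace Ω] {μ : Measure Ω} {f : Ω → ι → ℂ}

lemma integrable_nr (hf : Integrable f μ) : Integrable (fun x => nr (f x)) μ := by
  refine Integrable.mono' (hf.norm.const_mul (Fintype.card ι : ℝ))
    (continuous_nr.comp_aestronglyMeasurable hf.1) (Filter.Eventually.of_forall fun x => ?_)
  rw [Real.norm_of_nonneg (nr_nonneg _)]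
  exact nr_le_card _

lemma nr_integral_le (hf : Integrable f μ) : nr (∫ x, f x ∂μ) ≤ ∫ x, nr (f x) ∂μ := by
  have h1 : (WithLp.toLp 2 (∫ x, f x ∂μ) : EuclideanSpace ℂ ι) =
      ∫ x, (WithLp.toLp 2 (f x) : EuclideanSpace ℂ ι) ∂μ :=
    ((EuclideanSpace.equiv ι ℂ).symm.integral_comp_comm f).symm
  rw [nr_eq_norm, h1]
  refine (norm_integral_le_integral_norm _).trans (le_of_eq ?_)
  exact integral_congr_ae (Filter.Eventually.of_forall fun x => (nr_eq_norm (f x)).symm)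

private noncomputable def Vec_hpL (v : ι → ℂ) : (ι → ℂ) →L[ℂ] ℂ :=
  LinearMap.toContinuousLinearMap
    { toFun := hp v
      map_add' := fun a b => hp_add_right v a b
      map_smul' := fun c a => hp_smul_right c v a }

lemma integrable_hp (v : ι → ℂ) (hf : Integrable f μ) : Integrable (fun x => hp v (f x)) μ := by
  exact (Vec_hpL v).integrable_comp hf

lemma hp_integral (v : ι → ℂ) (hf : Integrable f μ) :
    hp v (∫ x, f x ∂μ) = ∫ x, hp v (f x) ∂μ := by
  exact ((Vec_hpL v).integral_comp_comm hf).symm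

lemma integrable_mulVec (A : Matrix κ ι ℂ) (hf : Integrable f μ) :
    Integrable (fun x => A *ᵥ f x) μ := by
  exact (LinearMap.toContinuousLinearMap (Matrix.mulVecLin A)).integrable_comp hf

lemma mulVec_integral (A : Matrix κ ι ℂ) (hf : Integrable f μ) :
    A *ᵥ (∫ x, f x ∂μ) = ∫ x, A *ᵥ f x ∂μ := by
  exact ((LinearMap.toContinuousLinearMap (Matrix.mulVecLin A)).integral_comp_comm hf).symm

end integral

lemma fro_nonneg (A : Matrix ι κ ℂ) : 0 ≤ fro A := Real.sqrt_nonneg _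

private lemma Vec_fro_eq (A : Matrix ι κ ℂ) : fro A = nr (fun p : ι × κ => A p.1 p.2) := by
  unfold fro nr Sph.nsq
  rw [Fintype.sum_prod_type]

private lemma Vec_nr_conj (a : κ → ℂ) : nr (fun k => conj (a k)) = nr a := by
  unfold nr Sph.nsq
  congr 1
  refine Finset.sum_congr rfl fun k _ => ?_
  rw [Complex.norm_conj]

private lemma Vec_cs (a b : κ → ℂ) : ‖∑ k, a k * b k‖ ≤ nr a * nr b := by
  have h1 : ∑ k, a k * b k = hp (fun k => conj (a k)) b := by
    unfold hp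
    refine Finset.sum_congr rfl fun k _ => ?_
    rw [Complex.conj_conj]
  rw [h1, ← Vec_nr_conj a]
  exact norm_hp_le _ _

private lemma Vec_cs2 (a b : κ → ℂ) : ‖∑ k, a k * b k‖ ^ 2 ≤ Sph.nsq a * Sph.nsq b := by
  rw [← nr_sq, ← nr_sq, ← mul_pow]
  exact pow_le_pow_left₀ (norm_nonneg _) (Vec_cs a b) 2

lemma fro_sq (A : Matrix ι κ ℂ) : fro A ^ 2 = ∑ i, ∑ j, ‖A i j‖ ^ 2 := by
  unfold fro
  exact Real.sq_sqrt (Finset.sum_nonneg fun i _ => Finset.sum_nonneg fun j _ => by positivity)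

lemma fro_zero : fro (0 : Matrix ι κ ℂ) = 0 := by
  rw [Vec_fro_eq]
  exact nr_zero

lemma fro_neg (A : Matrix ι κ ℂ) : fro (-A) = fro A := by
  rw [Vec_fro_eq, Vec_fro_eq]
  exact nr_neg _

lemma fro_smul (c : ℂ) (A : Matrix ι κ ℂ) : fro (c • A) = ‖c‖ * fro A := by
  rw [Vec_fro_eq, Vec_fro_eq]
  exact nr_smul c _

lemma fro_add_le (A B : Matrix ι κ ℂ) : fro (A + B) ≤ fro A + fro B := by
  rw [Vec_fro_eq, Vec_fro_eq, Vec_fro_eq]
  exact nr_add_le _ _

lemma fro_list_sum_le (L : List (Matrix ι κ ℂ)) : fro L.sum ≤ (L.map fro).sum := by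
  induction L with
  | nil =>
    rw [List.sum_nil, List.map_nil, List.sum_nil, fro_zero]
  | cons A L ih =>
    rw [List.sum_cons, List.map_cons, List.sum_cons]
    exact (fro_add_le _ _).trans (add_le_add le_rfl ih)

lemma fro_mul_le {ν : Type*} [Fintype ν] (A : Matrix ι κ ℂ) (B : Matrix κ ν ℂ) :
    fro (A * B) ≤ fro A * fro B := by
  have h1 : fro (A * B) ^ 2 ≤ (fro A * fro B) ^ 2 := by
    rw [fro_sq, mul_pow, fro_sq, fro_sq]
    have h2 : ∀ i j, ‖(A * B) i j‖ ^ 2 ≤ (∑ k, ‖A i k‖ ^ 2) * ∑ k, ‖B k j‖ ^ 2 := by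
      intro i j
      rw [Matrix.mul_apply]
      exact Vec_cs2 (fun k => A i k) fun k => B k j
    calc ∑ i, ∑ j, ‖(A * B) i j‖ ^ 2
        ≤ ∑ i, ∑ j, (∑ k, ‖A i k‖ ^ 2) * ∑ k, ‖B k j‖ ^ 2 :=
          Finset.sum_le_sum fun i _ => Finset.sum_le_sum fun j _ => h2 i j
      _ = (∑ i, ∑ k, ‖A i k‖ ^ 2) * ∑ k, ∑ j, ‖B k j‖ ^ 2 := by
          rw [Finset.sum_comm (s := (Finset.univ : Finset κ)) (t := (Finset.univ : Finset ν)),
            Finset.sum_mul_sum]
  exact le_of_sq_le_sq h1 (mul_nonneg (fro_nonneg A) (fro_nonneg B))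

lemma nr_mulVec_le_fro (A : Matrix ι κ ℂ) (v : κ → ℂ) : nr (A *ᵥ v) ≤ fro A * nr v := by
  have h1 : nr (A *ᵥ v) ^ 2 ≤ (fro A * nr v) ^ 2 := by
    rw [nr_sq, mul_pow, fro_sq, nr_sq, Finset.sum_mul]
    refine Finset.sum_le_sum fun i _ => ?_
    exact Vec_cs2 (fun k => A i k) v
  exact le_of_sq_le_sq h1 (mul_nonneg (fro_nonneg A) (nr_nonneg v))

/-- `|tr (A B)| ≤ ‖A‖_HS ‖B‖_HS`. -/
lemma norm_trace_mul_le (A : Matrix ι κ ℂ) (B : Matrix κ ι ℂ) :
    ‖(A * B).trace‖ ≤ fro A * fro B := by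
  have h1 : (A * B).trace = ∑ p : ι × κ, A p.1 p.2 * B p.2 p.1 := by
    rw [Fintype.sum_prod_type]
    rfl
  have h2 : fro B = nr (fun p : ι × κ => B p.2 p.1) := by
    unfold fro nr Sph.nsq
    rw [Fintype.sum_prod_type, Finset.sum_comm]
  rw [h1, h2, Vec_fro_eq A]
  exact Vec_cs (fun p : ι × κ => A p.1 p.2) fun p => B p.2 p.1

/-- Frobenius norm by duality with vectors: if `|w^* A v| ≤ ...` is not needed; this is the
rank one case. -/
lemma fro_vecMulVec (v : ι → ℂ) (w : κ → ℂ) : fro (Matrix.vecMulVec v w) = nr v * nr w := by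
  unfold fro nr Sph.nsq
  rw [← Real.sqrt_mul (Finset.sum_nonneg fun i _ => by positivity), Finset.sum_mul_sum]
  congr 1
  refine Finset.sum_congr rfl fun i _ => Finset.sum_congr rfl fun j _ => ?_
  rw [Matrix.vecMulVec_apply, norm_mul, mul_pow]

end MPF
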