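import Pool.Agent.MPF.Peel

/-!
# MPF/Weight: integrating out the eigenvector and the row

PROOF. Fix `l`, `x`; `h = 1 + |x|²`. `Psi = L T L^{-1}`, `L = [[1,0],[x,1]]`, `T = [[l,w],[0,M]]`, `|det L| = 1`, so
`det(1 + Ψ^*Ψ) = det(Q + T^*QT)`, `Q = L^*L = [[h, x^*],[x, 1]]`. `Q = R^*R`, `R = [[√h, x^*/√h],[0, R']]`,
`R' = 1 - c x x^*`, `c = 1/(√h(√h+1))` (hermitian, `R'² = 1 - x x^*/h`, `det R' = h^{-1/2}`). With `T' = R T R^{-1} = [[l, w'],[0, M'']]`,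
`M'' = R' M R'^{-1}`, `w' = (√h w + x^*(M - l)/√h) R'^{-1}`: `det(1+Ψ^*Ψ) = det(1 + T'^*T')`. For fixed `M`, `w ↦ w'` is affine
with real Jacobian `|h^{n/2} det R'^{-1}|² = h^{n+1}`; `M ↦ M''` is linear with Jacobian 1 (conjugation) and `ψ M'' = ψ M`. So
`∫∫ ψ(M) det(1+Ψ^*Ψ)^{-κ} dw dM = h^{-(n+1)} ∫∫ ψ(M) det(1 + T'^*T')^{-κ} dw' dM`, `T' = [[l,w'],[0,M]]`.
Schur complement: `det(1+T'^*T') = (1+|l|²) det(Y + w'^*w'/(1+|l|²)) = (1+|l|²) det Y (1 + w' Y^{-1} w'^*/(1+|l|²))`,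
`Y = 1 + M^*M` positive definite. Substitute `w' = √(1+|l|²) u Y^{1/2}` (real Jacobian `(1+|l|²)^n det Y`):
`∫ dw' (...)^{-κ} = (1+|l|²)^{n-κ} (det Y)^{1-κ} C₁`, `C₁ = ∫_{ℂ^n} (1+|u|²)^{-κ} du < ∞` as `κ > n`.
The constant is `C = C₁ ∫_{ℂ^n} (1+|x|²)^{-(n+1)} dx`, both integrals finite and non-zero
(`integrable_one_add_norm` type lemmas on `Fin n → ℂ`, or compare with the sup norm; `finrank ℝ = 2n < 2κ`).
Instead of square roots one may use `Y = S^*S` with any invertible `S` (`Matrix.PosDef`).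
-/

open MeasureTheory Matrix Finset Filter Topology
open scoped ENNReal ComplexConjugate

namespace MPF

/-! ### linear substitutions -/

theorem Weight_lin {E : Type*} [NormedAddCommGroup E] [NormedSpace ℂ E] [FiniteDimensional ℂ E]
    [MeasurableSpace E] [BorelSpace E] (μ : Measure E) [μ.IsAddHaarMeasure] (A : E →ₗ[ℂ] E)
    (hA : LinearMap.det A ≠ 0) (b : E) {f : E → ℝ≥0∞} (hf : Measurable f) :
    ∫⁻ x, f x ∂μ = ENNReal.ofReal (‖LinearMap.det A‖ ^ 2) * ∫⁻ x, f (A x + b) ∂μ := by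
  have hdet : LinearMap.det (A.restrictScalars ℝ) = ‖LinearMap.det A‖ ^ 2 := by
    rw [LinearMap.det_restrictScalars, Algebra.norm_complex_apply, Complex.normSq_eq_norm_sq]
  have hpos : 0 < ‖LinearMap.det A‖ ^ 2 := by
    have := norm_pos_iff.2 hA
    positivity
  have hne : LinearMap.det (A.restrictScalars ℝ) ≠ 0 := by
    rw [hdet]; exact hpos.ne'
  have h1 := Measure.map_linearMap_addHaar_eq_smul_addHaar μ hne
  have hmeas : Measurable (A.restrictScalars ℝ : E → E) :=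
    (A.restrictScalars ℝ).continuous_of_finiteDimensional.measurable
  have h2 : ∫⁻ x, f (A x + b) ∂μ = ∫⁻ y, f (y + b) ∂(μ.map (A.restrictScalars ℝ : E → E)) := by
    exact (lintegral_map (hf.comp (measurable_add_const b)) hmeas).symm
  rw [h2, h1, lintegral_smul_measure, lintegral_add_right_eq_self (μ := μ) f b, smul_eq_mul,
    ← mul_assoc, ← ENNReal.ofReal_mul hpos.le, hdet, abs_of_pos (inv_pos.2 hpos),
    mul_inv_cancel₀ hpos.ne', ENNReal.ofReal_one, one_mul]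

theorem Weight_vec {n : ℕ} (S : Matrix (Fin n) (Fin n) ℂ) (hS : S.det ≠ 0) (t : ℂ) (ht : t ≠ 0)
    (b : Fin n → ℂ) {f : (Fin n → ℂ) → ℝ≥0∞} (hf : Measurable f) :
    ∫⁻ w, f w = ENNReal.ofReal ((‖t‖ ^ 2) ^ n * ‖S.det‖ ^ 2) * ∫⁻ u, f (t • (u ᵥ* S) + b) := by
  have hd : LinearMap.det (Matrix.toLin' (t • Sᵀ)) = t ^ n * S.det := by
    rw [LinearMap.det_toLin', Matrix.det_smul, Matrix.det_transpose, Fintype.card_fin]
  have h := Weight_lin (volume : Measure (Fin n → ℂ)) (Matrix.toLin' (t • Sᵀ))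
    (by rw [hd]; exact mul_ne_zero (pow_ne_zero _ ht) hS) b hf
  rw [h, hd, norm_mul, norm_pow, mul_pow, ← pow_mul, mul_comm n 2, pow_mul]
  congr 1
  refine lintegral_congr fun u => ?_
  rw [Matrix.toLin'_apply, Matrix.smul_mulVec, Matrix.mulVec_transpose]

theorem Weight_conj {n : ℕ} (S : Matrix (Fin n) (Fin n) ℂ) (hS : S.det ≠ 0)
    {f : (Fin n → Fin n → ℂ) → ℝ≥0∞} (hf : Measurable f) :
    ∫⁻ M : Fin n → Fin n → ℂ, f M =
      ∫⁻ M : Fin n → Fin n → ℂ, f (fun i j => (S * Matrix.of M * S⁻¹) i j) := by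
  let e : (Fin n → Fin n → ℂ) ≃ₗ[ℂ] (Fin n × Fin n → ℂ) :=
    { toFun := fun M => Matrix.vec (Matrix.of M)
      invFun := fun v i j => v (j, i)
      map_add' := fun _ _ => rfl
      map_smul' := fun _ _ => rfl
      left_inv := fun _ => rfl
      right_inv := fun _ => rfl }
  let A : (Fin n → Fin n → ℂ) →ₗ[ℂ] (Fin n → Fin n → ℂ) :=
    (e.symm : (Fin n × Fin n → ℂ) →ₗ[ℂ] _) ∘ₗ
      Matrix.toLin' (Matrix.kroneckerMap (· * ·) (S⁻¹)ᵀ S) ∘ₗ (e : _ →ₗ[ℂ] (Fin n × Fin n → ℂ))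
  have hdet : LinearMap.det A = 1 := by
    have h1 := LinearMap.det_conj (Matrix.toLin' (Matrix.kroneckerMap (· * ·) (S⁻¹)ᵀ S)) e.symm
    rw [LinearEquiv.symm_symm] at h1
    have h2 : LinearMap.det A =
        LinearMap.det (Matrix.toLin' (Matrix.kroneckerMap (· * ·) (S⁻¹)ᵀ S)) := h1
    rw [h2, LinearMap.det_toLin', Matrix.det_kronecker, Matrix.det_transpose, Fintype.card_fin,
      ← mul_pow, ← Matrix.det_mul, Matrix.nonsing_inv_mul _ (isUnit_iff_ne_zero.2 hS),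
      Matrix.det_one, one_pow]
  have hA : ∀ M, A M = fun i j => (S * Matrix.of M * S⁻¹) i j := by
    intro M
    funext i j
    change (Matrix.toLin' (Matrix.kroneckerMap (· * ·) (S⁻¹)ᵀ S)
      (Matrix.vec (Matrix.of M))) (j, i) = _
    rw [Matrix.toLin'_apply, Matrix.kronecker_mulVec_vec, Matrix.transpose_transpose]
    rfl
  have : (volume : Measure (Fin n → Fin n → ℂ)).IsAddHaarMeasure :=
    MeasureTheory.Measure.pi.isAddHaarMeasure (fun _ => (volume : Measure (Fin n → ℂ)))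
  have h := Weight_lin (volume : Measure (Fin n → Fin n → ℂ)) A (by rw [hdet]; exact one_ne_zero)
    0 hf
  rw [hdet, norm_one, one_pow, ENNReal.ofReal_one, one_mul] at h
  rw [h]
  refine lintegral_congr fun M => ?_
  rw [add_zero, hA]

/-! ### the integral of `(1 + |u|²)^{-κ}` -/

theorem Weight_fin (n : ℕ) {κ : ℝ} (hκ : (n : ℝ) < κ) :
    (∫⁻ u : Fin n → ℂ, ENNReal.ofReal ((1 + Sph.nsq u) ^ (-κ))) ≠ 0 ∧
      (∫⁻ u : Fin n → ℂ, ENNReal.ofReal ((1 + Sph.nsq u) ^ (-κ))) ≠ ∞ := by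
  have hmeas : Measurable fun u : Fin n → ℂ => ENNReal.ofReal ((1 + Sph.nsq u) ^ (-κ)) := by
    refine ENNReal.measurable_ofReal.comp ?_
    exact ((continuous_const.add Sph.continuous_nsq).measurable).pow_const _
  have hpos : ∀ u : Fin n → ℂ, 0 < (1 + Sph.nsq u) ^ (-κ) := fun u =>
    Real.rpow_pos_of_pos (by have := Sph.nsq_nonneg u; linarith) _
  have hn : (0 : ℝ) ≤ n := Nat.cast_nonneg n
  constructor
  · intro h
    rw [lintegral_eq_zero_iff hmeas] at h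
    have h1 : ∀ᵐ u : Fin n → ℂ, False := by
      filter_upwards [h] with u hu
      have := hpos u
      rw [Pi.zero_apply, ENNReal.ofReal_eq_zero] at hu
      linarith
    rw [Filter.eventually_false_iff_eq_bot, ae_eq_bot] at h1
    exact NeZero.ne _ h1
  · have hfr : (Module.finrank ℝ (Fin n → ℂ) : ℝ) < 2 * κ := by
      rw [Module.finrank_pi_fintype]
      simp only [Complex.finrank_real_complex, Finset.sum_const, Finset.card_univ,
        Fintype.card_fin, smul_eq_mul, Nat.cast_mul, Nat.cast_ofNat]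
      linarith
    have h1 := integrable_rpow_neg_one_add_norm_sq (μ := (volume : Measure (Fin n → ℂ))) hfr
    have h2 : ∀ u : Fin n → ℂ, (1 + Sph.nsq u) ^ (-κ) ≤ (1 + ‖u‖ ^ 2) ^ (-(2 * κ) / 2) := by
      intro u
      have e : -(2 * κ) / 2 = -κ := by ring
      rw [e]
      refine Real.rpow_le_rpow_of_nonpos (by positivity) ?_ (by linarith)
      have h3 : ‖u‖ ^ 2 ≤ Sph.nsq u := by
        have h4 : ‖u‖ ≤ Real.sqrt (Sph.nsq u) := by
          refine (pi_norm_le_iff_of_nonneg (Real.sqrt_nonneg _)).2 fun i => ?_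
          refine Real.le_sqrt_of_sq_le ?_
          exact Finset.single_le_sum (f := fun i => ‖u i‖ ^ 2) (fun i _ => by positivity)
            (Finset.mem_univ i)
        calc ‖u‖ ^ 2 ≤ Real.sqrt (Sph.nsq u) ^ 2 := by
              exact pow_le_pow_left₀ (norm_nonneg _) h4 2
          _ = Sph.nsq u := Real.sq_sqrt (Sph.nsq_nonneg u)
      linarith
    refine ((lintegral_mono fun u => ENNReal.ofReal_le_ofReal (h2 u)).trans_lt ?_).ne
    exact h1.lintegral_lt_top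

/-! ### block matrices -/

/-- the matrix `[[a, r], [c, M]]` -/
def Weight_bl {n : ℕ} (a : ℂ) (r c : Fin n → ℂ) (M : Matrix (Fin n) (Fin n) ℂ) :
    Matrix (Fin (n + 1)) (Fin (n + 1)) ℂ :=
  Matrix.of (Fin.cons (Fin.cons a r) (fun i => Fin.cons (c i) (fun j => M i j)))

section bl

variable {n : ℕ} (a a' : ℂ) (r c r' c' : Fin n → ℂ) (M M' : Matrix (Fin n) (Fin n) ℂ)

@[simp] theorem Weight_bl_00 : Weight_bl a r c M 0 0 = a := rfl

@[simp] theorem Weight_bl_0s (j : Fin n) : Weight_bl a r c M 0 j.succ = r j := rfl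

@[simp] theorem Weight_bl_s0 (i : Fin n) : Weight_bl a r c M i.succ 0 = c i := rfl

@[simp] theorem Weight_bl_ss (i j : Fin n) : Weight_bl a r c M i.succ j.succ = M i j := rfl

theorem Weight_bl_mul : Weight_bl a r c M * Weight_bl a' r' c' M' =
    Weight_bl (a * a' + r ⬝ᵥ c') (a • r' + r ᵥ* M') (a' • c + M *ᵥ c')
      (vecMulVec c r' + M * M') := by
  ext i j
  refine Fin.cases ?_ (fun i => ?_) i <;> refine Fin.cases ?_ (fun j => ?_) j
  · simp [Matrix.mul_apply, Fin.sum_univ_succ, dotProduct]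
  · simp [Matrix.mul_apply, Fin.sum_univ_succ, dotProduct, Matrix.vecMul]
  · simp [Matrix.mul_apply, Fin.sum_univ_succ, dotProduct, Matrix.mulVec, mul_comm]
  · simp [Matrix.mul_apply, Fin.sum_univ_succ, Matrix.vecMulVec_apply]

theorem Weight_bl_H : (Weight_bl a r c M)ᴴ = Weight_bl (star a) (star c) (star r) Mᴴ := by
  ext i j
  refine Fin.cases ?_ (fun i => ?_) i <;> refine Fin.cases ?_ (fun j => ?_) j <;>
    simp [Matrix.conjTranspose_apply]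

theorem Weight_bl_one : (1 : Matrix (Fin (n + 1)) (Fin (n + 1)) ℂ) = Weight_bl 1 0 0 1 := by
  ext i j
  refine Fin.cases ?_ (fun i => ?_) i <;> refine Fin.cases ?_ (fun j => ?_) j
  · simp
  · simp [(Fin.succ_ne_zero j).symm]
  · simp [Fin.succ_ne_zero i]
  · simp [Matrix.one_apply]

theorem Weight_bl_add : Weight_bl a r c M + Weight_bl a' r' c' M' =
    Weight_bl (a + a') (r + r') (c + c') (M + M') := by
  ext i j
  refine Fin.cases ?_ (fun i => ?_) i <;> refine Fin.cases ?_ (fun j => ?_) j <;> simp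

theorem Weight_bl_congr {a a' : ℂ} {r c r' c' : Fin n → ℂ} {M M' : Matrix (Fin n) (Fin n) ℂ}
    (h1 : a = a') (h2 : r = r') (h3 : c = c') (h4 : M = M') :
    Weight_bl a r c M = Weight_bl a' r' c' M' := by
  rw [h1, h2, h3, h4]

theorem Weight_bl_det : (Weight_bl a r 0 M).det = a * M.det := by
  rw [Matrix.det_succ_column_zero, Fin.sum_univ_succ]
  have h1 : ∀ i : Fin n, (-1 : ℂ) ^ ((i.succ : Fin (n + 1)) : ℕ) * Weight_bl a r 0 M i.succ 0 *
      ((Weight_bl a r 0 M).submatrix i.succ.succAbove Fin.succ).det = 0 := by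
    intro i
    simp
  rw [Finset.sum_eq_zero fun i _ => h1 i, add_zero]
  have h2 : (Weight_bl a r 0 M).submatrix (Fin.succAbove 0) Fin.succ = M := by
    ext i j
    simp [Matrix.submatrix_apply]
  rw [h2]
  simp

end bl

/-- `det (1 + T^* T)` for `T = [[l, w], [0, M]]`, `w = c (u S)`, `c² = 1 + |l|²`, `S^* S = 1 + M^* M`. -/
theorem Weight_det {n : ℕ} (l : ℂ) (u : Fin n → ℂ) (M S : Matrix (Fin n) (Fin n) ℂ)
    (hS : Sᴴ * S = 1 + Mᴴ * M) (c : ℝ) (hc : c ^ 2 = 1 + ‖l‖ ^ 2) :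
    (1 + (Weight_bl l ((c : ℂ) • (u ᵥ* S)) 0 M)ᴴ * Weight_bl l ((c : ℂ) • (u ᵥ* S)) 0 M).det =
      (((1 + ‖l‖ ^ 2) * (1 + Sph.nsq u) : ℝ) : ℂ) * (1 + Mᴴ * M).det := by
  obtain ⟨T, hT⟩ : ∃ T, T = Weight_bl l ((c : ℂ) • u) 0 (0 : Matrix (Fin n) (Fin n) ℂ) := ⟨_, rfl⟩
  obtain ⟨V, hV⟩ : ∃ V, V = Weight_bl 1 0 0 S := ⟨_, rfl⟩
  have hkey : 1 + (Weight_bl l ((c : ℂ) • (u ᵥ* S)) 0 M)ᴴ *
      Weight_bl l ((c : ℂ) • (u ᵥ* S)) 0 M = Vᴴ * (1 + Tᴴ * T) * V := by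
    have hTV : T * V = Weight_bl l ((c : ℂ) • (u ᵥ* S)) 0 0 := by
      rw [hT, hV, Weight_bl_mul]
      refine Weight_bl_congr ?_ ?_ ?_ ?_
      · simp
      · simp [Matrix.smul_vecMul]
      · simp
      · simp
    have h1 : Vᴴ * (1 + Tᴴ * T) * V = Vᴴ * V + (T * V)ᴴ * (T * V) := by
      rw [Matrix.conjTranspose_mul]
      noncomm_ring
    rw [h1, hTV, hV, Weight_bl_H, Weight_bl_H, Weight_bl_H, Weight_bl_mul, Weight_bl_mul,
      Weight_bl_mul, Weight_bl_one, Weight_bl_add, Weight_bl_add]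
    refine Weight_bl_congr ?_ ?_ ?_ ?_
    · simp
    · simp
    · simp
    · simp [hS]
      abel
  have hTT : (1 + Tᴴ * T).det = (((1 + ‖l‖ ^ 2) * (1 + Sph.nsq u) : ℝ) : ℂ) := by
    rw [Matrix.det_one_add_mul_comm, hT, Weight_bl_H, Weight_bl_mul, Weight_bl_one, Weight_bl_add]
    have e : Weight_bl (1 + (l * star l + ((c : ℂ) • u) ⬝ᵥ star ((c : ℂ) • u)))
        (0 + (l • star (0 : Fin n → ℂ) + ((c : ℂ) • u) ᵥ* (0 : Matrix (Fin n) (Fin n) ℂ)ᴴ))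
        (0 + (star l • (0 : Fin n → ℂ) + (0 : Matrix (Fin n) (Fin n) ℂ) *ᵥ star ((c : ℂ) • u)))
        (1 + (vecMulVec (0 : Fin n → ℂ) (star (0 : Fin n → ℂ)) +
          (0 : Matrix (Fin n) (Fin n) ℂ) * (0 : Matrix (Fin n) (Fin n) ℂ)ᴴ)) =
        Weight_bl (((1 + ‖l‖ ^ 2) * (1 + Sph.nsq u) : ℝ) : ℂ) 0 0 1 := by
      refine Weight_bl_congr ?_ ?_ ?_ ?_
      · have h1 : l * star l = ((‖l‖ ^ 2 : ℝ) : ℂ) := by
          rw [Complex.star_def, Complex.mul_conj, Complex.normSq_eq_norm_sq]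
        have h2 : ((c : ℂ) • u) ⬝ᵥ star ((c : ℂ) • u) = ((c ^ 2 * Sph.nsq u : ℝ) : ℂ) := by
          unfold Sph.nsq dotProduct
          rw [Finset.mul_sum, Complex.ofReal_sum]
          refine Finset.sum_congr rfl fun i _ => ?_
          rw [Pi.star_apply, Pi.smul_apply, Complex.star_def, Complex.mul_conj,
            Complex.normSq_eq_norm_sq, smul_eq_mul, norm_mul, mul_pow, Complex.norm_real,
            Real.norm_eq_abs, sq_abs]
        rw [h1, h2, hc]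
        push_cast
        ring
      · simp
      · simp
      · simp
    rw [e, Weight_bl_det, Matrix.det_one, mul_one]
  have hVdet : Vᴴ.det * V.det = (1 + Mᴴ * M).det := by
    rw [hV, Weight_bl_det, ← hS, Matrix.det_mul, Matrix.det_conjTranspose,
      Matrix.det_conjTranspose, Weight_bl_det, one_mul]
  rw [hkey, Matrix.det_mul, Matrix.det_mul, hTT, ← hVdet]
  ring

theorem Weight_dot {n : ℕ} (x : Fin n → ℂ) : star x ⬝ᵥ x = ((Sph.nsq x : ℝ) : ℂ) := by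
  unfold Sph.nsq dotProduct
  rw [Complex.ofReal_sum]
  refine Finset.sum_congr rfl fun i _ => ?_
  rw [Pi.star_apply, Complex.star_def, mul_comm, Complex.mul_conj, Complex.normSq_eq_norm_sq]

/-- the square root of `1 - x x^* / (1 + |x|²)` -/
theorem Weight_root {n : ℕ} (x : Fin n → ℂ) : ∃ S : Matrix (Fin n) (Fin n) ℂ,
    Sᴴ * S = 1 - (((1 + Sph.nsq x)⁻¹ : ℝ) : ℂ) • vecMulVec x (star x) ∧
      S.det = (((Real.sqrt (1 + Sph.nsq x))⁻¹ : ℝ) : ℂ) := by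
  obtain ⟨h, hh⟩ : ∃ h, h = 1 + Sph.nsq x := ⟨_, rfl⟩
  have hh0 : 0 < h := by rw [hh]; have := Sph.nsq_nonneg x; linarith
  obtain ⟨s, hs⟩ : ∃ s, s = Real.sqrt h := ⟨_, rfl⟩
  have hs0 : 0 < s := by rw [hs]; exact Real.sqrt_pos.2 hh0
  have hsh : s ^ 2 = h := by rw [hs]; exact Real.sq_sqrt hh0.le
  obtain ⟨c, hc⟩ : ∃ c, c = (s * (s + 1))⁻¹ := ⟨_, rfl⟩
  obtain ⟨E, hE⟩ : ∃ E, E = vecMulVec x (star x) := ⟨_, rfl⟩
  have hEE : E * E = (Sph.nsq x : ℂ) • E := by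
    rw [hE, Matrix.vecMulVec_mul_vecMulVec, Weight_dot]
    ext i j
    simp [Matrix.vecMulVec_apply]
    ring
  have hEH : Eᴴ = E := by
    rw [hE, Matrix.conjTranspose_vecMulVec, star_star]
  have hns : Sph.nsq x = s ^ 2 - 1 := by rw [hsh, hh]; ring
  refine ⟨1 - (c : ℂ) • E, ?_, ?_⟩
  · rw [Matrix.conjTranspose_sub, Matrix.conjTranspose_one, Matrix.conjTranspose_smul, hEH,
      Complex.star_def, Complex.conj_ofReal, ← hE]
    have h1 : (1 - (c : ℂ) • E) * (1 - (c : ℂ) • E) =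
        1 - (2 * (c : ℂ) - (c : ℂ) ^ 2 * (Sph.nsq x : ℂ)) • E := by
      have h2 : (1 - (c : ℂ) • E) * (1 - (c : ℂ) • E) =
          1 - (2 * (c : ℂ)) • E + ((c : ℂ) ^ 2) • (E * E) := by
        rw [sub_mul, mul_sub, mul_sub, mul_one, one_mul, mul_one, smul_mul_smul_comm, two_mul,
          add_smul, sq]
        abel
      rw [h2, hEE, smul_smul, sub_smul]
      abel
    rw [h1, ← hh]
    congr 2
    have h3 : 2 * c - c ^ 2 * Sph.nsq x = h⁻¹ := by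
      rw [hns, ← hsh, hc]
      field_simp
      ring
    exact_mod_cast congrArg (fun t : ℝ => (t : ℂ)) h3
  · have h1 : (1 - (c : ℂ) • E) = 1 + replicateCol Unit (-(c : ℂ) • x) * replicateRow Unit (star x) := by
      rw [← Matrix.vecMulVec_eq, hE, sub_eq_add_neg]
      congr 1
      ext i j
      simp [Matrix.vecMulVec_apply]
      ring
    rw [h1, Matrix.det_one_add_replicateCol_mul_replicateRow, dotProduct_smul, Weight_dot, ← hh, ← hs]
    have h3 : 1 + -c * Sph.nsq x = s⁻¹ := by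
      rw [hns, hc]
      field_simp
      ring
    rw [smul_eq_mul]
    exact_mod_cast congrArg (fun t : ℝ => (t : ℂ)) h3

theorem Weight_Psi {n : ℕ} (l : ℂ) (x w w' : Fin n → ℂ) (M M' S : Matrix (Fin n) (Fin n) ℂ)
    (s : ℝ) (hs0 : 0 < s) (hs : s ^ 2 = 1 + Sph.nsq x)
    (hS : Sᴴ * S = 1 - (((1 + Sph.nsq x)⁻¹ : ℝ) : ℂ) • vecMulVec x (star x)) (hSd : S.det ≠ 0)
    (hM : M' * S = S * M)
    (hw : w' ᵥ* S = (s : ℂ) • w + ((s : ℂ)⁻¹) • (star x ᵥ* M - l • star x)) :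
    (1 + (Matrix.of (Psi l x w fun i j => M i j))ᴴ * Matrix.of (Psi l x w fun i j => M i j)).det =
      (1 + (Weight_bl l w' 0 M')ᴴ * Weight_bl l w' 0 M').det := by
  have hsc : (s : ℂ) ≠ 0 := by exact_mod_cast hs0.ne'
  obtain ⟨X, hX⟩ : ∃ X, X = Matrix.of (Psi l x w fun i j => M i j) := ⟨_, rfl⟩
  obtain ⟨L, hL⟩ : ∃ L, L = Weight_bl 1 0 x (1 : Matrix (Fin n) (Fin n) ℂ) := ⟨_, rfl⟩
  obtain ⟨T, hT⟩ : ∃ T, T = Weight_bl l w 0 M := ⟨_, rfl⟩
  obtain ⟨R, hR⟩ : ∃ R, R = Weight_bl (s : ℂ) ((s : ℂ)⁻¹ • star x) 0 S := ⟨_, rfl⟩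
  obtain ⟨T', hT'⟩ : ∃ T', T' = Weight_bl l w' 0 M' := ⟨_, rfl⟩
  have hXb : X = Weight_bl (l - w ⬝ᵥ x) w (l • x - (M + vecMulVec x w) *ᵥ x)
      (M + vecMulVec x w) := by
    rw [hX]
    ext i j
    refine Fin.cases ?_ (fun i => ?_) i <;> refine Fin.cases ?_ (fun j => ?_) j
    · simp [Psi, dotProduct]
    · simp [Psi]
    · simp [Psi, Matrix.mulVec, dotProduct, Matrix.vecMulVec_apply]
    · simp [Psi, Matrix.vecMulVec_apply]
  have hXL : X * L = L * T := by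
    rw [hXb, hL, hT, Weight_bl_mul, Weight_bl_mul]
    refine Weight_bl_congr ?_ ?_ ?_ ?_
    · simp
    · simp
    · simp
    · simp [add_comm]
  have hRR : Rᴴ * R = Lᴴ * L := by
    rw [hR, hL, Weight_bl_H, Weight_bl_H, Weight_bl_mul, Weight_bl_mul]
    refine Weight_bl_congr ?_ ?_ ?_ ?_
    · rw [Weight_dot x]
      simp only [star_one, mul_one, star_zero, dotProduct_zero, add_zero, Complex.star_def,
        Complex.conj_ofReal]
      have h1 : s * s = 1 + Sph.nsq x := by rw [← hs]; ring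
      exact_mod_cast congrArg (fun t : ℝ => (t : ℂ)) h1
    · rw [smul_smul, Complex.star_def, Complex.conj_ofReal, mul_inv_cancel₀ hsc]
      simp
    · rw [star_smul, star_star, star_inv₀, Complex.star_def, Complex.conj_ofReal, smul_smul,
        mul_inv_cancel₀ hsc]
      simp
    · rw [hS, star_smul, star_star, star_inv₀, Complex.star_def, Complex.conj_ofReal]
      have h1 : vecMulVec ((s : ℂ)⁻¹ • x) ((s : ℂ)⁻¹ • star x) =
          (((1 + Sph.nsq x)⁻¹ : ℝ) : ℂ) • vecMulVec x (star x) := by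
        rw [← hs]
        ext i j
        simp [Matrix.vecMulVec_apply]
        field_simp
      rw [h1]
      simp
  have hRT : R * T = T' * R := by
    rw [hR, hT, hT', Weight_bl_mul, Weight_bl_mul]
    refine Weight_bl_congr ?_ ?_ ?_ ?_
    · simp [mul_comm]
    · rw [hw, Matrix.smul_vecMul, smul_sub, smul_smul, smul_smul, mul_comm l]
      abel
    · simp
    · simp [hM]
  have key : Lᴴ * (1 + Xᴴ * X) * L = Rᴴ * (1 + T'ᴴ * T') * R := by
    have h1 : Lᴴ * (1 + Xᴴ * X) * L = Lᴴ * L + (X * L)ᴴ * (X * L) := by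
      rw [Matrix.conjTranspose_mul]; noncomm_ring
    have h2 : Rᴴ * (1 + T'ᴴ * T') * R = Rᴴ * R + (T' * R)ᴴ * (T' * R) := by
      rw [Matrix.conjTranspose_mul]; noncomm_ring
    have h3 : (L * T)ᴴ * (L * T) = Tᴴ * (Lᴴ * L) * T := by
      rw [Matrix.conjTranspose_mul]; noncomm_ring
    have h4 : (R * T)ᴴ * (R * T) = Tᴴ * (Rᴴ * R) * T := by
      rw [Matrix.conjTranspose_mul]; noncomm_ring
    rw [h1, h2, hXL, ← hRT, h3, h4, hRR]
  have hd := congrArg Matrix.det key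
  rw [Matrix.det_mul, Matrix.det_mul, Matrix.det_mul, Matrix.det_mul] at hd
  have hRd : R.det ≠ 0 := by
    rw [hR, Weight_bl_det]
    exact mul_ne_zero hsc hSd
  have hRHd : Rᴴ.det ≠ 0 := by
    rw [Matrix.det_conjTranspose]
    exact star_ne_zero.2 hRd
  have hLR : Lᴴ.det * L.det = Rᴴ.det * R.det := by
    rw [← Matrix.det_mul, ← Matrix.det_mul, hRR]
  have h5 : Rᴴ.det * R.det * (1 + Xᴴ * X).det = Rᴴ.det * R.det * (1 + T'ᴴ * T').det := by
    calc Rᴴ.det * R.det * (1 + Xᴴ * X).det = Lᴴ.det * L.det * (1 + Xᴴ * X).det := by rw [hLR]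
      _ = Lᴴ.det * (1 + Xᴴ * X).det * L.det := by ring
      _ = Rᴴ.det * (1 + T'ᴴ * T').det * R.det := hd
      _ = _ := by ring
  have h6 := mul_left_cancel₀ (mul_ne_zero hRHd hRd) h5
  rw [← hX, ← hT']
  exact h6

/-! ### the weight -/

theorem measurable_wt (n : ℕ) (κ : ℝ) : Measurable (wt (n := n) κ) := by
  have h : Continuous fun M : Fin n → Fin n → ℂ =>
      (1 + (Matrix.of M)ᴴ * Matrix.of M).det.re := by
    have h1 : Continuous fun M : Fin n → Fin n → ℂ => (Matrix.of M : Matrix (Fin n) (Fin n) ℂ) :=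
      continuous_id
    exact Complex.continuous_re.comp
      ((continuous_const.add (h1.matrix_conjTranspose.matrix_mul h1)).matrix_det)
  exact ENNReal.measurable_ofReal.comp (h.measurable.pow_const _)

open scoped ComplexOrder MatrixOrder in
theorem Weight_psd {n : ℕ} (M : Matrix (Fin n) (Fin n) ℂ) : ∃ S : Matrix (Fin n) (Fin n) ℂ,
    Sᴴ * S = 1 + Mᴴ * M ∧ 0 < (1 + Mᴴ * M).det.re ∧
      (1 + Mᴴ * M).det = (((1 + Mᴴ * M).det.re : ℝ) : ℂ) ∧
      ‖S.det‖ ^ 2 = (1 + Mᴴ * M).det.re := by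
  have hpd : (1 + Mᴴ * M).PosDef :=
    Matrix.PosDef.one.add_posSemidef (Matrix.posSemidef_conjTranspose_mul_self M)
  obtain ⟨S, hS⟩ := CStarAlgebra.nonneg_iff_eq_star_mul_self.mp hpd.posSemidef.nonneg
  rw [Matrix.star_eq_conjTranspose] at hS
  have h1 := hpd.det_pos
  rw [Complex.lt_def] at h1
  have h2 : (1 + Mᴴ * M).det = (((1 + Mᴴ * M).det.re : ℝ) : ℂ) := by
    apply Complex.ext
    · rw [Complex.ofReal_re]
    · rw [Complex.ofReal_im, ← h1.2, Complex.zero_im]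
  refine ⟨S, hS.symm, h1.1, h2, ?_⟩
  have h3 : ((‖S.det‖ ^ 2 : ℝ) : ℂ) = (((1 + Mᴴ * M).det.re : ℝ) : ℂ) := by
    rw [← h2, hS, Matrix.det_mul, Matrix.det_conjTranspose, Complex.star_def, mul_comm,
      Complex.mul_conj, Complex.normSq_eq_norm_sq]
  exact_mod_cast h3

theorem Weight_bl_cont {n : ℕ} (l : ℂ) (M : Matrix (Fin n) (Fin n) ℂ) :
    Continuous fun w : Fin n → ℂ => (fun i j => Weight_bl l w 0 M i j :
      Fin (n + 1) → Fin (n + 1) → ℂ) := by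
  refine continuous_pi fun i => continuous_pi fun j => ?_
  refine Fin.cases ?_ (fun i => ?_) i <;> refine Fin.cases ?_ (fun j => ?_) j
  · exact continuous_const
  · exact continuous_apply j
  · exact continuous_const
  · exact continuous_const

theorem Weight_inner {n : ℕ} (κ : ℝ) (l : ℂ) (M : Fin n → Fin n → ℂ) :
    ∫⁻ w : Fin n → ℂ, wt κ (fun i j => Weight_bl l w 0 (Matrix.of M) i j) =
      (∫⁻ u : Fin n → ℂ, ENNReal.ofReal ((1 + Sph.nsq u) ^ (-κ))) *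
        ENNReal.ofReal ((1 + ‖l‖ ^ 2) ^ (-(κ - n))) * wt (κ - 1) M := by
  obtain ⟨S, hS, hd0, hdr, hSd⟩ := Weight_psd (Matrix.of M)
  obtain ⟨d, hd⟩ : ∃ d, d = (1 + (Matrix.of M)ᴴ * Matrix.of M).det.re := ⟨_, rfl⟩
  rw [← hd] at hd0 hdr hSd
  obtain ⟨a, ha⟩ : ∃ a, a = 1 + ‖l‖ ^ 2 := ⟨_, rfl⟩
  have ha0 : 0 < a := by rw [ha]; positivity
  have hc0 : 0 < Real.sqrt a := Real.sqrt_pos.2 ha0
  have hc2 : Real.sqrt a ^ 2 = a := Real.sq_sqrt ha0.le
  have hSne : S.det ≠ 0 := by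
    intro h
    rw [h, norm_zero] at hSd
    have : d = 0 := by rw [← hSd]; norm_num
    exact hd0.ne' this
  have hf : Measurable fun w : Fin n → ℂ =>
      wt κ (fun i j => Weight_bl l w 0 (Matrix.of M) i j) :=
    (measurable_wt (n + 1) κ).comp (Weight_bl_cont l _).measurable
  rw [Weight_vec S hSne (Real.sqrt a : ℂ) (by exact_mod_cast hc0.ne') 0 hf]
  have h1 : ∀ u : Fin n → ℂ, wt κ (fun i j =>
      Weight_bl l ((Real.sqrt a : ℂ) • (u ᵥ* S) + 0) 0 (Matrix.of M) i j) =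
      ENNReal.ofReal (a ^ (-κ) * d ^ (-κ)) * ENNReal.ofReal ((1 + Sph.nsq u) ^ (-κ)) := by
    intro u
    have hu : 0 < 1 + Sph.nsq u := by have := Sph.nsq_nonneg u; linarith
    have h2 := Weight_det l u (Matrix.of M) S hS (Real.sqrt a) (by rw [hc2, ha])
    rw [add_zero]
    unfold wt
    have h3 : (Matrix.of fun i j => Weight_bl l ((Real.sqrt a : ℂ) • (u ᵥ* S)) 0 (Matrix.of M) i j)
      = Weight_bl l ((Real.sqrt a : ℂ) • (u ᵥ* S)) 0 (Matrix.of M) := rfl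
    rw [h3, h2, hdr, ← Complex.ofReal_mul, Complex.ofReal_re, ← ha,
      Real.mul_rpow (by positivity) hd0.le, Real.mul_rpow ha0.le hu.le,
      ← ENNReal.ofReal_mul (by positivity)]
    congr 1
    ring
  simp_rw [h1]
  have hmeas : Measurable fun u : Fin n → ℂ => ENNReal.ofReal ((1 + Sph.nsq u) ^ (-κ)) := by
    refine ENNReal.measurable_ofReal.comp ?_
    exact ((continuous_const.add Sph.continuous_nsq).measurable).pow_const _
  rw [lintegral_const_mul _ hmeas]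
  obtain ⟨J, hJ⟩ : ∃ J, J = ∫⁻ u : Fin n → ℂ, ENNReal.ofReal ((1 + Sph.nsq u) ^ (-κ)) := ⟨_, rfl⟩
  rw [← hJ]
  have key : ENNReal.ofReal ((‖(Real.sqrt a : ℂ)‖ ^ 2) ^ n * ‖S.det‖ ^ 2) *
      ENNReal.ofReal (a ^ (-κ) * d ^ (-κ)) =
      ENNReal.ofReal ((1 + ‖l‖ ^ 2) ^ (-(κ - n))) * wt (κ - 1) M := by
    unfold wt
    rw [← hd, ← ENNReal.ofReal_mul (by positivity), ← ENNReal.ofReal_mul (by positivity)]
    congr 1
    rw [hSd, Complex.norm_real, Real.norm_eq_abs, sq_abs, hc2]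
    have h4 : a ^ (-(κ - n)) = a ^ n * a ^ (-κ) := by
      rw [← Real.rpow_natCast a n, ← Real.rpow_add ha0]
      congr 1
      ring
    have h5 : d ^ (-(κ - 1)) = d * d ^ (-κ) := by
      have : -(κ - 1) = 1 + -κ := by ring
      rw [this, Real.rpow_add hd0, Real.rpow_one]
    rw [← ha, h4, h5]
    ring
  rw [← mul_assoc, key]
  ring

theorem Weight_Psi_cont {n : ℕ} (l : ℂ) (x : Fin n → ℂ) :
    Continuous fun p : (Fin n → ℂ) × (Fin n → Fin n → ℂ) => Psi l x p.1 p.2 := by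
  refine continuous_pi fun i => continuous_pi fun j => ?_
  refine Fin.cases ?_ (fun i => ?_) i <;> refine Fin.cases ?_ (fun j => ?_) j
  · simp only [Psi, Fin.cons_zero]
    fun_prop
  · simp only [Psi, Fin.cons_zero, Fin.cons_succ]
    fun_prop
  · simp only [Psi, Fin.cons_zero, Fin.cons_succ]
    fun_prop
  · simp only [Psi, Fin.cons_succ]
    fun_prop

/-- the integral over `w` -/
theorem Weight_w {n : ℕ} (κ : ℝ) (l : ℂ) (x : Fin n → ℂ) (S M : Matrix (Fin n) (Fin n) ℂ)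
    (hS : Sᴴ * S = 1 - (((1 + Sph.nsq x)⁻¹ : ℝ) : ℂ) • vecMulVec x (star x))
    (hSd : S.det = (((Real.sqrt (1 + Sph.nsq x))⁻¹ : ℝ) : ℂ)) :
    ∫⁻ w : Fin n → ℂ, wt κ (Psi l x w fun i j => M i j) =
      ENNReal.ofReal ((1 + Sph.nsq x) ^ (-((n + 1 : ℕ) : ℝ))) *
        ∫⁻ w : Fin n → ℂ, wt κ (fun i j => Weight_bl l w 0 (S * M * S⁻¹) i j) := by
  obtain ⟨h, hh⟩ : ∃ h, h = 1 + Sph.nsq x := ⟨_, rfl⟩
  have hh0 : 0 < h := by rw [hh]; have := Sph.nsq_nonneg x; linarith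
  obtain ⟨s, hs⟩ : ∃ s, s = Real.sqrt h := ⟨_, rfl⟩
  have hs0 : 0 < s := by rw [hs]; exact Real.sqrt_pos.2 hh0
  have hsh : s ^ 2 = h := by rw [hs]; exact Real.sq_sqrt hh0.le
  have hsc : (s : ℂ) ≠ 0 := by exact_mod_cast hs0.ne'
  have hSd' : S.det = ((s⁻¹ : ℝ) : ℂ) := by rw [hSd, ← hh, ← hs]
  have hSne : S.det ≠ 0 := by
    rw [hSd']
    exact_mod_cast (inv_pos.2 hs0).ne'
  have hf : Measurable fun w : Fin n → ℂ => wt κ (Psi l x w fun i j => M i j) :=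
    (measurable_wt (n + 1) κ).comp
      ((Weight_Psi_cont l x).comp (continuous_id.prodMk continuous_const)).measurable
  rw [Weight_vec S hSne ((s : ℂ)⁻¹) (inv_ne_zero hsc)
    (-(((s : ℂ)⁻¹) ^ 2 • (star x ᵥ* M - l • star x))) hf]
  congr 1
  · congr 1
    have e1 : s⁻¹ ^ 2 = h⁻¹ := by rw [inv_pow, hsh]
    rw [hSd', Complex.norm_real, Real.norm_eq_abs, sq_abs, norm_inv, Complex.norm_real,
      Real.norm_eq_abs, abs_of_pos hs0, e1, ← hh, Real.rpow_neg hh0.le,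
      Real.rpow_natCast, ← pow_succ, inv_pow]
  · refine lintegral_congr fun u => ?_
    have h1 := Weight_Psi l x
      (((s : ℂ)⁻¹) • (u ᵥ* S) + -(((s : ℂ)⁻¹) ^ 2 • (star x ᵥ* M - l • star x))) u M
      (S * M * S⁻¹) S s hs0 (by rw [hsh, hh]) hS hSne
      (by rw [mul_assoc, Matrix.nonsing_inv_mul _ (isUnit_iff_ne_zero.2 hSne), mul_one])
      (by
        rw [smul_add, smul_smul, mul_inv_cancel₀ hsc, one_smul, smul_neg, smul_smul]
        have e : (s : ℂ) * ((s : ℂ)⁻¹) ^ 2 = (s : ℂ)⁻¹ := by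
          field_simp
        rw [e]
        abel)
    unfold wt
    rw [h1]
    rfl

theorem Weight_meas_w {n : ℕ} (κ : ℝ) (l : ℂ) (x : Fin n → ℂ) (M : Matrix (Fin n) (Fin n) ℂ) :
    Measurable fun w : Fin n → ℂ => wt κ (Psi l x w fun i j => M i j) :=
  (measurable_wt (n + 1) κ).comp
      ((Weight_Psi_cont l x).comp (continuous_id.prodMk continuous_const)).measurable

theorem Weight_meas_p {n : ℕ} (κ : ℝ) (l : ℂ) (x : Fin n → ℂ) :
    Measurable fun p : (Fin n → ℂ) × (Fin n → Fin n → ℂ) => wt κ (Psi l x p.1 p.2) :=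
  (measurable_wt (n + 1) κ).comp (Weight_Psi_cont l x).measurable

theorem Weight_h1 {n : ℕ} (κ : ℝ) (l : ℂ) (x : Fin n → ℂ)
    (S : Matrix (Fin n) (Fin n) ℂ)
    (hS : Sᴴ * S = 1 - (((1 + Sph.nsq x)⁻¹ : ℝ) : ℂ) • vecMulVec x (star x))
    (hSd : S.det = (((Real.sqrt (1 + Sph.nsq x))⁻¹ : ℝ) : ℂ))
    (ψ : (Fin n → Fin n → ℂ) → ℝ≥0∞)
    (M : Matrix (Fin n) (Fin n) ℂ)
    (hinv : ψ (fun i j => (S * M * S⁻¹) i j) = ψ (fun i j => M i j)) :
    ∫⁻ w : Fin n → ℂ, ψ (fun i j => M i j) * wt κ (Psi l x w fun i j => M i j) =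
        ENNReal.ofReal ((1 + Sph.nsq x) ^ (-((n + 1 : ℕ) : ℝ))) *
        ((∫⁻ u : Fin n → ℂ, ENNReal.ofReal ((1 + Sph.nsq u) ^ (-κ))) *
          ENNReal.ofReal ((1 + ‖l‖ ^ 2) ^ (-(κ - n))) *
          (ψ (fun i j => (S * M * S⁻¹) i j) *
            wt (κ - 1) (fun i j => (S * M * S⁻¹) i j))) := by
  rw [lintegral_const_mul _ (Weight_meas_w κ l x M), Weight_w κ l x S M hS hSd]
  have h3 := Weight_inner κ l (fun i j => (S * M * S⁻¹) i j)
  have h5 : ∫⁻ w : Fin n → ℂ, wt κ (fun i j => Weight_bl l w 0 (S * M * S⁻¹) i j) =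
      ∫⁻ w : Fin n → ℂ, wt κ (fun i j => Weight_bl l w 0
        (Matrix.of fun i j => (S * M * S⁻¹) i j) i j) := rfl
  rw [h5, h3, hinv]
  ring

theorem Weight_swap {n : ℕ} (κ : ℝ) (l : ℂ) (x : Fin n → ℂ)
    {ψ : (Fin n → Fin n → ℂ) → ℝ≥0∞} (hψ : Measurable ψ) :
    ∫⁻ w : Fin n → ℂ, ∫⁻ M : Fin n → Fin n → ℂ, ψ M * wt κ (Psi l x w M) =
    ∫⁻ M : Fin n → Fin n → ℂ, ∫⁻ w : Fin n → ℂ, ψ M * wt κ (Psi l x w M) := by
  have h : Measurable fun p : (Fin n → ℂ) × (Fin n → Fin n → ℂ) =>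
      ψ p.2 * wt κ (Psi l x p.1 p.2) := (hψ.comp measurable_snd).mul (Weight_meas_p κ l x)
  exact lintegral_lintegral_swap (f := fun (w : Fin n → ℂ) (M : Fin n → Fin n → ℂ) =>
    ψ M * wt κ (Psi l x w M)) h.aemeasurable

theorem Weight_fin_conj {n : ℕ} (κ : ℝ) (S : Matrix (Fin n) (Fin n) ℂ) (hSne : S.det ≠ 0)
    {ψ : (Fin n → Fin n → ℂ) → ℝ≥0∞} (hψ : Measurable ψ) (a b : ℝ≥0∞) :
    ∫⁻ M : Fin n → Fin n → ℂ, a * (b *
      (ψ (fun i j => (S * Matrix.of M * S⁻¹) i j) *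
            wt (κ - 1) (fun i j => (S * Matrix.of M * S⁻¹) i j))) =
    a * (b * ∫⁻ M : Fin n → Fin n → ℂ, ψ M * wt (κ - 1) M) := by
  have hg : Measurable fun M : Fin n → Fin n → ℂ => ψ M * wt (κ - 1) M :=
    hψ.mul (measurable_wt n (κ - 1))
  have hconj := Weight_conj S hSne hg
  have hcont : Measurable fun M : Fin n → Fin n → ℂ =>
      (fun i j => (S * Matrix.of M * S⁻¹) i j : Fin n → Fin n → ℂ) := by
    refine Continuous.measurable ?_
    have h1 : Continuous fun M : Fin n → Fin n → ℂ => (Matrix.of M : Matrix (Fin n) (Fin n) ℂ) :=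
      continuous_id
    exact (continuous_const.matrix_mul h1).matrix_mul continuous_const
  have hg2 : Measurable fun M : Fin n → Fin n → ℂ =>
      ψ (fun i j => (S * Matrix.of M * S⁻¹) i j) *
        wt (κ - 1) (fun i j => (S * Matrix.of M * S⁻¹) i j) := hg.comp hcont
  rw [lintegral_const_mul _ (hg2.const_mul _), lintegral_const_mul _ hg2, ← hconj]

theorem Weight_hx {n : ℕ} (κ : ℝ) (l : ℂ) (x : Fin n → ℂ)
    {ψ : (Fin n → Fin n → ℂ) → ℝ≥0∞} (hψ : Measurable ψ)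
    (hinv : ∀ S M : Matrix (Fin n) (Fin n) ℂ, IsUnit S.det →
        ψ (fun i j => (S * M * S⁻¹) i j) = ψ (fun i j => M i j)) :
    ∫⁻ w : Fin n → ℂ, ∫⁻ M : Fin n → Fin n → ℂ, ψ M * wt κ (Psi l x w M) =
      ENNReal.ofReal ((1 + Sph.nsq x) ^ (-((n + 1 : ℕ) : ℝ))) *
        ((∫⁻ u : Fin n → ℂ, ENNReal.ofReal ((1 + Sph.nsq u) ^ (-κ))) *
          ENNReal.ofReal ((1 + ‖l‖ ^ 2) ^ (-(κ - n))) *
        ∫⁻ M : Fin n → Fin n → ℂ, ψ M * wt (κ - 1) M) := by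
  obtain ⟨S, hS, hSd⟩ := Weight_root x
  have hSne : S.det ≠ 0 := by
    rw [hSd]
    have : 0 < 1 + Sph.nsq x := by have := Sph.nsq_nonneg x; linarith
    exact_mod_cast (inv_pos.2 (Real.sqrt_pos.2 this)).ne'
  rw [Weight_swap κ l x hψ]
  have h1 : (fun M : Fin n → Fin n → ℂ => ∫⁻ w : Fin n → ℂ, ψ M * wt κ (Psi l x w M)) =
      fun M : Fin n → Fin n → ℂ => ENNReal.ofReal ((1 + Sph.nsq x) ^ (-((n + 1 : ℕ) : ℝ))) *
        ((∫⁻ u : Fin n → ℂ, ENNReal.ofReal ((1 + Sph.nsq u) ^ (-κ))) *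
          ENNReal.ofReal ((1 + ‖l‖ ^ 2) ^ (-(κ - n))) *
          (ψ (fun i j => (S * Matrix.of M * S⁻¹) i j) *
            wt (κ - 1) (fun i j => (S * Matrix.of M * S⁻¹) i j))) := by
    funext M
    exact Weight_h1 κ l x S hS hSd ψ (Matrix.of M)
      (hinv S (Matrix.of M) (isUnit_iff_ne_zero.2 hSne))
  rw [h1]
  exact Weight_fin_conj κ S hSne hψ _ _

theorem weight_int (n : ℕ) {κ : ℝ} (hκ : (n : ℝ) < κ) : ∃ C : ℝ≥0∞, C ≠ 0 ∧ C ≠ ∞ ∧
    ∀ (l : ℂ) (ψ : (Fin n → Fin n → ℂ) → ℝ≥0∞), Measurable ψ →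
      (∀ S M : Matrix (Fin n) (Fin n) ℂ, IsUnit S.det →
        ψ (fun i j => (S * M * S⁻¹) i j) = ψ (fun i j => M i j)) →
      ∫⁻ x : Fin n → ℂ, ∫⁻ w : Fin n → ℂ, ∫⁻ M : Fin n → Fin n → ℂ,
        ψ M * wt κ (Psi l x w M) =
      C * ENNReal.ofReal ((1 + ‖l‖ ^ 2) ^ (-(κ - n))) *
        ∫⁻ M : Fin n → Fin n → ℂ, ψ M * wt (κ - 1) M := by
  have hf := Weight_fin n hκ
  have hf' := Weight_fin n (κ := ((n + 1 : ℕ) : ℝ)) (by push_cast; linarith)
  refine ⟨(∫⁻ u : Fin n → ℂ, ENNReal.ofReal ((1 + Sph.nsq u) ^ (-((n + 1 : ℕ) : ℝ)))) *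
    ∫⁻ u : Fin n → ℂ, ENNReal.ofReal ((1 + Sph.nsq u) ^ (-κ)),
    mul_ne_zero hf'.1 hf.1, ENNReal.mul_ne_top hf'.2 hf.2, ?_⟩
  intro l ψ hψ hinv
  have hx : (fun x : Fin n → ℂ => ∫⁻ w : Fin n → ℂ, ∫⁻ M : Fin n → Fin n → ℂ,
      ψ M * wt κ (Psi l x w M)) = fun x : Fin n → ℂ =>
      ENNReal.ofReal ((1 + Sph.nsq x) ^ (-((n + 1 : ℕ) : ℝ))) *
        ((∫⁻ u : Fin n → ℂ, ENNReal.ofReal ((1 + Sph.nsq u) ^ (-κ))) *
          ENNReal.ofReal ((1 + ‖l‖ ^ 2) ^ (-(κ - n))) *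
        ∫⁻ M : Fin n → Fin n → ℂ, ψ M * wt (κ - 1) M) := by
    funext x
    exact Weight_hx κ l x hψ hinv
  rw [hx]
  have hmeas : Measurable fun u : Fin n → ℂ =>
      ENNReal.ofReal ((1 + Sph.nsq u) ^ (-((n + 1 : ℕ) : ℝ))) := by
    refine ENNReal.measurable_ofReal.comp ?_
    exact ((continuous_const.add Sph.continuous_nsq).measurable).pow_const _
  rw [lintegral_mul_const _ hmeas]
  ring

end MPF
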